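import Pool.Agent.MP_dd54b8_co.E3
import Pool.Agent.MP_dd54b8_co.C2

set_option autoImplicit false

/-! Rainbow connection of `k`-connected graphs, even `k`: the reduction method.  Definitions. -/

namespace Pool.RBE

open SimpleGraph Pool.Agent.RBC

section
variable {V : Type} [Fintype V] (G : SimpleGraph V)

open Classical in
/-- The interior of `K`: the vertices of `K` all of whose neighbours are in `K`. -/
noncomputable def intr (K : Set V) : Finset V :=
  Finset.univ.filter (fun v => v ∈ K ∧ ∀ w, G.Adj v w → w ∈ K)

/-- The bound: `G` has a rainbow colouring with `q` colours and `k * q ≤ |V| + C`. -/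
def Bd (k C : ℕ) : Prop := ∃ q, Rb G Set.univ q ∧ k * q ≤ Fintype.card V + C

/-- `G` is irreducible: no set `K` which is rainbow connected inside itself by `q` colours has an
interior with at least `k * q` vertices (and at least one vertex). (`K = V` is allowed.) -/
def Irr (k : ℕ) : Prop :=
  ∀ (K : Set V) (q : ℕ), Rb G K q → (intr G K).Nonempty → (intr G K).card < k * q

open Classical in
/-- The ball of radius `ρ`. -/
noncomputable def ball (v : V) (ρ : ℕ) : Finset V := Finset.univ.filter (fun x => G.dist v x ≤ ρ)

open Classical in
/-- The vertices at distance at most `R` from `D`. -/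
noncomputable def nbh (D : Set V) (R : ℕ) : Finset V :=
  Finset.univ.filter (fun x => ∃ u ∈ D, G.dist x u ≤ R)

end

section
variable {V : Type} (G : SimpleGraph V)

/-- `v` is a descendant of `u` in the forest with heights `h` and parents `π` (or `v = u`). -/
def Desc (h : V → ℕ) (π : V → V) (u v : V) : Prop := h u ≤ h v ∧ π^[h v - h u] v = u

/-- `u` is a bridge vertex of the part of the graph of height at most `c`: the only edge between the
descendants of `u` and the other vertices (all of height at most `c`) is the edge from `u` to its
parent. -/
def BV (h : V → ℕ) (π : V → V) (c : ℕ) (u : V) : Prop :=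
  0 < h u ∧ h u ≤ c ∧ ∀ a b, G.Adj a b → h a ≤ c → h b ≤ c → Desc h π u a → ¬ Desc h π u b →
    a = u ∧ b = π u

end

section
variable {V : Type} [Fintype V] (G : SimpleGraph V)

open Classical in
/-- The bridge vertices of height at most `t`. -/
noncomputable def BVs (h : V → ℕ) (π : V → V) (c t : ℕ) : Finset V :=
  Finset.univ.filter (fun u => BV G h π c u ∧ h u ≤ t)

open Classical in
/-- The descendants of `u` of height at least `s` and at most `t`. -/
noncomputable def dsl (h : V → ℕ) (π : V → V) (u : V) (s t : ℕ) : Finset V :=
  Finset.univ.filter (fun v => Desc h π u v ∧ s ≤ h v ∧ h v ≤ t)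

end

end Pool.RBE
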