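import Pool.Agent.MP_dd54b8_co.OF
import Pool.Agent.MP_dd54b8_co.K5
import Pool.Agent.RBE.S4.M8

set_option autoImplicit false

/-! Final assembly for MP_dd54b8_co. -/

namespace Pool.RBE

open SimpleGraph Pool.Agent.RBC

/-- From the bound `k * q ≤ n + C` to the colouring with `⌈n / k⌉ + c` colours. -/
theorem colour_of_bd {k : ℕ} (hk : 0 < k)
    (H : ∃ C : ℕ, ∀ (V : Type) [Fintype V] (G : SimpleGraph V), KConn G k →
      ∃ q, Rb G Set.univ q ∧ k * q ≤ Fintype.card V + C) :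
    ∃ c : ℕ, ∀ (V : Type) [Fintype V] (G : SimpleGraph V),
      (k < Fintype.card V ∧
        ∀ S : Finset V, S.card < k → (G.induce ((↑S : Set V)ᶜ)).Connected) →
      ∃ f : Sym2 V → Fin (⌈(Fintype.card V : ℝ) / (k : ℝ)⌉₊ + c),
        ∀ u v : V, ∃ p : G.Walk u v, p.IsPath ∧ (p.edges.map f).Nodup := by
  obtain ⟨C, hC⟩ := H
  refine ⟨C + 1, fun V _ G hG => ?_⟩
  obtain ⟨q, hq, hle⟩ := hC V G hG
  refine rb_final hq ?_ (by omega)
  have hkR : (0 : ℝ) < k := by exact_mod_cast hk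
  have hk1 : (1 : ℝ) ≤ k := by exact_mod_cast hk
  have h1 : (q : ℝ) ≤ (Fintype.card V : ℝ) / (k : ℝ) + C := by
    have : ((k * q : ℕ) : ℝ) ≤ ((Fintype.card V + C : ℕ) : ℝ) := by exact_mod_cast hle
    push_cast at this
    have h4 : (q : ℝ) ≤ ((Fintype.card V : ℝ) + C) / (k : ℝ) := by
      rw [le_div_iff₀ hkR]
      linarith
    have h5 : (C : ℝ) / (k : ℝ) ≤ C := div_le_self (by positivity) hk1
    rw [add_div] at h4
    linarith
  have h2 : (q : ℝ) ≤ (⌈(Fintype.card V : ℝ) / (k : ℝ)⌉₊ : ℝ) + C :=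
    h1.trans (by linarith [Nat.le_ceil ((Fintype.card V : ℝ) / (k : ℝ))])
  have h3 : q ≤ ⌈(Fintype.card V : ℝ) / (k : ℝ)⌉₊ + C := by exact_mod_cast h2
  omega

end Pool.RBE
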