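import Pool.Agent.RBE.JG
import Pool.Agent.RBE.S4.N0

set_option autoImplicit false

/-! [RBE-JH] From `section3` to the hypothesis of section 4 (`S4.even_bd`). -/

namespace Pool.RBE

open SimpleGraph Pool.Agent.RBC

/-- a diametral geodesic -/
theorem exists_diam {V : Type} [Fintype V] {G : SimpleGraph V} (hc : G.Connected) :
    ∃ (D : ℕ) (P : ℕ → V), Diam G D P := by
  classical
  obtain ⟨v⟩ := hc.nonempty
  obtain ⟨⟨a, b⟩, -, hab⟩ := Finset.exists_max_image (Finset.univ : Finset (V × V)) (fun z => G.dist z.1 z.2)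
    ⟨(v, v), Finset.mem_univ _⟩
  obtain ⟨w, hw⟩ := hc.exists_walk_length_eq_dist a b
  refine ⟨G.dist a b, fun i => w.getVert i, ?_, ?_⟩
  · intro i j hij hj
    have h1 : G.dist a (w.getVert i) ≤ i := by
      have := SimpleGraph.dist_le (w.take i)
      rw [Walk.take_length] at this
      omega
    have h2 : G.dist (w.getVert j) b ≤ G.dist a b - j := by
      have := SimpleGraph.dist_le (w.drop j)
      rw [Walk.drop_length] at this
      omega
    have h3 : G.dist (w.getVert i) (w.getVert j) ≤ j - i := by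
      have h5 : (w.drop i).getVert (j - i) = w.getVert j := by
        rw [Walk.drop_getVert]
        congr 1
        omega
      have := SimpleGraph.dist_le ((w.drop i).take (j - i))
      rw [Walk.take_length, h5] at this
      omega
    have h4 := hc.dist_triangle (u := a) (v := w.getVert i) (w := b)
    have h6 := hc.dist_triangle (u := w.getVert i) (v := w.getVert j) (w := b)
    show G.dist (w.getVert i) (w.getVert j) = j - i
    omega
  · intro u v
    exact hab (u, v) (Finset.mem_univ _)

/-- The form of section 4. -/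
theorem section3_S4 {k : ℕ} (hk : 0 < k)
    (H : ∃ L S : ℕ, ∀ (V : Type) [Fintype V] (G : SimpleGraph V), KConn G k → Irr G k →
      ∀ (D : ℕ) (P : ℕ → V), Diam G D P → J1 G L D P ∧ J2 G S D P) :
    ∃ L : ℕ, ∀ (V : Type) [Fintype V] (G : SimpleGraph V), KConn G k → Irr G k →
      ∃ (v0 : V) (p : ℕ → V) (D : ℕ), S4.Geo G v0 p D ∧ S4.J1 G v0 p L ∧ S4.J2 G v0 p L := by
  obtain ⟨L, S, H⟩ := H
  refine ⟨max L S, ?_⟩
  intro V _ G hG hI
  have hc : G.Connected := kconn_connected hG hk
  obtain ⟨D, P, hP⟩ := exists_diam hc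
  obtain ⟨h1, h2⟩ := H V G hG hI D P hP
  have hlev : ∀ i, i ≤ D → G.dist (P 0) (P i) = i := by
    intro i hi
    have := hP.geo 0 i (by omega) hi
    omega
  refine ⟨P 0, P, D, ⟨?_, hlev, fun x => hP.diam (P 0) x⟩, ?_, ?_⟩
  · intro i hi
    rw [← SimpleGraph.dist_eq_one_iff_adj, hP.geo i (i + 1) (by omega) (by omega)]
    omega
  · intro x x' hxx
    have hxx' : G.dist (P 0) x = G.dist (P 0) x' := hxx
    have := h1 (G.dist (P 0) x) (hP.diam _ _) x x' rfl hxx'.symm
    show G.dist x (P (G.dist (P 0) x)) ≤ max L S ∨ G.dist x' (P (G.dist (P 0) x)) ≤ max L S ∨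
      G.dist x x' ≤ max L S
    omega
  · intro x z hup hz
    exact h2 (G.dist (P 0) x) (hP.diam _ _) x z rfl (by
      have : G.dist (P 0) x + max L S ≤ G.dist (P 0) z := hz
      omega) hup

end Pool.RBE
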