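import Pool.Agent.RBE.M0

set_option autoImplicit false

/-! [RBE-J0] Definitions for section 3: nearest points, cuts by neighbourhoods, FACT A, FACT L, D3,
rings along a diametral geodesic; the final statements (J1), (J2). -/

namespace Pool.RBE

open SimpleGraph Pool.Agent.RBC

section
variable {V : Type} (G : SimpleGraph V)

/-- `x` is a nearest point of `D` to `u`. -/
def Near (D : Set V) (u x : V) : Prop := x ∈ D ∧ ∀ y ∈ D, G.dist u x ≤ G.dist u y

/-- Every walk from `u` to `v` comes within distance `ρ` of `D`. -/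
def Cuts (D : Set V) (ρ : ℕ) (u v : V) : Prop :=
  ∀ w : G.Walk u v, ∃ z ∈ w.support, ∃ y ∈ D, G.dist z y ≤ ρ

/-- FACT A for the set `D` (the points of an isometric cycle): if `u`, `v` are joined by a walk all of whose
vertices have distance `> ρ` from `D`, then their nearest points are at distance at most `s`. -/
def Gated (D : Set V) (ρ s : ℕ) : Prop :=
  ∀ u v x y, Near G D u x → Near G D v y → ¬ Cuts G D ρ u v → G.dist x y ≤ s

/-- FACT A for `G`. -/
def FA (ρ s : ℕ) : Prop := ∀ (n : ℕ) (c : ℕ → V), IsoCyc G n c → Gated G (Set.range c) ρ s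

/-- FACT L for `G`: two tall sides of an isometric cycle are attached antipodally. -/
def FL (ρ h0 δ0 : ℕ) : Prop := ∀ (n : ℕ) (c : ℕ → V), IsoCyc G n c → ∀ u v x y,
  Near G (Set.range c) u x → Near G (Set.range c) v y → h0 ≤ G.dist u x → h0 ≤ G.dist v y →
  Cuts G (Set.range c) ρ u v → n ≤ 2 * G.dist x y + 2 * δ0

/-- (D3) for `G`: no ball of radius `S` has three sides of height `≥ H`. -/
def D3 (S H : ℕ) : Prop := ∀ a u1 u2 u3, S + H ≤ G.dist a u1 → S + H ≤ G.dist a u2 →
  S + H ≤ G.dist a u3 → Cuts G {a} S u1 u2 → Cuts G {a} S u1 u3 → Cuts G {a} S u2 u3 → False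

/-- `P` is a diametral geodesic of length `D`. -/
structure Diam (D : ℕ) (P : ℕ → V) : Prop where
  geo : Geo G D P
  diam : ∀ u v, G.dist u v ≤ D

/-- A balanced ring along `P` (with nearest points `p`, `p'` of the two ends of `P`), having a level of `P` at
distance at least `K` from both ends of its range. This notion is symmetric with respect to reversing `P`. -/
structure Ring (ρ δ K D : ℕ) (P : ℕ → V) (n : ℕ) (c : ℕ → V) (p p' : V) : Prop where
  iso : IsoCyc G n c
  near0 : Near G (Set.range c) (P 0) p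
  nearD : Near G (Set.range c) (P D) p'
  cuts : Cuts G (Set.range c) ρ (P 0) (P D)
  bal : n ≤ 2 * G.dist p p' + 2 * δ
  deep : G.dist (P 0) p + G.dist (P D) p' + 2 * K ≤ D

/-- The level `i` of `P` is crossed by an isometric cycle within distance `r` of `P i` and at distance `> r'` from
`P i`. -/
def RingAt (P : ℕ → V) (i r r' n : ℕ) (c : ℕ → V) : Prop :=
  IsoCyc G n c ∧ (∃ j, G.dist (P 0) (c j) = i ∧ G.dist (P i) (c j) ≤ r) ∧
    ∃ j, G.dist (P 0) (c j) = i ∧ r' < G.dist (P i) (c j)

/-- (J1): at most two groups on every level, one of them at `P`. -/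
def J1 (L D : ℕ) (P : ℕ → V) : Prop := ∀ i, i ≤ D → ∀ x x', G.dist (P 0) x = i → G.dist (P 0) x' = i →
  G.dist x (P i) ≤ L ∨ G.dist x' (P i) ≤ L ∨ G.dist x x' ≤ L

/-- (J2): the only tall component of `{λ ≥ i}` is the one of `P`. -/
def J2 (S D : ℕ) (P : ℕ → V) : Prop := ∀ i, i ≤ D → ∀ x z, G.dist (P 0) x = i → i + S ≤ G.dist (P 0) z →
  (∃ w : G.Walk x z, ∀ y ∈ w.support, i ≤ G.dist (P 0) y) →
  ∃ w : G.Walk x (P i), ∀ y ∈ w.support, i ≤ G.dist (P 0) y

end

end Pool.RBE
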