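import Pool.Agent.RBE.M9C
import Pool.Agent.RBE.J0

set_option autoImplicit false

/-! [RBE-M11A] (D3) in the form used by the section J. -/

namespace Pool.RBE

open SimpleGraph Pool.Agent.RBC

/-- [RBE-M11A] Proof. `C` from `slack` with `R = S`, `H0` from `three_sides k hk C`, `H = H0 + 1`. Given `a, u1, u2, u3`: `X = {z | dist a z ≤ S}`; `a ∈ X`; `ConnIn`: every `z ∈ X` is joined to `a` by a geodesic, whose vertices are in `X`
(`dist a y ≤ dist a z` along it). `X.ncard ≤ C`: `slack` for `D = {a}`, `q = 0` (`rb_singleton`): `(nbh G {a} S).card < C` and `X = ↑(nbh G {a} S)` (`dist_comm`). `A i = {z | some walk from u_i to z has no vertex in X}`.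
`nbr`: if `b ∉ X` is adjacent to `z ∈ A i`, append the edge. `u_i ∈ A i` (`dist a u_i ≥ S + H > S`). Disjoint: a common vertex gives a walk from `u_i` to `u_j` without vertices in `X` (`Walk.append`, `reverse`), contradiction to `Cuts G {a} S u_i u_j` (also in the reversed order).
Height: `dist u_i x ≥ dist a u_i - dist a x ≥ H ≥ H0` for `x ∈ X`. -/
theorem d3_of_sides (k : ℕ) (hk : 4 ≤ k) (S : ℕ) :
    ∃ H : ℕ, ∀ (V : Type) [Fintype V] (G : SimpleGraph V), KConn G k → Irr G k → D3 G S H := by
  classical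
  obtain ⟨C, hC⟩ := slack k (by omega) S
  obtain ⟨H0, hH0⟩ := three_sides k hk C
  refine ⟨H0 + 1, ?_⟩
  intro V _ G hG hI a u1 u2 u3 h1 h2 h3 c12 c13 c23
  have hc : G.Connected := kconn_connected hG (by omega)
  have hmono : ∀ u v, Cuts G {a} S u v → ∀ w : G.Walk u v, ∃ z ∈ w.support, G.dist a z ≤ S := by
    intro u v h w
    obtain ⟨z, hz, y, hy, hd⟩ := h w
    rw [Set.mem_singleton_iff] at hy
    subst hy
    exact ⟨z, hz, by rw [SimpleGraph.dist_comm]; exact hd⟩
  let X : Set V := {z | G.dist a z ≤ S}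
  let u : Fin 3 → V := ![u1, u2, u3]
  have hu : ∀ i, S + (H0 + 1) ≤ G.dist a (u i) := by
    intro i
    fin_cases i
    · exact h1
    · exact h2
    · exact h3
  have hsep : ∀ i j, i ≠ j → ∀ w : G.Walk (u i) (u j), ∃ z ∈ w.support, G.dist a z ≤ S := by
    have hsym : ∀ x y, (∀ w : G.Walk x y, ∃ z ∈ w.support, G.dist a z ≤ S) →
        ∀ w : G.Walk y x, ∃ z ∈ w.support, G.dist a z ≤ S := by
      intro x y h w
      obtain ⟨z, hz, hd⟩ := h w.reverse
      exact ⟨z, by simpa using hz, hd⟩
    intro i j hij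
    fin_cases i <;> fin_cases j
    · exact absurd rfl hij
    · exact hmono _ _ c12
    · exact hmono _ _ c13
    · exact hsym _ _ (hmono _ _ c12)
    · exact absurd rfl hij
    · exact hmono _ _ c23
    · exact hsym _ _ (hmono _ _ c13)
    · exact hsym _ _ (hmono _ _ c23)
    · exact absurd rfl hij
  let A : Fin 3 → Set V := fun i => {z | ∃ w : G.Walk (u i) z, ∀ y ∈ w.support, y ∉ X}
  have haX : a ∈ X := by simp [X]
  have hball : ∀ z ∈ X, ∃ w : G.Walk a z, ∀ y ∈ w.support, y ∈ X := by
    intro z hz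
    obtain ⟨w, hw⟩ := hc.exists_walk_length_eq_dist a z
    refine ⟨w, fun y hy => ?_⟩
    have e1 := SimpleGraph.dist_le (w.takeUntil y hy)
    have e2 := w.length_takeUntil_le_length hy
    have e3 : G.dist a z ≤ S := hz
    show G.dist a y ≤ S
    omega
  have hconn : ConnIn G X := by
    intro x hx y hy
    obtain ⟨w1, hw1⟩ := hball x hx
    obtain ⟨w2, hw2⟩ := hball y hy
    refine ⟨w1.reverse.append w2, fun z hz => ?_⟩
    rw [Walk.mem_support_append_iff] at hz
    rcases hz with hz | hz
    · exact hw1 z (by simpa using hz)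
    · exact hw2 z hz
  have hXc : X.ncard ≤ C := by
    have e1 := hC V G hG hI {a} 0 ⟨a, rfl⟩ (rb_singleton a)
    have e2 : X = ↑(nbh G {a} S) := by
      ext z
      simp only [X, nbh, Finset.coe_filter, Finset.mem_univ, true_and, Set.mem_singleton_iff, exists_eq_left,
        Set.mem_ofPred_eq]
      rw [SimpleGraph.dist_comm]
    rw [e2, Set.ncard_coe_finset]
    omega
  refine hH0 V G hG hI X ⟨a, haX⟩ hconn hXc A ?_ ?_ ?_ ?_
  · rintro i z ⟨w, hw⟩ b hzb
    by_cases hb : b ∈ X
    · exact Or.inr hb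
    · left
      refine ⟨w.concat hzb, fun y hy => ?_⟩
      rw [Walk.support_concat] at hy
      simp only [List.mem_append, List.mem_cons, List.not_mem_nil, or_false] at hy
      rcases hy with hy | rfl
      · exact hw y hy
      · exact hb
  · rintro i z ⟨w, hw⟩
    exact hw z w.end_mem_support
  · rintro i j hij z ⟨w, hw⟩ ⟨w', hw'⟩
    obtain ⟨y, hy, hd⟩ := hsep i j hij (w.append w'.reverse)
    rw [Walk.mem_support_append_iff] at hy
    rcases hy with hy | hy
    · exact hw y hy hd
    · exact hw' y (by simpa using hy) hd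
  · intro i
    have hui : u i ∉ X := by
      intro h
      have e1 : G.dist a (u i) ≤ S := h
      have e2 := hu i
      omega
    refine ⟨u i, ⟨Walk.nil, ?_⟩, ?_⟩
    · intro y hy
      rw [Walk.support_nil, List.mem_singleton] at hy
      rw [hy]
      exact hui
    · intro x hx
      have e1 : G.dist a x ≤ S := hx
      have e2 := hu i
      have e3 := hc.dist_triangle (u := a) (v := x) (w := u i)
      have e4 : G.dist x (u i) = G.dist (u i) x := SimpleGraph.dist_comm
      omega

end Pool.RBE
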