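import Pool.Agent.RBE.M10B
import Pool.Agent.RBE.J0

set_option autoImplicit false

/-! [RBE-M11B] (FACT L) in the form used by the section J, from FACT A. -/

namespace Pool.RBE

open SimpleGraph Pool.Agent.RBC

theorem m11b_seq {V : Type} {G : SimpleGraph V} {y : ℕ → V} (n : ℕ) (hadj : ∀ i, i < n → G.Adj (y i) (y (i + 1))) :
    ∃ w : G.Walk (y 0) (y n), ∀ x ∈ w.support, ∃ t, t ≤ n ∧ x = y t := by
  induction n with
  | zero =>
    refine ⟨Walk.nil, ?_⟩
    intro x hx
    rw [Walk.support_nil, List.mem_singleton] at hx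
    exact ⟨0, le_rfl, hx⟩
  | succ n ih =>
    obtain ⟨w, h2⟩ := ih (fun i hi => hadj i (by omega))
    refine ⟨w.concat (hadj n (by omega)), ?_⟩
    intro x hx
    rw [Walk.support_concat, List.mem_append] at hx
    rcases hx with hx | hx
    · obtain ⟨t, ht, rfl⟩ := h2 x hx
      exact ⟨t, by omega, rfl⟩
    · rw [List.mem_singleton] at hx
      exact ⟨n + 1, le_rfl, hx⟩

/-- a geodesic walk stays close to its end -/
theorem m11b_geo {V : Type} {G : SimpleGraph V} (hG : G.Connected) (a b : V) :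
    ∃ w : G.Walk a b, ∀ z ∈ w.support, G.dist z b ≤ G.dist a b := by
  classical
  obtain ⟨p, hp⟩ := hG.exists_walk_length_eq_dist a b
  refine ⟨p, fun z hz => ?_⟩
  have h1 := SimpleGraph.dist_le (p.dropUntil z hz)
  have h2 : (p.dropUntil z hz).length ≤ p.length := p.length_dropUntil_le_length hz
  omega

section
variable {V : Type} {G : SimpleGraph V} {w : ℕ} {c : ℕ → V}

theorem m11b_adj (hc : IsoCyc G w c) (i : ℕ) : G.Adj (c i) (c (i + 1)) := by
  have h3 := hc.three
  have := hc.dist i (i + 1) (by omega) (by omega)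
  have h1 : G.dist (c i) (c (i + 1)) = 1 := by rw [this]; omega
  exact SimpleGraph.dist_eq_one_iff_adj.1 h1

theorem m11b_shift (hc : IsoCyc G w c) (f t : ℕ) : ∃ t', f ≤ t' ∧ t' < f + w ∧ c t' = c t := by
  have h3 := hc.three
  have hper : Function.Periodic c w := fun i => hc.per i
  refine ⟨f + (t + (w - 1) * f) % w, by omega, ?_, ?_⟩
  · have := Nat.mod_lt (t + (w - 1) * f) (show 0 < w by omega)
    omega
  · have hmod : (f + (t + (w - 1) * f) % w) % w = t % w := by
      rw [Nat.add_mod_mod]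
      have : f + (t + (w - 1) * f) = t + w * f := by
        obtain ⟨m, rfl⟩ : ∃ m, w = m + 1 := ⟨w - 1, by omega⟩
        simp only [Nat.add_sub_cancel]
        ring
      rw [this, Nat.add_mul_mod_self_left]
    rw [← hper.map_mod_nat (f + (t + (w - 1) * f) % w), hmod, hper.map_mod_nat]

/-- an arc of the cycle -/
theorem m11b_arc (hc : IsoCyc G w c) (f t : ℕ) :
    ∃ p : G.Walk (c t) (c f), ∀ z ∈ p.support, ∃ j, z = c j ∧ G.dist (c j) (c f) ≤ G.dist (c t) (c f) := by
  obtain ⟨t', h1, h2, h3⟩ := m11b_shift hc f t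
  rw [← h3]
  have hd := hc.dist f t' h1 (by omega)
  rw [SimpleGraph.dist_comm] at hd
  by_cases hle : t' - f ≤ f + w - t'
  · -- from `t'` down to `f`
    obtain ⟨p, hp⟩ := m11b_seq (G := G) (y := fun i => c (f + i)) (t' - f)
      (fun i _ => m11b_adj hc (f + i))
    have e1 : c (f + 0) = c f := by rw [Nat.add_zero]
    have e2 : c (f + (t' - f)) = c t' := by congr 1; omega
    refine ⟨(p.copy e1 e2).reverse, ?_⟩
    intro z hz
    rw [Walk.support_reverse, List.mem_reverse, Walk.support_copy] at hz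
    obtain ⟨i, hi, rfl⟩ := hp z hz
    refine ⟨f + i, rfl, ?_⟩
    have := hc.dist f (f + i) (by omega) (by omega)
    rw [SimpleGraph.dist_comm] at this
    rw [this, hd]
    omega
  · obtain ⟨p, hp⟩ := m11b_seq (G := G) (y := fun i => c (t' + i)) (f + w - t')
      (fun i _ => m11b_adj hc (t' + i))
    have e1 : c (t' + 0) = c t' := by rw [Nat.add_zero]
    have e2 : c (t' + (f + w - t')) = c f := by
      rw [← hc.per f]; congr 1; omega
    refine ⟨p.copy e1 e2, ?_⟩
    intro z hz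
    rw [Walk.support_copy] at hz
    obtain ⟨i, hi, rfl⟩ := hp z hz
    refine ⟨t' + i, rfl, ?_⟩
    have := hc.dist (t' + i) (f + w) (by omega) (by omega)
    rw [hc.per f] at this
    rw [this, hd]
    omega

end

/-- the hub around the point `x` -/
def m11bX {V : Type} (G : SimpleGraph V) (c : ℕ → V) (ρ r' : ℕ) (x : V) : Set V :=
  {z | ∃ t, G.dist (c t) x ≤ r' ∧ G.dist z (c t) ≤ ρ}

/-- the component of `u` in the far part -/
def m11bA {V : Type} (G : SimpleGraph V) (c : ℕ → V) (ρ : ℕ) (u : V) : Set V :=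
  {z | ∃ p : G.Walk u z, ∀ y ∈ p.support, ∀ t, ρ < G.dist y (c t)}

section
variable {V : Type} {G : SimpleGraph V} {w : ℕ} {c : ℕ → V} {ρ r' : ℕ}

theorem m11b_far {u z : V} (hz : z ∈ m11bA G c ρ u) (t : ℕ) : ρ < G.dist z (c t) := by
  obtain ⟨p, hp⟩ := hz
  exact hp z p.end_mem_support t

theorem m11b_conn (hG : G.Connected) (hc : IsoCyc G w c) (f : ℕ) : ConnIn G (m11bX G c ρ r' (c f)) := by
  have key : ∀ z ∈ m11bX G c ρ r' (c f), ∃ p : G.Walk z (c f), ∀ y ∈ p.support, y ∈ m11bX G c ρ r' (c f) := by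
    rintro z ⟨t, ht1, ht2⟩
    obtain ⟨p, hp⟩ := m11b_geo hG z (c t)
    obtain ⟨q, hq⟩ := m11b_arc hc f t
    refine ⟨p.append q, ?_⟩
    intro y hy
    rw [Walk.mem_support_append_iff] at hy
    rcases hy with hy | hy
    · exact ⟨t, ht1, (hp y hy).trans ht2⟩
    · obtain ⟨j, rfl, hj⟩ := hq y hy
      exact ⟨j, hj.trans ht1, by simp⟩
  intro x hx y hy
  obtain ⟨p, hp⟩ := key x hx
  obtain ⟨q, hq⟩ := key y hy
  refine ⟨p.append q.reverse, ?_⟩
  intro z hz
  rw [Walk.mem_support_append_iff, Walk.support_reverse, List.mem_reverse] at hz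
  exact hz.elim (hp z) (hq z)

theorem m11b_card [Fintype V] (hc : IsoCyc G w c) (f : ℕ) {C : ℕ}
    (hC : ∀ z, (nbh G {z} ρ).card < C) : (m11bX G c ρ r' (c f)).ncard ≤ (2 * r' + 1) * C + C := by
  classical
  let T : Finset V := (Finset.range (r' + 1)).image (fun j => c (f + j)) ∪
    (Finset.range (r' + 1)).image (fun j => c (f + w - j))
  have hT : T.card ≤ 2 * r' + 2 := by
    refine (Finset.card_union_le _ _).trans ?_
    have h1 := Finset.card_image_le (s := Finset.range (r' + 1)) (f := fun j => c (f + j))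
    have h2 := Finset.card_image_le (s := Finset.range (r' + 1)) (f := fun j => c (f + w - j))
    rw [Finset.card_range] at h1 h2
    omega
  have hsub : m11bX G c ρ r' (c f) ⊆ ↑(T.biUnion (fun z => nbh G {z} ρ)) := by
    rintro z ⟨t, ht1, ht2⟩
    rw [Finset.mem_coe, Finset.mem_biUnion]
    refine ⟨c t, ?_, ?_⟩
    · obtain ⟨t', h1, h2, h3⟩ := m11b_shift hc f t
      have hd := hc.dist f t' h1 (by omega)
      rw [SimpleGraph.dist_comm, h3] at hd
      rw [hd] at ht1
      rw [← h3]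
      rw [Finset.mem_union, Finset.mem_image, Finset.mem_image]
      rcases Nat.le_total (t' - f) (f + w - t') with h | h
      · exact Or.inl ⟨t' - f, Finset.mem_range.2 (by omega), by
          show c (f + (t' - f)) = c t'
          congr 1; omega⟩
      · refine Or.inr ⟨f + w - t', Finset.mem_range.2 (by omega), ?_⟩
        show c (f + w - (f + w - t')) = c t'
        congr 1; omega
    · unfold nbh
      rw [Finset.mem_filter]
      exact ⟨Finset.mem_univ _, c t, rfl, ht2⟩
  calc (m11bX G c ρ r' (c f)).ncard ≤ (↑(T.biUnion (fun z => nbh G {z} ρ)) : Set V).ncard :=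
        Set.ncard_le_ncard hsub (Finset.finite_toSet _)
    _ = (T.biUnion (fun z => nbh G {z} ρ)).card := Set.ncard_coe_finset _
    _ ≤ T.card * C := Finset.card_biUnion_le_card_mul _ _ _ (fun z _ => (hC z).le)
    _ ≤ (2 * r' + 2) * C := Nat.mul_le_mul_right _ hT
    _ = (2 * r' + 1) * C + C := by ring

theorem m11b_nbr (hG : G.Connected) {s : ℕ} (hA : Gated G (Set.range c) ρ s) {u x : V}
    (hu : Near G (Set.range c) u x) :
    ∀ a ∈ m11bA G c ρ u, ∀ b, G.Adj a b → b ∈ m11bA G c ρ u ∨ b ∈ m11bX G c ρ (s + 2 * ρ + 2) x := by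
  intro a ha b hab
  by_cases hb : ∀ t, ρ < G.dist b (c t)
  · left
    obtain ⟨p, hp⟩ := ha
    refine ⟨p.concat hab, ?_⟩
    intro y hy
    rw [Walk.support_concat, List.mem_append] at hy
    rcases hy with hy | hy
    · exact hp y hy
    · rw [List.mem_singleton] at hy
      rw [hy]; exact hb
  · right
    push Not at hb
    obtain ⟨t, ht⟩ := hb
    obtain ⟨e, he⟩ : ∃ e, ∀ j, G.dist a (c e) ≤ G.dist a (c j) :=
      ⟨Function.argmin (fun j => G.dist a (c j)), fun j => Function.argmin_le (fun j => G.dist a (c j)) j⟩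
    have hnear : Near G (Set.range c) a (c e) := by
      refine ⟨⟨e, rfl⟩, ?_⟩
      rintro _ ⟨j, rfl⟩
      exact he j
    have hnc : ¬ Cuts G (Set.range c) ρ u a := by
      intro hcut
      obtain ⟨p, hp⟩ := ha
      obtain ⟨z, hz, y, ⟨j, rfl⟩, hzy⟩ := hcut p
      have := hp z hz j
      omega
    have h1 := hA u a x (c e) hu hnear hnc
    have hab1 : G.dist a b = 1 := SimpleGraph.dist_eq_one_iff_adj.2 hab
    have t1 : G.dist a (c t) ≤ G.dist a b + G.dist b (c t) := hG.dist_triangle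
    have t2 : G.dist (c t) x ≤ G.dist (c t) a + G.dist a x := hG.dist_triangle
    have t3 : G.dist a x ≤ G.dist a (c e) + G.dist (c e) x := hG.dist_triangle
    have c1 : G.dist (c t) a = G.dist a (c t) := SimpleGraph.dist_comm
    have c2 : G.dist (c e) x = G.dist x (c e) := SimpleGraph.dist_comm
    have := he t
    exact ⟨t, by omega, ht⟩

theorem m11b_height (hG : G.Connected) {H0 : ℕ} {u x : V} (hu : Near G (Set.range c) u x)
    (h : H0 + 2 * ρ + 1 ≤ G.dist u x) (x' : V) :
    ∃ a ∈ m11bA G c ρ u, ∀ z ∈ m11bX G c ρ r' x', H0 ≤ G.dist a z := by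
  have hf : ∀ t, H0 + 2 * ρ + 1 ≤ G.dist u (c t) := fun t => h.trans (hu.2 _ ⟨t, rfl⟩)
  refine ⟨u, ⟨Walk.nil, ?_⟩, ?_⟩
  · intro y hy t
    rw [Walk.support_nil, List.mem_singleton] at hy
    rw [hy]
    have := hf t
    omega
  · rintro z ⟨t, -, ht⟩
    have t1 : G.dist u (c t) ≤ G.dist u z + G.dist z (c t) := hG.dist_triangle
    have := hf t
    omega

theorem m11b_cut {u v a : V} (hcut : Cuts G (Set.range c) ρ u v) (h1 : a ∈ m11bA G c ρ u) :
    a ∉ m11bA G c ρ v := by
  rintro ⟨q, hq⟩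
  obtain ⟨p, hp⟩ := h1
  obtain ⟨z, hz, y, ⟨j, rfl⟩, hzy⟩ := hcut (p.append q.reverse)
  rw [Walk.mem_support_append_iff, Walk.support_reverse, List.mem_reverse] at hz
  rcases hz with hz | hz
  · have := hp z hz j
    omega
  · have := hq z hz j
    omega

theorem m11b_notX {u a x : V} (h1 : a ∈ m11bA G c ρ u) : a ∉ m11bX G c ρ r' x := by
  rintro ⟨t, -, ht⟩
  have := m11b_far h1 t
  omega

end

/-- [RBE-M11B] Proof. `C` from `slack` with `R = ρ`, `r' = s + 2ρ + 2`, `S = (2 r' + 1) C + C`, `H0` from `two_tall k hk S`, `h0 = H0 + 2ρ + 1`, `δ0 = H0`. Let `W = range c`, `x = c i`, `y = c j`.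
Far vertices: `z` with `ρ < dist z (c t)` for all `t`. `A1` = the vertices joined to `u` by a walk of far vertices, `A2` the same for `v`; `u, v` are far (`dist u (c t) ≥ dist u x ≥ h0`). `A1 ∩ A2 = ∅` by `Cuts`.
`X1 = {z | ∃ t, dist (c t) x ≤ r' ∧ dist z (c t) ≤ ρ}`, `X2` the same with `y`. `x ∈ X1`, `y ∈ X2`. `ConnIn`: geodesic from `z` to `c t` (all its vertices are within `ρ` of `c t`), then from `c t` to `x` along the shorter arc of the cycle (all its points have distance `≤ dist (c t) x ≤ r'` from `x`).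
`nbr` for `A1`: let `a ∈ A1`, `b ~ a`, `b ∉ A1`. Then `b` is not far (otherwise `b ∈ A1`): `dist b (c t) ≤ ρ` for some `t`; `a` is far. Let `c e` be a nearest point of `a` (`W` is finite/nonempty, `ℕ`-valued distance): `dist a (c e) ≤ ρ + 1`. `FA` for `u, a` (not `Cuts`): `dist x (c e) ≤ s`. `dist (c t) (c e) ≤ ρ + 1 + (ρ + 1) = 2ρ + 2`, so
`dist (c t) x ≤ s + 2ρ + 2 = r'`, `b ∈ X1`. Size: there are at most `2 r' + 1` points `c t` with `dist (c t) x ≤ r'` (`t` modulo `n` in `[i - r', i + r']`; shift by `n` to avoid negative indices) and every ball of radius `ρ` has fewer than `C` vertices (`slack`, `D = {c t}`, `q = 0`).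
`A1, A2` consist of far vertices, `X1, X2` of non-far ones; `4 k² ≤ ρ < dist a (c t)`. Heights: `dist u z ≥ dist u (c t) - ρ ≥ h0 - ρ ≥ H0` for `z ∈ X1`.
Orientation: there are `f, δ` with (`c f = x`, `c (f + δ) = y` or `c f = y`, `c (f + δ) = x`) and `δ = dist x y` (choose `j` in `[i, i + n]` by periodicity; if `j - i ≤ n/2` take `f = i`, otherwise `f = j`, `δ = i + n - j`). `two_tall` (with `X1, X2` exchanged in the second case) gives `n < 2 dist x y + H0 ≤ 2 dist x y + 2 δ0`. -/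
theorem fl_of_fa (k : ℕ) (hk : 4 ≤ k) (ρ s : ℕ) (hρ : 4 * (k * k) ≤ ρ) :
    ∃ h0 δ0 : ℕ, ∀ (V : Type) [Fintype V] (G : SimpleGraph V), KConn G k → Irr G k → FA G ρ s → FL G ρ h0 δ0 := by
  obtain ⟨C, hC⟩ := slack k (by omega) ρ
  obtain ⟨H0, hH⟩ := two_tall k hk ((2 * (s + 2 * ρ + 2) + 1) * C + C)
  refine ⟨H0 + 2 * ρ + 1, H0, ?_⟩
  intro V _ G hK hI hFA n c hc
  have hG : G.Connected := kconn_connected hK (by omega)
  have hball : ∀ z, (nbh G {z} ρ).card < C := by
    intro z
    have := hC V G hK hI {z} 0 (Set.singleton_nonempty z) (rb_singleton z)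
    simpa using this
  have core : ∀ u v : V, ∀ f δ : ℕ, Near G (Set.range c) u (c f) → Near G (Set.range c) v (c (f + δ)) →
      H0 + 2 * ρ + 1 ≤ G.dist u (c f) → H0 + 2 * ρ + 1 ≤ G.dist v (c (f + δ)) →
      Cuts G (Set.range c) ρ u v → n < 2 * δ + H0 := by
    intro u v f δ hu hv hu0 hv0 hcut
    refine hH V G hK hI n c hc (m11bX G c ρ (s + 2 * ρ + 2) (c f)) (m11bX G c ρ (s + 2 * ρ + 2) (c (f + δ)))
      (m11bA G c ρ u) (m11bA G c ρ v) (m11b_conn hG hc f) (m11b_conn hG hc (f + δ))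
      (m11b_card hc f hball) (m11b_card hc (f + δ) hball) (m11b_nbr hG (hFA n c hc) hu)
      (m11b_nbr hG (hFA n c hc) hv) ?_ ?_ ?_ f δ ?_ ?_ (m11b_height hG hu hu0 _) (m11b_height hG hv hv0 _)
    · exact fun a ha => ⟨m11b_notX ha, m11b_notX ha, m11b_cut hcut ha⟩
    · exact fun a ha => ⟨m11b_notX ha, m11b_notX ha⟩
    · intro a ha i
      exact hρ.trans_lt (ha.elim (fun h => m11b_far h i) (fun h => m11b_far h i))
    · exact ⟨f, by simp, by simp⟩
    · exact ⟨f + δ, by simp, by simp⟩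
  intro u v x y hu hv hu0 hv0 hcut
  obtain ⟨i, rfl⟩ := hu.1
  obtain ⟨j0, hj0⟩ := hv.1
  obtain ⟨j, h1, h2, h3⟩ := m11b_shift hc i j0
  rw [hj0] at h3
  subst h3
  have hd := hc.dist i j h1 (by omega)
  by_cases hle : j - i ≤ i + n - j
  · have e : c (i + (j - i)) = c j := by congr 1; omega
    have := core u v i (j - i) hu (by rw [e]; exact hv) hu0 (by rw [e]; exact hv0) hcut
    omega
  · have e : c (j + (i + n - j)) = c i := by
      rw [← hc.per i]; congr 1; omega
    have hcut' : Cuts G (Set.range c) ρ v u := by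
      intro p
      obtain ⟨z, hz, hz'⟩ := hcut p.reverse
      rw [Walk.support_reverse, List.mem_reverse] at hz
      exact ⟨z, hz, hz'⟩
    have := core v u j (i + n - j) hv (by rw [e]; exact hu) hv0 (by rw [e]; exact hu0) hcut'
    omega

end Pool.RBE
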