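import Pool.Agent.RBE.Base

set_option autoImplicit false

/-!
[RBE-Z1] the zero-loss strand lemma.  [RBE-Z2] the mass of an isometric cycle.
-/

namespace Pool.RBE

open SimpleGraph Pool.Agent.RBC

/-- The counting lemma: thin levels are paid by the levels above them. -/
theorem strand_count (k ρ b : ℕ) (n : ℕ → ℕ) (hk : 2 ≤ k) (hρ : k ^ 2 ≤ ρ) (a0 : ℕ)
    (hpos : ∀ i, a0 ≤ i → i ≤ b → 1 ≤ n i)
    (hblk : ∀ t s, a0 ≤ t → t + 2 ≤ s → s ≤ b → 2 * n t < k → 2 * n s ≤ k →
      ρ + 1 ≤ ∑ i ∈ Finset.Ioo t s, n i) :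
    ∀ (m a : ℕ), a0 ≤ a → a + m = b + 1 →
      k * m ≤ 2 * ∑ i ∈ Finset.Ico a (b + 1), n i + 2 * (k - 2) := by
  intro m
  induction m using Nat.strong_induction_on with
  | _ m ih =>
    intro a ha ham
    rcases Nat.eq_zero_or_pos m with hm0 | hm0
    · subst hm0; simp
    have hab : a ≤ b := by omega
    have hsplit : ∑ i ∈ Finset.Ico a (b + 1), n i =
        n a + ∑ i ∈ Finset.Ico (a + 1) (b + 1), n i :=
      Finset.sum_eq_sum_Ico_succ_bot (by omega) n
    by_cases hthick : k ≤ 2 * n a
    · have h1 := ih (m - 1) (by omega) (a + 1) (by omega) (by omega)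
      rw [hsplit]
      have h2 : k * m = k * (m - 1) + k := by
        obtain ⟨m', rfl⟩ : ∃ m', m = m' + 1 := ⟨m - 1, by omega⟩
        simp [Nat.mul_add]
      omega
    · push Not at hthick
      have hna := hpos a ha hab
      by_cases hex : ∃ s, a + 2 ≤ s ∧ s ≤ b ∧ 2 * n s ≤ k
      · -- the next level which is not thick
        have hfind := Nat.find_spec hex
        have hmin : ∀ s, s < Nat.find hex → ¬ (a + 2 ≤ s ∧ s ≤ b ∧ 2 * n s ≤ k) :=
          fun s hs => Nat.find_min hex hs
        set s := Nat.find hex with hs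
        obtain ⟨hs1, hs2, hs3⟩ := hfind
        have hbl := hblk a s ha hs1 hs2 hthick hs3
        have hih := ih (b + 1 - s) (by omega) s (by omega) (by omega)
        have hsum : ∑ i ∈ Finset.Ico a (b + 1), n i =
            ∑ i ∈ Finset.Ico a s, n i + ∑ i ∈ Finset.Ico s (b + 1), n i :=
          (Finset.sum_Ico_consecutive n (by omega) (by omega)).symm
        have hsum2 : ∑ i ∈ Finset.Ico a s, n i = n a + ∑ i ∈ Finset.Ioo a s, n i := by
          rw [Finset.sum_eq_sum_Ico_succ_bot (by omega) n]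
          rfl
        have hblock : k * (s - a) ≤ 2 * ∑ i ∈ Finset.Ico a s, n i := by
          by_cases hsm : s - a ≤ 2 * k - 2
          · have h1 : k * (s - a) ≤ 2 * ρ := by
              have h2 : k * (s - a) ≤ k * (2 * k) := Nat.mul_le_mul_left _ (by omega)
              have h3 : k * (2 * k) = 2 * k ^ 2 := by ring
              omega
            omega
          · have h1 : ∑ i ∈ Finset.Ico a s, n i =
                n a + (n (a + 1) + ∑ i ∈ Finset.Ico (a + 2) s, n i) := by
              rw [Finset.sum_eq_sum_Ico_succ_bot (by omega) n,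
                Finset.sum_eq_sum_Ico_succ_bot (by omega) n]
            have h2 : (k + 1) * (s - (a + 2)) ≤ 2 * ∑ i ∈ Finset.Ico (a + 2) s, n i := by
              rw [Finset.mul_sum]
              have h3 : ∀ i ∈ Finset.Ico (a + 2) s, k + 1 ≤ 2 * n i := by
                intro i hi
                rw [Finset.mem_Ico] at hi
                have := hmin i hi.2
                by_contra hcon
                exact this ⟨hi.1, by omega, by omega⟩
              have h4 := Finset.card_nsmul_le_sum _ _ _ h3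
              rw [Nat.card_Ico, smul_eq_mul, mul_comm] at h4
              exact h4
            have h3 := hpos (a + 1) (by omega) (by omega)
            obtain ⟨r, hr⟩ : ∃ r, s = a + 2 + r := ⟨s - (a + 2), by omega⟩
            have h4 : s - (a + 2) = r := by omega
            have h5 : s - a = r + 2 := by omega
            rw [h4] at h2
            rw [h5, h1]
            have h6 : (k + 1) * r = k * r + r := by ring
            have h7 : k * (r + 2) = k * r + 2 * k := by ring
            omega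
        rw [hsum]
        have h1 : k * m = k * (s - a) + k * (b + 1 - s) := by
          rw [← Nat.mul_add]
          congr 1
          omega
        omega
      · -- all the remaining levels are thick
        push Not at hex
        rcases Nat.lt_or_ge m 2 with hm | hm
        · have : m = 1 := by omega
          subst this
          rw [hsplit]
          omega
        · have h1 : ∑ i ∈ Finset.Ico a (b + 1), n i =
              n a + (n (a + 1) + ∑ i ∈ Finset.Ico (a + 2) (b + 1), n i) := by
            rw [Finset.sum_eq_sum_Ico_succ_bot (by omega) n,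
              Finset.sum_eq_sum_Ico_succ_bot (by omega) n]
          have h2 : (k + 1) * (b + 1 - (a + 2)) ≤ 2 * ∑ i ∈ Finset.Ico (a + 2) (b + 1), n i := by
            rw [Finset.mul_sum]
            have h3 : ∀ i ∈ Finset.Ico (a + 2) (b + 1), k + 1 ≤ 2 * n i := by
              intro i hi
              rw [Finset.mem_Ico] at hi
              have := hex i hi.1 (by omega)
              omega
            have h4 := Finset.card_nsmul_le_sum _ _ _ h3
            rw [Nat.card_Ico, smul_eq_mul, mul_comm] at h4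
            exact h4
          have h3 := hpos (a + 1) (by omega) (by omega)
          obtain ⟨r, hr⟩ : ∃ r, m = r + 2 := ⟨m - 2, by omega⟩
          have h4 : b + 1 - (a + 2) = r := by omega
          rw [h4] at h2
          rw [hr, h1]
          have h6 : (k + 1) * r = k * r + r := by ring
          have h7 : k * (r + 2) = k * r + 2 * k := by ring
          omega

section
variable {V : Type} {G : SimpleGraph V}

/-- In a connected graph there is an edge leaving a set which contains `x` but not `y`. -/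
theorem exists_leaving {H : SimpleGraph V} {x y : V} (w : H.Walk x y) (W : Set V) (hx : x ∈ W)
    (hy : y ∉ W) : ∃ u v, H.Adj u v ∧ u ∈ W ∧ v ∉ W := by
  induction w with
  | nil => exact absurd hx hy
  | @cons a b c hab w ih =>
    by_cases hb : b ∈ W
    · exact ih hb hy
    · exact ⟨a, b, hab, hx, hb⟩

/-- The same, outside a small set `S`. -/
theorem kconn_exists_leaving [Fintype V] {k : ℕ} (hG : KConn G k) (S : Finset V)
    (hS : S.card < k) (W : Set V) {x y : V} (hxS : x ∉ S) (hyS : y ∉ S) (hx : x ∈ W)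
    (hy : y ∉ W) : ∃ u v, G.Adj u v ∧ u ∈ W ∧ v ∉ W ∧ u ∉ S ∧ v ∉ S := by
  have hc := hG.2 S hS
  have hx' : x ∈ ((↑S : Set V)ᶜ) := by simpa using hxS
  have hy' : y ∈ ((↑S : Set V)ᶜ) := by simpa using hyS
  obtain ⟨w⟩ := hc.preconnected ⟨x, hx'⟩ ⟨y, hy'⟩
  obtain ⟨u, v, huv, hu, hv⟩ := Pool.RBE.exists_leaving w (Subtype.val ⁻¹' W) hx hy
  refine ⟨u.1, v.1, ?_, hu, hv, ?_, ?_⟩
  · exact huv
  · exact fun h => u.2 (Finset.mem_coe.2 h)
  · exact fun h => v.2 (Finset.mem_coe.2 h)

end

section
variable {V : Type} [Fintype V] (G : SimpleGraph V)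

theorem z_mem_nbh {D : Set V} {R : ℕ} {v : V} :
    v ∈ nbh G D R ↔ ∃ u ∈ D, G.dist v u ≤ R := by
  simp [nbh]

open Classical in
/-- The vertices of level `i` at distance at most `ρ` from some `x j`, `a ≤ j ≤ b`. -/
noncomputable def stl (lam : V → ℕ) (x : ℕ → V) (a b ρ i : ℕ) : Finset V :=
  Finset.univ.filter (fun v => lam v = i ∧ ∃ j, a ≤ j ∧ j ≤ b ∧ G.dist v (x j) ≤ ρ)

theorem mem_stl {lam : V → ℕ} {x : ℕ → V} {a b ρ i : ℕ} {v : V} :
    v ∈ stl G lam x a b ρ i ↔ lam v = i ∧ ∃ j, a ≤ j ∧ j ≤ b ∧ G.dist v (x j) ≤ ρ := by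
  simp [stl]

/-- The block lemma: between a thin level `t` and a level `s ≥ t + 2` which is not thick there are
at least `ρ + 1` vertices. -/
theorem strand_block {k : ℕ} (hG : KConn G k) (lam : V → ℕ)
    (hlip : ∀ u v, G.Adj u v → lam u ≤ lam v + 1) (o : V) (ho : lam o = 0) (x : ℕ → V)
    (a b ρ : ℕ) (ha : 1 ≤ a) (hx : ∀ i, a ≤ i → i ≤ b → lam (x i) = i) (t s : ℕ) (hat : a ≤ t)
    (hts : t + 2 ≤ s) (hsb : s ≤ b) (ht : 2 * (stl G lam x a b ρ t).card < k)
    (hs : 2 * (stl G lam x a b ρ s).card ≤ k) :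
    ρ + 1 ≤ ∑ i ∈ Finset.Ioo t s, (stl G lam x a b ρ i).card := by
  classical
  set S : Finset V := stl G lam x a b ρ t ∪ stl G lam x a b ρ s with hSdef
  have hScard : S.card < k := by
    have := Finset.card_union_le (stl G lam x a b ρ t) (stl G lam x a b ρ s)
    rw [hSdef]
    omega
  set Z : Finset V := (Finset.Ioo t s).biUnion (fun i => stl G lam x a b ρ i) with hZdef
  have hZmem : ∀ v, v ∈ Z ↔ (t < lam v ∧ lam v < s) ∧ ∃ j, a ≤ j ∧ j ≤ b ∧ G.dist v (x j) ≤ ρ := by
    intro v
    rw [hZdef, Finset.mem_biUnion]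
    constructor
    · rintro ⟨i, hi, hv⟩
      rw [mem_stl] at hv
      rw [Finset.mem_Ioo] at hi
      exact ⟨by omega, hv.2⟩
    · rintro ⟨h1, h2⟩
      exact ⟨lam v, Finset.mem_Ioo.2 h1, (mem_stl G).2 ⟨rfl, h2⟩⟩
  have hZcard : Z.card = ∑ i ∈ Finset.Ioo t s, (stl G lam x a b ρ i).card := by
    rw [hZdef, Finset.card_biUnion]
    intro i _ j _ hij
    rw [Function.onFun, Finset.disjoint_left]
    intro v h1 h2
    rw [mem_stl] at h1 h2
    exact hij (h1.1.symm.trans h2.1)
  rw [← hZcard]
  have hcon : G.Connected := kconn_connected hG (by omega)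
  -- every distance `0, ..., ρ` occurs in `Z`
  have hval : ∀ j, j ≤ ρ → ∃ v ∈ Z, (∃ i, a ≤ i ∧ i ≤ b ∧ G.dist v (x i) ≤ j) ∧
      (∀ j', j' < j → ¬ ∃ i, a ≤ i ∧ i ≤ b ∧ G.dist v (x i) ≤ j') := by
    intro j hj
    rcases Nat.eq_zero_or_pos j with hj0 | hj0
    · subst hj0
      have h1 : G.dist (x (t + 1)) (x (t + 1)) = 0 := SimpleGraph.dist_self
      refine ⟨x (t + 1), (hZmem _).2 ⟨?_, t + 1, by omega, by omega, by omega⟩,
        ⟨t + 1, by omega, by omega, by omega⟩, fun j' hj' => absurd hj' (Nat.not_lt_zero _)⟩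
      rw [hx (t + 1) (by omega) (by omega)]
      omega
    · by_contra hno
      push Not at hno
      let W : Set V := {v | v ∈ Z ∧ ∃ i, a ≤ i ∧ i ≤ b ∧ G.dist v (x i) ≤ j - 1}
      have hxW : x (t + 1) ∈ W := by
        have h1 : G.dist (x (t + 1)) (x (t + 1)) = 0 := SimpleGraph.dist_self
        refine ⟨(hZmem _).2 ⟨?_, t + 1, by omega, by omega, by omega⟩,
          ⟨t + 1, by omega, by omega, by omega⟩⟩
        rw [hx (t + 1) (by omega) (by omega)]
        omega
      have hoW : o ∉ W := by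
        intro h
        have := ((hZmem o).1 h.1).1
        omega
      have hxS : x (t + 1) ∉ S := by
        rw [hSdef, Finset.mem_union, mem_stl, mem_stl, hx (t + 1) (by omega) (by omega)]
        rintro (h | h)
        · have := h.1; omega
        · have := h.1; omega
      have hoS : o ∉ S := by
        rw [hSdef, Finset.mem_union, mem_stl, mem_stl, ho]
        rintro (h | h)
        · have := h.1; omega
        · have := h.1; omega
      obtain ⟨u, v, huv, hu, hv, huS, hvS⟩ := kconn_exists_leaving hG S hScard W hxS hoS hxW hoW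
      obtain ⟨huZ, i, hi1, hi2, hi3⟩ := hu
      have hul := ((hZmem u).1 huZ).1
      have hl1 := hlip u v huv
      have hl2 := hlip v u huv.symm
      have hd : G.dist v (x i) ≤ j := by
        have h1 := hcon.dist_triangle (u := v) (v := u) (w := x i)
        have h2 : G.dist v u = 1 := SimpleGraph.dist_eq_one_iff_adj.2 huv.symm
        omega
      have hvZ : v ∈ Z := by
        rw [hZmem]
        refine ⟨?_, i, hi1, hi2, by omega⟩
        have h3 : lam v ≠ t := by
          intro h
          apply hvS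
          rw [hSdef, Finset.mem_union, mem_stl]
          exact Or.inl ⟨h, i, hi1, hi2, by omega⟩
        have h4 : lam v ≠ s := by
          intro h
          apply hvS
          rw [hSdef, Finset.mem_union, mem_stl, mem_stl]
          exact Or.inr ⟨h, i, hi1, hi2, by omega⟩
        omega
      obtain ⟨j', hj', i', hi'1, hi'2, hi'3⟩ := hno v hvZ ⟨i, hi1, hi2, hd⟩
      exact hv ⟨hvZ, i', hi'1, hi'2, by omega⟩
  have : Nonempty V := ⟨o⟩
  choose! f hf using hval
  have hinj : Set.InjOn f (↑(Finset.range (ρ + 1)) : Set ℕ) := by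
    have key : ∀ i j, i < j → j ≤ ρ → f i ≠ f j := by
      intro i j hij hj h
      have h1 := (hf i (by omega)).2.1
      have h2 := (hf j hj).2.2 i hij
      rw [h] at h1
      exact h2 h1
    intro i hi j hj hij
    rw [Finset.coe_range, Set.mem_Iio] at hi hj
    rcases Nat.lt_trichotomy i j with h | h | h
    · exact absurd hij (key i j h (by omega))
    · exact h
    · exact absurd hij.symm (key j i h (by omega))
  have h1 := Finset.card_image_of_injOn hinj
  rw [Finset.card_range] at h1
  rw [← h1]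
  apply Finset.card_le_card
  intro v hv
  obtain ⟨i, hi, rfl⟩ := Finset.mem_image.1 hv
  rw [Finset.mem_range] at hi
  exact (hf i (by omega)).1

/-- [RBE-Z1] **The zero-loss strand lemma.** `lam` is a `1`-Lipschitz level function with a zero,
`x a, ..., x b` vertices with `lam (x i) = i`, `1 ≤ a`, `k ^ 2 ≤ ρ`. The levels `a, ..., b` of the
union of the balls of radius `ρ` around the `x i` have at least `(k / 2) (b + 1 - a) - (k - 2)`
vertices. (The `x i` need not be adjacent.) -/
theorem strand_mass {k : ℕ} (hk : 2 ≤ k) (hG : KConn G k) (lam : V → ℕ)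
    (hlip : ∀ u v, G.Adj u v → lam u ≤ lam v + 1) (o : V) (ho : lam o = 0) (x : ℕ → V)
    (a b ρ : ℕ) (ha : 1 ≤ a) (hρ : k ^ 2 ≤ ρ) (hx : ∀ i, a ≤ i → i ≤ b → lam (x i) = i) :
    k * (b + 1 - a) ≤ 2 * ∑ i ∈ Finset.Ico a (b + 1), (stl G lam x a b ρ i).card +
      2 * (k - 2) := by
  rcases Nat.lt_or_ge (b + 1) a with hab | hab
  · have : b + 1 - a = 0 := by omega
    rw [this]; omega
  refine strand_count k ρ b (fun i => (stl G lam x a b ρ i).card) hk hρ a ?_ ?_ (b + 1 - a) a
    le_rfl (by omega)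
  · intro i h1 h2
    have h3 : G.dist (x i) (x i) = 0 := SimpleGraph.dist_self
    exact Finset.card_pos.2 ⟨x i, (mem_stl G).2 ⟨hx i h1 h2, i, h1, h2, by omega⟩⟩
  · intro t s h1 h2 h3 h4 h5
    exact strand_block G hG lam hlip o ho x a b ρ ha hx t s h1 h2 h3 h4 h5

open Classical in
/-- The union of the balls of radius `ρ` around `x a, ..., x b`. -/
noncomputable def tub (x : ℕ → V) (a b ρ : ℕ) : Finset V :=
  Finset.univ.filter (fun v => ∃ j, a ≤ j ∧ j ≤ b ∧ G.dist v (x j) ≤ ρ)

theorem mem_tub {x : ℕ → V} {a b ρ : ℕ} {v : V} :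
    v ∈ tub G x a b ρ ↔ ∃ j, a ≤ j ∧ j ≤ b ∧ G.dist v (x j) ≤ ρ := by
  simp [tub]

/-- [RBE-Z1] in the form: the tube has at least `(k / 2) (b + 1 - a) - (k - 2)` vertices in the
levels `a, ..., b`. -/
theorem strand_mass_tub {k : ℕ} (hk : 2 ≤ k) (hG : KConn G k) (lam : V → ℕ)
    (hlip : ∀ u v, G.Adj u v → lam u ≤ lam v + 1) (o : V) (ho : lam o = 0) (x : ℕ → V)
    (a b ρ : ℕ) (ha : 1 ≤ a) (hρ : k ^ 2 ≤ ρ) (hx : ∀ i, a ≤ i → i ≤ b → lam (x i) = i) :
    k * (b + 1 - a) ≤
      2 * ((tub G x a b ρ).filter (fun v => a ≤ lam v ∧ lam v ≤ b)).card + 2 * (k - 2) := by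
  classical
  refine (strand_mass G hk hG lam hlip o ho x a b ρ ha hρ hx).trans ?_
  have h1 : ((tub G x a b ρ).filter (fun v => a ≤ lam v ∧ lam v ≤ b)).card =
      ∑ i ∈ Finset.Ico a (b + 1), (stl G lam x a b ρ i).card := by
    have h2 : (tub G x a b ρ).filter (fun v => a ≤ lam v ∧ lam v ≤ b) =
        (Finset.Ico a (b + 1)).biUnion (fun i => stl G lam x a b ρ i) := by
      ext v
      rw [Finset.mem_filter, mem_tub, Finset.mem_biUnion]
      constructor
      · rintro ⟨h3, h4, h5⟩
        exact ⟨lam v, Finset.mem_Ico.2 ⟨h4, by omega⟩, (mem_stl G).2 ⟨rfl, h3⟩⟩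
      · rintro ⟨i, hi, hv⟩
        rw [mem_stl] at hv
        rw [Finset.mem_Ico] at hi
        exact ⟨hv.2, by omega, by omega⟩
    rw [h2, Finset.card_biUnion]
    intro i _ j _ hij
    rw [Function.onFun, Finset.disjoint_left]
    intro v h3 h4
    rw [mem_stl] at h3 h4
    exact hij (h3.1.symm.trans h4.1)
  rw [h1]

/-- [RBE-Z2] **Mass of an isometric cycle.** `c 0, ..., c (n - 1)` with
`dist (c i) (c j) = min |i - j| (n - |i - j|)`: at least `(k / 2) n - k (2 ρ + 7 / 2)` vertices are
within `ρ ≥ k ^ 2` of the cycle. -/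
theorem cycle_mass {k : ℕ} (hk : 2 ≤ k) (hG : KConn G k) (c : ℕ → V) (n ρ : ℕ) (hρ : k ^ 2 ≤ ρ)
    (hc : ∀ i j, i ≤ j → j < n → G.dist (c i) (c j) = min (j - i) (n - (j - i))) :
    k * n ≤ 2 * (tub G c 0 (n - 1) ρ).card + k * (4 * ρ + 7) := by
  classical
  rcases Nat.lt_or_ge n (4 * ρ + 7) with hn | hn
  · have := Nat.mul_le_mul_left k hn.le
    omega
  have hcon : G.Connected := kconn_connected hG (by omega)
  set lam : V → ℕ := fun v => G.dist (c 0) v with hlam
  have hlip : ∀ u v, G.Adj u v → lam u ≤ lam v + 1 := by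
    intro u v huv
    have h1 := hcon.dist_triangle (u := c 0) (v := v) (w := u)
    have h2 : G.dist v u = 1 := SimpleGraph.dist_eq_one_iff_adj.2 huv.symm
    simp only [hlam]
    omega
  have ho : lam (c 0) = 0 := SimpleGraph.dist_self
  set a := ρ + 1 with hadef
  set b := n / 2 - ρ - 1 with hbdef
  have hx1 : ∀ i, a ≤ i → i ≤ b → lam (c i) = i := by
    intro i h1 h2
    simp only [hlam]
    rw [hc 0 i (by omega) (by omega)]
    omega
  have hx2 : ∀ i, a ≤ i → i ≤ b → lam ((fun i => c (n - i)) i) = i := by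
    intro i h1 h2
    simp only [hlam]
    rw [hc 0 (n - i) (by omega) (by omega)]
    omega
  have hm1 := strand_mass_tub G hk hG lam hlip (c 0) ho c a b ρ (by omega) hρ hx1
  have hm2 := strand_mass_tub G hk hG lam hlip (c 0) ho (fun i => c (n - i)) a b ρ (by omega) hρ hx2
  set T1 := (tub G c a b ρ).filter (fun v => a ≤ lam v ∧ lam v ≤ b)
  set T2 := (tub G (fun i => c (n - i)) a b ρ).filter (fun v => a ≤ lam v ∧ lam v ≤ b)
  have hdisj : Disjoint T1 T2 := by
    rw [Finset.disjoint_left]
    intro v h1 h2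
    have h1' := (Finset.mem_filter.1 h1).1
    have h2' := (Finset.mem_filter.1 h2).1
    rw [mem_tub] at h1' h2'
    obtain ⟨i, hi1, hi2, hi3⟩ := h1'
    obtain ⟨j, hj1, hj2, hj3⟩ := h2'
    have h3 := hcon.dist_triangle (u := c i) (v := v) (w := c (n - j))
    have h4 : G.dist (c i) (c (n - j)) = min (n - j - i) (n - (n - j - i)) :=
      hc i (n - j) (by omega) (by omega)
    have h5 : G.dist (c i) v = G.dist v (c i) := SimpleGraph.dist_comm
    omega
  have hsub : T1 ∪ T2 ⊆ tub G c 0 (n - 1) ρ := by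
    intro v hv
    rw [mem_tub]
    rcases Finset.mem_union.1 hv with h | h
    · have h1 := (Finset.mem_filter.1 h).1
      rw [mem_tub] at h1
      obtain ⟨i, hi1, hi2, hi3⟩ := h1
      exact ⟨i, by omega, by omega, hi3⟩
    · have h1 := (Finset.mem_filter.1 h).1
      rw [mem_tub] at h1
      obtain ⟨i, hi1, hi2, hi3⟩ := h1
      exact ⟨n - i, by omega, by omega, hi3⟩
  have hcard := Finset.card_le_card hsub
  rw [Finset.card_union_of_disjoint hdisj] at hcard
  have hb2 : n ≤ 2 * (b + 1 - a) + (4 * ρ + 3) := by omega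
  have hkn : k * n ≤ 2 * (k * (b + 1 - a)) + k * (4 * ρ + 3) := by
    have := Nat.mul_le_mul_left k hb2
    rw [Nat.mul_add] at this
    have h1 : k * (2 * (b + 1 - a)) = 2 * (k * (b + 1 - a)) := by ring
    omega
  have h7 : k * (4 * ρ + 7) = k * (4 * ρ + 3) + 4 * k := by ring
  omega

end

end Pool.RBE
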