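import Pool.Agent.RBE.Y5
import Pool.Agent.RBE.Z1

set_option autoImplicit false

/-! [RBE-Y6] the mass of a cycle with an arch (zero loss). -/

namespace Pool.RBE

open SimpleGraph Pool.Agent.RBC

private theorem y6_cycle {V : Type} [Fintype V] {G : SimpleGraph V} {k : ℕ} (hk : 2 ≤ k)
    (hG : KConn G k) {n : ℕ} {c : ℕ → V} (hc : IsoCyc G n c) :
    k * n ≤ 2 * (tub G c 0 (n - 1) (k ^ 2)).card + k * (4 * k ^ 2 + 7) := by
  apply cycle_mass G hk hG c n (k ^ 2) le_rfl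
  intro i j hij hj
  rw [hc.dist i j hij (by omega)]
  congr 1
  omega

private theorem y6_lip {V : Type} {G : SimpleGraph V} {D : Set V} {h : V → ℕ} {π : V → V}
    (F : Forest G D h π) {u v : V} (w : G.Walk u v) : h u ≤ h v + w.length := by
  induction w with
  | nil => simp
  | @cons a b c hab w ih =>
    have h1 := F.lip a b hab
    rw [SimpleGraph.Walk.length_cons]
    omega

/-- [RBE-Y6] `ρ = k^2`; `D` contains the isometric cycle and the arch: `k n + k m ≤ 2 |nbh G D ρ| + k (10 ρ + 12)`.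
Proof. If `m ≤ 6 ρ + 2` (or so) only the cycle counts: `cycle_mass` (file Z1; its hypothesis for `i ≤ j < n` is `IsoCyc.dist` with
`i + n - j = n - (j - i)`) gives `k n ≤ 2 |tub G c 0 (n-1) ρ| + k (4 ρ + 7)` and `tub G c 0 (n-1) ρ ⊆ nbh G D ρ`. In general let
`i1 = 2ρ`, `i2 = m/2 - ρ - 1`. LEFT STRAND: `y_a := x (a - (ρ+1))` has height `a` for `a ∈ [ρ+1+i1, ρ+1+i2]` (`up`): `strand_mass_tub`
(file Z1) with `lam = h`, `o` = any vertex of height `0` (`c 0`): `T_L` = vertices of these heights within `ρ` of a `y_a`,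
`k (i2 + 1 - i1) ≤ 2 |T_L| + 2 (k-2)`. RIGHT STRAND: `y'_a := x (m - (a - (ρ+1)))` (`down`), `T_R`, same bound. Disjointness:
(1) a vertex `v` of `tub G c 0 (n-1) ρ` has height `≤ ρ` (`F.lip`, or `forest_h_le_dist`; `c i` has height `0`), those of `T_L, T_R`
have height `≥ ρ + 1 + i1 > ρ`. (2) let `v ∈ T_L ∩ T_R`: `dist v (y_a) ≤ ρ`, `dist v (y'_b) ≤ ρ`, `a, b ∈ [ρ+1+i1, ρ+1+i2]`; so
`dist (x i) (x j) ≤ 2ρ` with `i = a - (ρ+1)`, `j = m - (b - (ρ+1))`, `i ≤ i2 < m/2`, `j ≥ m - i2`, and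
`h (x i) = a ≥ ρ + 1 + 2ρ > ρ + 2ρ`: `tight` gives `j - i ≤ 2ρ`, but `j - i ≥ m - 2 i2 ≥ 2ρ + 2`: contradiction.
All three sets are in `nbh G D ρ`: `k n + 2 k (m/2 - 3ρ) ≤ 2 |nbh| + k(4ρ+7) + 4(k-2)`; `2 (m/2) ≥ m - 1`. -/
theorem arch_mass {V : Type} [Fintype V] {G : SimpleGraph V} {k : ℕ} (hk : 2 ≤ k) (hG : KConn G k)
    {n : ℕ} {c : ℕ → V} (hc : IsoCyc G n c) {h : V → ℕ} {π : V → V}
    (F : Forest G (Set.range c) h π) {m : ℕ} {x : ℕ → V} (A : Arch G h (k ^ 2) m x) {D : Set V}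
    (hD : ∀ i, c i ∈ D) (hxD : ∀ i, i ≤ m → x i ∈ D) :
    k * n + k * m ≤ 2 * (nbh G D (k ^ 2)).card + k * (10 * k ^ 2 + 12) := by
  classical
  have hcon : G.Connected := kconn_connected hG (by omega)
  have hC := y6_cycle hk hG hc
  have hmem : ∀ v, v ∈ nbh G D (k ^ 2) ↔ ∃ u ∈ D, G.dist v u ≤ k ^ 2 := by
    intro v; simp [nbh]
  obtain ⟨ρ, hρ⟩ : ∃ ρ, ρ = k ^ 2 := ⟨_, rfl⟩
  rw [← hρ] at hC A hmem ⊢
  have hsubC : tub G c 0 (n - 1) ρ ⊆ nbh G D ρ := by
    intro v hv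
    rw [mem_tub] at hv
    obtain ⟨j, -, -, hj⟩ := hv
    exact (hmem v).2 ⟨c j, hD j, hj⟩
  have hmul : ∀ t s : ℕ, t ≤ s → k * t ≤ k * s := fun t s hts => Nat.mul_le_mul_left k hts
  rcases Nat.lt_or_ge (m / 2) (3 * ρ + 1) with hm | hm
  · have h1 := Finset.card_le_card hsubC
    have h2 := hmul m (6 * ρ + 2) (by omega)
    have h3 : k * (10 * ρ + 12) = k * (4 * ρ + 7) + k * (6 * ρ + 2) + 3 * k := by ring
    omega
  · have hc0 : h (c 0) = 0 := (F.zero (c 0)).2 ⟨0, rfl⟩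
    have hL := strand_mass_tub G hk hG h F.lip (c 0) hc0 (fun a => x (a - (ρ + 1)))
      (3 * ρ + 1) (m / 2) ρ (by omega) (by omega) (by
        intro i h1 h2
        have := A.up (i - (ρ + 1)) (by omega)
        omega)
    have hR := strand_mass_tub G hk hG h F.lip (c 0) hc0 (fun a => x (m - (a - (ρ + 1))))
      (3 * ρ + 1) (m / 2) ρ (by omega) (by omega) (by
        intro i h1 h2
        have := A.down (m - (i - (ρ + 1))) (by omega) (by omega)
        omega)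
    set TL := (tub G (fun a => x (a - (ρ + 1))) (3 * ρ + 1) (m / 2) ρ).filter
      (fun v => 3 * ρ + 1 ≤ h v ∧ h v ≤ m / 2) with hTL
    set TR := (tub G (fun a => x (m - (a - (ρ + 1)))) (3 * ρ + 1) (m / 2) ρ).filter
      (fun v => 3 * ρ + 1 ≤ h v ∧ h v ≤ m / 2) with hTR
    have hd1 : Disjoint TL TR := by
      rw [Finset.disjoint_left]
      intro v h1 h2
      have h1' := (Finset.mem_filter.1 h1).1
      have h2' := (Finset.mem_filter.1 h2).1
      rw [mem_tub] at h1' h2'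
      obtain ⟨a, ha1, ha2, ha3⟩ := h1'
      obtain ⟨b, hb1, hb2, hb3⟩ := h2'
      have h3 := hcon.dist_triangle (u := x (a - (ρ + 1))) (v := v) (w := x (m - (b - (ρ + 1))))
      have h4 : G.dist (x (a - (ρ + 1))) v = G.dist v (x (a - (ρ + 1))) :=
        SimpleGraph.dist_comm
      have h5 := A.up (a - (ρ + 1)) (by omega)
      have h6 := A.tight (a - (ρ + 1)) (m - (b - (ρ + 1))) (by omega) (by omega)
        (Or.inl (by omega))
      omega
    have hd2 : Disjoint (tub G c 0 (n - 1) ρ) (TL ∪ TR) := by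
      rw [Finset.disjoint_left]
      intro v h1 h2
      rw [mem_tub] at h1
      obtain ⟨j, -, -, hj⟩ := h1
      obtain ⟨w, hw⟩ := hcon.exists_walk_length_eq_dist v (c j)
      have h3 := y6_lip F w
      have h4 : h (c j) = 0 := (F.zero (c j)).2 ⟨j, rfl⟩
      have h5 : 3 * ρ + 1 ≤ h v := by
        rcases Finset.mem_union.1 h2 with h | h
        · exact (Finset.mem_filter.1 h).2.1
        · exact (Finset.mem_filter.1 h).2.1
      omega
    have hsub : tub G c 0 (n - 1) ρ ∪ (TL ∪ TR) ⊆ nbh G D ρ := by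
      intro v hv
      rcases Finset.mem_union.1 hv with h1 | h1
      · exact hsubC h1
      rcases Finset.mem_union.1 h1 with h2 | h2
      · have h3 := (Finset.mem_filter.1 h2).1
        rw [mem_tub] at h3
        obtain ⟨a, ha1, ha2, ha3⟩ := h3
        exact (hmem v).2 ⟨_, hxD _ (by omega), ha3⟩
      · have h3 := (Finset.mem_filter.1 h2).1
        rw [mem_tub] at h3
        obtain ⟨a, ha1, ha2, ha3⟩ := h3
        exact (hmem v).2 ⟨_, hxD _ (by omega), ha3⟩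
    have hcard := Finset.card_le_card hsub
    rw [Finset.card_union_of_disjoint hd2, Finset.card_union_of_disjoint hd1] at hcard
    have h1 := hmul m (2 * (m / 2 + 1 - (3 * ρ + 1)) + (6 * ρ + 1)) (by omega)
    have h2 : k * (2 * (m / 2 + 1 - (3 * ρ + 1)) + (6 * ρ + 1)) =
        2 * (k * (m / 2 + 1 - (3 * ρ + 1))) + k * (6 * ρ + 1) := by ring
    have h3 : k * (10 * ρ + 12) = k * (4 * ρ + 7) + k * (6 * ρ + 1) + 4 * k := by ring
    omega

/-- [RBE-Y6b] the same for the cycle alone: Proof. `cycle_mass`. -/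
theorem cyc_mass {V : Type} [Fintype V] {G : SimpleGraph V} {k : ℕ} (hk : 2 ≤ k) (hG : KConn G k)
    {n : ℕ} {c : ℕ → V} (hc : IsoCyc G n c) :
    k * n ≤ 2 * (nbh G (Set.range c) (k ^ 2)).card + k * (4 * k ^ 2 + 7) := by
  refine (y6_cycle hk hG hc).trans (Nat.add_le_add_right (Nat.mul_le_mul_left 2 ?_) _)
  apply Finset.card_le_card
  intro v hv
  rw [mem_tub] at hv
  obtain ⟨j, -, -, hj⟩ := hv
  simp only [nbh, Finset.mem_filter, Finset.mem_univ, true_and]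
  exact ⟨c j, ⟨j, rfl⟩, hj⟩

end Pool.RBE
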