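import Pool.Agent.RBE.Y2
import Pool.Agent.RBE.Y6

set_option autoImplicit false

/-! [RBE-Y8b] chains in a finite set; number of vertices of height k^2+1 -/

namespace Pool.RBE

open SimpleGraph Pool.Agent.RBC

private theorem y8b_tail {V : Type} {H : SimpleGraph V} {A : Finset V}
    (hH : ∀ a b, H.Adj a b → b ∈ A) {a b : V} (p : H.Walk a b) :
    ∀ z ∈ p.support.tail, z ∈ A := by
  induction p with
  | nil => intro z hz; simp at hz
  | @cons a b e hab p ih =>
    intro z hz
    rw [Walk.support_cons, List.tail_cons] at hz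
    rw [← Walk.cons_tail_support, List.mem_cons] at hz
    rcases hz with rfl | hz
    · exact hH a _ hab
    · exact ih z hz

private theorem y8b_dist {V : Type} {G H : SimpleGraph V} (hG : G.Connected) {σ : ℕ}
    (hH : ∀ a b, H.Adj a b → G.dist a b ≤ σ) {a b : V} (p : H.Walk a b) :
    G.dist a b ≤ p.length * σ := by
  induction p with
  | nil => simp
  | @cons a b e hab p ih =>
    have h1 : G.dist a e ≤ G.dist a b + G.dist b e := hG.dist_triangle
    have h2 := hH a b hab
    rw [Walk.length_cons, Nat.add_mul, Nat.one_mul]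
    omega

/-- [RBE-Y8b] a chain in a finite set. Proof. Let `Γ` be the relation. If `ReflTransGen Γ x y` there is a chain without repetition,
of at most `|A|` members, so `dist ≤ (|A| - 1) σ ≤ |A| σ`. E.g.: let `H` be the `SimpleGraph` on `V` with `H.Adj a b` iff `a ≠ b`, `a, b ∈ A`,
`dist a b ≤ σ`; `ReflTransGen` gives `H.Reachable x y`, take a path (`Walk.toPath`), its support except possibly a single
vertex is in `A`, length `+ 1 ≤ |A|` if `x ≠ y`; `dist x y ≤ length * σ` (induction). -/
theorem chain_card {V : Type} [Fintype V] {G : SimpleGraph V} (hG : G.Connected) (A : Finset V) {σ : ℕ}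
    {x y : V} (h : Relation.ReflTransGen (fun a b => a ∈ A ∧ b ∈ A ∧ G.dist a b ≤ σ) x y) :
    G.dist x y ≤ A.card * σ := by
  classical
  let H : SimpleGraph V :=
    { Adj := fun a b => a ≠ b ∧ a ∈ A ∧ b ∈ A ∧ G.dist a b ≤ σ
      symm := ⟨fun a b h => ⟨h.1.symm, h.2.2.1, h.2.1, by
        rw [SimpleGraph.dist_comm]
        exact h.2.2.2⟩⟩
      loopless := ⟨fun a h => h.1 rfl⟩ }
  have hreach : H.Reachable x y := by
    induction h with
    | refl => exact SimpleGraph.Reachable.refl _
    | @tail b c _ hbc ih =>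
      by_cases hbc' : b = c
      · rw [← hbc']
        exact ih
      · exact ih.trans (SimpleGraph.Adj.reachable (show H.Adj b c from
          ⟨hbc', hbc.1, hbc.2.1, hbc.2.2⟩))
  obtain ⟨p0⟩ := hreach
  set p := p0.toPath with hp
  have h1 := y8b_dist hG (fun a b (hab : H.Adj a b) => hab.2.2.2) p.1
  have h2 := y8b_tail (A := A) (fun a b (hab : H.Adj a b) => hab.2.2.1) p.1
  have h3 : p.1.length ≤ A.card := by
    have h4 : p.1.support.tail.length = p.1.length := by
      rw [List.length_tail, Walk.length_support, Nat.add_sub_cancel]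
    have h5 : p.1.support.tail.Nodup := p.2.support_nodup.tail
    rw [← h4, ← List.toFinset_card_of_nodup h5]
    exact Finset.card_le_card fun z hz => h2 z (List.mem_toFinset.1 hz)
  exact h1.trans (Nat.mul_le_mul_right _ h3)

open Classical in
/-- [RBE-Y8c] the number of vertices of height `k^2 + 1` over an isometric cycle is bounded.
Proof. `C` from `slack k (R := k^2 + 1)`. `cyc_rb`: `Rb G (range c) ((n+1)/2)`; `slack`: `|nbh (k^2+1)| < k (n+1)/2 + C`; `cyc_mass`:
`k n ≤ 2 |nbh (k^2)| + k (4 k^2 + 7)`. The vertices of height `k^2 + 1` are in `nbh (k^2+1)` but not in `nbh (k^2)`, and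
`nbh (k^2) ⊆ nbh (k^2 + 1)` (`forest_h_attained`, `forest_h_le_dist`: `v ∈ nbh R ↔ h v ≤ R`). So their number `N` satisfies
`2 N ≤ 2 |nbh (k^2+1)| - 2 |nbh (k^2)| ≤ k (n + 1) + 2 C - k n + k (4 k^2 + 7)`. -/
theorem height_count (k : ℕ) (hk : 4 ≤ k) : ∃ M : ℕ, ∀ (V : Type) [Fintype V] (G : SimpleGraph V),
    KConn G k → Irr G k → ∀ (n : ℕ) (c : ℕ → V), IsoCyc G n c → ∀ (h : V → ℕ) (π : V → V),
    Forest G (Set.range c) h π →
    (Finset.univ.filter (fun v => h v = k ^ 2 + 1)).card ≤ M := by
  obtain ⟨C, hC⟩ := slack k (by omega) (k ^ 2 + 1)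
  refine ⟨k + 2 * C + k * (4 * k ^ 2 + 7), ?_⟩
  intro V _ G hG hI n c hc h π F
  have hconn : G.Connected := kconn_connected hG (by omega)
  have h1 := hC V G hG hI (Set.range c) ((n + 1) / 2) (Set.range_nonempty c) (cyc_rb hc)
  have h2 := cyc_mass (by omega) hG hc
  set N1 := Finset.univ.filter (fun v => h v = k ^ 2 + 1) with hN1
  have hmem : ∀ R v, v ∈ nbh G (Set.range c) R ↔ ∃ u ∈ Set.range c, G.dist v u ≤ R := by
    intro R v
    unfold nbh
    rw [Finset.mem_filter]
    exact and_iff_right (Finset.mem_univ v)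
  have hsub : N1 ∪ nbh G (Set.range c) (k ^ 2) ⊆ nbh G (Set.range c) (k ^ 2 + 1) := by
    intro v hv
    rw [Finset.mem_union] at hv
    rw [hmem]
    rcases hv with hv | hv
    · rw [hN1, Finset.mem_filter] at hv
      obtain ⟨u, hu, hd⟩ := forest_h_attained hconn F v
      exact ⟨u, hu, by rw [hd, hv.2]⟩
    · obtain ⟨u, hu, hd⟩ := (hmem _ _).1 hv
      exact ⟨u, hu, by omega⟩
  have hdis : Disjoint N1 (nbh G (Set.range c) (k ^ 2)) := by
    rw [Finset.disjoint_left]
    intro v hv hv'
    rw [hN1, Finset.mem_filter] at hv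
    obtain ⟨u, hu, hd⟩ := (hmem _ _).1 hv'
    have h3 := forest_h_le_dist hconn F v hu
    omega
  have h3 := Finset.card_le_card hsub
  rw [Finset.card_union_of_disjoint hdis] at h3
  have h4 : k * ((n + 1) / 2) * 2 ≤ k * (n + 1) := by
    rw [Nat.mul_assoc]
    exact Nat.mul_le_mul_left _ (Nat.div_mul_le_self _ _)
  have h5 : k * (n + 1) = k * n + k := by ring
  omega

end Pool.RBE
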