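import Pool.Agent.RBE.Y8
import Pool.Agent.RBE.Y8b

set_option autoImplicit false

/-! [RBE-Y8d] FACT A -/

namespace Pool.RBE

open SimpleGraph Pool.Agent.RBC

/-- going down along a shortest walk to `D` until height `ρ + 1` -/
private theorem y8d_attach {V : Type} {G : SimpleGraph V} {D : Set V} {h : V → ℕ}
    {π : V → V} (F : Forest G D h π) {ρ : ℕ} {u x : V} (w : G.Walk u x) (hx : x ∈ D)
    (hw : w.length ≤ h u) (hu : ρ < h u) :
    ∃ y, h y = ρ + 1 ∧ G.dist y x ≤ ρ + 1 ∧ JS G {v | ρ < h v} u y := by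
  induction w with
  | nil =>
    rw [(F.zero _).2 hx] at hu
    omega
  | @cons a b c hadj w ih =>
    rcases Nat.lt_or_ge (ρ + 1) (h a) with h1 | h1
    · have h2 := F.lip _ _ hadj
      rw [Walk.length_cons] at hw
      obtain ⟨y, hy1, hy2, hy3⟩ := ih hx (by omega) (by omega)
      refine ⟨y, hy1, hy2, JS.trans (JS.adj hadj ?_ ?_) hy3⟩
      · show ρ < h a
        omega
      · show ρ < h b
        omega
    · refine ⟨a, by omega, ?_, JS.refl hu⟩
      have h3 := G.dist_le (Walk.cons hadj w)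
      omega

private theorem y8d_near {V : Type} {G : SimpleGraph V} (hc : G.Connected) {D : Set V} {h : V → ℕ}
    {π : V → V} (F : Forest G D h π) {ρ : ℕ} {u x : V} (hx : Near G D u x) (hu : ρ < h u) :
    ∃ y, h y = ρ + 1 ∧ G.dist y x ≤ ρ + 1 ∧ JS G {v | ρ < h v} u y := by
  obtain ⟨w, hw⟩ := hc.exists_walk_length_eq_dist u x
  obtain ⟨d, hd, hdu⟩ := forest_h_attained hc F u
  have h1 := hx.2 d hd
  exact y8d_attach F w hx.1 (by omega) hu

/-- [RBE-Y8d] FACT A.
Proof. `σ` from `no_arch`, `M` from `height_count`; `ρ = k^2`, `s = M σ + 4 (k^2 + 1)`. Let `u v x y` with `Near u x`, `Near v y`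
and a walk `p` from `u` to `v` all of whose vertices have distance `> ρ` from `range c` (`¬ Cuts`). Forest `(h, π)` over
`range c` (`exists_forest`), `h z = dist z (nearest point)`; so `p` is inside `{ρ < h}`. ATTACHMENT: the geodesic from `u` to `x`:
heights along it are `h u, h u - 1, …` (since `dist u x = h u` and `h` is 1-Lipschitz), so it contains a vertex `y1` with `h y1 = ρ + 1`,
`dist y1 x = ρ + 1`, joined to `u` inside `{ρ < h}`. Similarly `y2` for `v, y`. So `JS {ρ < h} y1 y2`. Let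
`A = {z | h z = ρ + 1, JS {ρ<h} y1 z}` (at most `M` elements), `A1` = members reachable from `y1` by the chain relation
(`∈ A`, `∈ A`, `dist ≤ σ`), `A2 = A \ A1`. If `y2 ∈ A1`: `chain_card`: `dist y1 y2 ≤ M σ`, so
`dist x y ≤ (ρ+1) + M σ + (ρ+1) ≤ s`. Otherwise `no_arch` with `A1, A2` gives a contradiction: `hsep`: `dist ≤ σ` would put the second
vertex into `A1`; `hall`: by transitivity of `JS`. -/
theorem fact_A (k : ℕ) (hk : 4 ≤ k) : ∃ ρ s : ℕ, ∀ (V : Type) [Fintype V] (G : SimpleGraph V),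
    KConn G k → Irr G k → FA G ρ s := by
  classical
  obtain ⟨σ, hσ⟩ := no_arch k hk
  obtain ⟨M, hM⟩ := height_count k hk
  refine ⟨k ^ 2, (k ^ 2 + 1) + M * σ + (k ^ 2 + 1), ?_⟩
  intro V _ G hG hI n c hc u v x y hux hvy hcut
  have hcon : G.Connected := kconn_connected hG (by omega)
  obtain ⟨h, π, F, -⟩ := exists_forest hcon (D := Set.range c) ⟨c 0, ⟨0, rfl⟩⟩
  unfold Cuts at hcut
  push Not at hcut
  obtain ⟨w, hw⟩ := hcut
  have hw' : ∀ z ∈ w.support, z ∈ {v | k ^ 2 < h v} := by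
    intro z hz
    obtain ⟨d, hd, hdz⟩ := forest_h_attained hcon F z
    have h1 := hw z hz d hd
    show k ^ 2 < h z
    omega
  have huv : JS G {v | k ^ 2 < h v} u v := ⟨w, hw'⟩
  obtain ⟨y1, hy1, hy1x, hy1u⟩ := y8d_near hcon F hux huv.left
  obtain ⟨y2, hy2, hy2y, hy2v⟩ := y8d_near hcon F hvy huv.right
  have h12 : JS G {v | k ^ 2 < h v} y1 y2 := (hy1u.symm.trans huv).trans hy2v
  set A : Finset V := Finset.univ.filter (fun z => h z = k ^ 2 + 1 ∧ JS G {v | k ^ 2 < h v} y1 z)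
    with hA
  have hmem : ∀ z, z ∈ A ↔ h z = k ^ 2 + 1 ∧ JS G {v | k ^ 2 < h v} y1 z := by
    intro z
    rw [hA, Finset.mem_filter]
    simp
  have hAcard : A.card ≤ M := by
    refine le_trans (Finset.card_le_card ?_) (hM V G hG hI n c hc h π F)
    intro z hz
    rw [Finset.mem_filter]
    exact ⟨Finset.mem_univ z, ((hmem z).1 hz).1⟩
  have hy1A : y1 ∈ A := by
    rw [hmem]
    refine ⟨hy1, JS.refl ?_⟩
    show k ^ 2 < h y1
    omega
  have hy2A : y2 ∈ A := by
    rw [hmem]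
    exact ⟨hy2, h12⟩
  by_cases hch : Relation.ReflTransGen (fun a b => a ∈ A ∧ b ∈ A ∧ G.dist a b ≤ σ) y1 y2
  · have h3 := chain_card hcon A hch
    have h4 : A.card * σ ≤ M * σ := Nat.mul_le_mul_right σ hAcard
    have h5 := hcon.dist_triangle (u := x) (v := y1) (w := y)
    have h6 := hcon.dist_triangle (u := y1) (v := y2) (w := y)
    have h7 : G.dist x y1 = G.dist y1 x := SimpleGraph.dist_comm
    omega
  · exfalso
    refine hσ V G hG hI n c hc h π F
      {z | z ∈ A ∧ Relation.ReflTransGen (fun a b => a ∈ A ∧ b ∈ A ∧ G.dist a b ≤ σ) y1 z}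
      {z | z ∈ A ∧ ¬ Relation.ReflTransGen (fun a b => a ∈ A ∧ b ∈ A ∧ G.dist a b ≤ σ) y1 z}
      ?_ ?_ ?_ ?_ ?_
    · intro z hz
      exact ((hmem z).1 hz.1).1
    · intro z hz
      exact ((hmem z).1 hz.1).1
    · intro z hz z' hz' hzz
      have h8 : z ∈ A := by
        rcases hz with hz | hz
        · exact hz.1
        · exact hz.1
      have h9 : z' ∈ A := by
        rw [hmem]
        exact ⟨hz', ((hmem z).1 h8).2.trans hzz⟩
      by_cases h10 : Relation.ReflTransGen (fun a b => a ∈ A ∧ b ∈ A ∧ G.dist a b ≤ σ) y1 z'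
      · exact Or.inl ⟨h9, h10⟩
      · exact Or.inr ⟨h9, h10⟩
    · exact ⟨y1, ⟨hy1A, Relation.ReflTransGen.refl⟩, y2, ⟨hy2A, hch⟩, h12⟩
    · intro z hz z' hz'
      by_contra hlt
      exact hz'.2 (hz.2.tail ⟨hz.1, hz'.1, by omega⟩)

/-- FACT A is monotone in `ρ` -/
theorem FA.mono {V : Type} {G : SimpleGraph V} {ρ ρ' s : ℕ} (hρ : ρ ≤ ρ') (h : FA G ρ s) :
    FA G ρ' s := by
  intro n c hc u v x y hux hvy hcut
  refine h n c hc u v x y hux hvy (fun hC => hcut ?_)
  intro w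
  obtain ⟨z, hz, d, hd, hzd⟩ := hC w
  exact ⟨z, hz, d, hd, hzd.trans hρ⟩

/-- FACT A with a large `ρ` -/
theorem fact_A' (k : ℕ) (hk : 4 ≤ k) : ∃ ρ s : ℕ, 4 * (k * k) ≤ ρ ∧
    ∀ (V : Type) [Fintype V] (G : SimpleGraph V), KConn G k → Irr G k → FA G ρ s := by
  obtain ⟨ρ, s, h⟩ := fact_A k hk
  exact ⟨ρ + 4 * (k * k), s, by omega, fun V _ G hG hI => FA.mono (by omega) (h V G hG hI)⟩

end Pool.RBE
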