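import Pool.Agent.RBE.Fin
import Pool.Agent.RBE.JH
import Pool.Agent.RBE.M11A
import Pool.Agent.RBE.M11B
import Pool.Agent.RBE.Y8d

set_option autoImplicit false

/-! Final assembly for MP_dd54b8_co: all `k`. -/

namespace Pool.RBE

open SimpleGraph Pool.Agent.RBC

/-- The bound for even `k ≥ 4`. -/
theorem bd_even (q : ℕ) (hq : 2 ≤ q) : ∃ C : ℕ, ∀ (V : Type) [Fintype V] (G : SimpleGraph V),
    KConn G (2 * q) → Bd G (2 * q) C := by
  obtain ⟨ρ, s, hρ, hFA⟩ := fact_A' (2 * q) (by omega)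
  obtain ⟨h0, δ0, hFL⟩ := fl_of_fa (2 * q) (by omega) ρ s hρ
  exact S4.even_bd q hq (section3_S4 (by omega) (section3 (by omega) hFA
    (fun V _ G hG hI => hFL V G hG hI (hFA V G hG hI)) (fun T => d3_of_sides (2 * q) (by omega) T)))

/-- The bound for all `k ≥ 1`. -/
theorem bd_all (k : ℕ) (hk : 0 < k) :
    ∃ c : ℕ, ∀ (V : Type) [Fintype V] (G : SimpleGraph V),
      (k < Fintype.card V ∧
        ∀ S : Finset V, S.card < k → (G.induce ((↑S : Set V)ᶜ)).Connected) →
      ∃ f : Sym2 V → Fin (⌈(Fintype.card V : ℝ) / (k : ℝ)⌉₊ + c),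
        ∀ u v : V, ∃ p : G.Walk u v, p.IsPath ∧ (p.edges.map f).Nodup := by
  rcases Nat.even_or_odd k with he | ho
  · by_cases h2 : k = 2
    · subst h2
      exact colour_of_bd (by omega) main_two
    · obtain ⟨q, hq⟩ := he
      have hk2 : k = 2 * q := by omega
      subst hk2
      obtain ⟨C, hC⟩ := bd_even q (by omega)
      exact colour_of_bd hk ⟨C, fun V _ G hG => hC V G hG⟩
  · exact final_odd k (Nat.odd_iff.mp ho)

end Pool.RBE
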