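import Pool.Agent.RBE.J0

set_option autoImplicit false

/-! [RBE-JA] nearest points, cuts, the gate inequality and the separation inequality. -/

namespace Pool.RBE

open SimpleGraph Pool.Agent.RBC

section
variable {V : Type} {G : SimpleGraph V}

theorem exists_near (hc : G.Connected) {D : Set V} (hne : D.Nonempty) (u : V) : ∃ x, Near G D u x := by
  classical
  obtain ⟨d, hd⟩ := hne
  have hex : ∃ n, ∃ x ∈ D, G.dist u x = n := ⟨_, d, hd, rfl⟩
  obtain ⟨x, hx, hn⟩ := Nat.find_spec hex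
  refine ⟨x, hx, fun y hy => ?_⟩
  rw [hn]
  exact Nat.find_min' hex ⟨y, hy, rfl⟩

theorem Cuts.symm {D : Set V} {ρ : ℕ} {u v : V} (h : Cuts G D ρ u v) : Cuts G D ρ v u := by
  intro w
  obtain ⟨z, hz, h2⟩ := h w.reverse
  exact ⟨z, by simpa using hz, h2⟩

/-- `¬ Cuts` is transitive. -/
theorem not_cuts_trans {D : Set V} {ρ : ℕ} {u v w : V} (h1 : ¬ Cuts G D ρ u v) (h2 : ¬ Cuts G D ρ v w) :
    ¬ Cuts G D ρ u w := by
  unfold Cuts at *
  push Not at *
  obtain ⟨a, ha⟩ := h1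
  obtain ⟨b, hb⟩ := h2
  refine ⟨a.append b, ?_⟩
  intro z hz
  rw [Walk.mem_support_append_iff] at hz
  rcases hz with hz | hz
  · exact ha z hz
  · exact hb z hz

theorem Cuts.mono {D D' : Set V} {ρ ρ' : ℕ} {u v : V} (h : Cuts G D ρ u v)
    (hD : ∀ z, (∃ y ∈ D, G.dist z y ≤ ρ) → ∃ y ∈ D', G.dist z y ≤ ρ') : Cuts G D' ρ' u v := by
  intro w
  obtain ⟨z, hz, h2⟩ := h w
  exact ⟨z, hz, hD z h2⟩

/-- a vertex on a geodesic walk -/
theorem exists_geo_walk (hc : G.Connected) (u v : V) :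
    ∃ w : G.Walk u v, ∀ z ∈ w.support, G.dist u z + G.dist z v = G.dist u v := by
  classical
  obtain ⟨w, hw⟩ := hc.exists_walk_length_eq_dist u v
  refine ⟨w, fun z hz => ?_⟩
  have h1 := SimpleGraph.dist_le (w.takeUntil z hz)
  have h2 := SimpleGraph.dist_le (w.dropUntil z hz)
  have h3 : (w.takeUntil z hz).length + (w.dropUntil z hz).length = w.length := by
    rw [← Walk.length_append, Walk.take_spec]
  have h4 := hc.dist_triangle (u := u) (v := z) (w := v)
  omega

/-- first entrance -/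
theorem first_entry {S : Set V} {u v : V} (w : G.Walk u v) (hu : u ∈ S) (hz : ∃ z ∈ w.support, z ∉ S) :
    ∃ z ∈ w.support, z ∈ S ∧ (∃ p : G.Walk u z, ∀ y ∈ p.support, y ∈ S) ∧ ∃ z', G.Adj z z' ∧ z' ∉ S := by
  induction w with
  | nil =>
    obtain ⟨z, hz, hzS⟩ := hz
    simp at hz
    subst hz
    exact absurd hu hzS
  | @cons a b d hab p ih =>
    by_cases hb : b ∈ S
    · obtain ⟨z, hz, hzS⟩ := hz
      have hz' : ∃ z ∈ p.support, z ∉ S := by
        simp only [Walk.support_cons, List.mem_cons] at hz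
        rcases hz with rfl | hz
        · exact absurd hu hzS
        · exact ⟨z, hz, hzS⟩
      obtain ⟨y, hy, hyS, ⟨q, hq⟩, z', h1, h2⟩ := ih hb hz'
      refine ⟨y, by simp [hy], hyS, ⟨Walk.cons hab q, ?_⟩, z', h1, h2⟩
      intro t ht
      simp only [Walk.support_cons, List.mem_cons] at ht
      rcases ht with rfl | ht
      · exact hu
      · exact hq t ht
    · exact ⟨a, by simp, hu, ⟨Walk.nil, by simpa using hu⟩, b, hab, hb⟩

/-- (CUT) a walk from `u` that comes within `ρ` of `D` comes within `κ` of the nearest point `x` of `u`. -/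
theorem cut_meets (hc : G.Connected) {D : Set V} {ρ s κ : ℕ} (hG : Gated G D ρ s) (hκ : ρ + 1 + s ≤ κ)
    {u v x : V} (hx : Near G D u x) (w : G.Walk u v) (hw : ∃ z ∈ w.support, ∃ y ∈ D, G.dist z y ≤ ρ) :
    ∃ z ∈ w.support, G.dist z x ≤ κ := by
  by_cases hux : G.dist u x ≤ ρ
  · exact ⟨u, by simp, by omega⟩
  push Not at hux
  let S : Set V := {z | ∀ y ∈ D, ρ < G.dist z y}
  have hu : u ∈ S := fun y hy => lt_of_lt_of_le hux (hx.2 y hy)
  have hz : ∃ z ∈ w.support, z ∉ S := by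
    obtain ⟨z, hz, y, hy, hd⟩ := hw
    refine ⟨z, hz, fun h => ?_⟩
    have := h y hy
    omega
  obtain ⟨z, hzw, hzS, ⟨p, hp⟩, z', hadj, hz'⟩ := first_entry w hu hz
  have hz2 : ∃ y ∈ D, G.dist z' y ≤ ρ := by
    by_contra hcon
    push Not at hcon
    exact hz' hcon
  obtain ⟨y, hy, hd⟩ := hz2
  obtain ⟨y', hy'⟩ := exists_near hc ⟨x, hx.1⟩ z
  have h1 : G.dist z y' ≤ ρ + 1 := by
    have h2 := hy'.2 y hy
    have h3 := hc.dist_triangle (u := z) (v := z') (w := y)
    have h4 : G.dist z z' = 1 := SimpleGraph.dist_eq_one_iff_adj.2 hadj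
    omega
  have h5 : ¬ Cuts G D ρ u z := by
    intro hcut
    obtain ⟨t, ht, y2, hy2, hd2⟩ := hcut p
    have := hp t ht y2 hy2
    omega
  have h6 := hG u z x y' hx hy' h5
  have h7 := hc.dist_triangle (u := z) (v := y') (w := x)
  have h8 : G.dist y' x = G.dist x y' := SimpleGraph.dist_comm
  exact ⟨z, hzw, by omega⟩

/-- (GATE) -/
theorem gate_ineq (hc : G.Connected) {D : Set V} {ρ s κ : ℕ} (hG : Gated G D ρ s) (hκ : ρ + 1 + s ≤ κ)
    {u x w : V} (hx : Near G D u x) (hw : w ∈ D) :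
    G.dist u x + G.dist x w ≤ G.dist u w + 2 * κ := by
  obtain ⟨p, hp⟩ := exists_geo_walk hc u w
  obtain ⟨z, hz, hzx⟩ := cut_meets hc hG hκ hx p ⟨w, by simp, w, hw, by simp⟩
  have h1 := hp z hz
  have h2 := hc.dist_triangle (u := u) (v := z) (w := x)
  have h3 := hc.dist_triangle (u := x) (v := z) (w := w)
  have h4 : G.dist x z = G.dist z x := SimpleGraph.dist_comm
  omega

/-- (SEP), form with a point of a geodesic -/
theorem sep_ineq' (hc : G.Connected) {D : Set V} {ρ s κ : ℕ} (hG : Gated G D ρ s) (hκ : ρ + 1 + s ≤ κ)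
    {u v x y z t : V} (hx : Near G D u x) (hy : Near G D v y) (hz : G.dist u z + G.dist z v = G.dist u v)
    (ht : t ∈ D) (hzt : G.dist z t ≤ ρ) :
    G.dist u x + G.dist x y + G.dist v y ≤ G.dist u v + 6 * κ := by
  have h1 := gate_ineq hc hG hκ hx ht
  have h2 := gate_ineq hc hG hκ hy ht
  have h3 := hc.dist_triangle (u := u) (v := z) (w := t)
  have h4 := hc.dist_triangle (u := v) (v := z) (w := t)
  have h5 : G.dist v z = G.dist z v := SimpleGraph.dist_comm
  have h6 := hc.dist_triangle (u := x) (v := t) (w := y)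
  have h7 : G.dist y t = G.dist t y := SimpleGraph.dist_comm
  omega

/-- (SEP) -/
theorem sep_ineq (hc : G.Connected) {D : Set V} {ρ s κ : ℕ} (hG : Gated G D ρ s) (hκ : ρ + 1 + s ≤ κ)
    {u v x y : V} (hx : Near G D u x) (hy : Near G D v y) (hcut : Cuts G D ρ u v) :
    G.dist u x + G.dist x y + G.dist v y ≤ G.dist u v + 6 * κ := by
  obtain ⟨p, hp⟩ := exists_geo_walk hc u v
  obtain ⟨z, hz, t, ht, hzt⟩ := hcut p
  exact sep_ineq' hc hG hκ hx hy (hp z hz) ht hzt

/-- the path `P a, …, P b` of a geodesic as a walk -/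
theorem geo_walk {D : ℕ} {P : ℕ → V} (hP : Geo G D P) {a b : ℕ} (hab : a ≤ b) (hb : b ≤ D) :
    ∃ w : G.Walk (P a) (P b), ∀ z ∈ w.support, ∃ m, a ≤ m ∧ m ≤ b ∧ z = P m := by
  induction b, hab using Nat.le_induction with
  | base => exact ⟨Walk.nil, by intro z hz; simp at hz; exact ⟨a, le_rfl, le_rfl, hz⟩⟩
  | succ b hab ih =>
    obtain ⟨w, hw⟩ := ih (by omega)
    have hadj : G.Adj (P b) (P (b + 1)) := by
      rw [← SimpleGraph.dist_eq_one_iff_adj]
      have := hP b (b + 1) (by omega) hb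
      omega
    refine ⟨w.concat hadj, ?_⟩
    intro z hz
    rw [Walk.support_concat] at hz
    simp only [List.concat_eq_append, List.mem_append, List.mem_cons, List.not_mem_nil, or_false] at hz
    rcases hz with hz | rfl
    · obtain ⟨m, h1, h2, h3⟩ := hw z hz
      exact ⟨m, h1, by omega, h3⟩
    · exact ⟨b + 1, by omega, le_rfl, rfl⟩

theorem Geo.reverse {D : ℕ} {P : ℕ → V} (hP : Geo G D P) : Geo G D (fun m => P (D - m)) := by
  intro i j hij hj
  have h1 := hP (D - j) (D - i) (by omega) (by omega)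
  show G.dist (P (D - i)) (P (D - j)) = j - i
  rw [SimpleGraph.dist_comm, h1]
  omega

theorem Diam.reverse {D : ℕ} {P : ℕ → V} (hP : Diam G D P) : Diam G D (fun m => P (D - m)) :=
  ⟨hP.geo.reverse, hP.diam⟩

theorem Ring.reverse {ρ δ K D : ℕ} {P : ℕ → V} {n : ℕ} {c : ℕ → V} {p p' : V}
    (h : Ring G ρ δ K D P n c p p') : Ring G ρ δ K D (fun m => P (D - m)) n c p' p := by
  refine ⟨h.iso, ?_, ?_, ?_, ?_, ?_⟩
  · simpa using h.nearD
  · simpa using h.near0
  · simpa using h.cuts.symm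
  · have := h.bal
    rw [SimpleGraph.dist_comm (u := p') (v := p)]
    exact this
  · have := h.deep
    simp only [Nat.sub_zero, Nat.sub_self]
    omega

end

end Pool.RBE
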