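import Pool.Agent.RBE.JA

set_option autoImplicit false

/-! [RBE-JB] geometry of isometric cycles. -/

namespace Pool.RBE

open SimpleGraph Pool.Agent.RBC

section
variable {V : Type} {G : SimpleGraph V}

theorem IsoCyc.per_mul {n : ℕ} {c : ℕ → V} (h : IsoCyc G n c) (i m : ℕ) : c (i + n * m) = c i := by
  induction m with
  | zero => simp
  | succ m ih => rw [Nat.mul_succ, ← Nat.add_assoc, h.per, ih]

theorem IsoCyc.coord {n : ℕ} {c : ℕ → V} (h : IsoCyc G n c) (i0 : ℕ) {x : V} (hx : x ∈ Set.range c) :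
    ∃ t, t < n ∧ x = c (i0 + t) := by
  obtain ⟨j, rfl⟩ := hx
  have h3 := h.three
  refine ⟨(j + n * i0 - i0) % n, Nat.mod_lt _ (by omega), ?_⟩
  have h1 : i0 ≤ n * i0 := by nlinarith
  have h2 := h.per_mul (i0 + (j + n * i0 - i0) % n) ((j + n * i0 - i0) / n)
  rw [← h2, ← h.per_mul j i0]
  congr 1
  have h4 := Nat.mod_add_div (j + n * i0 - i0) n
  omega

theorem IsoCyc.adj {n : ℕ} {c : ℕ → V} (h : IsoCyc G n c) (i : ℕ) : G.Adj (c i) (c (i + 1)) := by
  rw [← SimpleGraph.dist_eq_one_iff_adj, h.dist i (i + 1) (by omega) (by have := h.three; omega)]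
  have := h.three
  omega

theorem IsoCyc.arc_walk {n : ℕ} {c : ℕ → V} (h : IsoCyc G n c) {a b : ℕ} (hab : a ≤ b) :
    ∃ w : G.Walk (c a) (c b), ∀ z ∈ w.support, ∃ m, a ≤ m ∧ m ≤ b ∧ z = c m := by
  induction b, hab using Nat.le_induction with
  | base => exact ⟨Walk.nil, by intro z hz; simp at hz; exact ⟨a, le_rfl, le_rfl, hz⟩⟩
  | succ b hab ih =>
    obtain ⟨w, hw⟩ := ih
    refine ⟨w.concat (h.adj b), ?_⟩
    intro z hz
    rw [Walk.support_concat] at hz
    simp only [List.mem_append, List.mem_cons, List.not_mem_nil, or_false] at hz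
    rcases hz with hz | rfl
    · obtain ⟨m, h1, h2, h3⟩ := hw z hz
      exact ⟨m, h1, by omega, h3⟩
    · exact ⟨b + 1, by omega, le_rfl, rfl⟩

/-- the distance between two points in coordinates -/
theorem IsoCyc.dist_coord {n : ℕ} {c : ℕ → V} (h : IsoCyc G n c) (i0 s t : ℕ) (hst : s ≤ t) (ht : t ≤ n) :
    G.dist (c (i0 + s)) (c (i0 + t)) = min (t - s) (n + s - t) := by
  rw [h.dist (i0 + s) (i0 + t) (by omega) (by omega)]
  congr 1 <;> omega

theorem IsoCyc.two_mul_dist {n : ℕ} {c : ℕ → V} (h : IsoCyc G n c) {x y : V} (hx : x ∈ Set.range c)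
    (hy : y ∈ Set.range c) : 2 * G.dist x y ≤ n := by
  obtain ⟨i, rfl⟩ := hx
  obtain ⟨t, ht, rfl⟩ := h.coord i hy
  have := h.dist_coord i 0 t (by omega) (by omega)
  rw [Nat.add_zero] at this
  omega

theorem IsoCyc.perimeter {n : ℕ} {c : ℕ → V} (h : IsoCyc G n c) {x y z : V} (hx : x ∈ Set.range c)
    (hy : y ∈ Set.range c) (hz : z ∈ Set.range c) : G.dist x y + G.dist y z + G.dist x z ≤ n := by
  obtain ⟨i, rfl⟩ := hx
  obtain ⟨s, hs, rfl⟩ := h.coord i hy
  obtain ⟨t, ht, rfl⟩ := h.coord i hz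
  have h1 := h.dist_coord i 0 s (by omega) (by omega)
  have h2 := h.dist_coord i 0 t (by omega) (by omega)
  rw [Nat.add_zero] at h1 h2
  rcases le_total s t with hst | hst
  · have h3 := h.dist_coord i s t hst (by omega)
    omega
  · have h3 := h.dist_coord i t s hst (by omega)
    rw [SimpleGraph.dist_comm] at h3
    omega

theorem IsoCyc.antipode {n : ℕ} {c : ℕ → V} (h : IsoCyc G n c) {x : V} (hx : x ∈ Set.range c) :
    ∃ y ∈ Set.range c, n ≤ 2 * G.dist x y + 1 := by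
  obtain ⟨i, rfl⟩ := hx
  refine ⟨c (i + n / 2), ⟨_, rfl⟩, ?_⟩
  have h1 := h.dist_coord i 0 (n / 2) (by omega) (by omega)
  rw [Nat.add_zero] at h1
  omega

/-- `x` and `y` are on the same side of `p` on the cycle -/
def SameSide (G : SimpleGraph V) (p x y : V) : Prop :=
  G.dist x y + G.dist p x ≤ G.dist p y ∨ G.dist x y + G.dist p y ≤ G.dist p x

theorem IsoCyc.two_points {n : ℕ} {c : ℕ → V} (h : IsoCyc G n c) {p x y : V} (hp : p ∈ Set.range c)
    (hx : x ∈ Set.range c) (hy : y ∈ Set.range c) :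
    SameSide G p x y ∨ G.dist x y + G.dist p x + G.dist p y ≤ n := by
  obtain ⟨i, rfl⟩ := hp
  obtain ⟨s, hs, rfl⟩ := h.coord i hx
  obtain ⟨t, ht, rfl⟩ := h.coord i hy
  have h1 := h.dist_coord i 0 s (by omega) (by omega)
  have h2 := h.dist_coord i 0 t (by omega) (by omega)
  rw [Nat.add_zero] at h1 h2
  unfold SameSide
  rcases le_total s t with hst | hst
  · have h3 := h.dist_coord i s t hst (by omega)
    omega
  · have h3 := h.dist_coord i t s hst (by omega)
    rw [SimpleGraph.dist_comm] at h3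
    omega

theorem IsoCyc.three_points {n : ℕ} {c : ℕ → V} (h : IsoCyc G n c) {p x y z : V} (hp : p ∈ Set.range c)
    (hx : x ∈ Set.range c) (hy : y ∈ Set.range c) (hz : z ∈ Set.range c) :
    SameSide G p x y ∨ SameSide G p x z ∨ SameSide G p y z := by
  obtain ⟨i, rfl⟩ := hp
  obtain ⟨s, hs, rfl⟩ := h.coord i hx
  obtain ⟨t, ht, rfl⟩ := h.coord i hy
  obtain ⟨r, hr, rfl⟩ := h.coord i hz
  have key : ∀ a b, a < n → b < n → ((2 * a ≤ n ∧ 2 * b ≤ n) ∨ (n ≤ 2 * a ∧ n ≤ 2 * b)) →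
      SameSide G (c i) (c (i + a)) (c (i + b)) := by
    intro a b ha hb hab
    have h1 := h.dist_coord i 0 a (by omega) (by omega)
    have h2 := h.dist_coord i 0 b (by omega) (by omega)
    rw [Nat.add_zero] at h1 h2
    unfold SameSide
    rcases le_total a b with hst | hst
    · have h3 := h.dist_coord i a b hst (by omega)
      omega
    · have h3 := h.dist_coord i b a hst (by omega)
      rw [SimpleGraph.dist_comm] at h3
      omega
  have h3 : ((2 * s ≤ n ∧ 2 * t ≤ n) ∨ (n ≤ 2 * s ∧ n ≤ 2 * t)) ∨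
      ((2 * s ≤ n ∧ 2 * r ≤ n) ∨ (n ≤ 2 * s ∧ n ≤ 2 * r)) ∨
      ((2 * t ≤ n ∧ 2 * r ≤ n) ∨ (n ≤ 2 * t ∧ n ≤ 2 * r)) := by omega
  rcases h3 with h3 | h3 | h3
  · exact Or.inl (key s t hs ht h3)
  · exact Or.inr (Or.inl (key s r hs hr h3))
  · exact Or.inr (Or.inr (key t r ht hr h3))

/-- the arc from `w` to `y` which avoids `p` -/
theorem IsoCyc.arc_away {n : ℕ} {c : ℕ → V} (h : IsoCyc G n c) {p w y : V} (hp : p ∈ Set.range c)
    (hw : w ∈ Set.range c) (hy : y ∈ Set.range c) :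
    ∃ q : G.Walk w y, ∀ z ∈ q.support, z ∈ Set.range c ∧ min (G.dist p w) (G.dist p y) ≤ G.dist p z := by
  obtain ⟨i, rfl⟩ := hp
  obtain ⟨s, hs, rfl⟩ := h.coord i hw
  obtain ⟨t, ht, rfl⟩ := h.coord i hy
  have h1 := h.dist_coord i 0 s (by omega) (by omega)
  have h2 := h.dist_coord i 0 t (by omega) (by omega)
  rw [Nat.add_zero] at h1 h2
  rcases le_total s t with hst | hst
  · obtain ⟨q, hq⟩ := h.arc_walk (a := i + s) (b := i + t) (by omega)
    refine ⟨q, fun z hz => ?_⟩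
    obtain ⟨m, hm1, hm2, rfl⟩ := hq z hz
    refine ⟨⟨m, rfl⟩, ?_⟩
    have h3 := h.dist_coord i 0 (m - i) (by omega) (by omega)
    rw [Nat.add_zero, show i + (m - i) = m by omega] at h3
    omega
  · obtain ⟨q, hq⟩ := h.arc_walk (a := i + t) (b := i + s) (by omega)
    refine ⟨q.reverse, fun z hz => ?_⟩
    obtain ⟨m, hm1, hm2, rfl⟩ := hq z (by simpa using hz)
    refine ⟨⟨m, rfl⟩, ?_⟩
    have h3 := h.dist_coord i 0 (m - i) (by omega) (by omega)
    rw [Nat.add_zero, show i + (m - i) = m by omega] at h3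
    omega

/-- a small ball which separates two points of an isometric cycle is near one of them -/
theorem IsoCyc.pinch (hc : G.Connected) {n : ℕ} {c : ℕ → V} (h : IsoCyc G n c) {a b q : V} {κ : ℕ}
    (ha : a ∈ Set.range c) (hb : b ∈ Set.range c) (hcut : Cuts G {q} κ a b) :
    G.dist a q ≤ 3 * κ ∨ G.dist b q ≤ 3 * κ := by
  obtain ⟨i, rfl⟩ := ha
  obtain ⟨t, ht, rfl⟩ := h.coord i hb
  obtain ⟨w1, hw1⟩ := h.arc_walk (a := i) (b := i + t) (by omega)
  obtain ⟨w2, hw2⟩ := h.arc_walk (a := i + t) (b := i + n) (by omega)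
  obtain ⟨z1, hz1, q1, hq1, hd1⟩ := hcut w1
  have h4 : c (i + n) = c i := h.per i
  obtain ⟨z2, hz2, q2, hq2, hd2⟩ := hcut (w2.copy rfl h4).reverse
  simp only [Set.mem_singleton_iff] at hq1 hq2
  subst hq1 hq2
  obtain ⟨m1, h11, h12, rfl⟩ := hw1 z1 hz1
  have hz2' : z2 ∈ w2.support := by simpa using hz2
  obtain ⟨m2, h21, h22, rfl⟩ := hw2 z2 hz2'
  have e1 := h.dist_coord i (m1 - i) (m2 - i) (by omega) (by omega)
  have e2 := h.dist_coord i 0 (m1 - i) (by omega) (by omega)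
  have e3 := h.dist_coord i (m1 - i) t (by omega) (by omega)
  rw [Nat.add_zero] at e2
  rw [show i + (m1 - i) = m1 by omega] at e1 e2 e3
  rw [show i + (m2 - i) = m2 by omega] at e1
  have t1 := hc.dist_triangle (u := c m1) (v := q2) (w := c m2)
  have t2 : G.dist q2 (c m2) = G.dist (c m2) q2 := SimpleGraph.dist_comm
  have t3 := hc.dist_triangle (u := c i) (v := c m1) (w := q2)
  have t4 := hc.dist_triangle (u := c (i + t)) (v := c m1) (w := q2)
  have t5 : G.dist (c (i + t)) (c m1) = G.dist (c m1) (c (i + t)) := SimpleGraph.dist_comm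
  omega

end

end Pool.RBE
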