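import Pool.Agent.RBE.JB

set_option autoImplicit false

/-! [RBE-JC] rings along a diametral geodesic. -/

namespace Pool.RBE

open SimpleGraph Pool.Agent.RBC

section
variable {V : Type} {G : SimpleGraph V}

/-- An isometric cycle which crosses a level of `P` near `P` and far from `P` is a balanced ring, and the level is
deep in its range. -/
theorem ring_of (hc : G.Connected) {D : ℕ} {P : ℕ → V} (hP : Diam G D P) {ρ s κ h0 δ0 δ : ℕ}
    (hFA : FA G ρ s) (hκ : ρ + 1 + s ≤ κ) (hFL : FL G ρ h0 δ0) (hδ : δ0 + h0 + 2 * κ + 1 ≤ δ)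
    {i r r' n : ℕ} {c : ℕ → V} (hi : i ≤ D) (h : RingAt G P i r r' n c) (hr : 4 * κ + δ ≤ r)
    (hr' : 8 * r ≤ r') :
    ∃ p p', IsoCyc G n c ∧ Near G (Set.range c) (P 0) p ∧ Near G (Set.range c) (P D) p' ∧
      Cuts G (Set.range c) ρ (P 0) (P D) ∧ n ≤ 2 * G.dist p p' + 2 * δ ∧
      G.dist (P 0) p + r ≤ i ∧ i + G.dist (P D) p' + r ≤ D := by
  obtain ⟨hiso, ⟨j, hj1, hj2⟩, ⟨j', hj1', hj2'⟩⟩ := h
  have hG := hFA n c hiso
  have hne : (Set.range c).Nonempty := ⟨c 0, 0, rfl⟩
  obtain ⟨p, hp⟩ := exists_near hc hne (P 0)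
  obtain ⟨p', hp'⟩ := exists_near hc hne (P D)
  set z := c j with hz
  set z' := c j' with hz'
  have hzm : z ∈ Set.range c := ⟨j, rfl⟩
  have hzm' : z' ∈ Set.range c := ⟨j', rfl⟩
  -- distances along `P`
  have hPi0 : G.dist (P 0) (P i) = i := by have := hP.geo 0 i (by omega) hi; omega
  have hPiD : G.dist (P i) (P D) = D - i := hP.geo i D hi le_rfl
  have hPD : G.dist (P 0) (P D) = D := by have := hP.geo 0 D (by omega) le_rfl; omega
  -- gates
  have g1 := gate_ineq hc hG hκ hp hzm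
  have g2 := gate_ineq hc hG hκ hp hzm'
  have g3 := gate_ineq hc hG hκ hp' hzm
  have t1 := hc.dist_triangle (u := P 0) (v := p) (w := z)
  have t1' := hc.dist_triangle (u := P 0) (v := p) (w := z')
  have t2 := hc.dist_triangle (u := P D) (v := P i) (w := z)
  have t2' : G.dist (P D) (P i) = G.dist (P i) (P D) := SimpleGraph.dist_comm
  have t3 := hc.dist_triangle (u := P 0) (v := p) (w := P D)
  have t4 := hc.dist_triangle (u := p) (v := p') (w := P D)
  have t4' : G.dist p' (P D) = G.dist (P D) p' := SimpleGraph.dist_comm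
  have t5 := hc.dist_triangle (u := P i) (v := z) (w := z')
  have t6 := hc.dist_triangle (u := z) (v := p) (w := z')
  have t6' : G.dist z p = G.dist p z := SimpleGraph.dist_comm
  have t7 := hc.dist_triangle (u := p) (v := z) (w := p')
  have t7' : G.dist z p' = G.dist p' z := SimpleGraph.dist_comm
  -- cut
  have hcut : Cuts G (Set.range c) ρ (P 0) (P D) := by
    by_contra hcon
    have h1 := hG _ _ _ _ hp hp' hcon
    omega
  have g4 := sep_ineq hc hG hκ hp hp' hcut
  -- balance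
  have hbal : n ≤ 2 * G.dist p p' + 2 * δ := by
    by_cases hA : h0 ≤ G.dist (P 0) p
    · by_cases hB : h0 ≤ G.dist (P D) p'
      · have := hFL n c hiso _ _ _ _ hp hp' hA hB hcut
        omega
      · obtain ⟨w, hw, hw2⟩ := hiso.antipode hp.1
        have g5 := gate_ineq hc hG hκ hp hw
        have g6 := hP.diam (P 0) w
        omega
    · obtain ⟨w, hw, hw2⟩ := hiso.antipode hp'.1
      have g5 := gate_ineq hc hG hκ hp' hw
      have g6 := hP.diam (P D) w
      omega
  have htwo := hiso.two_points hp.1 hzm hzm'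
  have hlow : G.dist (P 0) p + r ≤ i := by omega
  refine ⟨p, p', hiso, hp, hp', hcut, hbal, hlow, ?_⟩
  unfold SameSide at htwo
  omega

/-- A point of `P` near the nearest point of the beginning of `P`. -/
theorem Ring.near_lo (hc : G.Connected) {D : ℕ} {P : ℕ → V} (hP : Diam G D P) {ρ s κ δ K : ℕ}
    (hFA : FA G ρ s) (hκ : ρ + 1 + s ≤ κ) {n : ℕ} {c : ℕ → V} {p p' : V} (h : Ring G ρ δ K D P n c p p') :
    ∃ m, m ≤ D ∧ G.dist (P m) p ≤ κ ∧ m ≤ G.dist (P 0) p + κ ∧ G.dist (P 0) p ≤ m + κ := by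
  obtain ⟨w, hw⟩ := geo_walk hP.geo (a := 0) (b := D) (by omega) le_rfl
  obtain ⟨z, hz, hzp⟩ := cut_meets hc (hFA n c h.iso) hκ h.near0 w (h.cuts w)
  obtain ⟨m, hm1, hm2, rfl⟩ := hw z hz
  have h1 := hP.geo 0 m (by omega) hm2
  have h2 := hc.dist_triangle (u := P 0) (v := p) (w := P m)
  have h3 := hc.dist_triangle (u := P 0) (v := P m) (w := p)
  have h4 : G.dist p (P m) = G.dist (P m) p := SimpleGraph.dist_comm
  exact ⟨m, hm2, hzp, by omega, by omega⟩

/-- A point of `P` near the nearest point of the end of `P`. -/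
theorem Ring.near_hi (hc : G.Connected) {D : ℕ} {P : ℕ → V} (hP : Diam G D P) {ρ s κ δ K : ℕ}
    (hFA : FA G ρ s) (hκ : ρ + 1 + s ≤ κ) {n : ℕ} {c : ℕ → V} {p p' : V} (h : Ring G ρ δ K D P n c p p') :
    ∃ m, m ≤ D ∧ G.dist (P m) p' ≤ κ ∧ m + G.dist (P D) p' ≤ D + κ ∧ D ≤ m + G.dist (P D) p' + κ := by
  obtain ⟨m, hm1, hm2, hm3, hm4⟩ := Ring.near_lo hc hP.reverse hFA hκ h.reverse
  refine ⟨D - m, by omega, hm2, ?_, ?_⟩
  · simp only [Nat.sub_zero] at hm3 hm4
    omega
  · simp only [Nat.sub_zero] at hm3 hm4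
    omega

/-- `P` runs along the ring on its range. -/
theorem Ring.near_mid (hc : G.Connected) {D : ℕ} {P : ℕ → V} (hP : Diam G D P) {ρ s κ δ K : ℕ}
    (hFA : FA G ρ s) (hκ : ρ + 1 + s ≤ κ) {n : ℕ} {c : ℕ → V} {p p' : V} (h : Ring G ρ δ K D P n c p p')
    {m : ℕ} {y : V} (hy : Near G (Set.range c) (P m) y) (h1 : G.dist (P 0) p + 8 * κ ≤ m)
    (h2 : m + G.dist (P D) p' + 8 * κ ≤ D) :
    G.dist (P m) y ≤ 6 * κ ∧ G.dist (P 0) p + G.dist p y + G.dist (P m) y ≤ m + 6 * κ ∧
      m + G.dist (P m) y + G.dist y p' + G.dist (P D) p' ≤ D + 6 * κ := by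
  have hG := hFA n c h.iso
  have hPm : G.dist (P 0) (P m) = m := by have := hP.geo 0 m (by omega) (by omega); omega
  have hPmD : G.dist (P m) (P D) = D - m := hP.geo m D (by omega) le_rfl
  have hPD : G.dist (P 0) (P D) = D := by have := hP.geo 0 D (by omega) le_rfl; omega
  have t3 := hc.dist_triangle (u := P 0) (v := p) (w := P D)
  have t4 := hc.dist_triangle (u := p) (v := p') (w := P D)
  have t4' : G.dist p' (P D) = G.dist (P D) p' := SimpleGraph.dist_comm
  have t7 := hc.dist_triangle (u := p) (v := y) (w := p')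
  by_cases hA : Cuts G (Set.range c) ρ (P 0) (P m)
  · have e1 := sep_ineq hc hG hκ h.near0 hy hA
    by_cases hB : Cuts G (Set.range c) ρ (P m) (P D)
    · have e2 := sep_ineq hc hG hκ hy h.nearD hB
      refine ⟨by omega, by omega, by omega⟩
    · have e3 := hG _ _ _ _ hy h.nearD hB
      omega
  · have e3 := hG _ _ _ _ h.near0 hy hA
    have hB : Cuts G (Set.range c) ρ (P m) (P D) := by
      by_contra hB
      exact not_cuts_trans hA hB h.cuts
    have e2 := sep_ineq hc hG hκ hy h.nearD hB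
    omega

end

end Pool.RBE
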