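import Pool.Agent.RBE.M0

set_option autoImplicit false

/-! [RBE-M3] the shortest closed walk with an odd number of `F`-edges is an isometric cycle; the gate lemma. -/

namespace Pool.RBE

open SimpleGraph Pool.Agent.RBC

open Classical in
/-- The number of `F`-edges of a walk. -/
noncomputable def cntF {V : Type} {G : SimpleGraph V} (F : Set (Sym2 V)) {u v : V} (p : G.Walk u v) : ℕ :=
  p.edges.countP (fun e => decide (e ∈ F))

theorem cntF_append {V : Type} {G : SimpleGraph V} (F : Set (Sym2 V)) {u v w : V} (p : G.Walk u v)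
    (q : G.Walk v w) : cntF F (p.append q) = cntF F p + cntF F q := by
  unfold cntF
  rw [SimpleGraph.Walk.edges_append, List.countP_append]

theorem cntF_reverse {V : Type} {G : SimpleGraph V} (F : Set (Sym2 V)) {u v : V} (p : G.Walk u v) :
    cntF F p.reverse = cntF F p := by
  unfold cntF
  rw [SimpleGraph.Walk.edges_reverse, List.countP_reverse]

open Classical in
/-- The number of `F`-edges counted with the indices. -/
theorem cntF_eq {V : Type} {G : SimpleGraph V} (F : Set (Sym2 V)) {u v : V} (p : G.Walk u v) :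
    cntF F p = ((Finset.range p.length).filter
      (fun i => s(p.getVert i, p.getVert (i + 1)) ∈ F)).card := by
  induction p with
  | nil => simp [cntF]
  | @cons u v w h p ih =>
    have h1 : cntF F (SimpleGraph.Walk.cons h p) =
        (if s(u, v) ∈ F then 1 else 0) + cntF F p := by
      unfold cntF
      rw [SimpleGraph.Walk.edges_cons, List.countP_cons]
      simp only [decide_eq_true_eq]
      ring
    rw [h1, ih, Finset.card_filter, Finset.card_filter, SimpleGraph.Walk.length_cons,
      Finset.sum_range_succ']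
    simp only [SimpleGraph.Walk.getVert_cons_succ, SimpleGraph.Walk.getVert_zero]
    rw [add_comm]
    congr!

theorem cntF_take_drop {V : Type} {G : SimpleGraph V} (F : Set (Sym2 V)) {u v : V} (p : G.Walk u v)
    (j : ℕ) : cntF F p = cntF F (p.take j) + cntF F (p.drop j) := by
  unfold cntF
  rw [SimpleGraph.Walk.edges_take, SimpleGraph.Walk.edges_drop, ← List.countP_append,
    List.take_append_drop]

theorem exists_walk_avoid {V : Type} {G : SimpleGraph V} (S : Finset V)
    {a b : ((↑S : Set V)ᶜ : Set V)} (w : (G.induce ((↑S : Set V)ᶜ)).Walk a b) :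
    ∃ R : G.Walk a.1 b.1, ∀ v ∈ R.support, v ∉ S := by
  induction w with
  | @nil u =>
    refine ⟨SimpleGraph.Walk.nil, ?_⟩
    intro v hv hvS
    rw [SimpleGraph.Walk.support_nil, List.mem_singleton] at hv
    rw [hv] at hvS
    exact u.2 (Finset.mem_coe.2 hvS)
  | @cons u v w h p ih =>
    obtain ⟨R, hR⟩ := ih
    have h' : G.Adj u.1 v.1 := h
    refine ⟨SimpleGraph.Walk.cons h' R, ?_⟩
    intro x hx hxS
    rw [SimpleGraph.Walk.support_cons, List.mem_cons] at hx
    rcases hx with hx | hx
    · rw [hx] at hxS
      exact u.2 (Finset.mem_coe.2 hxS)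
    · exact hR x hx hxS

open Classical in
/-- [RBE-M3a] the shortest closed walk with an odd number of `F`-edges is an isometric cycle. -/
theorem odd_cycle {V : Type} [Fintype V] {G : SimpleGraph V} (hG : G.Connected) (F : Set (Sym2 V)) {v : V}
    (p : G.Walk v v) (hp : Odd (p.edges.countP (fun e => decide (e ∈ F)))) :
    ∃ (n : ℕ) (c : ℕ → V), IsoCyc G n c ∧
      Odd ((Finset.range n).filter (fun i => s(c i, c (i + 1)) ∈ F)).card := by
  have hex : ∃ n : ℕ, ∃ (v : V) (p : G.Walk v v), p.length = n ∧ Odd (cntF F p) :=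
    ⟨p.length, v, p, rfl, hp⟩
  have hmin : ∀ (v : V) (p : G.Walk v v), Odd (cntF F p) → Nat.find hex ≤ p.length :=
    fun v p h => Nat.find_le ⟨v, p, rfl, h⟩
  obtain ⟨v0, p0, hlen, hodd⟩ := Nat.find_spec hex
  set n := Nat.find hex with hn
  -- distances along a minimal odd closed walk
  have key : ∀ (v : V) (q : G.Walk v v), q.length = n → Odd (cntF F q) → ∀ j, j ≤ n →
      G.dist v (q.getVert j) = min j (n - j) := by
    intro v q hq hqo j hj
    have h1 : G.dist v (q.getVert j) ≤ j := by
      have := SimpleGraph.dist_le (q.take j)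
      rw [SimpleGraph.Walk.take_length] at this
      omega
    have h2 : G.dist v (q.getVert j) ≤ n - j := by
      have := SimpleGraph.dist_le (q.drop j)
      rw [SimpleGraph.Walk.drop_length, hq] at this
      rw [SimpleGraph.dist_comm]
      exact this
    by_contra hne
    have hlt : G.dist v (q.getVert j) < min j (n - j) := by omega
    obtain ⟨Q, hQ⟩ := hG.exists_walk_length_eq_dist v (q.getVert j)
    have hs : cntF F q = cntF F (q.take j) + cntF F (q.drop j) := cntF_take_drop F q j
    have ha : cntF F ((q.take j).append Q.reverse) = cntF F (q.take j) + cntF F Q := by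
      rw [cntF_append, cntF_reverse]
    have hb : cntF F (Q.append (q.drop j)) = cntF F Q + cntF F (q.drop j) := cntF_append F _ _
    have hla : ((q.take j).append Q.reverse).length < n := by
      rw [SimpleGraph.Walk.length_append, SimpleGraph.Walk.length_reverse,
        SimpleGraph.Walk.take_length]
      omega
    have hlb : (Q.append (q.drop j)).length < n := by
      rw [SimpleGraph.Walk.length_append, SimpleGraph.Walk.drop_length]
      omega
    have hna : ¬ Odd (cntF F ((q.take j).append Q.reverse)) := fun h => by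
      have := hmin _ _ h
      omega
    have hnb : ¬ Odd (cntF F (Q.append (q.drop j))) := fun h => by
      have := hmin _ _ h
      omega
    rw [Nat.not_odd_iff_even, ha] at hna
    rw [Nat.not_odd_iff_even, hb] at hnb
    obtain ⟨x, hx⟩ := hna
    obtain ⟨y, hy⟩ := hnb
    rw [hs] at hqo
    obtain ⟨z, hz⟩ := hqo
    omega
  -- the count along `p0`
  have hcnt := cntF_eq F p0
  rw [hlen] at hcnt
  have hend : p0.getVert n = v0 := by rw [← hlen]; exact p0.getVert_length
  have hstart : p0.getVert 0 = v0 := p0.getVert_zero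
  have hn3 : 3 ≤ n := by
    by_contra hlt
    push Not at hlt
    interval_cases hnn : n
    · rw [hcnt] at hodd
      simp at hodd
    · have h1 := p0.adj_getVert_succ (i := 0) (by omega)
      rw [hstart, Nat.zero_add, hend] at h1
      exact G.loopless.irrefl _ h1
    · rw [hcnt] at hodd
      have h1 : s(p0.getVert 0, p0.getVert 1) = s(p0.getVert 1, p0.getVert 2) := by
        rw [hstart, hend, Sym2.eq_swap]
      rw [Finset.card_filter, Finset.sum_range_succ, Finset.sum_range_succ, Finset.sum_range_zero,
        Nat.zero_add, Nat.zero_add, h1] at hodd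
      obtain ⟨z, hz⟩ := hodd
      split_ifs at hz <;> omega
  refine ⟨n, fun i => p0.getVert (i % n), ⟨hn3, ?_, ?_⟩, ?_⟩
  · intro i
    show p0.getVert ((i + n) % n) = p0.getVert (i % n)
    rw [Nat.add_mod_right]
  · intro i j hij hj
    show G.dist (p0.getVert (i % n)) (p0.getVert (j % n)) = min (j - i) (i + n - j)
    -- the rotated walk
    have hi' : i % n < n := Nat.mod_lt _ (by omega)
    set i' := i % n with hi'def
    let q : G.Walk (p0.getVert i') (p0.getVert i') := (p0.drop i').append (p0.take i')
    have hql : q.length = n := by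
      show ((p0.drop i').append (p0.take i')).length = n
      rw [SimpleGraph.Walk.length_append, SimpleGraph.Walk.drop_length,
        SimpleGraph.Walk.take_length, hlen]
      omega
    have hqo : Odd (cntF F q) := by
      have h1 : cntF F q = cntF F (p0.drop i') + cntF F (p0.take i') := cntF_append F _ _
      have h2 : cntF F p0 = cntF F (p0.take i') + cntF F (p0.drop i') := cntF_take_drop F p0 i'
      rw [h1, add_comm, ← h2]
      exact hodd
    have hq := key _ q hql hqo (j - i) (by omega)
    have hgv : q.getVert (j - i) = p0.getVert (j % n) := by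
      have h1 : q.getVert (j - i) =
          if j - i < (p0.drop i').length then (p0.drop i').getVert (j - i)
          else (p0.take i').getVert (j - i - (p0.drop i').length) :=
        SimpleGraph.Walk.getVert_append _ _ _
      rw [h1, SimpleGraph.Walk.drop_length, hlen]
      have hmod : j % n = (i' + (j - i)) % n := by
        have h2 : j = i + (j - i) := by omega
        conv_lhs => rw [h2]
        rw [hi'def, Nat.mod_add_mod]
      split_ifs with hlt
      · rw [SimpleGraph.Walk.drop_getVert, hmod, Nat.mod_eq_of_lt (by omega)]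
      · have h3 : (i' + (j - i)) % n = j - i - (n - i') := by
          have h4 : i' + (j - i) = (j - i - (n - i')) + n := by omega
          rw [h4, Nat.add_mod_right, Nat.mod_eq_of_lt (by omega)]
        rw [hmod, h3, SimpleGraph.Walk.take_getVert, Nat.min_eq_right (by omega)]
    rw [hgv] at hq
    rw [hq]
    omega
  · have h1 : (Finset.range n).filter
        (fun i => s(p0.getVert (i % n), p0.getVert ((i + 1) % n)) ∈ F) =
        (Finset.range n).filter (fun i => s(p0.getVert i, p0.getVert (i + 1)) ∈ F) := by
      apply Finset.filter_congr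
      intro i hi
      rw [Finset.mem_range] at hi
      rw [Nat.mod_eq_of_lt hi]
      rcases Nat.lt_or_ge (i + 1) n with h | h
      · rw [Nat.mod_eq_of_lt h]
      · have h2 : i + 1 = n := by omega
        rw [h2, Nat.mod_self, hstart, hend]
    show Odd ((Finset.range n).filter
        (fun i => s(p0.getVert (i % n), p0.getVert ((i + 1) % n)) ∈ F)).card
    rw [h1, ← hcnt]
    exact hodd

open Classical in
/-- The number of changes of a predicate. -/
theorem m3_parity_changes (P : ℕ → Prop) (n : ℕ) :
    Odd ((Finset.range n).filter (fun i => ¬ (P i ↔ P (i + 1)))).card ↔ ¬ (P 0 ↔ P n) := by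
  induction n with
  | zero => simp
  | succ n ih =>
    rw [Finset.range_add_one, Finset.filter_insert]
    by_cases h : P n ↔ P (n + 1)
    · rw [if_neg (not_not.2 h), ih]
      tauto
    · rw [if_pos h, Finset.card_insert_of_notMem (by simp), Nat.odd_add_one, ih]
      tauto

/-- [RBE-M3b] the gate lemma. -/
theorem gate {V : Type} [Fintype V] {G : SimpleGraph V} {k : ℕ} (hk : KConn G k) {f : V → ℕ}
    (hf : ∀ u v, G.Adj u v → f u ≤ f v + 1) {t : ℕ} {S : Finset V} (hS : ∀ v ∈ S, f v = t) (hSk : S.card < k)
    {x x' z : V} (hx : x ∈ S) (hxx : G.Adj x x') (hx' : f x' = t + 1) (hz : z ∉ S) (Q : G.Walk x z)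
    (hQ : ∀ v ∈ Q.support, f v ≤ t) :
    ∃ (n : ℕ) (c : ℕ → V), IsoCyc G n c ∧ (∃ i, c i ∈ S) ∧ ∃ j, f (c j) = t ∧ c j ∉ S := by
  classical
  have hcon : G.Connected := kconn_connected hk (by omega)
  have hx'S : x' ∉ S := fun h => by have := hS x' h; omega
  obtain ⟨F, hF⟩ : ∃ F : Set (Sym2 V), ∀ e, e ∈ F ↔ ∃ a b, e = s(a, b) ∧ a ∈ S ∧ f b = t + 1 :=
    ⟨{e | ∃ a b, e = s(a, b) ∧ a ∈ S ∧ f b = t + 1}, fun _ => Iff.rfl⟩
  -- the walk `R` from `z` to `x'` avoiding `S`
  obtain ⟨R, hR⟩ : ∃ R : G.Walk z x', ∀ v ∈ R.support, v ∉ S := by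
    have hc := hk.2 S hSk
    have hz' : z ∈ ((↑S : Set V)ᶜ) := fun h => hz (Finset.mem_coe.1 h)
    have hx'' : x' ∈ ((↑S : Set V)ᶜ) := fun h => hx'S (Finset.mem_coe.1 h)
    obtain ⟨w⟩ := hc.preconnected ⟨z, hz'⟩ ⟨x', hx''⟩
    exact exists_walk_avoid S w
  have hcR : cntF F R = 0 := by
    unfold cntF
    rw [List.countP_eq_zero]
    intro e he
    simp only [decide_eq_true_eq]
    rw [hF]
    rintro ⟨a, b, rfl, ha, hb⟩
    exact hR a (R.fst_mem_support_of_mem_edges he) ha
  have hcQ : cntF F Q = 0 := by
    unfold cntF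
    rw [List.countP_eq_zero]
    intro e he
    simp only [decide_eq_true_eq]
    rw [hF]
    rintro ⟨a, b, rfl, ha, hb⟩
    have := hQ b (Q.snd_mem_support_of_mem_edges he)
    omega
  let p : G.Walk x' x' := SimpleGraph.Walk.cons hxx.symm (Q.append R)
  have hp : Odd (cntF F p) := by
    have h1 : cntF F p = 1 := by
      have h2 : cntF F (Q.append R) = 0 := by rw [cntF_append, hcQ, hcR]
      have h3 : s(x', x) ∈ F := (hF _).2 ⟨x, x', Sym2.eq_swap, hx, hx'⟩
      show cntF F (SimpleGraph.Walk.cons hxx.symm (Q.append R)) = 1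
      unfold cntF at h2 ⊢
      rw [SimpleGraph.Walk.edges_cons, List.countP_cons, h2]
      simp [h3]
    rw [h1]
    exact odd_one
  obtain ⟨n, c, hc, hodd⟩ := odd_cycle hcon F p hp
  have hadj : ∀ i, G.Adj (c i) (c (i + 1)) := by
    intro i
    rw [← SimpleGraph.dist_eq_one_iff_adj, hc.dist i (i + 1) (by omega) (by have := hc.three; omega)]
    have := hc.three
    omega
  refine ⟨n, c, hc, ?_, ?_⟩
  · have hne : ((Finset.range n).filter (fun i => s(c i, c (i + 1)) ∈ F)).Nonempty := by
      rw [← Finset.card_pos]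
      exact hodd.pos
    obtain ⟨i, hi⟩ := hne
    obtain ⟨a, b, hab, ha, hb⟩ := (hF _).1 (Finset.mem_filter.1 hi).2
    rcases Sym2.eq_iff.1 hab with ⟨h1, _⟩ | ⟨_, h2⟩
    · exact ⟨i, h1 ▸ ha⟩
    · exact ⟨i + 1, h2 ▸ ha⟩
  · by_contra hno
    push Not at hno
    -- all edges between the levels `t` and `t + 1` are `F`-edges
    obtain ⟨P, hP⟩ : ∃ P : ℕ → Prop, ∀ i, P i ↔ f (c i) ≤ t := ⟨fun i => f (c i) ≤ t, fun _ => Iff.rfl⟩
    have heq : (Finset.range n).filter (fun i => s(c i, c (i + 1)) ∈ F) =
        (Finset.range n).filter (fun i => ¬ (P i ↔ P (i + 1))) := by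
      apply Finset.filter_congr
      intro i _
      rw [hP i, hP (i + 1)]
      have h1 := hf _ _ (hadj i)
      have h2 := hf _ _ (hadj i).symm
      rw [hF]
      constructor
      · rintro ⟨a, b, hab, ha, hb⟩
        have hfa := hS a ha
        rcases Sym2.eq_iff.1 hab with ⟨h3, h4⟩ | ⟨h3, h4⟩
        · rw [h3, h4]; omega
        · rw [h3, h4]; omega
      · intro h
        by_cases h3 : f (c i) ≤ t
        · have h4 : ¬ f (c (i + 1)) ≤ t := fun h4 => h ⟨fun _ => h4, fun _ => h3⟩
          have h5 : f (c i) = t := by omega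
          exact ⟨c i, c (i + 1), rfl, hno i h5, by omega⟩
        · have h4 : f (c (i + 1)) ≤ t := by
            by_contra h4
            exact h ⟨fun h5 => absurd h5 h3, fun h5 => absurd h5 h4⟩
          have h5 : f (c (i + 1)) = t := by omega
          exact ⟨c (i + 1), c i, Sym2.eq_swap, hno _ h5, by omega⟩
    rw [heq, m3_parity_changes P n, hP 0, hP n] at hodd
    apply hodd
    have h1 : c n = c 0 := by
      have := hc.per 0
      rwa [Nat.zero_add] at this
    rw [h1]

end Pool.RBE
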