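import Pool.Agent.RBE.JC
import Pool.Agent.RBE.M3

set_option autoImplicit false

/-! [RBE-JD] every window of `P` contains a cut or a ring. -/

namespace Pool.RBE

open SimpleGraph Pool.Agent.RBC

section
variable {V : Type} {G : SimpleGraph V}

/-- parity of the number of changes of a predicate around a cycle -/
theorem parity_changes (b : ℕ → Prop) [DecidablePred b] (m : ℕ) :
    Odd ((Finset.range m).filter (fun j => ¬ (b j ↔ b (j + 1)))).card ↔ ¬ (b 0 ↔ b m) := by
  induction m with
  | zero => simp
  | succ m ih =>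
    rw [Finset.range_add_one, Finset.filter_insert]
    by_cases h : b m ↔ b (m + 1)
    · rw [if_neg (not_not.2 h), ih, h]
    · rw [if_pos h, Finset.card_insert_of_notMem (by simp), Nat.odd_add_one, ih]
      tauto

theorem not_odd_changes {n : ℕ} (b : ℕ → Prop) [DecidablePred b] (h : b n ↔ b 0) :
    ¬ Odd ((Finset.range n).filter (fun j => ¬ (b j ↔ b (j + 1)))).card := by
  rw [parity_changes]
  tauto

theorem geo_walk' {D : ℕ} {P : ℕ → V} (hP : Geo G D P) {a b : ℕ} (hab : a ≤ b) (hb : b ≤ D) :
    ∃ w : G.Walk (P a) (P b), w.length = b - a ∧ ∀ z, z ∈ w.support ↔ ∃ m, a ≤ m ∧ m ≤ b ∧ z = P m := by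
  induction b, hab using Nat.le_induction with
  | base =>
    refine ⟨Walk.nil, by simp, fun z => ?_⟩
    constructor
    · intro hz
      simp at hz
      exact ⟨a, le_rfl, le_rfl, hz⟩
    · rintro ⟨m, h1, h2, rfl⟩
      have : m = a := by omega
      subst this
      simp
  | succ b hab ih =>
    obtain ⟨w, hwl, hw⟩ := ih (by omega)
    have hadj : G.Adj (P b) (P (b + 1)) := by
      rw [← SimpleGraph.dist_eq_one_iff_adj]
      have := hP b (b + 1) (by omega) hb
      omega
    refine ⟨w.concat hadj, by rw [Walk.length_concat, hwl]; omega, fun z => ?_⟩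
    rw [Walk.support_concat]
    simp only [List.mem_append, List.mem_cons, List.not_mem_nil, or_false]
    rw [hw]
    constructor
    · rintro (⟨m, h1, h2, h3⟩ | rfl)
      · exact ⟨m, h1, by omega, h3⟩
      · exact ⟨b + 1, by omega, le_rfl, rfl⟩
    · rintro ⟨m, h1, h2, rfl⟩
      rcases Nat.lt_or_ge m (b + 1) with hm | hm
      · exact Or.inl ⟨m, h1, by omega, rfl⟩
      · right
        congr 1
        omega

variable [Fintype V]

/-- The odd closed walk through the group of `P i`. -/
theorem ringAt_of_walk (hc : G.Connected) {D : ℕ} {P : ℕ → V} (hP : Geo G D P) {i r r' : ℕ} (hi : 1 ≤ i)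
    (hiD : i + 1 ≤ D)
    (hshell : ∀ v, G.dist (P 0) v = i → G.dist (P i) v ≤ r' → G.dist (P i) v ≤ r)
    (R : G.Walk (P (i + 1)) (P (i - 1))) (hR : ∀ v ∈ R.support, G.dist (P 0) v = i → r < G.dist (P i) v) :
    ∃ n c, RingAt G P i r r' n c := by
  classical
  let Y : Set V := {v | G.dist (P 0) v = i ∧ G.dist (P i) v ≤ r}
  obtain ⟨F, hF⟩ : ∃ F : Set (Sym2 V), ∀ e, e ∈ F ↔ ∃ a b, e = s(a, b) ∧ a ∈ Y ∧ G.dist (P 0) b + 1 = i :=
    ⟨{e | ∃ a b, e = s(a, b) ∧ a ∈ Y ∧ G.dist (P 0) b + 1 = i}, fun _ => Iff.rfl⟩
  have hlev : ∀ m, m ≤ D → G.dist (P 0) (P m) = m := by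
    intro m hm
    have := hP 0 m (by omega) hm
    omega
  have hl0 := hlev (i - 1) (by omega)
  have hl1 := hlev i (by omega)
  have hl2 := hlev (i + 1) (by omega)
  have hadj1 : G.Adj (P (i - 1)) (P i) := by
    rw [← SimpleGraph.dist_eq_one_iff_adj, hP (i - 1) i (by omega) (by omega)]
    omega
  have hadj2 : G.Adj (P i) (P (i + 1)) := by
    rw [← SimpleGraph.dist_eq_one_iff_adj, hP i (i + 1) (by omega) (by omega)]
    omega
  have hF1 : s(P (i - 1), P i) ∈ F := by
    refine (hF _).2 ⟨P i, P (i - 1), Sym2.eq_swap, ⟨hl1, by simp⟩, by omega⟩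
  have hF2 : s(P i, P (i + 1)) ∉ F := by
    rw [hF]
    rintro ⟨a, b, he, ha, hb⟩
    rw [Sym2.eq_iff] at he
    rcases he with ⟨rfl, rfl⟩ | ⟨rfl, rfl⟩
    · omega
    · have := ha.1
      omega
  have hF3 : ∀ e ∈ R.edges, e ∉ F := by
    intro e he
    rw [hF]
    rintro ⟨a, b, rfl, ha, hb⟩
    have h1 := R.fst_mem_support_of_mem_edges he
    have h2 := hR a h1 ha.1
    have h3 := ha.2
    omega
  obtain ⟨n, c, hiso, hodd⟩ := odd_cycle hc F (Walk.cons hadj1 (Walk.cons hadj2 R)) (by
    rw [Walk.edges_cons, Walk.edges_cons, List.countP_cons, List.countP_cons]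
    have : R.edges.countP (fun e => decide (e ∈ F)) = 0 := by
      rw [List.countP_eq_zero]
      intro e he
      simpa using hF3 e he
    rw [this]
    simp [hF1, hF2])
  refine ⟨n, c, hiso, ?_, ?_⟩
  · have hpos : 0 < ((Finset.range n).filter (fun j => s(c j, c (j + 1)) ∈ F)).card := hodd.pos
    obtain ⟨j, hj⟩ := Finset.card_pos.1 hpos
    obtain ⟨a, b, he, ha, hb⟩ := (hF _).1 (Finset.mem_filter.1 hj).2
    rw [Sym2.eq_iff] at he
    rcases he with ⟨h1, h2⟩ | ⟨h1, h2⟩
    · exact ⟨j, h1 ▸ ha⟩
    · exact ⟨j + 1, h2 ▸ ha⟩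
  · by_contra hcon
    push Not at hcon
    refine not_odd_changes (n := n) (fun j => i ≤ G.dist (P 0) (c j)) ?_ ?_
    · have := hiso.per 0
      rw [Nat.zero_add] at this
      rw [this]
    · convert hodd using 3
      rename_i j hj
      have hstep := hiso.adj j
      have d1 : G.dist (c j) (c (j + 1)) = 1 := SimpleGraph.dist_eq_one_iff_adj.2 hstep
      have d2 := hc.dist_triangle (u := P 0) (v := c j) (w := c (j + 1))
      have d3 := hc.dist_triangle (u := P 0) (v := c (j + 1)) (w := c j)
      have d4 : G.dist (c (j + 1)) (c j) = 1 := by rw [SimpleGraph.dist_comm]; exact d1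
      rw [hF]
      constructor
      · intro h
        by_cases h1 : i ≤ G.dist (P 0) (c j)
        · have h2 : ¬ i ≤ G.dist (P 0) (c (j + 1)) := by tauto
          have h3 : G.dist (P 0) (c j) = i := by omega
          exact ⟨c j, c (j + 1), rfl, ⟨h3, hshell _ h3 (hcon j h3)⟩, by omega⟩
        · have h2 : i ≤ G.dist (P 0) (c (j + 1)) := by tauto
          have h3 : G.dist (P 0) (c (j + 1)) = i := by omega
          exact ⟨c (j + 1), c j, Sym2.eq_swap, ⟨h3, hshell _ h3 (hcon (j + 1) h3)⟩, by omega⟩
      · rintro ⟨a, b, he, ha, hb⟩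
        have ha1 := ha.1
        rw [Sym2.eq_iff] at he
        rcases he with ⟨h1, h2⟩ | ⟨h1, h2⟩
        · rw [← h1] at ha1
          rw [← h2] at hb
          omega
        · rw [← h1] at hb
          rw [← h2] at ha1
          omega

open Classical in
/-- the vertices of level `i` within distance `R` of `P i` -/
noncomputable def lgrp (G : SimpleGraph V) (P : ℕ → V) (i R : ℕ) : Finset V :=
  Finset.univ.filter (fun v => G.dist (P 0) v = i ∧ G.dist (P i) v ≤ R)

/-- one of `k` shells is empty -/
theorem exists_shell {P : ℕ → V} {i : ℕ} {r : ℕ → ℕ} (hr : ∀ t, r t ≤ r (t + 1)) (hi : G.dist (P 0) (P i) = i)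
    {k : ℕ} (h : (lgrp G P i (r k)).card < k) :
    ∃ t, t < k ∧ ∀ v, G.dist (P 0) v = i → G.dist (P i) v ≤ r (t + 1) → G.dist (P i) v ≤ r t := by
  classical
  by_contra hcon
  push Not at hcon
  have key : ∀ m, m ≤ k → m + 1 ≤ (lgrp G P i (r m)).card := by
    intro m
    induction m with
    | zero =>
      intro _
      rw [Nat.succ_le_iff, Finset.card_pos]
      exact ⟨P i, by simp [lgrp, hi]⟩
    | succ m ih =>
      intro hm
      obtain ⟨v, h1, h2, h3⟩ := hcon m (by omega)
      have h4 := ih (by omega)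
      have h5 : insert v (lgrp G P i (r m)) ⊆ lgrp G P i (r (m + 1)) := by
        intro x hx
        rw [Finset.mem_insert] at hx
        rcases hx with rfl | hx
        · simp only [lgrp, Finset.mem_filter, Finset.mem_univ, true_and]
          exact ⟨h1, h2⟩
        · simp only [lgrp, Finset.mem_filter, Finset.mem_univ, true_and] at hx ⊢
          exact ⟨hx.1, hx.2.trans (hr m)⟩
      have h6 : v ∉ lgrp G P i (r m) := by
        simp only [lgrp, Finset.mem_filter, Finset.mem_univ, true_and, not_and]
        intro _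
        omega
      have h7 := Finset.card_le_card h5
      rw [Finset.card_insert_of_notMem h6] at h7
      omega
  have := key k le_rfl
  omega

/-- (c) every window of `N` consecutive levels of `P` contains a cut or a ring. -/
theorem window_lemma {k : ℕ} (hk : KConn G k) (hk0 : 0 < k) (hc : G.Connected) {D : ℕ} {P : ℕ → V} (hP : Geo G D P)
    {r : ℕ → ℕ} (hr : ∀ t, r t ≤ r (t + 1)) {N : ℕ} (hN : 0 < N)
    (hSL : ∀ (K : Set V) (q : ℕ), K.Nonempty → Rb G K q → (nbh G K (r (k + 1))).card < k * q + N)
    {a : ℕ} (ha : 1 ≤ a) (haN : a + N ≤ D) :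
    ∃ i, a ≤ i ∧ i < a + N ∧ (Cuts G {P i} (r k) (P 0) (P D) ∨ ∃ t n c, RingAt G P i (r t) (r (t + 1)) n c) := by
  classical
  have hlev : ∀ m, m ≤ D → G.dist (P 0) (P m) = m := by
    intro m hm
    have := hP 0 m (by omega) hm
    omega
  -- a level with at most `k` vertices
  have h1 : ∃ i, a ≤ i ∧ i < a + N ∧ (lgrp G P i (r (k + 1))).card ≤ k := by
    by_contra hcon
    push Not at hcon
    obtain ⟨w, hwl, hw⟩ := geo_walk' hP (a := a) (b := a + N - 1) (by omega) (by omega)
    have hRb : Rb G {x | x ∈ w.support} (w.length) := by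
      have h2 := rb_walk (rb_singleton (G := G) (P a)) (Set.mem_singleton _) w
      have h3 : ({P a} : Set V) ∪ {x | x ∈ w.support} = {x | x ∈ w.support} := by
        apply Set.union_eq_right.2
        intro x hx
        rw [Set.mem_singleton_iff] at hx
        subst hx
        exact w.start_mem_support
      rw [h3] at h2
      simpa using h2
    have h4 := hSL _ _ ⟨P a, w.start_mem_support⟩ hRb
    have h5 : ∑ i ∈ Finset.Ico a (a + N), (lgrp G P i (r (k + 1))).card ≤
        (nbh G {x | x ∈ w.support} (r (k + 1))).card := by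
      rw [← Finset.card_biUnion]
      · apply Finset.card_le_card
        intro v hv
        rw [Finset.mem_biUnion] at hv
        obtain ⟨i, hi, hv⟩ := hv
        rw [Finset.mem_Ico] at hi
        simp only [lgrp, Finset.mem_filter, Finset.mem_univ, true_and] at hv
        simp only [nbh, Finset.mem_filter, Finset.mem_univ, true_and]
        refine ⟨P i, (hw _).2 ⟨i, by omega, by omega, rfl⟩, ?_⟩
        rw [SimpleGraph.dist_comm]
        exact hv.2
      · intro i _ j _ hij
        rw [Function.onFun, Finset.disjoint_left]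
        intro v hv hv'
        simp only [lgrp, Finset.mem_filter, Finset.mem_univ, true_and] at hv hv'
        omega
    have h6 : N * (k + 1) ≤ ∑ i ∈ Finset.Ico a (a + N), (lgrp G P i (r (k + 1))).card := by
      have : ∑ i ∈ Finset.Ico a (a + N), (k + 1) = N * (k + 1) := by simp
      rw [← this]
      apply Finset.sum_le_sum
      intro i hi
      rw [Finset.mem_Ico] at hi
      have := hcon i hi.1 hi.2
      omega
    have h7 : k * w.length + k = k * N := by
      rw [hwl, ← Nat.mul_succ]
      congr 1
      omega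
    nlinarith
  obtain ⟨i, hi1, hi2, hcard⟩ := h1
  refine ⟨i, hi1, hi2, ?_⟩
  have hli := hlev i (by omega)
  by_cases hthin : (lgrp G P i (r k)).card < k
  · right
    obtain ⟨t, ht, hsh⟩ := exists_shell hr hli hthin
    have hmono : ∀ m, r t ≤ r (t + m) := by
      intro m
      induction m with
      | zero => simp
      | succ m ih => exact ih.trans (hr _)
    have hsub : lgrp G P i (r t) ⊆ lgrp G P i (r k) := by
      intro v hv
      simp only [lgrp, Finset.mem_filter, Finset.mem_univ, true_and] at hv ⊢
      have := hmono (k - t)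
      rw [show t + (k - t) = k by omega] at this
      exact ⟨hv.1, hv.2.trans this⟩
    have hS : (lgrp G P i (r t)).card < k := lt_of_le_of_lt (Finset.card_le_card hsub) hthin
    have hconn := hk.2 _ hS
    have m1 : P (i + 1) ∈ ((↑(lgrp G P i (r t)) : Set V)ᶜ) := by
      simp only [Set.mem_compl_iff, Finset.mem_coe, lgrp, Finset.mem_filter, Finset.mem_univ, true_and, not_and]
      intro h
      have := hlev (i + 1) (by omega)
      omega
    have m2 : P (i - 1) ∈ ((↑(lgrp G P i (r t)) : Set V)ᶜ) := by
      simp only [Set.mem_compl_iff, Finset.mem_coe, lgrp, Finset.mem_filter, Finset.mem_univ, true_and, not_and]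
      intro h
      have := hlev (i - 1) (by omega)
      omega
    obtain ⟨R⟩ := hconn.preconnected ⟨P (i + 1), m1⟩ ⟨P (i - 1), m2⟩
    let R' := R.map (SimpleGraph.Embedding.induce _).toHom
    have hR' : ∀ v ∈ R'.support, G.dist (P 0) v = i → r t < G.dist (P i) v := by
      intro v hv hvi
      have hv2 : v ∈ ((↑(lgrp G P i (r t)) : Set V)ᶜ) := by
        rw [Walk.support_map, List.mem_map] at hv
        obtain ⟨y, _, rfl⟩ := hv
        exact y.2
      simp only [Set.mem_compl_iff, Finset.mem_coe, lgrp, Finset.mem_filter, Finset.mem_univ, true_and, not_and]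
        at hv2
      have := hv2 hvi
      omega
    obtain ⟨n, c, h⟩ := ringAt_of_walk hc hP (by omega) (by omega) hsh R' hR'
    exact ⟨t, n, c, h⟩
  · by_cases hcut : Cuts G {P i} (r k) (P 0) (P D)
    · exact Or.inl hcut
    · right
      have hsh : ∀ v, G.dist (P 0) v = i → G.dist (P i) v ≤ r (k + 1) → G.dist (P i) v ≤ r k := by
        have hsub : lgrp G P i (r k) ⊆ lgrp G P i (r (k + 1)) := by
          intro v hv
          simp only [lgrp, Finset.mem_filter, Finset.mem_univ, true_and] at hv ⊢
          exact ⟨hv.1, hv.2.trans (hr k)⟩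
        have heq : lgrp G P i (r k) = lgrp G P i (r (k + 1)) :=
          Finset.eq_of_subset_of_card_le hsub (by omega)
        intro v h1 h2
        have : v ∈ lgrp G P i (r (k + 1)) := by
          simp only [lgrp, Finset.mem_filter, Finset.mem_univ, true_and]
          exact ⟨h1, h2⟩
        rw [← heq] at this
        simp only [lgrp, Finset.mem_filter, Finset.mem_univ, true_and] at this
        exact this.2
      unfold Cuts at hcut
      push Not at hcut
      obtain ⟨α, hα⟩ := hcut
      obtain ⟨w1, hw1⟩ := geo_walk hP (a := i + 1) (b := D) (by omega) le_rfl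
      obtain ⟨w2, hw2⟩ := geo_walk hP (a := 0) (b := i - 1) (by omega) (by omega)
      have hR : ∀ v ∈ (w1.append (α.reverse.append w2)).support, G.dist (P 0) v = i → r k < G.dist (P i) v := by
        intro v hv hvi
        rw [Walk.mem_support_append_iff, Walk.mem_support_append_iff] at hv
        rcases hv with hv | hv | hv
        · obtain ⟨m, m1, m2, rfl⟩ := hw1 v hv
          have := hlev m m2
          omega
        · have h3 := hα v (by simpa using hv) (P i) rfl
          rw [SimpleGraph.dist_comm]
          exact h3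
        · obtain ⟨m, m1, m2, rfl⟩ := hw2 v hv
          have := hlev m (by omega)
          omega
      obtain ⟨n, c, h⟩ := ringAt_of_walk hc hP (by omega) (by omega) hsh _ hR
      exact ⟨k, n, c, h⟩

end

end Pool.RBE
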