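import Pool.Agent.RBE.JD

set_option autoImplicit false

/-! [RBE-JE] the structure theorem: every vertex is near `P` or near a ring along `P`. -/

namespace Pool.RBE

open SimpleGraph Pool.Agent.RBC

section
variable {V : Type} {G : SimpleGraph V}

/-- a tall vertex over a ring along `P` is attached near one of its two ends -/
theorem Ring.tall_end (hc : G.Connected) {D : ℕ} {P : ℕ → V} (hP : Diam G D P) {ρ s κ h0 δ0 δ δ2 K : ℕ}
    (hFA : FA G ρ s) (hκ : ρ + 1 + s ≤ κ) (hFL : FL G ρ h0 δ0) {n : ℕ} {c : ℕ → V} {p p' : V}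
    (h : Ring G ρ δ K D P n c p p') (h2 : κ + δ0 + δ ≤ δ2) {v x : V} (hx : Near G (Set.range c) v x)
    (hv : 2 * h0 + 2 * κ + 1 ≤ G.dist v x) : G.dist x p ≤ δ2 ∨ G.dist x p' ≤ δ2 := by
  have hG := hFA n c h.iso
  have hper := h.iso.perimeter hx.1 h.near0.1 h.nearD.1
  have hbal := h.bal
  by_cases hD : h0 ≤ G.dist (P D) p'
  · by_cases hcut : Cuts G (Set.range c) ρ v (P D)
    · left
      have := hFL n c h.iso _ _ _ _ hx h.nearD (by omega) hD hcut
      omega
    · right
      have := hG _ _ _ _ hx h.nearD hcut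
      omega
  · obtain ⟨w, hw, hw2⟩ := h.iso.antipode hx.1
    have g1 := gate_ineq hc hG hκ hx hw
    have g2 := hP.diam v w
    have g3 := h.iso.two_mul_dist h.near0.1 h.nearD.1
    have hPD : G.dist (P 0) (P D) = D := by have := hP.geo 0 D (by omega) le_rfl; omega
    have t3 := hc.dist_triangle (u := P 0) (v := p) (w := P D)
    have t4 := hc.dist_triangle (u := p) (v := p') (w := P D)
    have t4' : G.dist p' (P D) = G.dist (P D) p' := SimpleGraph.dist_comm
    by_cases hcut : Cuts G (Set.range c) ρ v (P 0)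
    · right
      have := hFL n c h.iso _ _ _ _ hx h.near0 (by omega) (by omega) hcut
      omega
    · left
      have := hG _ _ _ _ hx h.near0 hcut
      omega

/-- the ring above `a` -/
theorem Ring.above (hc : G.Connected) {D : ℕ} {P : ℕ → V} (hP : Diam G D P) {ρ s κ h0 δ0 δ δ2 K : ℕ}
    (hFA : FA G ρ s) (hκ : ρ + 1 + s ≤ κ) (hFL : FL G ρ h0 δ0) {n : ℕ} {c : ℕ → V} {p p' : V}
    (h : Ring G ρ δ K D P n c p p') (h2 : κ + δ0 + δ ≤ δ2) (hK : 8 * κ + 2 * δ2 + 1 ≤ K) {i a : ℕ}
    (hi1 : G.dist (P 0) p + K ≤ i) (hi2 : i + G.dist (P D) p' + K ≤ D) (ha : a ≤ i)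
    {v x : V} (hva : ∀ m, m ≤ D → G.dist v (P a) ≤ G.dist v (P m)) (hx : Near G (Set.range c) v x)
    (hv : 2 * h0 + 2 * κ + 1 ≤ G.dist v x) :
    Cuts G (Set.range c) ρ v (P D) ∧ G.dist x p ≤ δ2 ∧ a ≤ G.dist (P 0) p + 2 * δ2 + 13 * κ ∧
      G.dist v x ≤ G.dist (P 0) p + δ2 + 6 * κ := by
  have hG := hFA n c h.iso
  have hne : (Set.range c).Nonempty := ⟨c 0, 0, rfl⟩
  have hPD : G.dist (P 0) (P D) = D := by have := hP.geo 0 D (by omega) le_rfl; omega
  have hPa : G.dist (P 0) (P a) = a := by have := hP.geo 0 a (by omega) (by omega); omega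
  have t3 := hc.dist_triangle (u := P 0) (v := p) (w := P D)
  have t4 := hc.dist_triangle (u := p) (v := p') (w := P D)
  have t4' : G.dist p' (P D) = G.dist (P D) p' := SimpleGraph.dist_comm
  have t5 := hc.dist_triangle (u := p) (v := x) (w := p')
  have t5' : G.dist p x = G.dist x p := SimpleGraph.dist_comm
  have hnot : ¬ G.dist x p' ≤ δ2 := by
    intro hxp
    obtain ⟨b, hb, hb1, hb2, hb3⟩ := h.near_hi hc hP hFA hκ
    obtain ⟨q, hq⟩ := exists_geo_walk hc v (P a)
    by_cases hmeet : ∃ z ∈ q.support, ∃ y ∈ Set.range c, G.dist z y ≤ ρ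
    · obtain ⟨z, hz, hzx⟩ := cut_meets hc hG hκ hx q hmeet
      have e1 := hq z hz
      have e2 := hva b hb
      have e3 := hc.dist_triangle (u := v) (v := z) (w := P b)
      have e4 := hc.dist_triangle (u := z) (v := x) (w := P b)
      have e5 := hc.dist_triangle (u := x) (v := p') (w := P b)
      have e5' : G.dist p' (P b) = G.dist (P b) p' := SimpleGraph.dist_comm
      have e6 := hc.dist_triangle (u := P a) (v := z) (w := P b)
      have e6' : G.dist (P a) z = G.dist z (P a) := SimpleGraph.dist_comm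
      have e7 := hP.geo a b (by omega) hb
      omega
    · have hncut : ¬ Cuts G (Set.range c) ρ v (P a) := fun hcut => hmeet (hcut q)
      obtain ⟨y, hy⟩ := exists_near hc hne (P a)
      have e1 := hG _ _ _ _ hx hy hncut
      have e2 := hc.dist_triangle (u := p) (v := y) (w := p')
      have e3 := hc.dist_triangle (u := y) (v := x) (w := p')
      have e3' : G.dist y x = G.dist x y := SimpleGraph.dist_comm
      by_cases hcut0 : Cuts G (Set.range c) ρ (P 0) (P a)
      · have e4 := sep_ineq hc hG hκ h.near0 hy hcut0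
        omega
      · have e4 := hG _ _ _ _ h.near0 hy hcut0
        omega
  have hA : Cuts G (Set.range c) ρ v (P D) := by
    by_contra hcon
    have := hG _ _ _ _ hx h.nearD hcon
    omega
  have hB : G.dist x p ≤ δ2 := by
    rcases h.tall_end hc hP hFA hκ hFL h2 hx hv with h1 | h1
    · exact h1
    · exact absurd h1 hnot
  refine ⟨hA, hB, ?_, ?_⟩
  · obtain ⟨m0, hm0, hm1, hm2, hm3⟩ := h.near_lo hc hP hFA hκ
    have e1 := hva m0 hm0
    have e2 := hc.dist_triangle (u := v) (v := x) (w := P m0)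
    have e3 := hc.dist_triangle (u := x) (v := p) (w := P m0)
    have e3' : G.dist p (P m0) = G.dist (P m0) p := SimpleGraph.dist_comm
    by_cases hlow : a < G.dist (P 0) p + 8 * κ
    · omega
    · obtain ⟨y, hy⟩ := exists_near hc hne (P a)
      obtain ⟨f1, f2, f3⟩ := h.near_mid hc hP hFA hκ hy (by omega) (by omega)
      have e4 := hc.dist_triangle (u := P 0) (v := p) (w := P a)
      have e5 := hc.dist_triangle (u := p) (v := y) (w := P a)
      have e5' : G.dist y (P a) = G.dist (P a) y := SimpleGraph.dist_comm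
      have e6 := hc.dist_triangle (u := p) (v := x) (w := y)
      by_cases hcut : Cuts G (Set.range c) ρ v (P a)
      · have e7 := sep_ineq hc hG hκ hx hy hcut
        omega
      · have e7 := hG _ _ _ _ hx hy hcut
        omega
  · have e1 := sep_ineq hc hG hκ hx h.nearD hA
    have e2 := hP.diam v (P D)
    omega

variable [Fintype V]

/-- The constants of the structure theorem. -/
structure Consts (G : SimpleGraph V) (k ρ s κ h0 δ0 δ δ2 K N R2 T : ℕ) (r : ℕ → ℕ) : Prop where
  kconn : KConn G k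
  k0 : 0 < k
  fa : FA G ρ s
  fl : FL G ρ h0 δ0
  hκ : ρ + 1 + s ≤ κ
  hδ : δ0 + h0 + 2 * κ + 1 ≤ δ
  hδ2 : κ + δ0 + δ ≤ δ2
  hK : 8 * κ + 2 * δ2 + 1 ≤ K
  hr0 : ∀ t, K ≤ r t
  hr : ∀ t, 8 * r t ≤ r (t + 1)
  hN : 0 < N
  sl : ∀ (K : Set V) (q : ℕ), K.Nonempty → Rb G K q → (nbh G K (r (k + 1))).card < k * q + N
  hR2 : r k ≤ R2
  hT : 4 * R2 + N + 3 * δ2 + 17 * κ + 1 ≤ T

/-- The upper side of a vertex `v` far from `P` and from all rings along `P`. -/
theorem upper_side (hc : G.Connected) {D : ℕ} {P : ℕ → V} (hP : Diam G D P) {k ρ s κ h0 δ0 δ δ2 K N R2 T : ℕ}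
    {r : ℕ → ℕ} (C : Consts G k ρ s κ h0 δ0 δ δ2 K N R2 T r) {Λ a : ℕ} {v : V}
    (hva : ∀ m, m ≤ D → G.dist v (P a) ≤ G.dist v (P m)) (hvΛ : Λ ≤ G.dist v (P a))
    (hring : ∀ n c p p', Ring G ρ δ K D P n c p p' → ∀ x, Near G (Set.range c) v x → Λ ≤ G.dist v x)
    (hΛ : 2 * h0 + 2 * κ + 1 ≤ Λ) (ha : a + (2 * R2 + 1) + N ≤ D) :
    Cuts G {P a} T v (P D) ∧ Cuts G {P a} T (P 0) (P D) ∧ Λ ≤ a + T := by
  have hκ := C.hκ
  have hδ := C.hδ
  have hδ2 := C.hδ2
  have hK := C.hK
  have hR2 := C.hR2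
  have hT := C.hT
  obtain ⟨i, hi1, hi2, hi⟩ := window_lemma C.kconn C.k0 hc hP.geo (r := r)
    (fun t => by have := C.hr t; omega) C.hN C.sl (a := a + (2 * R2 + 1)) (by omega) (by omega)
  have hPai := hP.geo a i (by omega) (by omega)
  have hPiD := hP.geo i D (by omega) le_rfl
  rcases hi with hcut | ⟨t, n, c, hR⟩
  · -- a cut
    have key : ∀ w : G.Walk v (P D), ∃ z ∈ w.support, G.dist z (P i) ≤ R2 := by
      intro w
      obtain ⟨w1, hw1⟩ := geo_walk hP.geo (a := 0) (b := a) (by omega) (by omega)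
      obtain ⟨q, hq⟩ := exists_geo_walk hc v (P a)
      obtain ⟨z, hz, y, hy, hzy⟩ := hcut (w1.append (q.reverse.append w))
      rw [Set.mem_singleton_iff] at hy
      subst hy
      rw [Walk.mem_support_append_iff, Walk.mem_support_append_iff] at hz
      rcases hz with hz | hz | hz
      · obtain ⟨m, m1, m2, rfl⟩ := hw1 z hz
        have := hP.geo m i (by omega) (by omega)
        omega
      · have e1 := hq z (by simpa using hz)
        have e2 := hva i (by omega)
        have e3 := hc.dist_triangle (u := v) (v := z) (w := P i)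
        have e4 := hc.dist_triangle (u := P a) (v := z) (w := P i)
        have e4' : G.dist (P a) z = G.dist z (P a) := SimpleGraph.dist_comm
        omega
      · exact ⟨z, hz, by omega⟩
    have hPia : G.dist (P i) (P a) = G.dist (P a) (P i) := SimpleGraph.dist_comm
    refine ⟨?_, ?_, ?_⟩
    · intro w
      obtain ⟨z, hz, hzi⟩ := key w
      refine ⟨z, hz, P a, rfl, ?_⟩
      have := hc.dist_triangle (u := z) (v := P i) (w := P a)
      omega
    · intro w
      obtain ⟨z, hz, y, hy, hzy⟩ := hcut w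
      rw [Set.mem_singleton_iff] at hy
      subst hy
      refine ⟨z, hz, P a, rfl, ?_⟩
      have := hc.dist_triangle (u := z) (v := P i) (w := P a)
      omega
    · obtain ⟨q, hq⟩ := exists_geo_walk hc v (P D)
      obtain ⟨z, hz, hzi⟩ := key q
      have e1 := hq z hz
      have e2 := hP.diam v (P D)
      have e3 := hva i (by omega)
      have e4 := hc.dist_triangle (u := v) (v := z) (w := P i)
      have e5 := hc.dist_triangle (u := P i) (v := z) (w := P D)
      have e5' : G.dist (P i) z = G.dist z (P i) := SimpleGraph.dist_comm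
      omega
  · -- a ring
    have hrt := C.hr0 t
    obtain ⟨p, p', hiso, hp, hp', hcut, hbal, hlo, hhi⟩ := ring_of hc hP C.fa hκ C.fl hδ (i := i) (by omega) hR
      (by omega) (C.hr t)
    have hRing : Ring G ρ δ K D P n c p p' := ⟨hiso, hp, hp', hcut, hbal, by omega⟩
    obtain ⟨x, hx⟩ := exists_near hc ⟨c 0, 0, rfl⟩ v (D := Set.range c)
    have hvx := hring n c p p' hRing x hx
    obtain ⟨hA, hB, hC, hE⟩ := hRing.above hc hP C.fa hκ C.fl hδ2 hK (i := i) (a := a) (by omega) (by omega)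
      (by omega) hva hx (by omega)
    have hG := C.fa n c hiso
    obtain ⟨m0, hm0, hm1, hm2, hm3⟩ := hRing.near_lo hc hP C.fa hκ
    have hpa : G.dist p (P a) ≤ 2 * R2 + N + 2 * δ2 + 15 * κ := by
      have e1 := hc.dist_triangle (u := p) (v := P m0) (w := P a)
      have e1' : G.dist p (P m0) = G.dist (P m0) p := SimpleGraph.dist_comm
      rcases le_total m0 a with hma | hma
      · have e2 := hP.geo m0 a hma (by omega)
        omega
      · have e2 := hP.geo a m0 hma hm0
        rw [SimpleGraph.dist_comm] at e2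
        omega
    refine ⟨?_, ?_, ?_⟩
    · intro w
      obtain ⟨z, hz, hzx⟩ := cut_meets hc hG hκ hx w (hA w)
      refine ⟨z, hz, P a, rfl, ?_⟩
      have e1 := hc.dist_triangle (u := z) (v := x) (w := P a)
      have e2 := hc.dist_triangle (u := x) (v := p) (w := P a)
      omega
    · intro w
      obtain ⟨z, hz, hzx⟩ := cut_meets hc hG hκ hp w (hcut w)
      refine ⟨z, hz, P a, rfl, ?_⟩
      have e1 := hc.dist_triangle (u := z) (v := p) (w := P a)
      omega
    · omega

/-- (ST) the structure theorem. -/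
theorem structure_thm (hc : G.Connected) {D : ℕ} {P : ℕ → V} (hP : Diam G D P)
    {k ρ s κ h0 δ0 δ δ2 K N R2 T H : ℕ} {r : ℕ → ℕ} (C : Consts G k ρ s κ h0 δ0 δ δ2 K N R2 T r)
    (hD3 : D3 G T H) {Λ : ℕ} (hΛ : 2 * T + H + 2 * h0 + 2 * κ + 2 ≤ Λ) (v : V) :
    (∃ m, m ≤ D ∧ G.dist v (P m) < Λ) ∨
      ∃ n c p p', Ring G ρ δ K D P n c p p' ∧ ∃ x, Near G (Set.range c) v x ∧ G.dist v x < Λ := by
  by_contra hcon
  push Not at hcon
  obtain ⟨h1, h2⟩ := hcon
  obtain ⟨y, hy⟩ := exists_near hc ⟨P 0, 0, by omega, rfl⟩ v (D := {z | ∃ m, m ≤ D ∧ z = P m})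
  obtain ⟨⟨a, haD, rfl⟩, hy2⟩ := hy
  have hva : ∀ m, m ≤ D → G.dist v (P a) ≤ G.dist v (P m) := fun m hm => hy2 _ ⟨m, hm, rfl⟩
  have hvΛ := h1 a haD
  have hT := C.hT
  have hPa : G.dist (P 0) (P a) = a := by have := hP.geo 0 a (by omega) (by omega); omega
  have hPa' : G.dist (P a) (P 0) = a := by rw [SimpleGraph.dist_comm]; exact hPa
  have hPaD := hP.geo a D haD le_rfl
  have hdiam := hP.diam v (P a)
  have hup : a + (2 * R2 + 1) + N ≤ D → Cuts G {P a} T v (P D) ∧ Cuts G {P a} T (P 0) (P D) ∧ Λ ≤ a + T :=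
    fun ha => upper_side hc hP C hva hvΛ (fun n c p p' hR x hx => h2 n c p p' hR x hx) (by omega) ha
  have hlo : (D - a) + (2 * R2 + 1) + N ≤ D → Cuts G {P a} T v (P 0) ∧ Λ ≤ (D - a) + T := by
    intro ha
    have := upper_side hc hP.reverse C (Λ := Λ) (a := D - a) (v := v) (by
      intro m hm
      show G.dist v (P (D - (D - a))) ≤ G.dist v (P (D - m))
      rw [show D - (D - a) = a by omega]
      exact hva _ (by omega)) (by
      show Λ ≤ G.dist v (P (D - (D - a)))
      rw [show D - (D - a) = a by omega]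
      exact hvΛ) (by
      intro n c p p' hR x hx
      have hR' := hR.reverse
      have hPP : (fun m => P (D - (D - m))) = fun m => P (D - (D - m)) := rfl
      refine h2 n c p' p ⟨hR.iso, ?_, ?_, ?_, ?_, ?_⟩ x hx
      · simpa using hR.nearD
      · simpa using hR.near0
      · simpa using hR.cuts.symm
      · have := hR.bal
        rw [SimpleGraph.dist_comm (u := p') (v := p)]
        exact this
      · have := hR.deep
        simp only [Nat.sub_zero, Nat.sub_self] at this
        omega) (by omega) ha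
    obtain ⟨e1, e2, e3⟩ := this
    simp only [Nat.sub_self] at e1
    rw [show D - (D - a) = a by omega] at e1
    exact ⟨e1, e3⟩
  by_cases hA : a + (2 * R2 + 1) + N ≤ D
  · obtain ⟨u1, u2, u3⟩ := hup hA
    by_cases hB : (D - a) + (2 * R2 + 1) + N ≤ D
    · obtain ⟨l1, l3⟩ := hlo hB
      refine hD3 (P a) (P 0) (P D) v ?_ ?_ ?_ u2 l1.symm u1.symm
      · omega
      · omega
      · rw [SimpleGraph.dist_comm]
        omega
    · omega
  · by_cases hB : (D - a) + (2 * R2 + 1) + N ≤ D
    · obtain ⟨l1, l3⟩ := hlo hB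
      omega
    · omega

end

end Pool.RBE
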