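import Pool.Agent.RBE.JE

set_option autoImplicit false

/-! [RBE-JF] (J1) and (J2) from the structure theorem. -/

namespace Pool.RBE

open SimpleGraph Pool.Agent.RBC

section
variable {V : Type} {G : SimpleGraph V} [Fintype V]

/-- A vertex far from `P` on its level is near a ring, and the level is deep in the range of the ring. -/
theorem far_ring (hc : G.Connected) {D : ℕ} {P : ℕ → V} (hP : Diam G D P)
    {k ρ s κ h0 δ0 δ δ2 K N R2 T H : ℕ} {r : ℕ → ℕ} (C : Consts G k ρ s κ h0 δ0 δ δ2 K N R2 T r)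
    (hD3 : D3 G T H) {Λ K1 L : ℕ} (hΛ : 2 * T + H + 2 * h0 + 2 * κ + 2 ≤ Λ)
    (hL : 2 * (2 * Λ + K1 + 2 * δ + 10 * κ) ≤ L) {i : ℕ} (hi : i ≤ D) {x : V} (hx : G.dist (P 0) x = i)
    (hfar : L < G.dist x (P i)) :
    ∃ n c p p', Ring G ρ δ K D P n c p p' ∧ (∃ w, Near G (Set.range c) x w ∧ G.dist x w < Λ) ∧
      G.dist (P 0) p + K1 ≤ i ∧ i + G.dist (P D) p' + K1 ≤ D := by
  have hκ := C.hκ
  have hlev : ∀ m, m ≤ D → G.dist (P 0) (P m) = m := by
    intro m hm
    have := hP.geo 0 m (by omega) hm
    omega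
  have hfarm : ∀ m, m ≤ D → L < 2 * G.dist x (P m) := by
    intro m hm
    have e1 := hlev m hm
    have e2 := hlev i hi
    have e3 := hc.dist_triangle (u := P 0) (v := x) (w := P m)
    have e4 := hc.dist_triangle (u := P 0) (v := P m) (w := x)
    have e4' : G.dist (P m) x = G.dist x (P m) := SimpleGraph.dist_comm
    have e5 := hc.dist_triangle (u := x) (v := P m) (w := P i)
    rcases le_total m i with h | h
    · have := hP.geo m i h hi
      omega
    · have := hP.geo i m h hm
      rw [SimpleGraph.dist_comm] at this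
      omega
  rcases structure_thm hc hP C hD3 hΛ x with ⟨m, hm, hxm⟩ | ⟨n, c, p, p', hR, w, hw, hxw⟩
  · have := hfarm m hm
    omega
  · refine ⟨n, c, p, p', hR, ⟨w, hw, hxw⟩, ?_⟩
    have hG := C.fa n c hR.iso
    have hPD := hlev D le_rfl
    have e1 := hc.dist_triangle (u := P 0) (v := x) (w := w)
    have e2 := hc.dist_triangle (u := P 0) (v := w) (w := x)
    have e2' : G.dist w x = G.dist x w := SimpleGraph.dist_comm
    have g1 := gate_ineq hc hG hκ hR.near0 hw.1
    have t1 := hc.dist_triangle (u := P 0) (v := p) (w := w)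
    constructor
    · by_contra hcon
      obtain ⟨m0, hm0, hm1, hm2, hm3⟩ := hR.near_lo hc hP C.fa hκ
      have f1 := hfarm m0 hm0
      have f2 := hc.dist_triangle (u := x) (v := w) (w := P m0)
      have f3 := hc.dist_triangle (u := w) (v := p) (w := P m0)
      have f3' : G.dist w p = G.dist p w := SimpleGraph.dist_comm
      have f3'' : G.dist p (P m0) = G.dist (P m0) p := SimpleGraph.dist_comm
      omega
    · by_contra hcon
      obtain ⟨m0, hm0, hm1, hm2, hm3⟩ := hR.near_hi hc hP C.fa hκ
      have f1 := hfarm m0 hm0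
      have f2 := hc.dist_triangle (u := x) (v := w) (w := P m0)
      have f3 := hc.dist_triangle (u := w) (v := p') (w := P m0)
      have f3'' : G.dist p' (P m0) = G.dist (P m0) p' := SimpleGraph.dist_comm
      have f4 := sep_ineq hc hG hκ hR.near0 hR.nearD hR.cuts
      have f5 := hR.iso.perimeter hw.1 hR.nearD.1 hR.near0.1
      have f5' : G.dist w p = G.dist p w := SimpleGraph.dist_comm
      have f5'' : G.dist p' p = G.dist p p' := SimpleGraph.dist_comm
      have f6 := hR.bal
      have t3 := hc.dist_triangle (u := P 0) (v := p) (w := P D)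
      have t4 := hc.dist_triangle (u := p) (v := p') (w := P D)
      have t4' : G.dist p' (P D) = G.dist (P D) p' := SimpleGraph.dist_comm
      omega

/-- (J1) -/
theorem J1_holds (hc : G.Connected) {D : ℕ} {P : ℕ → V} (hP : Diam G D P)
    {k ρ s κ h0 δ0 δ δ2 K N R2 T H : ℕ} {r : ℕ → ℕ} (C : Consts G k ρ s κ h0 δ0 δ δ2 K N R2 T r)
    (hD3 : D3 G T H) {Λ K1 L : ℕ} (hΛ : 2 * T + H + 2 * h0 + 2 * κ + 2 ≤ Λ) (hK1 : Λ + δ2 + 20 * κ + 1 ≤ K1)
    (hL : 2 * (2 * Λ + K1 + 2 * δ + 10 * κ) + 4 * h0 + 4 ≤ L) : J1 G L D P := by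
  have hκ := C.hκ
  intro i hi x x' hx hx'
  by_contra hcon
  push Not at hcon
  obtain ⟨hfx, hfx', hxx'⟩ := hcon
  obtain ⟨n, c, p, p', hR, ⟨w, hw, hxw⟩, hlo, hhi⟩ := far_ring hc hP C hD3 hΛ (K1 := K1) (L := L) (by omega) hi hx hfx
  obtain ⟨n', c', p1, p1', hR', ⟨w', hw', hxw'⟩, hlo', hhi'⟩ :=
    far_ring hc hP C hD3 hΛ (K1 := K1) (L := L) (by omega) hi hx' hfx'
  have hG := C.fa n c hR.iso
  have hlev : ∀ m, m ≤ D → G.dist (P 0) (P m) = m := by
    intro m hm
    have := hP.geo 0 m (by omega) hm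
    omega
  have hli := hlev i hi
  have hPD := hlev D le_rfl
  obtain ⟨y, hy⟩ := exists_near hc ⟨w, hw.1⟩ (P i)
  obtain ⟨x2, hx2⟩ := exists_near hc ⟨w, hw.1⟩ x'
  obtain ⟨y', hy'⟩ := exists_near hc ⟨w', hw'.1⟩ (P i)
  obtain ⟨f1, f2, f3⟩ := hR.near_mid hc hP C.fa hκ hy (by omega) (by omega)
  obtain ⟨f1', f2', f3'⟩ := hR'.near_mid hc hP C.fa hκ hy' (by omega) (by omega)
  -- levels
  have w1 := hc.dist_triangle (u := P 0) (v := x) (w := w)
  have w2 := hc.dist_triangle (u := P 0) (v := w) (w := x)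
  have w2' : G.dist w x = G.dist x w := SimpleGraph.dist_comm
  have w3 := gate_ineq hc hG hκ hR.near0 hw.1
  have w4 := hc.dist_triangle (u := P 0) (v := p) (w := w)
  have y1 := hc.dist_triangle (u := P 0) (v := P i) (w := y)
  have y2 := hc.dist_triangle (u := P 0) (v := y) (w := P i)
  have y2' : G.dist y (P i) = G.dist (P i) y := SimpleGraph.dist_comm
  have y3 := hc.dist_triangle (u := P 0) (v := p) (w := y)
  by_cases htall : 2 * h0 + 2 * κ + 1 ≤ G.dist x' x2
  · -- `x'` is tall over the ring of `x`: impossible, because of the ring of `x'`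
    have hend := hR.tall_end hc hP C.fa hκ C.fl C.hδ2 hx2 htall
    -- a point within `κ` of `x2` is not close to `x'`, `P i`, `w'`, `y'`
    have hbad : ∀ z, G.dist z x2 ≤ 3 * κ → i ≤ G.dist (P 0) z + Λ + 12 * κ →
        G.dist (P 0) z ≤ i + Λ + 12 * κ → False := by
      intro z hz hz1 hz2
      rcases hend with h1 | h1
      · have e1 := hc.dist_triangle (u := P 0) (v := p) (w := z)
        have e2 := hc.dist_triangle (u := p) (v := x2) (w := z)
        have e3 : G.dist p x2 = G.dist x2 p := SimpleGraph.dist_comm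
        have e4 : G.dist x2 z = G.dist z x2 := SimpleGraph.dist_comm
        omega
      · have e1 := hc.dist_triangle (u := P 0) (v := z) (w := P D)
        have e2 := hc.dist_triangle (u := z) (v := x2) (w := P D)
        have e3 := hc.dist_triangle (u := x2) (v := p') (w := P D)
        have e4 : G.dist p' (P D) = G.dist (P D) p' := SimpleGraph.dist_comm
        omega
    have hnear : ∀ z, (G.dist x' z ≤ Λ ∨ G.dist (P i) z ≤ 12 * κ) →
        i ≤ G.dist (P 0) z + Λ + 12 * κ ∧ G.dist (P 0) z ≤ i + Λ + 12 * κ := by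
      intro z hz
      rcases hz with hz | hz
      · have e1 := hc.dist_triangle (u := P 0) (v := x') (w := z)
        have e2 := hc.dist_triangle (u := P 0) (v := z) (w := x')
        have e3 : G.dist z x' = G.dist x' z := SimpleGraph.dist_comm
        omega
      · have e1 := hc.dist_triangle (u := P 0) (v := P i) (w := z)
        have e2 := hc.dist_triangle (u := P 0) (v := z) (w := P i)
        have e3 : G.dist z (P i) = G.dist (P i) z := SimpleGraph.dist_comm
        omega
    have hcut : Cuts G {x2} κ w' y' := by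
      intro α
      obtain ⟨q1, hq1⟩ := exists_geo_walk hc x' w'
      obtain ⟨q2, hq2⟩ := exists_geo_walk hc y' (P i)
      obtain ⟨q3, hq3⟩ := exists_geo_walk hc (P i) y
      obtain ⟨z, hz, hzx⟩ := cut_meets hc hG hκ hx2 (q1.append (α.append (q2.append q3)))
        ⟨y, by simp, y, hy.1, by simp⟩
      rw [Walk.mem_support_append_iff, Walk.mem_support_append_iff, Walk.mem_support_append_iff] at hz
      rcases hz with hz | hz | hz | hz
      · exfalso
        have e1 := hq1 z hz
        obtain ⟨e2, e3⟩ := hnear z (Or.inl (by omega))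
        exact hbad z (by omega) e2 e3
      · exact ⟨z, hz, x2, rfl, hzx⟩
      · exfalso
        have e1 := hq2 z hz
        have e1' : G.dist y' (P i) = G.dist (P i) y' := SimpleGraph.dist_comm
        have e1'' : G.dist z (P i) = G.dist (P i) z := SimpleGraph.dist_comm
        obtain ⟨e2, e3⟩ := hnear z (Or.inr (by omega))
        exact hbad z (by omega) e2 e3
      · exfalso
        have e1 := hq3 z hz
        obtain ⟨e2, e3⟩ := hnear z (Or.inr (by omega))
        exact hbad z (by omega) e2 e3
    rcases hR'.iso.pinch hc hw'.1 hy'.1 hcut with h1 | h1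
    · obtain ⟨e2, e3⟩ := hnear w' (Or.inl (by omega))
      exact hbad w' h1 e2 e3
    · obtain ⟨e2, e3⟩ := hnear y' (Or.inr (by omega))
      exact hbad y' h1 e2 e3
  · -- all three points are on the ring, two of them on the same side
    have v1 := hc.dist_triangle (u := P 0) (v := x') (w := x2)
    have v2 := hc.dist_triangle (u := P 0) (v := x2) (w := x')
    have v2' : G.dist x2 x' = G.dist x' x2 := SimpleGraph.dist_comm
    have v3 := gate_ineq hc hG hκ hR.near0 hx2.1
    have v4 := hc.dist_triangle (u := P 0) (v := p) (w := x2)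
    rcases hR.iso.three_points hR.near0.1 hy.1 hw.1 hx2.1 with h1 | h1 | h1
    · have e1 := hc.dist_triangle (u := x) (v := w) (w := P i)
      have e2 := hc.dist_triangle (u := w) (v := y) (w := P i)
      have e3 : G.dist w y = G.dist y w := SimpleGraph.dist_comm
      unfold SameSide at h1
      omega
    · have e1 := hc.dist_triangle (u := x') (v := x2) (w := P i)
      have e2 := hc.dist_triangle (u := x2) (v := y) (w := P i)
      have e3 : G.dist x2 y = G.dist y x2 := SimpleGraph.dist_comm
      unfold SameSide at h1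
      omega
    · have e1 := hc.dist_triangle (u := x) (v := w) (w := x')
      have e2 := hc.dist_triangle (u := w) (v := x2) (w := x')
      unfold SameSide at h1
      omega

/-- (J2) -/
theorem J2_holds (hc : G.Connected) {D : ℕ} {P : ℕ → V} (hP : Diam G D P)
    {k ρ s κ h0 δ0 δ δ2 K N R2 T H : ℕ} {r : ℕ → ℕ} (C : Consts G k ρ s κ h0 δ0 δ δ2 K N R2 T r)
    (hD3 : D3 G T H) {Λ S : ℕ} (hΛ : 2 * T + H + 2 * h0 + 2 * κ + 2 ≤ Λ)
    (hS : Λ + 2 * δ + 6 * κ ≤ S) : J2 G S D P := by
  have hκ := C.hκ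
  intro i hi x z hx hz ⟨w, hw⟩
  have hlev : ∀ m, m ≤ D → G.dist (P 0) (P m) = m := by
    intro m hm
    have := hP.geo 0 m (by omega) hm
    omega
  -- down along `P`
  have hdown : ∀ m, m ≤ D → i ≤ m → ∃ q : G.Walk (P m) (P i), ∀ y ∈ q.support, i ≤ G.dist (P 0) y := by
    intro m hm him
    obtain ⟨q, hq⟩ := geo_walk hP.geo him hm
    refine ⟨q.reverse, fun y hy => ?_⟩
    obtain ⟨m', h1, h2, rfl⟩ := hq y (by simpa using hy)
    rw [hlev m' (by omega)]
    exact h1
  suffices h : ∃ q : G.Walk z (P i), ∀ y ∈ q.support, i ≤ G.dist (P 0) y by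
    obtain ⟨q, hq⟩ := h
    refine ⟨w.append q, fun y hy => ?_⟩
    rw [Walk.mem_support_append_iff] at hy
    rcases hy with hy | hy
    · exact hw y hy
    · exact hq y hy
  have hPD := hlev D le_rfl
  rcases structure_thm hc hP C hD3 hΛ z with ⟨m, hm, hzm⟩ | ⟨n, c, p, p', hR, u, hu, hzu⟩
  · have e0 := hlev m hm
    have e1 := hc.dist_triangle (u := P 0) (v := P m) (w := z)
    have e1' : G.dist (P m) z = G.dist z (P m) := SimpleGraph.dist_comm
    obtain ⟨q, hq⟩ := hdown m hm (by omega)
    obtain ⟨q1, hq1⟩ := exists_geo_walk hc z (P m)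
    refine ⟨q1.append q, fun y hy => ?_⟩
    rw [Walk.mem_support_append_iff] at hy
    rcases hy with hy | hy
    · have e2 := hq1 y hy
      have e3 := hc.dist_triangle (u := P 0) (v := y) (w := z)
      have e3' : G.dist y z = G.dist z y := SimpleGraph.dist_comm
      omega
    · exact hq y hy
  · have hG := C.fa n c hR.iso
    obtain ⟨m, hm, hm1, hm2, hm3⟩ := hR.near_hi hc hP C.fa hκ
    have e0 := hlev m hm
    have e1 := hc.dist_triangle (u := P 0) (v := u) (w := z)
    have e1' : G.dist u z = G.dist z u := SimpleGraph.dist_comm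
    have e2 := hc.dist_triangle (u := P 0) (v := p) (w := u)
    have e3 := hR.iso.two_mul_dist hR.near0.1 hu.1
    have e4 := hR.bal
    have g1 := gate_ineq hc hG hκ hR.near0 hR.nearD.1
    have e5 := hc.dist_triangle (u := P 0) (v := P m) (w := p')
    obtain ⟨q1, hq1⟩ := exists_geo_walk hc z u
    obtain ⟨q2, hq2⟩ := hR.iso.arc_away hR.near0.1 hu.1 hR.nearD.1
    obtain ⟨q3, hq3⟩ := exists_geo_walk hc p' (P m)
    obtain ⟨q4, hq4⟩ := hdown m hm (by omega)
    refine ⟨q1.append (q2.append (q3.append q4)), fun y hy => ?_⟩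
    rw [Walk.mem_support_append_iff, Walk.mem_support_append_iff, Walk.mem_support_append_iff] at hy
    rcases hy with hy | hy | hy | hy
    · have f2 := hq1 y hy
      have f3 := hc.dist_triangle (u := P 0) (v := y) (w := z)
      have f3' : G.dist y z = G.dist z y := SimpleGraph.dist_comm
      omega
    · obtain ⟨f1, f2⟩ := hq2 y hy
      have g2 := gate_ineq hc hG hκ hR.near0 f1
      omega
    · have f2 := hq3 y hy
      have f3 := hc.dist_triangle (u := P 0) (v := y) (w := p')
      have f3' : G.dist y p' = G.dist p' y := SimpleGraph.dist_comm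
      have f4 : G.dist p' (P m) = G.dist (P m) p' := SimpleGraph.dist_comm
      omega
    · exact hq4 y hy

end

end Pool.RBE
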