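import Pool.Agent.RBE.RM

set_option autoImplicit false

/-! [RBE-RS] the slack lemma. -/

namespace Pool.RBE

open SimpleGraph Pool.Agent.RBC

open Classical in
/-- [RBE-RS] (SL) the slack lemma.
Proof. `ρ0` from `exists_rho`, `I` from `exists_I k ρ0 R`, `a = 4k+1`, `h_i = R+1+i a` (`i ≤ I`), `c = h_I + 2`,
`C = k c (6c+1)`. Let `G, D, q` be given, `(h, π)` the forest over `D`. So `nbh G D R = {v | h v ≤ R}`.
`U` = the set of minimal bridge vertices of height `≤ R+1`: `u ∈ U` iff `BV G h π c u`, `h u ≤ R+1` and there is no `w ≠ u` with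
`BV w`, `Desc w u`. Every `BV` vertex `w` of height `≤ R+1` is a descendant of some `u ∈ U` (take the lowest `BV` ancestor);
for `u ≠ u' ∈ U` no vertex is a descendant of both (they would be comparable).
(1) for `u ∈ U` there is `i = i(u) ≤ I` with `k b_i ≤ ν_i`, where `b_i = |{w | BV w ∧ Desc u w ∧ h w ≤ h_i}|`,
`ν_i = |{v | Desc u v ∧ R+1 ≤ h v < h_i}|`. Otherwise `ν_i < k b_i` for all `i ≤ I`; `bridge_count` with
`A = {w | BV w ∧ Desc u w ∧ h w ≤ h_i}`, `t = h_i`, `h_i < j < c`: `b_i ≤ 2 |{v | h v = j ∧ Desc u v}|` (descendants of members of `A`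
are descendants of `u`); summing over `j = h_i+1, …, h_i+a-1`: `2 ν_{i+1} ≥ (a-1) b_i = 4 k b_i`; so
`k b_{i+1} > ν_{i+1} ≥ 2 k b_i`, `b_{i+1} ≥ 2 b_i`; `b_0 ≥ 1` (`u` itself), so `b_I ≥ 2^I`. But the members of the set of `b_I` are in
`ball G u (h_I)` (`desc_dist`), so `b_I < MM k (h_I) ≤ 2^I` by `ball_bound` (`h_I ≥ ρ0`) and `exists_I`: contradiction.
(2) `T = {v | h v ≤ R+1} ∪ {v | ∃ u ∈ U, Desc u v ∧ h v ≤ h_{i(u)}}`, closed under `π` (if `v ≠ u`, `desc_parent`; if `v = u`,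
`h (π u) ≤ R+1`), heights `≤ h_I ≤ c`. The `BV` vertices of `T` are all in `⋃_{u ∈ U} {w | BV w ∧ Desc u w ∧ h w ≤ h_{i(u)}}` (disjoint
union), so their number is `B := Σ_{u ∈ U} b_{i(u)}`. `closure` (with `H = h_I`) gives `K ⊇ T` with `Rb G K (q + B + h_I (6c+1))`.
(3) `intr G K ⊇ {v | h v ≤ R} ∪ ⋃_{u ∈ U} {v | Desc u v ∧ R+1 ≤ h v < h_{i(u)}}` (disjoint union): first set: neighbours have
height `≤ R+1`. Second: let `w` be a neighbour of `v`; `h w ≤ h_{i(u)} ≤ c`; if `Desc u w` then `w ∈ T`; otherwise `BV u` gives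
`w = π u`, of height `≤ R`, in `T`. So `|intr G K| ≥ |nbh G D R| + Σ ν_{i(u)} ≥ |nbh G D R| + k B`, and it is nonempty (`D`).
`hI` gives `|nbh G D R| + k B < k (q + B + h_I (6c+1)) ≤ k q + k B + C`. -/
theorem slack (k : ℕ) (hk : 3 ≤ k) (R : ℕ) :
    ∃ C : ℕ, ∀ (V : Type) [Fintype V] (G : SimpleGraph V), KConn G k → Irr G k →
      ∀ (D : Set V) (q : ℕ), D.Nonempty → Rb G D q → (nbh G D R).card < k * q + C := by
  obtain ⟨ρ0, hρ0p, hρ0⟩ := exists_rho k hk
  obtain ⟨I, hI1, hIρ, hI2⟩ := exists_I k ρ0 R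
  set hh : ℕ → ℕ := fun i => R + 1 + i * (4 * k + 1) with hhh
  have hhI : hh I = R + 1 + I * (4 * k + 1) := rfl
  rw [← hhI] at hIρ hI2
  have hhmono : ∀ i j, i ≤ j → hh i ≤ hh j := fun i j hij =>
    Nat.add_le_add_left (Nat.mul_le_mul_right _ hij) _
  have hhge : ∀ i, R + 1 ≤ hh i := fun i => Nat.le_add_right _ _
  have hhs : ∀ i, hh (i + 1) = hh i + (4 * k + 1) := fun i => by
    simp only [hhh]; ring
  set c : ℕ := hh I + 2 with hcdef
  refine ⟨k * (c * (6 * c + 1)), ?_⟩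
  intro V _ G hG hIrr D q hD hRb
  have hc : G.Connected := kconn_connected hG (by omega)
  have hG3 : KConn G 3 := ⟨lt_of_le_of_lt hk hG.1, fun S hS => hG.2 S (lt_of_lt_of_le hS hk)⟩
  obtain ⟨h, π, F, hmin⟩ := exists_forest hc hD
  -- minimal bridge vertices of height at most `R + 1`
  set U : Finset V := Finset.univ.filter (fun u => BV G h π c u ∧ h u ≤ R + 1 ∧
    ∀ w, BV G h π c w → Desc h π w u → w = u) with hU
  have hUmem : ∀ u, u ∈ U ↔ (BV G h π c u ∧ h u ≤ R + 1 ∧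
      ∀ w, BV G h π c w → Desc h π w u → w = u) := fun u => by
    rw [hU, Finset.mem_filter]; exact ⟨fun hx => hx.2, fun hx => ⟨Finset.mem_univ _, hx⟩⟩
  have hU1 : ∀ w, BV G h π c w → h w ≤ R + 1 → ∃ u ∈ U, Desc h π u w := by
    intro w hw hwR
    have hne : (Finset.univ.filter (fun x => BV G h π c x ∧ Desc h π x w)).Nonempty :=
      ⟨w, Finset.mem_filter.2 ⟨Finset.mem_univ _, hw, desc_refl h π w⟩⟩
    obtain ⟨u, hu, humin⟩ := Finset.exists_min_image _ h hne
    obtain ⟨-, hu1, hu2⟩ := Finset.mem_filter.1 hu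
    refine ⟨u, (hUmem u).2 ⟨hu1, hu2.1.trans hwR, fun w' hw' hd => ?_⟩, hu2⟩
    have h1 := humin w' (Finset.mem_filter.2 ⟨Finset.mem_univ _, hw', desc_trans hd hu2⟩)
    have h2 : h u - h w' = 0 := by omega
    have h3 := hd.2
    rw [h2] at h3
    exact h3.symm
  have hU2 : ∀ u ∈ U, ∀ u' ∈ U, u ≠ u' → ∀ v, Desc h π u v → ¬ Desc h π u' v := by
    intro u hu u' hu' hne v h1 h2
    rcases desc_comparable F h1 h2 with h3 | h3
    · exact hne (((hUmem u').1 hu').2.2 u ((hUmem u).1 hu).1 h3)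
    · exact hne (((hUmem u).1 hu).2.2 u' ((hUmem u').1 hu').1 h3).symm
  set Bs : V → ℕ → Finset V := fun u i => Finset.univ.filter (fun w => BV G h π c w ∧
    Desc h π u w ∧ h w ≤ hh i) with hBs
  set Ns : V → ℕ → Finset V := fun u i => Finset.univ.filter (fun v => Desc h π u v ∧
    R + 1 ≤ h v ∧ h v < hh i) with hNs
  have hBmem : ∀ u i w, w ∈ Bs u i ↔ (BV G h π c w ∧ Desc h π u w ∧ h w ≤ hh i) :=
    fun u i w => by
      rw [hBs]
      exact ⟨fun hx => (Finset.mem_filter.1 hx).2,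
        fun hx => Finset.mem_filter.2 ⟨Finset.mem_univ _, hx⟩⟩
  have hNmem : ∀ u i v, v ∈ Ns u i ↔ (Desc h π u v ∧ R + 1 ≤ h v ∧ h v < hh i) :=
    fun u i v => by
      rw [hNs]
      exact ⟨fun hx => (Finset.mem_filter.1 hx).2,
        fun hx => Finset.mem_filter.2 ⟨Finset.mem_univ _, hx⟩⟩
  -- step (1)
  have h1 : ∀ u ∈ U, ∃ i, i ≤ I ∧ k * (Bs u i).card ≤ (Ns u i).card := by
    intro u hu
    by_contra hno
    push Not at hno
    have hstep : ∀ i, i < I → 2 * (Bs u i).card ≤ (Bs u (i + 1)).card := by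
      intro i hi
      have hcount : (4 * k) * (Bs u i).card ≤ 2 * (Ns u (i + 1)).card := by
        set S : Finset V := Finset.univ.filter (fun v => Desc h π u v ∧ hh i < h v ∧
          h v < hh (i + 1)) with hS
        have hSN : S ⊆ Ns u (i + 1) := by
          intro v hv
          obtain ⟨-, hv1, hv2, hv3⟩ := Finset.mem_filter.1 hv
          exact (hNmem _ _ _).2 ⟨hv1, (hhge i).trans hv2.le, hv3⟩
        have hmap : ∀ v ∈ S, h v ∈ Finset.Ioo (hh i) (hh (i + 1)) := by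
          intro v hv
          obtain ⟨-, hv1, hv2, hv3⟩ := Finset.mem_filter.1 hv
          exact Finset.mem_Ioo.2 ⟨hv2, hv3⟩
        have hfib := Finset.card_eq_sum_card_fiberwise hmap
        have hj : ∀ j ∈ Finset.Ioo (hh i) (hh (i + 1)),
            (Bs u i).card ≤ 2 * (S.filter (fun v => h v = j)).card := by
          intro j hj
          obtain ⟨hj1, hj2⟩ := Finset.mem_Ioo.1 hj
          have hjc : j < c := by
            have := hhmono (i + 1) I hi
            omega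
          have hA : Bs u i ⊆ BVs G h π c (hh i) := by
            intro w hw
            obtain ⟨hw1, hw2, hw3⟩ := (hBmem _ _ _).1 hw
            exact Finset.mem_filter.2 ⟨Finset.mem_univ _, hw1, hw3⟩
          refine (bridge_count hG3 F hj1 hjc (Bs u i) hA).trans ?_
          refine Nat.mul_le_mul_left _ (Finset.card_le_card fun v hv => ?_)
          obtain ⟨-, hv1, w, hw, hwv⟩ := Finset.mem_filter.1 hv
          obtain ⟨hw1, hw2, hw3⟩ := (hBmem _ _ _).1 hw
          refine Finset.mem_filter.2 ⟨Finset.mem_filter.2 ⟨Finset.mem_univ _,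
            desc_trans hw2 hwv, ?_, ?_⟩, hv1⟩
          · rw [hv1]; exact hj1
          · rw [hv1]; exact hj2
        have hsum : ∑ _j ∈ Finset.Ioo (hh i) (hh (i + 1)), (Bs u i).card ≤ 2 * S.card := by
          rw [hfib, Finset.mul_sum]
          exact Finset.sum_le_sum hj
        rw [Finset.sum_const, Nat.card_Ioo, hhs i, smul_eq_mul] at hsum
        have e1 : hh i + (4 * k + 1) - hh i - 1 = 4 * k := by omega
        rw [e1] at hsum
        exact hsum.trans (Nat.mul_le_mul_left _ (Finset.card_le_card hSN))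
      have h2 := hno (i + 1) hi
      have h3 : (2 * k) * (2 * (Bs u i).card) < (2 * k) * (Bs u (i + 1)).card := by nlinarith
      exact (lt_of_mul_lt_mul_left h3 (Nat.zero_le _)).le
    have hpow : ∀ i, i ≤ I → 2 ^ i ≤ (Bs u i).card := by
      intro i
      induction i with
      | zero =>
        intro _
        rw [pow_zero]
        refine Finset.card_pos.2 ⟨u, (hBmem _ _ _).2 ⟨((hUmem u).1 hu).1, desc_refl h π u, ?_⟩⟩
        exact ((hUmem u).1 hu).2.1.trans (hhge 0)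
      | succ i ih =>
        intro hi
        have h2 := ih (by omega)
        have h3 := hstep i hi
        rw [pow_succ]
        omega
    have hball : Bs u I ⊆ ball G u (hh I) := by
      intro w hw
      obtain ⟨hw1, hw2, hw3⟩ := (hBmem _ _ _).1 hw
      refine Finset.mem_filter.2 ⟨Finset.mem_univ _, ?_⟩
      rw [SimpleGraph.dist_comm]
      exact (desc_dist hc F hw2).trans (by omega)
    have h2 := ball_bound hk hG hIrr (ρ := hh I) (lt_of_lt_of_le (Nat.succ_pos R) (hhge I))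
      (hρ0 _ hIρ) u
    have h3 := Finset.card_le_card hball
    have h4 := hpow I le_rfl
    omega
  choose! iu hiu1 hiu2 using h1
  -- step (2)
  set T : Finset V := Finset.univ.filter (fun v => h v ≤ R + 1 ∨ ∃ u ∈ U, Desc h π u v ∧
    h v ≤ hh (iu u)) with hTdef
  have hTmem : ∀ v, v ∈ T ↔ (h v ≤ R + 1 ∨ ∃ u ∈ U, Desc h π u v ∧ h v ≤ hh (iu u)) :=
    fun v => by
      rw [hTdef]
      exact ⟨fun hx => (Finset.mem_filter.1 hx).2,
        fun hx => Finset.mem_filter.2 ⟨Finset.mem_univ _, hx⟩⟩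
  have hT : ∀ v ∈ T, 0 < h v → π v ∈ T ∨ π v ∈ D := by
    intro v hv hv0
    left
    have hs := (F.step v hv0).2
    rcases (hTmem v).1 hv with h2 | ⟨u, hu, h2, h3⟩
    · exact (hTmem _).2 (Or.inl (by omega))
    · by_cases hvu : v = u
      · have h4 := ((hUmem u).1 hu).2.1
        rw [← hvu] at h4
        exact (hTmem _).2 (Or.inl (by omega))
      · exact (hTmem _).2 (Or.inr ⟨u, hu, desc_parent F h2 hvu, by omega⟩)
  have hTH : ∀ v ∈ T, h v ≤ hh I := by
    intro v hv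
    rcases (hTmem v).1 hv with h2 | ⟨u, hu, h2, h3⟩
    · exact h2.trans (hhge I)
    · exact h3.trans (hhmono _ _ (hiu1 u hu))
  obtain ⟨K, hDK, hTK, hKc, hKRb⟩ := closure hc hD F (c := c) (by omega) hRb T hT (hh I)
    (by omega) hTH
  have hB : (T.filter (fun u => BV G h π c u)).card ≤ ∑ u ∈ U, (Bs u (iu u)).card := by
    refine le_trans (Finset.card_le_card ?_) Finset.card_biUnion_le
    intro w hw
    obtain ⟨hw1, hw2⟩ := Finset.mem_filter.1 hw
    rw [Finset.mem_biUnion]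
    rcases (hTmem w).1 hw1 with h2 | ⟨u, hu, h2, h3⟩
    · obtain ⟨u, hu, hd⟩ := hU1 w hw2 h2
      exact ⟨u, hu, (hBmem _ _ _).2 ⟨hw2, hd, h2.trans (hhge _)⟩⟩
    · exact ⟨u, hu, (hBmem _ _ _).2 ⟨hw2, h2, h3⟩⟩
  -- step (3)
  set S0 : Finset V := Finset.univ.filter (fun v => h v ≤ R) with hS0
  have hS0mem : ∀ v, v ∈ S0 ↔ h v ≤ R := fun v => by
    rw [hS0]
    exact ⟨fun hx => (Finset.mem_filter.1 hx).2,
      fun hx => Finset.mem_filter.2 ⟨Finset.mem_univ _, hx⟩⟩
  have hKT : ∀ v, v ∈ T → v ∈ K := fun v hv => hTK (Finset.mem_coe.2 hv)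
  have hS0K : S0 ⊆ intr G K := by
    intro v hv
    have hv1 := (hS0mem v).1 hv
    refine Finset.mem_filter.2 ⟨Finset.mem_univ _, hKT v ((hTmem v).2 (Or.inl (by omega))),
      fun w hw => hKT w ((hTmem w).2 (Or.inl ?_))⟩
    have := F.lip w v hw.symm
    omega
  have hNK : U.biUnion (fun u => Ns u (iu u)) ⊆ intr G K := by
    intro v hv
    obtain ⟨u, hu, hvN⟩ := Finset.mem_biUnion.1 hv
    obtain ⟨hd, hv1, hv2⟩ := (hNmem _ _ _).1 hvN
    refine Finset.mem_filter.2 ⟨Finset.mem_univ _, hKT v ((hTmem v).2 (Or.inr ⟨u, hu, hd,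
      hv2.le⟩)), fun w hw => hKT w ?_⟩
    have hlip := F.lip w v hw.symm
    have hI3 := hhmono _ _ (hiu1 u hu)
    by_cases hdw : Desc h π u w
    · exact (hTmem w).2 (Or.inr ⟨u, hu, hdw, by omega⟩)
    · obtain ⟨hBV, huR, -⟩ := (hUmem u).1 hu
      obtain ⟨-, hwπ⟩ := hBV.2.2 v w hw (by omega) (by omega) hd hdw
      have hs := (F.step u hBV.1).2
      rw [← hwπ] at hs
      exact (hTmem w).2 (Or.inl (by omega))
  have hdisj : Disjoint S0 (U.biUnion (fun u => Ns u (iu u))) := by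
    rw [Finset.disjoint_left]
    intro v hv hv'
    obtain ⟨u, hu, hvN⟩ := Finset.mem_biUnion.1 hv'
    have h2 := (hS0mem v).1 hv
    have h3 := ((hNmem _ _ _).1 hvN).2.1
    omega
  have hcardN : (U.biUnion (fun u => Ns u (iu u))).card = ∑ u ∈ U, (Ns u (iu u)).card := by
    refine Finset.card_biUnion fun u hu u' hu' hne => ?_
    show Disjoint (Ns u (iu u)) (Ns u' (iu u'))
    rw [Finset.disjoint_left]
    intro v hv hv'
    exact hU2 u (Finset.mem_coe.1 hu) u' (Finset.mem_coe.1 hu') hne v ((hNmem _ _ _).1 hv).1 ((hNmem _ _ _).1 hv').1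
  have hintr : S0.card + k * ∑ u ∈ U, (Bs u (iu u)).card ≤ (intr G K).card := by
    have h2 := Finset.card_le_card (Finset.union_subset hS0K hNK)
    rw [Finset.card_union_of_disjoint hdisj, hcardN] at h2
    refine le_trans (Nat.add_le_add_left ?_ _) h2
    rw [Finset.mul_sum]
    exact Finset.sum_le_sum fun u hu => hiu2 u hu
  have hne : (intr G K).Nonempty := by
    obtain ⟨d, hd⟩ := hD
    refine ⟨d, hS0K ((hS0mem d).2 ?_)⟩
    rw [(F.zero d).2 hd]
    exact Nat.zero_le _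
  have hfin := hIrr K _ hKRb hne
  have hnb : (nbh G D R).card ≤ S0.card := by
    refine Finset.card_le_card fun v hv => ?_
    obtain ⟨-, u, hu, hvu⟩ := Finset.mem_filter.1 hv
    exact (hS0mem v).2 ((hmin v u hu).trans hvu)
  have e1 : k * (q + (T.filter (fun u => BV G h π c u)).card + hh I * (6 * c + 1)) ≤
      k * q + k * ∑ u ∈ U, (Bs u (iu u)).card + k * (c * (6 * c + 1)) := by
    rw [Nat.mul_add, Nat.mul_add]
    have h2 : hh I * (6 * c + 1) ≤ c * (6 * c + 1) := Nat.mul_le_mul_right _ (by omega)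
    have h3 := Nat.mul_le_mul_left k h2
    have h4 := Nat.mul_le_mul_left k hB
    omega
  omega

end Pool.RBE
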