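import Pool.Agent.RBE.JF
import Pool.Agent.RBE.RS

set_option autoImplicit false

/-! [RBE-JG] Section 3: (J1) and (J2) with constants depending on `k` only, from FACT A, FACT L and (D3). -/

namespace Pool.RBE

open SimpleGraph Pool.Agent.RBC

theorem section3 {k : ℕ} (hk : 3 ≤ k) {ρ s h0 δ0 : ℕ}
    (hFA : ∀ (V : Type) [Fintype V] (G : SimpleGraph V), KConn G k → Irr G k → FA G ρ s)
    (hFL : ∀ (V : Type) [Fintype V] (G : SimpleGraph V), KConn G k → Irr G k → FL G ρ h0 δ0)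
    (hD3 : ∀ T : ℕ, ∃ H : ℕ, ∀ (V : Type) [Fintype V] (G : SimpleGraph V), KConn G k → Irr G k → D3 G T H) :
    ∃ L S : ℕ, ∀ (V : Type) [Fintype V] (G : SimpleGraph V), KConn G k → Irr G k →
      ∀ (D : ℕ) (P : ℕ → V), Diam G D P → J1 G L D P ∧ J2 G S D P := by
  obtain ⟨κ, hκ⟩ : ∃ κ, κ = ρ + 1 + s := ⟨_, rfl⟩
  obtain ⟨δ, hδ⟩ : ∃ δ, δ = δ0 + h0 + 2 * κ + 1 := ⟨_, rfl⟩
  obtain ⟨δ2, hδ2⟩ : ∃ δ2, δ2 = κ + δ0 + δ := ⟨_, rfl⟩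
  obtain ⟨K, hK⟩ : ∃ K, K = 8 * κ + 2 * δ2 + 1 := ⟨_, rfl⟩
  obtain ⟨r, hr⟩ : ∃ r : ℕ → ℕ, r = fun t => 8 ^ t * K := ⟨_, rfl⟩
  obtain ⟨N, hN⟩ := slack k hk (r (k + 1))
  obtain ⟨T, hT⟩ : ∃ T, T = 4 * r k + (N + 1) + 3 * δ2 + 17 * κ + 1 := ⟨_, rfl⟩
  obtain ⟨H, hH⟩ := hD3 T
  obtain ⟨Λ, hΛ⟩ : ∃ Λ, Λ = 2 * T + H + 2 * h0 + 2 * κ + 2 := ⟨_, rfl⟩
  obtain ⟨K1, hK1⟩ : ∃ K1, K1 = Λ + δ2 + 20 * κ + 1 := ⟨_, rfl⟩
  refine ⟨2 * (2 * Λ + K1 + 2 * δ + 10 * κ) + 4 * h0 + 4, Λ + 2 * δ + 6 * κ, ?_⟩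
  intro V _ G hG hI D P hP
  have hc : G.Connected := kconn_connected hG (by omega)
  have C : Consts G k ρ s κ h0 δ0 δ δ2 K (N + 1) (r k) T r := by
    refine ⟨hG, by omega, hFA V G hG hI, hFL V G hG hI, by omega, by omega, by omega, by omega, ?_, ?_, by omega,
      ?_, le_rfl, by omega⟩
    · intro t
      rw [hr]
      exact Nat.le_mul_of_pos_left _ (by positivity)
    · intro t
      rw [hr]
      show 8 * (8 ^ t * K) ≤ 8 ^ (t + 1) * K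
      rw [pow_succ]
      nlinarith
    · intro A q hA hq
      have := hN V G hG hI A q hA hq
      omega
  exact ⟨J1_holds hc hP C (hH V G hG hI) (Λ := Λ) (K1 := K1) (by omega) (by omega) (by omega),
    J2_holds hc hP C (hH V G hG hI) (Λ := Λ) (by omega) (by omega)⟩

end Pool.RBE
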