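import Pool.Agent.RBE.RC

set_option autoImplicit false

/-! [RBE-LA] one round of the closure with a constant exit scale. -/

namespace Pool.RBE

open SimpleGraph Pool.Agent.RBC

/-- A walk inside `K` from a descendant of a bridge vertex `w` to a non-descendant passes `w`. -/
private theorem la_walk {V : Type} {G : SimpleGraph V} {h : V → ℕ} {π : V → V} {c : ℕ}
    {K : Set V} (hKc : ∀ v ∈ K, h v ≤ c) {w : V} (hbv : BV G h π c w) :
    ∀ {x d : V} (p : G.Walk x d), (∀ y ∈ p.support, y ∈ K) → Desc h π w x → ¬ Desc h π w d →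
      w ∈ K := by
  intro x d p
  induction p with
  | nil => intro _ h1 h2; exact absurd h1 h2
  | @cons a b e hab p ih =>
    intro hs h1 h2
    have ha : a ∈ K := hs a (by simp)
    have hb : b ∈ K := hs b (by simp)
    by_cases hd : Desc h π w b
    · exact ih (fun y hy => hs y (by simp [hy])) hd h2
    · have h3 := hbv.2.2 a b hab (hKc a ha) (hKc b hb) h1 hd
      rw [← h3.1]
      exact ha

private theorem la_meet {V : Type} {G : SimpleGraph V} {D : Set V}
    (hne : D.Nonempty) {h : V → ℕ} {π : V → V} (F : Forest G D h π) {c : ℕ}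
    {K : Set V} {q : ℕ} (hK : Rb G K q) (hDK : D ⊆ K) (hKc : ∀ v ∈ K, h v ≤ c)
    {w : V} (hbv : BV G h π c w) {x : V} (hx : x ∈ K) (hd : Desc h π w x) : w ∈ K := by
  obtain ⟨d, hdD⟩ := hne
  obtain ⟨col, hcol⟩ := hK
  obtain ⟨p, hp, _⟩ := hcol x hx d (hDK hdD)
  refine la_walk hKc hbv p hp hd ?_
  intro h1
  have h2 := (F.zero d).2 hdD
  have h3 := h1.1
  have h4 := hbv.1
  omega

/-- Restriction of `Rb` to an induced subgraph. -/
private theorem la_restrict {V : Type} {G : SimpleGraph V} {J K : Set V} (hKJ : K ⊆ J) {q : ℕ}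
    (hK : Rb G K q) : Rb (G.induce J) {x : J | x.1 ∈ K} q := by
  obtain ⟨col, hcol⟩ := hK
  refine ⟨fun e => col (e.map Subtype.val), ?_⟩
  rintro ⟨u, huJ⟩ hu ⟨v, hvJ⟩ hv
  obtain ⟨p, hp, hnd, hlt⟩ := hcol u hu v hv
  have hpJ : ∀ y ∈ p.support, y ∈ J := fun y hy => hKJ (hp y hy)
  have hed : (p.induce J hpJ).edges.map (Sym2.map Subtype.val) = p.edges := by
    have h1 := Walk.map_induce p hpJ
    have h2 := congrArg Walk.edges h1
    rw [Walk.edges_map] at h2
    exact h2
  refine ⟨p.induce J hpJ, ?_, ?_, ?_⟩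
  · intro y hy
    rw [Walk.support_induce] at hy
    have h1 : (y : V) ∈ p.support := (List.mem_attachWith _ _).1 hy
    exact hp _ h1
  · have h1 : (p.induce J hpJ).edges.map (fun e => col (e.map Subtype.val)) = p.edges.map col := by
      rw [← hed, List.map_map]
      rfl
    rw [h1]
    exact hnd
  · intro e he
    apply hlt
    rw [← hed]
    exact List.mem_map_of_mem he

/-- one round of the closure, `K` contains all heights `≤ s`: the cost is `6 (c - s) + 1` -/
theorem close_stage_s {V : Type} [Fintype V] {G : SimpleGraph V} (hc : G.Connected) {D : Set V}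
    (hne : D.Nonempty) {h : V → ℕ} {π : V → V} (F : Forest G D h π) {c s : ℕ} (hc0 : s < c)
    {K : Set V} {q : ℕ} (hsK : ∀ v, h v ≤ s → v ∈ K) (hK : Rb G K q) (hDK : D ⊆ K) (hKc : ∀ v ∈ K, h v ≤ c) :
    ∃ K' : Set V, K ⊆ K' ∧ (∀ v ∈ K', h v ≤ c) ∧ Rb G K' (q + (6 * (c - s) + 1)) ∧
      ∀ u, h u ≤ c → 0 < h u → π u ∈ K → ¬ BV G h π c u → u ∈ K' := by
  classical
  set J : Set V := {v | h v ≤ c ∧ ∀ w, BV G h π c w → Desc h π w v → w ∈ K} with hJ
  have hKJ : K ⊆ J := fun v hv =>
    ⟨hKc v hv, fun w hw hd => la_meet hne F hK hDK hKc hw hv hd⟩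
  have hJc : ∀ v ∈ J, h v ≤ c := fun v hv => hv.1
  -- `J` is closed under ancestors
  have hanc : ∀ x a, Desc h π x a → a ∈ J → x ∈ J := by
    intro x a hxa ha
    exact ⟨hxa.1.trans ha.1, fun w hw hd => ha.2 w hw (desc_trans hd hxa)⟩
  have hpar : ∀ v, 0 < h v → v ∈ J → π v ∈ J := by
    intro v hv0 hv
    have h1 := F.step v hv0
    exact ⟨by have := hv.1; omega, fun w hw hd => hv.2 w hw (desc_of_parent F hv0 hd)⟩
  let _ : Fintype J := Fintype.ofFinite J
  -- walks down to `D` inside `J`
  have hdown : ∀ v : J, ∃ d : J, d.1 ∈ D ∧ ∃ p : (G.induce J).Walk v d, p.length ≤ h v.1 := by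
    rintro ⟨v, hv⟩
    obtain ⟨d, hdD, hdv⟩ := desc_root F v
    obtain ⟨p, hpl, hps⟩ := desc_walk F hdv
    have hpJ : ∀ x ∈ p.support, x ∈ J := fun x hx => hanc x v (hps x hx).2 hv
    refine ⟨⟨d, hKJ (hDK hdD)⟩, hdD, p.induce J hpJ, ?_⟩
    have h1 := congrArg Walk.length (Walk.map_induce p hpJ)
    rw [Walk.length_map] at h1
    have h3 : (p.induce J hpJ).length = p.length := h1
    have h4 := hpl
    show (p.induce J hpJ).length ≤ h v
    omega
  have hconn : (G.induce J).Connected := by
    obtain ⟨d0, hd0⟩ := hne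
    have : Nonempty J := ⟨⟨d0, hKJ (hDK hd0)⟩⟩
    refine ⟨?_⟩
    intro u v
    obtain ⟨d1, hd1, p1, _⟩ := hdown u
    obtain ⟨d2, hd2, p2, _⟩ := hdown v
    obtain ⟨col, hcol⟩ := hK
    obtain ⟨p, hp, _⟩ := hcol d1.1 (hDK hd1) d2.1 (hDK hd2)
    have hpJ : ∀ x ∈ p.support, x ∈ J := fun x hx => hKJ (hp x hx)
    exact ⟨(p1.append (p.induce J hpJ)).append p2.reverse⟩
  set K1 : Set J := {x : J | x.1 ∈ K} with hK1
  have hK1ne : K1.Nonempty := by
    obtain ⟨d0, hd0⟩ := hne
    exact ⟨⟨d0, hKJ (hDK hd0)⟩, hDK hd0⟩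
  obtain ⟨h', π', F', hdist⟩ := exists_forest hconn hK1ne
  have hh : ∀ v : J, h' v ≤ c - s := by
    rintro ⟨v, hv⟩
    rcases Nat.lt_or_ge s (h v) with hsv | hsv
    · obtain ⟨d0, _, hdv⟩ := desc_root F v
      have hd0 : h d0 ≤ s := by
        have := (F.zero d0).2 ‹d0 ∈ D›
        omega
      obtain ⟨x, hxs, _, hxv⟩ := desc_level F hdv hd0 hsv.le
      obtain ⟨p, hpl, hps⟩ := desc_walk F hxv
      have hpJ : ∀ y ∈ p.support, y ∈ J := fun y hy => hanc y v (hps y hy).2 hv
      have hxK : x ∈ K := hsK x (by omega)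
      have h1 := hdist ⟨v, hv⟩ ⟨x, hKJ hxK⟩ hxK
      have h2 := SimpleGraph.dist_le (p.induce J hpJ)
      have h3 := congrArg Walk.length (Walk.map_induce p hpJ)
      rw [Walk.length_map] at h3
      have h4 : (p.induce J hpJ).length = p.length := h3
      have h5 : h v ≤ c := hJc v hv
      have h6 : (G.induce J).dist ⟨v, hv⟩ ⟨x, hKJ hxK⟩ ≤ (p.induce J hpJ).length := h2
      omega
    · have h1 : h' ⟨v, hv⟩ = 0 := (F'.zero _).2 (hsK v hsv)
      omega
  have hpos : ∀ v : J, 0 < h' v → v.1 ∉ K := by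
    intro v hv hvK
    have h1 := (F'.zero v).2 hvK
    omega
  have hposh : ∀ v : J, 0 < h' v → 0 < h v.1 := by
    intro v hv
    by_contra hcon
    have h1 : v.1 ∈ D := (F.zero v.1).1 (by omega)
    exact hpos v hv (hDK h1)
  -- exits
  have hex : ∀ x : J, h' x = 1 → ∃ v w, (G.induce J).Adj v w ∧ 0 < h' v ∧ rt h' π' v = x ∧
      w ≠ π' x ∧ (0 < h' w → rt h' π' w ≠ x) := by
    intro x hx1
    by_contra hcon
    push Not at hcon
    -- (B1)
    have hB1 : ∀ a b : J, 0 < h' a → rt h' π' a = x → (G.induce J).Adj a b →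
        b = π' x ∨ (0 < h' b ∧ rt h' π' b = x) := by
      intro a b ha0 hax hab
      by_cases hb : b = π' x
      · exact Or.inl hb
      · exact Or.inr (hcon a b hab ha0 hax hb)
    have hstepx := F'.step x (by omega)
    have hp0 : h' (π' x) = 0 := by omega
    -- (B3)
    have hB3 : ∀ a : J, 0 < h' a → rt h' π' a = x → (G.induce J).Adj a (π' x) → a = x := by
      intro a ha0 hax hab
      have h1 := F'.lip a (π' x) hab
      have h2 : h' a = 1 := by omega
      unfold rt at hax
      rw [h2] at hax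
      exact hax
    have hxB : 0 < h' x ∧ rt h' π' x = x := by
      refine ⟨by omega, ?_⟩
      unfold rt
      rw [hx1]
      rfl
    have hpK : (π' x).1 ∈ K := (F'.zero (π' x)).1 hp0
    have hxK : x.1 ∉ K := hpos x hxB.1
    -- (2a)
    have h2a : ∀ n : ℕ, ∀ b : J, h b.1 ≤ n → 0 < h' b → rt h' π' b = x → Desc h π x.1 b.1 := by
      intro n
      induction n with
      | zero =>
        intro b hb hb0 hbx
        have := hposh b hb0
        omega
      | succ n ih =>
        intro b hb hb0 hbx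
        have hb1 := hposh b hb0
        have hst := F.step b.1 hb1
        set b' : J := ⟨π b.1, hpar b.1 hb1 b.2⟩ with hb'
        have hadj : (G.induce J).Adj b b' := hst.1
        rcases hB1 b b' hb0 hbx hadj with h1 | h1
        · have h2 := hB3 b hb0 hbx (h1 ▸ hadj)
          rw [h2]
          exact desc_refl h π x.1
        · have h2 := ih b' (by
            have : h b'.1 + 1 = h b.1 := hst.2
            omega) h1.1 h1.2
          exact desc_of_parent F hb1 h2
    have hx0 := hposh x hxB.1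
    have hxst := F.step x.1 hx0
    have hpix : π x.1 = (π' x).1 := by
      have hadj : (G.induce J).Adj x ⟨π x.1, hpar x.1 hx0 x.2⟩ := hxst.1
      rcases hB1 x _ hxB.1 hxB.2 hadj with h1 | h1
      · rw [← h1]
      · have h2 := h2a _ _ le_rfl h1.1 h1.2
        have h3 := h2.1
        have h4 : h (π x.1) + 1 = h x.1 := hxst.2
        exfalso
        simp only at h3
        omega
    -- (2b)
    have h2b : ∀ n : ℕ, ∀ a : J, h a.1 ≤ n → Desc h π x.1 a.1 →
        0 < h' a ∧ rt h' π' a = x := by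
      intro n
      induction n with
      | zero =>
        intro a ha hd
        have h1 := hd.1
        omega
      | succ n ih =>
        intro a ha hd
        by_cases hax : a.1 = x.1
        · have h1 : a = x := Subtype.ext hax
          rw [h1]
          exact hxB
        · have ha0 : 0 < h a.1 := by
            have := hd.1
            omega
          have hst := F.step a.1 ha0
          have hd' := desc_parent F hd hax
          set a' : J := ⟨π a.1, hpar a.1 ha0 a.2⟩ with ha'
          have h1 := ih a' (by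
            have : h a'.1 + 1 = h a.1 := hst.2
            omega) hd'
          have hadj : (G.induce J).Adj a' a := hst.1.symm
          rcases hB1 a' a h1.1 h1.2 hadj with h2 | h2
          · exfalso
            have h3 := hd.1
            have h4 : h (π x.1) + 1 = h x.1 := hxst.2
            rw [hpix, ← h2] at h4
            omega
          · exact h2
    -- (2c)
    have hBV : BV G h π c x.1 := by
      refine ⟨hx0, hJc x.1 x.2, ?_⟩
      intro a b hab hac hbc hda hdb
      by_cases haJ : a ∈ J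
      · by_cases hbJ : b ∈ J
        · have h1 := h2b _ ⟨a, haJ⟩ le_rfl hda
          have hadj : (G.induce J).Adj ⟨a, haJ⟩ ⟨b, hbJ⟩ := hab
          rcases hB1 _ _ h1.1 h1.2 hadj with h2 | h2
          · have h3 := hB3 ⟨a, haJ⟩ h1.1 h1.2 (h2 ▸ hadj)
            refine ⟨congrArg Subtype.val h3, ?_⟩
            rw [hpix, ← h2]
          · exact absurd (h2a _ ⟨b, hbJ⟩ le_rfl h2.1 h2.2) hdb
        · have h1 : ∃ w, BV G h π c w ∧ Desc h π w b ∧ w ∉ K := by
            by_contra hc1
            push Not at hc1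
            exact hbJ ⟨hbc, hc1⟩
          obtain ⟨w, hw, hwb, hwK⟩ := h1
          have hwa : ¬ Desc h π w a := fun hd => hwK (haJ.2 w hw hd)
          obtain ⟨e1, e2⟩ := hw.2.2 b a hab.symm hbc hac hwb hwa
          exfalso
          apply hdb
          rw [e2, ← e1] at hda
          refine desc_of_parent F ?_ hda
          rw [e1]
          exact hw.1
      · have h1 : ∃ w, BV G h π c w ∧ Desc h π w a ∧ w ∉ K := by
          by_contra hc1
          push Not at hc1
          exact haJ ⟨hac, hc1⟩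
        obtain ⟨w, hw, hwa, hwK⟩ := h1
        exfalso
        rcases desc_comparable F hda hwa with h2 | h2
        · have hwb : ¬ Desc h π w b := fun hd => hdb (desc_trans h2 hd)
          obtain ⟨e1, e2⟩ := hw.2.2 a b hab hac hbc hwa hwb
          have hwx : w ≠ x.1 := by
            rintro rfl
            exact hwK (x.2.2 _ hw (desc_refl h π _))
          apply hdb
          rw [e2]
          exact desc_parent F h2 hwx
        · exact hwK (x.2.2 w hw h2)
    exact hxK (x.2.2 x.1 hBV (desc_refl h π x.1))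
  obtain ⟨D', hD1, hD2, hD3⟩ := stage_colour (la_restrict hKJ hK) (by omega) F' hh hex
  refine ⟨Subtype.val '' D', ?_, ?_, rb_induce hD3, ?_⟩
  · intro v hv
    exact ⟨⟨v, hKJ hv⟩, hD1 hv, rfl⟩
  · rintro v ⟨x, _, rfl⟩
    exact hJc x.1 x.2
  · intro u huc hu0 hpu hnb
    by_cases huK : u ∈ K
    · exact ⟨⟨u, hKJ huK⟩, hD1 huK, rfl⟩
    · have huJ : u ∈ J := by
        refine ⟨huc, fun w hw hd => ?_⟩
        have hwu : u ≠ w := by
          rintro rfl
          exact hnb hw
        exact la_meet hne F hK hDK hKc hw hpu (desc_parent F hd hwu)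
      refine ⟨⟨u, huJ⟩, hD2 _ ?_, rfl⟩
      have hst := F.step u hu0
      have hadj : (G.induce J).Adj ⟨u, huJ⟩ ⟨π u, hKJ hpu⟩ := hst.1
      have h1 := F'.lip _ _ hadj
      have h2 : h' ⟨π u, hKJ hpu⟩ = 0 := (F'.zero _).2 hpu
      have h3 : h' ⟨u, huJ⟩ ≠ 0 := by
        intro h0
        exact huK ((F'.zero _).1 h0)
      omega

end Pool.RBE
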