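import Mathlib

set_option autoImplicit false

/-! [RBE-RL] laminar families. -/

namespace Pool.RBE

/-- [RBE-RL] a laminar family of distinct nonempty subsets of `A` has at most `2 |A|` members.
Proof. Induction on `|A|`. `A = ∅`: `F = ∅`. Otherwise take `x ∈ A`, and the map `e S = S.erase x` on `F`.
`F' = (F.image e).erase ∅` is a laminar family of nonempty subsets of `A.erase x`, so `|F'| ≤ 2|A| - 2`.
`|F| ≤ |F'| + 2`: the fibre of `∅` is at most `{{x}}`; and at most ONE other value has a fibre with two
elements (every fibre of `e` has at most two elements, `T` and `insert x T` with `x ∉ T`): suppose `x ∉ T`, `x ∉ T'`,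
both nonempty and `T, insert x T, T', insert x T' ∈ F`; `insert x T` and `insert x T'` are not disjoint, so wlog
`insert x T ⊆ insert x T'`, `T ⊆ T'`; `T'` and `insert x T` are not disjoint (they contain `T ≠ ∅`), `insert x T ⊆ T'` is
impossible (`x`), so `T' ⊆ insert x T`, `T' ⊆ T`. So `T = T'`. -/
theorem laminar_card {α : Type} [DecidableEq α] (A : Finset α) (F : Finset (Finset α))
    (hA : ∀ S ∈ F, S ⊆ A) (hne : ∀ S ∈ F, S.Nonempty)
    (hlam : ∀ S ∈ F, ∀ T ∈ F, Disjoint S T ∨ S ⊆ T ∨ T ⊆ S) : F.card ≤ 2 * A.card := by
  induction A using Finset.induction_on generalizing F with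
  | empty =>
    have h0 : F = ∅ := by
      rw [Finset.eq_empty_iff_forall_notMem]
      intro S hS
      have h1 := hA S hS
      have h2 := hne S hS
      rw [Finset.subset_empty] at h1
      exact h2.ne_empty h1
    simp [h0]
  | insert x B hx ih =>
    have hF'card : ((F.image (fun S => S.erase x)).erase ∅).card ≤ 2 * B.card := by
      apply ih
      · intro S hS
        rw [Finset.mem_erase, Finset.mem_image] at hS
        obtain ⟨_, T, hT, rfl⟩ := hS
        intro y hy
        rw [Finset.mem_erase] at hy
        have h3 := hA T hT hy.2
        rw [Finset.mem_insert] at h3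
        exact h3.resolve_left hy.1
      · intro S hS
        rw [Finset.mem_erase] at hS
        exact Finset.nonempty_iff_ne_empty.mpr hS.1
      · intro S hS T hT
        rw [Finset.mem_erase, Finset.mem_image] at hS hT
        obtain ⟨_, S', hS', rfl⟩ := hS
        obtain ⟨_, T', hT', rfl⟩ := hT
        rcases hlam S' hS' T' hT' with h | h | h
        · left
          exact Finset.disjoint_of_subset_left (Finset.erase_subset x S')
            (Finset.disjoint_of_subset_right (Finset.erase_subset x T') h)
        · right; left
          exact Finset.erase_subset_erase x h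
        · right; right
          exact Finset.erase_subset_erase x h
    have key : ∀ S ∈ F, ∀ S' ∈ F, x ∈ S → x ∈ S' → S.erase x ∈ F → S'.erase x ∈ F →
        S ⊆ S' → S = S' := by
      intro S hS S' hS' hxS hxS' hT hT' hsub
      have h1 : S'.erase x ⊆ S := by
        rcases hlam (S'.erase x) hT' S hS with h | h | h
        · exfalso
          obtain ⟨y, hy⟩ := hne _ hT
          have hy1 : y ∈ S'.erase x := Finset.erase_subset_erase x hsub hy
          have hy2 : y ∈ S := Finset.mem_of_mem_erase hy
          exact Finset.disjoint_left.mp h hy1 hy2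
        · exact h
        · exfalso
          exact Finset.notMem_erase x S' (h hxS)
      apply Finset.Subset.antisymm hsub
      intro y hy
      by_cases hyx : y = x
      · rw [hyx]; exact hxS
      · exact h1 (Finset.mem_erase.mpr ⟨hyx, hy⟩)
    have hP : (F.filter (fun S => x ∈ S ∧ S.erase x ∈ F)).card ≤ 1 := by
      rw [Finset.card_le_one]
      intro S hS S' hS'
      rw [Finset.mem_filter] at hS hS'
      obtain ⟨hS, hxS, hT⟩ := hS
      obtain ⟨hS', hxS', hT'⟩ := hS'
      rcases hlam S hS S' hS' with h | h | h
      · exact absurd hxS' (Finset.disjoint_left.mp h hxS)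
      · exact key S hS S' hS' hxS hxS' hT hT' h
      · exact (key S' hS' S hS hxS' hxS hT' hT h).symm
    have hG : ((F \ (F.filter (fun S => x ∈ S ∧ S.erase x ∈ F))).erase {x}).card ≤
        ((F.image (fun S => S.erase x)).erase ∅).card := by
      apply Finset.card_le_card_of_injOn (fun S => S.erase x)
      · intro S hS
        rw [Finset.mem_coe, Finset.mem_erase, Finset.mem_sdiff] at hS
        rw [Finset.mem_coe, Finset.mem_erase]
        refine ⟨?_, Finset.mem_image_of_mem _ hS.2.1⟩
        intro h0
        apply hS.1
        have h1 : S ⊆ {x} := by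
          intro y hy
          by_contra hc
          rw [Finset.mem_singleton] at hc
          have : y ∈ S.erase x := Finset.mem_erase.mpr ⟨hc, hy⟩
          rw [show S.erase x = ∅ from h0] at this
          simp at this
        rcases Finset.subset_singleton_iff.mp h1 with h2 | h2
        · exact absurd h2 (hne S hS.2.1).ne_empty
        · exact h2
      · intro S hS T hT hST
        rw [Finset.mem_coe, Finset.mem_erase, Finset.mem_sdiff, Finset.mem_filter] at hS hT
        simp only at hST
        by_cases hxS : x ∈ S
        · by_cases hxT : x ∈ T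
          · rw [← Finset.insert_erase hxS, hST, Finset.insert_erase hxT]
          · exfalso
            rw [Finset.erase_eq_of_notMem hxT] at hST
            exact hS.2.2 ⟨hS.2.1, hxS, hST ▸ hT.2.1⟩
        · by_cases hxT : x ∈ T
          · exfalso
            rw [Finset.erase_eq_of_notMem hxS] at hST
            exact hT.2.2 ⟨hT.2.1, hxT, hST ▸ hS.2.1⟩
          · rw [Finset.erase_eq_of_notMem hxS, Finset.erase_eq_of_notMem hxT] at hST
            exact hST
    have h1 : (F \ (F.filter (fun S => x ∈ S ∧ S.erase x ∈ F))).card ≤
        ((F \ (F.filter (fun S => x ∈ S ∧ S.erase x ∈ F))).erase {x}).card + 1 := by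
      have := Finset.pred_card_le_card_erase
        (s := F \ (F.filter (fun S => x ∈ S ∧ S.erase x ∈ F))) (a := {x})
      omega
    have h2 : F.card = (F \ (F.filter (fun S => x ∈ S ∧ S.erase x ∈ F))).card +
        (F.filter (fun S => x ∈ S ∧ S.erase x ∈ F)).card :=
      (Finset.card_sdiff_add_card_eq_card (Finset.filter_subset _ F)).symm
    rw [Finset.card_insert_of_notMem hx]
    omega

end Pool.RBE
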