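import Pool.Agent.RBE.RD
import Pool.Agent.RBE.RL

set_option autoImplicit false

/-! [RBE-RB] bridge vertices are paid for by every level above them. -/

namespace Pool.RBE

open SimpleGraph Pool.Agent.RBC

/-- an edge crossing out of `X` avoiding a small set `S` -/
private theorem rb_sep {V : Type} [Fintype V] {G : SimpleGraph V} (hk : KConn G 3) (S : Finset V)
    (hS : S.card < 3) (X : Set V) {a z : V} (haX : a ∈ X) (haS : a ∉ S) (hzX : z ∉ X)
    (hzS : z ∉ S) : ∃ p q, G.Adj p q ∧ p ∈ X ∧ q ∉ X ∧ p ∉ S ∧ q ∉ S := by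
  have hconn := hk.2 S hS
  obtain ⟨w⟩ := hconn.preconnected ⟨a, by simpa using haS⟩ ⟨z, by simpa using hzS⟩
  obtain ⟨d, _, h1, h2⟩ := w.exists_boundary_dart {x | x.1 ∈ X} haX hzX
  exact ⟨d.fst.1, d.snd.1, d.adj, h1, h2, fun hm => d.fst.2 (Finset.mem_coe.2 hm),
    fun hm => d.snd.2 (Finset.mem_coe.2 hm)⟩

private theorem rb_ne {V : Type} [Fintype V] {G : SimpleGraph V} (hk : KConn G 3) {D : Set V}
    {h : V → ℕ} {π : V → V} (F : Forest G D h π) {c t j : ℕ} (htj : t < j)
    (hjc : j < c) {u : V} (hu : BV G h π c u) (hut : h u ≤ t) :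
    ∃ v, h v = j ∧ Desc h π u v := by
  classical
  by_contra hcon
  push Not at hcon
  have hlt : ∀ v, Desc h π u v → h v < j := by
    intro v hv
    by_contra hge
    obtain ⟨x, hx, hux, _⟩ := desc_level F hv (j := j) (by omega) (by omega)
    exact hcon x hx hux
  have hedge : ∀ a b, G.Adj a b → Desc h π u a → ¬ Desc h π u b → a = u ∧ b = π u := by
    intro a b hab ha hb
    have h1 := hlt a ha
    have h2 := F.lip b a hab.symm
    exact hu.2.2 a b hab (by omega) (by omega) ha hb
  have hpar := F.step u hu.1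
  have hpu : u ≠ π u := by
    intro he
    have := hpar.2
    rw [← he] at this
    omega
  by_cases hz : ∃ z, ¬ Desc h π u z ∧ z ≠ π u
  · obtain ⟨z, hz1, hz2⟩ := hz
    obtain ⟨p, q, hpq, hp, hq, hpS, hqS⟩ := rb_sep hk {π u} (by simp) {v | Desc h π u v}
      (a := u) (z := z) (desc_refl h π u) (by simpa using hpu) hz1 (by simpa using hz2)
    exact hqS (by simp [(hedge p q hpq hp hq).2])
  · push Not at hz
    have hcard : ({u, π u} : Finset V).card < (Finset.univ : Finset V).card := by
      have h1 := hk.1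
      have h2 : ({u, π u} : Finset V).card ≤ 2 := Finset.card_le_two
      rw [Finset.card_univ]
      omega
    obtain ⟨y, _, hy⟩ := Finset.exists_mem_notMem_of_card_lt_card hcard
    simp only [Finset.mem_insert, Finset.mem_singleton, not_or] at hy
    have hyD : Desc h π u y := by
      by_contra hyD
      exact hy.2 (hz y hyD)
    have hpD : ¬ Desc h π u (π u) := by
      intro hd
      have := hd.1
      omega
    obtain ⟨p, q, hpq, hp, hq, hpS, hqS⟩ := rb_sep hk {u} (by simp) {v | Desc h π u v}
      (a := y) (z := π u) hyD (by simpa using hy.1) hpD (by simpa using hpu.symm)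
    exact hpS (by simp [(hedge p q hpq hp hq).1])

private theorem rb_inj {V : Type} [Fintype V] {G : SimpleGraph V} (hk : KConn G 3) {D : Set V}
    {h : V → ℕ} {π : V → V} (F : Forest G D h π) {c t j : ℕ} (htj : t < j)
    (hjc : j < c) {u w : V} (hu : BV G h π c u) (hut : h u ≤ t) (hw : BV G h π c w)
    (hwt : h w ≤ t) (hne : u ≠ w) (huw : Desc h π u w)
    (hS : ∀ v, h v = j → Desc h π u v → Desc h π w v) : False := by
  classical
  have huX : ¬ Desc h π w u := fun hd => hne (desc_antisymm huw hd)
  have hlt : ∀ v, Desc h π u v → ¬ Desc h π w v → h v < j := by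
    intro v hv hv'
    by_contra hge
    obtain ⟨x, hx, hux, hxv⟩ := desc_level F hv (j := j) (by omega) (by omega)
    exact hv' (desc_trans (hS x hx hux) hxv)
  obtain ⟨z, hzj, hwz⟩ := rb_ne hk F htj hjc hw hwt
  have hpar := F.step u hu.1
  have hpu : u ≠ π u := by
    intro he
    have := hpar.2
    rw [← he] at this
    omega
  have hzw : z ≠ w := by
    rintro rfl
    omega
  have hzp : z ≠ π u := by
    rintro rfl
    omega
  obtain ⟨p, q, hpq, hp, hq, hpS, hqS⟩ := rb_sep hk {π u, w}
    (lt_of_le_of_lt Finset.card_le_two (by norm_num)) {v | Desc h π u v ∧ ¬ Desc h π w v}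
    (a := u) (z := z) ⟨desc_refl h π u, huX⟩ (by simp [hpu, hne]) (fun hd => hd.2 hwz)
    (by simp [hzw, hzp])
  simp only [Finset.mem_insert, Finset.mem_singleton, not_or] at hqS
  have h1 := hlt p hp.1 hp.2
  have h2 := F.lip q p hpq.symm
  by_cases hqu : Desc h π u q
  · have hwq : Desc h π w q := by
      by_contra hwq
      exact hq ⟨hqu, hwq⟩
    exact hqS.2 (hw.2.2 q p hpq.symm (by omega) (by omega) hwq hp.2).1
  · exact hqS.1 (hu.2.2 p q hpq (by omega) (by omega) hp.1 hqu).2

open Classical in
/-- [RBE-RB] (BR).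
Proof. For `u ∈ A` let `S u = {v | h v = j ∧ Desc u v}`, a subset of the right hand set `L`. Apply
`laminar_card L (A.image S)`; we need: (i) `S u ≠ ∅`; (ii) `S` is injective on `A`; (iii) laminar: if `v ∈ S u ∩ S w` then
`u, w` are comparable (`desc_comparable`), and `Desc u w` gives `S w ⊆ S u` (`desc_trans`).
Write `X ⊆ V` for a set all of whose vertices have height `< j`, so all its neighbours have height `≤ j < c`
(`lip`).
(i) If `S u = ∅` then all descendants of `u` have height `< j` (`desc_level`; `h u ≤ t < j`). By `BV` the only edge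
leaving `Desc u` is `(u, π u)`. Choose `z ∉ Desc u`, `z ≠ π u`: if there is none, then `V = Desc u ∪ {π u}`; `G - u` is
connected (`hk.2 {u}`) and has `≥ 3` vertices, one of them `π u`, the others in `Desc u \ {u}`: a walk of `G - u` from
`π u` to such a vertex has a dart between a vertex outside `Desc u` and one inside `Desc u` which is not `u`:
contradiction. With `z`: `G - π u` is connected and contains `u` and `z`: a walk of it leaves `Desc u` not
through `(u, π u)`: contradiction.
(ii) Let `u, w ∈ A`, `u ≠ w`, `S u = S w`. Both are ancestors of a common vertex (by (i)), so comparable, wlog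
`Desc u w`. Let `X = {v | Desc u v ∧ ¬ Desc w v}`. `u ∈ X` (`desc_antisymm`). All vertices of `X` have height `< j`: if
`v ∈ X`, `h v ≥ j`, its ancestor `x` of height `j` is in `S u = S w`, so `Desc w x`, `Desc x v`, `Desc w v`: contradiction. An
edge `(a, b)` with `a ∈ X`, `b ∉ X`: either `¬ Desc u b`, then `a = u`, `b = π u`; or `Desc w b`, then `BV w` applied to the edge
`(b, a)` gives `b = w`. So the neighbours of `X` outside `X` are in `{π u, w}`. `G - {π u, w}` is connected (`KConn 3`); it
contains `u ∈ X` (`u ≠ w`, `u ≠ π u` by heights) and a vertex `z ∈ S w` (height `j`, so `z ∉ X`, `z ≠ w` since `h w ≤ t < j`,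
`z ≠ π u` by height). A walk of `G - {π u, w}` from `u` to `z` leaves `X`: contradiction. -/
theorem bridge_count {V : Type} [Fintype V] {G : SimpleGraph V} (hk : KConn G 3) {D : Set V}
    {h : V → ℕ} {π : V → V} (F : Forest G D h π) {c t j : ℕ} (htj : t < j)
    (hjc : j < c) (A : Finset V) (hA : A ⊆ BVs G h π c t) :
    A.card ≤ 2 * (Finset.univ.filter (fun v => h v = j ∧ ∃ u ∈ A, Desc h π u v)).card := by
  let S : V → Finset V := fun u => Finset.univ.filter (fun v => h v = j ∧ Desc h π u v)
  have hSmem : ∀ u v, v ∈ S u ↔ h v = j ∧ Desc h π u v := by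
    intro u v
    simp [S]
  have hA' : ∀ u ∈ A, BV G h π c u ∧ h u ≤ t := by
    intro u hu
    simpa [BVs] using hA hu
  have hinj : Set.InjOn S (A : Set V) := by
    intro u hu w hw huw
    by_contra hne
    obtain ⟨hu1, hu2⟩ := hA' u hu
    obtain ⟨hw1, hw2⟩ := hA' w hw
    obtain ⟨v, hv, huv⟩ := rb_ne hk F htj hjc hu1 hu2
    have hwv : Desc h π w v := by
      have : v ∈ S w := by
        rw [← huw]
        exact (hSmem u v).2 ⟨hv, huv⟩
      exact ((hSmem w v).1 this).2
    rcases desc_comparable F huv hwv with hd | hd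
    · refine rb_inj hk F htj hjc hu1 hu2 hw1 hw2 hne hd ?_
      intro x hx hux
      have : x ∈ S w := by
        rw [← huw]
        exact (hSmem u x).2 ⟨hx, hux⟩
      exact ((hSmem w x).1 this).2
    · refine rb_inj hk F htj hjc hw1 hw2 hu1 hu2 (Ne.symm hne) hd ?_
      intro x hx hux
      have : x ∈ S u := by
        rw [huw]
        exact (hSmem w x).2 ⟨hx, hux⟩
      exact ((hSmem u x).1 this).2
  rw [← Finset.card_image_of_injOn hinj]
  refine laminar_card _ _ ?_ ?_ ?_
  · intro T hT
    obtain ⟨u, hu, rfl⟩ := Finset.mem_image.1 hT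
    intro v hv
    obtain ⟨h1, h2⟩ := (hSmem u v).1 hv
    simp only [Finset.mem_filter, Finset.mem_univ, true_and]
    exact ⟨h1, u, hu, h2⟩
  · intro T hT
    obtain ⟨u, hu, rfl⟩ := Finset.mem_image.1 hT
    obtain ⟨hu1, hu2⟩ := hA' u hu
    obtain ⟨v, hv, huv⟩ := rb_ne hk F htj hjc hu1 hu2
    exact ⟨v, (hSmem u v).2 ⟨hv, huv⟩⟩
  · intro T hT T' hT'
    obtain ⟨u, hu, rfl⟩ := Finset.mem_image.1 hT
    obtain ⟨w, hw, rfl⟩ := Finset.mem_image.1 hT'
    by_cases hdis : Disjoint (S u) (S w)
    · exact Or.inl hdis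
    · right
      rw [Finset.not_disjoint_iff] at hdis
      obtain ⟨v, hv1, hv2⟩ := hdis
      rcases desc_comparable F ((hSmem u v).1 hv1).2 ((hSmem w v).1 hv2).2 with hd | hd
      · right
        intro x hx
        obtain ⟨h1, h2⟩ := (hSmem w x).1 hx
        exact (hSmem u x).2 ⟨h1, desc_trans hd h2⟩
      · left
        intro x hx
        obtain ⟨h1, h2⟩ := (hSmem u x).1 hx
        exact (hSmem w x).2 ⟨h1, desc_trans hd h2⟩

end Pool.RBE
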