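import Pool.Agent.RBE.RC

set_option autoImplicit false

/-! [RBE-RE] the closure lemma. -/

namespace Pool.RBE

open SimpleGraph Pool.Agent.RBC

theorem re_pend {V : Type} {G : SimpleGraph V} {h : V → ℕ} {π : V → V} {c : ℕ} {K' : Set V}
    {q' : ℕ} (hK : Rb G K' q') (hc : ∀ v ∈ K', h v ≤ c) (S : Finset V)
    (hS : ∀ u ∈ S, π u ∈ K' ∧ G.Adj (π u) u ∧ h u ≤ c) :
    ∃ K'' : Set V, K' ⊆ K'' ∧ ↑S ⊆ K'' ∧ (∀ v ∈ K'', h v ≤ c) ∧ Rb G K'' (q' + S.card) := by
  classical
  induction S using Finset.induction_on with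
  | empty => exact ⟨K', subset_rfl, by simp, hc, hK⟩
  | insert u S hu ih =>
    obtain ⟨K'', h1, h2, h3, h4⟩ := ih fun v hv => hS v (Finset.mem_insert_of_mem hv)
    obtain ⟨h5, h6, h7⟩ := hS u (Finset.mem_insert_self u S)
    have h8 := rb_walk h4 (h1 h5) (Walk.cons h6 Walk.nil)
    refine ⟨K'' ∪ {x | x ∈ (Walk.cons h6 Walk.nil : G.Walk (π u) u).support},
      h1.trans (Set.subset_union_left), ?_, ?_, ?_⟩
    · intro v hv
      rw [Finset.mem_coe, Finset.mem_insert] at hv
      rcases hv with rfl | hv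
      · exact Or.inr (by simp)
      · exact Or.inl (h2 (Finset.mem_coe.2 hv))
    · intro v hv
      rcases hv with hv | hv
      · exact h3 v hv
      · have h9 : v = π u ∨ v = u := by simpa using hv
        rcases h9 with rfl | rfl
        · exact hc _ h5
        · exact h7
    · rw [Finset.card_insert_of_notMem hu, ← Nat.add_assoc]
      exact h8

open Classical in
/-- [RBE-RE] (CL) the closure lemma.
Proof. Induction on `i ≤ H`: there is `K_i ⊇ D ∪ {v ∈ T | h v ≤ i}` with all heights `≤ c` and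
`Rb G K_i (q + |{v ∈ T | BV v ∧ h v ≤ i}| + i (6c+1))`. `K_0 = D` (height `0` iff in `D`). Step: apply
`close_stage` to `K_i`, get `K'`. Every `u ∈ T` with `h u = i+1` has `π u ∈ T ∪ D`, `h (π u) = i`, so
`π u ∈ K_i`; if `¬ BV u` then `u ∈ K'`. The `u ∈ T`, `h u = i + 1`, `BV u` are added one after the other as
pendant vertices: if `u ∉ K'` use `rb_walk` (Pool.Agent.RBC.rb_walk, file C1) with the walk
`Walk.cons (G.Adj (π u) u) Walk.nil`, `π u ∈ K_i ⊆ K'`: one new colour each. -/
theorem closure {V : Type} [Fintype V] {G : SimpleGraph V} (hc : G.Connected) {D : Set V}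
    (hne : D.Nonempty) {h : V → ℕ} {π : V → V} (F : Forest G D h π) {c : ℕ} (hc0 : 0 < c)
    {q : ℕ} (hD : Rb G D q) (T : Finset V) (hT : ∀ v ∈ T, 0 < h v → π v ∈ T ∨ π v ∈ D)
    (H : ℕ) (hH : H ≤ c) (hTH : ∀ v ∈ T, h v ≤ H) :
    ∃ K : Set V, D ⊆ K ∧ ↑T ⊆ K ∧ (∀ v ∈ K, h v ≤ c) ∧
      Rb G K (q + (T.filter (fun u => BV G h π c u)).card + H * (6 * c + 1)) := by
  have key : ∀ i, i ≤ H → ∃ K : Set V, D ⊆ K ∧ (∀ v ∈ T, h v ≤ i → v ∈ K) ∧
      (∀ v ∈ K, h v ≤ c) ∧
      Rb G K (q + (T.filter (fun u => BV G h π c u ∧ h u ≤ i)).card + i * (6 * c + 1)) := by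
    intro i
    induction i with
    | zero =>
      intro _
      refine ⟨D, subset_rfl, fun v _ hv => (F.zero v).1 (Nat.le_zero.1 hv), fun v hv => ?_, ?_⟩
      · rw [(F.zero v).2 hv]
        exact Nat.zero_le c
      · refine rb_mono hD ?_
        rw [Nat.zero_mul, Nat.add_zero]
        exact Nat.le_add_right _ _
    | succ i ih =>
      intro hi
      obtain ⟨K, hDK, hTK, hKc, hK⟩ := ih (by omega)
      obtain ⟨K', hKK', hK'c, hK', hnb⟩ := close_stage hc hne F hc0 hK hDK hKc
      have hpar : ∀ v ∈ T, h v = i + 1 → π v ∈ K := by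
        intro v hv hvi
        have h1 := (F.step v (by omega)).2
        rcases hT v hv (by omega) with h2 | h2
        · exact hTK _ h2 (by omega)
        · exact hDK h2
      obtain ⟨K'', h1, h2, h3, h4⟩ := re_pend (c := c) (h := h) (π := π) hK' hK'c
        (T.filter (fun u => BV G h π c u ∧ h u = i + 1)) (fun u hu => by
          rw [Finset.mem_filter] at hu
          refine ⟨hKK' (hpar u hu.1 hu.2.2), ((F.step u (by omega)).1).symm, ?_⟩
          omega)
      refine ⟨K'', (hDK.trans hKK').trans h1, fun v hv hvi => ?_, h3, ?_⟩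
      · rcases Nat.lt_or_ge (h v) (i + 1) with h5 | h5
        · exact h1 (hKK' (hTK v hv (by omega)))
        · have h6 : h v = i + 1 := by omega
          by_cases h7 : BV G h π c v
          · exact h2 (Finset.mem_coe.2 (Finset.mem_filter.2 ⟨hv, h7, h6⟩))
          · exact h1 (hnb v (by omega) (by omega) (hpar v hv h6) h7)
      · have h5 : (T.filter (fun u => BV G h π c u ∧ h u ≤ i + 1)).card
            = (T.filter (fun u => BV G h π c u ∧ h u ≤ i)).card
              + (T.filter (fun u => BV G h π c u ∧ h u = i + 1)).card := by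
          rw [← Finset.card_union_of_disjoint]
          · congr 1
            ext u
            simp only [Finset.mem_filter, Finset.mem_union]
            constructor
            · rintro ⟨hu, hb, hh⟩
              rcases Nat.lt_or_ge (h u) (i + 1) with h6 | h6
              · exact Or.inl ⟨hu, hb, by omega⟩
              · exact Or.inr ⟨hu, hb, by omega⟩
            · rintro (⟨hu, hb, hh⟩ | ⟨hu, hb, hh⟩)
              · exact ⟨hu, hb, by omega⟩
              · exact ⟨hu, hb, by omega⟩
          · rw [Finset.disjoint_left]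
            intro u hu hu'
            rw [Finset.mem_filter] at hu hu'
            omega
        refine rb_mono h4 ?_
        have h6 : (i + 1) * (6 * c + 1) = i * (6 * c + 1) + (6 * c + 1) := by ring
        rw [h5, h6]
        omega
  obtain ⟨K, h1, h2, h3, h4⟩ := key H le_rfl
  refine ⟨K, h1, fun v hv => h2 v (Finset.mem_coe.1 hv) (hTH v (Finset.mem_coe.1 hv)), h3,
    rb_mono h4 ?_⟩
  have h5 : (T.filter (fun u => BV G h π c u ∧ h u ≤ H)).card
      ≤ (T.filter (fun u => BV G h π c u)).card := by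
    apply Finset.card_le_card
    intro u hu
    rw [Finset.mem_filter] at hu ⊢
    exact ⟨hu.1, hu.2.1⟩
  omega

end Pool.RBE
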