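import Pool.Agent.RBE.LA
import Pool.Agent.RBE.RE
import Pool.Agent.RBE.RB

set_option autoImplicit false

/-! [RBE-LB] linear growth of balls in irreducible graphs. -/

namespace Pool.RBE

open SimpleGraph Pool.Agent.RBC

theorem lb_bv_mono {V : Type} {G : SimpleGraph V} {h : V → ℕ} {π : V → V} {c c' : ℕ} {u : V}
    (hcc : c ≤ c') (huc : h u ≤ c) (hb : BV G h π c' u) : BV G h π c u :=
  ⟨hb.1, huc, fun a b hab ha hbb hd hnd => hb.2.2 a b hab (ha.trans hcc) (hbb.trans hcc) hd hnd⟩

open Classical in
/-- closure with the constant exit scale `c` -/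
theorem closure_s {V : Type} [Fintype V] {G : SimpleGraph V} (hc : G.Connected) {D : Set V}
    (hne : D.Nonempty) {h : V → ℕ} {π : V → V} (F : Forest G D h π) (c : ℕ)
    {q : ℕ} (hD : Rb G D q) (H : ℕ) :
    ∃ K : Set V, (∀ v, h v ≤ H → v ∈ K) ∧ (∀ v ∈ K, h v ≤ H + c) ∧
      Rb G K (q + (Finset.univ.filter (fun u => BV G h π (h u + c) u ∧ h u ≤ H)).card
        + H * (6 * (c + 1) + 1)) := by
  induction H with
  | zero =>
    refine ⟨D, fun v hv => (F.zero v).1 (Nat.le_zero.1 hv), fun v hv => ?_, rb_mono hD ?_⟩
    · rw [(F.zero v).2 hv]; exact Nat.zero_le _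
    · rw [Nat.zero_mul, Nat.add_zero]; exact Nat.le_add_right _ _
  | succ i ih =>
    obtain ⟨K, hK1, hK2, hK3⟩ := ih
    have hDK : D ⊆ K := fun d hd => hK1 d (by rw [(F.zero d).2 hd]; exact Nat.zero_le _)
    obtain ⟨K', hKK', hK'c, hK', hnb⟩ := close_stage_s hc hne F (c := i + 1 + c) (s := i)
      (by omega) hK1 hK3 hDK (fun v hv => by have := hK2 v hv; omega)
    have hpar : ∀ v, h v = i + 1 → π v ∈ K := by
      intro v hvi
      have h1 := (F.step v (by omega)).2
      exact hK1 _ (by omega)
    obtain ⟨K'', h1, h2, h3, h4⟩ := re_pend (c := i + 1 + c) (h := h) (π := π) hK' hK'c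
      (Finset.univ.filter (fun u => BV G h π (h u + c) u ∧ h u = i + 1)) (fun u hu => by
        rw [Finset.mem_filter] at hu
        refine ⟨hKK' (hpar u hu.2.2), ((F.step u (by omega)).1).symm, ?_⟩
        omega)
    refine ⟨K'', fun v hvi => ?_, h3, ?_⟩
    · rcases Nat.lt_or_ge (h v) (i + 1) with h5 | h5
      · exact h1 (hKK' (hK1 v (by omega)))
      · have h6 : h v = i + 1 := by omega
        by_cases h7 : BV G h π (h v + c) v
        · exact h2 (Finset.mem_coe.2 (Finset.mem_filter.2 ⟨Finset.mem_univ _, h7, h6⟩))
        · rw [h6] at h7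
          exact h1 (hnb v (by omega) (by omega) (hpar v h6) h7)
    · have h5 : (Finset.univ.filter (fun u => BV G h π (h u + c) u ∧ h u ≤ i + 1)).card
          = (Finset.univ.filter (fun u => BV G h π (h u + c) u ∧ h u ≤ i)).card
            + (Finset.univ.filter (fun u => BV G h π (h u + c) u ∧ h u = i + 1)).card := by
        rw [← Finset.card_union_of_disjoint]
        · congr 1
          ext u
          simp only [Finset.mem_filter, Finset.mem_union, Finset.mem_univ, true_and]
          constructor
          · rintro ⟨hb, hh⟩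
            rcases Nat.lt_or_ge (h u) (i + 1) with h6 | h6
            · exact Or.inl ⟨hb, by omega⟩
            · exact Or.inr ⟨hb, by omega⟩
          · rintro (⟨hb, hh⟩ | ⟨hb, hh⟩)
            · exact ⟨hb, by omega⟩
            · exact ⟨hb, by omega⟩
        · rw [Finset.disjoint_left]
          intro u hu hu'
          rw [Finset.mem_filter] at hu hu'
          omega
      refine rb_mono h4 ?_
      have h6 : (i + 1) * (6 * (c + 1) + 1) = i * (6 * (c + 1) + 1) + (6 * (c + 1) + 1) := by ring
      have h7 : 6 * (i + 1 + c - i) + 1 = 6 * (c + 1) + 1 := by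
        have : i + 1 + c - i = c + 1 := by omega
        rw [this]
      rw [h5, h6, h7]
      omega

open Classical in
/-- number of private colours: scale `c = 2 a + 1` -/
theorem lb_count {V : Type} [Fintype V] {G : SimpleGraph V} (hk : KConn G 3) {D : Set V}
    {h : V → ℕ} {π : V → V} (F : Forest G D h π) (a : ℕ) (ha : 0 < a) (m : ℕ) :
    a * (Finset.univ.filter (fun u => BV G h π (h u + (2 * a + 1)) u ∧ h u ≤ m * a)).card ≤
      2 * (Finset.univ.filter (fun v => h v ≤ (m + 1) * a)).card := by
  induction m with
  | zero =>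
    have h1 : (Finset.univ.filter (fun u => BV G h π (h u + (2 * a + 1)) u ∧ h u ≤ 0 * a)) = ∅ := by
      ext u
      simp only [Finset.mem_filter, Finset.mem_univ, true_and, Finset.notMem_empty, iff_false]
      rintro ⟨hb, hh⟩
      have := hb.1
      omega
    rw [h1]; simp
  | succ m ih =>
    set A : Finset V := Finset.univ.filter (fun u => BV G h π (h u + (2 * a + 1)) u ∧
      m * a < h u ∧ h u ≤ (m + 1) * a) with hA
    have hsplit : (Finset.univ.filter (fun u => BV G h π (h u + (2 * a + 1)) u ∧
        h u ≤ (m + 1) * a)).card ≤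
        (Finset.univ.filter (fun u => BV G h π (h u + (2 * a + 1)) u ∧ h u ≤ m * a)).card
          + A.card := by
      refine le_trans (Finset.card_le_card ?_) (Finset.card_union_le _ _)
      intro u hu
      simp only [hA, Finset.mem_filter, Finset.mem_union, Finset.mem_univ, true_and] at hu ⊢
      rcases Nat.lt_or_ge (m * a) (h u) with h1 | h1
      · exact Or.inr ⟨hu.1, h1, hu.2⟩
      · exact Or.inl ⟨hu.1, h1⟩
    have hAB : A ⊆ BVs G h π (m * a + (2 * a + 1)) ((m + 1) * a) := by
      intro u hu
      simp only [hA, Finset.mem_filter, Finset.mem_univ, true_and] at hu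
      unfold BVs
      simp only [Finset.mem_filter, Finset.mem_univ, true_and]
      refine ⟨lb_bv_mono ?_ ?_ hu.1, hu.2.2⟩
      · omega
      · have : (m + 1) * a = m * a + a := by ring
        omega
    have hlev : ∀ j ∈ Finset.Ioc ((m + 1) * a) ((m + 2) * a),
        A.card ≤ 2 * (Finset.univ.filter (fun v => h v = j)).card := by
      intro j hj
      rw [Finset.mem_Ioc] at hj
      have e1 : (m + 1) * a = m * a + a := by ring
      have e2 : (m + 2) * a = m * a + 2 * a := by ring
      refine le_trans (bridge_count hk F (c := m * a + (2 * a + 1)) (t := (m + 1) * a) (j := j)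
        hj.1 (by omega) A hAB) ?_
      refine Nat.mul_le_mul_left 2 (Finset.card_le_card ?_)
      intro v hv
      simp only [Finset.mem_filter, Finset.mem_univ, true_and] at hv ⊢
      exact hv.1
    have hsum : a * A.card ≤ 2 * ∑ j ∈ Finset.Ioc ((m + 1) * a) ((m + 2) * a),
        (Finset.univ.filter (fun v => h v = j)).card := by
      have h1 := Finset.sum_le_sum hlev
      rw [Finset.sum_const, Nat.card_Ioc, smul_eq_mul, ← Finset.mul_sum] at h1
      have e : (m + 2) * a - (m + 1) * a = a := by
        rw [← Nat.sub_mul]; simp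
      rw [e] at h1
      exact h1
    have hfib : ∑ j ∈ Finset.Ioc ((m + 1) * a) ((m + 2) * a),
        (Finset.univ.filter (fun v => h v = j)).card =
        (Finset.univ.filter (fun v => (m + 1) * a < h v ∧ h v ≤ (m + 2) * a)).card := by
      have h1 := Finset.card_eq_sum_card_fiberwise (f := h)
        (s := Finset.univ.filter (fun v => (m + 1) * a < h v ∧ h v ≤ (m + 2) * a))
        (t := Finset.Ioc ((m + 1) * a) ((m + 2) * a)) (by
          intro v hv
          simp only [Finset.coe_filter, Finset.mem_univ, true_and, Set.mem_setOf_eq] at hv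
          simp only [Finset.coe_Ioc, Set.mem_Ioc]
          exact hv)
      rw [h1]
      refine Finset.sum_congr rfl ?_
      intro j hj
      rw [Finset.mem_Ioc] at hj
      congr 1
      ext v
      simp only [Finset.mem_filter, Finset.mem_univ, true_and]
      constructor
      · intro hv; exact ⟨⟨by omega, by omega⟩, hv⟩
      · intro hv; exact hv.2
    have htot : (Finset.univ.filter (fun v => h v ≤ (m + 1) * a)).card +
        (Finset.univ.filter (fun v => (m + 1) * a < h v ∧ h v ≤ (m + 2) * a)).card ≤
        (Finset.univ.filter (fun v => h v ≤ (m + 2) * a)).card := by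
      rw [← Finset.card_union_of_disjoint]
      · apply Finset.card_le_card
        intro v hv
        have e : (m + 2) * a = (m + 1) * a + a := by ring
        simp only [Finset.mem_union, Finset.mem_filter, Finset.mem_univ, true_and] at hv ⊢
        omega
      · rw [Finset.disjoint_left]
        intro v hv hv'
        simp only [Finset.mem_filter, Finset.mem_univ, true_and] at hv hv'
        omega
    have e3 : m + 1 + 1 = m + 2 := rfl
    rw [e3]
    calc a * (Finset.univ.filter (fun u => BV G h π (h u + (2 * a + 1)) u ∧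
          h u ≤ (m + 1) * a)).card
        ≤ a * ((Finset.univ.filter (fun u => BV G h π (h u + (2 * a + 1)) u ∧
          h u ≤ m * a)).card + A.card) := Nat.mul_le_mul_left a hsplit
      _ = a * (Finset.univ.filter (fun u => BV G h π (h u + (2 * a + 1)) u ∧
          h u ≤ m * a)).card + a * A.card := by ring
      _ ≤ _ := by
        rw [hfib] at hsum
        omega

/-- **(LIN)** linear growth of balls. -/
theorem ball_lin (k : ℕ) (hk : 3 ≤ k) :
    ∃ B : ℕ, 1 ≤ B ∧ ∀ (V : Type) [Fintype V] (G : SimpleGraph V), KConn G k → Irr G k →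
      ∀ (v : V) (R : ℕ), (ball G v R).card < B * (R + 1) := by
  classical
  set a : ℕ := 8 * k with ha
  set c : ℕ := 2 * a + 1 with hcdef
  set E : ℕ := 4 * k * (6 * (c + 1) + 1) with hE
  set g : ℕ := 2 * a + 1 with hg
  have hE1 : 1 ≤ E := by
    rw [hE]
    exact Nat.mul_pos (by omega) (by omega)
  refine ⟨E * g, Nat.mul_pos hE1 (by omega), ?_⟩
  intro V _ G hG hI v R
  have hc : G.Connected := kconn_connected hG (by omega)
  have hG3 : KConn G 3 := ⟨lt_of_le_of_lt hk hG.1, fun S hS => hG.2 S (lt_of_lt_of_le hS hk)⟩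
  obtain ⟨h, π, F, hmin⟩ := exists_forest hc (D := {v}) ⟨v, rfl⟩
  have hh : ∀ x, h x = G.dist v x := by
    intro x
    obtain ⟨u, hu, hd⟩ := forest_h_attained hc F x
    rw [Set.mem_singleton_iff] at hu
    rw [← hd, hu, SimpleGraph.dist_comm]
  set N : ℕ → ℕ := fun r => (Finset.univ.filter (fun x => h x ≤ r)).card with hN
  have hball : ∀ r, (ball G v r).card = N r := by
    intro r
    unfold ball
    simp only [hN, hh]
  have hNmono : ∀ r r', r ≤ r' → N r ≤ N r' := by
    intro r r' hr
    apply Finset.card_le_card
    intro x hx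
    simp only [Finset.mem_filter, Finset.mem_univ, true_and] at hx ⊢
    omega
  have hrb0 : Rb G ({v} : Set V) 0 := by
    refine ⟨fun _ => 0, ?_⟩
    intro u hu w hw
    rw [Set.mem_singleton_iff] at hu hw
    subst hu; subst hw
    exact ⟨Walk.nil, by simp, by simp, by simp⟩
  have key : ∀ r, 4 * N r < N (r + g) + E * (r + 1) := by
    intro r
    obtain ⟨K, hK1, hK2, hK3⟩ := closure_s hc (D := {v}) ⟨v, rfl⟩ F c hrb0 (r + 1)
    have hint : (Finset.univ.filter (fun x => h x ≤ r)) ⊆ intr G K := by
      intro x hx
      unfold intr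
      simp only [Finset.mem_filter, Finset.mem_univ, true_and] at hx ⊢
      refine ⟨hK1 x (by omega), fun w hw => hK1 w ?_⟩
      have := F.lip w x hw.symm
      omega
    have hne : (intr G K).Nonempty := by
      refine ⟨v, hint ?_⟩
      simp only [Finset.mem_filter, Finset.mem_univ, true_and]
      rw [(F.zero v).2 rfl]
      exact Nat.zero_le _
    have h1 := hI K _ hK3 hne
    have h2 : N r ≤ (intr G K).card := Finset.card_le_card hint
    -- the number of private colours
    obtain ⟨m, hm1, hm2⟩ : ∃ m, r + 1 ≤ m * a ∧ (m + 1) * a ≤ r + g := by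
      refine ⟨(r + a) / a, ?_, ?_⟩
      · have := Nat.lt_div_mul_add (a := r + a) (b := a) (by omega)
        omega
      · have := Nat.div_mul_le_self (r + a) a
        have e : ((r + a) / a + 1) * a = (r + a) / a * a + a := by ring
        omega
    have h3 := lb_count hG3 F a (by omega) m
    have h4 : (Finset.univ.filter (fun u => BV G h π (h u + c) u ∧ h u ≤ r + 1)).card ≤
        (Finset.univ.filter (fun u => BV G h π (h u + (2 * a + 1)) u ∧ h u ≤ m * a)).card := by
      apply Finset.card_le_card
      intro x hx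
      simp only [Finset.mem_filter, Finset.mem_univ, true_and] at hx ⊢
      exact ⟨hx.1, by omega⟩
    have h5 : (Finset.univ.filter (fun v => h v ≤ (m + 1) * a)).card ≤ N (r + g) :=
      hNmono _ _ hm2
    set b := (Finset.univ.filter (fun u => BV G h π (h u + c) u ∧ h u ≤ r + 1)).card with hb
    have h6 : a * b ≤ 2 * N (r + g) :=
      le_trans (Nat.mul_le_mul_left a h4) (h3.trans (Nat.mul_le_mul_left 2 h5))
    have h7 : 4 * (k * b) ≤ N (r + g) := by
      have : a * b = 2 * (4 * (k * b)) := by rw [ha]; ring
      omega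
    have h8 : k * (0 + b + (r + 1) * (6 * (c + 1) + 1)) =
        k * b + k * ((r + 1) * (6 * (c + 1) + 1)) := by ring
    have h9 : E * (r + 1) = 4 * (k * ((r + 1) * (6 * (c + 1) + 1))) := by rw [hE]; ring
    rw [h8] at h1
    omega
  rw [hball]
  by_contra hcon
  push Not at hcon
  have hbig : E * (R + g) ≤ N R := by
    refine le_trans ?_ hcon
    have : g * (R + 1) ≥ R + g := by nlinarith [show 1 ≤ g from by omega]
    calc E * (R + g) ≤ E * (g * (R + 1)) := Nat.mul_le_mul_left E this
      _ = E * g * (R + 1) := by ring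
  have hgrow : ∀ j, 3 ^ j ≤ N (R + j * g) ∧ E * (R + j * g + g) ≤ N (R + j * g) := by
    intro j
    induction j with
    | zero =>
      have h1 : 1 ≤ N R := by
        have : 1 ≤ E * (R + g) := Nat.mul_pos hE1 (by omega)
        omega
      simpa using ⟨h1, hbig⟩
    | succ j ih =>
      obtain ⟨ih1, ih2⟩ := ih
      have h1 := key (R + j * g)
      have e : R + (j + 1) * g = R + j * g + g := by ring
      rw [e]
      have h2 : E * (R + j * g + 1) ≤ E * (R + j * g + g) :=
        Nat.mul_le_mul_left E (by omega)
      have h3 : 3 * N (R + j * g) ≤ N (R + j * g + g) := by omega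
      refine ⟨?_, ?_⟩
      · rw [pow_succ]; omega
      · have h4 : E * (R + j * g + g + g) ≤ 3 * (E * (R + j * g + g)) := by
          have : R + j * g + g + g ≤ 3 * (R + j * g + g) := by omega
          calc E * (R + j * g + g + g) ≤ E * (3 * (R + j * g + g)) := Nat.mul_le_mul_left E this
            _ = 3 * (E * (R + j * g + g)) := by ring
        omega
  have h1 := (hgrow (Fintype.card V)).1
  have h2 : N (R + Fintype.card V * g) ≤ Fintype.card V := by
    simp only [hN]
    exact (Finset.card_le_univ _)
  have h3 : Fintype.card V < 3 ^ (Fintype.card V) := Nat.lt_pow_self (by norm_num)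
  omega

end Pool.RBE
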