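import Pool.Agent.RBE.Base

set_option autoImplicit false

/-! [RBE-M0] Definitions for the leg lemma, the free blob and isometric cycles. -/

namespace Pool.RBE

open SimpleGraph Pool.Agent.RBC

section
variable {V : Type} (G : SimpleGraph V)

/-- `G` together with all edges inside the hub `X` (virtual edges). -/
def cl (X : Set V) : SimpleGraph V := G ⊔ SimpleGraph.fromRel (fun a b => a ∈ X ∧ b ∈ X)

/-- `X` is connected inside itself (by walks of `G` with all vertices in `X`). -/
def ConnIn (X : Set V) : Prop :=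
  ∀ x ∈ X, ∀ y ∈ X, ∃ w : G.Walk x y, ∀ z ∈ w.support, z ∈ X

/-- `A` is a side of the hub `X` (all neighbours of vertices of `A` are in `A` or in `X`) and `h` is its
height function: `h v` is the distance from `v` to `X` for `v ∈ A` and `h v = 0` for `v ∉ A`. -/
structure Side (X A : Set V) (h : V → ℕ) : Prop where
  nbr : ∀ a ∈ A, ∀ b, G.Adj a b → b ∈ A ∨ b ∈ X
  dis : ∀ a ∈ A, a ∉ X
  out : ∀ v, v ∉ A → h v = 0
  low : ∀ v ∈ A, ∀ x ∈ X, h v ≤ G.dist v x
  att : ∀ v ∈ A, ∃ x ∈ X, G.dist v x = h v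

/-- `c` (periodic with period `w`) runs around an isometric cycle of length `w`. -/
structure IsoCyc (w : ℕ) (c : ℕ → V) : Prop where
  three : 3 ≤ w
  per : ∀ i, c (i + w) = c i
  dist : ∀ i j, i ≤ j → j ≤ i + w → G.dist (c i) (c j) = min (j - i) (i + w - j)

/-- `x` is a geodesic on the indices `0, …, n`. -/
def Geo (n : ℕ) (x : ℕ → V) : Prop := ∀ i j, i ≤ j → j ≤ n → G.dist (x i) (x j) = j - i

end

end Pool.RBE
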