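import Pool.Agent.RBE.M0
import Pool.Agent.RBE.Z1

set_option autoImplicit false

/-! [RBE-M1] (Z1) the zero-loss strand, geodesic form. -/

namespace Pool.RBE

open SimpleGraph Pool.Agent.RBC

/-- [RBE-M1] geodesic form of `strand_mass_tub`. -/
theorem geo_strand {V : Type} [Fintype V] {G : SimpleGraph V} {k : ℕ} (hk : KConn G k) (hk2 : 2 ≤ k) {ρ : ℕ}
    (hρ : 4 * (k * k) ≤ ρ) {n : ℕ} {x : ℕ → V} (hx : Geo G n x) :
    k * n ≤ 2 * (nbh G {v | ∃ i, i ≤ n ∧ v = x i} ρ).card + 2 * k := by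
  classical
  have hc : G.Connected := kconn_connected hk (by omega)
  have hlip : ∀ u v, G.Adj u v → G.dist (x 0) u ≤ G.dist (x 0) v + 1 := by
    intro u v huv
    have h1 := hc.dist_triangle (u := x 0) (v := v) (w := u)
    have h2 : G.dist v u = 1 := SimpleGraph.dist_eq_one_iff_adj.2 huv.symm
    omega
  have hρ' : k ^ 2 ≤ ρ := by
    have : k ^ 2 = k * k := by ring
    omega
  have h := strand_mass_tub G hk2 hk (fun v => G.dist (x 0) v) hlip (x 0) SimpleGraph.dist_self x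
    1 n ρ le_rfl hρ' (fun i _ h2 => by
      show G.dist (x 0) (x i) = i
      rw [hx 0 i (by omega) h2, Nat.sub_zero])
  have hsub : (tub G x 1 n ρ).filter (fun v => 1 ≤ G.dist (x 0) v ∧ G.dist (x 0) v ≤ n) ⊆
      nbh G {v | ∃ i, i ≤ n ∧ v = x i} ρ := by
    intro v hv
    have h1 := (Finset.mem_filter.1 hv).1
    rw [mem_tub] at h1
    obtain ⟨j, _, hj2, hj3⟩ := h1
    exact (z_mem_nbh G).2 ⟨x j, ⟨j, hj2, rfl⟩, hj3⟩
  have hcard := Finset.card_le_card hsub
  have h1 : n + 1 - 1 = n := by omega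
  rw [h1] at h
  omega

end Pool.RBE
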