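import Pool.Agent.RBE.M4A

set_option autoImplicit false

/-! [RBE-M10A] the antipodal colouring of an isometric cycle. -/

namespace Pool.RBE

open SimpleGraph Pool.Agent.RBC

section
variable {V : Type} {G : SimpleGraph V}

theorem m10a_inj {w : ℕ} {c : ℕ → V} (hc : IsoCyc G w c) (f : ℕ) {l l' : ℕ} (hl : l < l') (hl' : l' < w)
    (h : s(c (f + l), c (f + l + 1)) = s(c (f + l'), c (f + l' + 1))) : False := by
  have h3 := hc.three
  rw [Sym2.eq_iff] at h
  rcases h with ⟨h1, _⟩ | ⟨h1, h2⟩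
  · have := hc.dist (f + l) (f + l') (by omega) (by omega)
    rw [h1, SimpleGraph.dist_self] at this
    omega
  · have e1 := hc.dist (f + l) (f + l' + 1) (by omega) (by omega)
    rw [h1, SimpleGraph.dist_self] at e1
    have e2 := hc.dist (f + l + 1) (f + l') (by omega) (by omega)
    rw [h2, SimpleGraph.dist_self] at e2
    omega

/-- [RBE-M10a] Proof. The edges `s(c (f+l), c (f+l+1))`, `l < w`, are pairwise distinct: `c (f+l) = c (f+l')` with `l < l' < w` is impossible (`IsoCyc.dist` gives `min (l'-l) (w-(l'-l)) > 0`), and `c (f+l) = c (f+l'+1)`, `c (f+l+1) = c (f+l')` would give `l' = l + 1` (or `l = 0`, `l' = w-1`, ..)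
and `w = 2`. Define `χ e = q1 + l % ((w+1)/2)` for the unique `l` if there is one, `0` otherwise. -/
theorem cyc_colour {w : ℕ} {c : ℕ → V} (hG : G.Connected) (hc : IsoCyc G w c) (f q1 : ℕ) :
    ∃ χ : Sym2 V → ℕ, ∀ l, l < w → χ s(c (f + l), c (f + l + 1)) = q1 + l % ((w + 1) / 2) := by
  classical
  refine ⟨fun e => if h : ∃ l, l < w ∧ s(c (f + l), c (f + l + 1)) = e then q1 + h.choose % ((w + 1) / 2) else 0, ?_⟩
  intro l hl
  have hex : ∃ l', l' < w ∧ s(c (f + l'), c (f + l' + 1)) = s(c (f + l), c (f + l + 1)) := ⟨l, hl, rfl⟩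
  show (if h : ∃ l', l' < w ∧ s(c (f + l'), c (f + l' + 1)) = s(c (f + l), c (f + l + 1)) then
    q1 + h.choose % ((w + 1) / 2) else 0) = _
  rw [dif_pos hex]
  obtain ⟨h1, h2⟩ := hex.choose_spec
  have : hex.choose = l := by
    rcases Nat.lt_trichotomy hex.choose l with h | h | h
    · exact (m10a_inj hc f h hl h2).elim
    · exact h
    · exact (m10a_inj hc f h h1 h2.symm).elim
  rw [this]

theorem m10a_adj {w : ℕ} {c : ℕ → V} (hc : IsoCyc G w c) (i : ℕ) : G.Adj (c i) (c (i + 1)) := by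
  have h3 := hc.three
  have := hc.dist i (i + 1) (by omega) (by omega)
  have h1 : G.dist (c i) (c (i + 1)) = 1 := by rw [this]; omega
  exact SimpleGraph.dist_eq_one_iff_adj.1 h1

theorem m10a_seq (P : ℕ → V) (n : ℕ) : ∀ (i : ℕ), (∀ t, i ≤ t → t < i + n → G.Adj (P t) (P (t+1))) →
    ∃ w : G.Walk (P i) (P (i + n)), (∀ x ∈ w.support, ∃ t, i ≤ t ∧ t ≤ i + n ∧ x = P t) ∧
      w.edges = (List.range' i n).map (fun t => s(P t, P (t+1))) := by
  induction n with
  | zero =>
    intro i _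
    refine ⟨Walk.nil, ?_, ?_⟩
    · intro x hx
      refine ⟨i, le_rfl, by omega, ?_⟩
      simpa using hx
    · simp
  | succ n ih =>
    intro i h
    have h1 := h i le_rfl (by omega)
    obtain ⟨w, hw1, hw2⟩ := ih (i+1) (fun t h1 h2 => h t (by omega) (by omega))
    refine ⟨Walk.cons h1 (w.copy rfl (by congr 1; omega)), ?_, ?_⟩
    · intro x hx
      rw [Walk.support_cons, Walk.support_copy] at hx
      rcases List.mem_cons.1 hx with rfl | hx
      · exact ⟨i, le_rfl, by omega, rfl⟩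
      · obtain ⟨t, h1, h2, h3⟩ := hw1 x hx
        exact ⟨t, by omega, by omega, h3⟩
    · rw [Walk.edges_cons, Walk.edges_copy, hw2, List.range'_succ]
      simp

theorem m10a_mod {m l l' : ℕ} (h : l < l') (h' : l' - l < m) : l % m ≠ l' % m := by
  intro he
  have := (Nat.modEq_iff_dvd' h.le).1 he
  have := Nat.eq_zero_of_dvd_of_lt this h'
  omega

/-- [RBE-M10b] Arcs of length at most `(w+1)/2` are rainbow. Proof. Walk `c (f+i), …, c (f+j)` (adjacent: `IsoCyc.dist = 1`), its edges are `s(c (f+l), c (f+l+1))`, `i ≤ l < j`, colours `q1 + l % m`, distinct since `j - i ≤ m`. The filter is a sublist. -/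
theorem arc_jn {w : ℕ} {c : ℕ → V} (hG : G.Connected) (hc : IsoCyc G w c) {f q1 : ℕ} {χ : Sym2 V → ℕ}
    (hχ : ∀ l, l < w → χ s(c (f + l), c (f + l + 1)) = q1 + l % ((w + 1) / 2)) {E0 : Set (Sym2 V)} {D : Set V}
    {i j : ℕ} (hij : i ≤ j) (hj : j ≤ w) (hm : j - i ≤ (w + 1) / 2) (hD : ∀ l, i ≤ l → l ≤ j → c (f + l) ∈ D) :
    Jn G E0 χ D {a | ∃ l, i ≤ l ∧ l < j ∧ a = q1 + l % ((w + 1) / 2)} (c (f + i)) (c (f + j)) := by
  classical
  obtain ⟨n, rfl⟩ : ∃ n, j = i + n := ⟨j - i, by omega⟩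
  obtain ⟨p, hp1, hp2⟩ := m10a_seq (G := G) (fun t => c (f + t)) n i (fun t _ _ => m10a_adj hc (f + t))
  refine ⟨p, ?_, ?_, ?_⟩
  · intro x hx
    obtain ⟨t, h1, h2, rfl⟩ := hp1 x hx
    exact hD t h1 h2
  · refine List.Nodup.sublist (List.filter_sublist.map χ) ?_
    rw [hp2, List.map_map]
    apply List.Nodup.map_on _ List.nodup_range'
    intro l hl l' hl' he
    rw [List.mem_range'_1] at hl hl'
    have e1 : χ s(c (f + l), c (f + l + 1)) = χ s(c (f + l'), c (f + l' + 1)) := he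
    rw [hχ l (by omega), hχ l' (by omega)] at e1
    rcases Nat.lt_trichotomy l l' with h | h | h
    · exact (m10a_mod (m := (w + 1) / 2) h (by omega) (Nat.add_left_cancel e1)).elim
    · exact h
    · exact (m10a_mod (m := (w + 1) / 2) h (by omega) (Nat.add_left_cancel e1).symm).elim
  · intro e he _
    rw [hp2, List.mem_map] at he
    obtain ⟨l, hl, rfl⟩ := he
    rw [List.mem_range'_1] at hl
    exact ⟨l, hl.1, hl.2, hχ l (by omega)⟩

theorem m10a_shift {w : ℕ} {c : ℕ → V} (hc : IsoCyc G w c) (f t : ℕ) : ∃ x, x < w ∧ c (f + x) = c t := by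
  have h3 := hc.three
  have hper : Function.Periodic c w := fun i => hc.per i
  refine ⟨(t + (w - 1) * f) % w, Nat.mod_lt _ (by omega), ?_⟩
  have hmod : (f + (t + (w - 1) * f) % w) % w = t % w := by
    rw [Nat.add_mod_mod]
    have : f + (t + (w - 1) * f) = t + w * f := by
      obtain ⟨m, rfl⟩ : ∃ m, w = m + 1 := ⟨w - 1, by omega⟩
      simp only [Nat.add_sub_cancel]
      ring
    rw [this, Nat.add_mul_mod_self_left]
  rw [← hper.map_mod_nat (f + (t + (w - 1) * f) % w), hmod, hper.map_mod_nat]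

/-- [RBE-M10c] The whole cycle is rainbow with `m = (w+1)/2` colours. Proof. `i ≤ j ≤ w` (symmetry; reduce the indices modulo `w` by `IsoCyc.per`). If `j - i ≤ m`: `arc_jn`. Otherwise the other way: `c (f+i)` down to `c f = c (f+w)` down to `c (f+j)`: the arcs `[0,i]` and `[j,w]` have the colours
`q1 + l`, `l < i`, and `q1 + (l - m)`, `j ≤ l < w` (`m ≤ j ≤ l < w ≤ 2m`), disjoint because `j - m > i`; `Jn.trans`. -/
theorem cyc_jn {w : ℕ} {c : ℕ → V} (hG : G.Connected) (hc : IsoCyc G w c) {f q1 : ℕ} {χ : Sym2 V → ℕ}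
    (hχ : ∀ l, l < w → χ s(c (f + l), c (f + l + 1)) = q1 + l % ((w + 1) / 2)) {E0 : Set (Sym2 V)} {D : Set V}
    (hD : ∀ l, c l ∈ D) (i j : ℕ) :
    Jn G E0 χ D {a | q1 ≤ a ∧ a < q1 + (w + 1) / 2} (c i) (c j) := by
  have h3 := hc.three
  have hm0 : 0 < (w + 1) / 2 := by omega
  have key : ∀ x y : ℕ, x ≤ y → y < w →
      Jn G E0 χ D {a | q1 ≤ a ∧ a < q1 + (w + 1) / 2} (c (f + x)) (c (f + y)) := by
    intro x y hxy hy
    have pal : ∀ a b : ℕ, {t | ∃ l, a ≤ l ∧ l < b ∧ t = q1 + l % ((w + 1) / 2)} ⊆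
        {t | q1 ≤ t ∧ t < q1 + (w + 1) / 2} := by
      rintro a b t ⟨l, _, _, rfl⟩
      have := Nat.mod_lt l hm0
      exact ⟨Nat.le_add_right _ _, by omega⟩
    by_cases hle : y - x ≤ (w + 1) / 2
    · exact (arc_jn hG hc hχ hxy hy.le hle (fun l _ _ => hD _)).mono le_rfl subset_rfl subset_rfl (pal _ _)
    · have a1 := (arc_jn (E0 := E0) (D := D) hG hc hχ (i := 0) (j := x) (Nat.zero_le _) (by omega) (by omega)
        (fun l _ _ => hD _)).symm
      have a2 := (arc_jn (E0 := E0) (D := D) hG hc hχ (i := y) (j := w) hy.le le_rfl (by omega)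
        (fun l _ _ => hD _)).symm
      have e : c (f + w) = c (f + 0) := by rw [hc.per f, Nat.add_zero]
      rw [e] at a2
      refine (a1.trans ?_ a2).mono le_rfl subset_rfl subset_rfl (Set.union_subset (pal _ _) (pal _ _))
      rw [Set.disjoint_left]
      rintro t ⟨l, _, hl, rfl⟩ ⟨l', hl1, hl2, he⟩
      have e1 : l % ((w + 1) / 2) = l := Nat.mod_eq_of_lt (by omega)
      have e2 : l' % ((w + 1) / 2) = l' - (w + 1) / 2 := by
        rw [Nat.mod_eq_sub_mod (by omega), Nat.mod_eq_of_lt (by omega)]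
      rw [e1, e2] at he
      omega
  obtain ⟨x, hx, hcx⟩ := m10a_shift hc f i
  obtain ⟨y, hy, hcy⟩ := m10a_shift hc f j
  rw [← hcx, ← hcy]
  rcases Nat.le_total x y with h | h
  · exact key x y h hy
  · exact (key y x h hx).symm

end

end Pool.RBE
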