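import Pool.Agent.RBE.Base

set_option autoImplicit false

/-! [RBE-M8A] edge connectivity. -/

namespace Pool.RBE

open SimpleGraph Pool.Agent.RBC

section
variable {V : Type} [Fintype V] {G : SimpleGraph V}

/-- minimum degree -/
theorem m8a_deg {k : ℕ} (hk : KConn G k) (u : V) (N : Finset V) (hN : ∀ v, G.Adj u v → v ∈ N) (hu : u ∉ N) :
    k ≤ N.card := by
  classical
  by_contra hlt
  push Not at hlt
  have hc := hk.2 N hlt
  -- a vertex outside of `N` and different from `u`
  obtain ⟨z, hz⟩ : ∃ z, z ∉ insert u N := by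
    by_contra h
    push Not at h
    have h1 : Finset.univ ⊆ insert u N := fun z _ => h z
    have h2 := Finset.card_le_card h1
    rw [Finset.card_univ, Finset.card_insert_of_notMem hu] at h2
    have := hk.1
    omega
  rw [Finset.mem_insert, not_or] at hz
  have hu' : u ∈ ((↑N : Set V)ᶜ) := by simpa using hu
  have hz' : z ∈ ((↑N : Set V)ᶜ) := by simpa using hz.2
  obtain ⟨p⟩ := hc.preconnected ⟨u, hu'⟩ ⟨z, hz'⟩
  cases p with
  | nil => exact hz.1 rfl
  | cons h q =>
    rename_i b
    have hb := b.2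
    simp only [Set.mem_compl_iff, Finset.mem_coe] at hb
    exact hb (hN _ h)

open Classical in
/-- [RBE-M8a] edge connectivity. Proof. Let `B` be the set of pairs in the claim, suppose `|B| < k`. `S` = first components of `B`, `|S| ≤ |B| < k`. If `U ≠ S`: `u ∈ U \ S`, `v ∉ U`: in `G - S` (connected by `KConn`) there is a walk from
`u` to `v`; it has an edge `a ~ b` with `a ∈ U`, `b ∉ U`, `a ∉ S`, contradiction. If `U = S`: let `s = |U| ≤ |B| < k`, `s ≥ 1`. Every `u ∈ U` has at least `k` neighbours (otherwise the neighbour set separates `u` from the rest,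
`|V| > k`), at least `k - (s-1)` of them outside `U`: `|B| ≥ s (k - s + 1) ≥ k`. -/
theorem edge_cut {k : ℕ} (hk : KConn G k) {U : Finset V} (hU : U.Nonempty) {v0 : V} (hv : v0 ∉ U) :
    k ≤ (Finset.univ.filter (fun p : V × V => p.1 ∈ U ∧ p.2 ∉ U ∧ G.Adj p.1 p.2)).card := by
  by_contra hlt
  push Not at hlt
  set B := Finset.univ.filter (fun p : V × V => p.1 ∈ U ∧ p.2 ∉ U ∧ G.Adj p.1 p.2) with hB
  have hmem : ∀ a b, a ∈ U → b ∉ U → G.Adj a b → (a, b) ∈ B := by
    intro a b ha hb hab
    rw [hB, Finset.mem_filter]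
    exact ⟨Finset.mem_univ _, ha, hb, hab⟩
  set S := B.image Prod.fst with hS
  have hSc : S.card < k := Finset.card_image_le.trans_lt hlt
  have hSU : S ⊆ U := by
    intro a ha
    rw [hS, Finset.mem_image] at ha
    obtain ⟨p, hp, rfl⟩ := ha
    rw [hB, Finset.mem_filter] at hp
    exact hp.2.1
  by_cases hUS : ∃ u ∈ U, u ∉ S
  · obtain ⟨u, huU, huS⟩ := hUS
    have hc := hk.2 S hSc
    have hu' : u ∈ ((↑S : Set V)ᶜ) := by simpa using huS
    have hv' : v0 ∈ ((↑S : Set V)ᶜ) := by
      simp only [Set.mem_compl_iff, Finset.mem_coe]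
      exact fun h => hv (hSU h)
    obtain ⟨p⟩ := hc.preconnected ⟨u, hu'⟩ ⟨v0, hv'⟩
    obtain ⟨d, hd, hd1, hd2⟩ := p.exists_boundary_dart {z | z.1 ∈ U} huU hv
    have h1 := d.fst.2
    simp only [Set.mem_compl_iff, Finset.mem_coe] at h1
    apply h1
    exact Finset.mem_image.2 ⟨(d.fst.1, d.snd.1), hmem _ _ hd1 hd2 d.adj, rfl⟩
  · push Not at hUS
    have hle : U.card ≤ S.card := Finset.card_le_card hUS
    have hs1 : 1 ≤ U.card := hU.card_pos
    have hUk : U.card < k := hle.trans_lt hSc
    -- fibres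
    have hfib : ∀ u ∈ U, k + 1 - U.card ≤ (B.filter (fun p => p.1 = u)).card := by
      intro u hu
      have h1 := m8a_deg hk u (U.erase u ∪ (B.filter (fun p => p.1 = u)).image Prod.snd) ?_ ?_
      · have h2 := Finset.card_union_le (U.erase u) ((B.filter (fun p => p.1 = u)).image Prod.snd)
        have h3 := Finset.card_image_le (s := B.filter (fun p => p.1 = u)) (f := Prod.snd)
        rw [Finset.card_erase_of_mem hu] at h2
        omega
      · intro v huv
        rw [Finset.mem_union, Finset.mem_erase, Finset.mem_image]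
        by_cases hvU : v ∈ U
        · exact Or.inl ⟨huv.ne', hvU⟩
        · exact Or.inr ⟨(u, v), Finset.mem_filter.2 ⟨hmem u v hu hvU huv, rfl⟩, rfl⟩
      · rw [Finset.mem_union, Finset.mem_erase, Finset.mem_image]
        rintro (h | ⟨⟨a, b⟩, hp, hpu⟩)
        · exact h.1 rfl
        · rw [Finset.mem_filter, hB, Finset.mem_filter] at hp
          simp only at hpu hp
          rw [hpu] at hp
          exact hp.1.2.2.1 hu
    have hcard : B.card = ∑ u ∈ U, (B.filter (fun p => p.1 = u)).card := by
      apply Finset.card_eq_sum_card_fiberwise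
      intro p hp
      rw [Finset.mem_coe, hB, Finset.mem_filter] at hp
      exact hp.2.1
    have hge : U.card * (k + 1 - U.card) ≤ B.card := by
      rw [hcard]
      calc U.card * (k + 1 - U.card) = ∑ _u ∈ U, (k + 1 - U.card) := by
            rw [Finset.sum_const, smul_eq_mul]
        _ ≤ _ := Finset.sum_le_sum hfib
    have : k ≤ U.card * (k + 1 - U.card) := by
      obtain ⟨m, hm⟩ : ∃ m, k = U.card + m := ⟨k - U.card, by omega⟩
      rw [hm]
      have : U.card + m + 1 - U.card = m + 1 := by omega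
      rw [this]
      nlinarith
    omega

end

end Pool.RBE
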