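import Pool.Agent.RBE.M8
import Pool.Agent.RBE.M8A

set_option autoImplicit false

/-! [RBE-M8B] two spanning trees of a blob. -/

namespace Pool.RBE

open SimpleGraph Pool.Agent.RBC

section
variable {V : Type} [Fintype V] {G : SimpleGraph V}

/-- the edges of `(Z ∪ X)/X` -/
private def m8bP (G : SimpleGraph V) (X : Set V) (Z : Finset V) (e : Sym2 V) : Prop :=
  e ∈ G.edgeSet ∧ (∃ z ∈ Z, z ∈ e) ∧ ∀ v ∈ e, v ∈ Z ∨ v ∈ X

open Classical in
private noncomputable def m8bπ (Z : Finset V) (v : V) : Option {z // z ∈ Z} :=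
  if h : v ∈ Z then some ⟨v, h⟩ else none

omit [Fintype V] in
private theorem m8bπ_some {Z : Finset V} {v : V} (h : v ∈ Z) : m8bπ Z v = some ⟨v, h⟩ := dif_pos h

omit [Fintype V] in
private theorem m8bπ_none {Z : Finset V} {v : V} (h : v ∉ Z) : m8bπ Z v = none := dif_neg h

private noncomputable def m8bs {G : SimpleGraph V} {X : Set V} {Z : Finset V}
    (e : {e : Sym2 V // m8bP G X Z e}) : Option {z // z ∈ Z} := m8bπ Z (Quot.out e.1).1

private noncomputable def m8bt {G : SimpleGraph V} {X : Set V} {Z : Finset V}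
    (e : {e : Sym2 V // m8bP G X Z e}) : Option {z // z ∈ Z} := m8bπ Z (Quot.out e.1).2

omit [Fintype V] in
private theorem m8b_out (e : Sym2 V) : s((Quot.out e).1, (Quot.out e).2) = e := Quot.out_eq e

private theorem m8b_ends {X : Set V} {Z : Finset V} (e : {e : Sym2 V // m8bP G X Z e}) {a b : V}
    (h : s(a, b) = e.1) : (m8bs e = m8bπ Z a ∧ m8bt e = m8bπ Z b) ∨
      (m8bs e = m8bπ Z b ∧ m8bt e = m8bπ Z a) := by
  have h1 := (m8b_out e.1).trans h.symm
  rw [Sym2.eq_iff] at h1
  unfold m8bs m8bt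
  rcases h1 with ⟨h1, h2⟩ | ⟨h1, h2⟩
  · left; rw [h1, h2]; exact ⟨rfl, rfl⟩
  · right; rw [h1, h2]; exact ⟨rfl, rfl⟩

private theorem m8b_base {X : Set V} {Z : Finset V} {a b : V} (ha : a ∈ Z ∨ a ∈ X)
    (hb : b ∈ Z ∨ b ∈ X) (hab : m8bπ Z a = m8bπ Z b) :
    ∃ w : (cl G X).Walk a b, (∀ y ∈ w.support, y ∈ Z ∨ y ∈ X) ∧ ∀ e ∈ w.edges, e ∈ ins X := by
  by_cases haZ : a ∈ Z
  · by_cases hbZ : b ∈ Z
    · rw [m8bπ_some haZ, m8bπ_some hbZ] at hab
      have : a = b := by simpa using hab
      subst this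
      exact ⟨Walk.nil, by simpa using ha, by simp⟩
    · rw [m8bπ_some haZ, m8bπ_none hbZ] at hab
      exact absurd hab (by simp)
  · by_cases hbZ : b ∈ Z
    · rw [m8bπ_none haZ, m8bπ_some hbZ] at hab
      exact absurd hab (by simp)
    · have ha' : a ∈ X := ha.resolve_left haZ
      have hb' : b ∈ X := hb.resolve_left hbZ
      by_cases hne : a = b
      · subst hne
        exact ⟨Walk.nil, by simpa using ha, by simp⟩
      · refine ⟨Walk.cons (cl_adj.2 (Or.inr ⟨hne, ha', hb'⟩)) Walk.nil, ?_, ?_⟩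
        · intro y hy
          simp only [Walk.support_cons, Walk.support_nil, List.mem_cons, List.not_mem_nil,
            or_false] at hy
          rcases hy with rfl | rfl
          · exact ha
          · exact hb
        · intro e he
          simp only [Walk.edges_cons, Walk.edges_nil, List.mem_cons, List.not_mem_nil,
            or_false] at he
          subst he
          intro v hv
          rcases Sym2.mem_iff.1 hv with rfl | rfl
          · exact ha'
          · exact hb'

private theorem m8b_walk {X : Set V} {Z : Finset V} (F : Finset {e : Sym2 V // m8bP G X Z e})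
    {u : V} (hu : u ∈ Z ∨ u ∈ X) {y' : Option {z // z ∈ Z}}
    (hr : NW.Reach m8bs m8bt F (m8bπ Z u) y') :
    ∀ v, (v ∈ Z ∨ v ∈ X) → m8bπ Z v = y' →
      ∃ w : (cl G X).Walk u v, (∀ y ∈ w.support, y ∈ Z ∨ y ∈ X) ∧
        ∀ e ∈ w.edges, e ∈ F.map (Function.Embedding.subtype _) ∨ e ∈ ins X := by
  induction hr with
  | refl =>
    intro v hv h
    obtain ⟨w, h1, h2⟩ := m8b_base (G := G) hu hv h.symm
    exact ⟨w, h1, fun e he => Or.inr (h2 e he)⟩
  | @tail b' c' hbc hadj ih =>
    intro v hv h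
    obtain ⟨e, heF, hends⟩ := hadj
    obtain ⟨a, b, hab, ha, hb⟩ : ∃ a b, s(a, b) = e.1 ∧ m8bπ Z a = b' ∧ m8bπ Z b = c' := by
      rcases hends with ⟨h1, h2⟩ | ⟨h1, h2⟩
      · exact ⟨_, _, m8b_out e.1, h1, h2⟩
      · exact ⟨_, _, Sym2.eq_swap.trans (m8b_out e.1), h2, h1⟩
    have haZ : a ∈ Z ∨ a ∈ X := e.2.2.2 a (by rw [← hab]; simp)
    have hbZ : b ∈ Z ∨ b ∈ X := e.2.2.2 b (by rw [← hab]; simp)
    have hadjG : G.Adj a b := by
      have := e.2.1
      rw [← hab] at this
      exact this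
    obtain ⟨w1, h1, h2⟩ := ih a haZ ha
    obtain ⟨w2, h3, h4⟩ := m8b_base (G := G) hbZ hv (hb.trans h.symm)
    refine ⟨w1.append (Walk.cons (le_cl hadjG) w2), ?_, ?_⟩
    · intro y hy
      rw [Walk.mem_support_append_iff, Walk.support_cons, List.mem_cons] at hy
      rcases hy with hy | rfl | hy
      · exact h1 y hy
      · exact haZ
      · exact h3 y hy
    · intro e' he'
      rw [Walk.edges_append, Walk.edges_cons, List.mem_append, List.mem_cons] at he'
      rcases he' with he' | rfl | he'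
      · exact h2 e' he'
      · left
        rw [hab]
        exact Finset.mem_map.2 ⟨e, heF, rfl⟩
      · exact Or.inr (h4 e' he')

open Classical in
/-- [RBE-M8b] Two spanning trees of `(Z ∪ X)/X` with at most `#outE / 2` common edges.
Proof. `V' = Option Z` (`none` = the contracted hub), `E = {e : Sym2 V // e ∈ G.edgeSet ∧ (∃ z ∈ Z, z ∈ e) ∧ ∀ v ∈ e, v ∈ Z ∨ v ∈ X}`, `π : V → V'`, `π z = some z` for `z ∈ Z`, `none` otherwise, `s e = π (e.out.1)`, `t e = π (e.out.2)`.
All of `V'` is reachable with all edges (`hcon`, follow the walk up to its first vertex in `X`): `conn_count` gives the first hypothesis of `NW.tutte_deficiency_trees`. Second one, `d = #outE / 2`: let `f : V' → V'`, `p = |image f|`. For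
`y ∈ image f`, `y ≠ f none`: `U_y = {z ∈ Z | f (some z) = y}` is nonempty and misses `X`, so `edge_cut` (`k ≥ 4`) gives `≥ 4` pairs `(u, v)`, `u ∈ U_y`, `v ∉ U_y`, `G.Adj u v`. These sets of pairs are disjoint for different `y`: `4 (p-1)` pairs.
A pair with `v ∉ Z ∪ X` is in `outE`; the others give the edge `s(u,v) ∈ E` with `f (s e) ≠ f (t e)`, at most two pairs per edge. So `4 (p-1) ≤ 2 cross + #outE`, i.e. `2 p ≤ cross + 2 + #outE / 2`.
`F₁, F₂` of `tutte_deficiency_trees` (`card + 1 ≤ card V' = |Z| + 1`); `Fa, Fb` = images under `Subtype.val` (injective: cards and intersections are preserved). Walks: `Reach s t F₁ (π u) (π v)` gives a walk in `cl G X` with the stated edges: induction over the steps;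
a step uses `e ∈ F₁` with `π a = s e, π b = t e`; before and after `none` one moves by a virtual edge inside `X` (`X` nonempty). -/
theorem blob_trees {k : ℕ} (hk : KConn G k) (hk4 : 4 ≤ k) {X : Set V} (hX : X.Nonempty) {Z : Finset V}
    (hZX : ∀ z ∈ Z, z ∉ X)
    (hcon : ∀ z ∈ Z, ∃ x ∈ X, ∃ w : G.Walk z x, ∀ y ∈ w.support, y ∈ Z ∨ y ∈ X) :
    ∃ Fa Fb : Finset (Sym2 V), Fa.card ≤ Z.card ∧ Fb.card ≤ Z.card ∧ (Fa ∩ Fb).card ≤ (outE G Z X).card / 2 ∧
      (∀ e, e ∈ Fa ∨ e ∈ Fb → e ∈ G.edgeSet ∧ ∃ z ∈ Z, z ∈ e) ∧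
      (∀ u v, (u ∈ Z ∨ u ∈ X) → (v ∈ Z ∨ v ∈ X) → ∃ w : (cl G X).Walk u v, (∀ y ∈ w.support, y ∈ Z ∨ y ∈ X) ∧
        ∀ e ∈ w.edges, e ∈ Fa ∨ e ∈ ins X) ∧
      (∀ u v, (u ∈ Z ∨ u ∈ X) → (v ∈ Z ∨ v ∈ X) → ∃ w : (cl G X).Walk u v, (∀ y ∈ w.support, y ∈ Z ∨ y ∈ X) ∧
        ∀ e ∈ w.edges, e ∈ Fb ∨ e ∈ ins X) := by
  obtain ⟨x0, hx0⟩ := hX
  have hx0Z : x0 ∉ Z := fun h => hZX _ h hx0
  -- one edge
  have hedge : ∀ a b, (a ∈ Z ∨ a ∈ X) → (b ∈ Z ∨ b ∈ X) → G.Adj a b → (a ∈ Z ∨ b ∈ Z) →
      m8bP G X Z s(a, b) := by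
    intro a b ha hb hab hor
    refine ⟨hab, ?_, ?_⟩
    · rcases hor with h | h
      · exact ⟨a, h, by simp⟩
      · exact ⟨b, h, by simp⟩
    · intro v hv
      rcases Sym2.mem_iff.1 hv with rfl | rfl
      · exact ha
      · exact hb
  have hstep : ∀ a b, (a ∈ Z ∨ a ∈ X) → (b ∈ Z ∨ b ∈ X) → G.Adj a b →
      NW.Reach m8bs m8bt (Finset.univ : Finset {e : Sym2 V // m8bP G X Z e})
        (m8bπ Z a) (m8bπ Z b) := by
    intro a b ha hb hab
    by_cases hor : a ∈ Z ∨ b ∈ Z
    · refine Relation.ReflTransGen.single ⟨⟨s(a, b), hedge a b ha hb hab hor⟩,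
        Finset.mem_univ _, ?_⟩
      exact m8b_ends _ rfl
    · push Not at hor
      rw [m8bπ_none hor.1, m8bπ_none hor.2]
      exact Relation.ReflTransGen.refl
  have hwalk : ∀ {a b : V} (w : G.Walk a b), (∀ y ∈ w.support, y ∈ Z ∨ y ∈ X) →
      NW.Reach m8bs m8bt (Finset.univ : Finset {e : Sym2 V // m8bP G X Z e})
        (m8bπ Z a) (m8bπ Z b) := by
    intro a b w
    induction w with
    | nil => intro _; exact Relation.ReflTransGen.refl
    | @cons a b c hab w ih =>
      intro hw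
      have h1 := ih (fun y hy => hw y (by simp [hy]))
      exact (hstep a b (hw a (by simp)) (hw b (by simp)) hab).trans h1
  have hnone : ∀ x : Option {z // z ∈ Z},
      NW.Reach m8bs m8bt (Finset.univ : Finset {e : Sym2 V // m8bP G X Z e}) x none := by
    intro x
    rcases x with _ | ⟨z, hz⟩
    · exact Relation.ReflTransGen.refl
    · obtain ⟨x, hx, w, hw⟩ := hcon z hz
      have h1 := hwalk w hw
      rw [m8bπ_some hz, m8bπ_none (fun h => hZX _ h hx)] at h1
      exact h1
  have hsymm : ∀ x y : Option {z // z ∈ Z},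
      NW.Reach m8bs m8bt (Finset.univ : Finset {e : Sym2 V // m8bP G X Z e}) x y →
      NW.Reach m8bs m8bt (Finset.univ : Finset {e : Sym2 V // m8bP G X Z e}) y x := by
    intro x y h
    induction h with
    | refl => exact Relation.ReflTransGen.refl
    | tail _ h ih => exact (Relation.ReflTransGen.single h.symm).trans ih
  have hall : ∀ x y : Option {z // z ∈ Z},
      NW.Reach m8bs m8bt (Finset.univ : Finset {e : Sym2 V // m8bP G X Z e}) x y :=
    fun x y => (hnone x).trans (hsymm _ _ (hnone y))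
  have hcount : ∀ f : Option {z // z ∈ Z} → Option {z // z ∈ Z},
      2 * (Finset.univ.image f).card ≤
      ((Finset.univ : Finset {e : Sym2 V // m8bP G X Z e}).filter
        (fun e => f (m8bs e) ≠ f (m8bt e))).card + 2 + (outE G Z X).card / 2 := by
    intro f
    set CR := (Finset.univ : Finset {e : Sym2 V // m8bP G X Z e}).filter
        (fun e => f (m8bs e) ≠ f (m8bt e)) with hCR
    let U : Option {z // z ∈ Z} → Finset V := fun y => Z.filter (fun v => f (m8bπ Z v) = y)
    let C : Option {z // z ∈ Z} → Finset (V × V) := fun y =>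
      Finset.univ.filter (fun p : V × V => p.1 ∈ U y ∧ p.2 ∉ U y ∧ G.Adj p.1 p.2)
    let I := (Finset.univ.image f).erase (f none)
    have hI : (Finset.univ.image f).card = I.card + 1 := by
      rw [Finset.card_erase_add_one (Finset.mem_image_of_mem _ (Finset.mem_univ _))]
    have hC : ∀ y ∈ I, 4 ≤ (C y).card := by
      intro y hy
      obtain ⟨h1, h2⟩ := Finset.mem_erase.1 hy
      obtain ⟨v, -, rfl⟩ := Finset.mem_image.1 h2
      rcases v with _ | ⟨z, hz⟩
      · exact absurd rfl h1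
      · refine hk4.trans (edge_cut hk (U := U (f (some ⟨z, hz⟩))) ⟨z, ?_⟩ (v0 := x0) ?_)
        · exact Finset.mem_filter.2 ⟨hz, by rw [m8bπ_some hz]⟩
        · intro h
          exact hx0Z (Finset.mem_filter.1 h).1
    have hdisj : Set.PairwiseDisjoint (↑I : Set (Option {z // z ∈ Z})) C := by
      intro y _ y' _ hne
      refine Finset.disjoint_left.2 ?_
      intro p hp hp'
      have h1 := (Finset.mem_filter.1 (Finset.mem_filter.1 hp).2.1).2
      have h2 := (Finset.mem_filter.1 (Finset.mem_filter.1 hp').2.1).2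
      exact hne (h1.symm.trans h2)
    have hsum : 4 * I.card ≤ (I.biUnion C).card := by
      rw [Finset.card_biUnion hdisj]
      have := Finset.card_nsmul_le_sum I (fun y => (C y).card) 4 hC
      simpa [mul_comm] using this
    let D' : Finset (V × V) := Finset.univ.filter (fun p : V × V =>
      p.1 ∈ Z ∧ G.Adj p.1 p.2 ∧ (p.2 ∈ Z ∨ p.2 ∈ X) ∧ f (m8bπ Z p.1) ≠ f (m8bπ Z p.2))
    have hsub : I.biUnion C ⊆ outE G Z X ∪ D' := by
      intro p hp
      obtain ⟨y, hy, hp⟩ := Finset.mem_biUnion.1 hp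
      obtain ⟨-, h1, h2, h3⟩ := Finset.mem_filter.1 hp
      obtain ⟨h4, h5⟩ := Finset.mem_filter.1 h1
      have hyn : y ≠ f none := (Finset.mem_erase.1 hy).1
      rw [Finset.mem_union]
      by_cases hZX' : p.2 ∈ Z ∨ p.2 ∈ X
      · right
        refine Finset.mem_filter.2 ⟨Finset.mem_univ _, h4, h3, hZX', ?_⟩
        rw [h5]
        by_cases hpZ : p.2 ∈ Z
        · intro hh
          exact h2 (Finset.mem_filter.2 ⟨hpZ, hh.symm⟩)
        · rw [m8bπ_none hpZ]
          exact hyn
      · left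
        push Not at hZX'
        exact Finset.mem_filter.2 ⟨Finset.mem_univ _, h4, hZX'.1, hZX'.2, h3⟩
    have hD' : D'.card ≤ 2 * CR.card := by
      have h1 : D'.card ≤ 2 * (CR.map (Function.Embedding.subtype _)).card := by
        refine Finset.card_le_mul_card_image_of_maps_to (f := fun p : V × V => s(p.1, p.2)) ?_ 2 ?_
        · intro p hp
          obtain ⟨-, h1, h2, h3, h4⟩ := Finset.mem_filter.1 hp
          refine Finset.mem_map.2 ⟨⟨s(p.1, p.2), hedge _ _ (Or.inl h1) h3 h2 (Or.inl h1)⟩, ?_, rfl⟩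
          rw [hCR, Finset.mem_filter]
          refine ⟨Finset.mem_univ _, ?_⟩
          rcases m8b_ends (G := G) (X := X) (Z := Z)
            ⟨s(p.1, p.2), hedge _ _ (Or.inl h1) h3 h2 (Or.inl h1)⟩ rfl with ⟨e1, e2⟩ | ⟨e1, e2⟩
          · rw [e1, e2]; exact h4
          · rw [e1, e2]; exact h4.symm
        · intro e _
          have h2 : (D'.filter (fun p : V × V => s(p.1, p.2) = e)) ⊆
              {((Quot.out e).1, (Quot.out e).2), ((Quot.out e).2, (Quot.out e).1)} := by
            intro p hp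
            obtain ⟨-, h3⟩ := Finset.mem_filter.1 hp
            have h4 := h3.trans (m8b_out e).symm
            rw [Sym2.eq_iff] at h4
            rw [Finset.mem_insert, Finset.mem_singleton]
            rcases h4 with ⟨h4, h5⟩ | ⟨h4, h5⟩
            · left; exact Prod.ext h4 h5
            · right; exact Prod.ext h4 h5
          exact (Finset.card_le_card h2).trans Finset.card_le_two
      rwa [Finset.card_map] at h1
    have h6 := Finset.card_le_card hsub
    have h7 := Finset.card_union_le (outE G Z X) D'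
    omega
  obtain ⟨F₁, F₂, h1, h2, h3, h4, h5⟩ := NW.tutte_deficiency_trees (V := Option {z // z ∈ Z})
    (E := {e : Sym2 V // m8bP G X Z e}) m8bs m8bt ((outE G Z X).card / 2)
    (fun f => NW.conn_count m8bs m8bt hall f) hcount
  have hcardV : Fintype.card (Option {z // z ∈ Z}) = Z.card + 1 := by
    rw [Fintype.card_option, Fintype.card_coe]
  refine ⟨F₁.map (Function.Embedding.subtype _), F₂.map (Function.Embedding.subtype _), ?_, ?_, ?_,
    ?_, ?_, ?_⟩
  · rw [Finset.card_map]; omega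
  · rw [Finset.card_map]; omega
  · rw [← Finset.map_inter, Finset.card_map]
    exact h1
  · intro e he
    rcases he with he | he
    · obtain ⟨e', _, rfl⟩ := Finset.mem_map.1 he
      exact ⟨e'.2.1, e'.2.2.1⟩
    · obtain ⟨e', _, rfl⟩ := Finset.mem_map.1 he
      exact ⟨e'.2.1, e'.2.2.1⟩
  · intro u v hu hv
    exact m8b_walk F₁ hu (h4 _ _) v hv rfl
  · intro u v hu hv
    exact m8b_walk F₂ hu (h5 _ _) v hv rfl

end

end Pool.RBE
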