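import Pool.Agent.RBE.M4B

set_option autoImplicit false

/-! [RBE-M8C] the free blob. -/

namespace Pool.RBE

open SimpleGraph Pool.Agent.RBC

section
variable {V : Type}

private theorem m8c_inj {α : Type} (A : Finset α) (B : Finset ℕ) (h : A.card ≤ B.card) :
    ∃ f : α → ℕ, Set.InjOn f (↑A : Set α) ∧ ∀ a ∈ A, f a ∈ B := by
  classical
  have h1 : Fintype.card A ≤ Fintype.card B := by simpa using h
  obtain ⟨e⟩ := Function.Embedding.nonempty_of_card_le h1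
  refine ⟨fun x => if hx : x ∈ A then (e ⟨x, hx⟩ : ℕ) else 0, ?_, ?_⟩
  · intro x hx y hy hxy
    have hx' : x ∈ A := hx
    have hy' : y ∈ A := hy
    simp only [dif_pos hx', dif_pos hy'] at hxy
    have := e.injective (Subtype.ext hxy)
    exact congrArg Subtype.val this
  · intro a ha
    simp only [dif_pos ha]
    exact (e ⟨a, ha⟩).2

open Classical in
/-- [RBE-M8c] THE FREE BLOB: adding `Z` costs only the `d` common edges.
Proof. Choose `c'`: injective on `Fa ∩ Fb` with values in `Pr = [q, q + d)`, injective on `Fa \ Fb` with values in `Γa`, injective on `Fb \ Fa` with values in `Γb`, and `c' = c` on all other edges. `c'` is injective on `Fa` (`Γa ⊆ [0,q)` and `Pr` are disjoint) and on `Fb`.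
The edges of `Fa ∪ Fb` have an end in `Z`, so they are not in `ins H`. (A) `u, v ∈ H`: `h1`, `Jn.congr` (`c' = c` on `ins H`), `Jn.mono`. (B) `u, v ∈ Z ∪ X`: `Jn G' E0 c' (H ∪ Z) (Γa ∪ Pr) u v` by `Jn.of_walk` with `F = Fa` and the walk of `wa`; the same with `Γb`, `Fb`.
(C) `u ∈ Z`, `y ∈ H`: by `h2 y` either all `x ∈ X` have `Jn .. {i < q, i ∉ Γa} x y`: `Jn.trans` of (B) for `u, x` with palette `Γa ∪ Pr`; or with `Γb`. `Jn.symm` for `u ∈ H`, `v ∈ Z`. All palettes are in `{i < q + d}`. -/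
theorem free_blob {G' : SimpleGraph V} {E0 : Set (Sym2 V)} {H X : Set V} (hXH : X ⊆ H) (hX : X.Nonempty)
    (hE : ins X ⊆ E0) {c : Sym2 V → ℕ} {q : ℕ} {Γa Γb : Finset ℕ} (hab : Disjoint Γa Γb)
    (hqa : ∀ i ∈ Γa, i < q) (hqb : ∀ i ∈ Γb, i < q)
    (h1 : ∀ u ∈ H, ∀ v ∈ H, Jn G' E0 c H {i | i < q} u v)
    (h2 : ∀ y ∈ H, (∀ x ∈ X, Jn G' E0 c H {i | i < q ∧ i ∉ Γa} x y) ∨
      (∀ x ∈ X, Jn G' E0 c H {i | i < q ∧ i ∉ Γb} x y))
    {Z : Finset V} (hZ : ∀ z ∈ Z, z ∉ H) {Fa Fb : Finset (Sym2 V)} (hFa : Fa.card ≤ Γa.card)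
    (hFb : Fb.card ≤ Γb.card) {d : ℕ} (hd : (Fa ∩ Fb).card ≤ d) (hFZ : ∀ e, e ∈ Fa ∨ e ∈ Fb → ∃ z ∈ Z, z ∈ e)
    (wa : ∀ u v, (u ∈ Z ∨ u ∈ X) → (v ∈ Z ∨ v ∈ X) → ∃ w : G'.Walk u v, (∀ y ∈ w.support, y ∈ Z ∨ y ∈ X) ∧
        ∀ e ∈ w.edges, e ∈ Fa ∨ e ∈ ins X)
    (wb : ∀ u v, (u ∈ Z ∨ u ∈ X) → (v ∈ Z ∨ v ∈ X) → ∃ w : G'.Walk u v, (∀ y ∈ w.support, y ∈ Z ∨ y ∈ X) ∧
        ∀ e ∈ w.edges, e ∈ Fb ∨ e ∈ ins X) :
    FRb G' E0 (H ∪ {z | z ∈ Z}) (q + d) := by
  obtain ⟨fa, fa1, fa2⟩ := m8c_inj (Fa \ Fb) Γa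
    ((Finset.card_le_card Finset.sdiff_subset).trans hFa)
  obtain ⟨fb, fb1, fb2⟩ := m8c_inj (Fb \ Fa) Γb
    ((Finset.card_le_card Finset.sdiff_subset).trans hFb)
  obtain ⟨fc, fc1, fc2⟩ := m8c_inj (Fa ∩ Fb) (Finset.range d) (by simpa using hd)
  let c' : Sym2 V → ℕ := fun e =>
    if e ∈ Fa ∧ e ∈ Fb then q + fc e else if e ∈ Fa then fa e else if e ∈ Fb then fb e else c e
  have hcab : ∀ e, e ∈ Fa → e ∈ Fb → c' e = q + fc e ∧ fc e < d := by
    intro e ha hb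
    refine ⟨by simp only [c']; rw [if_pos ⟨ha, hb⟩], ?_⟩
    simpa using fc2 e (Finset.mem_inter.2 ⟨ha, hb⟩)
  have hca : ∀ e, e ∈ Fa → e ∉ Fb → c' e = fa e ∧ fa e ∈ Γa := by
    intro e ha hb
    refine ⟨by simp only [c']; rw [if_neg (fun h => hb h.2), if_pos ha], ?_⟩
    exact fa2 e (Finset.mem_sdiff.2 ⟨ha, hb⟩)
  have hcb : ∀ e, e ∉ Fa → e ∈ Fb → c' e = fb e ∧ fb e ∈ Γb := by
    intro e ha hb
    refine ⟨by simp only [c']; rw [if_neg (fun h => ha h.1), if_neg ha, if_pos hb], ?_⟩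
    exact fb2 e (Finset.mem_sdiff.2 ⟨hb, ha⟩)
  have hcc : ∀ e, e ∉ Fa → e ∉ Fb → c' e = c e := by
    intro e ha hb
    simp only [c']
    rw [if_neg (fun h => ha h.1), if_neg ha, if_neg hb]
  have hinja : Set.InjOn c' (↑Fa : Set (Sym2 V)) := by
    intro e he e' he' hee
    have he1 : e ∈ Fa := he
    have he1' : e' ∈ Fa := he'
    by_cases hb : e ∈ Fb <;> by_cases hb' : e' ∈ Fb
    · have x1 := hcab e he1 hb
      have x2 := hcab e' he1' hb'
      exact fc1 (Finset.mem_coe.2 (Finset.mem_inter.2 ⟨he1, hb⟩)) (Finset.mem_coe.2 (Finset.mem_inter.2 ⟨he1', hb'⟩))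
        (by omega)
    · have x1 := hcab e he1 hb
      have x2 := hca e' he1' hb'
      have := hqa _ x2.2
      omega
    · have x1 := hca e he1 hb
      have x2 := hcab e' he1' hb'
      have := hqa _ x1.2
      omega
    · have x1 := hca e he1 hb
      have x2 := hca e' he1' hb'
      exact fa1 (Finset.mem_coe.2 (Finset.mem_sdiff.2 ⟨he1, hb⟩)) (Finset.mem_coe.2 (Finset.mem_sdiff.2 ⟨he1', hb'⟩))
        (by omega)
  have hinjb : Set.InjOn c' (↑Fb : Set (Sym2 V)) := by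
    intro e he e' he' hee
    have he1 : e ∈ Fb := he
    have he1' : e' ∈ Fb := he'
    by_cases hb : e ∈ Fa <;> by_cases hb' : e' ∈ Fa
    · have x1 := hcab e hb he1
      have x2 := hcab e' hb' he1'
      exact fc1 (Finset.mem_coe.2 (Finset.mem_inter.2 ⟨hb, he1⟩)) (Finset.mem_coe.2 (Finset.mem_inter.2 ⟨hb', he1'⟩))
        (by omega)
    · have x1 := hcab e hb he1
      have x2 := hcb e' hb' he1'
      have := hqb _ x2.2
      omega
    · have x1 := hcb e hb he1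
      have x2 := hcab e' hb' he1'
      have := hqb _ x1.2
      omega
    · have x1 := hcb e hb he1
      have x2 := hcb e' hb' he1'
      exact fb1 (Finset.mem_coe.2 (Finset.mem_sdiff.2 ⟨he1, hb⟩)) (Finset.mem_coe.2 (Finset.mem_sdiff.2 ⟨he1', hb'⟩))
        (by omega)
  let Pr : Set ℕ := {i | q ≤ i ∧ i < q + d}
  have hvala : ∀ e ∈ (↑Fa : Set (Sym2 V)), c' e ∈ (↑Γa ∪ Pr : Set ℕ) := by
    intro e he
    have he1 : e ∈ Fa := he
    by_cases hb : e ∈ Fb
    · have := hcab e he1 hb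
      right
      show q ≤ c' e ∧ c' e < q + d
      omega
    · have := hca e he1 hb
      left
      rw [this.1]
      exact this.2
  have hvalb : ∀ e ∈ (↑Fb : Set (Sym2 V)), c' e ∈ (↑Γb ∪ Pr : Set ℕ) := by
    intro e he
    have he1 : e ∈ Fb := he
    by_cases hb : e ∈ Fa
    · have := hcab e hb he1
      right
      show q ≤ c' e ∧ c' e < q + d
      omega
    · have := hcb e hb he1
      left
      rw [this.1]
      exact this.2
  have hsub : ∀ y, (y ∈ Z ∨ y ∈ X) → y ∈ H ∪ {z | z ∈ Z} := by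
    intro y hy
    rcases hy with hy | hy
    · exact Or.inr hy
    · exact Or.inl (hXH hy)
  -- (B)
  have hBa : ∀ u v, (u ∈ Z ∨ u ∈ X) → (v ∈ Z ∨ v ∈ X) →
      Jn G' E0 c' (H ∪ {z | z ∈ Z}) (↑Γa ∪ Pr) u v := by
    intro u v hu hv
    obtain ⟨w, w1, w2⟩ := wa u v hu hv
    refine Jn.of_walk w (fun x hx => hsub x (w1 x hx)) (↑Fa) ?_ hinja hvala
    intro e he heE
    rcases w2 e he with h | h
    · exact h
    · exact absurd (hE h) heE
  have hBb : ∀ u v, (u ∈ Z ∨ u ∈ X) → (v ∈ Z ∨ v ∈ X) →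
      Jn G' E0 c' (H ∪ {z | z ∈ Z}) (↑Γb ∪ Pr) u v := by
    intro u v hu hv
    obtain ⟨w, w1, w2⟩ := wb u v hu hv
    refine Jn.of_walk w (fun x hx => hsub x (w1 x hx)) (↑Fb) ?_ hinjb hvalb
    intro e he heE
    rcases w2 e he with h | h
    · exact h
    · exact absurd (hE h) heE
  -- (A)
  have hA : ∀ (Γ : Set ℕ) (u v : V), Jn G' E0 c H Γ u v → Jn G' E0 c' (H ∪ {z | z ∈ Z}) Γ u v := by
    intro Γ u v h
    have h' : Jn G' E0 c' H Γ u v := by
      refine Jn.congr ?_ h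
      intro e _ heH _ _
      have hnot : ∀ e, e ∈ Fa ∨ e ∈ Fb → e ∉ ins H := by
        intro e he h3
        obtain ⟨z, hz, hze⟩ := hFZ e he
        exact hZ z hz (h3 z hze)
      exact hcc e (fun h => hnot e (Or.inl h) heH) (fun h => hnot e (Or.inr h) heH)
    exact Jn.mono le_rfl subset_rfl Set.subset_union_left subset_rfl h'
  have hPa : (↑Γa ∪ Pr : Set ℕ) ⊆ {i | i < q + d} := by
    rintro i (hi | hi)
    · have := hqa i hi
      show i < q + d
      omega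
    · exact hi.2
  have hPb : (↑Γb ∪ Pr : Set ℕ) ⊆ {i | i < q + d} := by
    rintro i (hi | hi)
    · have := hqb i hi
      show i < q + d
      omega
    · exact hi.2
  -- (C)
  have hC : ∀ u ∈ Z, ∀ y ∈ H, Jn G' E0 c' (H ∪ {z | z ∈ Z}) {i | i < q + d} u y := by
    intro u hu y hy
    obtain ⟨x, hx⟩ := hX
    rcases h2 y hy with h | h
    · have e1 := hBa u x (Or.inl hu) (Or.inr hx)
      have e2 := hA _ _ _ (h x hx)
      refine Jn.mono le_rfl subset_rfl subset_rfl ?_ (Jn.trans ?_ e1 e2)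
      · apply Set.union_subset hPa
        rintro i ⟨hi, _⟩
        show i < q + d
        omega
      · rw [Set.disjoint_left]
        rintro i (hi | hi) ⟨h3, h4⟩
        · exact h4 hi
        · have := hi.1
          omega
    · have e1 := hBb u x (Or.inl hu) (Or.inr hx)
      have e2 := hA _ _ _ (h x hx)
      refine Jn.mono le_rfl subset_rfl subset_rfl ?_ (Jn.trans ?_ e1 e2)
      · apply Set.union_subset hPb
        rintro i ⟨hi, _⟩
        show i < q + d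
        omega
      · rw [Set.disjoint_left]
        rintro i (hi | hi) ⟨h3, h4⟩
        · exact h4 hi
        · have := hi.1
          omega
  refine ⟨c', ?_⟩
  rintro u (hu | hu) v (hv | hv)
  · refine Jn.mono le_rfl subset_rfl subset_rfl ?_ (hA _ _ _ (h1 u hu v hv))
    intro i hi
    have : i < q := hi
    show i < q + d
    omega
  · exact (hC v hv u hu).symm
  · exact hC u hu v hv
  · exact Jn.mono le_rfl subset_rfl subset_rfl hPa (hBa u v (Or.inl hu) (Or.inl hv))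

end

end Pool.RBE
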