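import Pool.Agent.RBE.M4A

set_option autoImplicit false

/-! [RBE-M5A] sides of a hub: heights, vertical paths. -/

namespace Pool.RBE

open SimpleGraph Pool.Agent.RBC

section
variable {V : Type} {G : SimpleGraph V} {X A : Set V} {h : V → ℕ}

/-- [RBE-M5a] Proof. `h v = ` the least `n` such that some `x ∈ X` has `G.dist v x = n`, for `v ∈ A`, and `0` outside `A`. -/
theorem side_exists (hX : X.Nonempty) (hn : ∀ a ∈ A, ∀ b, G.Adj a b → b ∈ A ∨ b ∈ X) (hd : ∀ a ∈ A, a ∉ X) :
    ∃ h : V → ℕ, Side G X A h := by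
  classical
  have hmem : ∀ v : V, sInf {n | ∃ x ∈ X, G.dist v x = n} ∈ {n | ∃ x ∈ X, G.dist v x = n} := by
    intro v
    apply Nat.sInf_mem
    obtain ⟨x, hx⟩ := hX
    exact ⟨G.dist v x, x, hx, rfl⟩
  refine ⟨fun v => if v ∈ A then sInf {n | ∃ x ∈ X, G.dist v x = n} else 0, hn, hd, ?_, ?_, ?_⟩
  · intro v hv
    exact if_neg hv
  · intro v hv x hx
    simp only [if_pos hv]
    exact Nat.sInf_le ⟨x, hx, rfl⟩
  · intro v hv
    simp only [if_pos hv]
    obtain ⟨x, hx, e⟩ := hmem v
    exact ⟨x, hx, e⟩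

/-- [RBE-M5b] Proof. `u ∉ A`: `h u = 0`. `u ∈ A`, `v ∈ A`: `x` from `att v`, `h u ≤ dist u x ≤ 1 + dist v x`. `u ∈ A`, `v ∉ A`: `v ∈ X` by `nbr`,
`h u ≤ dist u v = 1`. -/
theorem side_lip (hG : G.Connected) (hS : Side G X A h) {u v : V} (huv : G.Adj u v) : h u ≤ h v + 1 := by
  have hd : G.dist u v = 1 := SimpleGraph.dist_eq_one_iff_adj.2 huv
  by_cases hu : u ∈ A
  · by_cases hv : v ∈ A
    · obtain ⟨x, hx, e⟩ := hS.att v hv
      have h1 := hS.low u hu x hx
      have h2 := hG.dist_triangle (u := u) (v := v) (w := x)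
      omega
    · have hvX : v ∈ X := (hS.nbr u hu v huv).resolve_left hv
      have h1 := hS.low u hu v hvX
      omega
  · rw [hS.out u hu]
    omega

/-- [RBE-M5c] Proof. Along a walk of length `dist u v`. -/
theorem side_lip_dist (hG : G.Connected) (hS : Side G X A h) (u v : V) : h u ≤ h v + G.dist u v := by
  obtain ⟨w, hw⟩ := hG.exists_walk_length_eq_dist u v
  rw [← hw]
  clear hw
  induction w with
  | nil => simp
  | cons huv w ih =>
    have h1 := side_lip hG hS huv
    rw [SimpleGraph.Walk.length_cons]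
    omega

/-- [RBE-M5d] Proof. `att v` gives `x ∈ X` with `dist v x = h v`; if `h v = 0` then `v = x ∈ X`, contradiction to `dis`. -/
theorem side_pos (hG : G.Connected) (hS : Side G X A h) {v : V} (hv : v ∈ A) : 0 < h v := by
  obtain ⟨x, hx, e⟩ := hS.att v hv
  rcases Nat.eq_zero_or_pos (h v) with h0 | h0
  · exfalso
    rw [h0] at e
    have h1 : v = x := hG.dist_eq_zero_iff.1 e
    rw [← h1] at hx
    exact hS.dis v hv hx
  · exact h0

/-- [RBE-M5e] vertices at positive height can go down inside `A` or into `X`, one unit.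
Proof. `v ∈ A` (`out`), `x` from `att v`, `u` the second vertex of a geodesic walk from `v` to `x`: `dist u x = h v - 1`. By `nbr` `u ∈ A` or `u ∈ X`.
If `u ∈ A`: `h u ≤ dist u x = h v - 1` and `h v ≤ h u + 1`. If `u ∈ X`: `h u = 0` (`dis`, `out`) and `h v ≤ dist v u = 1`. -/
theorem side_down (hG : G.Connected) (hS : Side G X A h) {v : V} (hv : 0 < h v) :
    ∃ u, G.Adj v u ∧ h u + 1 = h v ∧ (u ∈ A ∨ u ∈ X) := by
  have hvA : v ∈ A := by
    by_contra hvA
    rw [hS.out v hvA] at hv
    exact lt_irrefl 0 hv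
  obtain ⟨x, hx, e⟩ := hS.att v hvA
  obtain ⟨w, hw⟩ := hG.exists_walk_length_eq_dist v x
  cases w with
  | nil =>
    rw [SimpleGraph.Walk.length_nil] at hw
    omega
  | @cons _ u _ hvu w =>
    rw [SimpleGraph.Walk.length_cons] at hw
    have h1 : G.dist u x ≤ w.length := SimpleGraph.dist_le w
    rcases hS.nbr v hvA u hvu with huA | huX
    · have h2 := hS.low u huA x hx
      have h3 := side_lip hG hS hvu
      exact ⟨u, hvu, by omega, Or.inl huA⟩
    · have h2 : h u = 0 := hS.out u fun huA => hS.dis u huA huX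
      have h3 := hS.low v hvA u huX
      have h4 : G.dist v u = 1 := SimpleGraph.dist_eq_one_iff_adj.2 hvu
      exact ⟨u, hvu, by omega, Or.inr huX⟩

theorem m5a_path (hG : G.Connected) (hS : Side G X A h) (n : ℕ) : ∀ v, (v ∈ A ∨ v ∈ X) → h v = n →
    ∃ P : ℕ → V, P 0 ∈ X ∧ (∀ t, 1 ≤ t → t ≤ n → P t ∈ A) ∧ (∀ t, t ≤ n → h (P t) = t) ∧
      (∀ t, t < n → G.Adj (P t) (P (t + 1))) ∧ P n = v := by
  induction n with
  | zero =>
    intro v hv h0
    have hvX : v ∈ X := by
      rcases hv with hv | hv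
      · have := side_pos hG hS hv
        omega
      · exact hv
    refine ⟨fun _ => v, hvX, ?_, ?_, ?_, rfl⟩
    · intro t h1 h2
      omega
    · intro t ht
      have : t = 0 := by omega
      rw [this]
      exact h0
    · intro t ht
      omega
  | succ n ih =>
    intro v hv h0
    have hvA : v ∈ A := by
      by_contra hvA
      have := hS.out v hvA
      omega
    obtain ⟨u, hvu, hu, huA⟩ := side_down hG hS (v := v) (by omega)
    obtain ⟨P, p1, p2, p3, p4, p5⟩ := ih u huA (by omega)
    refine ⟨fun t => if t ≤ n then P t else v, ?_, ?_, ?_, ?_, ?_⟩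
    · simp only [Nat.zero_le, if_true]
      exact p1
    · intro t h1 h2
      by_cases ht : t ≤ n
      · simp only [if_pos ht]
        exact p2 t h1 ht
      · simp only [if_neg ht]
        exact hvA
    · intro t h2
      by_cases ht : t ≤ n
      · simp only [if_pos ht]
        exact p3 t ht
      · simp only [if_neg ht]
        omega
    · intro t h2
      by_cases ht : t + 1 ≤ n
      · have ht' : t ≤ n := by omega
        simp only [if_pos ht, if_pos ht']
        exact p4 t (by omega)
      · have ht' : t ≤ n := by omega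
        have htn : t = n := by omega
        simp only [if_neg ht, if_pos ht']
        rw [htn, p5]
        exact hvu.symm
    · have : ¬ (n + 1 ≤ n) := by omega
      simp only [if_neg this]

/-- [RBE-M5f] vertical path down from a vertex of height at least `T`.
Proof. Iterate `side_down` from `a`: a sequence `y_0 = a, y_1, …` with `h (y_j) = h a - j`, `y_{h a} ∈ X`. (`h > 0` means `∈ A`, so the last
one, of height `0`, is in `X`: for `h a ≥ 1` it comes from `side_down` with `u ∈ A` impossible by `side_pos`; if `h a = 0`, then `a ∉ A`, excluded by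
`ha : a ∈ A`.) `P t = y_{h a - t}`. -/
theorem side_path (hG : G.Connected) (hS : Side G X A h) {a : V} (ha : a ∈ A) {T : ℕ} (hT : T ≤ h a) :
    ∃ P : ℕ → V, P 0 ∈ X ∧ (∀ t, 1 ≤ t → t ≤ T → P t ∈ A) ∧ (∀ t, t ≤ T → h (P t) = t) ∧
      ∀ t, t < T → G.Adj (P t) (P (t + 1)) := by
  obtain ⟨P, h1, h2, h3, h4, _⟩ := m5a_path hG hS (h a) a (Or.inl ha) rfl
  exact ⟨P, h1, fun t ht1 ht2 => h2 t ht1 (ht2.trans hT), fun t ht => h3 t (ht.trans hT),
    fun t ht => h4 t (lt_of_lt_of_le ht hT)⟩

theorem m5a_walk (hG : G.Connected) (hS : Side G X A h) {u v : V} (w : (cl G X).Walk u v) : h u ≤ h v + w.length := by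
  induction w with
  | nil => simp
  | cons huv w ih =>
    rw [SimpleGraph.Walk.length_cons]
    rcases cl_adj.1 huv with h1 | ⟨_, h1, _⟩
    · have h2 := side_lip hG hS h1
      omega
    · rw [hS.out _ fun hA => hS.dis _ hA h1]
      omega

/-- [RBE-M5g] Proof. `w` the walk of `Rb` in `cl G X` from `a` to `x ∈ X`, `w.length ≤ q` (distinct colours `< q`, `List.Nodup`, pigeonhole). Along every edge of
`cl G X` the height changes by at most one (`side_lip` for edges of `G`; both ends in `X` have height `0` for virtual edges). `h x = 0`. -/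
theorem side_rb (hG : G.Connected) (hS : Side G X A h) {D : Set V} {q : ℕ} (hD : Rb (cl G X) D q) (hXD : X ⊆ D)
    (hX : X.Nonempty) {a : V} (ha : a ∈ D) : h a ≤ q := by
  obtain ⟨c, hc⟩ := hD
  obtain ⟨x, hx⟩ := hX
  obtain ⟨w, hw1, hw2, hw3⟩ := hc a ha x (hXD hx)
  have hlen : w.length ≤ q := by
    have h1 : (w.edges.map c).toFinset ⊆ Finset.range q := by
      intro i hi
      rw [List.mem_toFinset, List.mem_map] at hi
      obtain ⟨e, he, rfl⟩ := hi
      exact Finset.mem_range.2 (hw3 e he)
    have h2 := Finset.card_le_card h1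
    rw [List.toFinset_card_of_nodup hw2, List.length_map, SimpleGraph.Walk.length_edges, Finset.card_range] at h2
    exact h2
  have hx0 : h x = 0 := hS.out x fun hxA => hS.dis x hxA hx
  have hwl := m5a_walk hG hS w
  omega

end

end Pool.RBE
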