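import Pool.Agent.RBE.M8
import Pool.Agent.RBE.M5A
import Pool.Agent.RBE.RS

set_option autoImplicit false

/-! [RBE-M9A] existence of the blob. -/

namespace Pool.RBE

open SimpleGraph Pool.Agent.RBC

private theorem m9a_path {V : Type} {G : SimpleGraph V} {P : ℕ → V} {T : ℕ}
    (hadj : ∀ t, t < T → G.Adj (P t) (P (t + 1))) :
    ∀ n, n ≤ T → Rb G {v | ∃ t, t ≤ n ∧ v = P t} n := by
  intro n
  induction n with
  | zero =>
    intro _
    have e : {v | ∃ t, t ≤ 0 ∧ v = P t} = ({P 0} : Set V) := by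
      ext v
      rw [Set.mem_singleton_iff]
      constructor
      · rintro ⟨t, ht, rfl⟩
        rw [Nat.le_zero.1 ht]
      · rintro rfl
        exact ⟨0, le_refl _, rfl⟩
    rw [e]
    exact rb_singleton _
  | succ n ih =>
    intro hn
    have h1 := rb_walk (ih (by omega)) (a := P n) (b := P (n + 1)) ⟨n, le_refl _, rfl⟩
      (Walk.cons (hadj n (by omega)) Walk.nil)
    have e : {v | ∃ t, t ≤ n ∧ v = P t} ∪
        {x | x ∈ (Walk.cons (hadj n (by omega)) Walk.nil : G.Walk (P n) (P (n + 1))).support} =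
        ({v | ∃ t, t ≤ n + 1 ∧ v = P t} : Set V) := by
      ext v
      rw [Set.mem_union]
      constructor
      · rintro (⟨t, ht, rfl⟩ | hv)
        · exact ⟨t, by omega, rfl⟩
        · have hv' : v ∈ (Walk.cons (hadj n (by omega)) Walk.nil : G.Walk (P n) (P (n + 1))).support := hv
          rw [Walk.support_cons, Walk.support_nil, List.mem_cons, List.mem_singleton] at hv'
          rcases hv' with rfl | rfl
          · exact ⟨n, by omega, rfl⟩
          · exact ⟨n + 1, le_refl _, rfl⟩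
      · rintro ⟨t, ht, rfl⟩
        rcases Nat.eq_or_lt_of_le ht with h | h
        · right
          rw [h]
          show P (n + 1) ∈ (Walk.cons (hadj n (by omega)) Walk.nil : G.Walk (P n) (P (n + 1))).support
          rw [Walk.support_cons, Walk.support_nil]
          simp
        · left
          exact ⟨t, by omega, rfl⟩
    rw [← e]
    simpa using h1

private theorem m9a_stop {V : Type} {G : SimpleGraph V} {X A : Set V} {Z : Finset V}
    (hn : ∀ a ∈ A, ∀ b, G.Adj a b → b ∈ A ∨ b ∈ X) {z x : V} (w : G.Walk z x) (hx : x ∈ X)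
    (hz : z ∈ A ∨ z ∈ X) (hw : ∀ v ∈ w.support, v ∈ A → v ∈ Z) :
    ∃ x' ∈ X, ∃ w' : G.Walk z x', ∀ y ∈ w'.support, y ∈ Z ∨ y ∈ X := by
  induction w with
  | nil =>
    refine ⟨_, hx, Walk.nil, ?_⟩
    intro y hy
    rw [Walk.support_nil, List.mem_singleton] at hy
    rw [hy]; exact Or.inr hx
  | @cons a b c hab p ih =>
    by_cases hzX : a ∈ X
    · refine ⟨a, hzX, Walk.nil, ?_⟩
      intro y hy
      rw [Walk.support_nil, List.mem_singleton] at hy
      rw [hy]; exact Or.inr hzX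
    · have hzA : a ∈ A := hz.resolve_right hzX
      obtain ⟨x', hx', w', hw'⟩ := ih hx (hn a hzA b hab) (fun v hv => hw v (by
        rw [Walk.support_cons]; exact List.mem_cons_of_mem _ hv))
      refine ⟨x', hx', Walk.cons hab w', ?_⟩
      intro y hy
      rw [Walk.support_cons, List.mem_cons] at hy
      rcases hy with rfl | hy
      · exact Or.inl (hw _ (by rw [Walk.support_cons]; exact List.mem_cons_self) hzA)
      · exact hw' y hy

private theorem m9a_down {V : Type} {G : SimpleGraph V} {P : ℕ → V} {T : ℕ}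
    (hadj : ∀ t, t < T → G.Adj (P t) (P (t + 1))) :
    ∀ n, n ≤ T → ∃ w : G.Walk (P n) (P 0), ∀ y ∈ w.support, ∃ s, s ≤ n ∧ y = P s := by
  intro n
  induction n with
  | zero =>
    intro _
    refine ⟨Walk.nil, ?_⟩
    intro y hy
    rw [Walk.support_nil, List.mem_singleton] at hy
    exact ⟨0, le_rfl, hy⟩
  | succ n ih =>
    intro hn
    obtain ⟨w, hw⟩ := ih (by omega)
    refine ⟨Walk.cons (hadj n (by omega)).symm w, ?_⟩
    intro y hy
    rw [Walk.support_cons, List.mem_cons] at hy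
    rcases hy with rfl | hy
    · exact ⟨n + 1, le_rfl, rfl⟩
    · obtain ⟨s, hs, h⟩ := hw y hy
      exact ⟨s, by omega, h⟩

/-- [RBE-M9a] The blob in a tall side.
Proof. `C1` from `slack` with `R = 1` (`D = {v}`, `q = 0`: `|nbh G {v} 1| < C1`, so all degrees are `< C1`). `R1 = (k+1) K' C1 + 1`, `C` from `slack` with `R = R1`, `ℓ0 = C + 1`. For `R ≤ R1` let `N_R = {v ∈ A | ∃ t ≤ ℓ, dist v (P t) ≤ R}`.
`Rb G {P t | t ≤ ℓ} ℓ`, so `|N_{R1}| ≤ |nbh| < k ℓ + C ≤ (k+1) ℓ`; `Σ_{R < R1} |N_{R+1} \ N_R| ≤ (k+1) ℓ`, so some `R < R1` has `R1 |N_{R+1} \ N_R| ≤ (k+1) ℓ`. `Z = N_R`: contains `P 1, …, P ℓ` (distinct). A pair `(z, v)` of `outE G Z X`: `v ∈ A` (`nbr`), `v ∈ N_{R+1} \ N_R`,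
so `#outE ≤ C1 |N_{R+1} \ N_R|` and `K' #outE ≤ K' C1 (k+1) ℓ / R1 ≤ ℓ ≤ |Z|`. Walk from `z ∈ Z` to `X`: geodesic from `z` to `P t` (all its vertices are within `R` of `P t`), then `P t, P (t-1), …, P 0 ∈ X`; stop at the first vertex in `X`; the vertices before it are in `A` (`nbr`), so in `N_R = Z`. -/
theorem blob (k : ℕ) (hk : 3 ≤ k) (K' : ℕ) :
    ∃ ℓ0 : ℕ, ∀ (V : Type) [Fintype V] (G : SimpleGraph V), KConn G k → Irr G k →
      ∀ (X A : Set V) (h : V → ℕ) (P : ℕ → V) (ℓ : ℕ), ℓ0 ≤ ℓ → Side G X A h → P 0 ∈ X →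
      (∀ t, 1 ≤ t → t ≤ ℓ → P t ∈ A) → (∀ t, t ≤ ℓ → h (P t) = t) → (∀ t, t < ℓ → G.Adj (P t) (P (t + 1))) →
      ∃ Z : Finset V, (∀ z ∈ Z, z ∈ A) ∧ ℓ ≤ Z.card ∧ Z.card ≤ (k + 1) * ℓ ∧ K' * (outE G Z X).card ≤ Z.card ∧
        ∀ z ∈ Z, ∃ x ∈ X, ∃ w : G.Walk z x, ∀ y ∈ w.support, y ∈ Z ∨ y ∈ X := by
  classical
  obtain ⟨C1, hC1⟩ := slack k hk 1
  obtain ⟨C, hC⟩ := slack k hk ((k + 1) * K' * C1 + 1)
  refine ⟨C + 1, ?_⟩
  intro V _ G hkc hirr X A h P ℓ hℓ hS hP0 hPA hPh hadj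
  have hG : G.Connected := kconn_connected hkc (by omega)
  obtain ⟨R1, hR1⟩ : ∃ R1, R1 = (k + 1) * K' * C1 + 1 := ⟨_, rfl⟩
  rw [← hR1] at hC
  have hdeg : ∀ v : V, (nbh G {v} 1).card ≤ C1 := by
    intro v
    have h1 := hC1 V G hkc hirr {v} 0 ⟨v, rfl⟩ (rb_singleton v)
    omega
  have hRb : Rb G {v | ∃ t, t ≤ ℓ ∧ v = P t} ℓ := m9a_path hadj ℓ le_rfl
  have hsl := hC V G hkc hirr {v | ∃ t, t ≤ ℓ ∧ v = P t} ℓ ⟨P 0, 0, Nat.zero_le _, rfl⟩ hRb
  let NR : ℕ → Finset V := fun R => Finset.univ.filter (fun v => v ∈ A ∧ ∃ t, t ≤ ℓ ∧ G.dist v (P t) ≤ R)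
  have hNR : ∀ R v, v ∈ NR R ↔ v ∈ A ∧ ∃ t, t ≤ ℓ ∧ G.dist v (P t) ≤ R := by
    intro R v
    simp [NR]
  have hmono : ∀ R R', R ≤ R' → NR R ⊆ NR R' := by
    intro R R' hRR v hv
    rw [hNR] at hv ⊢
    obtain ⟨h1, t, h2, h3⟩ := hv
    exact ⟨h1, t, h2, by omega⟩
  have hbig : (NR R1).card ≤ (k + 1) * ℓ := by
    have h1 : NR R1 ⊆ nbh G {v | ∃ t, t ≤ ℓ ∧ v = P t} R1 := by
      intro v hv
      rw [hNR] at hv
      obtain ⟨h1, t, h2, h3⟩ := hv
      unfold nbh
      simp only [Finset.mem_filter, Finset.mem_univ, true_and]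
      exact ⟨P t, ⟨t, h2, rfl⟩, h3⟩
    have h2 := Finset.card_le_card h1
    have h3 : (k + 1) * ℓ = k * ℓ + ℓ := by ring
    omega
  have htel : ∀ n, ∑ R ∈ Finset.range n, (NR (R + 1) \ NR R).card ≤ (NR n).card := by
    intro n
    induction n with
    | zero => simp
    | succ n ih =>
      rw [Finset.sum_range_succ]
      have h1 := Finset.card_sdiff_add_card_eq_card (hmono n (n + 1) (by omega))
      omega
  obtain ⟨R, hR, hsh⟩ : ∃ R, R < R1 ∧ R1 * (NR (R + 1) \ NR R).card ≤ (k + 1) * ℓ := by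
    by_contra hcon
    push Not at hcon
    have h1 : ∑ R ∈ Finset.range R1, ((k + 1) * ℓ + 1) ≤ ∑ R ∈ Finset.range R1, R1 * (NR (R + 1) \ NR R).card := by
      apply Finset.sum_le_sum
      intro i hi
      exact hcon i (Finset.mem_range.1 hi)
    rw [← Finset.mul_sum, Finset.sum_const, Finset.card_range, smul_eq_mul] at h1
    have h2 := Nat.mul_le_mul_left R1 ((htel R1).trans hbig)
    have h3 : R1 * ((k + 1) * ℓ + 1) = R1 * ((k + 1) * ℓ) + R1 := by ring
    have h4 : 0 < R1 := by rw [hR1]; omega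
    omega
  have hgeo : ∀ z ∈ NR R, ∃ x ∈ X, ∃ w : G.Walk z x, ∀ y ∈ w.support, y ∈ NR R ∨ y ∈ X := by
    intro z hz
    have hz' := (hNR R z).1 hz
    obtain ⟨hzA, t, ht, hd⟩ := hz'
    obtain ⟨w1, hw1⟩ := hG.exists_walk_length_eq_dist z (P t)
    obtain ⟨w2, hw2⟩ := m9a_down hadj t ht
    refine m9a_stop hS.nbr (w1.append w2) hP0 (Or.inl hzA) ?_
    intro v hv hvA
    rw [Walk.mem_support_append_iff] at hv
    rcases hv with hv | hv
    · refine (hNR R v).2 ⟨hvA, t, ht, ?_⟩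
      have h1 : G.dist v (P t) ≤ (w1.dropUntil v hv).length := SimpleGraph.dist_le _
      have h2 := w1.length_dropUntil_le hv
      omega
    · obtain ⟨s', hs', h1⟩ := hw2 v hv
      refine (hNR R v).2 ⟨hvA, s', by omega, ?_⟩
      rw [h1]; simp
  refine ⟨NR R, fun z hz => ((hNR R z).1 hz).1, ?_, (Finset.card_le_card (hmono R R1 hR.le)).trans hbig, ?_, hgeo⟩
  · have h1 : (Finset.Icc 1 ℓ).card ≤ (NR R).card := by
      apply Finset.card_le_card_of_injOn P
      · intro t ht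
        rw [Finset.coe_Icc, Set.mem_Icc] at ht
        rw [Finset.mem_coe, hNR]
        exact ⟨hPA t ht.1 ht.2, t, ht.2, by simp⟩
      · intro t ht t' ht' htt
        rw [Finset.coe_Icc, Set.mem_Icc] at ht ht'
        rw [← hPh t ht.2, ← hPh t' ht'.2, htt]
    simpa using h1
  · have hsub : outE G (NR R) X ⊆ (NR (R + 1) \ NR R).biUnion (fun v => (nbh G {v} 1).image (fun z => (z, v))) := by
      rintro ⟨z, v⟩ hzv
      unfold outE at hzv
      simp only [Finset.mem_filter, Finset.mem_univ, true_and] at hzv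
      obtain ⟨h1, h2, h3, h4⟩ := hzv
      obtain ⟨hzA, t, ht, hd⟩ := (hNR R z).1 h1
      have hvA : v ∈ A := (hS.nbr z hzA v h4).resolve_right h3
      refine Finset.mem_biUnion.2 ⟨v, ?_, ?_⟩
      · rw [Finset.mem_sdiff]
        refine ⟨(hNR (R + 1) v).2 ⟨hvA, t, ht, ?_⟩, h2⟩
        have h5 := hG.dist_triangle (u := v) (v := z) (w := P t)
        have h6 : G.dist v z = 1 := SimpleGraph.dist_eq_one_iff_adj.2 h4.symm
        omega
      · refine Finset.mem_image.2 ⟨z, ?_, rfl⟩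
        unfold nbh
        simp only [Finset.mem_filter, Finset.mem_univ, true_and]
        exact ⟨v, rfl, by rw [SimpleGraph.dist_eq_one_iff_adj.2 h4]⟩
    have h1 : (outE G (NR R) X).card ≤ (NR (R + 1) \ NR R).card * C1 := by
      refine (Finset.card_le_card hsub).trans ?_
      apply Finset.card_biUnion_le_card_mul
      intro v _
      exact Finset.card_image_le.trans (hdeg v)
    have h2 : ℓ ≤ (NR R).card := by
      have h1 : (Finset.Icc 1 ℓ).card ≤ (NR R).card := by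
        apply Finset.card_le_card_of_injOn P
        · intro t ht
          rw [Finset.coe_Icc, Set.mem_Icc] at ht
          rw [Finset.mem_coe, hNR]
          exact ⟨hPA t ht.1 ht.2, t, ht.2, by simp⟩
        · intro t ht t' ht' htt
          rw [Finset.coe_Icc, Set.mem_Icc] at ht ht'
          rw [← hPh t ht.2, ← hPh t' ht'.2, htt]
      simpa using h1
    refine le_trans ?_ h2
    obtain ⟨sc, hsc⟩ : ∃ sc, sc = (NR (R + 1) \ NR R).card := ⟨_, rfl⟩
    rw [← hsc] at h1 hsh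
    have h3 : K' * (outE G (NR R) X).card ≤ K' * (sc * C1) := Nat.mul_le_mul_left _ h1
    refine h3.trans ?_
    rw [hR1] at hsh
    have h4 : (k + 1) * (K' * (sc * C1)) ≤ (k + 1) * ℓ := by
      have : (k + 1) * (K' * (sc * C1)) = ((k + 1) * K' * C1) * sc := by ring
      rw [this]
      refine le_trans (Nat.mul_le_mul_right _ (by omega)) hsh
    exact Nat.le_of_mul_le_mul_left h4 (by omega)

end Pool.RBE
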