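import Pool.Agent.RBE.M7D
import Pool.Agent.RBE.M8B
import Pool.Agent.RBE.M8C
import Pool.Agent.RBE.M9A
import Pool.Agent.RBE.M10A

set_option autoImplicit false

/-! [RBE-M10B] (FACT L) tall sides over an isometric cycle are attached antipodally. -/

namespace Pool.RBE

open SimpleGraph Pool.Agent.RBC

private theorem m10b_cl_le {V : Type} {G : SimpleGraph V} (X1 X2 : Set V) :
    cl G X2 ≤ cl (cl G X1) X2 := by
  intro a b h
  rw [cl_adj] at h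
  rw [cl_adj, cl_adj]
  rcases h with h | h
  · exact Or.inl (Or.inl h)
  · exact Or.inr h

private theorem m10b_col {V : Type} {G : SimpleGraph V} (hG : G.Connected) {w : ℕ} {c : ℕ → V}
    (hc : IsoCyc G w c) {X1 X2 A1 D1 : Set V} {f δ q1 : ℕ} (hf : c f ∈ X1) (hfδ : c (f + δ) ∈ X2)
    (hXD : X1 ⊆ D1) (hDA : ∀ v ∈ D1, v ∈ X1 ∨ v ∈ A1) (hRb : Rb (cl G X1) D1 q1)
    (hW : ∀ i, c i ∉ A1) (hδ : 2 * δ ≤ w) :
    ∃ c' : Sym2 V → ℕ,
      (∀ u ∈ ({v | ∃ i, v = c i} ∪ D1 ∪ X2 : Set V), ∀ v ∈ ({v | ∃ i, v = c i} ∪ D1 ∪ X2 : Set V),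
        Jn (cl (cl G X1) X2) (ins X1 ∪ ins X2) c' ({v | ∃ i, v = c i} ∪ D1 ∪ X2)
          {i | i < q1 + (w + 1) / 2} u v) ∧
      (∀ y ∈ ({v | ∃ i, v = c i} ∪ D1 ∪ X2 : Set V),
        (∀ x ∈ X2, Jn (cl (cl G X1) X2) (ins X1 ∪ ins X2) c' ({v | ∃ i, v = c i} ∪ D1 ∪ X2)
          {i | i < q1 + (w + 1) / 2 ∧ i ∉ Finset.range q1} x y) ∨
        (∀ x ∈ X2, Jn (cl (cl G X1) X2) (ins X1 ∪ ins X2) c' ({v | ∃ i, v = c i} ∪ D1 ∪ X2)
          {i | i < q1 + (w + 1) / 2 ∧ i ∉ Finset.Ico (q1 + δ) (q1 + (w + 1) / 2)} x y)) := by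
  classical
  obtain ⟨χ, hχ⟩ := cyc_colour hG hc f q1
  obtain ⟨c1, hc1⟩ := rb_shift (E0 := ins X1 ∪ ins X2) hRb 0
  set W : Set V := {v | ∃ i, v = c i} with hWdef
  set H : Set V := W ∪ D1 ∪ X2 with hH
  set E0 : Set (Sym2 V) := ins X1 ∪ ins X2 with hE0
  set G' := cl (cl G X1) X2 with hG'
  have hGG' : G ≤ G' := le_cl.trans le_cl
  have hWH : W ⊆ H := fun x hx => Or.inl (Or.inl hx)
  have hDH : D1 ⊆ H := fun x hx => Or.inl (Or.inr hx)
  have hXH : X2 ⊆ H := fun x hx => Or.inr hx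
  let c' : Sym2 V → ℕ := fun e => if e ∈ ins D1 then c1 e else χ e
  -- (1)
  have j1 : ∀ u ∈ D1, ∀ v ∈ D1, Jn G' E0 c' H {i | i < q1} u v := by
    intro u hu v hv
    have h1 := hc1 u hu v hv
    have h2 : Jn (cl G X1) E0 c' D1 {i | 0 ≤ i ∧ i < 0 + q1} u v := by
      refine Jn.congr ?_ h1
      intro e _ he _ _
      exact if_pos he
    refine h2.mono le_cl (Set.Subset.refl _) hDH ?_
    intro i hi
    have : i < 0 + q1 := hi.2
    show i < q1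
    omega
  -- cycle edges
  have hcyc : ∀ e, e ∈ ins W → e ∉ E0 → c' e = χ e := by
    intro e he he0
    refine if_neg ?_
    intro hD
    apply he0
    left
    intro v hv
    rcases hDA v (hD v hv) with h | h
    · exact h
    · obtain ⟨i, hi⟩ := he v hv
      rw [hi] at h
      exact absurd h (hW i)
  -- (2)
  have j2 : ∀ u ∈ W, ∀ v ∈ W, Jn G' E0 c' H {a | q1 ≤ a ∧ a < q1 + (w + 1) / 2} u v := by
    rintro u ⟨i, rfl⟩ v ⟨j, rfl⟩
    have h1 := cyc_jn hG hc hχ (E0 := E0) (D := W) (fun l => ⟨l, rfl⟩) i j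
    have h2 : Jn G E0 c' W {a | q1 ≤ a ∧ a < q1 + (w + 1) / 2} (c i) (c j) :=
      Jn.congr (fun e _ he he0 _ => hcyc e he he0) h1
    exact h2.mono hGG' (Set.Subset.refl _) hWH (Set.Subset.refl _)
  -- (3)
  have j3 : Jn G' E0 c' H {a | q1 ≤ a ∧ a < q1 + δ} (c f) (c (f + δ)) := by
    have h1 := arc_jn hG hc hχ (E0 := E0) (D := W) (i := 0) (j := δ) (Nat.zero_le _) (by omega)
      (by omega) (fun l _ _ => ⟨_, rfl⟩)
    have h2 : Jn G E0 c' W {a | ∃ l, 0 ≤ l ∧ l < δ ∧ a = q1 + l % ((w + 1) / 2)} (c (f + 0))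
        (c (f + δ)) :=
      Jn.congr (fun e _ he he0 _ => hcyc e he he0) h1
    rw [Nat.add_zero] at h2
    refine h2.mono hGG' (Set.Subset.refl _) hWH ?_
    rintro a ⟨l, -, hl, rfl⟩
    have : l % ((w + 1) / 2) ≤ l := Nat.mod_le _ _
    show q1 ≤ _ ∧ _ < q1 + δ
    omega
  -- (4)
  have hXadj : ∀ x ∈ X2, ∀ y ∈ X2, x ≠ y → G'.Adj x y := by
    intro x hx y hy hne
    exact cl_adj.2 (Or.inr ⟨hne, hx, hy⟩)
  have j4 : ∀ u ∈ X2, ∀ v ∈ X2, Jn G' E0 c' H ∅ u v := by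
    intro u hu v hv
    exact Jn.hub hXadj (fun e he => Or.inr he) hXH hu hv
  -- from `W ∪ X2` to `W` for free
  have j5 : ∀ u, (u ∈ W ∨ u ∈ X2) → ∃ u' ∈ W, Jn G' E0 c' H ∅ u u' := by
    intro u hu
    rcases hu with hu | hu
    · exact ⟨u, hu, Jn.refl (hWH hu)⟩
    · exact ⟨c (f + δ), ⟨_, rfl⟩, j4 u hu _ hfδ⟩
  have hcfD : c f ∈ D1 := hXD hf
  have hcfW : c f ∈ W := ⟨f, rfl⟩
  have hcδW : c (f + δ) ∈ W := ⟨f + δ, rfl⟩
  -- `W ∪ X2` to `W ∪ X2`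
  have j6 : ∀ u, (u ∈ W ∨ u ∈ X2) → ∀ v, (v ∈ W ∨ v ∈ X2) →
      Jn G' E0 c' H {a | q1 ≤ a ∧ a < q1 + (w + 1) / 2} u v := by
    intro u hu v hv
    obtain ⟨u', hu', h1⟩ := j5 u hu
    obtain ⟨v', hv', h2⟩ := j5 v hv
    have h3 := (h1.trans (Set.empty_disjoint _) (j2 u' hu' v' hv')).trans
      (Set.disjoint_empty _) h2.symm
    refine h3.mono le_rfl (Set.Subset.refl _) (Set.Subset.refl _) ?_
    rw [Set.empty_union, Set.union_empty]
  -- `D1` to `W ∪ X2`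
  have hdis : Disjoint {i : ℕ | i < q1} {a | q1 ≤ a ∧ a < q1 + (w + 1) / 2} := by
    rw [Set.disjoint_left]
    intro a ha hb
    have h1 : a < q1 := ha
    have h2 : q1 ≤ a := hb.1
    omega
  have j7 : ∀ u ∈ D1, ∀ v, (v ∈ W ∨ v ∈ X2) →
      Jn G' E0 c' H {i | i < q1 + (w + 1) / 2} u v := by
    intro u hu v hv
    have h1 := (j1 u hu _ hcfD).trans hdis (j6 _ (Or.inl hcfW) v hv)
    refine h1.mono le_rfl (Set.Subset.refl _) (Set.Subset.refl _) ?_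
    intro a ha
    rcases ha with ha | ha
    · have : a < q1 := ha
      show a < q1 + (w + 1) / 2
      omega
    · exact ha.2
  have hsplit : ∀ u ∈ H, u ∈ D1 ∨ (u ∈ W ∨ u ∈ X2) := by
    rintro u ((hu | hu) | hu)
    · exact Or.inr (Or.inl hu)
    · exact Or.inl hu
    · exact Or.inr (Or.inr hu)
  refine ⟨c', ?_, ?_⟩
  · intro u hu v hv
    rcases hsplit u hu with hu | hu
    · rcases hsplit v hv with hv | hv
      · refine (j1 u hu v hv).mono le_rfl (Set.Subset.refl _) (Set.Subset.refl _) ?_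
        intro a ha
        have : a < q1 := ha
        show a < q1 + (w + 1) / 2
        omega
      · exact j7 u hu v hv
    · rcases hsplit v hv with hv | hv
      · exact (j7 v hv u hu).symm
      · refine (j6 u hu v hv).mono le_rfl (Set.Subset.refl _) (Set.Subset.refl _) ?_
        intro a ha
        exact ha.2
  · intro y hy
    rcases hsplit y hy with hy | hy
    · right
      intro x hx
      have hdis2 : Disjoint {a : ℕ | q1 ≤ a ∧ a < q1 + δ} {i : ℕ | i < q1} := by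
        rw [Set.disjoint_left]
        intro a ha hb
        have h1 : a < q1 := hb
        have h2 : q1 ≤ a := ha.1
        omega
      have h1 := ((j4 x hx _ hfδ).trans (Set.empty_disjoint _) j3.symm).trans
        (by rw [Set.empty_union]; exact hdis2) (j1 _ hcfD y hy)
      refine h1.mono le_rfl (Set.Subset.refl _) (Set.Subset.refl _) ?_
      rw [Set.empty_union]
      intro a ha
      show a < q1 + (w + 1) / 2 ∧ a ∉ Finset.Ico (q1 + δ) (q1 + (w + 1) / 2)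
      rw [Finset.mem_Ico]
      rcases ha with ha | ha
      · have h2 : q1 ≤ a ∧ a < q1 + δ := ha
        omega
      · have h2 : a < q1 := ha
        omega
    · left
      intro x hx
      refine (j6 x (Or.inr hx) y hy).mono le_rfl (Set.Subset.refl _) (Set.Subset.refl _) ?_
      intro a ha
      refine ⟨ha.2, ?_⟩
      rw [Finset.mem_range]
      have h1 : q1 ≤ a := ha.1
      omega

private theorem m10b_mem {V : Type} [Fintype V] {G : SimpleGraph V} {D : Set V} {R : ℕ} {x : V} :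
    x ∈ nbh G D R ↔ ∃ u ∈ D, G.dist x u ≤ R := by
  unfold nbh
  simp

private theorem m10b_nbh {V : Type} [Fintype V] {G : SimpleGraph V} {D D' : Set V} {R R' : ℕ}
    (hD : D ⊆ D') (hR : R ≤ R') : nbh G D R ⊆ nbh G D' R' := by
  intro x hx
  rw [m10b_mem] at hx ⊢
  obtain ⟨u, hu, h2⟩ := hx
  exact ⟨u, hD hu, h2.trans hR⟩

/-- [RBE-M10] (FACT L) Two disjoint tall sides `A1, A2` at hubs `X1 ∋ c f`, `X2 ∋ c (f+δ)` on an isometric cycle: `w < 2 δ + H0`. (`δ = 0` and `X1 = X2` are allowed.)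
Proof. `K = 8 (k+1)`, `r, g0` from `leg k K`, `ρ = 4k²`, `R = max r ρ`, `C` from `slack` with `R`, `ℓ0` from `blob` with `K' = 4k`, `ℓ = max` of `ℓ0, g0` and a constant `c0` (below), `g = (k+1) ℓ`, `H0 = 2 g`. `leg` in `A1` over `X1`: `D1, q1, M1`. In `A2` over `X2`: `side_exists`, `side_path`, `blob`: `Z`,
`ℓ ≤ |Z| ≤ g`. `blob_trees` (hub `X2`): `Fa, Fb`, `d = #outE / 2`. `G' = cl (cl G X1) X2`, `E0 = ins X1 ∪ ins X2`, `m = (w+1)/2`, `W = {c i}`, `H = W ∪ D1 ∪ X2`. `χ` from `cyc_colour` with `f, q1`; `c1` of `D1`; `c' e = c1 e` for `e ∈ ins D1`, `χ e` otherwise. Cycle edges in `ins D1` have both ends in `X1` (`W` misses `A1`): free.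
Leg edges: `G ≤ cl G X1 ≤ G'`. So: (1) `u, v ∈ D1`: `Jn {i < q1}`; (2) `u, v ∈ W`: `Jn {q1 ≤ a < q1 + m}`; (3) `c (f+δ)` to `c f`: `Jn {q1 + l | l < δ}` (`arc_jn`, `δ ≤ m`); (4) `u, v ∈ X2`: `Jn ∅`. `h1`: by `Jn.trans` via `c f ∈ X1 ⊆ D1` and `c (f+δ) ∈ X2`. `h2` for `x ∈ X2`: `y ∈ W ∪ X2`: palette `[q1, q1+m)`, avoids
`Γa = [0, q1)`; `y ∈ D1`: `x` (free) `c (f+δ)` (3) `c f` (1) `y`: avoids `Γb = {q1 + l | δ ≤ l < m}`. `|Γa| = q1 ≥ g ≥ |Z|`, `|Γb| = m - δ ≥ w/2 - δ ≥ g ≥ |Z|` by `2δ + H0 ≤ w`. `free_blob` (walks of `blob_trees` by `mapLe`): `FRb G' E0 (H ∪ Z) (q1 + m + d)`. `hub_out` for `X2` in `cl G X1`, then for `X1` in `G`, `frb_empty`: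
`Rb G (H ∪ Z) (q1 + m + d + 2S)`. Masses: `nbh G W ρ` with `k w ≤ 2 |nbh| + k (4ρ+8)` (`arc_mass`, `n = w`), `M1 ⊆ A1`, `Z ⊆ A2`, pairwise disjoint by `hoff`. `slack`: `|nbh G W ρ| + |M1| + |Z| < k (q1 + m + d + 2S) + C`; `2 m ≤ w + 1`; `8 k d ≤ |Z|`; `K k q1 ≤ K |M1| + g`, `g / K = ℓ/8 ≤ |Z|/8`. So `(3/4)|Z| < k (2ρ + 5) + 2 k S + C`,
contradiction for `ℓ ≥ c0 = 2 (k (2ρ+5) + 2kS + C)`. -/
theorem two_tall (k : ℕ) (hk : 4 ≤ k) (S : ℕ) :
    ∃ H0 : ℕ, ∀ (V : Type) [Fintype V] (G : SimpleGraph V), KConn G k → Irr G k →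
      ∀ (w : ℕ) (c : ℕ → V), IsoCyc G w c → ∀ X1 X2 A1 A2 : Set V, ConnIn G X1 → ConnIn G X2 →
      X1.ncard ≤ S → X2.ncard ≤ S →
      (∀ a ∈ A1, ∀ b, G.Adj a b → b ∈ A1 ∨ b ∈ X1) → (∀ a ∈ A2, ∀ b, G.Adj a b → b ∈ A2 ∨ b ∈ X2) →
      (∀ a ∈ A1, a ∉ X1 ∧ a ∉ X2 ∧ a ∉ A2) → (∀ a ∈ A2, a ∉ X1 ∧ a ∉ X2) →
      (∀ a, a ∈ A1 ∨ a ∈ A2 → ∀ i, 4 * (k * k) < G.dist a (c i)) →
      ∀ f δ : ℕ, c f ∈ X1 → c (f + δ) ∈ X2 →
      (∃ a ∈ A1, ∀ x ∈ X1, H0 ≤ G.dist a x) → (∃ a ∈ A2, ∀ x ∈ X2, H0 ≤ G.dist a x) → w < 2 * δ + H0 := by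
  classical
  obtain ⟨r, g0, hleg⟩ := leg k (by omega) (8 * (k + 1))
  obtain ⟨C, hslack⟩ := slack k (by omega) (max r (4 * (k * k)))
  obtain ⟨ℓ0, hblob⟩ := blob k (by omega) (4 * k)
  obtain ⟨B, hB⟩ : ∃ B, B = k * (2 * (4 * (k * k)) + 5) + 2 * (k * S) + C := ⟨_, rfl⟩
  obtain ⟨ℓ, hℓ⟩ : ∃ ℓ, ℓ = max (max ℓ0 g0) (2 * B) := ⟨_, rfl⟩
  have hℓ0 : ℓ0 ≤ ℓ := by rw [hℓ]; exact (le_max_left _ _).trans (le_max_left _ _)
  have hℓg : g0 ≤ ℓ := by rw [hℓ]; exact (le_max_right _ _).trans (le_max_left _ _)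
  have hℓB : 2 * B ≤ ℓ := by rw [hℓ]; exact le_max_right _ _
  have hgℓ : ℓ ≤ (k + 1) * ℓ := Nat.le_mul_of_pos_left _ (by omega)
  refine ⟨2 * ((k + 1) * ℓ), ?_⟩
  intro V _ G hkG hI w c hc X1 X2 A1 A2 hX1 hX2 hS1 hS2 hn1 hn2 hd1 hd2 hoff f δ hf hfδ ht1 ht2
  by_contra hw
  push Not at hw
  have hG : G.Connected := kconn_connected hkG (by omega)
  -- the leg
  obtain ⟨D1, q1, M1, hXD, hDA, hRb, hgq, hM1A, hM1, hK⟩ := hleg V G hkG hI X1 A1 ⟨_, hf⟩ hn1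
    (fun a ha => (hd1 a ha).1) ((k + 1) * ℓ) (hℓg.trans hgℓ) ht1
  -- the blob
  obtain ⟨h, hh⟩ := side_exists ⟨_, hfδ⟩ hn2 (fun a ha => (hd2 a ha).2)
  obtain ⟨a2, ha2, ha2'⟩ := ht2
  have hh2 : ℓ ≤ h a2 := by
    obtain ⟨x, hx, hx'⟩ := hh.att a2 ha2
    have := ha2' x hx
    omega
  obtain ⟨P, hP0, hPA, hPh, hPadj⟩ := side_path hG hh ha2 hh2
  obtain ⟨Z, hZA, hZ1, hZ2, hZ3, hZ4⟩ := hblob V G hkG hI X2 A2 h P ℓ hℓ0 hh hP0 hPA hPh hPadj
  obtain ⟨Fa, Fb, hFa, hFb, hFab, hFZ, wa, wb⟩ := blob_trees hkG hk ⟨_, hfδ⟩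
    (fun z hz => (hd2 z (hZA z hz)).2) hZ4
  -- the colouring
  have hWA1 : ∀ i, c i ∉ A1 := by
    intro i hi
    have := hoff _ (Or.inl hi) i
    rw [SimpleGraph.dist_self] at this
    omega
  have hWA2 : ∀ i, c i ∉ A2 := by
    intro i hi
    have := hoff _ (Or.inr hi) i
    rw [SimpleGraph.dist_self] at this
    omega
  obtain ⟨c', h1, h2⟩ := m10b_col hG hc hf hfδ hXD hDA hRb hWA1 (by omega)
  set H : Set V := {v | ∃ i, v = c i} ∪ D1 ∪ X2 with hH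
  have hfree := free_blob (G' := cl (cl G X1) X2) (E0 := ins X1 ∪ ins X2) (H := H) (X := X2)
    (fun x hx => Or.inr hx) ⟨_, hfδ⟩ (fun e he => Or.inr he) (c := c')
    (q := q1 + (w + 1) / 2) (Γa := Finset.range q1)
    (Γb := Finset.Ico (q1 + δ) (q1 + (w + 1) / 2))
    (by
      rw [Finset.disjoint_left]
      intro a ha hb
      rw [Finset.mem_range] at ha
      rw [Finset.mem_Ico] at hb
      omega)
    (by
      intro i hi
      rw [Finset.mem_range] at hi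
      omega)
    (by
      intro i hi
      rw [Finset.mem_Ico] at hi
      omega)
    h1 h2 (Z := Z)
    (by
      intro z hz hzH
      have hzA := hZA z hz
      rcases hzH with (⟨i, hi⟩ | hzD) | hzX
      · rw [hi] at hzA
        exact hWA2 i hzA
      · rcases hDA z hzD with h3 | h3
        · exact (hd2 z hzA).1 h3
        · exact (hd1 z h3).2.2 hzA
      · exact (hd2 z hzA).2 hzX)
    (Fa := Fa) (Fb := Fb)
    (by rw [Finset.card_range]; omega)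
    (by rw [Nat.card_Ico]; omega)
    hFab (fun e he => (hFZ e he).2)
    (by
      intro u v hu hv
      obtain ⟨p, hp1, hp2⟩ := wa u v hu hv
      exact ⟨p.mapLe (m10b_cl_le X1 X2), by simpa using hp1, by simpa using hp2⟩)
    (by
      intro u v hu hv
      obtain ⟨p, hp1, hp2⟩ := wb u v hu hv
      exact ⟨p.mapLe (m10b_cl_le X1 X2), by simpa using hp1, by simpa using hp2⟩)
  have hout2 := hub_out (G := cl G X1) (E0 := ins X1) (D := H ∪ {z | z ∈ Z}) (X := X2)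
    (Set.toFinite _)
    (by
      intro x hx y hy
      obtain ⟨p, hp⟩ := hX2 x hx y hy
      exact ⟨p.mapLe le_cl, by simpa using hp⟩)
    (by intro x hx; exact Or.inl (Or.inr hx)) hfree
  have hout1 := hub_out (G := G) (E0 := ∅) (D := H ∪ {z | z ∈ Z}) (X := X1) (Set.toFinite _) hX1
    (by intro x hx; exact Or.inl (Or.inl (Or.inr (hXD hx)))) (by rw [Set.empty_union]; exact hout2)
  have hRbH := frb_empty.1 hout1
  have hsl := hslack V G hkG hI (H ∪ {z | z ∈ Z}) _ ⟨c f, Or.inl (Or.inl (Or.inl ⟨f, rfl⟩))⟩ hRbH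
  -- masses
  have harc := arc_mass hkG (by omega) (ρ := 4 * (k * k)) le_rfl hc 0 w le_rfl
  set N1 := nbh G {v | ∃ i, 0 ≤ i ∧ i ≤ 0 + w ∧ v = c i} (4 * (k * k)) with hN1
  have hN1A : ∀ x ∈ N1, x ∉ A1 ∧ x ∉ A2 := by
    intro x hx
    rw [hN1, m10b_mem] at hx
    obtain ⟨u, ⟨i, -, -, rfl⟩, h3⟩ := hx
    constructor
    · intro h4
      have := hoff x (Or.inl h4) i
      omega
    · intro h4
      have := hoff x (Or.inr h4) i
      omega
  have hd12 : Disjoint N1 M1 := by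
    rw [Finset.disjoint_left]
    intro x hx hy
    exact (hN1A x hx).1 (hM1A x hy)
  have hd3 : Disjoint (N1 ∪ M1) Z := by
    rw [Finset.disjoint_left]
    intro x hx hy
    rcases Finset.mem_union.1 hx with hx | hx
    · exact (hN1A x hx).2 (hZA x hy)
    · exact (hd1 x (hM1A x hx)).2.2 (hZA x hy)
  have hsub : (N1 ∪ M1) ∪ Z ⊆ nbh G (H ∪ {z | z ∈ Z}) (max r (4 * (k * k))) := by
    intro x hx
    rcases Finset.mem_union.1 hx with hx | hx
    · rcases Finset.mem_union.1 hx with hx | hx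
      · refine m10b_nbh ?_ (le_max_right _ _) hx
        rintro y ⟨i, -, -, rfl⟩
        exact Or.inl (Or.inl (Or.inl ⟨i, rfl⟩))
      · refine m10b_nbh ?_ (le_max_left _ _) (hM1 hx)
        intro y hy
        exact Or.inl (Or.inl (Or.inr hy))
    · rw [m10b_mem]
      refine ⟨x, Or.inr hx, ?_⟩
      rw [SimpleGraph.dist_self]
      exact Nat.zero_le _
  have hcard := Finset.card_le_card hsub
  rw [Finset.card_union_of_disjoint hd3, Finset.card_union_of_disjoint hd12] at hcard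
  -- arithmetic
  obtain ⟨o, ho⟩ : ∃ o, o = (outE G Z X2).card := ⟨_, rfl⟩
  rw [← ho] at hsl hZ3
  have e1 : k * (q1 + (w + 1) / 2 + o / 2 + X2.ncard + X1.ncard) ≤
      k * q1 + k * ((w + 1) / 2) + k * (o / 2) + k * S + k * S := by
    have t1 : k * X2.ncard ≤ k * S := Nat.mul_le_mul_left _ hS2
    have t2 : k * X1.ncard ≤ k * S := Nat.mul_le_mul_left _ hS1
    have t3 : k * (q1 + (w + 1) / 2 + o / 2 + X2.ncard + X1.ncard) =
      k * q1 + k * ((w + 1) / 2) + k * (o / 2) + k * X2.ncard + k * X1.ncard := by ring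
    omega
  have e2 : 2 * (k * ((w + 1) / 2)) ≤ k * w + k := by
    have t1 : k * (2 * ((w + 1) / 2)) ≤ k * (w + 1) := Nat.mul_le_mul_left _ (by omega)
    have t2 : k * (2 * ((w + 1) / 2)) = 2 * (k * ((w + 1) / 2)) := by ring
    have t3 : k * (w + 1) = k * w + k := by ring
    omega
  have e3 : 8 * (k * (o / 2)) ≤ Z.card := by
    have t1 : 4 * k * (2 * (o / 2)) ≤ 4 * k * o := Nat.mul_le_mul_left _ (by omega)
    have t2 : 4 * k * (2 * (o / 2)) = 8 * (k * (o / 2)) := by ring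
    omega
  have e4 : 8 * (k * q1) ≤ 8 * M1.card + ℓ := by
    have t1 : (k + 1) * (8 * (k * q1)) ≤ (k + 1) * (8 * M1.card + ℓ) := by
      have t2 : (k + 1) * (8 * (k * q1)) = 8 * (k + 1) * (k * q1) := by ring
      have t3 : (k + 1) * (8 * M1.card + ℓ) = 8 * (k + 1) * M1.card + (k + 1) * ℓ := by ring
      rw [t2, t3]
      exact hK
    exact Nat.le_of_mul_le_mul_left t1 (by omega)
  have e5 : k * (4 * (4 * (k * k)) + 8) + k ≤ 2 * (k * (2 * (4 * (k * k)) + 5)) := by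
    have t1 : k * (4 * (4 * (k * k)) + 8) + k = 16 * (k * (k * k)) + 9 * k := by ring
    have t2 : 2 * (k * (2 * (4 * (k * k)) + 5)) = 16 * (k * (k * k)) + 10 * k := by ring
    omega
  omega

end Pool.RBE
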