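import Pool.Agent.RBE.M1

set_option autoImplicit false

/-! [RBE-M2] (Z2) mass of an arc of an isometric cycle. -/

namespace Pool.RBE

open SimpleGraph Pool.Agent.RBC

/-- [RBE-M2] the arc `c a, …, c (a+n)` (`n ≤ w`) of an isometric cycle of length `w`. -/
theorem arc_mass {V : Type} [Fintype V] {G : SimpleGraph V} {k : ℕ} (hk : KConn G k) (hk2 : 2 ≤ k) {ρ : ℕ}
    (hρ : 4 * (k * k) ≤ ρ) {w : ℕ} {c : ℕ → V} (hc : IsoCyc G w c) (a n : ℕ) (hn : n ≤ w) :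
    k * n ≤ 2 * (nbh G {v | ∃ i, a ≤ i ∧ i ≤ a + n ∧ v = c i} ρ).card + k * (4 * ρ + 8) := by
  classical
  rcases Nat.lt_or_ge n (4 * ρ + 8) with hsm | hbig
  · have := Nat.mul_le_mul_left k hsm.le
    omega
  have hcon : G.Connected := kconn_connected hk (by omega)
  obtain ⟨m, hm1, hm2⟩ : ∃ m, 2 * m ≤ n ∧ n ≤ 2 * m + 1 := ⟨n / 2, by omega, by omega⟩
  have hgeo : ∀ (s l : ℕ), 2 * l ≤ w → Geo G l (fun i => c (s + i)) := by
    intro s l hl i j hij hj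
    show G.dist (c (s + i)) (c (s + j)) = j - i
    rw [hc.dist (s + i) (s + j) (by omega) (by omega)]
    omega
  have h1 := geo_strand hk hk2 hρ (hgeo (a + ρ + 1) (m - 2 * ρ - 2) (by omega))
  have h2 := geo_strand hk hk2 hρ (hgeo (a + m + ρ + 1) (n - m - 2 * ρ - 2) (by omega))
  set N1 := nbh G {v | ∃ i, i ≤ m - 2 * ρ - 2 ∧ v = c (a + ρ + 1 + i)} ρ with hN1
  set N2 := nbh G {v | ∃ i, i ≤ n - m - 2 * ρ - 2 ∧ v = c (a + m + ρ + 1 + i)} ρ with hN2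
  set N := nbh G {v | ∃ i, a ≤ i ∧ i ≤ a + n ∧ v = c i} ρ with hN
  have hdisj : Disjoint N1 N2 := by
    rw [Finset.disjoint_left]
    intro v hv1 hv2
    rw [hN1, z_mem_nbh] at hv1
    rw [hN2, z_mem_nbh] at hv2
    obtain ⟨u1, ⟨i, hi, rfl⟩, hd1⟩ := hv1
    obtain ⟨u2, ⟨j, hj, rfl⟩, hd2⟩ := hv2
    have h3 := hcon.dist_triangle (u := c (a + ρ + 1 + i)) (v := v) (w := c (a + m + ρ + 1 + j))
    have h4 := hc.dist (a + ρ + 1 + i) (a + m + ρ + 1 + j) (by omega) (by omega)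
    have h5 : G.dist (c (a + ρ + 1 + i)) v = G.dist v (c (a + ρ + 1 + i)) := SimpleGraph.dist_comm
    omega
  have hsub : N1 ∪ N2 ⊆ N := by
    intro v hv
    rw [hN, z_mem_nbh]
    rcases Finset.mem_union.1 hv with hv | hv
    · rw [hN1, z_mem_nbh] at hv
      obtain ⟨u1, ⟨i, hi, rfl⟩, hd1⟩ := hv
      exact ⟨_, ⟨_, by omega, by omega, rfl⟩, hd1⟩
    · rw [hN2, z_mem_nbh] at hv
      obtain ⟨u1, ⟨i, hi, rfl⟩, hd1⟩ := hv
      exact ⟨_, ⟨_, by omega, by omega, rfl⟩, hd1⟩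
  have hcard := Finset.card_le_card hsub
  rw [Finset.card_union_of_disjoint hdisj] at hcard
  obtain ⟨r1, hr1⟩ : ∃ r, m = r + 2 * ρ + 2 := ⟨m - 2 * ρ - 2, by omega⟩
  obtain ⟨r2, hr2⟩ : ∃ r, n - m = r + 2 * ρ + 2 := ⟨n - m - 2 * ρ - 2, by omega⟩
  have h5 : m - 2 * ρ - 2 = r1 := by omega
  have h6 : n - m - 2 * ρ - 2 = r2 := by omega
  rw [h5] at h1
  rw [h6] at h2
  have h7 : n = r1 + r2 + (4 * ρ + 4) := by omega
  have h8 : k * n = k * r1 + k * r2 + k * (4 * ρ + 4) := by rw [h7]; ring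
  have h9 : k * (4 * ρ + 8) = k * (4 * ρ + 4) + 4 * k := by ring
  omega

end Pool.RBE
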