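import Pool.Agent.RBE.M0

set_option autoImplicit false

/-! [RBE-M4] Joining walks with free edges and palettes: definitions. -/

namespace Pool.RBE

open SimpleGraph Pool.Agent.RBC

section
variable {V : Type} (G : SimpleGraph V)

/-- The edges with both ends in `X`. -/
def ins (X : Set V) : Set (Sym2 V) := {e | ∀ v ∈ e, v ∈ X}

open Classical in
/-- `u` and `v` are joined by a walk of `G` inside `D` whose non-free edges (edges not in `E0`) have pairwise distinct
colours, all in the palette `Γ`. -/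
def Jn (E0 : Set (Sym2 V)) (c : Sym2 V → ℕ) (D : Set V) (Γ : Set ℕ) (u v : V) : Prop :=
  ∃ w : G.Walk u v, (∀ x ∈ w.support, x ∈ D) ∧
    ((w.edges.filter (fun e => decide (e ∉ E0))).map c).Nodup ∧ ∀ e ∈ w.edges, e ∉ E0 → c e ∈ Γ

/-- `D` is rainbow connected with `q` colours up to the free edges `E0`. -/
def FRb (E0 : Set (Sym2 V)) (D : Set V) (q : ℕ) : Prop :=
  ∃ c : Sym2 V → ℕ, ∀ u ∈ D, ∀ v ∈ D, Jn G E0 c D {i | i < q} u v

end

section
variable {V : Type} {G : SimpleGraph V} {E0 : Set (Sym2 V)} {c : Sym2 V → ℕ} {D : Set V} {Γ : Set ℕ}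

theorem Jn.refl {u : V} (hu : u ∈ D) : Jn G E0 c D Γ u u := by
  refine ⟨Walk.nil, ?_, ?_, ?_⟩
  · intro x hx
    simp only [Walk.support_nil, List.mem_singleton] at hx
    rw [hx]; exact hu
  · simp
  · intro e he
    simp at he

/-- [RBE-M4g] `cl` adds exactly the edges inside `X`. Proof. Unfold, `SimpleGraph.fromRel_adj`. -/
theorem cl_adj {X : Set V} {a b : V} : (cl G X).Adj a b ↔ G.Adj a b ∨ (a ≠ b ∧ a ∈ X ∧ b ∈ X) := by
  unfold cl
  rw [SimpleGraph.sup_adj, SimpleGraph.fromRel_adj]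
  constructor
  · rintro (h | ⟨h1, h2 | h2⟩)
    · exact Or.inl h
    · exact Or.inr ⟨h1, h2.1, h2.2⟩
    · exact Or.inr ⟨h1, h2.2, h2.1⟩
  · rintro (h | ⟨h1, h2, h3⟩)
    · exact Or.inl h
    · exact Or.inr ⟨h1, Or.inl ⟨h2, h3⟩⟩

theorem le_cl {X : Set V} : G ≤ cl G X := le_sup_left

end

end Pool.RBE
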