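import Pool.Agent.RBE.M4

set_option autoImplicit false

/-! [RBE-M4A] basic lemmas on `Jn`, `FRb`, `Rb`. -/

namespace Pool.RBE

open SimpleGraph Pool.Agent.RBC

private theorem m4a_dec (p : Prop) (inst : Decidable p) (h : p) : @decide p inst = true :=
  @decide_eq_true p inst h

private theorem m4a_fil {α : Type} (p : α → Bool) (l : List α) (h : ∀ e ∈ l, p e = true) :
    l.filter p = l := List.filter_eq_self.2 h

section
variable {V : Type} {G : SimpleGraph V} {E0 : Set (Sym2 V)} {c : Sym2 V → ℕ} {D : Set V} {Γ : Set ℕ}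

/-- [RBE-M4a] Proof. Reverse the walk (`Walk.edges_reverse`, `List.filter_reverse`, `List.map_reverse`,
`List.nodup_reverse`). -/
theorem Jn.symm {u v : V} (h : Jn G E0 c D Γ u v) : Jn G E0 c D Γ v u := by
  obtain ⟨w, h1, h2, h3⟩ := h
  refine ⟨w.reverse, ?_, ?_, ?_⟩
  · intro x hx
    rw [Walk.support_reverse, List.mem_reverse] at hx
    exact h1 x hx
  · rw [Walk.edges_reverse, List.filter_reverse, List.map_reverse, List.nodup_reverse]
    exact h2
  · intro e he
    rw [Walk.edges_reverse, List.mem_reverse] at he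
    exact h3 e he

/-- [RBE-M4b] Proof. Same walk; for a bigger graph use `Walk.mapLe` (edges and support unchanged); for more free edges the list of non-free
edges is a sublist. -/
theorem Jn.mono {G' : SimpleGraph V} {E0' : Set (Sym2 V)} {D' : Set V} {Γ' : Set ℕ} (hG : G ≤ G') (hE : E0 ⊆ E0')
    (hD : D ⊆ D') (hΓ : Γ ⊆ Γ') {u v : V} (h : Jn G E0 c D Γ u v) : Jn G' E0' c D' Γ' u v := by
  classical
  obtain ⟨w, h1, h2, h3⟩ := h
  refine ⟨w.mapLe hG, ?_, ?_, ?_⟩
  · intro x hx
    rw [Walk.support_mapLe_eq_support] at hx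
    exact hD (h1 x hx)
  · rw [Walk.edges_mapLe_eq_edges]
    refine h2.sublist (List.Sublist.map c (List.monotone_filter_right w.edges ?_))
    intro e he
    rw [decide_eq_true_eq] at he ⊢
    exact fun h => he (hE h)
  · intro e he hne
    rw [Walk.edges_mapLe_eq_edges] at he
    exact hΓ (h3 e he fun h => hne (hE h))

/-- [RBE-M4c] Change of the colouring outside of the edges that matter. Proof. Same walk. -/
theorem Jn.congr {c' : Sym2 V → ℕ} (hc : ∀ e, e ∈ G.edgeSet → e ∈ ins D → e ∉ E0 → c e ∈ Γ → c' e = c e)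
    {u v : V} (h : Jn G E0 c D Γ u v) : Jn G E0 c' D Γ u v := by
  classical
  obtain ⟨w, h1, h2, h3⟩ := h
  have key : ∀ e ∈ w.edges, e ∉ E0 → c' e = c e := by
    intro e he hne
    refine hc e (w.edges_subset_edgeSet he) ?_ hne (h3 e he hne)
    intro v hv
    exact h1 v (w.mem_support_of_mem_edges he hv)
  refine ⟨w, h1, ?_, ?_⟩
  · rw [List.map_congr_left (g := c)]
    · exact h2
    · intro e he
      rw [List.mem_filter, decide_eq_true_eq] at he
      exact key e he.1 he.2
  · intro e he hne
    rw [key e he hne]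
    exact h3 e he hne

/-- [RBE-M4d] Proof. Append the walks. -/
theorem Jn.trans {Γ' : Set ℕ} (hd : Disjoint Γ Γ') {u v z : V} (h : Jn G E0 c D Γ u v) (h' : Jn G E0 c D Γ' v z) :
    Jn G E0 c D (Γ ∪ Γ') u z := by
  classical
  obtain ⟨w, h1, h2, h3⟩ := h
  obtain ⟨w', h1', h2', h3'⟩ := h'
  refine ⟨w.append w', ?_, ?_, ?_⟩
  · intro x hx
    rw [Walk.mem_support_append_iff] at hx
    rcases hx with hx | hx
    · exact h1 x hx
    · exact h1' x hx
  · rw [Walk.edges_append, List.filter_append, List.map_append, List.nodup_append']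
    refine ⟨h2, h2', ?_⟩
    intro z hz hz'
    rw [List.mem_map] at hz hz'
    obtain ⟨e, he, rfl⟩ := hz
    obtain ⟨e', he', hee⟩ := hz'
    rw [List.mem_filter, decide_eq_true_eq] at he he'
    have g1 := h3 e he.1 he.2
    have g2 := h3' e' he'.1 he'.2
    rw [hee] at g2
    exact Set.disjoint_left.1 hd g1 g2
  · intro e he hne
    rw [Walk.edges_append, List.mem_append] at he
    rcases he with he | he
    · exact Or.inl (h3 e he hne)
    · exact Or.inr (h3' e he hne)

/-- [RBE-M4e] In a hub one moves for free. Proof. `x = y`: nil; otherwise one edge, free. -/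
theorem Jn.hub {X : Set V} (hX : ∀ x ∈ X, ∀ y ∈ X, x ≠ y → G.Adj x y) (hE : ins X ⊆ E0) (hD : X ⊆ D)
    {x y : V} (hx : x ∈ X) (hy : y ∈ X) : Jn G E0 c D Γ x y := by
  classical
  by_cases hxy : x = y
  · subst hxy
    exact Jn.refl (hD hx)
  · have ha := hX x hx y hy hxy
    have hfree : s(x, y) ∈ E0 := by
      apply hE
      intro v hv
      rw [Sym2.mem_iff] at hv
      rcases hv with rfl | rfl
      · exact hx
      · exact hy
    refine ⟨ha.toWalk, ?_, ?_, ?_⟩
    · intro z hz
      simp only [SimpleGraph.Adj.toWalk, Walk.support_cons, Walk.support_nil, List.mem_cons,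
        List.not_mem_nil, or_false] at hz
      rcases hz with rfl | rfl
      · exact hD hx
      · exact hD hy
    · have h1 : ha.toWalk.edges = [s(x, y)] := rfl
      rw [h1]
      have h2 : [s(x, y)].filter (fun e => decide (e ∉ E0)) = [] := by
        rw [List.filter_eq_nil_iff]
        intro e he
        rw [List.mem_singleton] at he
        rw [he, decide_eq_true_eq]
        exact fun h => h hfree
      rw [h2]
      exact List.nodup_nil
    · intro e he hne
      have h1 : ha.toWalk.edges = [s(x, y)] := rfl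
      rw [h1, List.mem_singleton] at he
      rw [he] at hne
      exact absurd hfree hne

/-- [RBE-M4f] A path-like version: a walk whose non-free edges lie in a set of edges on which `c` is injective with values in
`Γ` (no nodup condition on the walk). Proof. `w.bypass` is a path: its edges are pairwise distinct and its edges and support are
contained in those of `w`. -/
theorem Jn.of_walk {u v : V} (w : G.Walk u v) (hD : ∀ x ∈ w.support, x ∈ D) (F : Set (Sym2 V))
    (hF : ∀ e ∈ w.edges, e ∉ E0 → e ∈ F) (hinj : Set.InjOn c F) (hΓ : ∀ e ∈ F, c e ∈ Γ) : Jn G E0 c D Γ u v := by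
  classical
  have hsub : ∀ e ∈ w.bypass.edges, e ∈ w.edges := fun e he => w.edges_bypass_subset_edges he
  refine ⟨w.bypass, ?_, ?_, ?_⟩
  · intro x hx
    exact hD x (w.support_bypass_subset_support hx)
  · refine List.Nodup.map_on ?_ (List.Nodup.filter _ w.bypass_isPath.isTrail.edges_nodup)
    intro e he e' he' hee
    rw [List.mem_filter, decide_eq_true_eq] at he he'
    exact hinj (hF e (hsub e he.1) he.2) (hF e' (hsub e' he'.1) he'.2) hee
  · intro e he hne
    exact hΓ e (hF e (hsub e he) hne)

/-- [RBE-M4h] Rainbow connection without free edges. Proof. `E0 = ∅`: the filter is the identity. -/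
theorem frb_empty {q : ℕ} : FRb G ∅ D q ↔ Rb G D q := by
  constructor
  · rintro ⟨c, hc⟩
    refine ⟨c, fun u hu v hv => ?_⟩
    obtain ⟨w, h1, h2, h3⟩ := hc u hu v hv
    refine ⟨w, h1, ?_, fun e he => h3 e he (Set.notMem_empty e)⟩
    rw [m4a_fil] at h2
    · exact h2
    · intro e _
      exact m4a_dec _ _ (Set.notMem_empty e)
  · rintro ⟨c, hc⟩
    refine ⟨c, fun u hu v hv => ?_⟩
    obtain ⟨w, h1, h2, h3⟩ := hc u hu v hv
    refine ⟨w, h1, ?_, fun e he _ => h3 e he⟩
    rw [m4a_fil]
    · exact h2
    · intro e _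
      exact m4a_dec _ _ (Set.notMem_empty e)

/-- [RBE-M4i] Proof. Same walks, the filtered list is a sublist (of a nodup list after `map`). -/
theorem Rb.frb {q : ℕ} (h : Rb G D q) : FRb G E0 D q := by
  classical
  obtain ⟨c, hc⟩ := h
  refine ⟨c, fun u hu v hv => ?_⟩
  obtain ⟨w, h1, h2, h3⟩ := hc u hu v hv
  exact ⟨w, h1, h2.sublist (List.Sublist.map c List.filter_sublist), fun e he _ => h3 e he⟩

/-- [RBE-M4j] Proof. `Walk.mapLe` on the walks. -/
theorem rb_le {G' : SimpleGraph V} (hG : G ≤ G') {q : ℕ} (h : Rb G D q) : Rb G' D q := by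
  obtain ⟨c, hc⟩ := h
  refine ⟨c, fun u hu v hv => ?_⟩
  obtain ⟨w, h1, h2, h3⟩ := hc u hu v hv
  refine ⟨w.mapLe hG, ?_, ?_, ?_⟩
  · rw [Walk.support_mapLe_eq_support]
    exact h1
  · rw [Walk.edges_mapLe_eq_edges]
    exact h2
  · rw [Walk.edges_mapLe_eq_edges]
    exact h3

/-- [RBE-M4k] A hub costs one colour in `cl G X`. Proof. Colour everything `0`; `u = v`: nil, otherwise one edge. -/
theorem rb_cl {X : Set V} : Rb (cl G X) X 1 := by
  classical
  refine ⟨fun _ => 0, fun u hu v hv => ?_⟩
  by_cases huv : u = v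
  · subst huv
    refine ⟨Walk.nil, ?_, List.nodup_nil, ?_⟩
    · intro x hx
      rw [Walk.support_nil, List.mem_singleton] at hx
      rw [hx]
      exact hu
    · intro e he
      exact absurd he List.not_mem_nil
  · have ha : (cl G X).Adj u v := cl_adj.2 (Or.inr ⟨huv, hu, hv⟩)
    refine ⟨ha.toWalk, ?_, ?_, fun e he => Nat.zero_lt_one⟩
    · intro z hz
      simp only [SimpleGraph.Adj.toWalk, Walk.support_cons, Walk.support_nil, List.mem_cons,
        List.not_mem_nil, or_false] at hz
      rcases hz with rfl | rfl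
      · exact hu
      · exact hv
    · have h1 : ha.toWalk.edges = [s(u, v)] := rfl
      rw [h1]
      exact List.nodup_singleton _

/-- [RBE-M4o] The leg in `cl G X` as free joins with a given palette: the shifted colouring.
Proof. `c` of `h`; `c' e = s + c e`. The list of colours is the image of the old one under an injective map. -/
theorem rb_shift {q : ℕ} (h : Rb G D q) (s : ℕ) :
    ∃ c : Sym2 V → ℕ, ∀ u ∈ D, ∀ v ∈ D, Jn G E0 c D {i | s ≤ i ∧ i < s + q} u v := by
  classical
  obtain ⟨c, hc⟩ := h
  refine ⟨fun e => s + c e, fun u hu v hv => ?_⟩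
  obtain ⟨w, h1, h2, h3⟩ := hc u hu v hv
  refine ⟨w, h1, ?_, ?_⟩
  · have h4 : (w.edges.map (fun e => s + c e)).Nodup := by
      have h5 : w.edges.map (fun e => s + c e) = (w.edges.map c).map (fun n => s + n) := by
        rw [List.map_map]
        rfl
      rw [h5]
      exact List.Nodup.map (fun a b hab => Nat.add_left_cancel hab) h2
    exact h4.sublist (List.Sublist.map _ List.filter_sublist)
  · intro e he _
    have h4 := h3 e he
    exact ⟨Nat.le_add_right _ _, Nat.add_lt_add_left h4 s⟩

end

end Pool.RBE
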