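import Pool.Agent.RBE.M4A

set_option autoImplicit false

/-! [RBE-M4B] cutting walks at a hub, paying for a hub. -/

namespace Pool.RBE

open SimpleGraph Pool.Agent.RBC

section
variable {V : Type} {G : SimpleGraph V} {E0 : Set (Sym2 V)} {c : Sym2 V → ℕ} {D : Set V} {Γ : Set ℕ}

/-- [RBE-M4l] Cut a walk at its first and last vertex in `X`.
Proof. Induction on `w`. `nil`: `x = y = u`, nil walks. `cons (u ~ b) p`, `p : b → v`. If `u ∈ X`: `x = u`, `w1 = nil`; if `p` meets `X` take `y, w3` of
the induction hypothesis, otherwise `y = u`, `w3 = cons _ p` (its edges: `s(u,b)` with `b ∉ X`, and edges of `p` whose ends are not in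
`X`). If `u ∉ X`: `p` meets `X`; `w1 = cons _ w1'` (the edge `s(u,b)` has the end `u ∉ X`), `w3 = w3'`. -/
theorem cut_walk {u v : V} (w : G.Walk u v) (X : Set V) (hX : ∃ z ∈ w.support, z ∈ X) :
    ∃ x y : V, x ∈ X ∧ y ∈ X ∧ ∃ (w1 : G.Walk u x) (w3 : G.Walk y v),
      (w1.edges ++ w3.edges).Sublist w.edges ∧ (∀ z ∈ w1.support, z ∈ w.support) ∧
      (∀ z ∈ w3.support, z ∈ w.support) ∧ (∀ e ∈ w1.edges, e ∉ ins X) ∧ (∀ e ∈ w3.edges, e ∉ ins X) := by
  classical
  induction w with
  | nil =>
    rename_i a
    obtain ⟨z, hz, hzX⟩ := hX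
    rw [Walk.support_nil, List.mem_singleton] at hz
    subst hz
    exact ⟨z, z, hzX, hzX, Walk.nil, Walk.nil, by simp, by simp, by simp, by simp, by simp⟩
  | cons hadj p ih =>
    rename_i a b d
    by_cases ha : a ∈ X
    · by_cases hp : ∃ z ∈ p.support, z ∈ X
      · obtain ⟨x, y, hx, hy, w1, w3, h1, h2, h3, h4, h5⟩ := ih hp
        refine ⟨a, y, ha, hy, Walk.nil, w3, ?_, ?_, ?_, by simp, h5⟩
        · rw [Walk.edges_nil, List.nil_append, Walk.edges_cons]
          exact ((List.sublist_append_right _ _).trans h1).trans (List.sublist_cons_self _ _)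
        · intro z hz
          rw [Walk.support_nil, List.mem_singleton] at hz
          rw [hz]
          exact Walk.start_mem_support _
        · intro z hz
          rw [Walk.support_cons, List.mem_cons]
          exact Or.inr (h3 z hz)
      · push Not at hp
        refine ⟨a, a, ha, ha, Walk.nil, Walk.cons hadj p, by simp, ?_, fun z hz => hz, by simp, ?_⟩
        · intro z hz
          rw [Walk.support_nil, List.mem_singleton] at hz
          rw [hz]
          exact Walk.start_mem_support _
        · intro e he
          rw [Walk.edges_cons, List.mem_cons] at he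
          rcases he with rfl | he
          · intro hin
            exact hp b p.start_mem_support (hin b (Sym2.mem_mk_right a b))
          · intro hin
            induction e with
            | _ s t => exact hp s (p.fst_mem_support_of_mem_edges he) (hin s (Sym2.mem_mk_left s t))
    · have hp : ∃ z ∈ p.support, z ∈ X := by
        obtain ⟨z, hz, hzX⟩ := hX
        rw [Walk.support_cons, List.mem_cons] at hz
        rcases hz with rfl | hz
        · exact absurd hzX ha
        · exact ⟨z, hz, hzX⟩
      obtain ⟨x, y, hx, hy, w1, w3, h1, h2, h3, h4, h5⟩ := ih hp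
      refine ⟨x, y, hx, hy, Walk.cons hadj w1, w3, ?_, ?_, ?_, ?_, h5⟩
      · rw [Walk.edges_cons, Walk.edges_cons, List.cons_append]
        exact h1.cons_cons _
      · intro z hz
        rw [Walk.support_cons, List.mem_cons] at hz ⊢
        exact hz.imp id (h2 z)
      · intro z hz
        rw [Walk.support_cons, List.mem_cons]
        exact Or.inr (h3 z hz)
      · intro e he
        rw [Walk.edges_cons, List.mem_cons] at he
        rcases he with rfl | he
        · intro hin
          exact ha (hin a (Sym2.mem_mk_left a b))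
        · exact h4 e he

/-- [RBE-M4m] A set which is connected inside itself is rainbow connected with `|X|` colours.
Proof. `X = ∅` trivial. Claim for all `n < |X|`: there is a finite `Y ⊆ X` with `|Y| = n + 1` and `Rb G Y n` (`rb_singleton`; if `Y ≠ X`
take `x ∈ Y`, `z ∈ X \ Y` and a walk in `X`: it has an edge `a ~ b`, `a ∈ Y`, `b ∈ X \ Y`; `rb_walk` with this edge).
For `n + 1 = |X|` we get `Y = X`; `rb_mono`. -/
theorem rb_conn {X : Set V} (hf : X.Finite) (hX : ConnIn G X) : Rb G X X.ncard := by
  classical
  rcases X.eq_empty_or_nonempty with rfl | ⟨x0, hx0⟩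
  · exact ⟨fun _ => 0, fun u hu => absurd hu (Set.notMem_empty u)⟩
  have claim : ∀ n, n + 1 ≤ X.ncard → ∃ Y : Set V, Y ⊆ X ∧ Y.ncard = n + 1 ∧ Rb G Y n := by
    intro n
    induction n with
    | zero =>
      intro _
      exact ⟨{x0}, Set.singleton_subset_iff.2 hx0, by simp, rb_singleton x0⟩
    | succ n ih =>
      intro hn
      obtain ⟨Y, hYX, hYc, hYr⟩ := ih (by omega)
      have hYf : Y.Finite := hf.subset hYX
      obtain ⟨z, hzX, hzY⟩ : ∃ z ∈ X, z ∉ Y := Set.exists_mem_notMem_of_ncard_lt_ncard (by omega) hYf
      obtain ⟨x, hxY⟩ : Y.Nonempty := by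
        rw [← Set.ncard_pos hYf]; omega
      obtain ⟨w, hw⟩ := hX x (hYX hxY) z hzX
      obtain ⟨d, hd, hd1, hd2⟩ := w.exists_boundary_dart Y hxY hzY
      have hbX : d.snd ∈ X := hw _ (w.dart_snd_mem_support_of_mem_darts hd)
      have := rb_walk hYr hd1 (Walk.cons d.adj Walk.nil)
      have hset : Y ∪ {x | x ∈ (Walk.cons d.adj (Walk.nil : G.Walk d.snd d.snd)).support}
          = insert d.snd Y := by
        ext t
        simp only [Walk.support_cons, Walk.support_nil, Set.mem_union, Set.mem_ofPred_eq,
          List.mem_cons, List.not_mem_nil, or_false, Set.mem_insert_iff]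
        constructor
        · rintro (h | rfl | rfl)
          · exact Or.inr h
          · exact Or.inr hd1
          · exact Or.inl rfl
        · rintro (rfl | h)
          · exact Or.inr (Or.inr rfl)
          · exact Or.inl h
      rw [hset] at this
      refine ⟨insert d.snd Y, Set.insert_subset hbX hYX, ?_, by simpa using this⟩
      rw [Set.ncard_insert_of_notMem hd2 hYf, hYc]
  have hpos : 0 < X.ncard := (Set.ncard_pos hf).2 ⟨x0, hx0⟩
  obtain ⟨Y, hYX, hYc, hYr⟩ := claim (X.ncard - 1) (by omega)
  have : Y = X := Set.eq_of_subset_of_ncard_le hYX (by omega) hf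
  rw [this] at hYr
  exact rb_mono hYr (by omega)

theorem m4b_mem {X : Set V} {e : Sym2 V} (he : e ∈ (cl G X).edgeSet) (h : e ∉ ins X) : e ∈ G.edgeSet := by
  induction e with
  | _ s t =>
    rw [SimpleGraph.mem_edgeSet, cl_adj] at he
    rcases he with he | ⟨_, hs, ht⟩
    · exact he
    · exfalso
      apply h
      intro v hv
      rcases Sym2.mem_iff.1 hv with rfl | rfl
      · exact hs
      · exact ht

open Classical in
theorem m4b_list (q : ℕ) (E0 I : Set (Sym2 V)) (c cX : Sym2 V → ℕ) (l1 l2 l3 l : List (Sym2 V))
    (hsub : (l1 ++ l3).Sublist l) (h1 : ∀ e ∈ l1, e ∉ I) (h3 : ∀ e ∈ l3, e ∉ I) (h2 : ∀ e ∈ l2, e ∈ I)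
    (hn : ((l.filter (fun e => decide (e ∉ E0 ∪ I))).map c).Nodup)
    (hq : ∀ e ∈ l, e ∉ E0 ∪ I → c e < q) (hnX : (l2.map cX).Nodup) :
    (((l1 ++ (l2 ++ l3)).filter (fun e => decide (e ∉ E0))).map
      (fun e => if e ∈ I then q + cX e else c e)).Nodup := by
  have e1 : ∀ l' : List (Sym2 V), (∀ e ∈ l', e ∉ I) →
      (l'.filter (fun e => decide (e ∉ E0))).map (fun e => if e ∈ I then q + cX e else c e) =
      (l'.filter (fun e => decide (e ∉ E0 ∪ I))).map c := by
    intro l' hl'
    have : l'.filter (fun e => decide (e ∉ E0)) = l'.filter (fun e => decide (e ∉ E0 ∪ I)) := by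
      apply List.filter_congr
      intro e he
      have := hl' e he
      simp [this]
    rw [this]
    apply List.map_congr_left
    intro e he
    rw [List.mem_filter] at he
    exact if_neg (hl' e he.1)
  have e2 : (l2.filter (fun e => decide (e ∉ E0))).map (fun e => if e ∈ I then q + cX e else c e) =
      ((l2.filter (fun e => decide (e ∉ E0))).map cX).map (fun a => q + a) := by
    rw [List.map_map]
    apply List.map_congr_left
    intro e he
    rw [List.mem_filter] at he
    simp [h2 e he.1]
  rw [List.filter_append, List.filter_append, List.map_append, List.map_append, e1 l1 h1, e1 l3 h3, e2]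
  have hAC : ((l1.filter (fun e => decide (e ∉ E0 ∪ I))).map c ++
      (l3.filter (fun e => decide (e ∉ E0 ∪ I))).map c).Nodup := by
    rw [← List.map_append, ← List.filter_append]
    exact hn.sublist ((hsub.filter _).map _)
  have hB : (((l2.filter (fun e => decide (e ∉ E0))).map cX).map (fun a => q + a)).Nodup := by
    apply List.Nodup.map
    · intro a b hab
      exact Nat.add_left_cancel hab
    · exact hnX.sublist (List.filter_sublist.map _)
  have lt1 : ∀ a ∈ (l1.filter (fun e => decide (e ∉ E0 ∪ I))).map c, a < q := by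
    intro a ha
    obtain ⟨e, he, rfl⟩ := List.mem_map.1 ha
    rw [List.mem_filter, decide_eq_true_eq] at he
    exact hq e (hsub.subset (List.mem_append_left _ he.1)) he.2
  have lt3 : ∀ a ∈ (l3.filter (fun e => decide (e ∉ E0 ∪ I))).map c, a < q := by
    intro a ha
    obtain ⟨e, he, rfl⟩ := List.mem_map.1 ha
    rw [List.mem_filter, decide_eq_true_eq] at he
    exact hq e (hsub.subset (List.mem_append_right _ he.1)) he.2
  have ge2 : ∀ a ∈ ((l2.filter (fun e => decide (e ∉ E0))).map cX).map (fun a => q + a), q ≤ a := by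
    intro a ha
    obtain ⟨b, _, rfl⟩ := List.mem_map.1 ha
    exact Nat.le_add_right _ _
  rw [List.nodup_append] at hAC
  rw [List.nodup_append]
  refine ⟨hAC.1, ?_, ?_⟩
  · rw [List.nodup_append]
    refine ⟨hB, hAC.2.1, ?_⟩
    intro a ha b hb hab
    have := ge2 a ha
    have := lt3 b hb
    omega
  · intro a ha b hb hab
    rcases List.mem_append.1 hb with hb | hb
    · have := lt1 a ha
      have := ge2 b hb
      omega
    · exact hAC.2.2 a ha b hb hab

/-- [RBE-M4n] Pay for a hub: the free edges inside `X` and the virtual edges inside `X` are removed.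
Proof. `c` from the hypothesis, `cX` from `rb_conn` for `X` (`< |X|`). `c' e = q + cX e` for `e ∈ ins X`, `c' e = c e` otherwise.
Let `w` be the walk for `u, v ∈ D`. If it does not meet `X`, all its edges are edges of `G` (`cl_adj`), transfer (`Walk.transfer`); they are not in `ins X`, colours as before.
Otherwise `cut_walk` gives `x, y, w1, w3`; `w1, w3` have no edge in `ins X`, transfer them to `G`. Take the walk `w2` from `x` to `y` in `X`
(`cX`). The walk `w1 ++ w2 ++ w3`: the edges not in `E0` of `w1`, `w3` are non-free for `w` (not in `ins X`), with distinct colours `< q` (sublist); the edges of `w2` are in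
`ins X` and have distinct colours in `[q, q + |X|)`. -/
theorem hub_out {X : Set V} (hf : X.Finite) (hX : ConnIn G X) (hXD : X ⊆ D) {q : ℕ}
    (h : FRb (cl G X) (E0 ∪ ins X) D q) : FRb G E0 D (q + X.ncard) := by
  classical
  obtain ⟨c, hc⟩ := h
  obtain ⟨cX, hcX⟩ := rb_conn hf hX
  refine ⟨fun e => if e ∈ ins X then q + cX e else c e, ?_⟩
  intro u hu v hv
  obtain ⟨w, hwD, hwn, hwc⟩ := hc u hu v hv
  have hwc' : ∀ e ∈ w.edges, e ∉ E0 ∪ ins X → c e < q := fun e he h => hwc e he h
  have hwn' : ((w.edges.filter (fun e => decide (e ∉ E0 ∪ ins X))).map c).Nodup := by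
    convert hwn
  by_cases hm : ∃ z ∈ w.support, z ∈ X
  · obtain ⟨x, y, hx, hy, w1, w3, hsub, hs1, hs3, he1, he3⟩ := cut_walk w X hm
    obtain ⟨w2, h21, h22, h23⟩ := hcX x hx y hy
    have ht1 : ∀ e ∈ w1.edges, e ∈ G.edgeSet := fun e he =>
      m4b_mem (w1.edges_subset_edgeSet he) (he1 e he)
    have ht3 : ∀ e ∈ w3.edges, e ∈ G.edgeSet := fun e he =>
      m4b_mem (w3.edges_subset_edgeSet he) (he3 e he)
    have hin2 : ∀ e ∈ w2.edges, e ∈ ins X := by
      intro e he
      induction e with
      | _ s t =>
        intro z hz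
        rcases Sym2.mem_iff.1 hz with rfl | rfl
        · exact h21 _ (w2.fst_mem_support_of_mem_edges he)
        · exact h21 _ (w2.snd_mem_support_of_mem_edges he)
    refine ⟨(w1.transfer G ht1).append (w2.append (w3.transfer G ht3)), ?_, ?_, ?_⟩
    · intro z hz
      rw [Walk.mem_support_append_iff, Walk.mem_support_append_iff, Walk.support_transfer,
        Walk.support_transfer] at hz
      rcases hz with hz | hz | hz
      · exact hwD z (hs1 z hz)
      · exact hXD (h21 z hz)
      · exact hwD z (hs3 z hz)
    · rw [Walk.edges_append, Walk.edges_append, Walk.edges_transfer, Walk.edges_transfer]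
      convert m4b_list q E0 (ins X) c cX w1.edges w2.edges w3.edges w.edges hsub he1 he3 hin2 hwn' hwc' h22
    · intro e he heE
      rw [Walk.edges_append, Walk.edges_append, Walk.edges_transfer, Walk.edges_transfer,
        List.mem_append, List.mem_append] at he
      show (if e ∈ ins X then q + cX e else c e) < q + X.ncard
      rcases he with he | he | he
      · rw [if_neg (he1 e he)]
        exact (hwc' e (hsub.subset (List.mem_append_left _ he))
          (fun h => h.elim heE (he1 e he))).trans_le (Nat.le_add_right _ _)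
      · rw [if_pos (hin2 e he)]
        exact Nat.add_lt_add_left (h23 e he) q
      · rw [if_neg (he3 e he)]
        exact (hwc' e (hsub.subset (List.mem_append_right _ he))
          (fun h => h.elim heE (he3 e he))).trans_le (Nat.le_add_right _ _)
  · push Not at hm
    have hin : ∀ e ∈ w.edges, e ∉ ins X := by
      intro e he hin
      induction e with
      | _ s t => exact hm s (w.fst_mem_support_of_mem_edges he) (hin s (Sym2.mem_mk_left s t))
    have ht : ∀ e ∈ w.edges, e ∈ G.edgeSet := fun e he =>
      m4b_mem (w.edges_subset_edgeSet he) (hin e he)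
    refine ⟨w.transfer G ht, ?_, ?_, ?_⟩
    · intro z hz
      rw [Walk.support_transfer] at hz
      exact hwD z hz
    · rw [Walk.edges_transfer]
      have := m4b_list q E0 (ins X) c cX w.edges [] [] w.edges (by simp) hin (by simp) (by simp) hwn' hwc'
        (by simp)
      rw [List.append_nil, List.append_nil] at this
      convert this
    · intro e he heE
      rw [Walk.edges_transfer] at he
      show (if e ∈ ins X then q + cX e else c e) < q + X.ncard
      rw [if_neg (hin e he)]
      exact (hwc' e he (fun h => h.elim heE (hin e he))).trans_le (Nat.le_add_right _ _)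

end

end Pool.RBE
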