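import Pool.Agent.RBE.M5A
import Pool.Agent.MP_dd54b8_co.C3

set_option autoImplicit false

/-! [RBE-M5B] pendant paths and ears with connectors. -/

namespace Pool.RBE

open SimpleGraph Pool.Agent.RBC

section
variable {V : Type} {G : SimpleGraph V} {X A : Set V} {h : V → ℕ}

theorem m5b_walk (hS : Side G X A h) {a u : V} (w : G.Walk a u) (ha : a ∈ X ∨ a ∈ A) :
    ∃ u', (u' ∈ X ∨ u' = u) ∧ ∃ w' : G.Walk a u', w'.length ≤ w.length ∧ ∀ z ∈ w'.support, z ∈ X ∨ z ∈ A := by
  induction w with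
  | nil =>
    refine ⟨_, Or.inr rfl, Walk.nil, le_rfl, ?_⟩
    intro z hz
    rw [Walk.support_nil, List.mem_singleton] at hz
    rw [hz]; exact ha
  | cons hadj p ih =>
    rename_i a b u
    by_cases haX : a ∈ X
    · refine ⟨a, Or.inl haX, Walk.nil, Nat.zero_le _, ?_⟩
      intro z hz
      rw [Walk.support_nil, List.mem_singleton] at hz
      rw [hz]; exact ha
    · have haA : a ∈ A := ha.resolve_left haX
      obtain ⟨u', h1, w', h2, h3⟩ := ih (hS.nbr a haA b hadj).symm
      refine ⟨u', h1, Walk.cons hadj w', ?_, ?_⟩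
      · rw [Walk.length_cons, Walk.length_cons]; omega
      · intro z hz
        rw [Walk.support_cons, List.mem_cons] at hz
        rcases hz with rfl | hz
        · exact ha
        · exact h3 z hz

/-- [RBE-M5h] Proof. Induction on the walk `w` from `a` to `u`, claim: for `a ∈ X ∨ a ∈ A` there are `u' ∈ X` or `u' = u`, and a walk from `a` to `u'`
of length `≤ w.length` with all vertices in `X ∪ A`. `a ∈ X`: nil walk, `u' = a`. `a ∈ A`: for `nil` take it; for `cons (a ~ b) p`: `b ∈ A ∨ b ∈ X` by `nbr`, use the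
induction hypothesis for `b`. Apply to a geodesic from `a` to `u ∈ D` with `dist a u ≤ α`; reverse. -/
theorem conn_walk (hG : G.Connected) (hS : Side G X A h) {D : Set V} (hXD : X ⊆ D) (hDA : ∀ v ∈ D, v ∈ X ∨ v ∈ A)
    {a u : V} (ha : a ∈ X ∨ a ∈ A) (hu : u ∈ D) {α : ℕ} (hα : G.dist a u ≤ α) :
    ∃ u' ∈ D, ∃ w : G.Walk u' a, w.length ≤ α ∧ ∀ z ∈ w.support, z ∈ X ∨ z ∈ A := by
  obtain ⟨p, hp⟩ := hG.exists_walk_length_eq_dist a u
  obtain ⟨u', h1, w', h2, h3⟩ := m5b_walk hS p ha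
  refine ⟨u', ?_, w'.reverse, ?_, ?_⟩
  · rcases h1 with h1 | rfl
    · exact hXD h1
    · exact hu
  · rw [Walk.length_reverse]; omega
  · intro z hz
    rw [Walk.support_reverse, List.mem_reverse] at hz
    exact h3 z hz

theorem m5b_seq {y : ℕ → V} (n : ℕ) (hadj : ∀ i, i < n → G.Adj (y i) (y (i + 1))) :
    ∃ w : G.Walk (y 0) (y n), w.length = n ∧ (∀ x ∈ w.support, ∃ t, t ≤ n ∧ x = y t) ∧
      ∀ t, t ≤ n → y t ∈ w.support := by
  induction n with
  | zero =>
    refine ⟨Walk.nil, rfl, ?_, ?_⟩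
    · intro x hx
      rw [Walk.support_nil, List.mem_singleton] at hx
      exact ⟨0, le_rfl, hx⟩
    · intro t ht
      have : t = 0 := by omega
      subst this
      simp
  | succ n ih =>
    obtain ⟨w, h1, h2, h3⟩ := ih (fun i hi => hadj i (by omega))
    refine ⟨w.concat (hadj n (by omega)), ?_, ?_, ?_⟩
    · rw [Walk.length_concat, h1]
    · intro x hx
      rw [Walk.support_concat, List.mem_append] at hx
      rcases hx with hx | hx
      · obtain ⟨t, ht, rfl⟩ := h2 x hx
        exact ⟨t, by omega, rfl⟩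
      · rw [List.mem_singleton] at hx
        exact ⟨n + 1, le_rfl, hx⟩
    · intro t ht
      rw [Walk.support_concat, List.mem_append]
      rcases Nat.lt_or_ge t (n + 1) with h | h
      · exact Or.inl (h3 t (by omega))
      · right
        have : t = n + 1 := by omega
        subst this
        simp

end

section
variable {V : Type} [Fintype V] {G : SimpleGraph V} {X A : Set V} {h : V → ℕ}

theorem m5b_nbh {D : Set V} {x : V} {α : ℕ} (h0 : x ∈ nbh G D α) : ∃ u ∈ D, G.dist x u ≤ α := by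
  classical
  unfold nbh at h0
  rw [Finset.mem_filter] at h0
  exact h0.2

/-- [RBE-M5i] add a pendant path with a connector: `α + n` colours.
Proof. `conn_walk` for `y 0` (`h0 : ∃ u ∈ D, dist (y 0) u ≤ α`): walk `w0` from `u' ∈ D` to `y 0`; `rb_walk` in `cl G X` with `w0` followed by `y 0, …, y n`
(a walk of `cl G X` via `le_cl`), `rb_mono`. -/
theorem pend_step (hG : G.Connected) (hS : Side G X A h) {D : Set V} {q : ℕ} (hXD : X ⊆ D)
    (hDA : ∀ v ∈ D, v ∈ X ∨ v ∈ A) (hr : Rb (cl G X) D q) {y : ℕ → V} {n α : ℕ}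
    (hy : ∀ i, i ≤ n → y i ∈ X ∨ y i ∈ A) (hadj : ∀ i, i < n → G.Adj (y i) (y (i + 1))) (h0 : y 0 ∈ nbh G D α) :
    ∃ D' : Set V, D ⊆ D' ∧ (∀ v ∈ D', v ∈ X ∨ v ∈ A) ∧ (∀ i, i ≤ n → y i ∈ D') ∧ Rb (cl G X) D' (q + α + n) := by
  obtain ⟨u, hu, hd⟩ := m5b_nbh h0
  obtain ⟨u', hu', w0, hl0, hs0⟩ := conn_walk hG hS hXD hDA (hy 0 (Nat.zero_le _)) hu hd
  obtain ⟨w1, hl1, hs1, hs1'⟩ := m5b_seq n hadj
  have hR := rb_walk hr hu' ((w0.append w1).mapLe (le_cl (X := X)))
  refine ⟨_, Set.subset_union_left, ?_, ?_, rb_mono hR ?_⟩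
  · rintro v (hv | hv)
    · exact hDA v hv
    · simp only [Set.mem_ofPred_eq] at hv
      rw [Walk.support_mapLe_eq_support, Walk.mem_support_append_iff] at hv
      rcases hv with hv | hv
      · exact hs0 v hv
      · obtain ⟨t, ht, rfl⟩ := hs1 v hv
        exact hy t ht
  · intro i hi
    right
    simp only [Set.mem_ofPred_eq]
    rw [Walk.support_mapLe_eq_support, Walk.mem_support_append_iff]
    exact Or.inr (hs1' i hi)
  · rw [Walk.length_map, Walk.length_append, hl1]
    omega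

/-- [RBE-M5j] add an ear `y_1, …, y_n` with two connectors.
Proof. `conn_walk` for `y 0` and for `y (n+1)`, `rb_walk` twice (`q + α`, then `q + α + β`, `rb_mono`): `D2 = D ∪ w0.support ∪ w1.support`. `rb_ear_touch` with
`a = y 0`, `b = y (n+1)`, `L = [y 1, …, y n]` (`(List.range n).map (fun i => y (i+1))`), `T = α + β + 2`: the members of `L` in `D2` are not in `D`, so they are in
`w0.support` or `w1.support` (at most `α + 1` resp. `β + 1` different vertices, `L` is nodup). The total is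
`q + α + β + (n + (α + β + 2) + 2) / 2 = q + (n + 3(α+β) + 4) / 2`. -/
theorem ear_step (hG : G.Connected) (hS : Side G X A h) {D : Set V} {q : ℕ} (hXD : X ⊆ D)
    (hDA : ∀ v ∈ D, v ∈ X ∨ v ∈ A) (hr : Rb (cl G X) D q) {y : ℕ → V} {n α β : ℕ}
    (hy : ∀ i, i ≤ n + 1 → y i ∈ X ∨ y i ∈ A) (hadj : ∀ i, i ≤ n → G.Adj (y i) (y (i + 1)))
    (hinj : ∀ i j, 1 ≤ i → i ≤ n → 1 ≤ j → j ≤ n → y i = y j → i = j) (hout : ∀ i, 1 ≤ i → i ≤ n → y i ∉ D)
    (h0 : y 0 ∈ nbh G D α) (h1 : y (n + 1) ∈ nbh G D β) :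
    ∃ D' : Set V, D ⊆ D' ∧ (∀ v ∈ D', v ∈ X ∨ v ∈ A) ∧ (∀ i, 1 ≤ i → i ≤ n → y i ∈ D') ∧
      Rb (cl G X) D' (q + (n + 3 * (α + β) + 4) / 2) := by
  classical
  obtain ⟨u, hu, hd⟩ := m5b_nbh h0
  obtain ⟨u0, hu0, w0, hl0, hs0⟩ := conn_walk hG hS hXD hDA (hy 0 (Nat.zero_le _)) hu hd
  obtain ⟨u2, hu2, hd2⟩ := m5b_nbh h1
  obtain ⟨u1, hu1, w1, hl1, hs1⟩ := conn_walk hG hS hXD hDA (hy (n + 1) le_rfl) hu2 hd2
  have hR := rb_walk (rb_walk hr hu0 (w0.mapLe (le_cl (X := X)))) (Or.inl hu1) (w1.mapLe (le_cl (X := X)))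
  have hR' : Rb (cl G X) (D ∪ {x | x ∈ (w0.mapLe (le_cl (X := X))).support} ∪
      {x | x ∈ (w1.mapLe (le_cl (X := X))).support}) (q + α + β) := by
    refine rb_mono hR ?_
    rw [Walk.length_map, Walk.length_map]
    omega
  rw [Walk.support_mapLe_eq_support, Walk.support_mapLe_eq_support] at hR'
  set L : List V := (List.range n).map (fun i => y (i + 1)) with hL
  have hmemL : ∀ x, x ∈ L ↔ ∃ i, 1 ≤ i ∧ i ≤ n ∧ y i = x := by
    intro x
    rw [hL, List.mem_map]
    constructor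
    · rintro ⟨i, hi, rfl⟩
      rw [List.mem_range] at hi
      exact ⟨i + 1, by omega, by omega, rfl⟩
    · rintro ⟨i, hi1, hi2, rfl⟩
      refine ⟨i - 1, List.mem_range.2 (by omega), ?_⟩
      show y (i - 1 + 1) = y i
      congr 1
      omega
  have hlen : L.length = n := by rw [hL, List.length_map, List.length_range]
  have hchain : List.IsChain (cl G X).Adj (y 0 :: (L ++ [y (n + 1)])) := by
    have : y 0 :: (L ++ [y (n + 1)]) = (List.range (n + 2)).map y := by
      rw [List.range_succ, List.map_append, List.range_succ_eq_map, List.map_cons, List.map_map, hL]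
      rfl
    rw [this, List.isChain_map, show n + 2 = (n + 1).succ from rfl, List.isChain_range_succ]
    intro m hm
    exact le_cl (hadj m (by omega))
  have hnd : L.Nodup := by
    rw [hL]
    apply List.Nodup.map_on _ List.nodup_range
    intro i hi j hj hij
    rw [List.mem_range] at hi hj
    have := hinj (i + 1) (j + 1) (by omega) (by omega) (by omega) (by omega) hij
    omega
  have hT : (L.filter (fun x => decide (x ∈ D ∪ {x | x ∈ w0.support} ∪ {x | x ∈ w1.support}))).length ≤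
      α + β + 2 := by
    have hsub : (L.filter (fun x => decide (x ∈ D ∪ {x | x ∈ w0.support} ∪ {x | x ∈ w1.support}))) ⊆
        w0.support ++ w1.support := by
      intro x hx
      rw [List.mem_filter, decide_eq_true_eq] at hx
      obtain ⟨hxL, hx⟩ := hx
      obtain ⟨i, hi1, hi2, rfl⟩ := (hmemL x).1 hxL
      rw [List.mem_append]
      rcases hx with (hx | hx) | hx
      · exact absurd hx (hout i hi1 hi2)
      · exact Or.inl hx
      · exact Or.inr hx
    have := (List.subperm_of_subset (hnd.filter _) hsub).length_le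
    rw [List.length_append, Walk.length_support, Walk.length_support] at this
    omega
  have hE := rb_ear_touch hR' (a := y 0) (b := y (n + 1)) (Or.inl (Or.inr w0.end_mem_support))
    (Or.inr w1.end_mem_support) L hchain hnd (α + β + 2) (by convert hT)
  refine ⟨_, fun v hv => Or.inl (Or.inl (Or.inl hv)), ?_, ?_, rb_mono hE (by rw [hlen]; omega)⟩
  · rintro v (((hv | hv) | hv) | hv)
    · exact hDA v hv
    · exact hs0 v hv
    · exact hs1 v hv
    · obtain ⟨i, hi1, hi2, rfl⟩ := (hmemL v).1 hv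
      exact hy i (by omega)
  · intro i hi1 hi2
    exact Or.inr ((hmemL _).2 ⟨i, hi1, hi2, rfl⟩)

end

end Pool.RBE
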