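import Pool.Agent.RBE.M5B
import Pool.Agent.RBE.M2
import Pool.Agent.RBE.M3

set_option autoImplicit false

/-! [RBE-M6] The leg lemma: states. -/

namespace Pool.RBE

open SimpleGraph Pool.Agent.RBC

/-- The vertical path `P 0 ∈ X, P 1, …, P T` in the side `A` of the hub `X`; for the levels `t ∉ bad` the annulus between the
radii `ρ` and `ρ'` around `P t` contains no vertex of `A` of height `t`. -/
structure Leg {V : Type} [Fintype V] (G : SimpleGraph V) (k ρ ρ' T : ℕ) (X A : Set V) (h : V → ℕ) (P : ℕ → V)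
    (bad : Finset ℕ) : Prop where
  kc : KConn G k
  k2 : 2 ≤ k
  rho : 4 * (k * k) ≤ ρ
  side : Side G X A h
  p0 : P 0 ∈ X
  pA : ∀ t, 1 ≤ t → t ≤ T → P t ∈ A
  ph : ∀ t, t ≤ T → h (P t) = t
  adj : ∀ t, t < T → G.Adj (P t) (P (t + 1))
  good : ∀ t, 1 ≤ t → t ≤ T → t ∉ bad → ∀ v ∈ A, h v = t → G.dist (P t) v ≤ ρ' → G.dist (P t) v ≤ ρ

/-- State of the construction: `D` with `q` colours (in `cl G X`) and mass `M` near `D` in `A`. -/
structure LSt {V : Type} [Fintype V] (G : SimpleGraph V) (ρ : ℕ) (X A D : Set V) (q : ℕ) (M : Finset V) : Prop where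
  sub : X ⊆ D
  sup : ∀ v ∈ D, v ∈ X ∨ v ∈ A
  rb : Rb (cl G X) D q
  mD : M ⊆ nbh G D ρ
  mA : ∀ v ∈ M, v ∈ A

open Classical in
/-- The vertices of `A` of height `t` near `P t`. -/
noncomputable def grp {V : Type} [Fintype V] (G : SimpleGraph V) (A : Set V) (h : V → ℕ) (ρ t : ℕ) (x : V) : Finset V :=
  Finset.univ.filter (fun v => v ∈ A ∧ h v = t ∧ G.dist x v ≤ ρ)

end Pool.RBE
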