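import Pool.Agent.RBE.M6

set_option autoImplicit false

/-! [RBE-M6A] ear with mass. -/

namespace Pool.RBE

open SimpleGraph Pool.Agent.RBC

section
variable {V : Type} [Fintype V] {G : SimpleGraph V} {k ρ ρ' T : ℕ} {X A : Set V} {h : V → ℕ} {P : ℕ → V}
  {bad : Finset ℕ} {D : Set V} {q : ℕ} {M : Finset V}

/-- [RBE-M6a] Ear with mass. Proof. `ear_step` (`y i ∉ D` since `D ⊆ nbh G D (2ρ)`); `N = nbh G {y_1..y_n} ρ`, `M' = M ∪ N`. `N ⊆ nbh G D' ρ`. `M, N` disjoint: `v ∈ M ∩ N` gives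
`u ∈ D` with `dist v u ≤ ρ` and `i` with `dist v (y i) ≤ ρ`, so `y i ∈ nbh G D (2ρ)`. `N ⊆ A`: let `dist v (y i) ≤ ρ`; `y i ∉ X` (`X ⊆ D`), so `y i ∈ A`; `att (y i)` gives `x ∈ X` with
`dist (y i) x = h (y i)`, so `h (y i) > 2ρ`; if `v ∉ A` then `h (y i) ≤ h v + dist (y i) v ≤ 0 + ρ` (`side_lip_dist`, `out`), contradiction. -/
theorem ear_state (hG : G.Connected) (hS : Side G X A h) (hs : LSt G ρ X A D q M) {y : ℕ → V} {n α β κ : ℕ}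
    (hy : ∀ i, i ≤ n + 1 → y i ∈ X ∨ y i ∈ A) (hadj : ∀ i, i ≤ n → G.Adj (y i) (y (i + 1)))
    (hinj : ∀ i j, 1 ≤ i → i ≤ n → 1 ≤ j → j ≤ n → y i = y j → i = j)
    (hfar : ∀ i, 1 ≤ i → i ≤ n → y i ∉ nbh G D (2 * ρ)) (h0 : y 0 ∈ nbh G D α) (h1 : y (n + 1) ∈ nbh G D β)
    (hm : k * n ≤ 2 * (nbh G {v | ∃ i, 1 ≤ i ∧ i ≤ n ∧ v = y i} ρ).card + κ) :
    ∃ (D' : Set V) (M' : Finset V), LSt G ρ X A D' (q + (n + 3 * (α + β) + 4) / 2) M' ∧ D ⊆ D' ∧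
      (∀ i, 1 ≤ i → i ≤ n → y i ∈ D') ∧ 2 * M.card + k * n ≤ 2 * M'.card + κ := by
  classical
  have hmem : ∀ (E : Set V) (r : ℕ) (v : V), v ∈ nbh G E r ↔ ∃ u ∈ E, G.dist v u ≤ r := by
    intro E r v
    unfold nbh
    simp
  have hout : ∀ i, 1 ≤ i → i ≤ n → y i ∉ D := by
    intro i h1 h2 h3
    exact hfar i h1 h2 ((hmem _ _ _).2 ⟨y i, h3, by simp⟩)
  obtain ⟨D', hDD, hD'A, hyD, hr⟩ := ear_step hG hS hs.sub hs.sup hs.rb hy hadj hinj hout h0 h1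
  set N : Finset V := nbh G {v | ∃ i, 1 ≤ i ∧ i ≤ n ∧ v = y i} ρ with hN
  have hNmem : ∀ v, v ∈ N ↔ ∃ i, 1 ≤ i ∧ i ≤ n ∧ G.dist v (y i) ≤ ρ := by
    intro v
    rw [hN, hmem]
    constructor
    · rintro ⟨u, ⟨i, h1, h2, rfl⟩, h3⟩
      exact ⟨i, h1, h2, h3⟩
    · rintro ⟨i, h1, h2, h3⟩
      exact ⟨y i, ⟨i, h1, h2, rfl⟩, h3⟩
  have hNA : ∀ v ∈ N, v ∈ A := by
    intro v hv
    obtain ⟨i, h1, h2, h3⟩ := (hNmem v).1 hv
    have hyX : y i ∉ X := fun hc => hout i h1 h2 (hs.sub hc)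
    have hyA : y i ∈ A := (hy i (by omega)).resolve_left hyX
    obtain ⟨x, hx, hxd⟩ := hS.att (y i) hyA
    have h4 : 2 * ρ < h (y i) := by
      by_contra hc
      push Not at hc
      exact hfar i h1 h2 ((hmem _ _ _).2 ⟨x, hs.sub hx, by omega⟩)
    by_contra hvA
    have h5 := side_lip_dist hG hS (y i) v
    rw [hS.out v hvA, SimpleGraph.dist_comm] at h5
    omega
  have hdisj : Disjoint M N := by
    rw [Finset.disjoint_left]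
    intro v hvM hvN
    obtain ⟨i, h1, h2, h3⟩ := (hNmem v).1 hvN
    obtain ⟨u, hu, hd⟩ := (hmem _ _ _).1 (hs.mD hvM)
    apply hfar i h1 h2
    refine (hmem _ _ _).2 ⟨u, hu, ?_⟩
    have h4 := hG.dist_triangle (u := y i) (v := v) (w := u)
    rw [SimpleGraph.dist_comm (u := y i) (v := v)] at h4
    omega
  refine ⟨D', M ∪ N, ⟨hs.sub.trans hDD, hD'A, hr, ?_, ?_⟩, hDD, hyD, ?_⟩
  · intro v hv
    rcases Finset.mem_union.1 hv with hv | hv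
    · obtain ⟨u, hu, hd⟩ := (hmem _ _ _).1 (hs.mD hv)
      exact (hmem _ _ _).2 ⟨u, hDD hu, hd⟩
    · obtain ⟨i, h1, h2, h3⟩ := (hNmem v).1 hv
      exact (hmem _ _ _).2 ⟨y i, hyD i h1 h2, h3⟩
  · intro v hv
    rcases Finset.mem_union.1 hv with hv | hv
    · exact hs.mA v hv
    · exact hNA v hv
  · rw [Finset.card_union_of_disjoint hdisj]
    omega

end

end Pool.RBE
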