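import Pool.Agent.RBE.M6

set_option autoImplicit false

/-! [RBE-M6B] pendant piece of the vertical path with mass. -/

namespace Pool.RBE

open SimpleGraph Pool.Agent.RBC

section
variable {V : Type} [Fintype V] {G : SimpleGraph V} {k ρ ρ' T : ℕ} {X A : Set V} {h : V → ℕ} {P : ℕ → V}
  {bad : Finset ℕ} {D : Set V} {q : ℕ} {M : Finset V}

/-- [RBE-M6b] Pendant piece of `P` with mass. Proof. `pend_step` with `y i = P (t0 + i)`, `n = t1 - t0`. `M' = M ∪ N`, `N` = union of `grp G A h ρ t (P t)` over `t0 ≤ t < t1`,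
`t ∉ bad`: disjoint for different `t` (different heights), each `≥ k`; `N ⊆ nbh G D' ρ` (`P t ∈ D'`), `N ⊆ A`, disjoint from `M ⊆ nbh G D ρ` by `hfar` (triangle). The number of `t` is
`≥ (t1 - t0) - #(bad ∩ [t0, t1))`. -/
theorem pend_state (hG : G.Connected) (L : Leg G k ρ ρ' T X A h P bad) (hs : LSt G ρ X A D q M) {t0 t1 α : ℕ}
    (h01 : t0 ≤ t1) (h1T : t1 ≤ T) (h0 : P t0 ∈ nbh G D α)
    (hfar : ∀ t, t0 ≤ t → t < t1 → P t ∉ nbh G D (2 * ρ))
    (hthick : ∀ t, t0 ≤ t → t < t1 → t ∉ bad → k ≤ (grp G A h ρ t (P t)).card) :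
    ∃ (D' : Set V) (M' : Finset V), LSt G ρ X A D' (q + α + (t1 - t0)) M' ∧ D ⊆ D' ∧
      (∀ t, t0 ≤ t → t ≤ t1 → P t ∈ D') ∧
      M.card + k * (t1 - t0) ≤ M'.card + k * (bad.filter (fun t => t0 ≤ t ∧ t < t1)).card := by
  classical
  have hmem : ∀ (E : Set V) (r : ℕ) (v : V), v ∈ nbh G E r ↔ ∃ u ∈ E, G.dist v u ≤ r := by
    intro E r v
    unfold nbh
    simp
  have hg : ∀ t v, v ∈ grp G A h ρ t (P t) ↔ v ∈ A ∧ h v = t ∧ G.dist (P t) v ≤ ρ := by
    intro t v
    unfold grp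
    simp
  obtain ⟨D', hDD, hD'A, hyD, hr⟩ := pend_step hG L.side hs.sub hs.sup hs.rb (y := fun i => P (t0 + i))
    (n := t1 - t0) (α := α)
    (by
      intro i hi
      rcases Nat.eq_zero_or_pos (t0 + i) with h | h
      · left; show P (t0 + i) ∈ X; rw [h]; exact L.p0
      · right; exact L.pA _ h (by omega))
    (by
      intro i hi
      exact L.adj (t0 + i) (by omega))
    (by simpa using h0)
  have hPD : ∀ t, t0 ≤ t → t ≤ t1 → P t ∈ D' := by
    intro t h1 h2
    have h3 := hyD (t - t0) (by omega)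
    have h4 : t0 + (t - t0) = t := by omega
    rw [h4] at h3
    exact h3
  let I : Finset ℕ := (Finset.Ico t0 t1).filter (fun t => t ∉ bad)
  let N : Finset V := I.biUnion (fun t => grp G A h ρ t (P t))
  have hNmem : ∀ v, v ∈ N → ∃ t, t0 ≤ t ∧ t < t1 ∧ v ∈ A ∧ G.dist (P t) v ≤ ρ := by
    intro v hv
    obtain ⟨t, ht, hv⟩ := Finset.mem_biUnion.1 hv
    simp only [I, Finset.mem_filter, Finset.mem_Ico] at ht
    have h1 := (hg t v).1 hv
    exact ⟨t, ht.1.1, ht.1.2, h1.1, h1.2.2⟩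
  have hdisj : Disjoint M N := by
    rw [Finset.disjoint_left]
    intro v hvM hvN
    obtain ⟨t, h1, h2, -, h3⟩ := hNmem v hvN
    obtain ⟨u, hu, hd⟩ := (hmem _ _ _).1 (hs.mD hvM)
    apply hfar t h1 h2
    refine (hmem _ _ _).2 ⟨u, hu, ?_⟩
    have h4 := hG.dist_triangle (u := P t) (v := v) (w := u)
    omega
  have hNcard : I.card * k ≤ N.card := by
    have h1 : N.card = ∑ t ∈ I, (grp G A h ρ t (P t)).card := by
      apply Finset.card_biUnion
      intro t ht t' ht' hne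
      rw [Function.onFun, Finset.disjoint_left]
      intro v hv hv'
      have h1 := (hg t v).1 hv
      have h2 := (hg t' v).1 hv'
      exact hne (by rw [← h1.2.1, ← h2.2.1])
    rw [h1, ← smul_eq_mul]
    apply Finset.card_nsmul_le_sum
    intro t ht
    simp only [I, Finset.mem_filter, Finset.mem_Ico] at ht
    exact hthick t ht.1.1 ht.1.2 ht.2
  have hI : t1 - t0 ≤ I.card + (bad.filter (fun t => t0 ≤ t ∧ t < t1)).card := by
    have h1 : (Finset.Ico t0 t1).card ≤ (I ∪ bad.filter (fun t => t0 ≤ t ∧ t < t1)).card := by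
      apply Finset.card_le_card
      intro t ht
      by_cases hb : t ∈ bad
      · refine Finset.mem_union_right _ (Finset.mem_filter.2 ⟨hb, ?_⟩)
        rw [Finset.mem_Ico] at ht
        exact ht
      · exact Finset.mem_union_left _ (Finset.mem_filter.2 ⟨ht, hb⟩)
    have h2 := h1.trans (Finset.card_union_le _ _)
    simpa using h2
  refine ⟨D', M ∪ N, ⟨hs.sub.trans hDD, hD'A, hr, ?_, ?_⟩, hDD, hPD, ?_⟩
  · intro v hv
    rcases Finset.mem_union.1 hv with hv | hv
    · obtain ⟨u, hu, hd⟩ := (hmem _ _ _).1 (hs.mD hv)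
      exact (hmem _ _ _).2 ⟨u, hDD hu, hd⟩
    · obtain ⟨t, h1, h2, h3, h4⟩ := hNmem v hv
      refine (hmem _ _ _).2 ⟨P t, hPD t h1 h2.le, ?_⟩
      rw [SimpleGraph.dist_comm]; exact h4
  · intro v hv
    rcases Finset.mem_union.1 hv with hv | hv
    · exact hs.mA v hv
    · obtain ⟨t, h1, h2, h3, h4⟩ := hNmem v hv
      exact h3
  · rw [Finset.card_union_of_disjoint hdisj]
    have h5 := Nat.mul_le_mul_left k hI
    have h6 : k * (I.card + (bad.filter (fun t => t0 ≤ t ∧ t < t1)).card) =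
      I.card * k + k * (bad.filter (fun t => t0 ≤ t ∧ t < t1)).card := by ring
    omega

end

end Pool.RBE
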