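import Pool.Agent.RBE.M6A

set_option autoImplicit false

/-! [RBE-M6C] a piece of the vertical path as an ear. -/

namespace Pool.RBE

open SimpleGraph Pool.Agent.RBC

private theorem m6c_dist {V : Type} [Fintype V] {G : SimpleGraph V} {k ρ ρ' T : ℕ} {X A : Set V} {h : V → ℕ} {P : ℕ → V}
    {bad : Finset ℕ} (hG : G.Connected) (L : Leg G k ρ ρ' T X A h P bad) (s n : ℕ) (hn : s + n ≤ T) :
    G.dist (P (s + n)) (P s) ≤ n := by
  induction n with
  | zero => simp
  | succ n ih =>
    have h1 := ih (by omega)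
    have h2 := L.adj (s + n) (by omega)
    have h3 : G.dist (P (s + n + 1)) (P (s + n)) = 1 := SimpleGraph.dist_eq_one_iff_adj.2 h2.symm
    have h4 := hG.dist_triangle (u := P (s + n + 1)) (v := P (s + n)) (w := P s)
    have h5 : s + (n + 1) = s + n + 1 := by ring
    rw [h5]
    omega

section
variable {V : Type} [Fintype V] {G : SimpleGraph V} {k ρ ρ' T : ℕ} {X A : Set V} {h : V → ℕ} {P : ℕ → V}
  {bad : Finset ℕ} {D : Set V} {q : ℕ} {M : Finset V}

/-- [RBE-M6c] A piece of the vertical path as an ear. Proof. `ear_state` with `y i = P (a + i)`, `n = b - a - 1`, `κ = 3k`. `P` is geodesic: `dist (P s) (P t) = t - s` for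
`s ≤ t ≤ T` (`≤` by the path, `≥` by `side_lip_dist`). Mass: `geo_strand` for `x i = P (a + 1 + i)`, `i ≤ n - 1`, gives `k (n-1) ≤ 2 |nbh| + 2k` (for `n = 0` trivial). -/
theorem strand_state (hG : G.Connected) (L : Leg G k ρ ρ' T X A h P bad) (hs : LSt G ρ X A D q M) {a b α β : ℕ}
    (hab : a < b) (hbT : b ≤ T) (h0 : P a ∈ nbh G D α) (h1 : P b ∈ nbh G D β)
    (hfar : ∀ t, a < t → t < b → P t ∉ nbh G D (2 * ρ)) :
    ∃ (D' : Set V) (M' : Finset V), LSt G ρ X A D' (q + ((b - a - 1) + 3 * (α + β) + 4) / 2) M' ∧ D ⊆ D' ∧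
      2 * M.card + k * (b - a - 1) ≤ 2 * M'.card + 3 * k := by
  have hgeo : ∀ s t, s ≤ t → t ≤ T → G.dist (P s) (P t) = t - s := by
    intro s t h1 h2
    apply le_antisymm
    · have h3 := m6c_dist hG L s (t - s) (by omega)
      have h4 : s + (t - s) = t := by omega
      rw [h4, SimpleGraph.dist_comm] at h3
      exact h3
    · have h3 := side_lip_dist hG L.side (P t) (P s)
      rw [L.ph t h2, L.ph s (by omega), SimpleGraph.dist_comm] at h3
      omega
  obtain ⟨D', M', h1', h2', -, h3'⟩ := ear_state (k := k) (κ := 3 * k) (y := fun i => P (a + i)) (n := b - a - 1)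
    (α := α) (β := β) hG L.side hs
    (by
      intro i hi
      rcases Nat.eq_zero_or_pos (a + i) with h | h
      · left; show P (a + i) ∈ X; rw [h]; exact L.p0
      · right; exact L.pA _ h (by omega))
    (by
      intro i hi
      exact L.adj (a + i) (by omega))
    (by
      intro i j h1 h2 h3 h4 h5
      have h6 : h (P (a + i)) = h (P (a + j)) := congrArg h h5
      rw [L.ph _ (by omega), L.ph _ (by omega)] at h6
      omega)
    (by
      intro i h1 h2
      exact hfar (a + i) (by omega) (by omega))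
    (by simpa using h0)
    (by
      have h4 : a + (b - a - 1 + 1) = b := by omega
      show P (a + (b - a - 1 + 1)) ∈ nbh G D β
      rw [h4]; exact h1)
    (by
      rcases Nat.eq_zero_or_pos (b - a - 1) with h | h
      · rw [h]; simp
      · have h5 := geo_strand L.kc L.k2 L.rho (n := b - a - 2) (x := fun i => P (a + 1 + i)) (by
          intro i j hij hj
          show G.dist (P (a + 1 + i)) (P (a + 1 + j)) = j - i
          rw [hgeo _ _ (by omega) (by omega)]
          omega)
        have h6 : ({v | ∃ i, i ≤ b - a - 2 ∧ v = P (a + 1 + i)} : Set V) =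
            {v | ∃ i, 1 ≤ i ∧ i ≤ b - a - 1 ∧ v = P (a + i)} := by
          ext v
          constructor
          · rintro ⟨i, hi, rfl⟩
            exact ⟨i + 1, by omega, by omega, by congr 1; omega⟩
          · rintro ⟨i, hi1, hi2, rfl⟩
            exact ⟨i - 1, by omega, by congr 1; omega⟩
        rw [h6] at h5
        have h7 : k * (b - a - 1) = k * (b - a - 2) + k := by
          have : b - a - 1 = (b - a - 2) + 1 := by omega
          rw [this]; ring
        show k * (b - a - 1) ≤ 2 * (nbh G {v | ∃ i, 1 ≤ i ∧ i ≤ b - a - 1 ∧ v = P (a + i)} ρ).card + 3 * k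
        omega)
  exact ⟨D', M', h1', h2', h3'⟩

end

end Pool.RBE
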