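import Pool.Agent.RBE.M6A

set_option autoImplicit false

/-! [RBE-M6D] an arc of an isometric cycle as an ear. -/

namespace Pool.RBE

open SimpleGraph Pool.Agent.RBC

section
variable {V : Type} [Fintype V] {G : SimpleGraph V} {k ρ ρ' T : ℕ} {X A : Set V} {h : V → ℕ} {P : ℕ → V}
  {bad : Finset ℕ} {D : Set V} {q : ℕ} {M : Finset V}

/-- [RBE-M6d] An arc of an isometric cycle as an ear. Proof. `ear_state` with `y i = c (j0 + i)`, `n = j1 - j0 - 1`, `κ = k (4ρ + 9)`. Adjacent consecutive vertices: `IsoCyc.dist` gives distance 1 (`w ≥ 3`).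
All `c i`, `j0 < i < j1`, are in `A`: start at `i1` and go up and down, a neighbour of a vertex of `A` is in `A` or in `X ⊆ D ⊆ nbh G D (2ρ)`, excluded by `hfar`; the two end vertices are in
`A ∪ X` by `nbr`. Injectivity: `c i = c j` with `j0 < i < j < j1 ≤ j0 + w` has distance `min (j-i) (i+w-j) > 0`. Mass: `arc_mass` with `a = j0 + 1` and `n - 1`: `k (n-1) ≤ 2|nbh| + k (4ρ+8)`. -/
theorem arc_state (hG : G.Connected) (hk : KConn G k) (hk2 : 2 ≤ k) (hρ : 4 * (k * k) ≤ ρ) (hS : Side G X A h)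
    (hs : LSt G ρ X A D q M) {w : ℕ} {c : ℕ → V} (hc : IsoCyc G w c) {j0 i1 j1 α β : ℕ} (h0i : j0 < i1)
    (hi1 : i1 < j1) (hw : j1 ≤ j0 + w) (hA : c i1 ∈ A) (hfar : ∀ i, j0 < i → i < j1 → c i ∉ nbh G D (2 * ρ))
    (h0 : c j0 ∈ nbh G D α) (h1 : c j1 ∈ nbh G D β) :
    ∃ (D' : Set V) (M' : Finset V), LSt G ρ X A D' (q + ((j1 - j0 - 1) + 3 * (α + β) + 4) / 2) M' ∧ D ⊆ D' ∧
      2 * M.card + k * (j1 - j0 - 1) ≤ 2 * M'.card + k * (4 * ρ + 9) := by
  classical
  have hmem : ∀ (E : Set V) (r : ℕ) (v : V), v ∈ nbh G E r ↔ ∃ u ∈ E, G.dist v u ≤ r := by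
    intro E r v
    unfold nbh
    simp
  have h3 := hc.three
  have hadj : ∀ i, G.Adj (c i) (c (i + 1)) := by
    intro i
    apply SimpleGraph.dist_eq_one_iff_adj.1
    rw [hc.dist i (i + 1) (by omega) (by omega)]
    omega
  have hX : ∀ i, j0 < i → i < j1 → c i ∉ X := by
    intro i h1 h2 h3
    exact hfar i h1 h2 ((hmem _ _ _).2 ⟨c i, hs.sub h3, by simp⟩)
  have hup : ∀ m, i1 + m < j1 → c (i1 + m) ∈ A := by
    intro m
    induction m with
    | zero => intro _; exact hA
    | succ m ih =>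
      intro hm
      have h4 := ih (by omega)
      exact (hS.nbr _ h4 _ (hadj (i1 + m))).resolve_right (hX (i1 + m + 1) (by omega) (by omega))
  have hdn : ∀ m, j0 + m < i1 → c (i1 - m) ∈ A := by
    intro m
    induction m with
    | zero => intro _; exact hA
    | succ m ih =>
      intro hm
      have h4 := ih (by omega)
      have h5 := hadj (i1 - (m + 1))
      have h6 : i1 - (m + 1) + 1 = i1 - m := by omega
      rw [h6] at h5
      exact (hS.nbr _ h4 _ h5.symm).resolve_right (hX (i1 - (m + 1)) (by omega) (by omega))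
  have hin : ∀ i, j0 < i → i < j1 → c i ∈ A := by
    intro i h4 h5
    rcases le_total i i1 with h | h
    · have h6 := hdn (i1 - i) (by omega)
      have h7 : i1 - (i1 - i) = i := by omega
      rw [h7] at h6; exact h6
    · have h6 := hup (i - i1) (by omega)
      have h7 : i1 + (i - i1) = i := by omega
      rw [h7] at h6; exact h6
  have hy : ∀ i, i ≤ j1 - j0 - 1 + 1 → c (j0 + i) ∈ X ∨ c (j0 + i) ∈ A := by
    intro i hi
    rcases Nat.eq_zero_or_pos i with h | h
    · rw [h]
      have h4 := hin (j0 + 1) (by omega) (by omega)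
      exact (hS.nbr _ h4 _ (hadj j0).symm).symm
    · rcases Nat.eq_or_lt_of_le (show j0 + i ≤ j1 by omega) with h5 | h5
      · have h4 := hin (j1 - 1) (by omega) (by omega)
        have h6 := hadj (j1 - 1)
        have h7 : j1 - 1 + 1 = j1 := by omega
        rw [h7] at h6
        rw [h5]
        exact (hS.nbr _ h4 _ h6).symm
      · exact Or.inr (hin _ (by omega) h5)
  obtain ⟨D', M', h1', h2', -, h3'⟩ := ear_state (k := k) (κ := k * (4 * ρ + 9)) (y := fun i => c (j0 + i))
    (n := j1 - j0 - 1) (α := α) (β := β) hG hS hs hy (fun i _ => hadj (j0 + i))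
    (by
      intro i j hi1' hi2 hj1 hj2 hij
      have haux : ∀ i j, 1 ≤ i → j ≤ j1 - j0 - 1 → i < j → c (j0 + i) = c (j0 + j) → False := by
        intro i j h4 h5 h6 h7
        have h8 := hc.dist (j0 + i) (j0 + j) (by omega) (by omega)
        rw [h7, SimpleGraph.dist_self] at h8
        omega
      rcases lt_trichotomy i j with h | h | h
      · exact (haux i j hi1' hj2 h hij).elim
      · exact h
      · exact (haux j i hj1 hi2 h hij.symm).elim)
    (by
      intro i h4 h5
      exact hfar (j0 + i) (by omega) (by omega))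
    (by simpa using h0)
    (by
      have h4 : j0 + (j1 - j0 - 1 + 1) = j1 := by omega
      show c (j0 + (j1 - j0 - 1 + 1)) ∈ nbh G D β
      rw [h4]; exact h1)
    (by
      have h5 := arc_mass hk hk2 hρ hc (j0 + 1) (j1 - j0 - 2) (by omega)
      have h6 : ({v | ∃ i, j0 + 1 ≤ i ∧ i ≤ j0 + 1 + (j1 - j0 - 2) ∧ v = c i} : Set V) =
          {v | ∃ i, 1 ≤ i ∧ i ≤ j1 - j0 - 1 ∧ v = c (j0 + i)} := by
        ext v
        constructor
        · rintro ⟨i, hi, hi', rfl⟩
          exact ⟨i - j0, by omega, by omega, by congr 1; omega⟩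
        · rintro ⟨i, hi1, hi2, rfl⟩
          exact ⟨j0 + i, by omega, by omega, rfl⟩
      rw [h6] at h5
      have h7 : k * (j1 - j0 - 1) = k * (j1 - j0 - 2) + k := by
        have : j1 - j0 - 1 = (j1 - j0 - 2) + 1 := by omega
        rw [this]; ring
      have h8 : k * (4 * ρ + 9) = k * (4 * ρ + 8) + k := by ring
      show k * (j1 - j0 - 1) ≤ 2 * (nbh G {v | ∃ i, 1 ≤ i ∧ i ≤ j1 - j0 - 1 ∧ v = c (j0 + i)} ρ).card +
        k * (4 * ρ + 9)
      omega)
  exact ⟨D', M', h1', h2', h3'⟩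

end

end Pool.RBE
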