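import Pool.Agent.RBE.M6

set_option autoImplicit false

/-! [RBE-M6E] the isometric cycle at a thin level. -/

namespace Pool.RBE

open SimpleGraph Pool.Agent.RBC

private theorem m6e_per {V : Type} {G : SimpleGraph V} {w : ℕ} {c : ℕ → V} (hc : IsoCyc G w c) (i m : ℕ) :
    c (i + m * w) = c i := by
  induction m with
  | zero => simp
  | succ m ih =>
    have h : i + (m + 1) * w = i + m * w + w := by ring
    rw [h, hc.per, ih]

private theorem m6e_half {V : Type} {G : SimpleGraph V} {w : ℕ} {c : ℕ → V} (hc : IsoCyc G w c) (i j : ℕ) :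
    2 * G.dist (c i) (c j) ≤ w := by
  have haux : ∀ i j, i ≤ j → 2 * G.dist (c i) (c j) ≤ w := by
    intro i j hij
    have h3 := hc.three
    have h1 : j = i + (j - i) % w + ((j - i) / w) * w := by
      have := Nat.mod_add_div (j - i) w
      have h4 : w * ((j - i) / w) = ((j - i) / w) * w := Nat.mul_comm _ _
      omega
    have h2 : c j = c (i + (j - i) % w) := by
      conv_lhs => rw [h1]
      exact m6e_per hc _ _
    have h5 : (j - i) % w < w := Nat.mod_lt _ (by omega)
    rw [h2, hc.dist i (i + (j - i) % w) (by omega) (by omega)]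
    omega
  rcases le_total i j with h | h
  · exact haux i j h
  · rw [SimpleGraph.dist_comm]; exact haux j i h

section
variable {V : Type} [Fintype V] {G : SimpleGraph V} {k ρ ρ' T : ℕ} {X A : Set V} {h : V → ℕ} {P : ℕ → V}
  {bad : Finset ℕ} {D : Set V} {q : ℕ} {M : Finset V}

/-- [RBE-M6e] The gate at a thin level which is not bad. Proof. `gate` with `f = h`, `S = grp G A h ρ t (P t)`, `x = P t`, `x' = P (t+1)`, `z = P (t-1)` (height `t - 1`, not in `S`), `Q` = one edge. It gives
`IsoCyc G w c`, `c i ∈ S`, `c j ∉ S` with `h (c j) = t ≥ 1`, so `c j ∈ A` (`out`), and `dist (P t) (c j) > ρ'` by `good`. `dist (c i) (c j) ≥ ρ' - ρ + 1` and it is at most `w / 2`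
(`IsoCyc.dist` after replacing `j` by `j + m w ≥ i` with `j + m w ≤ i + w`). -/
theorem gate_cycle (hG : G.Connected) (L : Leg G k ρ ρ' T X A h P bad) {t : ℕ} (h1 : 1 ≤ t) (hT : t < T)
    (hb : t ∉ bad) (hthin : (grp G A h ρ t (P t)).card < k) :
    ∃ (w : ℕ) (c : ℕ → V) (i : ℕ), IsoCyc G w c ∧ c i ∈ A ∧ G.dist (P t) (c i) ≤ ρ ∧ 2 * ρ' ≤ w + 2 * ρ := by
  classical
  have hg : ∀ v, v ∈ grp G A h ρ t (P t) ↔ v ∈ A ∧ h v = t ∧ G.dist (P t) v ≤ ρ := by
    intro v
    unfold grp
    simp
  have hadj : G.Adj (P t) (P (t - 1)) := by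
    have h2 := L.adj (t - 1) (by omega)
    have h3 : t - 1 + 1 = t := by omega
    rw [h3] at h2
    exact h2.symm
  obtain ⟨w, c, hc, ⟨i, hi⟩, j, hj, hjS⟩ := gate L.kc (f := h) (fun u v huv => side_lip hG L.side huv)
    (t := t) (S := grp G A h ρ t (P t)) (fun v hv => ((hg v).1 hv).2.1) hthin (x := P t) (x' := P (t + 1))
    (z := P (t - 1)) ((hg _).2 ⟨L.pA t h1 hT.le, L.ph t hT.le, by simp⟩) (L.adj t hT) (L.ph (t + 1) (by omega))
    (by
      intro hc
      have h2 := ((hg _).1 hc).2.1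
      rw [L.ph (t - 1) (by omega)] at h2
      omega)
    (Walk.cons hadj Walk.nil)
    (by
      intro v hv
      rw [Walk.support_cons, Walk.support_nil, List.mem_cons, List.mem_singleton] at hv
      rcases hv with rfl | rfl
      · rw [L.ph t hT.le]
      · rw [L.ph (t - 1) (by omega)]; omega)
  have hi' := (hg _).1 hi
  refine ⟨w, c, i, hc, hi'.1, hi'.2.2, ?_⟩
  have hjA : c j ∈ A := by
    by_contra hA
    rw [L.side.out _ hA] at hj
    omega
  have hjd : ρ' < G.dist (P t) (c j) := by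
    by_contra hd
    push Not at hd
    exact hjS ((hg _).2 ⟨hjA, hj, L.good t h1 hT.le hb (c j) hjA hj hd⟩)
  have h4 := hG.dist_triangle (u := P t) (v := c i) (w := c j)
  have h5 := m6e_half hc i j
  have h6 := hi'.2.2
  omega

end

end Pool.RBE
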