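import Pool.Agent.RBE.M6D
import Pool.Agent.RBE.M6E

set_option autoImplicit false

/-! [RBE-M6F] the step at a thin level. -/

namespace Pool.RBE

open SimpleGraph Pool.Agent.RBC

private theorem m6f_per {V : Type} {G : SimpleGraph V} {w : ℕ} {c : ℕ → V} (hc : IsoCyc G w c) (i m : ℕ) :
    c (i + m * w) = c i := by
  induction m with
  | zero => simp
  | succ m ih =>
    have h : i + (m + 1) * w = i + m * w + w := by ring
    rw [h, hc.per, ih]

section
variable {V : Type} [Fintype V] {G : SimpleGraph V} {k ρ ρ' T : ℕ} {X A : Set V} {h : V → ℕ} {P : ℕ → V}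
  {bad : Finset ℕ} {D : Set V} {q : ℕ} {M : Finset V}

/-- [RBE-M6f] The step at a gate. Proof. `gate_cycle` gives `w, c, i`; replace `i` by `i + w`. Case 1: some `c j ∈ nbh G D (2ρ)`. `c i ∉ nbh G D (r1 - ρ)` (triangle), in particular `c i ∉ nbh G D (2ρ)`.
By periodicity there is `j` with `i - w < j < i`, `c j ∈ nbh G D (2ρ)`; let `j0` be the largest and `j1 > i` the least index `> i` with `c j1 ∈ nbh G D (2ρ)`; `j1 ≤ j0 + w`. `dist (c j0) (c i) ≤ i - j0` and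
`dist (c j0) (c i) > r1 - 3ρ`, so `i - j0 ≥ r1 - 3ρ + 1`, same for `j1 - i`: `2 r1 ≤ n + 6ρ` for `n = j1 - j0 - 1`. `arc_state` with `α = β = 2ρ`.
Case 2: no `c j ∈ nbh G D (2ρ)`. `j0 = i`, `i1 = i + 1`, `j1 = i + w`; `c (i+1) ∈ A` (neighbour of `c i ∈ A`, not in `X`); `α = β = r2 + ρ`, `n = w - 1`, `2ρ' ≤ n + 1 + 2ρ`. `arc_state`. -/
theorem gate_step (hG : G.Connected) (L : Leg G k ρ ρ' T X A h P bad) (hs : LSt G ρ X A D q M) {t r1 r2 : ℕ}
    (h1 : 1 ≤ t) (hT : t < T) (hb : t ∉ bad) (hthin : (grp G A h ρ t (P t)).card < k) (hr1 : 3 * ρ ≤ r1)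
    (hfar : P t ∉ nbh G D r1) (hnear : P t ∈ nbh G D r2) :
    ∃ (D' : Set V) (M' : Finset V) (n α : ℕ), LSt G ρ X A D' (q + (n + 6 * α + 4) / 2) M' ∧ D ⊆ D' ∧
      2 * M.card + k * n ≤ 2 * M'.card + k * (4 * ρ + 9) ∧
      ((α = 2 * ρ ∧ 2 * r1 ≤ n + 6 * ρ) ∨ (α = r2 + ρ ∧ 2 * ρ' ≤ n + 2 * ρ + 1)) := by
  classical
  have hmem : ∀ (E : Set V) (r : ℕ) (v : V), v ∈ nbh G E r ↔ ∃ u ∈ E, G.dist v u ≤ r := by
    intro E r v
    unfold nbh
    simp
  obtain ⟨w, c, i0, hc, hiA, hid, hw⟩ := gate_cycle hG L h1 hT hb hthin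
  have h3 := hc.three
  have hadj : ∀ i, G.Adj (c i) (c (i + 1)) := by
    intro i
    apply SimpleGraph.dist_eq_one_iff_adj.1
    rw [hc.dist i (i + 1) (by omega) (by omega)]
    omega
  have hci0 : c (i0 + w) = c i0 := hc.per i0
  have hfar0 : ∀ r, r + ρ ≤ r1 → c i0 ∉ nbh G D r := by
    intro r hr hcon
    obtain ⟨u, hu, hd⟩ := (hmem _ _ _).1 hcon
    apply hfar
    refine (hmem _ _ _).2 ⟨u, hu, ?_⟩
    have h4 := hG.dist_triangle (u := P t) (v := c i0) (w := u)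
    omega
  by_cases hcase : ∃ j, c j ∈ nbh G D (2 * ρ)
  · obtain ⟨j, hj⟩ := hcase
    obtain ⟨j', hj'1, hj'2, hj'3⟩ : ∃ j', i0 < j' ∧ j' < i0 + w ∧ c j' ∈ nbh G D (2 * ρ) := by
      have hbig : i0 ≤ j + i0 * w := by
        have : i0 ≤ i0 * w := Nat.le_mul_of_pos_right _ (by omega)
        omega
      have e1 : c (j + i0 * w) = c j := m6f_per hc j i0
      obtain ⟨b, hbdef⟩ : ∃ b, b = j + i0 * w := ⟨_, rfl⟩
      rw [← hbdef] at hbig e1
      have e2 : b = i0 + (b - i0) % w + ((b - i0) / w) * w := by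
        have := Nat.mod_add_div (b - i0) w
        have h4 : w * ((b - i0) / w) = ((b - i0) / w) * w := Nat.mul_comm _ _
        omega
      have e3 : c (i0 + (b - i0) % w) = c j := by
        rw [← e1]
        conv_rhs => rw [e2]
        exact (m6f_per hc _ _).symm
      have e4 : (b - i0) % w < w := Nat.mod_lt _ (by omega)
      refine ⟨i0 + (b - i0) % w, ?_, by omega, by rw [e3]; exact hj⟩
      rcases Nat.eq_zero_or_pos ((b - i0) % w) with h | h
      · exfalso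
        rw [h, Nat.add_zero] at e3
        apply hfar0 (2 * ρ) (by omega)
        rw [e3]; exact hj
      · omega
    obtain ⟨i, hi⟩ : ∃ i, i = i0 + w := ⟨_, rfl⟩
    have hci : c i = c i0 := by rw [hi]; exact hci0
    obtain ⟨j0, hj0⟩ : ∃ j0, j0 = Nat.findGreatest (fun j => c j ∈ nbh G D (2 * ρ)) (i - 1) := ⟨_, rfl⟩
    have hj0P : c j0 ∈ nbh G D (2 * ρ) := by
      rw [hj0]
      exact Nat.findGreatest_spec (P := fun j => c j ∈ nbh G D (2 * ρ)) (m := j') (by omega) hj'3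
    have hj0le : j0 ≤ i - 1 := by rw [hj0]; exact Nat.findGreatest_le _
    have hj0ge : j' ≤ j0 := by
      rw [hj0]
      exact Nat.le_findGreatest (by omega) hj'3
    have hex : ∃ j, i < j ∧ c j ∈ nbh G D (2 * ρ) := ⟨j' + w, by omega, by rw [hc.per]; exact hj'3⟩
    obtain ⟨j1, hj1⟩ : ∃ j1, j1 = Nat.find hex := ⟨_, rfl⟩
    have hj1P : i < j1 ∧ c j1 ∈ nbh G D (2 * ρ) := by rw [hj1]; exact Nat.find_spec hex
    have hj1le : j1 ≤ j0 + w := by
      rw [hj1]
      exact Nat.find_min' hex ⟨by omega, by rw [hc.per]; exact hj0P⟩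
    have hfar' : ∀ l, j0 < l → l < j1 → c l ∉ nbh G D (2 * ρ) := by
      intro l hl1 hl2 hl3
      rcases lt_trichotomy l i with h | h | h
      · rw [hj0] at hl1
        exact Nat.findGreatest_is_greatest hl1 (by omega) hl3
      · rw [h, hci] at hl3
        exact hfar0 (2 * ρ) (by omega) hl3
      · rw [hj1] at hl2
        exact Nat.find_min hex hl2 ⟨h, hl3⟩
    have hd1 : r1 < 3 * ρ + (i - j0) := by
      by_contra hcon
      push Not at hcon
      obtain ⟨u, hu, hd⟩ := (hmem _ _ _).1 hj0P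
      apply hfar0 (2 * ρ + (i - j0)) (by omega)
      refine (hmem _ _ _).2 ⟨u, hu, ?_⟩
      have h4 := hG.dist_triangle (u := c i) (v := c j0) (w := u)
      have h5 := hc.dist j0 i (by omega) (by omega)
      rw [SimpleGraph.dist_comm] at h5
      rw [← hci]
      omega
    have hd2 : r1 < 3 * ρ + (j1 - i) := by
      by_contra hcon
      push Not at hcon
      obtain ⟨u, hu, hd⟩ := (hmem _ _ _).1 hj1P.2
      apply hfar0 (2 * ρ + (j1 - i)) (by omega)
      refine (hmem _ _ _).2 ⟨u, hu, ?_⟩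
      have h4 := hG.dist_triangle (u := c i) (v := c j1) (w := u)
      have h5 := hc.dist i j1 (by omega) (by omega)
      rw [← hci]
      omega
    obtain ⟨D', M', h1', h2', h3'⟩ := arc_state hG L.kc L.k2 L.rho L.side hs hc (j0 := j0) (i1 := i) (j1 := j1)
      (α := 2 * ρ) (β := 2 * ρ) (by omega) hj1P.1 hj1le (by rw [hci]; exact hiA) hfar' hj0P hj1P.2
    refine ⟨D', M', j1 - j0 - 1, 2 * ρ, ?_, h2', h3', Or.inl ⟨rfl, by omega⟩⟩
    have e : (j1 - j0 - 1) + 3 * (2 * ρ + 2 * ρ) + 4 = (j1 - j0 - 1) + 6 * (2 * ρ) + 4 := by ring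
    rw [e] at h1'
    exact h1'
  · push Not at hcase
    have hA1 : c (i0 + 1) ∈ A := by
      refine (L.side.nbr _ hiA _ (hadj i0)).resolve_right ?_
      intro hX
      exact hcase (i0 + 1) ((hmem _ _ _).2 ⟨c (i0 + 1), hs.sub hX, by simp⟩)
    have hnear0 : c i0 ∈ nbh G D (r2 + ρ) := by
      obtain ⟨u, hu, hd⟩ := (hmem _ _ _).1 hnear
      refine (hmem _ _ _).2 ⟨u, hu, ?_⟩
      have h4 := hG.dist_triangle (u := c i0) (v := P t) (w := u)
      rw [SimpleGraph.dist_comm (u := c i0) (v := P t)] at h4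
      omega
    obtain ⟨D', M', h1', h2', h3'⟩ := arc_state hG L.kc L.k2 L.rho L.side hs hc (j0 := i0) (i1 := i0 + 1)
      (j1 := i0 + w) (α := r2 + ρ) (β := r2 + ρ) (by omega) (by omega) le_rfl hA1 (fun l _ _ => hcase l) hnear0
      (by rw [hci0]; exact hnear0)
    refine ⟨D', M', i0 + w - i0 - 1, r2 + ρ, ?_, h2', h3', Or.inr ⟨rfl, by omega⟩⟩
    have e : (i0 + w - i0 - 1) + 3 * ((r2 + ρ) + (r2 + ρ)) + 4 = (i0 + w - i0 - 1) + 6 * (r2 + ρ) + 4 := by ring
    rw [e] at h1'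
    exact h1'

end

end Pool.RBE
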