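import Pool.Agent.RBE.M6

set_option autoImplicit false

/-! [RBE-M7] the invariant. -/

namespace Pool.RBE

open SimpleGraph Pool.Agent.RBC

/-- Invariant of the growing leg: everything below `τ` is within `100 N² ρ` of `D`; loss `≤ kq/N + k (#bad below τ + 1)`. -/
structure Inv {V : Type} [Fintype V] (G : SimpleGraph V) (k N ρ : ℕ) (X A : Set V) (P : ℕ → V) (bad : Finset ℕ)
    (D : Set V) (q : ℕ) (M : Finset V) (τ : ℕ) : Prop where
  st : LSt G ρ X A D q M
  cov : ∀ t, t < τ → P t ∈ nbh G D (100 * N ^ 2 * ρ)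
  loss : N * (k * q) ≤ N * M.card + k * q + N * k * ((bad.filter (fun t => t < τ)).card + 1)

end Pool.RBE
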