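import Pool.Agent.RBE.M7
import Pool.Agent.RBE.M6B
import Pool.Agent.RBE.M6C
import Pool.Agent.RBE.M6F

set_option autoImplicit false

/-! [RBE-M7A] one step. -/

namespace Pool.RBE

open SimpleGraph Pool.Agent.RBC

private theorem m7a_finish {N k q q' m m' b nb b' B E e2 g : ℕ}
    (hold : N * (k * q) ≤ N * m + k * q + N * k * (b + 1))
    (hinc : 2 * (k * q') + 2 * m ≤ 2 * m' + 2 * (k * q) + k * e2 + 2 * (k * nb))
    (hqq : q ≤ q') (he : N * e2 ≤ 2 * (q' - q)) (hb : b + nb ≤ b') (hB : b' ≤ B) (hE : e2 ≤ 2 * E) (hqg : q ≤ g) :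
    N * (k * q') ≤ N * m' + k * q' + N * k * (b' + 1) ∧
      N * (k * q') ≤ N * m' + k * g + N * k * (B + 1 + E) := by
  obtain ⟨s, rfl⟩ := Nat.exists_eq_add_of_le hqq
  have he' : N * e2 ≤ 2 * s := by
    have : q + s - q = s := by omega
    rw [this] at he; exact he
  have h1 := Nat.mul_le_mul_left N hinc
  have h2 := Nat.mul_le_mul_left k he'
  have h3 : N * k * (b + nb) ≤ N * k * b' := Nat.mul_le_mul_left _ hb
  have h4 : N * k * b' ≤ N * k * B := Nat.mul_le_mul_left _ hB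
  have h5 : N * k * e2 ≤ N * k * (2 * E) := Nat.mul_le_mul_left _ hE
  have h6 : k * q ≤ k * g := Nat.mul_le_mul_left _ hqg
  constructor
  · nlinarith [h1, h2, h3, hold]
  · nlinarith [h1, h3, h4, h5, h6, hold]

private theorem m7a_mem {V : Type} [Fintype V] {G : SimpleGraph V} {D : Set V} {r : ℕ} {v : V} :
    v ∈ nbh G D r ↔ ∃ u ∈ D, G.dist v u ≤ r := by
  unfold nbh
  simp

private theorem m7a_near {V : Type} [Fintype V] {G : SimpleGraph V} (hG : G.Connected) {D D' : Set V} {r r' s : ℕ}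
    {v v' : V} (h : v ∈ nbh G D r) (hD : D ⊆ D') (hd : G.dist v' v ≤ s) (hr : r + s ≤ r') : v' ∈ nbh G D' r' := by
  rw [m7a_mem] at h ⊢
  obtain ⟨u, hu, h1⟩ := h
  refine ⟨u, hD hu, ?_⟩
  have := hG.dist_triangle (u := v') (v := v) (w := u)
  omega

private theorem m7a_dist {V : Type} [Fintype V] {G : SimpleGraph V} {k ρ ρ' T : ℕ} {X A : Set V} {h : V → ℕ} {P : ℕ → V}
    {bad : Finset ℕ} (hG : G.Connected) (L : Leg G k ρ ρ' T X A h P bad) (s n : ℕ) (hn : s + n ≤ T) :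
    G.dist (P (s + n)) (P s) ≤ n := by
  induction n with
  | zero => simp
  | succ n ih =>
    have h1 := ih (by omega)
    have h2 := L.adj (s + n) (by omega)
    have h3 : G.dist (P (s + n + 1)) (P (s + n)) = 1 := SimpleGraph.dist_eq_one_iff_adj.2 h2.symm
    have h4 := hG.dist_triangle (u := P (s + n + 1)) (v := P (s + n)) (w := P s)
    have h5 : s + (n + 1) = s + n + 1 := by ring
    rw [h5]
    omega

section
variable {V : Type} [Fintype V] {G : SimpleGraph V} {k ρ ρ' T : ℕ} {X A : Set V} {h : V → ℕ} {P : ℕ → V}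
  {bad : Finset ℕ} {D : Set V} {q : ℕ} {M : Finset V}

/-- [RBE-M7a] One step. Constants: `K1 = 16 N`, `K2 = 100 N²`, `K3 = 200 N³`, `ρ' = 2000 N⁴ ρ`, `T = 2g`, `1000 N⁴ ρ ≤ g`.
Proof. (0) If `P t ∈ nbh G D (K2 ρ)` for all `t ≤ T`: `u ∈ D` with `dist (P T) u ≤ K2 ρ`, so `T = h (P T) ≤ h u + K2 ρ ≤ q + K2 ρ` (`side_lip_dist`, `side_rb`), contradiction to `q < g`.
Let `t0` be the least `t ≤ T` with `P t ∉ nbh G D (K2 ρ)`; `t0 ≥ τ` by `cov`, `t0 ≥ 1` since `P 0 ∈ X ⊆ D`. `P (t0-1) ∈ nbh G D (K2 ρ)`, so `P t0 ∈ nbh G D (K2 ρ + 1)` and `t0 - 1 ≤ q + K2 ρ` (as in (0)), so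
`T - t0 ≥ g - K2 ρ - 1 ≥ K3 ρ` (`t0 ≤ g + K2 ρ`). Let `a < t0` be the greatest with `P a ∈ nbh G D (2ρ)` (`a = 0` is possible). `t0 - a ≥ dist (P t0) (P a) > (K2 - 2) ρ`.
Let `t1` be the least `t` with `t0 ≤ t < T`, `t ∉ bad`, `#grp < k`, and `t1 = T` if there is none.
(R) Some `t`, `t0 < t ≤ t1`, has `P t ∈ nbh G D (K1 ρ)`: let `b` be the least. For `a < t < b`: `P t ∉ nbh G D (2ρ)` (`t < t0` by choice of `a`; `t = t0` since `K2 ≥ 2`; `t0 < t < b` since `K1 ≥ 2`). `strand_state`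
with `α = 2ρ`, `β = K1 ρ`, `n = b - a - 1 ≥ (K2-2) ρ`; `q' - q = (n + 3 (2 + K1) ρ + 4)/2`, `τ' = τ`. `2 N (k (q'-q) - (|M'| - |M|)) ≤ N k (3 (2+K1) ρ + 7) ≤ k (n + ..) ` because
`N (3 (2 + 16 N) ρ + 7) ≤ 61 N² ρ ≤ (K2 - 2) ρ ≤ n`. So `N k (q' - q) ≤ N (|M'| - |M|) + k (q' - q)`.
(P) no such `t` and `t1 - t0 ≥ K3 ρ`: `pend_state` for `t0, t1`, `α = K2 ρ + 1` (`hfar`: `P t ∉ nbh G D (K1 ρ)` for `t0 < t ≤ t1`, `P t0 ∉ nbh G D (K2 ρ)`). `τ' = t1` (`t < t0`: in `nbh G D (K2 ρ)`; `t0 ≤ t < t1`: in `D'`).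
`k (q'-q) ≤ (|M'| - |M|) + k (K2 ρ + 1) + k #(bad ∩ [t0, t1))`, `N (K2 ρ + 1) ≤ K3 ρ ≤ q' - q`, and `bad ∩ [t0,t1)`, `bad ∩ [0, τ)` are disjoint in `bad ∩ [0, τ')`.
(W) otherwise `t1 - t0 < K3 ρ`, so `t1 < T` (`T - t0 ≥ K3 ρ`) is thin and not bad, `P t1 ∉ nbh G D (K1 ρ)`, `P t1 ∈ nbh G D (K2 ρ + 1 + K3 ρ)`. `gate_step` with `r1 = K1 ρ`, `r2 = K2 ρ + 1 + K3 ρ`, `τ' = τ`.
`2 (k (q'-q) - (|M'|-|M|)) ≤ k (6 α + 4 ρ + 13)`. If `α = 2ρ`: `n ≥ (32 N - 6) ρ`, `N (16 ρ + 13) ≤ 29 N ρ ≤ n + 12 ρ + 3 ≤ 2 (q'-q)`. If `α = r2 + ρ ≤ 302 N³ ρ`: `n ≥ 4000 N⁴ ρ - 2ρ - 1`,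
`N (1812 N³ ρ + 17 ρ) ≤ 1829 N⁴ ρ ≤ n ≤ 2 (q' - q)`.
Always `q < q'` and the loss of the step is `≤ k · 1000 N⁴ ρ + k #(new bad)`; together with `loss` of the old state (`q < g`) this is the last claim. -/
theorem leg_step (hG : G.Connected) {N g τ : ℕ} (hN : 1 ≤ N) (hT : T = 2 * g)
    (L : Leg G k ρ (2000 * N ^ 4 * ρ) T X A h P bad) (hg : 1000 * N ^ 4 * ρ ≤ g)
    (hI : Inv G k N ρ X A P bad D q M τ) (hq : q < g) :
    ∃ (D' : Set V) (q' : ℕ) (M' : Finset V) (τ' : ℕ), Inv G k N ρ X A P bad D' q' M' τ' ∧ q < q' ∧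
      N * (k * q') ≤ N * M'.card + k * g + N * k * (bad.card + 1 + 1000 * N ^ 4 * ρ) := by
  classical
  have hk2 := L.k2
  have hρ := L.rho
  have hρ1 : 1 ≤ ρ := by nlinarith
  have hst := hI.st
  have hXne : X.Nonempty := ⟨P 0, L.p0⟩
  -- abstract constants
  obtain ⟨n1, hn1⟩ : ∃ n1, n1 = N * ρ := ⟨_, rfl⟩
  obtain ⟨n2, hn2⟩ : ∃ n2, n2 = N * n1 := ⟨_, rfl⟩
  obtain ⟨n3, hn3⟩ : ∃ n3, n3 = N * n2 := ⟨_, rfl⟩
  obtain ⟨n4, hn4⟩ : ∃ n4, n4 = N * n3 := ⟨_, rfl⟩
  have e2' : 100 * N ^ 2 * ρ = 100 * n2 := by rw [hn2, hn1]; ring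
  have e4 : 1000 * N ^ 4 * ρ = 1000 * n4 := by rw [hn4, hn3, hn2, hn1]; ring
  have e4' : 2000 * N ^ 4 * ρ = 2000 * n4 := by rw [hn4, hn3, hn2, hn1]; ring
  have i1 : ρ ≤ n1 := by rw [hn1]; exact Nat.le_mul_of_pos_left _ hN
  have i1' : N ≤ n1 := by rw [hn1]; exact Nat.le_mul_of_pos_right _ hρ1
  have i2 : n1 ≤ n2 := by rw [hn2]; exact Nat.le_mul_of_pos_left _ hN
  have i3 : n2 ≤ n3 := by rw [hn3]; exact Nat.le_mul_of_pos_left _ hN
  have i4 : n3 ≤ n4 := by rw [hn4]; exact Nat.le_mul_of_pos_left _ hN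
  have hcov := hI.cov
  have hloss := hI.loss
  rw [e2'] at hcov
  rw [e4] at hg ⊢
  rw [e4'] at L
  have hh : ∀ t, t ≤ T → P t ∈ nbh G D (100 * n2) → t ≤ q + 100 * n2 := by
    intro t ht hm
    obtain ⟨u, hu, hd⟩ := m7a_mem.1 hm
    have h1 := side_lip_dist hG L.side (P t) u
    have h2 := side_rb hG L.side hst.rb hst.sub hXne hu
    rw [L.ph t ht] at h1
    omega
  have hex : ∃ t, t ≤ T ∧ P t ∉ nbh G D (100 * n2) := by
    by_contra hno
    push Not at hno
    have := hh T le_rfl (hno T le_rfl)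
    omega
  obtain ⟨t0, ht0⟩ : ∃ t0, t0 = Nat.find hex := ⟨_, rfl⟩
  have h0a : t0 ≤ T := by rw [ht0]; exact (Nat.find_spec hex).1
  have h0b : P t0 ∉ nbh G D (100 * n2) := by rw [ht0]; exact (Nat.find_spec hex).2
  have h0c : ∀ t, t < t0 → P t ∈ nbh G D (100 * n2) := by
    intro t ht
    by_contra hc
    have h1 : ¬ (t ≤ T ∧ P t ∉ nbh G D (100 * n2)) := Nat.find_min hex (by rw [← ht0]; exact ht)
    exact h1 ⟨by omega, hc⟩
  have hτ : τ ≤ t0 := by
    by_contra hc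
    exact h0b (hcov t0 (by omega))
  have hP0 : P 0 ∈ D := hst.sub L.p0
  have hself : ∀ r, P 0 ∈ nbh G D r := fun r => m7a_mem.2 ⟨P 0, hP0, by simp⟩
  have ht0pos : 1 ≤ t0 := by
    rcases Nat.eq_zero_or_pos t0 with h | h
    · rw [h] at h0b; exact absurd (hself _) h0b
    · exact h
  have hprev := h0c (t0 - 1) (by omega)
  have hstep1 : G.dist (P t0) (P (t0 - 1)) ≤ 1 := by
    have := m7a_dist hG L (t0 - 1) 1 (by omega)
    have h5 : t0 - 1 + 1 = t0 := by omega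
    rw [h5] at this; exact this
  have h0near : P t0 ∈ nbh G D (100 * n2 + 1) := m7a_near hG hprev (le_refl D) hstep1 le_rfl
  have h0h := hh (t0 - 1) (by omega) hprev
  -- a
  obtain ⟨a, ha⟩ : ∃ a, a = Nat.findGreatest (fun t => P t ∈ nbh G D (2 * ρ)) (t0 - 1) := ⟨_, rfl⟩
  have haP : P a ∈ nbh G D (2 * ρ) := by
    rw [ha]
    exact Nat.findGreatest_spec (P := fun t => P t ∈ nbh G D (2 * ρ)) (Nat.zero_le _) (hself _)
  have hale : a ≤ t0 - 1 := by rw [ha]; exact Nat.findGreatest_le _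
  have hamax : ∀ t, a < t → t < t0 → P t ∉ nbh G D (2 * ρ) := by
    intro t h1 h2
    rw [ha] at h1
    exact Nat.findGreatest_is_greatest h1 (by omega)
  have hgap : 100 * n2 < 2 * ρ + (t0 - a) := by
    by_contra hc
    push Not at hc
    apply h0b
    have h1 := m7a_dist hG L a (t0 - a) (by omega)
    have h5 : a + (t0 - a) = t0 := by omega
    rw [h5] at h1
    exact m7a_near hG haP (le_refl D) h1 hc
  -- t1
  obtain ⟨t1, ht1a, ht1b, hthick, hend⟩ : ∃ t1, t0 ≤ t1 ∧ t1 ≤ T ∧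
      (∀ t, t0 ≤ t → t < t1 → t ∉ bad → k ≤ (grp G A h ρ t (P t)).card) ∧
      (t1 = T ∨ (t1 < T ∧ t1 ∉ bad ∧ (grp G A h ρ t1 (P t1)).card < k)) := by
    by_cases hQ : ∃ t, t0 ≤ t ∧ t < T ∧ t ∉ bad ∧ (grp G A h ρ t (P t)).card < k
    · refine ⟨Nat.find hQ, (Nat.find_spec hQ).1, (Nat.find_spec hQ).2.1.le, ?_, Or.inr (Nat.find_spec hQ).2⟩
      intro t h1 h2 h3
      by_contra hc
      exact Nat.find_min hQ h2 ⟨h1, by have := (Nat.find_spec hQ).2.1; omega, h3, by omega⟩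
    · refine ⟨T, h0a, le_rfl, ?_, Or.inl rfl⟩
      intro t h1 h2 h3
      by_contra hc
      exact hQ ⟨t, h1, h2, h3, by omega⟩
  have hbadle : ∀ σ, (bad.filter (fun t => t < σ)).card ≤ bad.card := fun σ => Finset.card_filter_le _ _
  by_cases hR : ∃ t, t0 < t ∧ t ≤ t1 ∧ P t ∈ nbh G D (16 * n1)
  · -- case R
    obtain ⟨b, hb⟩ : ∃ b, b = Nat.find hR := ⟨_, rfl⟩
    have hb1 : t0 < b ∧ b ≤ t1 ∧ P b ∈ nbh G D (16 * n1) := by rw [hb]; exact Nat.find_spec hR
    have hbmin : ∀ t, t0 < t → t < b → P t ∉ nbh G D (16 * n1) := by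
      intro t h1 h2 h3
      exact Nat.find_min hR (by rw [← hb]; exact h2) ⟨h1, by omega, h3⟩
    have hfar : ∀ t, a < t → t < b → P t ∉ nbh G D (2 * ρ) := by
      intro t h1 h2 h3
      rcases lt_trichotomy t t0 with h | h | h
      · exact hamax t h1 h h3
      · rw [h] at h3
        exact h0b (m7a_near hG h3 (le_refl D) (s := 0) (by simp) (by omega))
      · exact hbmin t h h2 (m7a_near hG h3 (le_refl D) (s := 0) (by simp) (by omega))
    obtain ⟨D', M', hs', hDD, hm'⟩ := strand_state hG L hst (a := a) (b := b) (α := 2 * ρ) (β := 16 * n1)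
      (by omega) (by omega) haP hb1.2.2 hfar
    obtain ⟨q', hq'⟩ : ∃ q', q' = q + ((b - a - 1) + 3 * (2 * ρ + 16 * n1) + 4) / 2 := ⟨_, rfl⟩
    rw [← hq'] at hs'
    obtain ⟨n, hn⟩ : ∃ n, n = b - a - 1 := ⟨_, rfl⟩
    rw [← hn] at hm' hq'
    obtain ⟨s, hs⟩ : ∃ s, s = (n + 3 * (2 * ρ + 16 * n1) + 4) / 2 := ⟨_, rfl⟩
    have hs1 : 2 * s ≤ n + 3 * (2 * ρ + 16 * n1) + 4 := by omega
    have hs2 : n + 3 * (2 * ρ + 16 * n1) + 3 ≤ 2 * s := by omega
    have hq'2 : q' = q + s := by rw [hq', hs]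
    have hnbig : t0 - a ≤ n := by omega
    have hfin := m7a_finish (N := N) (k := k) (q := q) (q' := q') (m := M.card) (m' := M'.card)
      (b := (bad.filter (fun t => t < τ)).card) (nb := 0) (b' := (bad.filter (fun t => t < τ)).card)
      (B := bad.card) (E := 1000 * n4) (e2 := 3 * (2 * ρ + 16 * n1) + 7) (g := g) hloss
      (by
        rw [hq'2]
        have h1 : k * (2 * s) ≤ k * (n + 3 * (2 * ρ + 16 * n1) + 4) := Nat.mul_le_mul_left _ hs1
        nlinarith [h1, hm'])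
      (by omega)
      (by
        have h1 : N * (3 * (2 * ρ + 16 * n1) + 7) = 6 * n1 + 48 * n2 + 7 * N := by rw [hn2, hn1]; ring
        rw [h1]
        omega)
      (by omega) (hbadle _) (by omega) (by omega)
    refine ⟨D', q', M', τ, ⟨hs', ?_, hfin.1⟩, by omega, hfin.2⟩
    intro t ht
    rw [e2']
    exact m7a_near hG (hcov t ht) hDD (s := 0) (by simp) (by omega)
  · push Not at hR
    by_cases hlen : 200 * n3 ≤ t1 - t0
    · -- case P
      have hfar : ∀ t, t0 ≤ t → t < t1 → P t ∉ nbh G D (2 * ρ) := by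
        intro t h1 h2 h3
        rcases Nat.eq_or_lt_of_le h1 with h | h
        · rw [← h] at h3
          exact h0b (m7a_near hG h3 (le_refl D) (s := 0) (by simp) (by omega))
        · exact hR t h (by omega) (m7a_near hG h3 (le_refl D) (s := 0) (by simp) (by omega))
      obtain ⟨D', M', hs', hDD, hPD, hm'⟩ := pend_state hG L hst ht1a ht1b h0near hfar hthick
      have hbb : (bad.filter (fun t => t < τ)).card + (bad.filter (fun t => t0 ≤ t ∧ t < t1)).card ≤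
          (bad.filter (fun t => t < t1)).card := by
        rw [← Finset.card_union_of_disjoint]
        · apply Finset.card_le_card
          intro t ht
          simp only [Finset.mem_union, Finset.mem_filter] at ht ⊢
          rcases ht with ht | ht
          · exact ⟨ht.1, by omega⟩
          · exact ⟨ht.1, ht.2.2⟩
        · rw [Finset.disjoint_left]
          intro t h1 h2
          simp only [Finset.mem_filter] at h1 h2
          omega
      have hfin := m7a_finish (N := N) (k := k) (q := q) (q' := q + (100 * n2 + 1) + (t1 - t0)) (m := M.card)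
        (m' := M'.card) (b := (bad.filter (fun t => t < τ)).card)
        (nb := (bad.filter (fun t => t0 ≤ t ∧ t < t1)).card) (b' := (bad.filter (fun t => t < t1)).card)
        (B := bad.card) (E := 1000 * n4) (e2 := 2 * (100 * n2 + 1)) (g := g) hloss
        (by nlinarith [hm'])
        (by omega)
        (by
          have h1 : N * (2 * (100 * n2 + 1)) = 200 * n3 + 2 * N := by rw [hn3]; ring
          rw [h1]
          omega)
        hbb (hbadle _) (by omega) (by omega)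
      refine ⟨D', q + (100 * n2 + 1) + (t1 - t0), M', t1, ⟨hs', ?_, hfin.1⟩, by omega, hfin.2⟩
      intro t ht
      rw [e2']
      rcases lt_or_ge t t0 with h | h
      · exact m7a_near hG (h0c t h) hDD (s := 0) (by simp) (by omega)
      · exact m7a_mem.2 ⟨P t, hPD t h (by omega), by simp⟩
    · -- case W
      push Not at hlen
      have ht1T : t1 < T ∧ t1 ∉ bad ∧ (grp G A h ρ t1 (P t1)).card < k := by
        rcases hend with h | h
        · exfalso
          omega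
        · exact h
      have hnear1 : P t1 ∈ nbh G D (100 * n2 + 1 + 200 * n3) := by
        have h1 := m7a_dist hG L t0 (t1 - t0) (by omega)
        have h5 : t0 + (t1 - t0) = t1 := by omega
        rw [h5] at h1
        exact m7a_near hG h0near (le_refl D) h1 (by omega)
      have hfar1 : P t1 ∉ nbh G D (16 * n1) := by
        intro h3
        rcases Nat.eq_or_lt_of_le ht1a with h | h
        · rw [← h] at h3
          exact h0b (m7a_near hG h3 (le_refl D) (s := 0) (by simp) (by omega))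
        · exact hR t1 h le_rfl h3
      obtain ⟨D', M', n, α, hs', hDD, hm', hα⟩ := gate_step hG L hst (t := t1) (r1 := 16 * n1)
        (r2 := 100 * n2 + 1 + 200 * n3) (by omega) ht1T.1 ht1T.2.1 ht1T.2.2 (by omega) hfar1 hnear1
      obtain ⟨s, hs⟩ : ∃ s, s = (n + 6 * α + 4) / 2 := ⟨_, rfl⟩
      have hs1 : 2 * s ≤ n + 6 * α + 4 := by omega
      have hs2 : n + 6 * α + 3 ≤ 2 * s := by omega
      rw [← hs] at hs'
      have hfin := m7a_finish (N := N) (k := k) (q := q) (q' := q + s) (m := M.card) (m' := M'.card)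
        (b := (bad.filter (fun t => t < τ)).card) (nb := 0) (b' := (bad.filter (fun t => t < τ)).card)
        (B := bad.card) (E := 1000 * n4) (e2 := 6 * α + 4 * ρ + 13) (g := g) hloss
        (by
          have h1 : k * (2 * s) ≤ k * (n + 6 * α + 4) := Nat.mul_le_mul_left _ hs1
          nlinarith [h1, hm'])
        (by omega)
        (by
          rcases hα with ⟨h1, h2⟩ | ⟨h1, h2⟩
          · subst h1
            have h3 : N * (6 * (2 * ρ) + 4 * ρ + 13) = 16 * n1 + 13 * N := by rw [hn1]; ring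
            rw [h3]
            omega
          · subst h1
            have h3 : N * (6 * (100 * n2 + 1 + 200 * n3 + ρ) + 4 * ρ + 13) =
                600 * n3 + 1200 * n4 + 10 * n1 + 19 * N := by rw [hn4, hn3, hn2, hn1]; ring
            rw [h3]
            omega)
        (by omega) (hbadle _)
        (by
          rcases hα with ⟨h1, h2⟩ | ⟨h1, h2⟩
          · subst h1; omega
          · subst h1; omega)
        (by omega)
      refine ⟨D', q + s, M', τ, ⟨hs', ?_, hfin.1⟩, by omega, hfin.2⟩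
      intro t ht
      rw [e2']
      exact m7a_near hG (hcov t ht) hDD (s := 0) (by simp) (by omega)

end

end Pool.RBE
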