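import Pool.Agent.RBE.M7A

set_option autoImplicit false

/-! [RBE-M7B] growing the leg. -/

namespace Pool.RBE

open SimpleGraph Pool.Agent.RBC

section
variable {V : Type} [Fintype V] {G : SimpleGraph V} {k ρ ρ' T : ℕ} {X A : Set V} {h : V → ℕ} {P : ℕ → V}
  {bad : Finset ℕ} {D : Set V} {q : ℕ} {M : Finset V}

/-- [RBE-M7b] Growing until the cost is at least `g`. Proof. `Inv` holds for `D = X`, `q = 1`, `M = ∅`, `τ = 0` (`rb_cl`). Among all states with `Inv` and `q < g` take one with maximal `q`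
(`Nat.findGreatest` or strong induction on `g - q`); `leg_step`; the new `q'` is `≥ g`. -/
theorem leg_grow (hG : G.Connected) {N g : ℕ} (hN : 1 ≤ N) (hT : T = 2 * g) (hg2 : 2 ≤ g)
    (L : Leg G k ρ (2000 * N ^ 4 * ρ) T X A h P bad) (hg : 1000 * N ^ 4 * ρ ≤ g) :
    ∃ (D' : Set V) (q' : ℕ) (M' : Finset V), LSt G ρ X A D' q' M' ∧ g ≤ q' ∧
      N * (k * q') ≤ N * M'.card + k * g + N * k * (bad.card + 1 + 1000 * N ^ 4 * ρ) := by
  have hXne : X.Nonempty := ⟨P 0, L.p0⟩
  have hinit : Inv G k N ρ X A P bad X 1 ∅ 0 := by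
    refine ⟨⟨subset_rfl, fun v hv => Or.inl hv, rb_cl, by simp, by simp⟩, by simp, ?_⟩
    simp only [Finset.card_empty, Nat.mul_zero, Nat.mul_one, Nat.zero_add]
    have h1 : N * k ≤ N * k * ((bad.filter (fun t => t < 0)).card + 1) := Nat.le_mul_of_pos_right _ (by omega)
    omega
  have key : ∀ n : ℕ, ∀ (D : Set V) (q : ℕ) (M : Finset V) (τ : ℕ), g - q = n → q < g →
      Inv G k N ρ X A P bad D q M τ → ∃ (D' : Set V) (q' : ℕ) (M' : Finset V), LSt G ρ X A D' q' M' ∧ g ≤ q' ∧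
      N * (k * q') ≤ N * M'.card + k * g + N * k * (bad.card + 1 + 1000 * N ^ 4 * ρ) := by
    intro n
    induction n using Nat.strong_induction_on with
    | _ n ih =>
      intro D q M τ hn hq hI
      obtain ⟨D', q', M', τ', hI', hqq, hfin⟩ := leg_step hG hN hT L hg hI hq
      rcases lt_or_ge q' g with h | h
      · exact ih (g - q') (by omega) D' q' M' τ' rfl h hI'
      · exact ⟨D', q', M', hI'.st, h, hfin⟩
  exact key (g - 1) X 1 ∅ 0 rfl (by omega) hinit

end

end Pool.RBE
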