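import Pool.Agent.RBE.Base

set_option autoImplicit false

/-! [RBE-M7C] the choice of the scale. -/

namespace Pool.RBE

open SimpleGraph Pool.Agent.RBC

section
variable {V : Type} [Fintype V] {G : SimpleGraph V} {k T : ℕ} {A : Set V} {h : V → ℕ} {P : ℕ → V}

open Classical in
/-- [RBE-M7c] Choice of the scale: `r i = ρ0 * b ^ i`.
Proof. Let `bad_i` be the set in the claim. Map `(i, t)`, `t ∈ bad_i`, to a vertex `v ∈ A` with `h v = t`, `r i < dist (P t) v ≤ r (i+1)`: `v ∈ nbh G {P t | t ≤ T} (r m)`, and it is injective (`t = h v`;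
`i` is determined by `dist (P t) v` because `r` is increasing). So `Σ_{i<m} |bad_i| ≤ |nbh| ≤ (k+1) T`, and for `m = (k+1) N` some `i` has `N |bad_i| ≤ T` (otherwise `N Σ > m T`; for `T = 0` take `i = 0`, all `bad_i` empty). -/
theorem scale_choice {N b ρ0 : ℕ} (hk : 1 ≤ k) (hb : 1 ≤ b) (hN : 1 ≤ N)
    (hm : (nbh G {v | ∃ t, t ≤ T ∧ v = P t} (ρ0 * b ^ ((k + 1) * N))).card ≤ (k + 1) * T) :
    ∃ i, i < (k + 1) * N ∧
      N * ((Finset.Icc 1 T).filter (fun t => ∃ v ∈ A, h v = t ∧ ρ0 * b ^ i < G.dist (P t) v ∧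
        G.dist (P t) v ≤ ρ0 * b ^ (i + 1))).card ≤ T := by
  by_contra hcon
  push Not at hcon
  set m := (k + 1) * N with hmdef
  set r : ℕ → ℕ := fun i => ρ0 * b ^ i with hr
  have hmono : ∀ i j, i ≤ j → r i ≤ r j := by
    intro i j hij
    exact Nat.mul_le_mul_left _ (Nat.pow_le_pow_right hb hij)
  let B : ℕ → Finset ℕ := fun i => (Finset.Icc 1 T).filter (fun t => ∃ v ∈ A, h v = t ∧ ρ0 * b ^ i < G.dist (P t) v ∧
        G.dist (P t) v ≤ ρ0 * b ^ (i + 1))
  have hB : ∀ i, i < m → T < N * (B i).card := fun i hi => hcon i hi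
  let W : ℕ → Finset V := fun i => Finset.univ.filter (fun v => h v ∈ Finset.Icc 1 T ∧ v ∈ A ∧
    ρ0 * b ^ i < G.dist (P (h v)) v ∧ G.dist (P (h v)) v ≤ ρ0 * b ^ (i + 1))
  have hBW : ∀ i, (B i).card ≤ (W i).card := by
    intro i
    have h1 : B i ⊆ (W i).image h := by
      intro t ht
      simp only [B, Finset.mem_filter] at ht
      obtain ⟨h1, v, hv, h2, h3, h4⟩ := ht
      refine Finset.mem_image.2 ⟨v, ?_, h2⟩
      simp only [W, Finset.mem_filter, Finset.mem_univ, true_and]
      rw [h2]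
      exact ⟨h1, hv, h3, h4⟩
    exact (Finset.card_le_card h1).trans Finset.card_image_le
  have hdisj : ∀ i ∈ Finset.range m, ∀ j ∈ Finset.range m, i ≠ j → Disjoint (W i) (W j) := by
    have haux : ∀ i j, i < j → Disjoint (W i) (W j) := by
      intro i j hij
      rw [Finset.disjoint_left]
      intro v h1 h2
      simp only [W, Finset.mem_filter, Finset.mem_univ, true_and] at h1 h2
      have h3 := hmono (i + 1) j hij
      simp only [hr] at h3
      omega
    intro i _ j _ hij
    rcases Nat.lt_or_gt_of_ne hij with h | h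
    · exact haux i j h
    · exact (haux j i h).symm
  have hsum : ∑ i ∈ Finset.range m, (W i).card ≤ (k + 1) * T := by
    rw [← Finset.card_biUnion hdisj]
    refine le_trans (Finset.card_le_card ?_) hm
    intro v hv
    rw [Finset.mem_biUnion] at hv
    obtain ⟨i, hi, hv⟩ := hv
    simp only [W, Finset.mem_filter, Finset.mem_univ, true_and, Finset.mem_Icc] at hv
    rw [Finset.mem_range] at hi
    unfold nbh
    simp only [Finset.mem_filter, Finset.mem_univ, true_and]
    refine ⟨P (h v), ⟨h v, hv.1.2, rfl⟩, ?_⟩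
    rw [SimpleGraph.dist_comm]
    have h3 := hmono (i + 1) m hi
    simp only [hr] at h3
    omega
  have hbig : m * (T + 1) ≤ N * ∑ i ∈ Finset.range m, (W i).card := by
    rw [Finset.mul_sum]
    have h1 : ∑ i ∈ Finset.range m, (T + 1) ≤ ∑ i ∈ Finset.range m, N * (W i).card := by
      apply Finset.sum_le_sum
      intro i hi
      have h2 := hB i (Finset.mem_range.1 hi)
      have h3 := Nat.mul_le_mul_left N (hBW i)
      omega
    simpa using h1
  have h5 : N * ∑ i ∈ Finset.range m, (W i).card ≤ N * ((k + 1) * T) := Nat.mul_le_mul_left _ hsum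
  have h6 : N * ((k + 1) * T) = m * T := by rw [hmdef]; ring
  have h7 : 0 < m := by
    rw [hmdef]; positivity
  nlinarith

end

end Pool.RBE
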