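import Pool.Agent.RBE.M7B
import Pool.Agent.RBE.M7C
import Pool.Agent.RBE.RS

set_option autoImplicit false

/-! [RBE-M7D] THE LEG LEMMA. -/

namespace Pool.RBE

open SimpleGraph Pool.Agent.RBC

theorem m7d_path {V : Type} {G : SimpleGraph V} {P : ℕ → V} {T : ℕ}
    (hadj : ∀ t, t < T → G.Adj (P t) (P (t + 1))) :
    ∀ n, n ≤ T → Rb G {v | ∃ t, t ≤ n ∧ v = P t} n := by
  intro n
  induction n with
  | zero =>
    intro _
    have e : {v | ∃ t, t ≤ 0 ∧ v = P t} = ({P 0} : Set V) := by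
      ext v
      rw [Set.mem_singleton_iff]
      constructor
      · rintro ⟨t, ht, rfl⟩
        rw [Nat.le_zero.1 ht]
      · rintro rfl
        exact ⟨0, le_refl _, rfl⟩
    rw [e]
    exact rb_singleton _
  | succ n ih =>
    intro hn
    have h1 := rb_walk (ih (by omega)) (a := P n) (b := P (n + 1)) ⟨n, le_refl _, rfl⟩
      (Walk.cons (hadj n (by omega)) Walk.nil)
    have e : {v | ∃ t, t ≤ n ∧ v = P t} ∪
        {x | x ∈ (Walk.cons (hadj n (by omega)) Walk.nil : G.Walk (P n) (P (n + 1))).support} =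
        ({v | ∃ t, t ≤ n + 1 ∧ v = P t} : Set V) := by
      ext v
      rw [Set.mem_union]
      constructor
      · rintro (⟨t, ht, rfl⟩ | hv)
        · exact ⟨t, by omega, rfl⟩
        · have hv' : v = P n ∨ v = P (n + 1) := by simpa using hv
          rcases hv' with rfl | rfl
          · exact ⟨n, by omega, rfl⟩
          · exact ⟨n + 1, le_refl _, rfl⟩
      · rintro ⟨t, ht, rfl⟩
        rcases Nat.lt_or_ge t (n + 1) with h2 | h2
        · exact Or.inl ⟨t, by omega, rfl⟩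
        · have h3 : t = n + 1 := by omega
          subst h3
          right
          show P (n + 1) ∈ (Walk.cons (hadj n (by omega)) Walk.nil : G.Walk (P n) (P (n + 1))).support
          simp
    rw [e] at h1
    exact h1

/-- [RBE-M7] THE LEG LEMMA.
Proof. `N = 4 k K`, `b = 2000 N⁴`, `ρ0 = 4 k²`, `r = ρ0 b^((k+1)N)`, `C` from `slack` with `R = r`, `g0 = max` of `2`, `C`, `1000 N⁴ r` and `8 k K (2 + 1000 N⁴ r)`. (For `K = 0` use the result for `K = 1`, the last claim is trivial.)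
Let `h` from `side_exists`, `a ∈ A` with `2g ≤ dist a x` for all `x ∈ X`, so `2g ≤ h a` (`att`), `P` from `side_path` with `T = 2g`. `Rb G {P t | t ≤ T} T` (`rb_singleton`, `rb_walk` along `P`), so by `slack`
`|nbh G {P t} r| < kT + C ≤ (k+1) T`. `scale_choice` gives `i`; `ρ = ρ0 b^i`, `ρ' = b ρ = 2000 N⁴ ρ`, `bad` the set of `scale_choice`, `N |bad| ≤ T`. `Leg` holds (`good`: if `t ∉ bad`, `dist (P t) v ≤ ρ'` then not `ρ < dist`).
`leg_grow`: `D, q, M` with `g ≤ q`, `N k q ≤ N |M| + k g + k T + N k (1 + 1000 N⁴ ρ)`, i.e. (divide by `4k`, `N = 4kK`): `4 k K (k q) ≤ 4 k K |M| + 3 k g + 4 k² K (1 + 1000 N⁴ r)`, so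
`K (k q) ≤ K |M| + g` because `4 k K (1 + 1000 N⁴ r) ≤ g`. `M ⊆ nbh G D ρ ⊆ nbh G D r`. -/
theorem leg (k : ℕ) (hk : 3 ≤ k) (K : ℕ) :
    ∃ r g0 : ℕ, ∀ (V : Type) [Fintype V] (G : SimpleGraph V), KConn G k → Irr G k → ∀ X A : Set V,
      X.Nonempty → (∀ a ∈ A, ∀ b, G.Adj a b → b ∈ A ∨ b ∈ X) → (∀ a ∈ A, a ∉ X) → ∀ g, g0 ≤ g →
      (∃ a ∈ A, ∀ x ∈ X, 2 * g ≤ G.dist a x) →
      ∃ (D : Set V) (q : ℕ) (M : Finset V), X ⊆ D ∧ (∀ v ∈ D, v ∈ X ∨ v ∈ A) ∧ Rb (cl G X) D q ∧ g ≤ q ∧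
        (∀ v ∈ M, v ∈ A) ∧ M ⊆ nbh G D r ∧ K * (k * q) ≤ K * M.card + g := by
  classical
  set K' : ℕ := max K 1 with hK'
  have hK1 : 1 ≤ K' := le_max_right _ _
  set N : ℕ := 4 * k * K' with hNd
  have hN : 1 ≤ N := by
    have : 0 < 4 * k * K' := by positivity
    omega
  set b : ℕ := 2000 * N ^ 4 with hbd
  have hb : 1 ≤ b := by
    have : 0 < 2000 * N ^ 4 := by positivity
    omega
  set ρ0 : ℕ := 4 * (k * k) with hρ0
  set r : ℕ := ρ0 * b ^ ((k + 1) * N) with hr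
  obtain ⟨C, hC⟩ := slack k hk r
  refine ⟨r, 2 + C + 1000 * N ^ 4 * r + 4 * k * K' * (1 + 1000 * N ^ 4 * r), ?_⟩
  intro V _ G hkc hirr X A hX hn hd g hg hfar
  have hg2 : 2 ≤ g := by omega
  have hgC : C ≤ g := by omega
  have hgr : 1000 * N ^ 4 * r ≤ g := by omega
  have hgK : 4 * k * K' * (1 + 1000 * N ^ 4 * r) ≤ g := by omega
  have hG : G.Connected := kconn_connected hkc (by omega)
  obtain ⟨h, hS⟩ := side_exists (G := G) hX hn hd
  obtain ⟨a, ha, hax⟩ := hfar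
  have hT : 2 * g ≤ h a := by
    obtain ⟨x, hx, hdx⟩ := hS.att a ha
    rw [← hdx]
    exact hax x hx
  obtain ⟨P, hP0, hPA, hPh, hPadj⟩ := side_path hG hS ha hT
  have hRb : Rb G {v | ∃ t, t ≤ 2 * g ∧ v = P t} (2 * g) := m7d_path hPadj (2 * g) (le_refl _)
  have hsl := hC V G hkc hirr {v | ∃ t, t ≤ 2 * g ∧ v = P t} (2 * g) ⟨P 0, 0, Nat.zero_le _, rfl⟩ hRb
  have hm : (nbh G {v | ∃ t, t ≤ 2 * g ∧ v = P t} (ρ0 * b ^ ((k + 1) * N))).card ≤
      (k + 1) * (2 * g) := by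
    have e : (k + 1) * (2 * g) = k * (2 * g) + 2 * g := by ring
    rw [e]
    have : (nbh G {v | ∃ t, t ≤ 2 * g ∧ v = P t} (ρ0 * b ^ ((k + 1) * N))).card <
      k * (2 * g) + C := hsl
    omega
  obtain ⟨i, hi, hbad⟩ := scale_choice (A := A) (h := h) (by omega : 1 ≤ k) hb hN hm
  set bad : Finset ℕ := (Finset.Icc 1 (2 * g)).filter (fun t => ∃ v ∈ A, h v = t ∧
    ρ0 * b ^ i < G.dist (P t) v ∧ G.dist (P t) v ≤ ρ0 * b ^ (i + 1)) with hbadd
  set ρ : ℕ := ρ0 * b ^ i with hρ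
  have hbi : 1 ≤ b ^ i := Nat.one_le_pow _ _ hb
  have hρr : ρ ≤ r := by
    rw [hρ, hr]
    exact Nat.mul_le_mul_left _ (Nat.pow_le_pow_right hb hi.le)
  have hρ' : 2000 * N ^ 4 * ρ = ρ0 * b ^ (i + 1) := by
    rw [hρ, ← hbd, pow_succ]
    ring
  have L : Leg G k ρ (2000 * N ^ 4 * ρ) (2 * g) X A h P bad :=
    { kc := hkc
      k2 := by omega
      rho := by
        rw [hρ]
        exact Nat.le_mul_of_pos_right _ (by omega)
      side := hS
      p0 := hP0
      pA := hPA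
      ph := hPh
      adj := hPadj
      good := by
        intro t ht1 ht2 htb v hv hvt hdv
        by_contra hcon
        apply htb
        rw [hbadd, Finset.mem_filter, Finset.mem_Icc]
        refine ⟨⟨ht1, ht2⟩, v, hv, hvt, by omega, ?_⟩
        rw [← hρ']
        exact hdv }
  have hgρ : 1000 * N ^ 4 * ρ ≤ g := (Nat.mul_le_mul_left _ hρr).trans hgr
  obtain ⟨D, q, M, hL, hgq, hloss⟩ := leg_grow hG hN rfl hg2 L hgρ
  refine ⟨D, q, M, hL.sub, hL.sup, hL.rb, hgq, hL.mA, ?_, ?_⟩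
  · intro v hv
    have h1 := hL.mD hv
    unfold nbh at h1 ⊢
    rw [Finset.mem_filter] at h1 ⊢
    obtain ⟨h2, u, hu, h3⟩ := h1
    exact ⟨h2, u, hu, h3.trans hρr⟩
  · rcases Nat.eq_zero_or_pos K with h0 | h0
    · rw [h0]
      omega
    · have hKK : K' = K := by
        rw [hK']
        omega
      have h1 : N * k * bad.card ≤ k * (2 * g) := by
        calc N * k * bad.card = k * (N * bad.card) := by ring
          _ ≤ k * (2 * g) := Nat.mul_le_mul_left _ hbad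
      have h2 : N * k * (1 + 1000 * N ^ 4 * ρ) ≤ k * g := by
        calc N * k * (1 + 1000 * N ^ 4 * ρ) ≤ N * k * (1 + 1000 * N ^ 4 * r) :=
              Nat.mul_le_mul_left _ (Nat.add_le_add_left (Nat.mul_le_mul_left _ hρr) _)
          _ = k * (4 * k * K' * (1 + 1000 * N ^ 4 * r)) := by
              rw [hNd]
              ring
          _ ≤ k * g := Nat.mul_le_mul_left _ hgK
      have h3 : N * k * (bad.card + 1 + 1000 * N ^ 4 * ρ) =
          N * k * bad.card + N * k * (1 + 1000 * N ^ 4 * ρ) := by ring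
      rw [h3] at hloss
      have h4 : N * (k * q) ≤ N * M.card + k * (4 * g) := by
        have e : k * (4 * g) = k * g + k * (2 * g) + k * g := by ring
        rw [e]
        omega
      have h5 : (4 * k) * (K' * (k * q)) ≤ (4 * k) * (K' * M.card + g) := by
        have e1 : (4 * k) * (K' * (k * q)) = N * (k * q) := by rw [hNd]; ring
        have e2 : (4 * k) * (K' * M.card + g) = N * M.card + k * (4 * g) := by rw [hNd]; ring
        rw [e1, e2]
        exact h4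
      have h6 := Nat.le_of_mul_le_mul_left h5 (by omega)
      rw [hKK] at h6
      exact h6

end Pool.RBE
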