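import Mathlib

/-!
# Two edge-disjoint spanning trees (Nash-Williams, Tutte), multigraph version

A multigraph is given by a finite type `E` of edges with end maps `s t : E → V`.
-/

set_option autoImplicit false

namespace Pool.RBE.NW

open Finset

variable {V E : Type*}

/-- `x` and `y` are the ends of an edge of `F`. -/
def Adj (s t : E → V) (F : Finset E) (x y : V) : Prop :=
  ∃ e ∈ F, (s e = x ∧ t e = y) ∨ (s e = y ∧ t e = x)

/-- `y` can be reached from `x` by a walk using edges of `F` only. -/
def Reach (s t : E → V) (F : Finset E) : V → V → Prop :=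
  Relation.ReflTransGen (Adj s t F)

theorem Adj.symm {s t : E → V} {F : Finset E} {x y : V} (h : Adj s t F x y) :
    Adj s t F y x := by
  obtain ⟨e, he, h⟩ := h
  exact ⟨e, he, h.symm⟩

theorem Adj.mono {s t : E → V} {F G : Finset E} (hFG : F ⊆ G) {x y : V}
    (h : Adj s t F x y) : Adj s t G x y := by
  obtain ⟨e, he, h⟩ := h
  exact ⟨e, hFG he, h⟩

theorem Reach.mono {s t : E → V} {F G : Finset E} (hFG : F ⊆ G) {x y : V}
    (h : Reach s t F x y) : Reach s t G x y :=
  Relation.ReflTransGen.mono (fun _ _ h => Adj.mono hFG h) _ _ h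

theorem Reach.symm {s t : E → V} {F : Finset E} {x y : V} (h : Reach s t F x y) :
    Reach s t F y x := by
  induction h with
  | refl => exact Relation.ReflTransGen.refl
  | tail _ hbc ih => exact Relation.ReflTransGen.head hbc.symm ih

theorem Reach.trans {s t : E → V} {F : Finset E} {x y z : V} (h : Reach s t F x y)
    (h' : Reach s t F y z) : Reach s t F x z :=
  Relation.ReflTransGen.trans h h'

theorem Reach.rfl {s t : E → V} {F : Finset E} {x : V} : Reach s t F x x :=
  Relation.ReflTransGen.refl

/-- edges of `F` with both ends in `W` -/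
def ins [DecidableEq V] (s t : E → V) (F : Finset E) (W : Finset V) : Finset E :=
  F.filter (fun e => s e ∈ W ∧ t e ∈ W)

theorem mem_ins [DecidableEq V] {s t : E → V} {F : Finset E} {W : Finset V} {e : E} :
    e ∈ ins s t F W ↔ e ∈ F ∧ s e ∈ W ∧ t e ∈ W := by
  simp [ins]

/-- edges of `F` incident with `v` -/
def inc [DecidableEq V] (s t : E → V) (F : Finset E) (v : V) : Finset E :=
  F.filter (fun e => s e = v ∨ t e = v)

theorem mem_inc [DecidableEq V] {s t : E → V} {F : Finset E} {v : V} {e : E} :
    e ∈ inc s t F v ↔ e ∈ F ∧ (s e = v ∨ t e = v) := by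
  simp [inc]

/-- the other end of an edge -/
def other [DecidableEq V] (s t : E → V) (v : V) (e : E) : V :=
  if s e = v then t e else s e

section core

variable [DecidableEq V] [DecidableEq E]

/-- supermodularity of `W ↦ |ins W|` -/
theorem ins_union_inter (s t : E → V) (F : Finset E) (A B : Finset V) :
    (ins s t F A).card + (ins s t F B).card ≤
      (ins s t F (A ∪ B)).card + (ins s t F (A ∩ B)).card := by
  have h1 : ins s t F A ∪ ins s t F B ⊆ ins s t F (A ∪ B) := by
    intro e he
    rw [mem_union, mem_ins, mem_ins] at he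
    rw [mem_ins]
    rcases he with he | he
    · exact ⟨he.1, mem_union_left _ he.2.1, mem_union_left _ he.2.2⟩
    · exact ⟨he.1, mem_union_right _ he.2.1, mem_union_right _ he.2.2⟩
  have h2 : ins s t F A ∩ ins s t F B = ins s t F (A ∩ B) := by
    ext e
    simp only [mem_inter, mem_ins]
    tauto
  have h3 := card_union_add_card_inter (ins s t F A) (ins s t F B)
  have h4 := card_le_card h1
  rw [h2] at h3
  omega

theorem ins_erase (s t : E → V) (F : Finset E) (U : Finset V) (v : V)
    (hF : ∀ e ∈ F, s e ∈ U ∧ t e ∈ U) :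
    ins s t F (U.erase v) = F \ inc s t F v := by
  ext e
  rw [mem_ins, mem_sdiff, mem_inc, mem_erase, mem_erase]
  constructor
  · rintro ⟨h1, ⟨h2, _⟩, ⟨h3, _⟩⟩
    refine ⟨h1, ?_⟩
    rintro ⟨_, h | h⟩
    · exact h2 h
    · exact h3 h
  · rintro ⟨h1, h2⟩
    refine ⟨h1, ⟨fun h => h2 ⟨h1, Or.inl h⟩, (hF e h1).1⟩, ⟨fun h => h2 ⟨h1, Or.inr h⟩, (hF e h1).2⟩⟩

/-- handshake -/
theorem sum_inc (s t : E → V) (F : Finset E) (U : Finset V)
    (hF : ∀ e ∈ F, s e ∈ U ∧ t e ∈ U) (hl : ∀ e ∈ F, s e ≠ t e) :
    ∑ v ∈ U, (inc s t F v).card = 2 * F.card := by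
  have h1 : ∀ v ∈ U, (inc s t F v).card = ∑ e ∈ F, (if s e = v ∨ t e = v then 1 else 0) := by
    intro v _
    rw [inc, card_filter]
  rw [sum_congr rfl h1, sum_comm]
  have h2 : ∀ e ∈ F, ∑ v ∈ U, (if s e = v ∨ t e = v then 1 else 0) = 2 := by
    intro e he
    rw [← card_filter]
    have : U.filter (fun v => s e = v ∨ t e = v) = {s e, t e} := by
      ext v
      simp only [mem_filter, mem_insert, mem_singleton]
      constructor
      · rintro ⟨_, h | h⟩
        · exact Or.inl h.symm
        · exact Or.inr h.symm
      · rintro (h | h)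
        · exact ⟨h ▸ (hF e he).1, Or.inl h.symm⟩
        · exact ⟨h ▸ (hF e he).2, Or.inr h.symm⟩
    rw [this, card_pair (hl e he)]
  rw [sum_congr rfl h2, sum_const, smul_eq_mul, mul_comm]

/-- A `(2,2)`-tight multigraph contains two edge-disjoint spanning connected subgraphs. -/
theorem tight_two_trees : ∀ (n : ℕ) (U : Finset V) (F : Finset E) (s t : E → V),
    U.card = n → U.Nonempty → (∀ e ∈ F, s e ∈ U ∧ t e ∈ U) →
    (∀ W ⊆ U, W.Nonempty → (ins s t F W).card + 2 ≤ 2 * W.card) →
    F.card + 2 = 2 * U.card →
    ∃ F₁ F₂ : Finset E, F₁ ⊆ F ∧ F₂ ⊆ F ∧ Disjoint F₁ F₂ ∧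
      (∀ x ∈ U, ∀ y ∈ U, Reach s t F₁ x y) ∧ (∀ x ∈ U, ∀ y ∈ U, Reach s t F₂ x y) := by
  intro n
  induction n with
  | zero =>
    intro U F s t hn hU
    rw [card_eq_zero] at hn
    subst hn
    exact absurd hU (by simp)
  | succ n ih =>
    intro U F s t hn hU hF hsp hcard
    -- no loops
    have hl : ∀ e ∈ F, s e ≠ t e := by
      intro e he h
      have h1 := hsp {s e} (by simpa using (hF e he).1) (by simp)
      have h2 : e ∈ ins s t F {s e} := by
        rw [mem_ins]; exact ⟨he, by simp, by simp [h]⟩
      have h3 := card_pos.2 ⟨e, h2⟩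
      rw [card_singleton] at h1
      omega
    by_cases hn0 : n = 0
    · subst hn0
      obtain ⟨a, ha⟩ := card_eq_one.1 hn
      refine ⟨∅, ∅, empty_subset _, empty_subset _, disjoint_empty_left _, ?_, ?_⟩
      · intro x hx y hy
        rw [ha, mem_singleton] at hx hy
        rw [hx, hy]; exact Reach.rfl
      · intro x hx y hy
        rw [ha, mem_singleton] at hx hy
        rw [hx, hy]; exact Reach.rfl
    -- a vertex of degree at most three
    have hv : ∃ v ∈ U, (inc s t F v).card ≤ 3 := by
      by_contra hcon
      push Not at hcon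
      have h1 := sum_inc s t F U hF hl
      have h2 : ∑ v ∈ U, 4 ≤ ∑ v ∈ U, (inc s t F v).card :=
        sum_le_sum (fun v hv => hcon v hv)
      rw [sum_const, smul_eq_mul] at h2
      omega
    obtain ⟨v, hvU, hv3⟩ := hv
    have hcU' : (U.erase v).card = n := by rw [card_erase_of_mem hvU, hn]; rfl
    have hU' : (U.erase v).Nonempty := by
      rw [← card_pos, hcU']; omega
    have hincF : inc s t F v ⊆ F := filter_subset _ _
    have hcF : (F \ inc s t F v).card + (inc s t F v).card = F.card := card_sdiff_add_card_eq_card hincF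
    have hv2 : 2 ≤ (inc s t F v).card := by
      have h1 := hsp (U.erase v) (erase_subset _ _) hU'
      rw [ins_erase s t F U v hF] at h1
      omega
    -- other ends
    have ho : ∀ e ∈ inc s t F v, other s t v e ∈ U.erase v ∧
        ((s e = v ∧ t e = other s t v e) ∨ (t e = v ∧ s e = other s t v e)) := by
      intro e he
      rw [mem_inc] at he
      obtain ⟨he, h⟩ := he
      unfold other
      split_ifs with hs
      · refine ⟨mem_erase.2 ⟨fun h' => hl e he (by rw [hs, h']), (hF e he).2⟩, Or.inl ⟨hs, rfl⟩⟩
      · rcases h with h | h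
        · exact absurd h hs
        · exact ⟨mem_erase.2 ⟨hs, (hF e he).1⟩, Or.inr ⟨h, rfl⟩⟩
    have hoA : ∀ e ∈ inc s t F v, ∀ G : Finset E, e ∈ G → Adj s t G v (other s t v e) := by
      intro e he G heG
      rcases (ho e he).2 with h | h
      · exact ⟨e, heG, Or.inl h⟩
      · exact ⟨e, heG, Or.inr ⟨h.2, h.1⟩⟩
    rcases Nat.lt_or_ge (inc s t F v).card 3 with hlt | hge
    · -- degree two
      have h2 : (inc s t F v).card = 2 := by omega
      obtain ⟨e₁, e₂, hne, hinc⟩ := card_eq_two.1 h2
      have he₁ : e₁ ∈ inc s t F v := by rw [hinc]; simp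
      have he₂ : e₂ ∈ inc s t F v := by rw [hinc]; simp
      obtain ⟨G₁, G₂, hG₁, hG₂, hd, hc₁, hc₂⟩ := ih (U.erase v) (F \ inc s t F v) s t hcU' hU'
        (by
          intro e he
          rw [← ins_erase s t F U v hF, mem_ins] at he
          exact he.2)
        (by
          intro W hW hWn
          refine le_trans ?_ (hsp W (hW.trans (erase_subset _ _)) hWn)
          have : ins s t (F \ inc s t F v) W ⊆ ins s t F W := by
            intro e he
            rw [mem_ins] at he ⊢
            exact ⟨(mem_sdiff.1 he.1).1, he.2⟩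
          have := card_le_card this
          omega)
        (by rw [hcU']; omega)
      have hsub : ∀ e ∈ inc s t F v, ∀ G ⊆ F \ inc s t F v, e ∉ G := by
        intro e he G hG heG
        exact (mem_sdiff.1 (hG heG)).2 he
      have key : ∀ (e : E) (G : Finset E), e ∈ inc s t F v → G ⊆ F \ inc s t F v →
          (∀ x ∈ U.erase v, ∀ y ∈ U.erase v, Reach s t G x y) →
          ∀ x ∈ U, ∀ y ∈ U, Reach s t (insert e G) x y := by
        intro e G he hG hc
        have hv' : ∀ x ∈ U, Reach s t (insert e G) v x := by
          intro x hx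
          by_cases hxv : x = v
          · rw [hxv]; exact Reach.rfl
          · exact Relation.ReflTransGen.head (hoA e he _ (mem_insert_self _ _))
              (Reach.mono (subset_insert _ _) (hc _ (ho e he).1 x (mem_erase.2 ⟨hxv, hx⟩)))
        intro x hx y hy
        exact (hv' x hx).symm.trans (hv' y hy)
      refine ⟨insert e₁ G₁, insert e₂ G₂, ?_, ?_, ?_, key e₁ G₁ he₁ hG₁ hc₁,
        key e₂ G₂ he₂ hG₂ hc₂⟩
      · exact insert_subset (hincF he₁) (hG₁.trans sdiff_subset)
      · exact insert_subset (hincF he₂) (hG₂.trans sdiff_subset)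
      · rw [disjoint_insert_left, disjoint_insert_right]
        refine ⟨?_, ?_, hd⟩
        · rw [mem_insert]
          rintro (h | h)
          · exact hne h
          · exact hsub e₁ he₁ G₂ hG₂ h
        · exact hsub e₂ he₂ G₁ hG₁
    · -- degree three
      have h3 : (inc s t F v).card = 3 := by omega
      -- the set `W ∪ {v}` for a tight `W` containing all other ends is too dense
      have hbad : ∀ W ⊆ U.erase v, (∀ e ∈ inc s t F v, other s t v e ∈ W) →
          W.Nonempty → 2 * W.card ≤ (ins s t F W).card + 2 → False := by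
        intro W hW hall hWn hWt
        have hvW : v ∉ W := fun h => (mem_erase.1 (hW h)).1 rfl
        have h1 := hsp (insert v W) (insert_subset hvU (hW.trans (erase_subset _ _)))
          (insert_nonempty _ _)
        have h2 : ins s t F W ∪ inc s t F v ⊆ ins s t F (insert v W) := by
          intro e he
          rw [mem_union] at he
          rw [mem_ins]
          rcases he with he | he
          · rw [mem_ins] at he
            exact ⟨he.1, mem_insert_of_mem he.2.1, mem_insert_of_mem he.2.2⟩
          · have h4 := hall e he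
            rcases (ho e he).2 with h | h
            · exact ⟨hincF he, by rw [h.1]; exact mem_insert_self _ _,
                by rw [h.2]; exact mem_insert_of_mem h4⟩
            · exact ⟨hincF he, by rw [h.2]; exact mem_insert_of_mem h4,
                by rw [h.1]; exact mem_insert_self _ _⟩
        have h5 : Disjoint (ins s t F W) (inc s t F v) := by
          rw [disjoint_left]
          intro e he he'
          rw [mem_ins] at he
          rw [mem_inc] at he'
          rcases he'.2 with h | h
          · exact hvW (h ▸ he.2.1)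
          · exact hvW (h ▸ he.2.2)
        have h6 := card_le_card h2
        rw [card_union_of_disjoint h5, h3] at h6
        rw [card_insert_of_notMem hvW] at h1
        omega
      -- choice of the pair of edges
      have hpair : ∃ x y z : E, x ≠ y ∧ x ≠ z ∧ y ≠ z ∧ inc s t F v = {x, y, z} ∧
          other s t v x ≠ other s t v y ∧
          ∀ W ⊆ U.erase v, other s t v x ∈ W → other s t v y ∈ W →
            (ins s t F W).card + 3 ≤ 2 * W.card := by
        by_contra hcon
        push Not at hcon
        have hT : ∀ x y z : E, x ≠ y → x ≠ z → y ≠ z → inc s t F v = {x, y, z} →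
            other s t v x ≠ other s t v y → ∃ W ⊆ U.erase v, other s t v x ∈ W ∧
              other s t v y ∈ W ∧ 2 * W.card ≤ (ins s t F W).card + 2 := by
          intro x y z h1 h2 h3 h4 h5
          obtain ⟨W, hW, hx, hy, h⟩ := hcon x y z h1 h2 h3 h4 h5
          exact ⟨W, hW, hx, hy, by omega⟩
        -- two edges with distinct other ends
        obtain ⟨a, b, c, hab, hac, hbc, hinc⟩ := card_eq_three.1 h3
        have hfirst : ∃ x y z : E, x ≠ y ∧ x ≠ z ∧ y ≠ z ∧ inc s t F v = {x, y, z} ∧
            other s t v x ≠ other s t v y := by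
          by_cases h1 : other s t v a = other s t v b
          · by_cases h2 : other s t v a = other s t v c
            · exfalso
              have haI : a ∈ inc s t F v := by rw [hinc]; simp
              refine hbad {other s t v a} (by simpa using (ho a haI).1) ?_ (by simp) (by simp)
              intro e he
              rw [hinc] at he
              simp only [mem_insert, mem_singleton] at he
              rcases he with rfl | rfl | rfl
              · simp
              · simp [h1]
              · simp [h2]
            · refine ⟨a, c, b, hac, hab, hbc.symm, ?_, h2⟩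
              rw [hinc]
              ext e
              simp only [mem_insert, mem_singleton]
              tauto
          · exact ⟨a, b, c, hab, hac, hbc, hinc, h1⟩
        obtain ⟨x, y, z, hxy, hxz, hyz, hI, hne⟩ := hfirst
        obtain ⟨W₁, hW₁, hx₁, hy₁, ht₁⟩ := hT x y z hxy hxz hyz hI hne
        by_cases hz₁ : other s t v z ∈ W₁
        · refine hbad W₁ hW₁ ?_ ⟨_, hx₁⟩ ht₁
          intro e he
          rw [hI] at he
          simp only [mem_insert, mem_singleton] at he
          rcases he with rfl | rfl | rfl
          · exact hx₁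
          · exact hy₁
          · exact hz₁
        · have hne' : other s t v y ≠ other s t v z := fun h => hz₁ (h ▸ hy₁)
          obtain ⟨W₂, hW₂, hy₂, hz₂, ht₂⟩ := hT y z x hyz hxy.symm hxz.symm (by
            rw [hI]; ext e; simp only [mem_insert, mem_singleton]; tauto) hne'
          refine hbad (W₁ ∪ W₂) (union_subset hW₁ hW₂) ?_ ⟨_, mem_union_left _ hx₁⟩ ?_
          · intro e he
            rw [hI] at he
            simp only [mem_insert, mem_singleton] at he
            rcases he with rfl | rfl | rfl
            · exact mem_union_left _ hx₁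
            · exact mem_union_left _ hy₁
            · exact mem_union_right _ hz₂
          · have h1 := ins_union_inter s t F W₁ W₂
            have h2 := hsp (W₁ ∩ W₂) (inter_subset_left.trans (hW₁.trans (erase_subset _ _)))
              ⟨_, mem_inter.2 ⟨hy₁, hy₂⟩⟩
            have h3 := card_union_add_card_inter W₁ W₂
            omega
      obtain ⟨x, y, z, hxy, hxz, hyz, hI, hne, hnt⟩ := hpair
      have hxI : x ∈ inc s t F v := by rw [hI]; simp
      have hyI : y ∈ inc s t F v := by rw [hI]; simp
      have hzI : z ∈ inc s t F v := by rw [hI]; simp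
      set s' : E → V := Function.update s x (other s t v x) with hs'
      set t' : E → V := Function.update t x (other s t v y) with ht'
      have hs'x : s' x = other s t v x := by simp [hs']
      have ht'x : t' x = other s t v y := by simp [ht']
      have hs'n : ∀ e, e ≠ x → s' e = s e := by intro e he; simp [hs', he]
      have ht'n : ∀ e, e ≠ x → t' e = t e := by intro e he; simp [ht', he]
      have hF'mem : ∀ e ∈ insert x (F \ inc s t F v), e ≠ x → e ∈ F \ inc s t F v := by
        intro e he hex
        rcases mem_insert.1 he with h | h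
        · exact absurd h hex
        · exact h
      have hxn : x ∉ F \ inc s t F v := fun h => (mem_sdiff.1 h).2 hxI
      obtain ⟨G₁, G₂, hG₁, hG₂, hd, hc₁, hc₂⟩ := ih (U.erase v) (insert x (F \ inc s t F v)) s' t'
        hcU' hU'
        (by
          intro e he
          by_cases hex : e = x
          · rw [hex, hs'x, ht'x]
            exact ⟨(ho x hxI).1, (ho y hyI).1⟩
          · rw [hs'n e hex, ht'n e hex]
            have := hF'mem e he hex
            rw [← ins_erase s t F U v hF, mem_ins] at this
            exact this.2)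
        (by
          intro W hW hWn
          have h1 : ins s' t' (insert x (F \ inc s t F v)) W ⊆ insert x (ins s t F W) := by
            intro e he
            rw [mem_ins] at he
            by_cases hex : e = x
            · rw [hex]; exact mem_insert_self _ _
            · refine mem_insert_of_mem ?_
              rw [mem_ins]
              rw [hs'n e hex, ht'n e hex] at he
              exact ⟨(mem_sdiff.1 (hF'mem e he.1 hex)).1, he.2⟩
          by_cases hxW : other s t v x ∈ W ∧ other s t v y ∈ W
          · have h2 := card_le_card h1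
            have h3 := hnt W hW hxW.1 hxW.2
            have h4 := card_insert_le x (ins s t F W)
            omega
          · have h1' : ins s' t' (insert x (F \ inc s t F v)) W ⊆ ins s t F W := by
              intro e he
              rcases mem_insert.1 (h1 he) with h | h
              · exfalso
                rw [h, mem_ins, hs'x, ht'x] at he
                exact hxW he.2
              · exact h
            have h2 := card_le_card h1'
            have h3 := hsp W (hW.trans (erase_subset _ _)) hWn
            omega)
        (by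
          rw [card_insert_of_notMem hxn, hcU']
          omega)
      -- lifting a tree of the reduced graph
      have hlift : ∀ G ⊆ insert x (F \ inc s t F v), ∀ G' : Finset E, G ⊆ G' →
          (x ∈ G → y ∈ G') → ∀ a b, Reach s' t' G a b → Reach s t G' a b := by
        intro G hG G' hGG' hxy' a b hab
        have hstep : ∀ a b, Adj s' t' G a b → Reach s t G' a b := by
          rintro a b ⟨e, he, h⟩
          by_cases hex : e = x
          · subst hex
            rw [hs'x, ht'x] at h
            have hx1 : Adj s t G' v (other s t v e) := hoA e hxI G' (hGG' he)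
            have hy1 : Adj s t G' v (other s t v y) := hoA y hyI G' (hxy' he)
            rcases h with ⟨h1, h2⟩ | ⟨h1, h2⟩
            · rw [← h1, ← h2]
              exact Relation.ReflTransGen.head hx1.symm (Relation.ReflTransGen.single hy1)
            · rw [← h1, ← h2]
              exact Relation.ReflTransGen.head hy1.symm (Relation.ReflTransGen.single hx1)
          · rw [hs'n e hex, ht'n e hex] at h
            exact Relation.ReflTransGen.single ⟨e, hGG' he, h⟩
        induction hab with
        | refl => exact Reach.rfl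
        | tail _ hbc ih' => exact ih'.trans (hstep _ _ hbc)
      -- final assembly for one tree: `G'` contains an edge at `v`
      have hfin : ∀ G ⊆ insert x (F \ inc s t F v), ∀ G' : Finset E, G ⊆ G' →
          (x ∈ G → y ∈ G') → (∃ e ∈ inc s t F v, e ∈ G') →
          (∀ a ∈ U.erase v, ∀ b ∈ U.erase v, Reach s' t' G a b) →
          ∀ a ∈ U, ∀ b ∈ U, Reach s t G' a b := by
        intro G hG G' hGG' hxy' hex hc
        obtain ⟨e, heI, heG'⟩ := hex
        have hv' : ∀ a ∈ U, Reach s t G' v a := by
          intro a ha
          by_cases hav : a = v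
          · rw [hav]; exact Reach.rfl
          · exact Relation.ReflTransGen.head (hoA e heI _ heG')
              (hlift G hG G' hGG' hxy' _ _ (hc _ (ho e heI).1 a (mem_erase.2 ⟨hav, ha⟩)))
        intro a ha b hb
        exact (hv' a ha).symm.trans (hv' b hb)
      have hyn : ∀ G ⊆ insert x (F \ inc s t F v), y ∉ G := by
        intro G hG hy
        exact (mem_sdiff.1 (hF'mem y (hG hy) hxy.symm)).2 hyI
      have hzn : ∀ G ⊆ insert x (F \ inc s t F v), z ∉ G := by
        intro G hG hz
        exact (mem_sdiff.1 (hF'mem z (hG hz) hxz.symm)).2 hzI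
      have hGF : ∀ G ⊆ insert x (F \ inc s t F v), G ⊆ F := by
        intro G hG e he
        rcases mem_insert.1 (hG he) with h | h
        · rw [h]; exact hincF hxI
        · exact (mem_sdiff.1 h).1
      by_cases hx₁ : x ∈ G₁
      · have hx₂ : x ∉ G₂ := fun h => disjoint_left.1 hd hx₁ h
        refine ⟨insert y G₁, insert z G₂, insert_subset (hincF hyI) (hGF G₁ hG₁),
          insert_subset (hincF hzI) (hGF G₂ hG₂), ?_,
          hfin G₁ hG₁ _ (subset_insert _ _) (fun _ => mem_insert_self _ _)
            ⟨y, hyI, mem_insert_self _ _⟩ hc₁,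
          hfin G₂ hG₂ _ (subset_insert _ _) (fun h => absurd h hx₂)
            ⟨z, hzI, mem_insert_self _ _⟩ hc₂⟩
        rw [disjoint_insert_left, disjoint_insert_right]
        refine ⟨?_, hzn G₁ hG₁, hd⟩
        rw [mem_insert]
        rintro (h | h)
        · exact hyz h
        · exact hyn G₂ hG₂ h
      · refine ⟨insert z G₁, insert y G₂, insert_subset (hincF hzI) (hGF G₁ hG₁),
          insert_subset (hincF hyI) (hGF G₂ hG₂), ?_,
          hfin G₁ hG₁ _ (subset_insert _ _) (fun h => absurd h hx₁)
            ⟨z, hzI, mem_insert_self _ _⟩ hc₁,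
          hfin G₂ hG₂ _ (subset_insert _ _) (fun _ => mem_insert_self _ _)
            ⟨y, hyI, mem_insert_self _ _⟩ hc₂⟩
        rw [disjoint_insert_left, disjoint_insert_right]
        refine ⟨?_, hyn G₁ hG₁, hd⟩
        rw [mem_insert]
        rintro (h | h)
        · exact hyz h.symm
        · exact hzn G₂ hG₂ h

/-- **Nash-Williams** for two trees, local form: a loopless multigraph on `U` (`|U| ≥ 2`) with at
least `2(|U|-1)` edges contains a set `U'` of at least two vertices which carries two
edge-disjoint spanning connected subgraphs. -/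
theorem nash_williams (U : Finset V) (F : Finset E) (s t : E → V)
    (hF : ∀ e ∈ F, s e ∈ U ∧ t e ∈ U ∧ s e ≠ t e) (hU : 2 ≤ U.card)
    (hc : 2 * U.card ≤ F.card + 2) :
    ∃ U' ⊆ U, 2 ≤ U'.card ∧ ∃ F₁ F₂ : Finset E, F₁ ⊆ ins s t F U' ∧ F₂ ⊆ ins s t F U' ∧
      Disjoint F₁ F₂ ∧ (∀ x ∈ U', ∀ y ∈ U', Reach s t F₁ x y) ∧
      (∀ x ∈ U', ∀ y ∈ U', Reach s t F₂ x y) := by
  classical
  have hinsU : ins s t F U = F := by
    ext e
    rw [mem_ins]
    exact ⟨fun h => h.1, fun h => ⟨h, (hF e h).1, (hF e h).2.1⟩⟩
  -- a minimal dense set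
  have hex : ∃ U' : Finset V, U' ⊆ U ∧ 2 ≤ U'.card ∧ 2 * U'.card ≤ (ins s t F U').card + 2 ∧
      ∀ W ⊂ U', 2 ≤ W.card → (ins s t F W).card + 2 < 2 * W.card := by
    let S := U.powerset.filter (fun W => 2 ≤ W.card ∧ 2 * W.card ≤ (ins s t F W).card + 2)
    have hS : S.Nonempty := ⟨U, by
      simp only [S, mem_filter, mem_powerset]
      exact ⟨Subset.rfl, hU, by rw [hinsU]; exact hc⟩⟩
    obtain ⟨U', hU'S, hmin⟩ := exists_min_image S (fun W => W.card) hS
    simp only [S, mem_filter, mem_powerset] at hU'S
    refine ⟨U', hU'S.1, hU'S.2.1, hU'S.2.2, ?_⟩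
    intro W hW hW2
    by_contra hcon
    push Not at hcon
    have hWS : W ∈ S := by
      simp only [S, mem_filter, mem_powerset]
      exact ⟨hW.1.trans hU'S.1, hW2, hcon⟩
    have h1 := hmin W hWS
    have h2 := card_lt_card hW
    omega
  obtain ⟨U', hU'U, hU'2, hU'c, hmin⟩ := hex
  obtain ⟨F₀, hF₀, hF₀c⟩ := exists_subset_card_eq (s := ins s t F U') (n := 2 * U'.card - 2)
    (by omega)
  have hF₀F : F₀ ⊆ F := hF₀.trans (filter_subset _ _)
  obtain ⟨F₁, F₂, h1, h2, h3, h4, h5⟩ := tight_two_trees U'.card U' F₀ s t rfl
    (by rw [← card_pos]; omega)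
    (by
      intro e he
      have := hF₀ he
      rw [mem_ins] at this
      exact this.2)
    (by
      intro W hW hWn
      have hmono : (ins s t F₀ W).card ≤ (ins s t F W).card := by
        apply card_le_card
        intro e he
        rw [mem_ins] at he ⊢
        exact ⟨hF₀F he.1, he.2⟩
      by_cases hWU : W = U'
      · have : (ins s t F₀ W).card ≤ F₀.card := card_le_card (filter_subset _ _)
        rw [hWU] at this ⊢
        omega
      · have hss : W ⊂ U' := ⟨hW, fun h => hWU (Subset.antisymm hW h)⟩
        by_cases hW2 : 2 ≤ W.card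
        · have := hmin W hss hW2
          omega
        · have hW1 : W.card = 1 := by
            have := card_pos.2 hWn
            omega
          obtain ⟨a, ha⟩ := card_eq_one.1 hW1
          have : ins s t F₀ W = ∅ := by
            rw [eq_empty_iff_forall_notMem]
            intro e he
            rw [mem_ins, ha, mem_singleton, mem_singleton] at he
            exact (hF e (hF₀F he.1)).2.2 (by rw [he.2.1, he.2.2])
          rw [this, hW1]
          simp)
    (by omega)
  exact ⟨U', hU'U, hU'2, F₁, F₂, h1.trans hF₀, h2.trans hF₀, h3, h4, h5⟩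

/-- **Partition form.** Every multigraph has a partition into classes (the fibres of `c`), each
carrying two edge-disjoint spanning connected subgraphs, such that any `m ≥ 2` classes span at
most `2m - 3` edges between distinct classes. -/
theorem exists_classes [Fintype V] [Fintype E] (s t : E → V) :
    ∃ (c : V → V) (F₁ F₂ : Finset E), Disjoint F₁ F₂ ∧
      (∀ e ∈ F₁, c (s e) = c (t e)) ∧ (∀ e ∈ F₂, c (s e) = c (t e)) ∧
      (∀ x y, c x = c y → Reach s t F₁ x y) ∧ (∀ x y, c x = c y → Reach s t F₂ x y) ∧
      ∀ Y ⊆ univ.image c, 2 ≤ Y.card →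
        (univ.filter (fun e => c (s e) ∈ Y ∧ c (t e) ∈ Y ∧ c (s e) ≠ c (t e))).card + 3
          ≤ 2 * Y.card := by
  classical
  let Good : (V → V) → Prop := fun c => ∃ F₁ F₂ : Finset E, Disjoint F₁ F₂ ∧
      (∀ e ∈ F₁, c (s e) = c (t e)) ∧ (∀ e ∈ F₂, c (s e) = c (t e)) ∧
      (∀ x y, c x = c y → Reach s t F₁ x y) ∧ (∀ x y, c x = c y → Reach s t F₂ x y)
  have hS : (univ.filter (fun c : V → V => Good c)).Nonempty := by
    refine ⟨id, ?_⟩
    rw [mem_filter]
    refine ⟨mem_univ _, ∅, ∅, disjoint_empty_left _, by simp, by simp, ?_, ?_⟩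
    · intro x y h
      have h' : x = y := h
      rw [h']; exact Reach.rfl
    · intro x y h
      have h' : x = y := h
      rw [h']; exact Reach.rfl
  obtain ⟨c, hc, hmin⟩ := exists_min_image _ (fun c : V → V => (univ.image c).card) hS
  rw [mem_filter] at hc
  obtain ⟨-, F₁, F₂, hd, hi₁, hi₂, hr₁, hr₂⟩ := hc
  refine ⟨c, F₁, F₂, hd, hi₁, hi₂, hr₁, hr₂, ?_⟩
  intro Y hY hY2
  by_contra hcon
  push Not at hcon
  -- contracted graph
  obtain ⟨U, hUY, hU2, G₁, G₂, hG₁, hG₂, hGd, hGr₁, hGr₂⟩ := nash_williams Y
    (univ.filter (fun e => c (s e) ∈ Y ∧ c (t e) ∈ Y ∧ c (s e) ≠ c (t e)))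
    (fun e => c (s e)) (fun e => c (t e))
    (by
      intro e he
      rw [mem_filter] at he
      exact he.2) hY2 (by omega)
  have hG : ∀ G : Finset E, G ⊆ ins (fun e => c (s e)) (fun e => c (t e))
      (univ.filter (fun e => c (s e) ∈ Y ∧ c (t e) ∈ Y ∧ c (s e) ≠ c (t e))) U →
      ∀ e ∈ G, c (s e) ∈ U ∧ c (t e) ∈ U ∧ c (s e) ≠ c (t e) := by
    intro G hG e he
    have h := hG he
    rw [mem_ins, mem_filter] at h
    exact ⟨h.2.1, h.2.2, h.1.2.2.2⟩
  obtain ⟨u, huU⟩ : U.Nonempty := by rw [← card_pos]; omega
  let c' : V → V := fun x => if c x ∈ U then u else c x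
  have hlift : ∀ (F G : Finset E), (∀ x y, c x = c y → Reach s t F x y) →
      ∀ l m, Reach (fun e => c (s e)) (fun e => c (t e)) G l m →
      ∀ x y, c x = l → c y = m → Reach s t (F ∪ G) x y := by
    intro F G hF l m hlm
    induction hlm with
    | refl =>
      intro x y hx hy
      exact Reach.mono subset_union_left (hF x y (by rw [hx, hy]))
    | @tail b d _ hbc ih' =>
      intro x y hx hy
      obtain ⟨e, he, h⟩ := hbc
      rcases h with ⟨h1, h2⟩ | ⟨h1, h2⟩
      · refine (ih' x (s e) hx h1).trans (Relation.ReflTransGen.head (b := t e)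
          ⟨e, mem_union_right _ he, Or.inl ⟨rfl, rfl⟩⟩ ?_)
        exact Reach.mono subset_union_left (hF _ _ (by rw [hy]; exact h2))
      · refine (ih' x (t e) hx h2).trans (Relation.ReflTransGen.head (b := s e)
          ⟨e, mem_union_right _ he, Or.inr ⟨rfl, rfl⟩⟩ ?_)
        exact Reach.mono subset_union_left (hF _ _ (by rw [hy]; exact h1))
  have hgood : Good c' := by
    have hd1 : ∀ F G : Finset E, (∀ e ∈ F, c (s e) = c (t e)) →
        (∀ e ∈ G, c (s e) ∈ U ∧ c (t e) ∈ U ∧ c (s e) ≠ c (t e)) → Disjoint F G := by
      intro F G hF hG'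
      rw [disjoint_left]
      intro e he he'
      exact (hG' e he').2.2 (hF e he)
    have hin : ∀ F G : Finset E, (∀ e ∈ F, c (s e) = c (t e)) →
        (∀ e ∈ G, c (s e) ∈ U ∧ c (t e) ∈ U ∧ c (s e) ≠ c (t e)) →
        ∀ e ∈ F ∪ G, c' (s e) = c' (t e) := by
      intro F G hF hG' e he
      rcases mem_union.1 he with h | h
      · simp only [c']; rw [hF e h]
      · simp only [c']; rw [if_pos (hG' e h).1, if_pos (hG' e h).2.1]
    have hre : ∀ F G : Finset E, (∀ x y, c x = c y → Reach s t F x y) →
        (∀ x ∈ U, ∀ y ∈ U, Reach (fun e => c (s e)) (fun e => c (t e)) G x y) →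
        ∀ x y, c' x = c' y → Reach s t (F ∪ G) x y := by
      intro F G hF hG' x y hxy
      by_cases hx : c x ∈ U
      · by_cases hy : c y ∈ U
        · exact hlift F G hF _ _ (hG' _ hx _ hy) x y rfl rfl
        · simp only [c'] at hxy
          rw [if_pos hx, if_neg hy] at hxy
          exact absurd (hxy ▸ huU) hy
      · by_cases hy : c y ∈ U
        · simp only [c'] at hxy
          rw [if_neg hx, if_pos hy] at hxy
          exact absurd (hxy ▸ huU) hx
        · simp only [c'] at hxy
          rw [if_neg hx, if_neg hy] at hxy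
          exact Reach.mono subset_union_left (hF x y hxy)
    refine ⟨F₁ ∪ G₁, F₂ ∪ G₂, ?_, hin F₁ G₁ hi₁ (hG G₁ hG₁), hin F₂ G₂ hi₂ (hG G₂ hG₂),
      hre F₁ G₁ hr₁ hGr₁, hre F₂ G₂ hr₂ hGr₂⟩
    rw [disjoint_union_left, disjoint_union_right, disjoint_union_right]
    exact ⟨⟨hd, hd1 F₁ G₂ hi₁ (hG G₂ hG₂)⟩, ⟨(hd1 F₂ G₁ hi₂ (hG G₁ hG₁)).symm, hGd⟩⟩
  have h1 := hmin c' (by rw [mem_filter]; exact ⟨mem_univ _, hgood⟩)
  have h2 : (univ.image c').card < (univ.image c).card := by
    apply card_lt_card
    have hUim : U ⊆ univ.image c := hUY.trans hY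
    constructor
    · intro l hl
      obtain ⟨x, -, rfl⟩ := mem_image.1 hl
      simp only [c']
      split_ifs with h
      · exact hUim huU
      · exact mem_image_of_mem _ (mem_univ _)
    · intro hsub
      -- an element of `U` different from `u`
      obtain ⟨w, hwU, hwu⟩ := exists_mem_ne (by omega : 1 < U.card) u
      obtain ⟨x, -, hx⟩ := mem_image.1 (hsub (hUim hwU))
      simp only [c'] at hx
      split_ifs at hx with h
      · exact hwu hx.symm
      · exact h (hx ▸ hwU)
  omega

/-- **Tutte's theorem** for two trees: if every partition (given by a map `f` to `Fin m`, onto)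
has at least `2(m-1)` crossing edges, there are two edge-disjoint spanning connected
subgraphs. -/
theorem tutte [Fintype V] [Fintype E] (s t : E → V)
    (h : ∀ f : V → V, 2 * (univ.image f).card ≤
      (univ.filter (fun e => f (s e) ≠ f (t e))).card + 2) :
    ∃ F₁ F₂ : Finset E, Disjoint F₁ F₂ ∧ (∀ x y, Reach s t F₁ x y) ∧
      (∀ x y, Reach s t F₂ x y) := by
  classical
  obtain ⟨c, F₁, F₂, hd, -, -, hr₁, hr₂, hY⟩ := exists_classes s t
  have h1 : (univ.image c).card < 2 := by
    by_contra hcon
    push Not at hcon
    have h2 := hY (univ.image c) Subset.rfl hcon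
    have h3 := h c
    have h4 : (univ.filter (fun e => c (s e) ∈ univ.image c ∧ c (t e) ∈ univ.image c ∧
        c (s e) ≠ c (t e))) = univ.filter (fun e => c (s e) ≠ c (t e)) := by
      ext e
      simp only [mem_filter, mem_univ, true_and]
      constructor
      · exact fun h => h.2.2
      · exact fun h => ⟨mem_image_of_mem _ (mem_univ _), mem_image_of_mem _ (mem_univ _), h⟩
    rw [h4] at h2
    omega
  have hcc : ∀ x y, c x = c y := by
    intro x y
    exact card_le_one.1 (by omega : (univ.image c).card ≤ 1) _ (mem_image_of_mem _ (mem_univ x))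
      _ (mem_image_of_mem _ (mem_univ y))
  exact ⟨F₁, F₂, hd, fun x y => hr₁ x y (hcc x y), fun x y => hr₂ x y (hcc x y)⟩

end core

end Pool.RBE.NW
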