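import Mathlib
import Pool.Agent.RBE.NW

/-!
# Two connected spanning subgraphs with few common edges (deficiency version of Tutte's theorem)
-/

set_option autoImplicit false

namespace Pool.RBE.NW

open Finset

section deficiency

variable {V E : Type*} [Fintype V] [DecidableEq V]

/-- The number of classes of partitions is supermodular: if `a` is finer than `r` and `s`, there is
`j` coarser than `r` and `s` with `|r| + |s| ≤ |a| + |j|`. -/
theorem exists_coarser : ∀ (n : ℕ) (a r s : V → V), (univ.image a).card ≤ n →
    (∀ x y, a x = a y → r x = r y) → (∀ x y, a x = a y → s x = s y) →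
    ∃ j : V → V, (∀ x y, r x = r y → j x = j y) ∧ (∀ x y, s x = s y → j x = j y) ∧
      (univ.image r).card + (univ.image s).card ≤ (univ.image a).card + (univ.image j).card := by
  intro n
  induction n with
  | zero =>
    intro a r s hn har has
    have hV : ∀ v : V, False := by
      intro v
      have h1 : a v ∈ univ.image a := mem_image_of_mem _ (mem_univ v)
      have h2 : (univ.image a) = ∅ := card_eq_zero.1 (by omega)
      rw [h2] at h1
      exact notMem_empty _ h1
    refine ⟨r, fun x => (hV x).elim, fun x => (hV x).elim, ?_⟩
    have h1 : (univ.image s) = ∅ := by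
      rw [image_eq_empty]
      exact univ_eq_empty_iff.2 ⟨hV⟩
    rw [h1, card_empty]
    have h2 : (univ.image r) = ∅ := by
      rw [image_eq_empty]
      exact univ_eq_empty_iff.2 ⟨hV⟩
    rw [h2, card_empty]
    omega
  | succ n ih =>
    intro a r s hn har has
    by_cases hs : ∀ x y, s x = s y → a x = a y
    · refine ⟨r, fun x y h => h, fun x y h => har x y (hs x y h), ?_⟩
      have h1 : (univ.image s).card ≤ (univ.image a).card := by
        rcases isEmpty_or_nonempty V with hV | hV
        · have : (univ : Finset V) = ∅ := univ_eq_empty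
          rw [this]; simp
        · have h2 : univ.image s ⊆ (univ.image a).image (fun z => s (Function.invFun a z)) := by
            intro z hz
            obtain ⟨v, -, rfl⟩ := mem_image.1 hz
            refine mem_image.2 ⟨a v, mem_image_of_mem _ (mem_univ v), ?_⟩
            have h3 : a (Function.invFun a (a v)) = a v := Function.invFun_eq ⟨v, rfl⟩
            exact has _ _ h3
          exact (card_le_card h2).trans card_image_le
      omega
    · push Not at hs
      obtain ⟨x, y, hsxy, haxy⟩ := hs
      let a' : V → V := fun v => if a v = a y then a x else a v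
      let r' : V → V := fun v => if r v = r y then r x else r v
      have ha'1 : univ.image a' ⊆ (univ.image a).erase (a y) := by
        intro z hz
        obtain ⟨v, -, rfl⟩ := mem_image.1 hz
        simp only [a']
        split_ifs with h
        · exact mem_erase.2 ⟨haxy, mem_image_of_mem _ (mem_univ x)⟩
        · exact mem_erase.2 ⟨h, mem_image_of_mem _ (mem_univ v)⟩
      have hay : a y ∈ univ.image a := mem_image_of_mem _ (mem_univ y)
      have hcard : (univ.image a').card + 1 ≤ (univ.image a).card := by
        have h1 := card_le_card ha'1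
        rw [card_erase_of_mem hay] at h1
        have h2 : 0 < (univ.image a).card := card_pos.2 ⟨_, hay⟩
        omega
      have hr'1 : (univ.image r).erase (r y) ⊆ univ.image r' := by
        intro z hz
        obtain ⟨h1, h2⟩ := mem_erase.1 hz
        obtain ⟨v, -, rfl⟩ := mem_image.1 h2
        refine mem_image.2 ⟨v, mem_univ _, ?_⟩
        simp only [r']
        rw [if_neg h1]
      have hcardr : (univ.image r).card ≤ (univ.image r').card + 1 := by
        have h1 := card_le_card hr'1
        have h2 := pred_card_le_card_erase (s := univ.image r) (a := r y)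
        omega
      have hrr' : ∀ u v, r u = r v → r' u = r' v := by
        intro u v h
        simp only [r']
        rw [h]
      have ha'r' : ∀ u v, a' u = a' v → r' u = r' v := by
        intro u v h
        simp only [a'] at h
        have key : ∀ u, a u = a y → r' u = r x := by
          intro u hu
          simp only [r']
          rw [if_pos (har _ _ hu)]
        have key2 : ∀ u, a u = a x → r' u = r x := by
          intro u hu
          simp only [r']
          split_ifs with h
          · rfl
          · exact har _ _ hu
        by_cases h1 : a u = a y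
        · rw [if_pos h1] at h
          rw [key u h1]
          by_cases h2 : a v = a y
          · rw [key v h2]
          · rw [if_neg h2] at h
            rw [key2 v h.symm]
        · rw [if_neg h1] at h
          by_cases h2 : a v = a y
          · rw [if_pos h2] at h
            rw [key v h2, key2 u h]
          · rw [if_neg h2] at h
            exact hrr' _ _ (har _ _ h)
      have ha's : ∀ u v, a' u = a' v → s u = s v := by
        intro u v h
        simp only [a'] at h
        by_cases h1 : a u = a y
        · rw [if_pos h1] at h
          by_cases h2 : a v = a y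
          · exact has _ _ (h1.trans h2.symm)
          · rw [if_neg h2] at h
            rw [has _ _ h1, ← hsxy, has _ _ h]
        · rw [if_neg h1] at h
          by_cases h2 : a v = a y
          · rw [if_pos h2] at h
            rw [has _ _ h, hsxy, ← has _ _ h2]
          · rw [if_neg h2] at h
            exact has _ _ h
      obtain ⟨j, hj1, hj2, hj3⟩ := ih a' r' s (by omega) ha'r' ha's
      refine ⟨j, fun u v h => hj1 u v (hrr' u v h), hj2, ?_⟩
      omega

variable [Fintype E] [DecidableEq E]

/-- The edges crossing the partition into the fibres of `f`. -/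
def cross (s t : E → V) (f : V → V) : Finset E := univ.filter (fun e => f (s e) ≠ f (t e))

theorem mem_cross {s t : E → V} {f : V → V} {e : E} : e ∈ cross s t f ↔ f (s e) ≠ f (t e) := by
  simp [cross]

/-- Tight partitions (for the multigraph with the edges of `D` doubled) are closed under common
refinement. -/
theorem tight_meet (s t : E → V) (D : Finset E)
    (hD : ∀ f : V → V, 2 * (univ.image f).card ≤ (cross s t f).card + (D ∩ cross s t f).card + 2)
    (f g : V → V)
    (hf : 2 * (univ.image f).card = (cross s t f).card + (D ∩ cross s t f).card + 2)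
    (hg : 2 * (univ.image g).card = (cross s t g).card + (D ∩ cross s t g).card + 2) :
    ∃ a : V → V, 2 * (univ.image a).card = (cross s t a).card + (D ∩ cross s t a).card + 2 ∧
      cross s t f ⊆ cross s t a ∧ cross s t g ⊆ cross s t a := by
  rcases isEmpty_or_nonempty V with hV | hV
  · refine ⟨f, hf, Subset.rfl, ?_⟩
    intro e _
    exact (hV.false (s e)).elim
  let h : V → V × V := fun v => (f v, g v)
  let a : V → V := fun v => Function.invFun h (h v)
  have ha : ∀ v, h (a v) = h v := fun v => Function.invFun_eq ⟨v, rfl⟩
  have haf : ∀ u v, a u = a v → f u = f v := by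
    intro u v huv
    have h1 := ha u
    have h2 := ha v
    rw [huv, h2] at h1
    exact (Prod.ext_iff.1 h1).1.symm
  have hag : ∀ u v, a u = a v → g u = g v := by
    intro u v huv
    have h1 := ha u
    have h2 := ha v
    rw [huv, h2] at h1
    exact (Prod.ext_iff.1 h1).2.symm
  have hfg : ∀ u v, f u = f v → g u = g v → a u = a v := by
    intro u v h1 h2
    have : h u = h v := Prod.ext h1 h2
    simp only [a, this]
  obtain ⟨j, hj1, hj2, hj3⟩ := exists_coarser _ a f g le_rfl haf hag
  have hca : cross s t a = cross s t f ∪ cross s t g := by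
    ext e
    rw [mem_union, mem_cross, mem_cross, mem_cross]
    constructor
    · intro h1
      by_contra hcon
      push Not at hcon
      exact h1 (hfg _ _ hcon.1 hcon.2)
    · rintro (h1 | h1) h2
      · exact h1 (haf _ _ h2)
      · exact h1 (hag _ _ h2)
  have hcj : cross s t j ⊆ cross s t f ∩ cross s t g := by
    intro e he
    rw [mem_cross] at he
    rw [mem_inter, mem_cross, mem_cross]
    exact ⟨fun h1 => he (hj1 _ _ h1), fun h1 => he (hj2 _ _ h1)⟩
  have h1 : (cross s t a).card + (cross s t j).card ≤
      (cross s t f).card + (cross s t g).card := by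
    have h2 := card_union_add_card_inter (cross s t f) (cross s t g)
    have h3 := card_le_card hcj
    rw [hca]
    omega
  have h2 : (D ∩ cross s t a).card + (D ∩ cross s t j).card ≤
      (D ∩ cross s t f).card + (D ∩ cross s t g).card := by
    have h2 := card_union_add_card_inter (D ∩ cross s t f) (D ∩ cross s t g)
    have h3 : D ∩ cross s t j ⊆ (D ∩ cross s t f) ∩ (D ∩ cross s t g) := by
      intro e he
      have h4 := hcj (mem_inter.1 he).2
      have h5 := (mem_inter.1 he).1
      exact mem_inter.2 ⟨mem_inter.2 ⟨h5, (mem_inter.1 h4).1⟩, mem_inter.2 ⟨h5, (mem_inter.1 h4).2⟩⟩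
    have h4 := card_le_card h3
    rw [hca, inter_union_distrib_left]
    omega
  have h3 := hD a
  have h4 := hD j
  refine ⟨a, by omega, ?_, ?_⟩
  · rw [hca]; exact subset_union_left
  · rw [hca]; exact subset_union_right

/-- The projection of reachability. -/
theorem Reach.map_edges {E' : Type*} {s t : E → V} {s' t' : E' → V} [DecidableEq E']
    (p : E' → E) (hs : ∀ e, s (p e) = s' e) (ht : ∀ e, t (p e) = t' e) {F : Finset E'} {x y : V}
    (h : Reach s' t' F x y) : Reach s t (F.image p) x y := by
  refine Relation.ReflTransGen.mono ?_ _ _ h
  rintro a b ⟨e, he, h⟩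
  refine ⟨p e, mem_image_of_mem _ he, ?_⟩
  rw [hs, ht]
  exact h

/-- **Deficiency version of Tutte's theorem**: if the multigraph is connected (every partition `f`
has at least `|f| - 1` crossing edges) and every partition `f` has at least `2(|f| - 1) - d`
crossing edges, then there are two connected spanning subgraphs with at most `d` common edges. -/
theorem tutte_deficiency (s t : E → V) (d : ℕ)
    (hconn : ∀ f : V → V, (univ.image f).card ≤
      (univ.filter (fun e => f (s e) ≠ f (t e))).card + 1)
    (h : ∀ f : V → V, 2 * (univ.image f).card ≤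
      (univ.filter (fun e => f (s e) ≠ f (t e))).card + 2 + d) :
    ∃ F₁ F₂ : Finset E, (F₁ ∩ F₂).card ≤ d ∧ (∀ x y, Reach s t F₁ x y) ∧
      (∀ x y, Reach s t F₂ x y) := by
  classical
  let Good : Finset E → Prop := fun D => ∀ f : V → V,
    2 * (univ.image f).card ≤ (cross s t f).card + (D ∩ cross s t f).card + 2
  have hne : ((univ : Finset (Finset E)).filter Good).Nonempty := by
    refine ⟨univ, mem_filter.2 ⟨mem_univ _, ?_⟩⟩
    intro f
    have h1 := hconn f
    have h2 : (univ ∩ cross s t f).card = (cross s t f).card := by rw [univ_inter]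
    have h3 : (univ.filter (fun e => f (s e) ≠ f (t e))).card = (cross s t f).card := rfl
    omega
  obtain ⟨D, hD, hmin⟩ := exists_min_image _ (fun D : Finset E => D.card) hne
  have hDg : Good D := (mem_filter.1 hD).2
  -- the size of `D`
  have hDd : D.card ≤ d := by
    have key : ∀ D' ⊆ D, ∃ f : V → V,
        (2 * (univ.image f).card = (cross s t f).card + (D ∩ cross s t f).card + 2 ∨ D' = ∅) ∧
        D' ⊆ cross s t f := by
      intro D'
      induction D' using Finset.induction_on with
      | empty => intro _; exact ⟨id, Or.inr rfl, empty_subset _⟩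
      | insert e D' he ih =>
        intro hsub
        obtain ⟨f, hf1, hf2⟩ := ih (fun x hx => hsub (mem_insert_of_mem hx))
        have heD : e ∈ D := hsub (mem_insert_self _ _)
        have hbad : ¬ Good (D.erase e) := by
          intro hg
          have h1 := hmin (D.erase e) (mem_filter.2 ⟨mem_univ _, hg⟩)
          have h2 := card_erase_lt_of_mem heD
          omega
        simp only [Good] at hbad
        push Not at hbad
        obtain ⟨g, hg⟩ := hbad
        have hg2 := hDg g
        have hecross : e ∈ cross s t g := by
          by_contra hcon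
          have h1 : (D.erase e) ∩ cross s t g = D ∩ cross s t g := by
            ext x
            rw [mem_inter, mem_inter, mem_erase]
            constructor
            · rintro ⟨⟨_, h1⟩, h2⟩; exact ⟨h1, h2⟩
            · rintro ⟨h1, h2⟩
              refine ⟨⟨?_, h1⟩, h2⟩
              rintro rfl
              exact hcon h2
          rw [h1] at hg
          omega
        have hg3 : 2 * (univ.image g).card = (cross s t g).card + (D ∩ cross s t g).card + 2 := by
          have h1 : (D.erase e) ∩ cross s t g = (D ∩ cross s t g).erase e := by
            rw [erase_inter]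
          have h2 : (D ∩ cross s t g).card = ((D ∩ cross s t g).erase e).card + 1 := by
            rw [card_erase_add_one (mem_inter.2 ⟨heD, hecross⟩)]
          rw [h1] at hg
          omega
        rcases hf1 with hf1 | hf1
        · obtain ⟨a, ha1, ha2, ha3⟩ := tight_meet s t D hDg f g hf1 hg3
          refine ⟨a, Or.inl ha1, ?_⟩
          intro x hx
          rcases mem_insert.1 hx with rfl | hx
          · exact ha3 hecross
          · exact ha2 (hf2 hx)
        · refine ⟨g, Or.inl hg3, ?_⟩
          rw [hf1]
          intro x hx
          rcases mem_insert.1 hx with rfl | hx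
          · exact hecross
          · exact absurd hx (notMem_empty _)
    obtain ⟨f, hf1, hf2⟩ := key D Subset.rfl
    rcases hf1 with hf1 | hf1
    · have h1 : D ∩ cross s t f = D := inter_eq_left.2 hf2
      have h2 := h f
      have h3 : (univ.filter (fun e => f (s e) ≠ f (t e))).card = (cross s t f).card := rfl
      rw [h1] at hf1
      omega
    · rw [hf1, card_empty]; omega
  -- Tutte's theorem in the multigraph with `D` doubled
  let p : E ⊕ {e // e ∈ D} → E := Sum.elim id Subtype.val
  have hT : ∀ f : V → V, 2 * (univ.image f).card ≤
      (univ.filter (fun e : E ⊕ {e // e ∈ D} => f (s (p e)) ≠ f (t (p e)))).card + 2 := by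
    intro f
    refine (hDg f).trans ?_
    have h1 : (cross s t f).card + (D ∩ cross s t f).card ≤
        (univ.filter (fun e : E ⊕ {e // e ∈ D} => f (s (p e)) ≠ f (t (p e)))).card := by
      have h2 : ((cross s t f).map ⟨Sum.inl, Sum.inl_injective⟩ ∪
          (D.attach.filter (fun e => e.1 ∈ cross s t f)).map ⟨Sum.inr, Sum.inr_injective⟩) ⊆
          (univ.filter (fun e : E ⊕ {e // e ∈ D} => f (s (p e)) ≠ f (t (p e)))) := by
        intro z hz
        rw [mem_union, mem_map, mem_map] at hz
        rw [mem_filter]
        refine ⟨mem_univ _, ?_⟩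
        rcases hz with ⟨e, he, rfl⟩ | ⟨e, he, rfl⟩
        · exact mem_cross.1 he
        · exact mem_cross.1 (mem_filter.1 he).2
      have h3 := card_le_card h2
      rw [card_union_of_disjoint, card_map, card_map] at h3
      · have h4 : (D.attach.filter (fun e => e.1 ∈ cross s t f)).card =
            (D ∩ cross s t f).card := by
          rw [← card_map ⟨Subtype.val, Subtype.val_injective⟩]
          congr 1
          ext x
          simp only [mem_map, mem_filter, mem_attach, true_and, Function.Embedding.coeFn_mk,
            Subtype.exists, mem_inter]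
          constructor
          · rintro ⟨y, hy, h5, rfl⟩; exact ⟨hy, h5⟩
          · rintro ⟨h5, h6⟩; exact ⟨x, h5, h6, rfl⟩
        omega
      · rw [disjoint_left]
        intro z hz1 hz2
        rw [mem_map] at hz1 hz2
        obtain ⟨e, _, rfl⟩ := hz1
        obtain ⟨e', _, h'⟩ := hz2
        simp at h'
    omega
  obtain ⟨F₁, F₂, hd, hr₁, hr₂⟩ := tutte (fun e => s (p e)) (fun e => t (p e)) hT
  refine ⟨F₁.image p, F₂.image p, ?_, fun x y => Reach.map_edges p (fun _ => rfl) (fun _ => rfl)
    (hr₁ x y), fun x y => Reach.map_edges p (fun _ => rfl) (fun _ => rfl) (hr₂ x y)⟩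
  refine le_trans (card_le_card ?_) hDd
  intro e he
  rw [mem_inter, mem_image, mem_image] at he
  obtain ⟨⟨a, ha, hae⟩, ⟨b, hb, hbe⟩⟩ := he
  rcases a with a | a
  · rcases b with b | b
    · exfalso
      have h1 : a = b := hae.trans hbe.symm
      rw [h1] at ha
      exact (disjoint_left.1 hd) ha hb
    · rw [← hbe]; exact b.2
  · rw [← hae]; exact a.2

omit [Fintype E] in
/-- A connected spanning edge set contains a spanning tree (a connected edge set with at most
`|V| - 1` elements). -/
theorem exists_tree [Nonempty V] (s t : E → V) (F : Finset E) (hF : ∀ x y, Reach s t F x y) :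
    ∃ T ⊆ F, T.card + 1 ≤ Fintype.card V ∧ ∀ x y, Reach s t T x y := by
  classical
  let P : Finset E → (V → V) → Prop := fun T f => T ⊆ F ∧ (∀ x y, f x = f y → Reach s t T x y) ∧
    T.card + (univ.image f).card ≤ Fintype.card V
  have hex : ∃ n : ℕ, ∃ T : Finset E, ∃ f : V → V, P T f ∧ (univ.image f).card = n := by
    refine ⟨_, ∅, id, ⟨empty_subset _, ?_, ?_⟩, rfl⟩
    · intro x y h
      have h' : x = y := h
      rw [h']; exact Reach.rfl
    · rw [card_empty, image_id, card_univ]; omega
  obtain ⟨T, f, ⟨hTF, hTr, hTc⟩, hn⟩ := Nat.find_spec hex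
  have hone : (univ.image f).card ≤ 1 := by
    by_contra hcon
    push Not at hcon
    -- two vertices in different classes, hence an edge of `F` between different classes
    obtain ⟨a, ha, b, hb, hab⟩ := one_lt_card.1 hcon
    obtain ⟨x, -, rfl⟩ := mem_image.1 ha
    obtain ⟨y, -, rfl⟩ := mem_image.1 hb
    have hedge : ∃ e ∈ F, f (s e) ≠ f (t e) := by
      by_contra hno
      push Not at hno
      have h1 : ∀ u v, Reach s t F u v → f u = f v := by
        intro u v huv
        induction huv with
        | refl => rfl
        | tail _ hbc ih =>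
          obtain ⟨e, he, h | h⟩ := hbc
          · rw [ih, ← h.1, ← h.2]; exact hno e he
          · rw [ih, ← h.1, ← h.2]; exact (hno e he).symm
      exact hab (h1 _ _ (hF x y))
    obtain ⟨e, heF, hef⟩ := hedge
    let g : V → V := fun v => if f v = f (t e) then f (s e) else f v
    have hg1 : univ.image g ⊆ (univ.image f).erase (f (t e)) := by
      intro z hz
      obtain ⟨v, -, rfl⟩ := mem_image.1 hz
      simp only [g]
      split_ifs with h
      · exact mem_erase.2 ⟨hef, mem_image_of_mem _ (mem_univ _)⟩
      · exact mem_erase.2 ⟨h, mem_image_of_mem _ (mem_univ _)⟩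
    have hmem : f (t e) ∈ univ.image f := mem_image_of_mem _ (mem_univ _)
    have hlt : (univ.image g).card + 1 ≤ (univ.image f).card := by
      have h1 := card_le_card hg1
      rw [card_erase_of_mem hmem] at h1
      omega
    have hT' : T ⊆ insert e T := subset_insert _ _
    have hse : Reach s t (insert e T) (s e) (t e) :=
      Relation.ReflTransGen.single ⟨e, mem_insert_self _ _, Or.inl ⟨rfl, rfl⟩⟩
    have hgP : P (insert e T) g := by
      refine ⟨insert_subset heF hTF, ?_, ?_⟩
      · intro u v huv
        simp only [g] at huv
        by_cases h1 : f u = f (t e)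
        · rw [if_pos h1] at huv
          by_cases h2 : f v = f (t e)
          · exact (hTr _ _ (h1.trans h2.symm)).mono hT'
          · rw [if_neg h2] at huv
            exact (((hTr _ _ h1).mono hT').trans hse.symm).trans ((hTr _ _ huv).mono hT')
        · rw [if_neg h1] at huv
          by_cases h2 : f v = f (t e)
          · rw [if_pos h2] at huv
            exact (((hTr _ _ huv).mono hT').trans hse).trans ((hTr _ _ h2.symm).mono hT')
          · rw [if_neg h2] at huv
            exact (hTr _ _ huv).mono hT'
      · have := card_insert_le e T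
        omega
    exact Nat.find_min hex (m := (univ.image g).card) (by omega) ⟨_, _, hgP, rfl⟩
  refine ⟨T, hTF, ?_, ?_⟩
  · have h1 : 0 < (univ.image f).card := card_pos.2 (univ_nonempty.image f)
    omega
  · intro x y
    exact hTr x y (card_le_one.1 hone _ (mem_image_of_mem _ (mem_univ x))
      _ (mem_image_of_mem _ (mem_univ y)))

/-- The deficiency version of Tutte's theorem with spanning trees. -/
theorem tutte_deficiency_trees [Nonempty V] (s t : E → V) (d : ℕ)
    (hconn : ∀ f : V → V, (univ.image f).card ≤
      (univ.filter (fun e => f (s e) ≠ f (t e))).card + 1)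
    (h : ∀ f : V → V, 2 * (univ.image f).card ≤
      (univ.filter (fun e => f (s e) ≠ f (t e))).card + 2 + d) :
    ∃ F₁ F₂ : Finset E, (F₁ ∩ F₂).card ≤ d ∧ F₁.card + 1 ≤ Fintype.card V ∧
      F₂.card + 1 ≤ Fintype.card V ∧ (∀ x y, Reach s t F₁ x y) ∧ (∀ x y, Reach s t F₂ x y) := by
  obtain ⟨F₁, F₂, hd, h1, h2⟩ := tutte_deficiency s t d hconn h
  obtain ⟨T₁, hT₁, hc₁, hr₁⟩ := exists_tree s t F₁ h1
  obtain ⟨T₂, hT₂, hc₂, hr₂⟩ := exists_tree s t F₂ h2
  exact ⟨T₁, T₂, (card_le_card (inter_subset_inter hT₁ hT₂)).trans hd, hc₁, hc₂, hr₁, hr₂⟩

omit [DecidableEq E] in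
/-- A multigraph in which all vertices are connected satisfies the hypothesis `hconn`. -/
theorem conn_count [Nonempty V] (s t : E → V) (hr : ∀ x y, Reach s t (univ : Finset E) x y)
    (f : V → V) :
    (univ.image f).card ≤ (univ.filter (fun e => f (s e) ≠ f (t e))).card + 1 := by
  classical
  -- greedy: a set `T` of crossing edges and a coarser function `g`
  by_contra hcon
  push Not at hcon
  let Q : Finset E → (V → V) → Prop := fun T g =>
    T ⊆ univ.filter (fun e => f (s e) ≠ f (t e)) ∧ (∀ x y, f x = f y → g x = g y) ∧
    (∀ e ∈ T, g (s e) = g (t e)) ∧ (univ.image f).card ≤ T.card + (univ.image g).card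
  have hex : ∃ n : ℕ, ∃ T : Finset E, ∃ g : V → V, Q T g ∧ (univ.image g).card = n :=
    ⟨_, ∅, f, ⟨empty_subset _, fun _ _ h => h, by simp, by simp⟩, rfl⟩
  obtain ⟨T, g, ⟨hT1, hT2, hT3, hT4⟩, hn⟩ := Nat.find_spec hex
  have hle : (univ.image g).card ≤ 1 := by
    by_contra h1
    push Not at h1
    obtain ⟨a, ha, b, hb, hab⟩ := one_lt_card.1 h1
    obtain ⟨x, -, rfl⟩ := mem_image.1 ha
    obtain ⟨y, -, rfl⟩ := mem_image.1 hb
    have hedge : ∃ e, g (s e) ≠ g (t e) := by
      by_contra hno
      push Not at hno
      have h2 : ∀ u v, Reach s t (univ : Finset E) u v → g u = g v := by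
        intro u v huv
        induction huv with
        | refl => rfl
        | tail _ hbc ih =>
          obtain ⟨e, he, h | h⟩ := hbc
          · rw [ih, ← h.1, ← h.2]; exact hno e
          · rw [ih, ← h.1, ← h.2]; exact (hno e).symm
      exact hab (h2 _ _ (hr x y))
    obtain ⟨e, hef⟩ := hedge
    have heT : e ∉ T := fun h2 => hef (hT3 e h2)
    let g' : V → V := fun v => if g v = g (t e) then g (s e) else g v
    have hg1 : univ.image g' ⊆ (univ.image g).erase (g (t e)) := by
      intro z hz
      obtain ⟨v, -, rfl⟩ := mem_image.1 hz
      simp only [g']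
      split_ifs with h
      · exact mem_erase.2 ⟨hef, mem_image_of_mem _ (mem_univ _)⟩
      · exact mem_erase.2 ⟨h, mem_image_of_mem _ (mem_univ _)⟩
    have hg2 : (univ.image g).erase (g (t e)) ⊆ univ.image g' := by
      intro z hz
      obtain ⟨h2, h3⟩ := mem_erase.1 hz
      obtain ⟨v, -, rfl⟩ := mem_image.1 h3
      refine mem_image.2 ⟨v, mem_univ _, ?_⟩
      simp only [g']
      rw [if_neg h2]
    have hmem : g (t e) ∈ univ.image g := mem_image_of_mem _ (mem_univ _)
    have hlt : (univ.image g').card + 1 = (univ.image g).card := by
      rw [Subset.antisymm hg1 hg2, card_erase_add_one hmem]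
    have hQ : Q (insert e T) g' := by
      refine ⟨?_, ?_, ?_, ?_⟩
      · refine insert_subset (mem_filter.2 ⟨mem_univ _, ?_⟩) hT1
        exact fun h2 => hef (hT2 _ _ h2)
      · intro u v h2
        simp only [g']
        rw [hT2 u v h2]
      · intro e' he'
        rcases mem_insert.1 he' with rfl | he'
        · simp only [g', if_neg hef, if_true]
        · simp only [g']
          rw [hT3 e' he']
      · rw [card_insert_of_notMem heT]
        omega
    exact Nat.find_min hex (m := (univ.image g').card) (by omega) ⟨_, _, hQ, rfl⟩
  have h3 := card_le_card hT1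
  omega

end deficiency

end Pool.RBE.NW
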