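import Pool.Agent.RBE.M4B
import Pool.Agent.RBE.NW2

set_option autoImplicit false

/-! [RBE-M8] edges leaving a blob. -/

namespace Pool.RBE

open SimpleGraph Pool.Agent.RBC

section
variable {V : Type} [Fintype V]

open Classical in
/-- The (ordered) edges which leave `Z` to the outside of `Z ∪ X`. -/
noncomputable def outE (G : SimpleGraph V) (Z : Finset V) (X : Set V) : Finset (V × V) :=
  Finset.univ.filter (fun p => p.1 ∈ Z ∧ p.2 ∉ Z ∧ p.2 ∉ X ∧ G.Adj p.1 p.2)

end

end Pool.RBE
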