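import Pool.Agent.RBE.M4A

set_option autoImplicit false

/-! [RBE-M9B] two legs over the same hub. -/

namespace Pool.RBE

open SimpleGraph Pool.Agent.RBC

/-- [RBE-M9b] Two legs over the same hub as a host (palettes `[0, q1)` and `[q1, q1 + q2)`).
Proof. `c1` of `h1`, `c2` of `h2`; `c e = c1 e` for `e ∈ ins D1`, `q1 + c2 e` otherwise. Edges in `ins D1 ∩ ins D2` are in `ins X`, free. So (filter, `Jn.congr`) `Jn .. {i | i < q1} u v` for `u, v ∈ D1` and `Jn .. {i | q1 ≤ i ∧ i < q1 + q2} u v` for `u, v ∈ D2`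
(for the second one: non-free edges in `ins D2` are not in `ins D1`). `u ∈ D1`, `v ∈ D2`: via some `x ∈ X` by `Jn.trans`. -/
theorem two_legs {V : Type} {G' : SimpleGraph V} {X D1 D2 : Set V} (hX : X.Nonempty) (hX1 : X ⊆ D1) (hX2 : X ⊆ D2)
    (hi : ∀ v, v ∈ D1 → v ∈ D2 → v ∈ X) {q1 q2 : ℕ} (h1 : Rb G' D1 q1) (h2 : Rb G' D2 q2) :
    ∃ c : Sym2 V → ℕ, (∀ u ∈ D1 ∪ D2, ∀ v ∈ D1 ∪ D2, Jn G' (ins X) c (D1 ∪ D2) {i | i < q1 + q2} u v) ∧
      (∀ u ∈ D1, ∀ v ∈ D1, Jn G' (ins X) c (D1 ∪ D2) {i | i < q1} u v) ∧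
      (∀ u ∈ D2, ∀ v ∈ D2, Jn G' (ins X) c (D1 ∪ D2) {i | q1 ≤ i ∧ i < q1 + q2} u v) := by
  classical
  obtain ⟨c1, hc1⟩ := rb_shift (E0 := ins X) h1 0
  obtain ⟨c2, hc2⟩ := rb_shift (E0 := ins X) h2 q1
  let c : Sym2 V → ℕ := fun e => if e ∈ ins D1 then c1 e else c2 e
  have k1 : ∀ u ∈ D1, ∀ v ∈ D1, Jn G' (ins X) c (D1 ∪ D2) {i | i < q1} u v := by
    intro u hu v hv
    have := Jn.congr (c' := c) (fun e _ he _ _ => if_pos he) (hc1 u hu v hv)
    refine this.mono le_rfl subset_rfl Set.subset_union_left ?_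
    intro i hi
    simp only [Set.mem_ofPred_eq] at hi ⊢
    omega
  have k2 : ∀ u ∈ D2, ∀ v ∈ D2, Jn G' (ins X) c (D1 ∪ D2) {i | q1 ≤ i ∧ i < q1 + q2} u v := by
    intro u hu v hv
    have := Jn.congr (c' := c) (fun e _ he he' _ => if_neg (fun h => he' (fun z hz => hi z (h z hz) (he z hz))))
      (hc2 u hu v hv)
    exact this.mono le_rfl subset_rfl Set.subset_union_right subset_rfl
  refine ⟨c, ?_, k1, k2⟩
  obtain ⟨x, hx⟩ := hX
  have hdisj : Disjoint {i | i < q1} {i | q1 ≤ i ∧ i < q1 + q2} := by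
    rw [Set.disjoint_left]
    intro i hi hi'
    simp only [Set.mem_ofPred_eq] at hi hi'
    omega
  have kx : ∀ u ∈ D1, ∀ v ∈ D2, Jn G' (ins X) c (D1 ∪ D2) {i | i < q1 + q2} u v := by
    intro u hu v hv
    refine ((k1 u hu x (hX1 hx)).trans hdisj (k2 x (hX2 hx) v hv)).mono le_rfl subset_rfl subset_rfl ?_
    rintro i (hi | hi) <;> simp only [Set.mem_ofPred_eq] at hi ⊢ <;> omega
  rintro u (hu | hu) v (hv | hv)
  · refine (k1 u hu v hv).mono le_rfl subset_rfl subset_rfl ?_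
    intro i hi
    simp only [Set.mem_ofPred_eq] at hi ⊢
    omega
  · exact kx u hu v hv
  · exact (kx v hv u hu).symm
  · refine (k2 u hu v hv).mono le_rfl subset_rfl subset_rfl ?_
    intro i hi
    simp only [Set.mem_ofPred_eq] at hi ⊢
    omega

end Pool.RBE
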