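import Pool.Agent.RBE.M7D
import Pool.Agent.RBE.M8B
import Pool.Agent.RBE.M8C
import Pool.Agent.RBE.M9A
import Pool.Agent.RBE.M9B

set_option autoImplicit false

/-! [RBE-M9C] (D3) a hub of bounded size has at most two tall sides. -/

namespace Pool.RBE

open SimpleGraph Pool.Agent.RBC

theorem m9c_nbh {V : Type} [Fintype V] {G : SimpleGraph V} {D : Set V} {r : ℕ} {v : V} :
    v ∈ nbh G D r ↔ ∃ u ∈ D, G.dist v u ≤ r := by
  unfold nbh
  simp only [Finset.mem_filter, Finset.mem_univ, true_and]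

/-- [RBE-M9c] (D3) A hub of bounded size has at most two tall sides.
Proof. `K = 8 (k+1)`, `r, g0` from `leg k K`, `C` from `slack` with `R = r`, `ℓ0` from `blob` with `K' = 4 k`; `ℓ = max` of `ℓ0, g0, 2 (k S + C) + 1`, `g = (k+1) ℓ`, `H0 = 2 g`. `leg` in `A 0` and `A 1`: `D1, q1, M1`, `D2, q2, M2` (`D1 ∩ D2 ⊆ X`). In `A 2`: `side_exists`, `side_path` of
length `ℓ`, `blob`: `Z`, `ℓ ≤ |Z| ≤ g ≤ q1, q2`. `blob_trees`: `Fa, Fb`, `d = #outE / 2`. `two_legs` in `G' = cl G X` and `free_blob` with `H = D1 ∪ D2`, `Γa = [0, q1)`, `Γb = [q1, q1+q2)` (`h2`: `y ∈ D1`: `Jn {i < q1} x y`, avoids `Γb`; `y ∈ D2` avoids `Γa`): `FRb (cl G X) (ins X) (D1 ∪ D2 ∪ Z) (q1 + q2 + d)`.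
`hub_out` (`E0 = ∅`), `frb_empty`: `Rb G (D1 ∪ D2 ∪ Z) (q1 + q2 + d + |X|)`. `slack`: `|M1| + |M2| + |Z| ≤ |nbh G (D1 ∪ D2 ∪ Z) r| < k (q1 + q2 + d + S) + C` (`M1 ⊆ A 0`, `M2 ⊆ A 1`, `Z ⊆ A 2` disjoint). `k d ≤ k #outE / 2 ≤ |Z| / 8`, `k (q1 + q2) ≤ |M1| + |M2| + 2 g / K = .. + ℓ / 4 ≤ .. + |Z| / 4`.
So `5 |Z| < 8 (k S + C)`, contradiction to `|Z| ≥ ℓ`. (Write it multiplied by `8 K` without divisions.) -/
theorem three_sides (k : ℕ) (hk : 4 ≤ k) (S : ℕ) :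
    ∃ H0 : ℕ, ∀ (V : Type) [Fintype V] (G : SimpleGraph V), KConn G k → Irr G k → ∀ (X : Set V), X.Nonempty →
      ConnIn G X → X.ncard ≤ S → ∀ A : Fin 3 → Set V, (∀ i, ∀ a ∈ A i, ∀ b, G.Adj a b → b ∈ A i ∨ b ∈ X) →
      (∀ i, ∀ a ∈ A i, a ∉ X) → (∀ i j, i ≠ j → ∀ a ∈ A i, a ∉ A j) →
      ¬ ∀ i, ∃ a ∈ A i, ∀ x ∈ X, H0 ≤ G.dist a x := by
  classical
  have hk3 : 3 ≤ k := by omega
  obtain ⟨r, g0, hleg⟩ := leg k hk3 (8 * (k + 1))
  obtain ⟨C, hC⟩ := slack k hk3 r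
  obtain ⟨ℓ0, hblob⟩ := blob k hk3 (4 * k)
  set ℓ : ℕ := ℓ0 + g0 + 2 * (k * S + C) + 1 with hℓ
  refine ⟨2 * ((k + 1) * ℓ), ?_⟩
  intro V _ G hkc hirr X hX hXc hXS A hnbr hdis hdisj hfar
  have hG : G.Connected := kconn_connected hkc (by omega)
  set g : ℕ := (k + 1) * ℓ with hg
  have hℓg : ℓ ≤ g := by
    rw [hg]
    exact Nat.le_mul_of_pos_left _ (by omega)
  have hg0 : g0 ≤ g := by omega
  obtain ⟨D1, q1, M1, hXD1, hD1, hR1, hq1, hM1A, hM1, hK1⟩ :=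
    hleg V G hkc hirr X (A 0) hX (hnbr 0) (hdis 0) g hg0 (hfar 0)
  obtain ⟨D2, q2, M2, hXD2, hD2, hR2, hq2, hM2A, hM2, hK2⟩ :=
    hleg V G hkc hirr X (A 1) hX (hnbr 1) (hdis 1) g hg0 (hfar 1)
  -- the blob
  obtain ⟨h, hS⟩ := side_exists (G := G) hX (hnbr 2) (hdis 2)
  obtain ⟨a, ha, hax⟩ := hfar 2
  have hT : ℓ ≤ h a := by
    obtain ⟨x, hx, hdx⟩ := hS.att a ha
    rw [← hdx]
    exact (by omega : ℓ ≤ 2 * g).trans (hax x hx)
  obtain ⟨P, hP0, hPA, hPh, hPadj⟩ := side_path hG hS ha hT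
  obtain ⟨Z, hZA, hZ1, hZ2, hZo, hZw⟩ :=
    hblob V G hkc hirr X (A 2) h P ℓ (by omega) hS hP0 hPA hPh hPadj
  have hZX : ∀ z ∈ Z, z ∉ X := fun z hz => hdis 2 z (hZA z hz)
  obtain ⟨Fa, Fb, hFa, hFb, hFab, hFe, wa, wb⟩ := blob_trees hkc hk hX hZX hZw
  set d : ℕ := (outE G Z X).card / 2 with hd
  -- the host
  have hi : ∀ v, v ∈ D1 → v ∈ D2 → v ∈ X := by
    intro v h1 h2
    rcases hD1 v h1 with h3 | h3
    · exact h3
    · rcases hD2 v h2 with h4 | h4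
      · exact h4
      · exact absurd h4 (hdisj 0 1 (by decide) v h3)
  obtain ⟨c, hc0, hc1, hc2⟩ := two_legs hX hXD1 hXD2 hi hR1 hR2
  have hZH : ∀ z ∈ Z, z ∉ D1 ∪ D2 := by
    intro z hz h1
    rcases h1 with h1 | h1
    · rcases hD1 z h1 with h3 | h3
      · exact hZX z hz h3
      · exact hdisj 2 0 (by decide) z (hZA z hz) h3
    · rcases hD2 z h1 with h3 | h3
      · exact hZX z hz h3
      · exact hdisj 2 1 (by decide) z (hZA z hz) h3
  have hfb : FRb (cl G X) (ins X) (D1 ∪ D2 ∪ {z | z ∈ Z}) (q1 + q2 + d) := by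
    refine free_blob (G' := cl G X) (E0 := ins X) (H := D1 ∪ D2) (X := X)
      (fun x hx => Or.inl (hXD1 hx)) hX (fun e he => he) (c := c) (q := q1 + q2)
      (Γa := Finset.range q1) (Γb := Finset.Ico q1 (q1 + q2)) ?_ ?_ ?_ hc0 ?_ hZH
      (Fa := Fa) (Fb := Fb) ?_ ?_ hFab (fun e he => (hFe e he).2) wa wb
    · rw [Finset.disjoint_left]
      intro i h1 h2
      rw [Finset.mem_range] at h1
      rw [Finset.mem_Ico] at h2
      omega
    · intro i h1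
      rw [Finset.mem_range] at h1
      omega
    · intro i h1
      rw [Finset.mem_Ico] at h1
      omega
    · intro y hy
      rcases hy with hy | hy
      · right
        intro x hx
        refine Jn.mono (le_refl _) (fun e he => he) (fun v hv => hv) ?_ (hc1 x (hXD1 hx) y hy)
        intro i h1
        have h1' : i < q1 := h1
        refine ⟨by omega, ?_⟩
        rw [Finset.mem_Ico]
        omega
      · left
        intro x hx
        refine Jn.mono (le_refl _) (fun e he => he) (fun v hv => hv) ?_ (hc2 x (hXD2 hx) y hy)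
        intro i h1
        have h1' : q1 ≤ i ∧ i < q1 + q2 := h1
        refine ⟨h1'.2, ?_⟩
        rw [Finset.mem_range]
        omega
    · rw [Finset.card_range]
      omega
    · rw [Nat.card_Ico]
      omega
  have hXD : X ⊆ D1 ∪ D2 ∪ {z | z ∈ Z} := fun x hx => Or.inl (Or.inl (hXD1 hx))
  have hout : Rb G (D1 ∪ D2 ∪ {z | z ∈ Z}) (q1 + q2 + d + X.ncard) := by
    rw [← frb_empty]
    refine hub_out (Set.toFinite X) hXc hXD ?_
    rw [Set.empty_union]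
    exact hfb
  obtain ⟨x0, hx0⟩ := hX
  have hsl := hC V G hkc hirr (D1 ∪ D2 ∪ {z | z ∈ Z}) (q1 + q2 + d + X.ncard) ⟨x0, hXD hx0⟩ hout
  -- the mass
  have hsub : M1 ∪ M2 ∪ Z ⊆ nbh G (D1 ∪ D2 ∪ {z | z ∈ Z}) r := by
    have hmono : ∀ (D : Set V), D ⊆ D1 ∪ D2 ∪ {z | z ∈ Z} → ∀ v ∈ nbh G D r,
        v ∈ nbh G (D1 ∪ D2 ∪ {z | z ∈ Z}) r := by
      intro D hD v hv
      obtain ⟨u, hu, h2⟩ := m9c_nbh.1 hv
      exact m9c_nbh.2 ⟨u, hD hu, h2⟩
    intro v hv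
    rw [Finset.mem_union, Finset.mem_union] at hv
    rcases hv with (hv | hv) | hv
    · exact hmono D1 (fun u hu => Or.inl (Or.inl hu)) v (hM1 hv)
    · exact hmono D2 (fun u hu => Or.inl (Or.inr hu)) v (hM2 hv)
    · refine m9c_nbh.2 ⟨v, Or.inr hv, ?_⟩
      rw [SimpleGraph.dist_self]
      exact Nat.zero_le _
  have hdj1 : Disjoint M1 M2 := by
    rw [Finset.disjoint_left]
    intro v h1 h2
    exact hdisj 0 1 (by decide) v (hM1A v h1) (hM2A v h2)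
  have hdj2 : Disjoint (M1 ∪ M2) Z := by
    rw [Finset.disjoint_left]
    intro v h1 h2
    rcases Finset.mem_union.1 h1 with h1 | h1
    · exact hdisj 0 2 (by decide) v (hM1A v h1) (hZA v h2)
    · exact hdisj 1 2 (by decide) v (hM2A v h1) (hZA v h2)
  have hcard := Finset.card_le_card hsub
  rw [Finset.card_union_of_disjoint hdj2, Finset.card_union_of_disjoint hdj1] at hcard
  have hlt : M1.card + M2.card + Z.card < k * (q1 + q2 + d + X.ncard) + C :=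
    lt_of_le_of_lt hcard hsl
  -- arithmetic
  have e1 : 8 * (k * q1) ≤ 8 * M1.card + ℓ := by
    have h1 : (k + 1) * (8 * (k * q1)) ≤ (k + 1) * (8 * M1.card + ℓ) := by
      calc (k + 1) * (8 * (k * q1)) = 8 * (k + 1) * (k * q1) := by ring
        _ ≤ 8 * (k + 1) * M1.card + g := hK1
        _ = (k + 1) * (8 * M1.card + ℓ) := by rw [hg]; ring
    exact Nat.le_of_mul_le_mul_left h1 (by omega)
  have e2 : 8 * (k * q2) ≤ 8 * M2.card + ℓ := by
    have h1 : (k + 1) * (8 * (k * q2)) ≤ (k + 1) * (8 * M2.card + ℓ) := by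
      calc (k + 1) * (8 * (k * q2)) = 8 * (k + 1) * (k * q2) := by ring
        _ ≤ 8 * (k + 1) * M2.card + g := hK2
        _ = (k + 1) * (8 * M2.card + ℓ) := by rw [hg]; ring
    exact Nat.le_of_mul_le_mul_left h1 (by omega)
  have e3 : 8 * (k * d) ≤ Z.card := by
    have h1 : 2 * d ≤ (outE G Z X).card := by omega
    calc 8 * (k * d) = 4 * k * (2 * d) := by ring
      _ ≤ 4 * k * (outE G Z X).card := Nat.mul_le_mul_left _ h1
      _ ≤ Z.card := hZo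
  have e4 : k * X.ncard ≤ k * S := Nat.mul_le_mul_left _ hXS
  have e5 : k * (q1 + q2 + d + X.ncard) = k * q1 + k * q2 + k * d + k * X.ncard := by ring
  rw [e5] at hlt
  omega

end Pool.RBE
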