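import Pool.Agent.RBE.Base

set_option autoImplicit false

/-! [RBE-RA] the reduction lemma (RED) and the induction. -/

namespace Pool.RBE

open SimpleGraph Pool.Agent.RBC

open Classical in
/-- Auxiliary colouring: transfer along an injection. -/
private noncomputable def ra_tc {A B : Type} (f : A → B) (c : Sym2 A → ℕ) (e : Sym2 B) : ℕ :=
  if h : ∃ e' : Sym2 A, e'.map f = e then c h.choose else 0

private theorem ra_tc_map {A B : Type} {f : A → B} (hf : Function.Injective f) (c : Sym2 A → ℕ)
    (e : Sym2 A) : ra_tc f c (e.map f) = c e := by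
  unfold ra_tc
  have h : ∃ e' : Sym2 A, e'.map f = e.map f := ⟨e, rfl⟩
  rw [dif_pos h]
  exact congrArg c (Sym2.map.injective hf h.choose_spec)

private theorem ra_walk {V : Type} {G : SimpleGraph V} {S : Set V} {u v : S}
    (w : (G.induce S).Walk u v) : ∃ w' : G.Walk u.1 v.1,
      w'.support = w.support.map Subtype.val ∧ w'.edges = w.edges.map (Sym2.map Subtype.val) := by
  induction w with
  | nil => exact ⟨Walk.nil, by simp, by simp⟩
  | cons h p ih =>
    rename_i a b z
    obtain ⟨w', h1, h2⟩ := ih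
    have hadj : G.Adj a.1 b.1 := h
    refine ⟨Walk.cons hadj w', ?_, ?_⟩
    · rw [Walk.support_cons, Walk.support_cons, List.map_cons, h1]
    · rw [Walk.edges_cons, Walk.edges_cons, List.map_cons, h2]
      rfl

/-- [RBE-RA1] Transfer of `Rb` from an induced subgraph.
Proof. Colour `c' : Sym2 S → ℕ`. Define `c e := if ∃ e' , e'.map Subtype.val = e then c' (that e') else 0`
(`Sym2.map` of an injective map is injective). A walk of `G.induce S` maps to a walk of `G`
(`SimpleGraph.Embedding.induce`, `Walk.map`); its edges/support are the images. -/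
theorem rb_induce {V : Type} {G : SimpleGraph V} {S : Set V} {D : Set S} {q : ℕ}
    (h : Rb (G.induce S) D q) : Rb G (Subtype.val '' D) q := by
  classical
  obtain ⟨c, hc⟩ := h
  refine ⟨ra_tc Subtype.val c, ?_⟩
  rintro _ ⟨u, hu, rfl⟩ _ ⟨v, hv, rfl⟩
  obtain ⟨w, h1, h2, h3⟩ := hc u hu v hv
  obtain ⟨w', hsup, hedges⟩ := ra_walk w
  refine ⟨w', ?_, ?_, ?_⟩
  · intro x hx
    rw [hsup, List.mem_map] at hx
    obtain ⟨y, hy, rfl⟩ := hx
    exact ⟨y, h1 y hy, rfl⟩
  · rw [hedges, List.map_map]
    have : (ra_tc Subtype.val c) ∘ (Sym2.map (Subtype.val : S → V)) = c := by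
      funext e
      exact ra_tc_map Subtype.val_injective c e
    rw [this]
    exact h2
  · intro e he
    rw [hedges, List.mem_map] at he
    obtain ⟨e', he', rfl⟩ := he
    rw [ra_tc_map Subtype.val_injective]
    exact h3 e' he'

private theorem ra_mem_intr {V : Type} [Fintype V] {G : SimpleGraph V} {K : Set V} {v : V} :
    v ∈ intr G K ↔ v ∈ K ∧ ∀ w, G.Adj v w → w ∈ K := by
  unfold intr
  simp

/-- A rainbow walk with colours in `A`. -/
private def RaW {V : Type} (G : SimpleGraph V) (c : Sym2 V → ℕ) (A : Set ℕ) (u v : V) : Prop :=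
  ∃ w : G.Walk u v, (w.edges.map c).Nodup ∧ ∀ n ∈ w.edges.map c, n ∈ A

private theorem RaW.symm {V : Type} {G : SimpleGraph V} {c : Sym2 V → ℕ} {A : Set ℕ} {u v : V}
    (h : RaW G c A u v) : RaW G c A v u := by
  obtain ⟨w, h1, h2⟩ := h
  refine ⟨w.reverse, ?_, ?_⟩
  · rw [Walk.edges_reverse, List.map_reverse]
    exact List.nodup_reverse.2 h1
  · intro n hn
    rw [Walk.edges_reverse, List.map_reverse, List.mem_reverse] at hn
    exact h2 n hn

/-- The graph of the reduction: the complement of `I`, with `K \ I` made a clique. -/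
private def RaG {V : Type} (G : SimpleGraph V) (K : Set V) (P : V → Prop) :
    SimpleGraph {v // P v} where
  Adj x y := x ≠ y ∧ (G.Adj x.1 y.1 ∨ (x.1 ∈ K ∧ y.1 ∈ K))
  symm := ⟨fun x y h => ⟨h.1.symm, h.2.imp (fun h' => h'.symm) (fun h' => ⟨h'.2, h'.1⟩)⟩⟩
  loopless := ⟨fun x h => h.1 rfl⟩

/-- Splitting a walk of the reduced graph at its first and last vertex in `K`. -/
private theorem ra_split {V : Type} {G : SimpleGraph V} {K : Set V} {P : V → Prop}
    {c : Sym2 V → ℕ} {c' : Sym2 {v // P v} → ℕ}
    (hcc : ∀ x y : {v // P v}, ¬ (x.1 ∈ K ∧ y.1 ∈ K) → c s(x.1, y.1) = c' s(x, y))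
    {x y : {v // P v}} (p : (RaG G K P).Walk x y) :
    (x.1 ∉ K ∧ ∃ w : G.Walk x.1 y.1, w.edges.map c = p.edges.map c') ∨
    (∃ a ∈ K, ∃ b ∈ K, ∃ w1 : G.Walk x.1 a, ∃ w2 : G.Walk b y.1, ∃ l : List ℕ,
      p.edges.map c' = w1.edges.map c ++ (l ++ w2.edges.map c)) := by
  induction p with
  | nil =>
    rename_i u
    by_cases hu : u.1 ∈ K
    · right
      exact ⟨u.1, hu, u.1, hu, Walk.nil, Walk.nil, [], by simp⟩
    · left
      exact ⟨hu, Walk.nil, by simp⟩
  | cons h p ih =>
    rename_i u z y
    by_cases hu : u.1 ∈ K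
    · right
      rcases ih with ⟨hz, w, hw⟩ | ⟨a, ha, b, hb, w1, w2, l, hl⟩
      · have hadj : G.Adj u.1 z.1 := by
          rcases h.2 with h' | h'
          · exact h'
          · exact absurd h'.2 hz
        refine ⟨u.1, hu, u.1, hu, Walk.nil, Walk.cons hadj w, [], ?_⟩
        rw [Walk.edges_cons, List.map_cons, Walk.edges_cons, List.map_cons, hw,
          hcc u z (fun h' => hz h'.2)]
        simp
      · refine ⟨u.1, hu, b, hb, Walk.nil, w2, c' s(u, z) :: (w1.edges.map c ++ l), ?_⟩
        rw [Walk.edges_cons, List.map_cons, hl]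
        simp
    · have hadj : G.Adj u.1 z.1 := by
        rcases h.2 with h' | h'
        · exact h'
        · exact absurd h'.1 hu
      rcases ih with ⟨hz, w, hw⟩ | ⟨a, ha, b, hb, w1, w2, l, hl⟩
      · left
        refine ⟨hu, Walk.cons hadj w, ?_⟩
        rw [Walk.edges_cons, List.map_cons, Walk.edges_cons, List.map_cons, hw,
          hcc u z (fun h' => hu h'.1)]
      · right
        refine ⟨a, ha, b, hb, Walk.cons hadj w1, w2, l, ?_⟩
        rw [Walk.edges_cons, List.map_cons, Walk.edges_cons, List.map_cons, hl,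
          hcc u z (fun h' => hu h'.1)]
        simp

/-- A connected graph: a property closed under adjacency is everywhere. -/
private theorem ra_closed {A : Type} {H : SimpleGraph A} (hH : H.Connected) {R : Set A}
    (hR : ∀ x y, H.Adj x y → x ∈ R → y ∈ R) {u : A} (hu : u ∈ R) (v : A) : v ∈ R := by
  by_contra hv
  obtain ⟨w⟩ := hH.preconnected u v
  obtain ⟨d, hd, h1, h2⟩ := w.exists_boundary_dart R hu hv
  exact h2 (hR _ _ d.adj h1)

/-- The boundary of `K` has at least `k` vertices. -/
private theorem ra_bd_card {k : ℕ} {V : Type} [Fintype V] {G : SimpleGraph V} (hG : KConn G k)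
    {K : Set V} {i0 x0 : V} (hi : i0 ∈ intr G K) (hx : x0 ∉ K) (B : Finset V)
    (hB : ∀ v, v ∈ B ↔ v ∈ K ∧ v ∉ intr G K) : k ≤ B.card := by
  by_contra hlt
  push Not at hlt
  have hc := hG.2 B hlt
  have hi0 : i0 ∈ ((↑B : Set V)ᶜ) := by
    intro h
    exact ((hB i0).1 h).2 hi
  have hx0 : x0 ∈ ((↑B : Set V)ᶜ) := by
    intro h
    exact hx ((hB x0).1 h).1
  have := ra_closed hc (R := {v | v.1 ∈ intr G K}) (by
    intro x y hxy hxR
    have hyK : y.1 ∈ K := (ra_mem_intr.1 hxR).2 _ hxy
    by_contra hy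
    exact y.2 ((hB y.1).2 ⟨hyK, hy⟩)) (u := ⟨i0, hi0⟩) hi ⟨x0, hx0⟩
  exact hx (ra_mem_intr.1 this).1

/-- The reduced graph is `k`-connected. -/
private theorem ra_kconn {k : ℕ} {V : Type} [Fintype V] {G : SimpleGraph V} (hG : KConn G k)
    {K : Set V} [Fintype {v // v ∉ intr G K}] (hcard : k < Fintype.card {v // v ∉ intr G K}) :
    KConn (RaG G K (fun v => v ∉ intr G K)) k := by
  classical
  refine ⟨hcard, ?_⟩
  intro S' hS'
  set G' := RaG G K (fun v => v ∉ intr G K) with hG'
  have hc := hG.2 (S'.map ⟨Subtype.val, Subtype.val_injective⟩) (by rwa [Finset.card_map])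
  have hne : ∃ u : {v // v ∉ intr G K}, u ∉ S' := by
    by_contra hcon
    push Not at hcon
    have : S' = Finset.univ := Finset.eq_univ_of_forall hcon
    rw [this, Finset.card_univ] at hS'
    omega
  have hmem : ∀ x : {v // v ∉ intr G K}, x.1 ∈ S'.map ⟨Subtype.val, Subtype.val_injective⟩ ↔
      x ∈ S' := by
    intro x
    rw [Finset.mem_map]
    constructor
    · rintro ⟨y, hy, hyx⟩
      have : y = x := Subtype.ext hyx
      rwa [← this]
    · intro hx
      exact ⟨x, hx, rfl⟩
  have hpre : (G'.induce ((↑S' : Set {v // v ∉ intr G K})ᶜ)).Preconnected := by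
    rintro ⟨u, hu⟩ ⟨v, hv⟩
    let R : Set V := {x | ∃ (hx : x ∉ intr G K) (hx' : (⟨x, hx⟩ : {v // v ∉ intr G K}) ∈
      ((↑S' : Set {v // v ∉ intr G K})ᶜ)),
      (G'.induce ((↑S' : Set {v // v ∉ intr G K})ᶜ)).Reachable ⟨u, hu⟩ ⟨⟨x, hx⟩, hx'⟩}
    have hstep : ∀ (x : V) (hx : x ∉ intr G K) (hx' : (⟨x, hx⟩ : {v // v ∉ intr G K}) ∉ S')
        (y : V), y ∈ R → (G.Adj y x ∨ (y ∈ K ∧ x ∈ K)) → x ∈ R := by
      intro x hx hx' y hy hadj
      obtain ⟨hy1, hy2, hy3⟩ := hy
      by_cases hxy : y = x
      · subst hxy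
        exact ⟨hy1, hy2, hy3⟩
      · refine ⟨hx, by simpa using hx', hy3.trans ?_⟩
        apply SimpleGraph.Adj.reachable
        show G'.Adj _ _
        refine ⟨?_, hadj⟩
        intro h
        exact hxy (congrArg Subtype.val h)
    have key := ra_closed hc (R := {x | x.1 ∈ R ∨ (x.1 ∈ intr G K ∧ ∃ y ∈ R, y ∈ K)}) (by
      intro x y hxy hx
      have hxy' : G.Adj x.1 y.1 := hxy
      have hyS : ∀ h : y.1 ∉ intr G K, (⟨y.1, h⟩ : {v // v ∉ intr G K}) ∉ S' := by
        intro h hmem'
        exact y.2 (by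
          have := (hmem ⟨y.1, h⟩).2 hmem'
          exact_mod_cast this)
      rcases hx with hx | ⟨hxI, z, hzR, hzK⟩
      · by_cases hyI : y.1 ∈ intr G K
        · right
          exact ⟨hyI, x.1, hx, (ra_mem_intr.1 hyI).2 _ hxy'.symm⟩
        · left
          exact hstep y.1 hyI (hyS hyI) x.1 hx (Or.inl hxy')
      · by_cases hyI : y.1 ∈ intr G K
        · right
          exact ⟨hyI, z, hzR, hzK⟩
        · left
          exact hstep y.1 hyI (hyS hyI) z hzR (Or.inr ⟨hzK, (ra_mem_intr.1 hxI).2 _ hxy'⟩))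
      (u := ⟨u.1, by
        intro h
        exact hu ((hmem u).1 (by exact_mod_cast h))⟩)
      (Or.inl ⟨u.2, hu, Reachable.refl _⟩)
      ⟨v.1, by
        intro h
        exact hv ((hmem v).1 (by exact_mod_cast h))⟩
    rcases key with ⟨h1, h2, h3⟩ | ⟨h1, -⟩
    · exact h3
    · exact absurd h1 v.2
  have : Nonempty ((↑S' : Set {v // v ∉ intr G K})ᶜ : Set {v // v ∉ intr G K}) := by
    obtain ⟨u, hu⟩ := hne
    exact ⟨⟨u, by simpa using hu⟩⟩
  exact ⟨hpre⟩

/-- [RBE-RA2] (RED) one step of the reduction.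
Proof. If `K = univ` then `intr G K = univ` and `q` itself proves `Bd` (`k*q ≤ |V|`). Otherwise let
`I = intr G K ≠ ∅`, `∂K = K \ I`. There is no edge between `I` and `V \ K`. `V' = {v // v ∉ I}` and
`G'` on `V'`: `x, y` adjacent iff `x ≠ y` and (`G.Adj x y` or both `x, y ∈ K`) (so `∂K` becomes a
clique). `|∂K| ≥ k`: otherwise `G - ∂K` is connected by `hG.2`, but contains a vertex of `I` and a
vertex outside `K` and no edge between `I` and `V \ K`. So `|V'| ≥ k + 1` (one more vertex outside
`K`). `G'` is `k`-connected: let `S' ⊆ V'`, `|S'| < k`; `G - S'` is connected; take a walk of `G - S'`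
from `u ∉ I` to `v ∉ I` and show by induction along the walk: for every vertex `x` of it, if `x ∉ I`
then `x` is reachable from `u` in `G' - S'`, and if `x ∈ I` then some `y ∈ ∂K \ S'` is reachable from
`u` in `G' - S'`. (Step `x → x'`: both outside `I`: an edge of `G'`. `x ∉ I, x' ∈ I`: then `x ∈ K`, so
`y = x`. Both in `I`: same `y`. `x ∈ I, x' ∉ I`: then `x' ∈ ∂K`, and `y = x'` or `y, x'` are adjacent
in `G'`.) `|V'| = |V| - |I| < |V|`, so `IH` gives `q'` with `Rb G' univ q'`, `k q' ≤ |V| - |I| + C`.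
Claim `Rb G univ (q' + q)` (then `k (q' + q) ≤ |V| - |I| + C + |I|`). Colour an edge with both ends in
`K` by `q' + c_K e` (`c_K` from `hK`), any other edge (both its ends are outside `I`) by its colour in
`G'`. For `u, v`: call `u⁺ = u` if `u ∉ I`. (i) `u, v ∈ K`: the walk inside `K`. (ii) `u, v ∉ I`:
take a rainbow walk of `G'`; if it has no vertex in `K` all its edges are edges of `G` with an end
outside `K`: done; otherwise cut it at its first and at its last vertex in `K` (the edges before the
first and after the last have an end outside `K`, so they are edges of `G` and keep their colour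
`< q'`, and are pairwise differently coloured) and join these two vertices by the walk inside `K`
(colours `≥ q'`). (iii) `u ∈ I`, `v ∉ K`: choose any `d ∈ ∂K`, a rainbow walk of `G'` from `d` to `v`,
its last vertex `d'` in `K`, and the walk inside `K` from `u` to `d'`. `v ∈ I, u ∉ K` symmetric. -/
theorem red_step {k : ℕ} (hk : 1 ≤ k) {C : ℕ} {V : Type} [Fintype V] {G : SimpleGraph V}
    (hG : KConn G k)
    (IH : ∀ (V' : Type) [Fintype V'] (G' : SimpleGraph V'), KConn G' k →
      Fintype.card V' < Fintype.card V → Bd G' k C)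
    {K : Set V} {q : ℕ} (hK : Rb G K q) (hne : (intr G K).Nonempty)
    (hle : k * q ≤ (intr G K).card) : Bd G k C := by
  classical
  by_cases huniv : K = Set.univ
  · refine ⟨q, by rwa [← huniv], ?_⟩
    have := Finset.card_le_univ (intr G K)
    omega
  obtain ⟨x0, hx0⟩ : ∃ x, x ∉ K := by
    by_contra hcon
    push Not at hcon
    exact huniv (Set.eq_univ_of_forall hcon)
  obtain ⟨i0, hi0⟩ := hne
  set B : Finset V := Finset.univ.filter (fun v => v ∈ K ∧ v ∉ intr G K) with hBdef
  have hB : ∀ v, v ∈ B ↔ v ∈ K ∧ v ∉ intr G K := by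
    intro v
    rw [hBdef]
    simp
  have hBk := ra_bd_card hG hi0 hx0 B hB
  have hIcard : 0 < (intr G K).card := Finset.card_pos.2 ⟨i0, hi0⟩
  have hcardV' : Fintype.card {v // v ∉ intr G K} + (intr G K).card = Fintype.card V := by
    have h1 : Fintype.card {v // v ∉ intr G K} = ((intr G K)ᶜ).card := by
      rw [Fintype.card_subtype]
      congr 1
      ext v
      simp
    rw [h1, Finset.card_compl]
    have := Finset.card_le_univ (intr G K)
    omega
  have hlt : k < Fintype.card {v // v ∉ intr G K} := by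
    have hdis : Disjoint (insert x0 B) (intr G K) := by
      rw [Finset.disjoint_left]
      intro v hv hvI
      rw [Finset.mem_insert] at hv
      rcases hv with rfl | hv
      · exact hx0 (ra_mem_intr.1 hvI).1
      · exact ((hB v).1 hv).2 hvI
    have h2 : (insert x0 B).card = B.card + 1 := by
      apply Finset.card_insert_of_notMem
      intro h
      exact hx0 ((hB x0).1 h).1
    have h3 := Finset.card_le_univ ((insert x0 B) ∪ intr G K)
    rw [Finset.card_union_of_disjoint hdis, h2] at h3
    omega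
  obtain ⟨q', hq', hle'⟩ := IH {v // v ∉ intr G K} (RaG G K (fun v => v ∉ intr G K))
    (ra_kconn hG hlt) (by omega)
  refine ⟨q' + q, ?_, by rw [Nat.mul_add]; omega⟩
  obtain ⟨cK, hcK⟩ := hK
  obtain ⟨c', hc'⟩ := hq'
  let c : Sym2 V → ℕ := fun e =>
    if ∀ x ∈ e, x ∈ K then q' + cK e else ra_tc (Subtype.val : {v // v ∉ intr G K} → V) c' e
  have hcin : ∀ e : Sym2 V, (∀ x ∈ e, x ∈ K) → c e = q' + cK e := by
    intro e he
    show (if ∀ x ∈ e, x ∈ K then q' + cK e else _) = _
    rw [if_pos he]
  have hcc : ∀ x y : {v // v ∉ intr G K}, ¬ (x.1 ∈ K ∧ y.1 ∈ K) →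
      c s(x.1, y.1) = c' s(x, y) := by
    intro x y hxy
    show (if ∀ z ∈ s(x.1, y.1), z ∈ K then _ else _) = _
    rw [if_neg]
    · exact ra_tc_map Subtype.val_injective c' s(x, y)
    · intro h
      exact hxy ⟨h _ (Sym2.mem_mk_left _ _), h _ (Sym2.mem_mk_right _ _)⟩
  have hKw : ∀ u ∈ K, ∀ v ∈ K, RaW G c {n | q' ≤ n ∧ n < q' + q} u v := by
    intro u hu v hv
    obtain ⟨w, h1, h2, h3⟩ := hcK u hu v hv
    have hev : ∀ e ∈ w.edges, c e = q' + cK e := by
      intro e he
      apply hcin
      intro x hx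
      exact h1 x (by
        induction e with
        | h a b =>
          rcases Sym2.mem_iff.1 hx with rfl | rfl
          · exact w.fst_mem_support_of_mem_edges he
          · exact w.snd_mem_support_of_mem_edges he)
    have hmap : w.edges.map c = (w.edges.map cK).map (fun n => q' + n) := by
      rw [List.map_map]
      apply List.map_congr_left
      intro e he
      exact hev e he
    refine ⟨w, ?_, ?_⟩
    · rw [hmap]
      exact h2.map (fun a b hab => by simpa using hab)
    · intro n hn
      rw [hmap, List.mem_map] at hn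
      obtain ⟨m, hm, rfl⟩ := hn
      rw [List.mem_map] at hm
      obtain ⟨e, he, rfl⟩ := hm
      have := h3 e he
      exact ⟨by omega, by omega⟩
  have hG'w : ∀ x y : {v // v ∉ intr G K}, ∃ p : (RaG G K (fun v => v ∉ intr G K)).Walk x y,
      (p.edges.map c').Nodup ∧ ∀ n ∈ p.edges.map c', n < q' := by
    intro x y
    obtain ⟨p, -, h2, h3⟩ := hc' x (Set.mem_univ _) y (Set.mem_univ _)
    refine ⟨p, h2, ?_⟩
    intro n hn
    rw [List.mem_map] at hn
    obtain ⟨e, he, rfl⟩ := hn
    exact h3 e he
  -- from `K` to the outside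
  have hKO : ∀ u ∈ K, ∀ v ∉ K, RaW G c {n | n < q' + q} u v := by
    intro u hu v hv
    obtain ⟨d, hd⟩ : B.Nonempty := by
      rw [← Finset.card_pos]
      omega
    have hdK := (hB d).1 hd
    have hvI : v ∉ intr G K := fun h => hv (ra_mem_intr.1 h).1
    obtain ⟨p, hp1, hp2⟩ := hG'w ⟨d, hdK.2⟩ ⟨v, hvI⟩
    rcases ra_split hcc p with ⟨h, -⟩ | ⟨a, ha, b, hb, w1, w2, l, hl⟩
    · exact absurd hdK.1 h
    · rw [hl] at hp1 hp2
      obtain ⟨w0, h01, h02⟩ := hKw u hu b hb
      refine ⟨w0.append w2, ?_, ?_⟩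
      · rw [Walk.edges_append, List.map_append, List.nodup_append]
        refine ⟨h01, (List.nodup_append.1 (List.nodup_append.1 hp1).2.1).2.1, ?_⟩
        intro n hn m hm hnm
        have h1 := (h02 n hn).1
        have h2 := hp2 m (by simp only [List.mem_append]; exact Or.inr (Or.inr hm))
        omega
      · intro n hn
        rw [Walk.edges_append, List.map_append, List.mem_append] at hn
        rcases hn with hn | hn
        · exact (h02 n hn).2
        · have h2 := hp2 n (by simp only [List.mem_append]; exact Or.inr (Or.inr hn))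
          show n < q' + q
          omega
  have hOO : ∀ u ∉ K, ∀ v ∉ K, RaW G c {n | n < q' + q} u v := by
    intro u hu v hv
    have huI : u ∉ intr G K := fun h => hu (ra_mem_intr.1 h).1
    have hvI : v ∉ intr G K := fun h => hv (ra_mem_intr.1 h).1
    obtain ⟨p, hp1, hp2⟩ := hG'w ⟨u, huI⟩ ⟨v, hvI⟩
    rcases ra_split hcc p with ⟨-, w, hw⟩ | ⟨a, ha, b, hb, w1, w2, l, hl⟩
    · refine ⟨w, by rwa [hw], ?_⟩
      intro n hn
      rw [hw] at hn
      have := hp2 n hn
      show n < q' + q
      omega
    · rw [hl] at hp1 hp2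
      obtain ⟨w0, h01, h02⟩ := hKw a ha b hb
      have hN := List.nodup_append.1 hp1
      have hN2 := List.nodup_append.1 hN.2.1
      refine ⟨w1.append (w0.append w2), ?_, ?_⟩
      · rw [Walk.edges_append, List.map_append, List.nodup_append, Walk.edges_append,
          List.map_append, List.nodup_append]
        refine ⟨hN.1, ⟨h01, hN2.2.1, ?_⟩, ?_⟩
        · intro n hn m hm hnm
          have h1 := (h02 n hn).1
          have h2 := hp2 m (by simp only [List.mem_append]; exact Or.inr (Or.inr hm))
          omega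
        · intro n hn m hm hnm
          rw [List.mem_append] at hm
          rcases hm with hm | hm
          · have h1 := (h02 m hm).1
            have h2 := hp2 n (by simp only [List.mem_append]; exact Or.inl hn)
            omega
          · exact hN.2.2 n hn m (by simp only [List.mem_append]; exact Or.inr hm) hnm
      · intro n hn
        rw [Walk.edges_append, List.map_append, List.mem_append, Walk.edges_append,
          List.map_append, List.mem_append] at hn
        show n < q' + q
        rcases hn with hn | hn | hn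
        · have h2 := hp2 n (by simp only [List.mem_append]; exact Or.inl hn)
          omega
        · exact (h02 n hn).2
        · have h2 := hp2 n (by simp only [List.mem_append]; exact Or.inr (Or.inr hn))
          omega
  have hall : ∀ u v, RaW G c {n | n < q' + q} u v := by
    intro u v
    by_cases hu : u ∈ K
    · by_cases hv : v ∈ K
      · obtain ⟨w, h1, h2⟩ := hKw u hu v hv
        exact ⟨w, h1, fun n hn => (h2 n hn).2⟩
      · exact hKO u hu v hv
    · by_cases hv : v ∈ K
      · exact (hKO v hv u hu).symm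
      · exact hOO u hu v hv
  refine ⟨c, ?_⟩
  intro u _ v _
  obtain ⟨w, h1, h2⟩ := hall u v
  exact ⟨w, fun x _ => Set.mem_univ x, h1, fun e he => h2 _ (List.mem_map_of_mem he)⟩

/-- [RBE-RA3] the induction.
Proof. Strong induction on `Fintype.card V`. If `Irr G k` use `H`. Otherwise there are `K, q` with
`Rb G K q`, `(intr G K).Nonempty`, `k * q ≤ (intr G K).card`: `red_step`. -/
theorem bd_of_irr {k : ℕ} (hk : 1 ≤ k) {C : ℕ}
    (H : ∀ (V : Type) [Fintype V] (G : SimpleGraph V), KConn G k → Irr G k → Bd G k C) :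
    ∀ (V : Type) [Fintype V] (G : SimpleGraph V), KConn G k → Bd G k C := by
  have main : ∀ n : ℕ, ∀ (V : Type) [Fintype V] (G : SimpleGraph V), Fintype.card V = n →
      KConn G k → Bd G k C := by
    intro n
    induction n using Nat.strong_induction_on with
    | _ n ih =>
      intro V _ G hn hG
      by_cases hI : Irr G k
      · exact H V G hG hI
      · unfold Irr at hI
        push Not at hI
        obtain ⟨K, q, hK, hne, hle⟩ := hI
        exact red_step hk hG (fun V' _ G' hG' hlt => ih _ (hn ▸ hlt) V' G' rfl hG') hK hne hle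
  intro V _ G hG
  exact main _ V G rfl hG

end Pool.RBE
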