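import Pool.Agent.RBE.Base

set_option autoImplicit false

/-! [RBE-RD] descendants in a BFS forest.  All of these are elementary: with `F : Forest G D h π`,
`h (π^[t] v) = h v - t` for `t ≤ h v` (induction on `t`, `F.step`), and
`Desc h π u v ↔ h u ≤ h v ∧ π^[h v - h u] v = u`. -/

namespace Pool.RBE

open SimpleGraph Pool.Agent.RBC

theorem forest_h_iter {V : Type} {G : SimpleGraph V} {D : Set V} {h : V → ℕ} {π : V → V}
    (F : Forest G D h π) (v : V) (t : ℕ) (ht : t ≤ h v) : h (π^[t] v) = h v - t := by
  induction t with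
  | zero => simp
  | succ t ih =>
    have h1 := ih (by omega)
    rw [Function.iterate_succ_apply']
    have h2 := (F.step (π^[t] v) (by omega)).2
    omega

theorem desc_refl {V : Type} (h : V → ℕ) (π : V → V) (u : V) : Desc h π u u := by
  refine ⟨le_rfl, ?_⟩
  rw [Nat.sub_self]
  rfl

theorem desc_trans {V : Type} {h : V → ℕ} {π : V → V} {u v w : V} (huv : Desc h π u v)
    (hvw : Desc h π v w) : Desc h π u w := by
  obtain ⟨h1, h2⟩ := huv
  obtain ⟨h3, h4⟩ := hvw
  refine ⟨h1.trans h3, ?_⟩
  have h5 : h w - h u = (h v - h u) + (h w - h v) := by omega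
  rw [h5, Function.iterate_add_apply, h4, h2]

theorem desc_parent {V : Type} {G : SimpleGraph V} {D : Set V} {h : V → ℕ} {π : V → V}
    (F : Forest G D h π) {u v : V} (hv : Desc h π u v) (hne : v ≠ u) : Desc h π u (π v) := by
  obtain ⟨h1, h2⟩ := hv
  have h3 : h v ≠ h u := by
    intro he
    rw [he, Nat.sub_self] at h2
    exact hne h2
  have h4 := (F.step v (by omega)).2
  refine ⟨by omega, ?_⟩
  have h5 : h v - h u = (h (π v) - h u) + 1 := by omega
  rw [h5, Function.iterate_succ_apply] at h2
  exact h2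

theorem desc_of_parent {V : Type} {G : SimpleGraph V} {D : Set V} {h : V → ℕ} {π : V → V}
    (F : Forest G D h π) {u v : V} (hv0 : 0 < h v) (hv : Desc h π u (π v)) : Desc h π u v := by
  obtain ⟨h1, h2⟩ := hv
  have h4 := (F.step v hv0).2
  refine ⟨by omega, ?_⟩
  have h5 : h v - h u = (h (π v) - h u) + 1 := by omega
  rw [h5, Function.iterate_succ_apply]
  exact h2

theorem rd_comp {V : Type} {h : V → ℕ} {π : V → V} {u w v : V} (hu : Desc h π u v)
    (hw : Desc h π w v) (hle : h u ≤ h w) : Desc h π u w := by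
  obtain ⟨h1, h2⟩ := hu
  obtain ⟨h3, h4⟩ := hw
  refine ⟨hle, ?_⟩
  have h5 : h v - h u = (h w - h u) + (h v - h w) := by omega
  rw [h5, Function.iterate_add_apply, h4] at h2
  exact h2

/-- two ancestors of the same vertex are comparable -/
theorem desc_comparable {V : Type} {G : SimpleGraph V} {D : Set V} {h : V → ℕ} {π : V → V}
    (F : Forest G D h π) {u w v : V} (hu : Desc h π u v) (hw : Desc h π w v) :
    Desc h π u w ∨ Desc h π w u := by
  rcases le_total (h u) (h w) with hle | hle
  · exact Or.inl (rd_comp hu hw hle)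
  · exact Or.inr (rd_comp hw hu hle)

theorem desc_antisymm {V : Type} {h : V → ℕ} {π : V → V} {u v : V} (h1 : Desc h π u v)
    (h2 : Desc h π v u) : u = v := by
  have h3 : h u = h v := le_antisymm h1.1 h2.1
  have h4 := h1.2
  rw [h3, Nat.sub_self] at h4
  exact h4.symm

/-- the ancestor of height exactly `j` -/
theorem desc_level {V : Type} {G : SimpleGraph V} {D : Set V} {h : V → ℕ} {π : V → V}
    (F : Forest G D h π) {u v : V} (hv : Desc h π u v) {j : ℕ} (hj : h u ≤ j) (hjv : j ≤ h v) :
    ∃ x, h x = j ∧ Desc h π u x ∧ Desc h π x v := by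
  have h1 : h (π^[h v - j] v) = j := by
    rw [forest_h_iter F v (h v - j) (by omega)]
    omega
  have h2 : Desc h π (π^[h v - j] v) v := by
    refine ⟨by omega, ?_⟩
    rw [h1]
  exact ⟨_, h1, rd_comp hv h2 (by omega), h2⟩

/-- every vertex has an ancestor in `D` -/
theorem desc_root {V : Type} {G : SimpleGraph V} {D : Set V} {h : V → ℕ} {π : V → V}
    (F : Forest G D h π) (v : V) : ∃ d ∈ D, Desc h π d v := by
  have h1 : h (π^[h v] v) = 0 := by
    rw [forest_h_iter F v (h v) le_rfl]
    omega
  refine ⟨π^[h v] v, (F.zero _).1 h1, by omega, ?_⟩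
  rw [h1, Nat.sub_zero]

/-- the walk down to an ancestor, all of its vertices are between the two (descendants of `u`,
ancestors of `v`), its length is `h v - h u` -/
theorem desc_walk {V : Type} {G : SimpleGraph V} {D : Set V} {h : V → ℕ} {π : V → V}
    (F : Forest G D h π) {u v : V} (hv : Desc h π u v) :
    ∃ w : G.Walk v u, w.length = h v - h u ∧
      ∀ x ∈ w.support, Desc h π u x ∧ Desc h π x v := by
  obtain ⟨n, hn⟩ : ∃ n, n = h v - h u := ⟨_, rfl⟩
  induction n generalizing v with
  | zero =>
    have h1 : v = u := by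
      have h2 := hv.2
      rw [← hn] at h2
      exact h2
    subst h1
    refine ⟨Walk.nil, by simp, fun x hx => ?_⟩
    rw [Walk.support_nil, List.mem_singleton] at hx
    subst hx
    exact ⟨desc_refl _ _ _, desc_refl _ _ _⟩
  | succ n ih =>
    have hne : v ≠ u := by
      rintro rfl
      omega
    have h0 : 0 < h v := by omega
    have hs := F.step v h0
    obtain ⟨w, hw1, hw2⟩ := ih (desc_parent F hv hne) (by omega)
    refine ⟨Walk.cons hs.1 w, ?_, fun x hx => ?_⟩
    · rw [Walk.length_cons, hw1]
      omega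
    · rw [Walk.support_cons, List.mem_cons] at hx
      rcases hx with rfl | hx
      · exact ⟨hv, desc_refl _ _ _⟩
      · exact ⟨(hw2 x hx).1, desc_trans (hw2 x hx).2 (desc_of_parent F h0 (desc_refl _ _ _))⟩

theorem desc_dist {V : Type} {G : SimpleGraph V} (hc : G.Connected) {D : Set V} {h : V → ℕ}
    {π : V → V} (F : Forest G D h π) {u v : V} (hv : Desc h π u v) :
    G.dist v u ≤ h v - h u := by
  obtain ⟨w, hw, _⟩ := desc_walk F hv
  rw [← hw]
  exact dist_le w

theorem rd_walk {V : Type} {G : SimpleGraph V} {D : Set V} {h : V → ℕ} {π : V → V}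
    (F : Forest G D h π) {u v : V} (w : G.Walk u v) : h u ≤ h v + w.length := by
  induction w with
  | nil => simp
  | cons hadj w ih =>
    have h1 := F.lip _ _ hadj
    rw [Walk.length_cons]
    omega

/-- heights are 1-Lipschitz along distances -/
theorem forest_h_lip {V : Type} {G : SimpleGraph V} (hc : G.Connected) {D : Set V} {h : V → ℕ}
    {π : V → V} (F : Forest G D h π) (u v : V) : h u ≤ h v + G.dist u v := by
  obtain ⟨w, hw⟩ := hc.exists_walk_length_eq_dist u v
  rw [← hw]
  exact rd_walk F w

/-- heights are distances to `D`: lower bound -/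
theorem forest_h_le_dist {V : Type} {G : SimpleGraph V} (hc : G.Connected) {D : Set V} {h : V → ℕ}
    {π : V → V} (F : Forest G D h π) (v : V) {u : V} (hu : u ∈ D) : h v ≤ G.dist v u := by
  have h1 := forest_h_lip hc F v u
  rw [(F.zero u).2 hu, zero_add] at h1
  exact h1

/-- heights are distances to `D`: attained -/
theorem forest_h_attained {V : Type} {G : SimpleGraph V} (hc : G.Connected) {D : Set V}
    {h : V → ℕ} {π : V → V} (F : Forest G D h π) (v : V) : ∃ u ∈ D, G.dist v u = h v := by
  obtain ⟨d, hd, hdv⟩ := desc_root F v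
  refine ⟨d, hd, le_antisymm ?_ (forest_h_le_dist hc F v hd)⟩
  exact (desc_dist hc F hdv).trans (Nat.sub_le _ _)

end Pool.RBE
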