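import Pool.Agent.RBE.Base

set_option autoImplicit false

/-! [RBE-RP] growing `D` through fat balls. -/

namespace Pool.RBE

open SimpleGraph Pool.Agent.RBC

open Classical in
/-- [RBE-RP] growing `D` through fat balls.
Proof. Call `(D, X)` a state if `v ∈ D`, `X : Finset V`, `X.Nonempty`, `↑X ⊆ D`, `Rb G D ((2ρ+1)(|X| - 1))`, for all
`x ≠ y ∈ X`: `2ρ < G.dist x y`, and `M ≤ (ball G x ρ).card` for `x ∈ X`. `({v}, {v})` is a state (`rb_singleton`). Take a
state with `|X|` maximal (`|X| ≤ |V|`). Let `m = |X|`. The balls `ball G x ρ`, `x ∈ X`, are pairwise disjoint subsets of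
`nbh G D ρ`, so `m M ≤ |nbh G D ρ|`. If `x` is at distance exactly `2ρ+1` from `D` (attained at `u ∈ D`) with
`M ≤ (ball G x ρ).card`, take a walk of length `2ρ+1` from `u` to `x` and `rb_walk`: `D' = D ∪ support`, `X' = insert x X` is a
state with `|X'| = m + 1` (`G.dist x y ≥ 2ρ+1` for `y ∈ X ⊆ D`, in particular `x ∉ X`): contradiction. -/
theorem fat_process {V : Type} [Fintype V] {G : SimpleGraph V} (hc : G.Connected) (M ρ : ℕ)
    (v : V) (hM : 0 < M) (hv : M ≤ (ball G v ρ).card) :
    ∃ (D : Set V) (m : ℕ), v ∈ D ∧ 1 ≤ m ∧ Rb G D ((2 * ρ + 1) * (m - 1)) ∧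
      m * M ≤ (nbh G D ρ).card ∧
      ∀ x, (∀ u ∈ D, 2 * ρ + 1 ≤ G.dist x u) → (∃ u ∈ D, G.dist x u = 2 * ρ + 1) →
        (ball G x ρ).card < M := by
  classical
  let P : ℕ → Prop := fun m => ∃ (D : Set V) (X : Finset V), v ∈ D ∧ X.Nonempty ∧
    (∀ x ∈ X, x ∈ D) ∧ Rb G D ((2 * ρ + 1) * (X.card - 1)) ∧
    (∀ x ∈ X, ∀ y ∈ X, x ≠ y → 2 * ρ < G.dist x y) ∧ (∀ x ∈ X, M ≤ (ball G x ρ).card) ∧
    X.card = m
  have hP1 : P 1 := by
    refine ⟨{v}, {v}, rfl, Finset.singleton_nonempty v, ?_, ?_, ?_, ?_, Finset.card_singleton v⟩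
    · intro x hx
      rw [Finset.mem_singleton] at hx
      exact hx
    · rw [Finset.card_singleton, Nat.sub_self, Nat.mul_zero]
      exact rb_singleton v
    · intro x hx y hy hxy
      rw [Finset.mem_singleton] at hx hy
      exact absurd (hx.trans hy.symm) hxy
    · intro x hx
      rw [Finset.mem_singleton] at hx
      rw [hx]
      exact hv
  have hbd : ∀ m, P m → m ≤ Fintype.card V := by
    rintro m ⟨D, X, _, _, _, _, _, _, rfl⟩
    exact Finset.card_le_univ X
  obtain ⟨m, hm, hmax⟩ := Finset.exists_max_image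
    ((Finset.range (Fintype.card V + 1)).filter P) id
    ⟨1, Finset.mem_filter.2 ⟨Finset.mem_range.2 (Nat.lt_succ_of_le (hbd 1 hP1)), hP1⟩⟩
  rw [Finset.mem_filter] at hm
  obtain ⟨_, D, X, hvD, hXne, hXD, hRb, hdist, hball, hcard⟩ := hm
  subst hcard
  have hmax' : ¬ P (X.card + 1) := by
    intro hP
    have h1 := hmax (X.card + 1) (Finset.mem_filter.2
      ⟨Finset.mem_range.2 (Nat.lt_succ_of_le (hbd _ hP)), hP⟩)
    simp only [id] at h1
    omega
  refine ⟨D, X.card, hvD, Finset.card_pos.2 hXne, hRb, ?_, ?_⟩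
  · have hdisj : ∀ x ∈ X, ∀ y ∈ X, x ≠ y → Disjoint (ball G x ρ) (ball G y ρ) := by
      intro x hx y hy hxy
      rw [Finset.disjoint_left]
      intro z hz1 hz2
      simp only [ball, Finset.mem_filter, Finset.mem_univ, true_and] at hz1 hz2
      have h1 := hdist x hx y hy hxy
      have h2 := hc.dist_triangle (u := x) (v := z) (w := y)
      rw [G.dist_comm (u := z) (v := y)] at h2
      omega
    have h3 : (X.biUnion fun x => ball G x ρ) ⊆ nbh G D ρ := by
      intro z hz
      rw [Finset.mem_biUnion] at hz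
      obtain ⟨x, hx, hz⟩ := hz
      simp only [ball, Finset.mem_filter, Finset.mem_univ, true_and] at hz
      simp only [nbh, Finset.mem_filter, Finset.mem_univ, true_and]
      refine ⟨x, hXD x hx, ?_⟩
      rw [G.dist_comm]
      exact hz
    calc X.card * M ≤ ∑ x ∈ X, (ball G x ρ).card := by
          have := Finset.card_nsmul_le_sum X (fun x => (ball G x ρ).card) M hball
          simpa using this
      _ = (X.biUnion fun x => ball G x ρ).card := by
          rw [Finset.card_biUnion hdisj]
      _ ≤ (nbh G D ρ).card := Finset.card_le_card h3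
  · intro x hx1 hx2
    by_contra hlt
    rw [not_lt] at hlt
    obtain ⟨u, hu, hux⟩ := hx2
    obtain ⟨w, hw⟩ := hc.exists_walk_length_eq_dist u x
    rw [G.dist_comm, hux] at hw
    have hxX : x ∉ X := by
      intro hxX
      have h1 := hx1 x (hXD x hxX)
      rw [SimpleGraph.dist_self] at h1
      omega
    apply hmax'
    have hcX : (insert x X).card = X.card + 1 := Finset.card_insert_of_notMem hxX
    refine ⟨D ∪ {y | y ∈ w.support}, insert x X, Or.inl hvD, Finset.insert_nonempty x X,
      ?_, ?_, ?_, ?_, hcX⟩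
    · intro y hy
      rw [Finset.mem_insert] at hy
      rcases hy with rfl | hy
      · exact Or.inr w.end_mem_support
      · exact Or.inl (hXD y hy)
    · have h1 := rb_walk hRb hu w
      have h2 : (2 * ρ + 1) * ((insert x X).card - 1) =
          (2 * ρ + 1) * (X.card - 1) + w.length := by
        rw [hcX, hw]
        have h3 : X.card + 1 - 1 = (X.card - 1) + 1 := by
          have := Finset.card_pos.2 hXne
          omega
        rw [h3, Nat.mul_add, Nat.mul_one]
      rw [h2]
      exact h1
    · intro y hy z hz hyz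
      rw [Finset.mem_insert] at hy hz
      rcases hy with rfl | hy
      · rcases hz with rfl | hz
        · exact absurd rfl hyz
        · have := hx1 z (hXD z hz)
          omega
      · rcases hz with rfl | hz
        · have := hx1 y (hXD y hy)
          rw [G.dist_comm]
          omega
        · exact hdist y hy z hz hyz
    · intro y hy
      rw [Finset.mem_insert] at hy
      rcases hy with rfl | hy
      · exact hlt
      · exact hball y hy

end Pool.RBE
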