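import Mathlib

set_option autoImplicit false

/-! [RBE-RX] arithmetic: exponentials beat polynomials. -/

namespace Pool.RBE

/-- The ball bound. -/
def MM (k ρ : ℕ) : ℕ := 4 * k * (2 * ρ + 1) + 4 * k * ((3 * ρ + 2) * (18 * ρ + 13))

theorem rx_MM_le (k ρ B q : ℕ) (hB : 1 ≤ B) (h : ρ ≤ B * (q + 1)) :
    MM k ρ ≤ 632 * k * B ^ 2 * (q + 1) ^ 2 := by
  have h0 : 1 ≤ B * (q + 1) := Nat.mul_pos hB (Nat.succ_pos q)
  set x := B * (q + 1) with hx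
  have h1 : 2 * ρ + 1 ≤ 3 * (x * x) := by nlinarith
  have h2 : 3 * ρ + 2 ≤ 5 * x := by omega
  have h3 : 18 * ρ + 13 ≤ 31 * x := by omega
  have h4 : (3 * ρ + 2) * (18 * ρ + 13) ≤ (5 * x) * (31 * x) := Nat.mul_le_mul h2 h3
  have h5 : 632 * k * B ^ 2 * (q + 1) ^ 2 = 4 * k * (3 * (x * x)) + 4 * k * ((5 * x) * (31 * x)) := by
    rw [hx]
    ring
  rw [h5]
  unfold MM
  exact Nat.add_le_add (Nat.mul_le_mul_left _ h1) (Nat.mul_le_mul_left _ h4)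

theorem rx_exp (A : ℕ) : ∃ q0, 1 ≤ q0 ∧ ∀ q, q0 ≤ q → A * (q + 1) ^ 2 ≤ 2 ^ (q - 1) := by
  have h1 := tendsto_pow_const_div_const_pow_of_one_lt 2 (r := (2 : ℝ)) (by norm_num)
  have h2 : ∀ᶠ q : ℕ in Filter.atTop, (q : ℝ) ^ 2 / 2 ^ q < 1 / (8 * (A + 1)) :=
    h1.eventually_lt_const (by positivity)
  obtain ⟨q0, hq0⟩ := Filter.eventually_atTop.1 h2
  refine ⟨q0 + 1, by omega, fun q hq => ?_⟩
  have h3 := hq0 q (by omega)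
  have hq1 : 1 ≤ q := by omega
  have h4 : (q : ℝ) ^ 2 * (8 * (A + 1)) < 2 ^ q := by
    rw [div_lt_div_iff₀ (by positivity) (by positivity)] at h3
    linarith
  have h5 : q ^ 2 * (8 * (A + 1)) < 2 ^ q := by exact_mod_cast h4
  have h6 : 2 ^ q = 2 * 2 ^ (q - 1) := by
    rw [← pow_succ']
    congr 1
    omega
  have h7 : (q + 1) ^ 2 ≤ 4 * q ^ 2 := by nlinarith
  have h8 : A * (q + 1) ^ 2 ≤ A * (4 * q ^ 2) := Nat.mul_le_mul_left _ h7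
  have h9 : 2 * (A * (4 * q ^ 2)) ≤ q ^ 2 * (8 * (A + 1)) := by nlinarith
  omega

/-- [RBE-RX1] `MM k ρ` is quadratic in `ρ`, the right side is exponential. -/
theorem exists_rho (k : ℕ) (hk : 3 ≤ k) :
    ∃ ρ0, 0 < ρ0 ∧ ∀ ρ, ρ0 ≤ ρ → 8 * k * MM k ρ ≤ 3 * 2 ^ ((ρ - 1) / (6 * k + 1) - 1) := by
  obtain ⟨q0, hq1, hq0⟩ := rx_exp (8 * k * (632 * k * (6 * k + 1) ^ 2))
  refine ⟨q0 * (6 * k + 1) + 1, by omega, fun ρ hρ => ?_⟩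
  set q := (ρ - 1) / (6 * k + 1) with hq
  have hqq : q0 ≤ q := by
    rw [hq, Nat.le_div_iff_mul_le (by omega)]
    omega
  have h1 : ρ ≤ (6 * k + 1) * (q + 1) := by
    have h2 := Nat.lt_mul_div_succ (ρ - 1) (show 0 < 6 * k + 1 by omega)
    rw [← hq] at h2
    omega
  have h2 := rx_MM_le k ρ (6 * k + 1) q (by omega) h1
  have h3 := hq0 q hqq
  calc 8 * k * MM k ρ ≤ 8 * k * (632 * k * (6 * k + 1) ^ 2 * (q + 1) ^ 2) :=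
        Nat.mul_le_mul_left _ h2
    _ = 8 * k * (632 * k * (6 * k + 1) ^ 2) * (q + 1) ^ 2 := by ring
    _ ≤ 2 ^ (q - 1) := h3
    _ ≤ 3 * 2 ^ (q - 1) := Nat.le_mul_of_pos_left _ (by norm_num)

/-- [RBE-RX2] the same with a shift. -/
theorem exists_I (k : ℕ) (ρ0 R : ℕ) :
    ∃ I, 1 ≤ I ∧ ρ0 ≤ R + 1 + I * (4 * k + 1) ∧ MM k (R + 1 + I * (4 * k + 1)) ≤ 2 ^ I := by
  obtain ⟨q0, hq1, hq0⟩ := rx_exp (632 * k * (R + 4 * k + 2) ^ 2)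
  refine ⟨q0 + ρ0, by omega, ?_, ?_⟩
  · nlinarith [Nat.zero_le (q0 * (4 * k)), Nat.zero_le (ρ0 * (4 * k))]
  · have h1 : R + 1 + (q0 + ρ0) * (4 * k + 1) ≤ (R + 4 * k + 2) * (q0 + ρ0 + 1) := by
      nlinarith [Nat.zero_le (R * (q0 + ρ0)), Nat.zero_le ((q0 + ρ0) * k)]
    have h2 := rx_MM_le k _ (R + 4 * k + 2) (q0 + ρ0) (by omega) h1
    have h3 := hq0 (q0 + ρ0) (by omega)
    refine h2.trans (h3.trans ?_)
    exact Nat.pow_le_pow_right (by norm_num) (by omega)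

end Pool.RBE
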