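import Pool.Agent.RBE.RE
import Pool.Agent.RBE.RB
import Pool.Agent.RBE.RP
import Pool.Agent.RBE.RX

set_option autoImplicit false

/-! [RBE-RM] balls are small in an irreducible graph. -/

namespace Pool.RBE

open SimpleGraph Pool.Agent.RBC

theorem rm_MM_pos {k ρ : ℕ} (hk : 3 ≤ k) : 0 < MM k ρ := by
  unfold MM
  have : 0 < 4 * k * (2 * ρ + 1) := by positivity
  omega

theorem rm_I {k ρ : ℕ} (hk : 3 ≤ k)
    (hρ : 8 * k * MM k ρ ≤ 3 * 2 ^ ((ρ - 1) / (6 * k + 1) - 1)) :
    2 ≤ (ρ - 1) / (6 * k + 1) := by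
  by_contra hcon
  have h0 : (ρ - 1) / (6 * k + 1) - 1 = 0 := by omega
  rw [h0, pow_zero, mul_one] at hρ
  have h1 : 1 ≤ MM k ρ := rm_MM_pos hk
  have h2 : 8 * k * 1 ≤ 8 * k * MM k ρ := Nat.mul_le_mul_left _ h1
  omega

open Classical in
/-- levels are summed -/
theorem rm_levels {V : Type} [Fintype V] (h : V → ℕ) (s t B : ℕ)
    (hB : ∀ j, s < j → j < t → B ≤ (Finset.univ.filter (fun v => h v = j)).card) :
    (t - s - 1) * B ≤ (Finset.univ.filter (fun v => h v < t)).card := by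
  have h1 : ((Finset.univ.filter (fun v => s < h v ∧ h v < t)) : Finset V).card =
      ∑ j ∈ Finset.Ioo s t,
        ((Finset.univ.filter (fun v => s < h v ∧ h v < t)).filter (fun v => h v = j)).card := by
    refine Finset.card_eq_sum_card_fiberwise ?_
    intro v hv
    simp only [Finset.coe_filter, Finset.mem_univ, true_and, Set.mem_setOf_eq] at hv
    simp only [Finset.coe_Ioo, Set.mem_Ioo]
    exact hv
  have h2 : ∑ _j ∈ Finset.Ioo s t, B ≤ ∑ j ∈ Finset.Ioo s t,
      ((Finset.univ.filter (fun v => s < h v ∧ h v < t)).filter (fun v => h v = j)).card := by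
    refine Finset.sum_le_sum ?_
    intro j hj
    rw [Finset.mem_Ioo] at hj
    refine (hB j hj.1 hj.2).trans (Finset.card_le_card ?_)
    intro v hv
    rw [Finset.mem_filter] at hv
    rw [Finset.mem_filter, Finset.mem_filter]
    exact ⟨⟨Finset.mem_univ _, by rw [hv.2]; exact hj⟩, hv.2⟩
  rw [Finset.sum_const, Nat.card_Ioo, smul_eq_mul, ← h1] at h2
  refine h2.trans (Finset.card_le_card ?_)
  intro v hv
  rw [Finset.mem_filter] at hv ⊢
  exact ⟨hv.1, hv.2.2⟩

open Classical in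
/-- [RBE-RM] (M1) balls are small in an irreducible graph.
Proof. Let `M = MM k ρ` and suppose `M ≤ |ball v ρ|`. `fat_process` gives `D, m`. `G` is connected
(`kconn_connected`), let `(h, π)` be the forest over `D` (`exists_forest`), `c = 3ρ+2`, `a = 6k+1`,
`I = (ρ-1)/a`, `h_i = 2ρ+1+i a` for `i ≤ I`, so `h_I ≤ 3ρ`. `I ≥ 2` by the hypothesis (otherwise the right side of
`hρ` is `3`). `b i = |BVs G h π c (h_i)|`, `μ i = |{v | h v < h_i}|`, `f = (3ρ+2)(18ρ+13)`; note `6c+1 = 18ρ+13`.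
(1) for `1 ≤ i ≤ I`: `3 μ i < 4k b i`. Suppose `4k b i ≤ 3 μ i`. `closure` with `T = {v | h v ≤ h_i}`, `H = h_i ≤ c` gives `K ⊇ T`
with `Rb G K Q`, `Q = (2ρ+1)(m-1) + b i + h_i (6c+1)`, and `{v | h v < h_i} ⊆ intr G K` (neighbours have height `≤ h_i`), so
`μ i ≤ |intr G K|`; also `μ i ≥ |nbh G D ρ| ≥ m M ≥ 4k(2ρ+1) m + 4 k f` (as `m ≥ 1`), `μ i > 0`. Then
`4 k Q ≤ 4k(2ρ+1)(m-1) + 3 μ i + 4 k f ≤ 4 μ i ≤ 4 |intr G K|`: contradiction to `hI` (`k Q > |intr G K|`).
(2) `bridge_count` with `A = BVs G h π c (h_i)`, every `j` with `h_i < j < c`: `b i ≤ 2 |{v | h v = j}|`. Summing over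
`j = h_i + 1, …, h_i + a - 1`: `μ (i+1) ≥ μ i + (a-1) b i / 2`, i.e. `2 μ (i+1) ≥ 6k b i` (for `i + 1 ≤ I`).
(3) so `4k b (i+1) > 3 μ (i+1) ≥ 9 k b i`, `b (i+1) ≥ 2 b i` for `1 ≤ i < I`. Let `s = |{v | h v = 2ρ+1}|`; `μ 1 ≥ s`, so
`4 k b 1 ≥ 3 s + 1` and `4 k b I ≥ 2^(I-1) (3 s + 1)`.
(4) with `j = h_I + 1 ≤ 3ρ+1 < c`: `b I ≤ 2 |{v | h v = j}| ≤ 2 s M`, because every `v` with `h v = j` is in
`ball G x ρ` for its ancestor `x` of height `2ρ+1` (distance `j - (2ρ+1) ≤ ρ`, `desc_level`, `desc_dist`) and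
`|ball G x ρ| < M` by `fat_process` (`h x = 2ρ+1` means distance exactly `2ρ+1` from `D`).
(5) `8 k s M ≥ 4 k b I ≥ 2^(I-1) (3 s + 1) ≥ 8 k M s + 2^(I-1)` by `hρ` (`3 · 2^(I-1) ≥ 8 k M`): contradiction. -/
theorem ball_bound {k : ℕ} (hk : 3 ≤ k) {V : Type} [Fintype V] {G : SimpleGraph V}
    (hG : KConn G k) (hI : Irr G k) {ρ : ℕ} (hρ0 : 0 < ρ)
    (hρ : 8 * k * MM k ρ ≤ 3 * 2 ^ ((ρ - 1) / (6 * k + 1) - 1)) (v : V) :
    (ball G v ρ).card < MM k ρ := by
  by_contra hcon
  rw [not_lt] at hcon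
  have hMpos : 0 < MM k ρ := rm_MM_pos hk
  have hcG : G.Connected := kconn_connected hG (by omega)
  have hG3 : KConn G 3 := ⟨lt_of_le_of_lt hk hG.1, fun S hS => hG.2 S (lt_of_lt_of_le hS hk)⟩
  obtain ⟨D, m, hvD, hm1, hRbD, hmM, hfat⟩ := fat_process hcG (MM k ρ) ρ v hMpos hcon
  have hne : D.Nonempty := ⟨v, hvD⟩
  obtain ⟨h, π, F, hmin⟩ := exists_forest hcG hne
  have hI2 := rm_I hk hρ
  generalize hIdef : (ρ - 1) / (6 * k + 1) = I at hI2 hρ
  have hIa : I * (6 * k + 1) ≤ ρ - 1 := by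
    rw [← hIdef]
    exact Nat.div_mul_le_self _ _
  -- abbreviations
  let hh : ℕ → ℕ := fun i => 2 * ρ + 1 + i * (6 * k + 1)
  have hhdef : ∀ i, hh i = 2 * ρ + 1 + i * (6 * k + 1) := fun i => rfl
  have hhle : ∀ i, i ≤ I → hh i ≤ 3 * ρ := by
    intro i hi
    rw [hhdef]
    have := Nat.mul_le_mul_right (6 * k + 1) hi
    omega
  have hhsucc : ∀ i, hh (i + 1) = hh i + (6 * k + 1) := by
    intro i
    rw [hhdef, hhdef]
    ring
  let L : ℕ → ℕ := fun j => (Finset.univ.filter (fun v : V => h v = j)).card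
  let μ : ℕ → ℕ := fun i => (Finset.univ.filter (fun v : V => h v < hh i)).card
  let b : ℕ → ℕ := fun i => (BVs G h π (3 * ρ + 2) (hh i)).card
  -- lower bound for mu
  have hmu : ∀ i, m * MM k ρ ≤ μ i := by
    intro i
    refine hmM.trans (Finset.card_le_card ?_)
    intro x hx
    unfold nbh at hx
    rw [Finset.mem_filter] at hx ⊢
    obtain ⟨_, u, huD, hux⟩ := hx
    refine ⟨Finset.mem_univ _, ?_⟩
    have := hmin x u huD
    rw [hhdef]
    omega
  -- (1)
  have h1 : ∀ i, i ≤ I → 3 * μ i < 4 * k * b i := by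
    intro i hi
    by_contra hc1
    rw [not_lt] at hc1
    have hT : ∀ v ∈ Finset.univ.filter (fun v : V => h v ≤ hh i), 0 < h v →
        π v ∈ Finset.univ.filter (fun v : V => h v ≤ hh i) ∨ π v ∈ D := by
      intro v hv hv0
      left
      rw [Finset.mem_filter] at hv ⊢
      have := (F.step v hv0).2
      exact ⟨Finset.mem_univ _, by omega⟩
    have hTH : ∀ v ∈ Finset.univ.filter (fun v : V => h v ≤ hh i), h v ≤ hh i := by
      intro v hv
      rw [Finset.mem_filter] at hv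
      exact hv.2
    obtain ⟨K, hDK, hTK, hKc, hRbK⟩ := closure hcG hne F (c := 3 * ρ + 2) (by omega) hRbD
      (Finset.univ.filter (fun v : V => h v ≤ hh i)) hT (hh i) (by have := hhle i hi; omega) hTH
    have hsub : Finset.univ.filter (fun v : V => h v < hh i) ⊆ intr G K := by
      intro x hx
      rw [Finset.mem_filter] at hx
      unfold intr
      rw [Finset.mem_filter]
      refine ⟨Finset.mem_univ _, hTK ?_, ?_⟩
      · rw [Finset.mem_coe, Finset.mem_filter]
        exact ⟨Finset.mem_univ _, hx.2.le⟩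
      · intro w hw
        refine hTK ?_
        rw [Finset.mem_coe, Finset.mem_filter]
        have := F.lip w x hw.symm
        have := hx.2
        exact ⟨Finset.mem_univ _, by omega⟩
    have hcard : μ i ≤ (intr G K).card := Finset.card_le_card hsub
    have hmi := hmu i
    have hmpos : 0 < m * MM k ρ := Nat.mul_pos hm1 hMpos
    have hnei : (intr G K).Nonempty := by
      rw [← Finset.card_pos]
      omega
    have hlt := hI K _ hRbK hnei
    have hbcard : ((Finset.univ.filter (fun v : V => h v ≤ hh i)).filter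
        (fun u => BV G h π (3 * ρ + 2) u)).card = b i := by
      show _ = (BVs G h π (3 * ρ + 2) (hh i)).card
      congr 1
      unfold BVs
      ext u
      simp only [Finset.mem_filter, Finset.mem_univ, true_and]
      exact and_comm
    rw [hbcard] at hlt
    obtain ⟨m', rfl⟩ : ∃ m', m = m' + 1 := ⟨m - 1, by omega⟩
    rw [Nat.add_sub_cancel] at hlt
    have hhi := hhle i hi
    have hq : hh i * (6 * (3 * ρ + 2) + 1) ≤ (3 * ρ + 2) * (18 * ρ + 13) := by
      have e1 : 6 * (3 * ρ + 2) + 1 = 18 * ρ + 13 := by ring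
      rw [e1]
      exact Nat.mul_le_mul_right _ (by omega)
    have hM : MM k ρ = 4 * k * (2 * ρ + 1) + 4 * k * ((3 * ρ + 2) * (18 * ρ + 13)) := rfl
    have hkq : 4 * (k * (hh i * (6 * (3 * ρ + 2) + 1))) ≤
        4 * k * ((3 * ρ + 2) * (18 * ρ + 13)) := by
      calc 4 * (k * (hh i * (6 * (3 * ρ + 2) + 1))) = 4 * k * (hh i * (6 * (3 * ρ + 2) + 1)) := by
            ring
        _ ≤ _ := Nat.mul_le_mul_left _ hq
    have hx1 : μ i < k * ((2 * ρ + 1) * m' + b i + hh i * (6 * (3 * ρ + 2) + 1)) :=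
      lt_of_le_of_lt hcard hlt
    have hx2 : k * ((2 * ρ + 1) * m' + b i + hh i * (6 * (3 * ρ + 2) + 1)) =
        k * (2 * ρ + 1) * m' + k * b i + k * (hh i * (6 * (3 * ρ + 2) + 1)) := by ring
    have hx3 : (m' + 1) * MM k ρ = 4 * (k * (2 * ρ + 1) * m') + 4 * (k * (2 * ρ + 1)) +
        4 * k * ((3 * ρ + 2) * (18 * ρ + 13)) * m' + 4 * k * ((3 * ρ + 2) * (18 * ρ + 13)) := by
      rw [hM]
      ring
    have hx4 : 4 * k * b i = 4 * (k * b i) := by ring
    have hx5 : 0 ≤ 4 * k * ((3 * ρ + 2) * (18 * ρ + 13)) * m' := Nat.zero_le _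
    rw [hx2] at hx1
    rw [hx3] at hmi
    rw [hx4] at hc1
    omega
  -- (2)
  have h2 : ∀ i, ∀ j, hh i < j → j < 3 * ρ + 2 → b i ≤ 2 * L j := by
    intro i j hij hj
    have := bridge_count hG3 F hij hj (BVs G h π (3 * ρ + 2) (hh i)) (Finset.Subset.refl _)
    refine this.trans (Nat.mul_le_mul_left 2 (Finset.card_le_card ?_))
    intro x hx
    rw [Finset.mem_filter] at hx ⊢
    exact ⟨hx.1, hx.2.1⟩
  -- (3)
  have h3 : ∀ i, i + 1 ≤ I → 2 * b i ≤ b (i + 1) := by
    intro i hi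
    have hA : 6 * k * b i ≤ 2 * μ (i + 1) := by
      -- via doubled levels
      have hB : ∀ j, hh i < j → j < hh (i + 1) →
          (b i + 1) / 2 ≤ (Finset.univ.filter (fun v : V => h v = j)).card := by
        intro j hj1 hj2
        have h4 := h2 i j hj1 (by have := hhle (i + 1) hi; omega)
        have h5 : L j = (Finset.univ.filter (fun v : V => h v = j)).card := rfl
        omega
      have h6 := rm_levels h (hh i) (hh (i + 1)) _ hB
      have h7 : hh (i + 1) - hh i - 1 = 6 * k := by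
        rw [hhsucc]
        omega
      rw [h7] at h6
      have h8 : 6 * k * b i ≤ 2 * (6 * k * ((b i + 1) / 2)) := by
        have h9 : b i ≤ 2 * ((b i + 1) / 2) := by omega
        calc 6 * k * b i ≤ 6 * k * (2 * ((b i + 1) / 2)) := Nat.mul_le_mul_left _ h9
          _ = _ := by ring
      exact h8.trans (Nat.mul_le_mul_left 2 h6)
    have hB := h1 (i + 1) hi
    have hC : 4 * k * (2 * b i) ≤ 4 * k * b (i + 1) := by
      have e1 : 4 * k * (2 * b i) = 8 * (k * b i) := by ring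
      have e2 : 6 * k * b i = 6 * (k * b i) := by ring
      rw [e2] at hA
      rw [e1]
      omega
    exact Nat.le_of_mul_le_mul_left hC (by omega)
  have h3' : ∀ n, 1 + n ≤ I → 2 ^ n * b 1 ≤ b (1 + n) := by
    intro n
    induction n with
    | zero => intro _; simp
    | succ n ih =>
      intro hn
      have i1 := ih (by omega)
      have i2 := h3 (1 + n) (by omega)
      calc 2 ^ (n + 1) * b 1 = 2 * (2 ^ n * b 1) := by ring
        _ ≤ 2 * b (1 + n) := Nat.mul_le_mul_left 2 i1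
        _ ≤ b (1 + n + 1) := i2
  have hbI : 2 ^ (I - 1) * b 1 ≤ b I := by
    have := h3' (I - 1) (by omega)
    have e : 1 + (I - 1) = I := by omega
    rw [e] at this
    exact this
  have hmu1 : L (2 * ρ + 1) ≤ μ 1 := by
    refine Finset.card_le_card ?_
    intro x hx
    rw [Finset.mem_filter] at hx ⊢
    refine ⟨hx.1, ?_⟩
    rw [hhdef, hx.2]
    omega
  -- (4)
  have h4 : L (hh I + 1) ≤ L (2 * ρ + 1) * MM k ρ := by
    have hsub : Finset.univ.filter (fun v : V => h v = hh I + 1) ⊆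
        (Finset.univ.filter (fun v : V => h v = 2 * ρ + 1)).biUnion (fun x => ball G x ρ) := by
      intro x hx
      rw [Finset.mem_filter] at hx
      obtain ⟨d, hd, hdx⟩ := desc_root F x
      have hd0 : h d = 0 := (F.zero d).2 hd
      obtain ⟨y, hy1, hy2, hy3⟩ := desc_level F hdx (j := 2 * ρ + 1) (by omega)
        (by rw [hx.2, hhdef]; omega)
      rw [Finset.mem_biUnion]
      refine ⟨y, ?_, ?_⟩
      · rw [Finset.mem_filter]
        exact ⟨Finset.mem_univ _, hy1⟩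
      · unfold ball
        rw [Finset.mem_filter]
        refine ⟨Finset.mem_univ _, ?_⟩
        have hdist := desc_dist hcG F hy3
        rw [SimpleGraph.dist_comm]
        have := hhle I le_rfl
        rw [hx.2, hy1] at hdist
        omega
    calc L (hh I + 1) ≤ _ := Finset.card_le_card hsub
      _ ≤ ∑ x ∈ Finset.univ.filter (fun v : V => h v = 2 * ρ + 1), (ball G x ρ).card :=
          Finset.card_biUnion_le
      _ ≤ ∑ _x ∈ Finset.univ.filter (fun v : V => h v = 2 * ρ + 1), MM k ρ := by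
          refine Finset.sum_le_sum ?_
          intro x hx
          rw [Finset.mem_filter] at hx
          refine (hfat x ?_ ?_).le
          · intro u hu
            have := hmin x u hu
            omega
          · obtain ⟨u, hu, hu2⟩ := forest_h_attained hcG F x
            exact ⟨u, hu, by rw [hu2, hx.2]⟩
      _ = L (2 * ρ + 1) * MM k ρ := by
          rw [Finset.sum_const, smul_eq_mul]
  -- (5)
  have h5 := h2 I (hh I + 1) (by omega) (by have := hhle I le_rfl; omega)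
  have h6 := h1 1 (by omega)
  have h7 : 2 ^ (I - 1) * (3 * L (2 * ρ + 1) + 1) ≤ 4 * k * b I := by
    have e1 : 3 * L (2 * ρ + 1) + 1 ≤ 4 * k * b 1 := by omega
    calc 2 ^ (I - 1) * (3 * L (2 * ρ + 1) + 1) ≤ 2 ^ (I - 1) * (4 * k * b 1) :=
          Nat.mul_le_mul_left _ e1
      _ = 4 * k * (2 ^ (I - 1) * b 1) := by ring
      _ ≤ 4 * k * b I := Nat.mul_le_mul_left _ hbI
  have h8 : 4 * k * b I ≤ 8 * k * MM k ρ * L (2 * ρ + 1) := by
    calc 4 * k * b I ≤ 4 * k * (2 * L (hh I + 1)) := Nat.mul_le_mul_left _ h5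
      _ ≤ 4 * k * (2 * (L (2 * ρ + 1) * MM k ρ)) :=
          Nat.mul_le_mul_left _ (Nat.mul_le_mul_left 2 h4)
      _ = _ := by ring
  have h9 : 8 * k * MM k ρ * L (2 * ρ + 1) ≤ 3 * 2 ^ (I - 1) * L (2 * ρ + 1) :=
    Nat.mul_le_mul_right _ hρ
  have h10 : 0 < 2 ^ (I - 1) := Nat.pos_of_ne_zero (by positivity)
  have h11 : 2 ^ (I - 1) * (3 * L (2 * ρ + 1) + 1) =
      3 * 2 ^ (I - 1) * L (2 * ρ + 1) + 2 ^ (I - 1) := by ring
  rw [h11] at h7
  omega

end Pool.RBE
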