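import Pool.Agent.RBE.RS
import Pool.Agent.RBE.LB
import Pool.Agent.RBE.J0

set_option autoImplicit false

/-! [RBE-Y0] rainbow walks with given colours; walks inside a set. -/

namespace Pool.RBE

open SimpleGraph Pool.Agent.RBC

section
variable {V : Type} (G : SimpleGraph V)

/-- A walk from `u` to `v` inside `S` with pairwise different colours, all of them in `A`. -/
def RW (S : Set V) (col : Sym2 V → ℕ) (A : Set ℕ) (u v : V) : Prop :=
  ∃ w : G.Walk u v, (∀ x ∈ w.support, x ∈ S) ∧ (w.edges.map col).Nodup ∧ ∀ e ∈ w.edges, col e ∈ A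

/-- `x` and `y` are joined by a walk inside `S`. -/
def JS (S : Set V) (x y : V) : Prop := ∃ p : G.Walk x y, ∀ z ∈ p.support, z ∈ S

end

section
variable {V : Type} {G : SimpleGraph V}

theorem RW.refl {S : Set V} {col : Sym2 V → ℕ} {A : Set ℕ} {u : V} (hu : u ∈ S) : RW G S col A u u :=
  ⟨Walk.nil, by simpa using hu, by simp, by simp⟩

theorem RW.symm {S : Set V} {col : Sym2 V → ℕ} {A : Set ℕ} {u v : V} (h : RW G S col A u v) :
    RW G S col A v u := by
  obtain ⟨w, h1, h2, h3⟩ := h
  refine ⟨w.reverse, fun x hx => h1 x (by simpa using hx), ?_, fun e he => h3 e (by simpa using he)⟩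
  rw [Walk.edges_reverse, List.map_reverse, List.nodup_reverse]
  exact h2

theorem RW.mono {S S' : Set V} {col : Sym2 V → ℕ} {A A' : Set ℕ} {u v : V} (hS : S ⊆ S')
    (hA : A ⊆ A') (h : RW G S col A u v) : RW G S' col A' u v := by
  obtain ⟨w, h1, h2, h3⟩ := h
  exact ⟨w, fun x hx => hS (h1 x hx), h2, fun e he => hA (h3 e he)⟩

theorem RW.trans {S : Set V} {col : Sym2 V → ℕ} {A B : Set ℕ} {u v x : V} (h : RW G S col A u v)
    (h' : RW G S col B v x) (hAB : Disjoint A B) : RW G S col (A ∪ B) u x := by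
  obtain ⟨w, h1, h2, h3⟩ := h
  obtain ⟨w', h1', h2', h3'⟩ := h'
  refine ⟨w.append w', ?_, ?_, ?_⟩
  · intro y hy
    rcases (Walk.mem_support_append_iff _ _).1 hy with h | h
    · exact h1 y h
    · exact h1' y h
  · rw [Walk.edges_append, List.map_append]
    refine List.Nodup.append h2 h2' ?_
    intro i hi hi'
    rw [List.mem_map] at hi hi'
    obtain ⟨e, he, rfl⟩ := hi
    obtain ⟨e', he', hee⟩ := hi'
    exact Set.disjoint_left.1 hAB (h3 e he) (by rw [← hee]; exact h3' e' he')
  · intro e he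
    rw [Walk.edges_append, List.mem_append] at he
    rcases he with he | he
    · exact Or.inl (h3 e he)
    · exact Or.inr (h3' e he)

/-- changing the colouring outside the pairs inside `S` -/
theorem RW.congr {S : Set V} {col col' : Sym2 V → ℕ} {A : Set ℕ} {u v : V}
    (hc : ∀ a ∈ S, ∀ b ∈ S, col' s(a, b) = col s(a, b)) (h : RW G S col A u v) :
    RW G S col' A u v := by
  obtain ⟨w, h1, h2, h3⟩ := h
  have key : ∀ e ∈ w.edges, col' e = col e := by
    intro e he
    induction e using Sym2.ind with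
    | _ a b =>
      exact hc a (h1 a (Walk.fst_mem_support_of_mem_edges w he)) b
        (h1 b (Walk.snd_mem_support_of_mem_edges w he))
  refine ⟨w, h1, ?_, ?_⟩
  · rw [List.map_congr_left key]
    exact h2
  · intro e he
    rw [key e he]
    exact h3 e he

theorem rb_of_rw {D : Set V} {col : Sym2 V → ℕ} {q : ℕ}
    (h : ∀ u ∈ D, ∀ v ∈ D, RW G D col {i | i < q} u v) : Rb G D q :=
  ⟨col, fun u hu v hv => by
    obtain ⟨w, h1, h2, h3⟩ := h u hu v hv
    exact ⟨w, h1, h2, h3⟩⟩

theorem JS.refl {S : Set V} {x : V} (h : x ∈ S) : JS G S x x :=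
  ⟨Walk.nil, by simpa using h⟩

theorem JS.symm {S : Set V} {x y : V} (h : JS G S x y) : JS G S y x := by
  obtain ⟨p, hp⟩ := h
  exact ⟨p.reverse, fun z hz => hp z (by simpa using hz)⟩

theorem JS.trans {S : Set V} {x y z : V} (h : JS G S x y) (h' : JS G S y z) : JS G S x z := by
  obtain ⟨p, hp⟩ := h
  obtain ⟨q, hq⟩ := h'
  refine ⟨p.append q, fun v hv => ?_⟩
  rcases (Walk.mem_support_append_iff _ _).1 hv with h | h
  · exact hp v h
  · exact hq v h

theorem JS.left {S : Set V} {x y : V} (h : JS G S x y) : x ∈ S := by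
  obtain ⟨p, hp⟩ := h
  exact hp x p.start_mem_support

theorem JS.right {S : Set V} {x y : V} (h : JS G S x y) : y ∈ S := by
  obtain ⟨p, hp⟩ := h
  exact hp y p.end_mem_support

theorem JS.adj {S : Set V} {x y : V} (h : G.Adj x y) (hx : x ∈ S) (hy : y ∈ S) : JS G S x y := by
  refine ⟨Walk.cons h Walk.nil, fun z hz => ?_⟩
  have : z = x ∨ z = y := by simpa using hz
  rcases this with rfl | rfl
  · exact hx
  · exact hy

end

end Pool.RBE
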