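import Pool.Agent.RBE.Y0

set_option autoImplicit false

/-! [RBE-Y1] the arch colouring. -/

namespace Pool.RBE

open SimpleGraph Pool.Agent.RBC

private theorem y1_inj {α : Type} (T : Finset α) (U : Finset ℕ) (h : T.card ≤ U.card) :
    ∃ f : α → ℕ, (∀ e ∈ T, f e ∈ U) ∧ ∀ e ∈ T, ∀ e' ∈ T, f e = f e' → e = e' := by
  classical
  have h1 : Fintype.card T ≤ Fintype.card U := by
    rw [Fintype.card_coe, Fintype.card_coe]
    exact h
  obtain ⟨g⟩ := Function.Embedding.nonempty_of_card_le h1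
  refine ⟨fun e => if h : e ∈ T then (g ⟨e, h⟩ : ℕ) else 0, ?_, ?_⟩
  · intro e he
    simp only [dif_pos he]
    exact (g ⟨e, he⟩).2
  · intro e he e' he' hee
    simp only [dif_pos he, dif_pos he'] at hee
    have h2 := g.injective (Subtype.ext hee)
    exact congrArg Subtype.val h2

private theorem y1_seq_walk {V : Type} {G : SimpleGraph V} (P : ℕ → V) (n : ℕ) :
    ∀ (i : ℕ), (∀ t, i ≤ t → t < i + n → G.Adj (P t) (P (t+1))) →
    ∃ w : G.Walk (P i) (P (i + n)), (∀ x ∈ w.support, ∃ t, i ≤ t ∧ t ≤ i + n ∧ x = P t) ∧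
      w.edges = (List.range' i n).map (fun t => s(P t, P (t+1))) := by
  induction n with
  | zero =>
    intro i _
    refine ⟨Walk.nil, ?_, ?_⟩
    · intro x hx
      refine ⟨i, le_rfl, by omega, ?_⟩
      simpa using hx
    · simp
  | succ n ih =>
    intro i h
    have h1 := h i le_rfl (by omega)
    obtain ⟨w, hw1, hw2⟩ := ih (i+1) (fun t h1 h2 => h t (by omega) (by omega))
    refine ⟨Walk.cons h1 (w.copy rfl (by congr 1; omega)), ?_, ?_⟩
    · intro x hx
      rw [Walk.support_cons, Walk.support_copy] at hx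
      rcases List.mem_cons.1 hx with rfl | hx
      · exact ⟨i, le_rfl, by omega, rfl⟩
      · obtain ⟨t, h1, h2, h3⟩ := hw1 x hx
        exact ⟨t, by omega, by omega, h3⟩
    · rw [Walk.edges_cons, Walk.edges_copy, hw2, List.range'_succ]
      simp

private theorem y1_seq {V : Type} {G : SimpleGraph V} {c : Sym2 V → ℕ} {D : Set V} (P : ℕ → V)
    (i j : ℕ) (hij : i ≤ j) (f : ℕ → ℕ)
    (hadj : ∀ t, i ≤ t → t < j → G.Adj (P t) (P (t + 1)))
    (hD : ∀ t, i ≤ t → t ≤ j → P t ∈ D)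
    (hc : ∀ t, i ≤ t → t < j → c s(P t, P (t + 1)) = f t)
    (hinj : ∀ t t', i ≤ t → t < t' → t' < j → f t ≠ f t') :
    RW G D c {z | ∃ t, i ≤ t ∧ t < j ∧ z = f t} (P i) (P j) := by
  obtain ⟨n, rfl⟩ : ∃ n, j = i + n := ⟨j - i, by omega⟩
  obtain ⟨w, hw1, hw2⟩ := y1_seq_walk P n i hadj
  refine ⟨w, ?_, ?_, ?_⟩
  · intro x hx
    obtain ⟨t, h1, h2, rfl⟩ := hw1 x hx
    exact hD t h1 h2
  · rw [hw2, List.map_map]
    refine List.Nodup.map_on ?_ List.nodup_range'
    intro t ht t' ht' htt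
    rw [List.mem_range'_1] at ht ht'
    simp only [Function.comp] at htt
    rw [hc t ht.1 ht.2, hc t' ht'.1 ht'.2] at htt
    rcases lt_trichotomy t t' with h | h | h
    · exact absurd htt (hinj t t' ht.1 h ht'.2)
    · exact h
    · exact absurd htt.symm (hinj t' t ht'.1 h ht.2)
  · intro e he
    rw [hw2] at he
    obtain ⟨t, ht, rfl⟩ := List.mem_map.1 he
    rw [List.mem_range'_1] at ht
    exact ⟨t, ht.1, ht.2, hc t ht.1 ht.2⟩

/-- a walk with edges in `T`, coloured injectively -/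
private theorem y1_tree {V : Type} {G : SimpleGraph V} {c : Sym2 V → ℕ} {Z D : Set V}
    {T : Finset (Sym2 V)} (hZD : Z ⊆ D) {A : Set ℕ} (hA : ∀ e ∈ T, c e ∈ A)
    (hinj : ∀ e ∈ T, ∀ e' ∈ T, c e = c e' → e = e')
    (hT : ∀ u ∈ Z, ∀ v ∈ Z, ∃ w : G.Walk u v, (∀ z ∈ w.support, z ∈ Z) ∧ ∀ e ∈ w.edges, e ∈ T)
    {u v : V} (hu : u ∈ Z) (hv : v ∈ Z) : RW G D c A u v := by
  classical
  obtain ⟨w, h1, h2⟩ := hT u hu v hv
  have hsub : ∀ e ∈ w.bypass.edges, e ∈ T := fun e he => h2 e (w.edges_bypass_subset_edges he)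
  refine ⟨w.bypass, ?_, ?_, ?_⟩
  · intro x hx
    exact hZD (h1 x (w.support_bypass_subset_support hx))
  · refine List.Nodup.map_on ?_ w.bypass_isPath.isTrail.edges_nodup
    intro e he e' he' hee
    exact hinj e (hsub e he) e' (hsub e' he') hee
  · intro e he
    exact hA e (hsub e he)

/-- [RBE-Y1] the arch colouring. `H` is a host, rainbow connected by the colouring `col` with the colours `< q`; every
vertex of `H` is reached from one of the feet `f0, f1` without the colours of `Ga`, or without those of `Gb`. `Z` is a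
blob outside `H` with two connected spanning edge sets `T1, T2`; `x` (from `f0`) and `y` (from `f1`) are two legs, i.e. paths from
the feet to `Z`.
Proof. `N = max p r`; let `ia : Sym2 V → ℕ` be injective on `T1` with values in `Ga` (`T1.card ≤ Ga.card`), `ib` injective on `T2`
with values in `Gb`, `ic` injective on `T1 ∩ T2` with values `< d`. The new colouring `col'` of an edge `e`:
 (1) both ends in `H`: `col e`; (2) `e ∈ T1 ∩ T2`: `q + N + ic e`; (3) `e ∈ T1`: `ia e`; (4) `e ∈ T2`: `ib e`;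
 (5) `e = s(x t, x (t+1))`, `t < p`: `q + t`; (6) `e = s(y t, y (t+1))`, `t < r`: `q + (N - 1 - t)`; otherwise `0`.
The cases are exclusive: an edge of a leg has an end outside `H` (its upper end) and an end outside `Z` (its lower end:
`x 0 = f0 ∈ H`, `x i ∉ Z` for `0 < i < p`); the edges of `T1, T2` are inside `Z`, disjoint from `H`; for `t, t' < p` the edges
`s(x t, x (t+1))`, `s(x t', x (t'+1))` are different for `t ≠ t'` (`hxinj`), the same for `y`; an edge of leg `x` is not an edge of leg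
`y`: it contains `x t` with `t < p`, and for the edge `s(y t', y (t'+1))`: `x t = y t'` is excluded by `hxy`, so `x t = y (t'+1)` with
`t' + 1 = r`, but `x t ∉ Z` (`0 < t`) or `x t ∈ H` (`t = 0`), whereas `y r ∈ Z`: impossible.
Let `D` be the set in the conclusion, `P = {i | q + N ≤ i ∧ i < q + N + d}`. Rainbow walks in `D` (`RW G D col'`):
 (a) `u, v ∈ H`: colours `{i | i < q}`; and from `f0` or `f1` to `y ∈ H` as in `hpal` (`RW.congr`, `RW.mono`);
 (b) `z, z' ∈ Z`: via `T1` (make the walk of `hT1` a path by `Walk.bypass`/`toPath`, its edges are a subset): colours in `Ga ∪ P`;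
     via `T2`: colours in `Gb ∪ P`. Different edges have different colours (`ia`, `ic` injective, `Ga` below `q`).
 (c) for `i ≤ j ≤ p`: from `x i` to `x j` along the leg: colours `{q + t | i ≤ t < j}`; for `i ≤ j ≤ r`: from `y i` to `y j`:
     colours `{q + (N-1-t) | i ≤ t < j}` (induction on `j`, `RW.trans`).
Pairs: `H, H`: (a). `H, Z`: `y ∈ H`, say reached from `f0` without `Ga`: `y` — `f0` — leg `x` — `x p` — (via `T1`) — `z`: the colour
sets `{i < q, i ∉ Ga}`, `{q + t | t < p}`, `Ga ∪ P` are pairwise disjoint. (Same with `f1`, leg `y`; with `Gb` use `T2`.)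
`H`, leg: `y` — `f0` (all colours `< q`) — up the leg. `Z, Z`: (b). `Z`, leg: `z` — (via `T1`) — `x p` — down the leg.
Same leg: (c). `x i` and `y j`: if `N ≤ i + j`: up leg `x` (`{q + t | i ≤ t < p}`), through `Z` via `T1`, down leg `y`
(`{q + (N-1-t) | j ≤ t < r}`; `N-1-t ≤ N-1-j < i`): disjoint. If `i + j ≤ N`: down leg `x` (`{q+t | t < i}`), `f0` — `f1` in `H`, up leg
`y` (`{q + (N-1-t) | t < j}`; `N-1-t ≥ N-j ≥ i`): disjoint. All colours are `< q + N + d`: `rb_of_rw`. -/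
theorem arch_colour {V : Type} {G : SimpleGraph V} {H : Set V} {col : Sym2 V → ℕ} {q : ℕ}
    (hH : ∀ u ∈ H, ∀ v ∈ H, RW G H col {i | i < q} u v)
    {Ga Gb : Finset ℕ} (hGa : ∀ i ∈ Ga, i < q) (hGb : ∀ i ∈ Gb, i < q) (hab : Disjoint Ga Gb)
    {f0 f1 : V} (hf0 : f0 ∈ H) (hf1 : f1 ∈ H)
    (hpal : ∀ v ∈ H, (RW G H col {i | i < q ∧ i ∉ Ga} f0 v ∨ RW G H col {i | i < q ∧ i ∉ Ga} f1 v) ∨
      (RW G H col {i | i < q ∧ i ∉ Gb} f0 v ∨ RW G H col {i | i < q ∧ i ∉ Gb} f1 v))
    {Z : Set V} (hZH : ∀ z ∈ Z, z ∉ H) {T1 T2 : Finset (Sym2 V)}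
    (hT1Z : ∀ e ∈ T1, ∀ v ∈ e, v ∈ Z) (hT2Z : ∀ e ∈ T2, ∀ v ∈ e, v ∈ Z)
    (hT1 : ∀ u ∈ Z, ∀ v ∈ Z, ∃ w : G.Walk u v, (∀ z ∈ w.support, z ∈ Z) ∧ ∀ e ∈ w.edges, e ∈ T1)
    (hT2 : ∀ u ∈ Z, ∀ v ∈ Z, ∃ w : G.Walk u v, (∀ z ∈ w.support, z ∈ Z) ∧ ∀ e ∈ w.edges, e ∈ T2)
    (hc1 : T1.card ≤ Ga.card) (hc2 : T2.card ≤ Gb.card) {d : ℕ}
    (hd : ∀ T : Finset (Sym2 V), (∀ e ∈ T, e ∈ T1 ∧ e ∈ T2) → T.card ≤ d)
    {p r : ℕ} {x y : ℕ → V} (hx0 : x 0 = f0) (hy0 : y 0 = f1) (hxp : x p ∈ Z) (hyr : y r ∈ Z)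
    (hxa : ∀ i, i < p → G.Adj (x i) (x (i + 1))) (hya : ∀ i, i < r → G.Adj (y i) (y (i + 1)))
    (hxi : ∀ i, 0 < i → i < p → x i ∉ H ∧ x i ∉ Z) (hyi : ∀ i, 0 < i → i < r → y i ∉ H ∧ y i ∉ Z)
    (hxinj : ∀ i j, i ≤ p → j ≤ p → x i = x j → i = j)
    (hyinj : ∀ i j, i ≤ r → j ≤ r → y i = y j → i = j)
    (hxy : ∀ i j, i < p → j < r → x i ≠ y j) :
    Rb G (H ∪ Z ∪ {v | ∃ i, i ≤ p ∧ v = x i} ∪ {v | ∃ i, i ≤ r ∧ v = y i}) (q + max p r + d) := by
  classical
  obtain ⟨N, hN⟩ : ∃ N, N = max p r := ⟨_, rfl⟩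
  have hpN : p ≤ N := by rw [hN]; exact le_max_left _ _
  have hrN : r ≤ N := by rw [hN]; exact le_max_right _ _
  rw [← hN]
  obtain ⟨ia, hia1, hia2⟩ := y1_inj T1 Ga hc1
  obtain ⟨ib, hib1, hib2⟩ := y1_inj T2 Gb hc2
  obtain ⟨ic, hic1, hic2⟩ := y1_inj (T1.filter (fun e => e ∈ T2)) (Finset.range d) (by
    rw [Finset.card_range]
    exact hd _ (fun e he => Finset.mem_filter.1 he))
  -- the colouring
  set col' : Sym2 V → ℕ := fun e =>
    if ∀ v ∈ e, v ∈ H then col e
    else if e ∈ T1 ∧ e ∈ T2 then q + N + ic e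
    else if e ∈ T1 then ia e
    else if e ∈ T2 then ib e
    else if hX : ∃ t, t < p ∧ e = s(x t, x (t + 1)) then q + hX.choose
    else if hY : ∃ t, t < r ∧ e = s(y t, y (t + 1)) then q + (N - 1 - hY.choose)
    else 0 with hcol'
  have hnH1 : ∀ e : Sym2 V, (∀ v ∈ e, v ∈ Z) → ¬ ∀ v ∈ e, v ∈ H := by
    intro e he h
    induction e using Sym2.ind with
    | _ a b => exact hZH a (he a (Sym2.mem_mk_left a b)) (h a (Sym2.mem_mk_left a b))
  have C1 : ∀ a ∈ H, ∀ b ∈ H, col' s(a, b) = col s(a, b) := by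
    intro a ha b hb
    rw [hcol']
    simp only
    rw [if_pos]
    intro v hv
    rcases Sym2.mem_iff.1 hv with rfl | rfl
    · exact ha
    · exact hb
  have C2 : ∀ e ∈ T1, e ∈ T2 → col' e = q + N + ic e := by
    intro e h1 h2
    rw [hcol']
    simp only
    rw [if_neg (hnH1 e (hT1Z e h1)), if_pos ⟨h1, h2⟩]
  have C3 : ∀ e ∈ T1, e ∉ T2 → col' e = ia e := by
    intro e h1 h2
    rw [hcol']
    simp only
    rw [if_neg (hnH1 e (hT1Z e h1)), if_neg (fun h => h2 h.2), if_pos h1]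
  have C4 : ∀ e ∈ T2, e ∉ T1 → col' e = ib e := by
    intro e h1 h2
    rw [hcol']
    simp only
    rw [if_neg (hnH1 e (hT2Z e h1)), if_neg (fun h => h2 h.1), if_neg h2, if_pos h1]
  -- vertices of the legs
  have hxZ : ∀ t, t < p → x t ∉ Z := by
    intro t ht hz
    rcases Nat.eq_zero_or_pos t with h | h
    · rw [h, hx0] at hz
      exact hZH _ hz hf0
    · exact (hxi t h ht).2 hz
  have hyZ : ∀ t, t < r → y t ∉ Z := by
    intro t ht hz
    rcases Nat.eq_zero_or_pos t with h | h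
    · rw [h, hy0] at hz
      exact hZH _ hz hf1
    · exact (hyi t h ht).2 hz
  have hxH : ∀ t, t < p → x (t + 1) ∉ H := by
    intro t ht hz
    rcases Nat.lt_or_ge (t + 1) p with h | h
    · exact (hxi (t + 1) (Nat.succ_pos t) h).1 hz
    · have : t + 1 = p := by omega
      rw [this] at hz
      exact hZH _ hxp hz
  have hyH : ∀ t, t < r → y (t + 1) ∉ H := by
    intro t ht hz
    rcases Nat.lt_or_ge (t + 1) r with h | h
    · exact (hyi (t + 1) (Nat.succ_pos t) h).1 hz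
    · have : t + 1 = r := by omega
      rw [this] at hz
      exact hZH _ hyr hz
  have C5 : ∀ t, t < p → col' s(x t, x (t + 1)) = q + t := by
    intro t ht
    have e1 : ¬ ∀ v ∈ s(x t, x (t + 1)), v ∈ H := fun h => hxH t ht (h _ (Sym2.mem_mk_right _ _))
    have e2 : s(x t, x (t + 1)) ∉ T1 := fun h => hxZ t ht (hT1Z _ h _ (Sym2.mem_mk_left _ _))
    have e3 : s(x t, x (t + 1)) ∉ T2 := fun h => hxZ t ht (hT2Z _ h _ (Sym2.mem_mk_left _ _))
    have e4 : ∃ t', t' < p ∧ s(x t, x (t + 1)) = s(x t', x (t' + 1)) := ⟨t, ht, rfl⟩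
    have e5 : e4.choose = t := by
      obtain ⟨h1, h2⟩ := e4.choose_spec
      rw [Sym2.eq_iff] at h2
      rcases h2 with ⟨h2, -⟩ | ⟨h2, h3⟩
      · exact (hxinj _ _ (by omega) (by omega) h2).symm
      · have h4 := hxinj _ _ (by omega) (by omega) h2
        have h5 := hxinj _ _ (by omega) (by omega) h3
        omega
    rw [hcol']
    simp only
    rw [if_neg e1, if_neg (fun h => e2 h.1), if_neg e2, if_neg e3, dif_pos e4, e5]
  have C6 : ∀ t, t < r → col' s(y t, y (t + 1)) = q + (N - 1 - t) := by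
    intro t ht
    have e1 : ¬ ∀ v ∈ s(y t, y (t + 1)), v ∈ H := fun h => hyH t ht (h _ (Sym2.mem_mk_right _ _))
    have e2 : s(y t, y (t + 1)) ∉ T1 := fun h => hyZ t ht (hT1Z _ h _ (Sym2.mem_mk_left _ _))
    have e3 : s(y t, y (t + 1)) ∉ T2 := fun h => hyZ t ht (hT2Z _ h _ (Sym2.mem_mk_left _ _))
    have e3' : ¬ ∃ t', t' < p ∧ s(y t, y (t + 1)) = s(x t', x (t' + 1)) := by
      rintro ⟨t', h1, h2⟩
      rw [Sym2.eq_iff] at h2
      rcases h2 with ⟨h2, -⟩ | ⟨h2, -⟩
      · exact hxy t' t h1 ht h2.symm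
      · rcases Nat.lt_or_ge (t' + 1) p with h | h
        · exact hxy (t' + 1) t h ht h2.symm
        · have h3 : t' + 1 = p := by omega
          rw [h3] at h2
          apply hyZ t ht
          rw [h2]
          exact hxp
    have e4 : ∃ t', t' < r ∧ s(y t, y (t + 1)) = s(y t', y (t' + 1)) := ⟨t, ht, rfl⟩
    have e5 : e4.choose = t := by
      obtain ⟨h1, h2⟩ := e4.choose_spec
      rw [Sym2.eq_iff] at h2
      rcases h2 with ⟨h2, -⟩ | ⟨h2, h3⟩
      · exact (hyinj _ _ (by omega) (by omega) h2).symm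
      · have h4 := hyinj _ _ (by omega) (by omega) h2
        have h5 := hyinj _ _ (by omega) (by omega) h3
        omega
    rw [hcol']
    simp only
    rw [if_neg e1, if_neg (fun h => e2 h.1), if_neg e2, if_neg e3, dif_neg e3', dif_pos e4, e5]
  clear_value col'
  set D : Set V := H ∪ Z ∪ {v | ∃ i, i ≤ p ∧ v = x i} ∪ {v | ∃ i, i ≤ r ∧ v = y i} with hD
  have hHD : H ⊆ D := fun v hv => Or.inl (Or.inl (Or.inl hv))
  have hZD : Z ⊆ D := fun v hv => Or.inl (Or.inl (Or.inr hv))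
  have hxD : ∀ i, i ≤ p → x i ∈ D := fun i hi => Or.inl (Or.inr ⟨i, hi, rfl⟩)
  have hyD : ∀ i, i ≤ r → y i ∈ D := fun i hi => Or.inr ⟨i, hi, rfl⟩
  -- colour sets
  set P : Set ℕ := {i | q + N ≤ i ∧ i < q + N + d} with hP
  set M : Set ℕ := {i | q ≤ i ∧ i < q + N} with hM
  have hic : ∀ e ∈ T1, e ∈ T2 → ic e < d := fun e h1 h2 =>
    Finset.mem_range.1 (hic1 e (Finset.mem_filter.2 ⟨h1, h2⟩))
  have W1 : ∀ z ∈ Z, ∀ z' ∈ Z, RW G D col' ({i | i ∈ Ga} ∪ P) z z' := by
    intro z hz z' hz'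
    refine y1_tree hZD ?_ ?_ hT1 hz hz'
    · intro e he
      by_cases h2 : e ∈ T2
      · rw [C2 e he h2]
        have := hic e he h2
        right
        exact ⟨by omega, by omega⟩
      · rw [C3 e he h2]
        left
        exact hia1 e he
    · intro e he e' he' hee
      by_cases h2 : e ∈ T2 <;> by_cases h2' : e' ∈ T2
      · rw [C2 e he h2, C2 e' he' h2'] at hee
        exact hic2 e (Finset.mem_filter.2 ⟨he, h2⟩) e' (Finset.mem_filter.2 ⟨he', h2'⟩) (by omega)
      · rw [C2 e he h2, C3 e' he' h2'] at hee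
        have := hGa _ (hia1 e' he')
        omega
      · rw [C3 e he h2, C2 e' he' h2'] at hee
        have := hGa _ (hia1 e he)
        omega
      · rw [C3 e he h2, C3 e' he' h2'] at hee
        exact hia2 e he e' he' hee
  have W2 : ∀ z ∈ Z, ∀ z' ∈ Z, RW G D col' ({i | i ∈ Gb} ∪ P) z z' := by
    intro z hz z' hz'
    refine y1_tree hZD ?_ ?_ hT2 hz hz'
    · intro e he
      by_cases h2 : e ∈ T1
      · rw [C2 e h2 he]
        have := hic e h2 he
        right
        exact ⟨by omega, by omega⟩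
      · rw [C4 e he h2]
        left
        exact hib1 e he
    · intro e he e' he' hee
      by_cases h2 : e ∈ T1 <;> by_cases h2' : e' ∈ T1
      · rw [C2 e h2 he, C2 e' h2' he'] at hee
        exact hic2 e (Finset.mem_filter.2 ⟨h2, he⟩) e' (Finset.mem_filter.2 ⟨h2', he'⟩) (by omega)
      · rw [C2 e h2 he, C4 e' he' h2'] at hee
        have := hGb _ (hib1 e' he')
        omega
      · rw [C4 e he h2, C2 e' h2' he'] at hee
        have := hGb _ (hib1 e he)
        omega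
      · rw [C4 e he h2, C4 e' he' h2'] at hee
        exact hib2 e he e' he' hee
  have W3 : ∀ (A : Set ℕ) (u v : V), RW G H col A u v → RW G D col' A u v := fun A u v h =>
    RW.mono hHD (fun _ h => h) (RW.congr C1 h)
  have W4 : ∀ i j, i ≤ j → j ≤ p → RW G D col' {c | ∃ t, i ≤ t ∧ t < j ∧ c = q + t} (x i) (x j) := by
    intro i j hij hj
    exact y1_seq x i j hij (fun t => q + t) (fun t _ h => hxa t (by omega))
      (fun t _ h => hxD t (by omega)) (fun t _ h => C5 t (by omega)) (fun t t' _ h _ => by omega)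
  have W5 : ∀ i j, i ≤ j → j ≤ r →
      RW G D col' {c | ∃ t, i ≤ t ∧ t < j ∧ c = q + (N - 1 - t)} (y i) (y j) := by
    intro i j hij hj
    exact y1_seq y i j hij (fun t => q + (N - 1 - t)) (fun t _ h => hya t (by omega))
      (fun t _ h => hyD t (by omega)) (fun t _ h => C6 t (by omega)) (fun t t' _ h _ => by omega)
  have W4' : ∀ i j, i ≤ j → j ≤ p → RW G D col' M (x i) (x j) := by
    intro i j hij hj
    refine RW.mono (fun _ h => h) ?_ (W4 i j hij hj)
    rintro c ⟨t, h1, h2, rfl⟩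
    exact ⟨by omega, by omega⟩
  have W5' : ∀ i j, i ≤ j → j ≤ r → RW G D col' M (y i) (y j) := by
    intro i j hij hj
    refine RW.mono (fun _ h => h) ?_ (W5 i j hij hj)
    rintro c ⟨t, h1, h2, rfl⟩
    exact ⟨by omega, by omega⟩
  set U : Set ℕ := {i | i < q + N + d} with hU
  -- disjointness and inclusions
  have dLM : Disjoint {i : ℕ | i < q} M := by
    rw [Set.disjoint_left]
    intro i h1 h2
    have h1' : i < q := h1
    have h2' : q ≤ i := h2.1
    omega
  have dMa : Disjoint M ({i | i ∈ Ga} ∪ P) := by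
    rw [Set.disjoint_left]
    rintro i ⟨h1, h1'⟩ (h2 | ⟨h2, h2'⟩)
    · have := hGa i h2
      omega
    · omega
  have sLM : {i : ℕ | i < q} ∪ M ⊆ U := by
    rintro i (h | ⟨h, h'⟩)
    · have h1 : i < q := h
      change i < q + N + d
      omega
    · change i < q + N + d
      omega
  have sMa : M ∪ ({i | i ∈ Ga} ∪ P) ⊆ U := by
    rintro i (⟨h, h'⟩ | (h | ⟨h, h'⟩))
    · change i < q + N + d
      omega
    · have := hGa i h
      change i < q + N + d
      omega
    · exact h'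
  have sMU : M ⊆ U := fun i h => sLM (Or.inr h)
  have sPU : ({i | i ∈ Ga} ∪ P) ⊆ U := fun i h => sMa (Or.inr h)
  -- pairs
  have PHH : ∀ u ∈ H, ∀ v ∈ H, RW G D col' U u v := fun u hu v hv =>
    RW.mono (fun _ h => h) (fun i h => sLM (Or.inl h)) (W3 _ u v (hH u hu v hv))
  have PHZ : ∀ u ∈ H, ∀ z ∈ Z, RW G D col' U u z := by
    intro u hu z hz
    have hgen : ∀ (Gc : Finset ℕ), (∀ i ∈ Gc, i < q) → ∀ (f zz : V),
        RW G H col {i | i < q ∧ i ∉ Gc} f u → RW G D col' M f zz →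
        RW G D col' ({i | i ∈ Gc} ∪ P) zz z → RW G D col' U u z := by
      intro Gc hGc f zz h1 h2 h3
      have h4 := RW.trans (RW.symm (W3 _ _ _ h1)) h2 (by
        rw [Set.disjoint_left]
        rintro i ⟨h1, h1'⟩ ⟨h2, h2'⟩
        omega)
      have h5 := RW.trans h4 h3 (by
        rw [Set.disjoint_left]
        rintro i (⟨h1, h1'⟩ | ⟨h1, h1'⟩) (h2 | ⟨h2, h2'⟩)
        · exact h1' h2
        · omega
        · have := hGc i h2
          omega
        · omega)
      refine RW.mono (fun _ h => h) ?_ h5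
      rintro i ((⟨h1, h1'⟩ | ⟨h1, h1'⟩) | (h2 | ⟨h2, h2'⟩))
      · change i < q + N + d
        omega
      · change i < q + N + d
        omega
      · have := hGc i h2
        change i < q + N + d
        omega
      · exact h2'
    have hX : RW G D col' M f0 (x p) := by
      rw [← hx0]
      exact W4' 0 p (Nat.zero_le _) le_rfl
    have hY : RW G D col' M f1 (y r) := by
      rw [← hy0]
      exact W5' 0 r (Nat.zero_le _) le_rfl
    rcases hpal u hu with (h | h) | (h | h)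
    · exact hgen Ga hGa f0 (x p) h hX (W1 _ hxp z hz)
    · exact hgen Ga hGa f1 (y r) h hY (W1 _ hyr z hz)
    · exact hgen Gb hGb f0 (x p) h hX (W2 _ hxp z hz)
    · exact hgen Gb hGb f1 (y r) h hY (W2 _ hyr z hz)
  have PHX : ∀ u ∈ H, ∀ i, i ≤ p → RW G D col' U u (x i) := by
    intro u hu i hi
    have h1 := W3 _ u f0 (hH u hu f0 hf0)
    have h2 := W4' 0 i (Nat.zero_le _) hi
    rw [hx0] at h2
    exact RW.mono (fun _ h => h) sLM (RW.trans h1 h2 dLM)
  have PHY : ∀ u ∈ H, ∀ i, i ≤ r → RW G D col' U u (y i) := by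
    intro u hu i hi
    have h1 := W3 _ u f1 (hH u hu f1 hf1)
    have h2 := W5' 0 i (Nat.zero_le _) hi
    rw [hy0] at h2
    exact RW.mono (fun _ h => h) sLM (RW.trans h1 h2 dLM)
  have PZZ : ∀ z ∈ Z, ∀ z' ∈ Z, RW G D col' U z z' := fun z hz z' hz' =>
    RW.mono (fun _ h => h) sPU (W1 z hz z' hz')
  have PXZ : ∀ i, i ≤ p → ∀ z ∈ Z, RW G D col' U (x i) z := fun i hi z hz =>
    RW.mono (fun _ h => h) sMa (RW.trans (W4' i p hi le_rfl) (W1 _ hxp z hz) dMa)
  have PYZ : ∀ i, i ≤ r → ∀ z ∈ Z, RW G D col' U (y i) z := fun i hi z hz =>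
    RW.mono (fun _ h => h) sMa (RW.trans (W5' i r hi le_rfl) (W1 _ hyr z hz) dMa)
  have PXX : ∀ i, i ≤ p → ∀ j, j ≤ p → RW G D col' U (x i) (x j) := by
    intro i hi j hj
    rcases le_total i j with h | h
    · exact RW.mono (fun _ h => h) sMU (W4' i j h hj)
    · exact RW.mono (fun _ h => h) sMU (RW.symm (W4' j i h hi))
  have PYY : ∀ i, i ≤ r → ∀ j, j ≤ r → RW G D col' U (y i) (y j) := by
    intro i hi j hj
    rcases le_total i j with h | h
    · exact RW.mono (fun _ h => h) sMU (W5' i j h hj)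
    · exact RW.mono (fun _ h => h) sMU (RW.symm (W5' j i h hi))
  have PXY : ∀ i, i ≤ p → ∀ j, j ≤ r → RW G D col' U (x i) (y j) := by
    intro i hi j hj
    rcases Nat.lt_or_ge (i + j) N with h | h
    · -- down and up
      have h1 := RW.symm (W4 0 i (Nat.zero_le _) hi)
      have h2 := W3 _ f0 f1 (hH f0 hf0 f1 hf1)
      have h3 := W5 0 j (Nat.zero_le _) hj
      rw [hx0] at h1
      rw [hy0] at h3
      have h4 := RW.trans h1 h2 (by
        rw [Set.disjoint_left]
        rintro c ⟨t, e1, e2, rfl⟩ e3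
        have e4 : q + t < q := e3
        omega)
      have h5 := RW.trans h4 h3 (by
        rw [Set.disjoint_left]
        rintro c (⟨t, e1, e2, rfl⟩ | e3) ⟨t', e4, e5, e6⟩
        · omega
        · have e7 : c < q := e3
          omega)
      refine RW.mono (fun _ h => h) ?_ h5
      rintro c ((⟨t, e1, e2, rfl⟩ | e3) | ⟨t', e4, e5, rfl⟩)
      · change q + t < q + N + d
        omega
      · have e7 : c < q := e3
        change c < q + N + d
        omega
      · change q + (N - 1 - t') < q + N + d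
        omega
    · have h1 := W4 i p hi le_rfl
      have h2 := W1 _ hxp _ hyr
      have h3 := RW.symm (W5 j r hj le_rfl)
      have h4 := RW.trans h1 h2 (by
        rw [Set.disjoint_left]
        rintro c ⟨t, e1, e2, rfl⟩ (e3 | ⟨e3, e3'⟩)
        · have := hGa _ e3
          omega
        · omega)
      have h5 := RW.trans h4 h3 (by
        rw [Set.disjoint_left]
        rintro c (⟨t, e1, e2, rfl⟩ | (e3 | ⟨e3, e3'⟩)) ⟨t', e4, e5, e6⟩
        · omega
        · have := hGa _ e3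
          omega
        · omega)
      refine RW.mono (fun _ h => h) ?_ h5
      rintro c ((⟨t, e1, e2, rfl⟩ | (e3 | ⟨e3, e3'⟩)) | ⟨t', e4, e5, rfl⟩)
      · change q + t < q + N + d
        omega
      · have := hGa _ e3
        change c < q + N + d
        omega
      · exact e3'
      · change q + (N - 1 - t') < q + N + d
        omega
  apply rb_of_rw (col := col')
  rintro u (((hu | hu) | ⟨i, hi, rfl⟩) | ⟨i, hi, rfl⟩) v (((hv | hv) | ⟨j, hj, rfl⟩) | ⟨j, hj, rfl⟩)
  · exact PHH u hu v hv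
  · exact PHZ u hu v hv
  · exact PHX u hu j hj
  · exact PHY u hu j hj
  · exact RW.symm (PHZ v hv u hu)
  · exact PZZ u hu v hv
  · exact RW.symm (PXZ j hj u hu)
  · exact RW.symm (PYZ j hj u hu)
  · exact RW.symm (PHX v hv i hi)
  · exact PXZ i hi v hv
  · exact PXX i hi j hj
  · exact PXY i hi j hj
  · exact RW.symm (PHY v hv i hi)
  · exact PYZ i hi v hv
  · exact RW.symm (PXY j hj i hi)
  · exact PYY i hi j hj

end Pool.RBE
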