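import Pool.Agent.RBE.Y0

set_option autoImplicit false

/-! [RBE-Y2] the antipodal colouring of an isometric cycle, with its two palettes. -/

namespace Pool.RBE

open SimpleGraph Pool.Agent.RBC

private theorem y2_ne {V : Type} {G : SimpleGraph V} {n : ℕ} {c : ℕ → V} (hc : IsoCyc G n c)
    {i j : ℕ} (h1 : i < j) (h2 : j < i + n) : c i ≠ c j := by
  intro h
  have h3 := hc.dist i j h1.le h2.le
  rw [h, SimpleGraph.dist_self] at h3
  omega

private theorem y2_adj {V : Type} {G : SimpleGraph V} {n : ℕ} {c : ℕ → V} (hc : IsoCyc G n c)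
    (t : ℕ) : G.Adj (c t) (c (t + 1)) := by
  have h3 := hc.three
  have h := hc.dist t (t + 1) (by omega) (by omega)
  rw [← SimpleGraph.dist_eq_one_iff_adj, h]
  omega

private theorem y2_coord {V : Type} {G : SimpleGraph V} {n : ℕ} {c : ℕ → V} (hc : IsoCyc G n c)
    {v : V} (hv : v ∈ Set.range c) : ∃ i < n, v = c i := by
  obtain ⟨k, rfl⟩ := hv
  have hn : 0 < n := by
    have := hc.three
    omega
  refine ⟨k % n, Nat.mod_lt _ hn, ?_⟩
  have h : ∀ i m, c (i + n * m) = c i := by
    intro i m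
    induction m with
    | zero => simp
    | succ m ih => rw [Nat.mul_succ, ← add_assoc, hc.per, ih]
  conv_lhs => rw [← Nat.mod_add_div k n]
  exact h _ _

private theorem y2_inj {V : Type} {G : SimpleGraph V} {n : ℕ} {c : ℕ → V} (hc : IsoCyc G n c)
    {t t' : ℕ} (ht : t < n) (ht' : t' < n) (h : s(c t, c (t + 1)) = s(c t', c (t' + 1))) :
    t = t' := by
  have h3 := hc.three
  rw [Sym2.eq_iff] at h
  rcases h with ⟨h1, -⟩ | ⟨h1, h2⟩
  · rcases lt_trichotomy t t' with h | h | h
    · exact absurd h1 (y2_ne hc h (by omega))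
    · exact h
    · exact absurd h1.symm (y2_ne hc h (by omega))
  · exfalso
    rcases lt_trichotomy t t' with h | h | h
    · rcases Nat.lt_or_ge (t + 1) t' with h4 | h4
      · exact y2_ne hc h4 (by omega) h2
      · have h5 : t' = t + 1 := by omega
        rw [h5] at h1
        exact y2_ne hc (by omega) (by omega) h1
    · rw [h] at h1
      exact y2_ne hc (by omega) (by omega) h1
    · rcases Nat.lt_or_ge (t' + 1) t with h4 | h4
      · exact y2_ne hc h4 (by omega) h1.symm
      · have h5 : t = t' + 1 := by omega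
        rw [h5] at h2
        exact y2_ne hc (by omega) (by omega) h2.symm

private theorem y2_arc {V : Type} {G : SimpleGraph V} {n r : ℕ} {c : ℕ → V} (hr : 0 < r)
    {col : Sym2 V → ℕ} (hadj : ∀ t, G.Adj (c t) (c (t + 1)))
    (hcol : ∀ t < n, col s(c t, c (t + 1)) = t % r) (i : ℕ) : ∀ j, i ≤ j → j ≤ n → j ≤ i + r →
      RW G (Set.range c) col {m | ∃ t, i ≤ t ∧ t < j ∧ m = t % r} (c i) (c j) := by
  intro j
  induction j with
  | zero =>
    intro h1 _ _
    have h : i = 0 := by omega
    rw [h]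
    exact RW.refl ⟨0, rfl⟩
  | succ j ih =>
    intro h1 h2 h3
    rcases Nat.lt_or_ge j i with h | h
    · have h4 : i = j + 1 := by omega
      rw [h4]
      exact RW.refl ⟨j + 1, rfl⟩
    · have h4 := ih h (by omega) (by omega)
      have h5 : RW G (Set.range c) col {j % r} (c j) (c (j + 1)) := by
        refine ⟨Walk.cons (hadj j) Walk.nil, ?_, by simp, ?_⟩
        · intro x hx
          have hx' : x = c j ∨ x = c (j + 1) := by simpa using hx
          rcases hx' with rfl | rfl
          · exact ⟨j, rfl⟩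
          · exact ⟨j + 1, rfl⟩
        · intro e he
          have he' : e = s(c j, c (j + 1)) := by simpa using he
          rw [he', hcol j (by omega)]
          exact Set.mem_singleton _
      refine (h4.trans h5 ?_).mono subset_rfl ?_
      · rw [Set.disjoint_singleton_right]
        rintro ⟨t, ht1, ht2, ht3⟩
        have h6 := Nat.sub_mod_eq_zero_of_mod_eq ht3
        rw [Nat.mod_eq_of_lt (by omega)] at h6
        omega
      · rintro m (⟨t, ht1, ht2, ht3⟩ | hm)
        · exact ⟨t, ht1, by omega, ht3⟩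
        · exact ⟨j, h, by omega, hm⟩

private theorem y2_mod {r t : ℕ} (ht : t < 2 * r) :
    (t < r ∧ t % r = t) ∨ (r ≤ t ∧ t % r = t - r) := by
  rcases Nat.lt_or_ge t r with h | h
  · exact Or.inl ⟨h, Nat.mod_eq_of_lt h⟩
  · refine Or.inr ⟨h, ?_⟩
    rw [Nat.mod_eq_sub_mod h, Nat.mod_eq_of_lt (by omega)]

/-- [RBE-Y2] Let `r = (n+1)/2`. The edge `s(c t, c (t+1))` (`t < n`) gets the colour `t % r`; `Gb = [0, s/2)`, `Ga = [s/2, s)`.
Proof. `c` is injective on `[0, n)` (`IsoCyc.dist` gives `min (j-i) (i+n-j) > 0`), `c n = c 0`, and the edges `s(c t, c (t+1))`,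
`t < n`, are pairwise different (`3 ≤ n`; e.g. `s(c t, c (t+1)) = s(c t', c (t'+1))` with `c t = c (t'+1)`, `c (t+1) = c t'` gives
`t ≡ t'+1` and `t+1 ≡ t'` mod `n`, so `2 ≡ 0`). `G.Adj (c t) (c (t+1))` since the distance is `1`. So the colouring
`col e = if h : ∃ t, t < n ∧ e = s(c t, c (t+1)) then (choose h) % r else 0` has `col s(c t, c (t+1)) = t % r` for `t < n`.
ARC: for `i ≤ j ≤ n`, `j ≤ i + r`: `RW (range c) col {m | ∃ t, i ≤ t ∧ t < j ∧ m = t % r} (c i) (c j)` (induction on `j`; the values `t % r`,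
`i ≤ t < j ≤ i + r`, are pairwise different). All points are `c i` with `i < n` (`per`).
(1) all pairs: `i ≤ j < n`. If `j - i ≤ r`: ARC. Otherwise `r < j - i`, so `r ≤ j`; go `c j → c n = c 0 → c i` by the arcs `[j, n]` with
colours `[j - r, n - r)` (`t % r = t - r` for `r ≤ t < n ≤ 2r`) and `[0, i]` with colours `[0, i)`, `i ≤ j - r`: disjoint.
(2) palettes, target `c i`, `i < n` (`2 s ≤ n`, so `s ≤ r`):
 `i ≤ s/2`: arc `[0, i]` from `f0 = c 0`: colours `[0, i)`, not in `Ga`. `s/2 ≤ i ≤ s`: arc `[i, s]` to `f1 = c s`: colours `[i, s)`, not in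
 `Gb`. `s ≤ i ≤ r`: arc `[s, i]`: colours `[s, i)`, not in `Ga`. `r < i ≤ r + s/2`: arc `[s, i]` (`i - s ≤ r`): colours `[s, r)` and
 `[0, i - r) ⊆ [0, s/2)`: not in `Ga`. `r + s/2 ≤ i < n`: arc `[i, n]` to `c n = c 0 = f0`: colours `[i - r, n - r)`, `≥ s/2`: not in
 `Gb`. -/
theorem cyc_palettes {V : Type} {G : SimpleGraph V} {n : ℕ} {c : ℕ → V} (hc : IsoCyc G n c) {s : ℕ}
    (hs : 2 * s ≤ n) :
    ∃ (col : Sym2 V → ℕ) (Ga Gb : Finset ℕ),
      (∀ u ∈ Set.range c, ∀ v ∈ Set.range c, RW G (Set.range c) col {i | i < (n + 1) / 2} u v) ∧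
      (∀ i ∈ Ga, i < (n + 1) / 2) ∧ (∀ i ∈ Gb, i < (n + 1) / 2) ∧ Disjoint Ga Gb ∧
      s / 2 ≤ Ga.card ∧ s / 2 ≤ Gb.card ∧
      ∀ v ∈ Set.range c,
        (RW G (Set.range c) col {i | i < (n + 1) / 2 ∧ i ∉ Ga} (c 0) v ∨
          RW G (Set.range c) col {i | i < (n + 1) / 2 ∧ i ∉ Ga} (c s) v) ∨
        (RW G (Set.range c) col {i | i < (n + 1) / 2 ∧ i ∉ Gb} (c 0) v ∨
          RW G (Set.range c) col {i | i < (n + 1) / 2 ∧ i ∉ Gb} (c s) v) := by
  classical
  have h3 := hc.three
  obtain ⟨r, hr⟩ : ∃ r, r = (n + 1) / 2 := ⟨_, rfl⟩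
  have hr0 : 0 < r := by omega
  have hn2 : n ≤ 2 * r := by omega
  have hsr : s ≤ r := by omega
  rw [← hr]
  have hadj := y2_adj hc
  obtain ⟨col, hcol⟩ : ∃ col : Sym2 V → ℕ, ∀ t < n, col s(c t, c (t + 1)) = t % r := by
    refine ⟨fun e => if h : ∃ t, t < n ∧ e = s(c t, c (t + 1)) then (Classical.choose h) % r else 0,
      fun t ht => ?_⟩
    have hex : ∃ t', t' < n ∧ s(c t, c (t + 1)) = s(c t', c (t' + 1)) := ⟨t, ht, rfl⟩
    change (if h : ∃ t', t' < n ∧ s(c t, c (t + 1)) = s(c t', c (t' + 1)) then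
      (Classical.choose h) % r else 0) = t % r
    rw [dif_pos hex]
    have h5 := Classical.choose_spec hex
    rw [← y2_inj hc ht h5.1 h5.2]
  have harc := y2_arc (n := n) hr0 hadj hcol
  have hcn : c n = c 0 := by
    have h := hc.per 0
    rwa [zero_add] at h
  have hlt : ∀ m t : ℕ, m = t % r → m < r := fun m t h => by
    rw [h]
    exact Nat.mod_lt _ hr0
  refine ⟨col, Finset.Ico (s / 2) s, Finset.range (s / 2), ?_, ?_, ?_, ?_, ?_, ?_, ?_⟩
  · -- all pairs
    have key : ∀ i j, i ≤ j → j < n → RW G (Set.range c) col {m | m < r} (c i) (c j) := by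
      intro i j hij hj
      rcases Nat.lt_or_ge (i + r) j with h | h
      · have a1 := harc j n hj.le le_rfl (by omega)
        have a2 := harc 0 i (Nat.zero_le _) (by omega) (by omega)
        rw [hcn] at a1
        refine RW.symm ((a1.trans a2 ?_).mono subset_rfl ?_)
        · rw [Set.disjoint_left]
          rintro m ⟨t, t1, t2, t3⟩ ⟨t', t1', t2', t3'⟩
          rcases y2_mod (r := r) (t := t) (by omega) with h5 | h5
          · omega
          · rcases y2_mod (r := r) (t := t') (by omega) with h6 | h6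
            · omega
            · omega
        · rintro m (⟨t, -, -, ht⟩ | ⟨t, -, -, ht⟩)
          · exact hlt m t ht
          · exact hlt m t ht
      · refine (harc i j hij hj.le h).mono subset_rfl ?_
        rintro m ⟨t, -, -, ht⟩
        exact hlt m t ht
    intro u hu v hv
    obtain ⟨i, hi, rfl⟩ := y2_coord hc hu
    obtain ⟨j, hj, rfl⟩ := y2_coord hc hv
    rcases le_total i j with h | h
    · exact key i j h hj
    · exact (key j i h hi).symm
  · intro i hi
    rw [Finset.mem_Ico] at hi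
    omega
  · intro i hi
    rw [Finset.mem_range] at hi
    omega
  · rw [Finset.disjoint_left]
    intro i hi hi'
    rw [Finset.mem_Ico] at hi
    rw [Finset.mem_range] at hi'
    omega
  · rw [Nat.card_Ico]
    omega
  · rw [Finset.card_range]
  · intro v hv
    obtain ⟨i, hi, rfl⟩ := y2_coord hc hv
    simp only [Finset.mem_Ico, Finset.mem_range]
    rcases le_total i (s / 2) with h | h
    · left; left
      refine (harc 0 i (Nat.zero_le _) hi.le (by omega)).mono subset_rfl ?_
      rintro m ⟨t, t1, t2, t3⟩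
      refine ⟨hlt m t t3, ?_⟩
      rcases y2_mod (r := r) (t := t) (by omega) with h5 | h5 <;> omega
    rcases le_total i s with h' | h'
    · right; right
      refine ((harc i s h' (by omega) (by omega)).mono subset_rfl ?_).symm
      rintro m ⟨t, t1, t2, t3⟩
      refine ⟨hlt m t t3, ?_⟩
      rcases y2_mod (r := r) (t := t) (by omega) with h5 | h5 <;> omega
    rcases le_total i (r + s / 2) with h'' | h''
    · left; right
      refine (harc s i h' hi.le (by omega)).mono subset_rfl ?_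
      rintro m ⟨t, t1, t2, t3⟩
      refine ⟨hlt m t t3, ?_⟩
      rcases y2_mod (r := r) (t := t) (by omega) with h5 | h5 <;> omega
    · right; left
      have a1 := harc i n hi.le le_rfl (by omega)
      rw [hcn] at a1
      refine (a1.mono subset_rfl ?_).symm
      rintro m ⟨t, t1, t2, t3⟩
      refine ⟨hlt m t t3, ?_⟩
      rcases y2_mod (r := r) (t := t) (by omega) with h5 | h5 <;> omega

/-- [RBE-Y2b] Proof. `cyc_palettes` with `s = 0` (or directly) and `rb_of_rw`. -/
theorem cyc_rb {V : Type} {G : SimpleGraph V} {n : ℕ} {c : ℕ → V} (hc : IsoCyc G n c) :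
    Rb G (Set.range c) ((n + 1) / 2) := by
  obtain ⟨col, -, -, h, -⟩ := cyc_palettes hc (s := 0) (by omega)
  exact rb_of_rw h

end Pool.RBE
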