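import Pool.Agent.RBE.Y0
import Pool.Agent.RBE.NW2
import Pool.Agent.RBE.Z1

set_option autoImplicit false

/-! [RBE-Y3] edge connectivity. -/

namespace Pool.RBE

open SimpleGraph Pool.Agent.RBC

open Classical in
private theorem y3_deg {V : Type} [Fintype V] {G : SimpleGraph V} {k : ℕ} (hG : KConn G k) (u : V) :
    k ≤ ((Finset.univ : Finset V).filter (fun v => G.Adj u v)).card := by
  by_contra hcon
  rw [not_le] at hcon
  set N := (Finset.univ : Finset V).filter (fun v => G.Adj u v) with hN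
  have h1 : (insert u N).card < (Finset.univ : Finset V).card := by
    have h2 := Finset.card_insert_le u N
    have h3 := hG.1
    rw [Finset.card_univ]
    omega
  obtain ⟨y, -, hy⟩ := Finset.exists_mem_notMem_of_card_lt_card h1
  rw [Finset.mem_insert, not_or] at hy
  have huN : u ∉ N := by
    rw [hN, Finset.mem_filter]
    exact fun h => G.irrefl h.2
  obtain ⟨u', v, huv, hu, -, -, hv⟩ := kconn_exists_leaving hG N hcon ({u} : Set V) huN hy.2
    (Set.mem_singleton u) hy.1
  rw [Set.mem_singleton_iff] at hu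
  subst hu
  apply hv
  rw [hN, Finset.mem_filter]
  exact ⟨Finset.mem_univ _, huv⟩

private theorem y3_arith {a k : ℕ} (h1 : 1 ≤ a) (h2 : a < k) : k ≤ a * (k + 1 - a) := by
  obtain ⟨c, rfl⟩ : ∃ c, a = c + 1 := ⟨a - 1, by omega⟩
  obtain ⟨b, rfl⟩ : ∃ b, k = c + 1 + b := ⟨k - (c + 1), by omega⟩
  have h3 : c + 1 + b + 1 - (c + 1) = b + 1 := by omega
  rw [h3]
  have h4 : (c + 1) * (b + 1) = c * b + (c + 1 + b) := by ring
  rw [h4]
  exact Nat.le_add_left _ _

open Classical in
/-- [RBE-Y3a] a `k`-connected graph is `k`-edge-connected.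
Proof. Let `E` be the set of pairs, suppose `|E| < k`. `S1 = E.image Prod.fst ⊆ C`, `S2 = E.image Prod.snd`, both have at most `|E|`
elements. If `C ⊄ S1`: `x ∈ C \ S1`, `y ∉ C`: `kconn_exists_leaving` (file Z1) with `S = S1`, `W = C`: `u ∈ C`, `v ∉ C` adjacent,
`u ∉ S1`: but `(u, v) ∈ E`. If some `y ∉ C`, `y ∉ S2`: the same with `S = S2` (`x ∈ C`, so `x ∉ S2`). Otherwise `C = S1`, so `a := |C| ≤ |E| < k`
(and `a ≥ 1`). Every vertex has degree `≥ k`: otherwise `S = N(u)`, `|S| < k`, `|V| > k` gives a vertex `y ∉ S ∪ {u}` and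
`kconn_exists_leaving` with `W = {u}` gives a neighbour of `u` outside `S`. So every `u ∈ C` has at least `k - (a - 1)` neighbours
outside `C`: `|E| ≥ a (k + 1 - a) ≥ k` because `(a - 1)(k - a) ≥ 0`: contradiction. -/
theorem kconn_edge {V : Type} [Fintype V] {G : SimpleGraph V} {k : ℕ} (hG : KConn G k) (C : Finset V)
    {x y : V} (hx : x ∈ C) (hy : y ∉ C) :
    k ≤ ((Finset.univ : Finset (V × V)).filter (fun p => p.1 ∈ C ∧ p.2 ∉ C ∧ G.Adj p.1 p.2)).card := by
  set E := (Finset.univ : Finset (V × V)).filter (fun p => p.1 ∈ C ∧ p.2 ∉ C ∧ G.Adj p.1 p.2)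
    with hE
  have hmem : ∀ u v, (u, v) ∈ E ↔ u ∈ C ∧ v ∉ C ∧ G.Adj u v := by
    intro u v
    rw [hE, Finset.mem_filter]
    exact ⟨fun h => h.2, fun h => ⟨Finset.mem_univ _, h⟩⟩
  by_contra hcon
  rw [not_le] at hcon
  have hS1 : (E.image Prod.fst).card ≤ E.card := Finset.card_image_le
  have hsub : C ⊆ E.image Prod.fst := by
    intro z hz
    by_contra hzS
    have hyS : y ∉ E.image Prod.fst := by
      intro h
      obtain ⟨⟨u, v⟩, huv, rfl⟩ := Finset.mem_image.1 h
      exact hy ((hmem u v).1 huv).1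
    obtain ⟨u, v, huv, hu, hv, huS, -⟩ := kconn_exists_leaving hG (E.image Prod.fst) (by omega)
      (↑C : Set V) hzS hyS (Finset.mem_coe.2 hz) (fun h => hy (Finset.mem_coe.1 h))
    exact huS (Finset.mem_image.2 ⟨(u, v), (hmem u v).2 ⟨Finset.mem_coe.1 hu,
      fun h => hv (Finset.mem_coe.2 h), huv⟩, rfl⟩)
  have ha : C.card < k := by
    have h1 := Finset.card_le_card hsub
    omega
  have ha1 : 1 ≤ C.card := Finset.card_pos.2 ⟨x, hx⟩
  have hcard : E.card = ∑ u ∈ C, (E.filter (fun p => p.1 = u)).card :=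
    Finset.card_eq_sum_card_fiberwise (fun p hp => ((hmem p.1 p.2).1 hp).1)
  have hfib : ∀ u ∈ C, k + 1 - C.card ≤ (E.filter (fun p => p.1 = u)).card := by
    intro u hu
    have h1 := y3_deg hG u
    set N := (Finset.univ : Finset V).filter (fun v => G.Adj u v) with hN
    have h2 : (N \ C).card ≤ (E.filter (fun p => p.1 = u)).card := by
      apply Finset.card_le_card_of_injOn (fun v => (u, v))
      · intro v hv
        rw [Finset.mem_coe, Finset.mem_sdiff, hN, Finset.mem_filter] at hv
        rw [Finset.mem_coe, Finset.mem_filter, hmem]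
        exact ⟨⟨hu, hv.2, hv.1.2⟩, rfl⟩
      · intro v _ v' _ h
        exact (Prod.ext_iff.1 h).2
    have h3 : N.card ≤ (C.erase u).card + (N \ C).card := by
      have h4 : N ⊆ C.erase u ∪ (N \ C) := by
        intro v hv
        rw [Finset.mem_union, Finset.mem_erase, Finset.mem_sdiff]
        by_cases hvC : v ∈ C
        · left
          refine ⟨?_, hvC⟩
          rintro rfl
          rw [hN, Finset.mem_filter] at hv
          exact G.irrefl hv.2
        · exact Or.inr ⟨hv, hvC⟩
      exact (Finset.card_le_card h4).trans (Finset.card_union_le _ _)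
    rw [Finset.card_erase_of_mem hu] at h3
    omega
  have h5 : C.card * (k + 1 - C.card) ≤ E.card := by
    rw [hcard, ← smul_eq_mul, ← Finset.sum_const]
    exact Finset.sum_le_sum hfib
  have h6 := y3_arith ha1 ha
  omega

end Pool.RBE
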