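import Pool.Agent.RBE.Y3

set_option autoImplicit false

/-! [RBE-Y3b] two spanning trees of a connected blob -/

namespace Pool.RBE

open SimpleGraph Pool.Agent.RBC

private theorem y3b_reach {V : Type} {G : SimpleGraph V} {Z : Finset V} {E : Type} [Fintype E]
    (s t : E → {v // v ∈ Z})
    (hE : ∀ a b (ha : a ∈ Z) (hb : b ∈ Z), G.Adj a b →
      ∃ e, (s e = ⟨a, ha⟩ ∧ t e = ⟨b, hb⟩) ∨ (s e = ⟨b, hb⟩ ∧ t e = ⟨a, ha⟩))
    {u v : V} (w : G.Walk u v) : ∀ (_ : ∀ z ∈ w.support, z ∈ Z) (hu : u ∈ Z) (hv : v ∈ Z),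
      NW.Reach s t Finset.univ ⟨u, hu⟩ ⟨v, hv⟩ := by
  induction w with
  | nil =>
    intro _ hu hv
    exact NW.Reach.rfl
  | @cons a b c hab w ih =>
    intro hw hu hv
    have hb : b ∈ Z := hw b (by
      rw [Walk.support_cons]
      exact List.mem_cons_of_mem _ w.start_mem_support)
    have h1 := ih (fun z hz => hw z (by
      rw [Walk.support_cons]
      exact List.mem_cons_of_mem _ hz)) hb hv
    obtain ⟨e, he⟩ := hE a b hu hb hab
    exact Relation.ReflTransGen.head ⟨e, Finset.mem_univ _, he⟩ h1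

private theorem y3b_walk {V : Type} {G : SimpleGraph V} {Z : Finset V} {E : Type}
    (s t : E → {v // v ∈ Z}) (c : E → Sym2 V) (hc : ∀ e, c e = s((s e).1, (t e).1))
    (hadj : ∀ e, G.Adj (s e).1 (t e).1) (F : Finset E) {x y : {v // v ∈ Z}}
    (h : NW.Reach s t F x y) : ∃ w : G.Walk x.1 y.1, (∀ z ∈ w.support, z ∈ Z) ∧
      ∀ e ∈ w.edges, ∃ e' ∈ F, c e' = e := by
  induction h with
  | refl =>
    refine ⟨Walk.nil, fun z hz => ?_, fun e he => ?_⟩
    · rw [Walk.support_nil, List.mem_singleton] at hz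
      rw [hz]
      exact x.2
    · rw [Walk.edges_nil] at he
      exact absurd he List.not_mem_nil
  | @tail y z hxy hyz ih =>
    obtain ⟨w, h1, h2⟩ := ih
    obtain ⟨e, he, h3⟩ := hyz
    have hadj' : G.Adj y.1 z.1 := by
      rcases h3 with ⟨h4, h5⟩ | ⟨h4, h5⟩
      · rw [← h4, ← h5]; exact hadj e
      · rw [← h4, ← h5]; exact (hadj e).symm
    have hce : c e = s(y.1, z.1) := by
      rw [hc]
      rcases h3 with ⟨h4, h5⟩ | ⟨h4, h5⟩
      · rw [h4, h5]
      · rw [h4, h5]; exact Sym2.eq_swap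
    refine ⟨w.append (Walk.cons hadj' Walk.nil), fun v hv => ?_, fun e' he' => ?_⟩
    · rcases (Walk.mem_support_append_iff _ _).1 hv with h | h
      · exact h1 v h
      · rw [Walk.support_cons, Walk.support_nil, List.mem_cons, List.mem_singleton] at h
        rcases h with rfl | rfl
        · exact y.2
        · exact z.2
    · rw [Walk.edges_append, List.mem_append] at he'
      rcases he' with he' | he'
      · exact h2 e' he'
      · rw [Walk.edges_cons, Walk.edges_nil, List.mem_singleton] at he'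
        exact ⟨e, he, by rw [he']; exact hce⟩

open Classical in
/-- [RBE-Y3b] two spanning trees of `G[Z]` with at most `β` common edges, `β` = number of edges leaving `Z`.
Proof. `tutte_deficiency_trees` (file NW2, namespace `Pool.RBE.NW`) with vertex type `W = {v // v ∈ Z}` (nonempty) and edge type
`E = {e : Sym2 V // e ∈ G.edgeSet ∧ ∀ v ∈ e, v ∈ Z}` (or the edge set of `G.induce Z`), `s, t` = the two ends (choose them by
`Quot.out`, `s(s e, t e) = e`), `d = β`. `hconn`: `conn_count`, `hr` from `hZc` (a walk inside `Z` is a chain of `Reach` steps with the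
corresponding edges). The other hypothesis, for `f : W → W`: let `m = (univ.image f).card`, for `a` in the image
`C_a = {v ∈ Z | f v = a}` (a nonempty Finset of `V`). If some `C_a` is everything (`= univ`), then `m = 1` and
`2 * 1 ≤ cross + 2 + β`. Otherwise `kconn_edge`: every `C_a` has at least `k ≥ 4` leaving pairs. The sum over `a` of the numbers of
leaving pairs counts pairs `(u, v)` with `u ∈ Z` and (`v ∉ Z`, or `v ∈ Z` and `f u ≠ f v`): it is `≤ β + 2 * cross` (each crossing edge is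
counted for its two orientations; orientations inject into `cross × Bool`). So `4 m ≤ 2 * cross + β`, hence
`2 m ≤ cross + β ≤ cross + 2 + β`. Then `T_i = F_i.image Subtype.val` (card `≤`), walks: induction on `Reach`
(`Relation.ReflTransGen`), every step is an edge of `F_i` with both ends in `Z`. A finset `T` with all elements in both `T1` and `T2`
is contained in `(F1 ∩ F2).image val` (`val` injective). -/
theorem yblob_trees {V : Type} [Fintype V] {G : SimpleGraph V} {k : ℕ} (hk : 4 ≤ k) (hG : KConn G k)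
    (Z : Finset V) (hZ : Z.Nonempty) (hZc : ∀ u ∈ Z, ∀ v ∈ Z, JS G {x | x ∈ Z} u v) {β : ℕ}
    (hβ : ((Finset.univ : Finset (V × V)).filter
      (fun p => p.1 ∈ Z ∧ p.2 ∉ Z ∧ G.Adj p.1 p.2)).card ≤ β) :
    ∃ T1 T2 : Finset (Sym2 V), T1.card + 1 ≤ Z.card ∧ T2.card + 1 ≤ Z.card ∧
      (∀ e ∈ T1, ∀ v ∈ e, v ∈ Z) ∧ (∀ e ∈ T2, ∀ v ∈ e, v ∈ Z) ∧
      (∀ T : Finset (Sym2 V), (∀ e ∈ T, e ∈ T1 ∧ e ∈ T2) → T.card ≤ β) ∧
      (∀ u ∈ Z, ∀ v ∈ Z, ∃ w : G.Walk u v, (∀ z ∈ w.support, z ∈ Z) ∧ ∀ e ∈ w.edges, e ∈ T1) ∧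
      (∀ u ∈ Z, ∀ v ∈ Z, ∃ w : G.Walk u v, (∀ z ∈ w.support, z ∈ Z) ∧ ∀ e ∈ w.edges, e ∈ T2) := by
  obtain ⟨z0, hz0⟩ := hZ
  have : Nonempty {v // v ∈ Z} := ⟨⟨z0, hz0⟩⟩
  let E : Type := {e : Sym2 V // e ∈ G.edgeSet ∧ ∀ v ∈ e, v ∈ Z}
  have hrep : ∀ e : E, ∃ a b : {v // v ∈ Z}, e.1 = s(a.1, b.1) := by
    rintro ⟨e, he, he2⟩
    induction e using Sym2.ind with
    | _ a b =>
      exact ⟨⟨a, he2 a (Sym2.mem_mk_left a b)⟩, ⟨b, he2 b (Sym2.mem_mk_right a b)⟩, rfl⟩
  choose s t hst using hrep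
  have hadj : ∀ e : E, G.Adj (s e).1 (t e).1 := by
    intro e
    have h1 := e.2.1
    rw [hst e, SimpleGraph.mem_edgeSet] at h1
    exact h1
  have hE : ∀ a b (ha : a ∈ Z) (hb : b ∈ Z), G.Adj a b →
      ∃ e, (s e = ⟨a, ha⟩ ∧ t e = ⟨b, hb⟩) ∨ (s e = ⟨b, hb⟩ ∧ t e = ⟨a, ha⟩) := by
    intro a b ha hb hab
    refine ⟨⟨s(a, b), hab, ?_⟩, ?_⟩
    · intro v hv
      rw [Sym2.mem_iff] at hv
      rcases hv with rfl | rfl
      · exact ha
      · exact hb
    · have h1 := hst ⟨s(a, b), hab, by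
        intro v hv
        rw [Sym2.mem_iff] at hv
        rcases hv with rfl | rfl
        · exact ha
        · exact hb⟩
      simp only [Sym2.eq_iff] at h1
      rcases h1 with ⟨h2, h3⟩ | ⟨h2, h3⟩
      · exact Or.inl ⟨Subtype.ext h2.symm, Subtype.ext h3.symm⟩
      · exact Or.inr ⟨Subtype.ext h3.symm, Subtype.ext h2.symm⟩
  have hr : ∀ x y, NW.Reach s t (Finset.univ : Finset E) x y := by
    intro x y
    obtain ⟨w, hw⟩ := hZc x.1 x.2 y.1 y.2
    exact y3b_reach s t hE w hw x.2 y.2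
  have hcount : ∀ f : {v // v ∈ Z} → {v // v ∈ Z}, 2 * (Finset.univ.image f).card ≤
      (Finset.univ.filter (fun e => f (s e) ≠ f (t e))).card + 2 + β := by
    intro f
    set X := Finset.univ.filter (fun e => f (s e) ≠ f (t e)) with hX
    let C : {v // v ∈ Z} → Finset V := fun a =>
      Finset.univ.filter (fun v => ∃ h : v ∈ Z, f ⟨v, h⟩ = a)
    have hC : ∀ a v, v ∈ C a ↔ ∃ h : v ∈ Z, f ⟨v, h⟩ = a := by
      intro a v
      simp only [C, Finset.mem_filter, Finset.mem_univ, true_and]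
    by_cases hcase : ∃ a, ∀ v, v ∈ C a
    · obtain ⟨a, ha⟩ := hcase
      have h1 : Finset.univ.image f ⊆ {a} := by
        intro b hb
        obtain ⟨w, -, rfl⟩ := Finset.mem_image.1 hb
        rw [Finset.mem_singleton]
        obtain ⟨h2, h3⟩ := (hC a w.1).1 (ha w.1)
        exact h3
      have h2 := Finset.card_le_card h1
      rw [Finset.card_singleton] at h2
      omega
    · push Not at hcase
      let L : {v // v ∈ Z} → Finset (V × V) := fun a =>
        Finset.univ.filter (fun p => p.1 ∈ C a ∧ p.2 ∉ C a ∧ G.Adj p.1 p.2)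
      have hL : ∀ a p, p ∈ L a ↔ p.1 ∈ C a ∧ p.2 ∉ C a ∧ G.Adj p.1 p.2 := by
        intro a p
        simp only [L, Finset.mem_filter, Finset.mem_univ, true_and]
      have hLk : ∀ a ∈ Finset.univ.image f, k ≤ (L a).card := by
        intro a ha
        obtain ⟨x, -, hx⟩ := Finset.mem_image.1 ha
        obtain ⟨y, hy⟩ := hcase a
        exact kconn_edge hG (C a) ((hC a x.1).2 ⟨x.2, hx⟩) hy
      have hdisj : ((Finset.univ.image f : Finset {v // v ∈ Z}) : Set {v // v ∈ Z}).PairwiseDisjoint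
          L := by
        intro a _ b _ hab
        rw [Function.onFun, Finset.disjoint_left]
        intro p hp hp'
        obtain ⟨h1, h2⟩ := (hC a p.1).1 ((hL a p).1 hp).1
        obtain ⟨h3, h4⟩ := (hC b p.1).1 ((hL b p).1 hp').1
        exact hab (h2.symm.trans h4)
      have h1 : (Finset.univ.image f).card * k ≤ ((Finset.univ.image f).biUnion L).card := by
        rw [Finset.card_biUnion hdisj]
        have := Finset.card_nsmul_le_sum _ _ _ hLk
        rwa [smul_eq_mul] at this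
      set B := (Finset.univ : Finset (V × V)).filter
        (fun p => p.1 ∈ Z ∧ p.2 ∉ Z ∧ G.Adj p.1 p.2) with hB
      have h2 : (Finset.univ.image f).biUnion L ⊆
          B ∪ (X.image (fun e => ((s e).1, (t e).1)) ∪ X.image (fun e => ((t e).1, (s e).1))) := by
        intro p hp
        obtain ⟨a, -, hpa⟩ := Finset.mem_biUnion.1 hp
        obtain ⟨hp1, hp2, hp3⟩ := (hL a p).1 hpa
        obtain ⟨h3, h4⟩ := (hC a p.1).1 hp1
        rw [Finset.mem_union]
        by_cases h5 : p.2 ∈ Z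
        · right
          have h6 : f ⟨p.2, h5⟩ ≠ a := fun h => hp2 ((hC a p.2).2 ⟨h5, h⟩)
          rw [Finset.mem_union]
          obtain ⟨e, he | he⟩ := hE p.1 p.2 h3 h5 hp3
          · left
            refine Finset.mem_image.2 ⟨e, Finset.mem_filter.2 ⟨Finset.mem_univ _, ?_⟩, ?_⟩
            · rw [he.1, he.2, h4]
              exact h6.symm
            · rw [he.1, he.2]
          · right
            refine Finset.mem_image.2 ⟨e, Finset.mem_filter.2 ⟨Finset.mem_univ _, ?_⟩, ?_⟩
            · rw [he.1, he.2, h4]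
              exact h6
            · rw [he.1, he.2]
        · left
          exact Finset.mem_filter.2 ⟨Finset.mem_univ _, h3, h5, hp3⟩
      have h3 := Finset.card_le_card h2
      have h4 := Finset.card_union_le B
        (X.image (fun e => ((s e).1, (t e).1)) ∪ X.image (fun e => ((t e).1, (s e).1)))
      have h5 := Finset.card_union_le (X.image (fun e => ((s e).1, (t e).1)))
        (X.image (fun e => ((t e).1, (s e).1)))
      have h6 : (X.image (fun e => ((s e).1, (t e).1))).card ≤ X.card := Finset.card_image_le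
      have h7 : (X.image (fun e => ((t e).1, (s e).1))).card ≤ X.card := Finset.card_image_le
      have h8 : (Finset.univ.image f).card * 4 ≤ (Finset.univ.image f).card * k :=
        Nat.mul_le_mul_left _ hk
      omega
  obtain ⟨F1, F2, hd, hc1, hc2, hr1, hr2⟩ :=
    NW.tutte_deficiency_trees s t β (fun f => NW.conn_count s t hr f) hcount
  rw [Fintype.card_coe] at hc1 hc2
  refine ⟨F1.image Subtype.val, F2.image Subtype.val, ?_, ?_, ?_, ?_, ?_, ?_, ?_⟩
  · have := Finset.card_image_le (s := F1) (f := Subtype.val)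
    omega
  · have := Finset.card_image_le (s := F2) (f := Subtype.val)
    omega
  · intro e he
    obtain ⟨e', -, rfl⟩ := Finset.mem_image.1 he
    exact e'.2.2
  · intro e he
    obtain ⟨e', -, rfl⟩ := Finset.mem_image.1 he
    exact e'.2.2
  · intro T hT
    have h1 : T ⊆ (F1 ∩ F2).image Subtype.val := by
      intro e he
      obtain ⟨h2, h3⟩ := hT e he
      obtain ⟨e1, he1, h4⟩ := Finset.mem_image.1 h2
      obtain ⟨e2, he2, h5⟩ := Finset.mem_image.1 h3
      have h6 : e1 = e2 := Subtype.ext (h4.trans h5.symm)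
      refine Finset.mem_image.2 ⟨e1, Finset.mem_inter.2 ⟨he1, ?_⟩, h4⟩
      rw [h6]
      exact he2
    exact ((Finset.card_le_card h1).trans Finset.card_image_le).trans hd
  · intro u hu v hv
    obtain ⟨w, h1, h2⟩ := y3b_walk (G := G) s t Subtype.val hst hadj F1 (hr1 ⟨u, hu⟩ ⟨v, hv⟩)
    exact ⟨w, h1, fun e he => Finset.mem_image.2 (h2 e he)⟩
  · intro u hu v hv
    obtain ⟨w, h1, h2⟩ := y3b_walk (G := G) s t Subtype.val hst hadj F2 (hr2 ⟨u, hu⟩ ⟨v, hv⟩)
    exact ⟨w, h1, fun e he => Finset.mem_image.2 (h2 e he)⟩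

end Pool.RBE
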