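import Pool.Agent.RBE.Y0

set_option autoImplicit false

/-! [RBE-Y4] balls with a small boundary. -/

namespace Pool.RBE

open SimpleGraph Pool.Agent.RBC

private theorem y4_mem_ball {V : Type} [Fintype V] {G : SimpleGraph V} {v x : V} {R : ℕ} :
    x ∈ ball G v R ↔ G.dist v x ≤ R := by
  classical
  simp [ball]

open Classical in
/-- a thin sphere -/
private theorem y4_sphere {V : Type} [Fintype V] {G : SimpleGraph V} {B : ℕ}
    (hlin : ∀ (v : V) (R : ℕ), (ball G v R).card < B * (R + 1)) (z : V) {h0 : ℕ} (h01 : 1 ≤ h0) :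
    ∃ h, h0 ≤ h ∧ h < 2 * h0 ∧
      ((Finset.univ : Finset V).filter (fun v => G.dist z v = h + 1)).card ≤ 3 * B := by
  by_contra hcon
  push Not at hcon
  have h1 : ∑ h ∈ Finset.Ico h0 (2 * h0), (3 * B + 1) ≤ ∑ h ∈ Finset.Ico h0 (2 * h0),
      ((Finset.univ : Finset V).filter (fun v => G.dist z v = h + 1)).card := by
    refine Finset.sum_le_sum fun h hh => ?_
    rw [Finset.mem_Ico] at hh
    exact hcon h hh.1 hh.2
  have h2 : ∑ h ∈ Finset.Ico h0 (2 * h0),
      ((Finset.univ : Finset V).filter (fun v => G.dist z v = h + 1)).card ≤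
      (ball G z (2 * h0)).card := by
    rw [← Finset.card_biUnion]
    · refine Finset.card_le_card ?_
      intro x hx
      rw [Finset.mem_biUnion] at hx
      obtain ⟨h, hh, hx⟩ := hx
      rw [Finset.mem_Ico] at hh
      rw [Finset.mem_filter] at hx
      rw [y4_mem_ball]
      omega
    · intro a _ b _ hab
      rw [Function.onFun, Finset.disjoint_left]
      intro x hx hx'
      rw [Finset.mem_filter] at hx hx'
      omega
  have h3 := hlin z (2 * h0)
  rw [Finset.sum_const, Nat.card_Ico, smul_eq_mul] at h1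
  have h4 : 2 * h0 - h0 = h0 := by omega
  rw [h4] at h1
  have h5 : h0 * (3 * B + 1) < B * (2 * h0 + 1) := lt_of_le_of_lt (h1.trans h2) h3
  have h6 : B * 1 ≤ B * h0 := Nat.mul_le_mul_left _ h01
  have h7 : h0 * (3 * B + 1) = 3 * (B * h0) + h0 := by ring
  have h8 : B * (2 * h0 + 1) = 2 * (B * h0) + B := by ring
  omega

open Classical in
/-- [RBE-Y4a] a radius between `h0` and `2 h0` with at most `6 B^2` leaving edges.
Proof. For `h ∈ [h0, 2 h0)` let `S_h = {v | dist z v = h + 1}`. They are disjoint subsets of `ball z (2 h0)`, which has fewer than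
`B (2 h0 + 1) ≤ 3 B h0` vertices; so some `h` has `|S_h| ≤ 3 B` (`Finset.exists_le_card_of…` or by contradiction: otherwise
`h0 (3 B + 1) ≤ Σ |S_h| < 3 B h0`). A pair `(u, v)` with `dist z u ≤ h < dist z v`, `G.Adj u v`: `v ∈ S_h` and `u ∈ ball v 1`, which has
fewer than `2 B` vertices: at most `3 B * 2 B` pairs (`Finset.card_le_mul_card_image` for `Prod.snd`, or inject into a
`Finset.sigma`). -/
theorem thin_radius {V : Type} [Fintype V] {G : SimpleGraph V} (hG : G.Connected) {B : ℕ}
    (hlin : ∀ (v : V) (R : ℕ), (ball G v R).card < B * (R + 1)) (z : V) {h0 : ℕ} (h01 : 1 ≤ h0) :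
    ∃ h, h0 ≤ h ∧ h < 2 * h0 ∧ ((Finset.univ : Finset (V × V)).filter
      (fun p => G.dist z p.1 ≤ h ∧ h < G.dist z p.2 ∧ G.Adj p.1 p.2)).card ≤ 6 * B ^ 2 := by
  obtain ⟨h, h1, h2, h3⟩ := y4_sphere hlin z h01
  refine ⟨h, h1, h2, ?_⟩
  have hsub : ((Finset.univ : Finset (V × V)).filter
      (fun p => G.dist z p.1 ≤ h ∧ h < G.dist z p.2 ∧ G.Adj p.1 p.2)) ⊆
      ((Finset.univ : Finset V).filter (fun v => G.dist z v = h + 1)).biUnion
        (fun v => (ball G v 1).image (fun u => (u, v))) := by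
    rintro ⟨u, v⟩ hp
    rw [Finset.mem_filter] at hp
    obtain ⟨-, hu, hv, huv⟩ := hp
    simp only at hu hv huv
    have h4 : G.dist u v = 1 := SimpleGraph.dist_eq_one_iff_adj.2 huv
    have h5 := hG.dist_triangle (u := z) (v := u) (w := v)
    rw [Finset.mem_biUnion]
    refine ⟨v, ?_, ?_⟩
    · rw [Finset.mem_filter]
      exact ⟨Finset.mem_univ _, by omega⟩
    · rw [Finset.mem_image]
      refine ⟨u, ?_, rfl⟩
      rw [y4_mem_ball, SimpleGraph.dist_comm]
      omega
  refine (Finset.card_le_card hsub).trans (Finset.card_biUnion_le.trans ?_)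
  calc _ ≤ ∑ v ∈ (Finset.univ : Finset V).filter (fun v => G.dist z v = h + 1), 2 * B := by
        refine Finset.sum_le_sum fun v _ => ?_
        have h4 := hlin v 1
        have h5 : ((ball G v 1).image (fun u => (u, v))).card ≤ (ball G v 1).card :=
          Finset.card_image_le
        omega
    _ = ((Finset.univ : Finset V).filter (fun v => G.dist z v = h + 1)).card * (2 * B) := by
        rw [Finset.sum_const, smul_eq_mul]
    _ ≤ (3 * B) * (2 * B) := Nat.mul_le_mul_right _ h3
    _ = 6 * B ^ 2 := by ring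

end Pool.RBE
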