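import Pool.Agent.RBE.Y3b
import Pool.Agent.RBE.Y4

set_option autoImplicit false

/-! [RBE-Y4b] the ball blob -/

namespace Pool.RBE

open SimpleGraph Pool.Agent.RBC

open Classical in
/-- [RBE-Y4b] the ball blob. Proof. `thin_radius` and `yblob_trees` for `Z = ball G z h` (membership `dist z x ≤ h`; connected: from
every `u ∈ Z` a geodesic to `z` stays in `Z`); `|Z| < B (h+1) ≤ B (2 h0)`. -/
theorem ball_blob {V : Type} [Fintype V] {G : SimpleGraph V} {k : ℕ} (hk : 4 ≤ k) (hG : KConn G k)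
    {B : ℕ} (hlin : ∀ (v : V) (R : ℕ), (ball G v R).card < B * (R + 1)) (z : V) {h0 : ℕ}
    (h01 : 1 ≤ h0) :
    ∃ (h : ℕ) (T1 T2 : Finset (Sym2 V)), h0 ≤ h ∧ h < 2 * h0 ∧
      T1.card ≤ B * (2 * h0) ∧ T2.card ≤ B * (2 * h0) ∧
      (∀ e ∈ T1, ∀ v ∈ e, G.dist z v ≤ h) ∧ (∀ e ∈ T2, ∀ v ∈ e, G.dist z v ≤ h) ∧
      (∀ T : Finset (Sym2 V), (∀ e ∈ T, e ∈ T1 ∧ e ∈ T2) → T.card ≤ 6 * B ^ 2) ∧
      (∀ u, G.dist z u ≤ h → ∀ v, G.dist z v ≤ h → ∃ w : G.Walk u v,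
        (∀ a ∈ w.support, G.dist z a ≤ h) ∧ ∀ e ∈ w.edges, e ∈ T1) ∧
      (∀ u, G.dist z u ≤ h → ∀ v, G.dist z v ≤ h → ∃ w : G.Walk u v,
        (∀ a ∈ w.support, G.dist z a ≤ h) ∧ ∀ e ∈ w.edges, e ∈ T2) := by
  have hc : G.Connected := kconn_connected hG (by omega)
  obtain ⟨h, hh1, hh2, hthin⟩ := thin_radius hc hlin z h01
  obtain ⟨Z, hZdef⟩ : ∃ Z : Finset V, Z = ball G z h := ⟨_, rfl⟩
  have hmem : ∀ x, x ∈ Z ↔ G.dist z x ≤ h := by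
    intro x
    rw [hZdef]
    unfold ball
    rw [Finset.mem_filter]
    exact ⟨fun h => h.2, fun h => ⟨Finset.mem_univ x, h⟩⟩
  have hz : z ∈ Z := by
    rw [hmem, SimpleGraph.dist_self]
    exact Nat.zero_le h
  have hgeo : ∀ u ∈ Z, JS G {x | x ∈ Z} z u := by
    intro u hu
    rw [hmem] at hu
    obtain ⟨w, hw⟩ := hc.exists_walk_length_eq_dist z u
    refine ⟨w, fun a ha => ?_⟩
    show a ∈ Z
    rw [hmem]
    have h1 := SimpleGraph.dist_le (w.takeUntil a ha)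
    have h2 := w.length_takeUntil_le ha
    omega
  have hZc : ∀ u ∈ Z, ∀ v ∈ Z, JS G {x | x ∈ Z} u v := fun u hu v hv =>
    (hgeo u hu).symm.trans (hgeo v hv)
  have hβ : ((Finset.univ : Finset (V × V)).filter
      (fun p => p.1 ∈ Z ∧ p.2 ∉ Z ∧ G.Adj p.1 p.2)).card ≤ 6 * B ^ 2 := by
    refine le_trans (Finset.card_le_card fun p hp => ?_) hthin
    rw [Finset.mem_filter] at hp ⊢
    obtain ⟨-, h1, h2, h3⟩ := hp
    rw [hmem] at h1 h2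
    exact ⟨Finset.mem_univ p, h1, not_le.1 h2, h3⟩
  obtain ⟨T1, T2, c1, c2, t1, t2, hT, w1, w2⟩ := yblob_trees hk hG Z ⟨z, hz⟩ hZc hβ
  have hZcard : Z.card < B * (h + 1) := by
    rw [hZdef]
    exact hlin z h
  have hB : B * (h + 1) ≤ B * (2 * h0) := Nat.mul_le_mul_left _ (by omega)
  refine ⟨h, T1, T2, hh1, hh2, by omega, by omega, fun e he v hv => (hmem v).1 (t1 e he v hv),
    fun e he v hv => (hmem v).1 (t2 e he v hv), hT, fun u hu v hv => ?_, fun u hu v hv => ?_⟩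
  · obtain ⟨w, hw, hw'⟩ := w1 u ((hmem u).2 hu) v ((hmem v).2 hv)
    exact ⟨w, fun a ha => (hmem a).1 (hw a ha), hw'⟩
  · obtain ⟨w, hw, hw'⟩ := w2 u ((hmem u).2 hu) v ((hmem v).2 hv)
    exact ⟨w, fun a ha => (hmem a).1 (hw a ha), hw'⟩

end Pool.RBE
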