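import Pool.Agent.RBE.Y0

set_option autoImplicit false

/-! [RBE-Y5] the shortest arch between two classes of attachments. -/

namespace Pool.RBE

open SimpleGraph Pool.Agent.RBC

/-- An arch of length `m` over `W` (heights `h`): `x 0, …, x m` is a path in `{h > ρ}` which goes up vertically to its middle and
then down; two of its vertices which are high enough compared with their distance are at their distance along the path. -/
structure Arch {V : Type} (G : SimpleGraph V) (h : V → ℕ) (ρ m : ℕ) (x : ℕ → V) : Prop where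
  adj : ∀ i, i < m → G.Adj (x i) (x (i + 1))
  up : ∀ i, 2 * i ≤ m → h (x i) = ρ + 1 + i
  down : ∀ i, i ≤ m → m ≤ 2 * i → h (x i) = ρ + 1 + (m - i)
  tight : ∀ i j, i ≤ j → j ≤ m → (ρ + G.dist (x i) (x j) < h (x i) ∨ ρ + G.dist (x i) (x j) < h (x j)) →
    j - i ≤ G.dist (x i) (x j)

private theorem y5_take {V : Type} {G : SimpleGraph V} {u v : V} (w : G.Walk u v) (i : ℕ) (z : V)
    (hz : z ∈ (w.take i).support) : z ∈ w.support := by
  rw [Walk.support_take] at hz
  exact List.mem_of_mem_take hz

private theorem y5_drop {V : Type} {G : SimpleGraph V} {u v : V} (w : G.Walk u v) (i : ℕ) (z : V)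
    (hz : z ∈ (w.drop i).support) : z ∈ w.support := by
  have h := (w.isSubwalk_drop i).support_subset
  exact h hz

private theorem y5_lip {V : Type} {G : SimpleGraph V} {W : Set V} {h : V → ℕ} {π : V → V}
    (F : Forest G W h π) {u v : V} (w : G.Walk u v) : h u ≤ h v + w.length := by
  induction w with
  | nil => simp
  | cons hadj w ih =>
    have := F.lip _ _ hadj
    rw [Walk.length_cons]
    omega

private theorem y5_lip' {V : Type} {G : SimpleGraph V} {W : Set V} {h : V → ℕ} {π : V → V}
    (F : Forest G W h π) {u v : V} (w : G.Walk u v) : h v ≤ h u + w.length := by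
  have := y5_lip F w.reverse
  rwa [Walk.length_reverse] at this

private theorem y5_desc {V : Type} {G : SimpleGraph V} {W : Set V} {h : V → ℕ} {π : V → V}
    (F : Forest G W h π) {ρ : ℕ} (n : ℕ) : ∀ v, h v = ρ + 1 + n →
    ∃ y, h y = ρ + 1 ∧ ∃ w : G.Walk v y, w.length = n ∧ ∀ z ∈ w.support, ρ < h z := by
  induction n with
  | zero =>
    intro v hv
    refine ⟨v, by omega, Walk.nil, rfl, ?_⟩
    intro z hz
    rw [Walk.support_nil, List.mem_singleton] at hz
    subst hz
    omega
  | succ n ih =>
    intro v hv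
    obtain ⟨h1, h2⟩ := F.step v (by omega)
    obtain ⟨y, hy, w, hw, hw'⟩ := ih (π v) (by omega)
    refine ⟨y, hy, Walk.cons h1 w, by rw [Walk.length_cons, hw], ?_⟩
    intro z hz
    rw [Walk.support_cons, List.mem_cons] at hz
    rcases hz with rfl | hz
    · omega
    · exact hw' z hz

private theorem y5_up {V : Type} {G : SimpleGraph V} {W : Set V} {h : V → ℕ} {π : V → V}
    (F : Forest G W h π) {ρ : ℕ} {A1 A2 : Set V} (h1 : ∀ y ∈ A1, h y = ρ + 1)
    (hall : ∀ y ∈ A1, ∀ y', h y' = ρ + 1 → JS G {v | ρ < h v} y y' → y' ∈ A1 ∪ A2)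
    {y1 y2 : V} (hy1 : y1 ∈ A1) (hy2 : y2 ∈ A2) (w : G.Walk y1 y2)
    (hw : ∀ z ∈ w.support, ρ < h z)
    (hmin : ∀ a ∈ A1, ∀ b ∈ A2, ∀ w' : G.Walk a b, (∀ z ∈ w'.support, ρ < h z) →
      w.length ≤ w'.length) {i : ℕ} (hi : 2 * i ≤ w.length) : h (w.getVert i) = ρ + 1 + i := by
  have hup : h (w.getVert i) ≤ ρ + 1 + i := by
    have a := y5_lip' F (w.take i)
    rw [Walk.take_length, h1 y1 hy1] at a
    omega
  have hts : ∀ z ∈ (w.take i).support, ρ < h z := fun z hz =>
    hw z (y5_take w i z hz)
  have hds : ∀ z ∈ (w.drop i).support, ρ < h z := fun z hz =>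
    hw z (y5_drop w i z hz)
  have hlow : ρ < h (w.getVert i) := hw _ (w.getVert_mem_support i)
  by_contra hne
  obtain ⟨n, hn⟩ : ∃ n, h (w.getVert i) = ρ + 1 + n := ⟨h (w.getVert i) - (ρ + 1), by omega⟩
  obtain ⟨y, hy, d, hd, hd'⟩ := y5_desc F n _ hn
  have hJ : JS G {v | ρ < h v} y1 y := by
    refine ⟨(w.take i).append d, ?_⟩
    intro z hz
    rw [Walk.mem_support_append_iff] at hz
    rcases hz with hz | hz
    · exact hts z hz
    · exact hd' z hz
  rcases hall y1 hy1 y hy hJ with hyA | hyA
  · have a := hmin y hyA y2 hy2 (d.reverse.append (w.drop i)) (by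
      intro z hz
      rw [Walk.mem_support_append_iff, Walk.support_reverse, List.mem_reverse] at hz
      rcases hz with hz | hz
      · exact hd' z hz
      · exact hds z hz)
    rw [Walk.length_append, Walk.length_reverse, Walk.drop_length, hd] at a
    omega
  · have a := hmin y1 hy1 y hyA ((w.take i).append d) (by
      intro z hz
      rw [Walk.mem_support_append_iff] at hz
      rcases hz with hz | hz
      · exact hts z hz
      · exact hd' z hz)
    rw [Walk.length_append, Walk.take_length, hd] at a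
    omega

/-- [RBE-Y5] `A1, A2`: two sets of vertices of height `ρ + 1`, at distance `> σ`, joined by a walk in `{h > ρ}`, such that every vertex
of height `ρ + 1` which is joined to `A1 ∪ A2` in `{h > ρ}` is in `A1 ∪ A2`.
Proof. Among all walks inside `{h > ρ}` from a vertex of `A1` to a vertex of `A2` take one of minimal length `m`; `x i = p.getVert i`.
Then `m ≥ dist (x 0) (x m) > σ`. A walk is shortened as follows.
(tight) if `ρ + dist (x i) (x j) < h (x i)` or `< h (x j)`: a geodesic walk from `x i` to `x j` has all heights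
`≥ h (x i) - dist > ρ` (or `≥ h (x j) - dist`; `F.lip`), so `x 0 … x i` + geodesic + `x j … x m` is a competitor:
`m ≤ i + dist + (m - j)`.
(up) `h (x i) ≤ ρ + 1 + i` by `lip` (`h (x 0) = ρ + 1`). Let `2 i ≤ m` and suppose `h (x i) ≤ ρ + i` (`≥ ρ + 1` as `x i` is in `{h > ρ}`).
Going down with `π` from `x i` for `h (x i) - (ρ + 1) < i` steps stays in `{h > ρ}` and ends at a vertex `y` of height `ρ + 1`
(`desc_walk`/iterate `F.step`), joined to `x 0 ∈ A1` in `{h > ρ}`: `y ∈ A1 ∪ A2` by `hall`. If `y ∈ A2`: the walk `x 0 … x i … y` has length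
`< 2 i ≤ m`. If `y ∈ A1`: the walk `y … x i … x m` has length `< i + (m - i) = m`. Contradiction in both cases.
(down) the same for the reversed walk (exchange `A1` and `A2`). -/
theorem min_arch {V : Type} {G : SimpleGraph V} (hG : G.Connected) {W : Set V} {h : V → ℕ} {π : V → V}
    (F : Forest G W h π) {ρ σ : ℕ} {A1 A2 : Set V} (h1 : ∀ y ∈ A1, h y = ρ + 1)
    (h2 : ∀ y ∈ A2, h y = ρ + 1)
    (hall : ∀ y ∈ A1 ∪ A2, ∀ y', h y' = ρ + 1 → JS G {v | ρ < h v} y y' → y' ∈ A1 ∪ A2)
    (hne : ∃ y1 ∈ A1, ∃ y2 ∈ A2, JS G {v | ρ < h v} y1 y2)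
    (hsep : ∀ y1 ∈ A1, ∀ y2 ∈ A2, σ < G.dist y1 y2) :
    ∃ (m : ℕ) (x : ℕ → V), x 0 ∈ A1 ∧ x m ∈ A2 ∧ σ < m ∧ Arch G h ρ m x := by
  classical
  have hex : ∃ m, ∃ y1 ∈ A1, ∃ y2 ∈ A2, ∃ w : G.Walk y1 y2, w.length = m ∧ ∀ z ∈ w.support, ρ < h z := by
    obtain ⟨y1, h1', y2, h2', w, hw⟩ := hne
    exact ⟨w.length, y1, h1', y2, h2', w, rfl, hw⟩
  obtain ⟨y1, hy1, y2, hy2, w, hwm, hw⟩ := Nat.find_spec hex
  have hmin : ∀ a ∈ A1, ∀ b ∈ A2, ∀ w' : G.Walk a b, (∀ z ∈ w'.support, ρ < h z) →
      w.length ≤ w'.length := by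
    intro a ha b hb w' hw'
    rw [hwm]
    exact Nat.find_min' hex ⟨a, ha, b, hb, w', rfl, hw'⟩
  clear hwm hex
  refine ⟨w.length, fun i => w.getVert i, ?_, ?_, ?_, ?_, ?_, ?_, ?_⟩
  · show w.getVert 0 ∈ A1
    rw [Walk.getVert_zero]
    exact hy1
  · show w.getVert w.length ∈ A2
    rw [Walk.getVert_length]
    exact hy2
  · exact (hsep y1 hy1 y2 hy2).trans_le (SimpleGraph.dist_le w)
  · intro i hi
    exact w.adj_getVert_succ hi
  · intro i hi
    exact y5_up F h1 (fun y hy => hall y (Or.inl hy)) hy1 hy2 w hw hmin hi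
  · intro i hi hi2
    have a := y5_up F (A1 := A2) (A2 := A1) h2 (fun y hy y' hy' hJ => (hall y (Or.inr hy) y' hy' hJ).symm) hy2 hy1
      w.reverse (fun z hz => hw z (by rwa [Walk.support_reverse, List.mem_reverse] at hz))
      (fun a ha b hb w' hw' => by
        have := hmin b hb a ha w'.reverse (fun z hz =>
          hw' z (by rwa [Walk.support_reverse, List.mem_reverse] at hz))
        rwa [Walk.length_reverse] at this ⊢) (i := w.length - i) (by rw [Walk.length_reverse]; omega)
    have e : w.reverse.getVert (w.length - i) = w.getVert i := by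
      rw [Walk.getVert_reverse]
      congr 1
      omega
    rw [e] at a
    exact a
  · intro i j hij hj hd
    obtain ⟨g, hg⟩ := hG.exists_walk_length_eq_dist (w.getVert i) (w.getVert j)
    have hgs : ∀ z ∈ g.support, ρ < h z := by
      intro z hz
      rcases hd with hd | hd
      · have a := y5_lip F (g.takeUntil z hz)
        have b := g.length_takeUntil_le_length hz
        have : ρ + G.dist (w.getVert i) (w.getVert j) < h (w.getVert i) := hd
        omega
      · have a := y5_lip' F (g.dropUntil z hz)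
        have b := g.length_dropUntil_le_length hz
        have : ρ + G.dist (w.getVert i) (w.getVert j) < h (w.getVert j) := hd
        omega
    have a := hmin y1 hy1 y2 hy2 ((w.take i).append (g.append (w.drop j))) (by
      intro z hz
      rw [Walk.mem_support_append_iff, Walk.mem_support_append_iff] at hz
      rcases hz with hz | hz | hz
      · exact hw z (y5_take w i z hz)
      · exact hgs z hz
      · exact hw z (y5_drop w j z hz))
    rw [Walk.length_append, Walk.length_append, Walk.take_length, Walk.drop_length, hg] at a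
    show j - i ≤ G.dist (w.getVert i) (w.getVert j)
    omega

/-- [RBE-Y5b] Proof. `x' i = x (m - i)`; `up` and `down` are exchanged, `tight` for `i ≤ j` is `tight` for `m - j ≤ m - i` with
`dist_comm`. -/
theorem arch_reverse {V : Type} {G : SimpleGraph V} {h : V → ℕ} {ρ m : ℕ} {x : ℕ → V}
    (A : Arch G h ρ m x) : Arch G h ρ m (fun i => x (m - i)) := by
  refine ⟨?_, ?_, ?_, ?_⟩
  · intro i hi
    have := A.adj (m - (i + 1)) (by omega)
    have e : m - (i + 1) + 1 = m - i := by omega
    rw [e] at this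
    exact this.symm
  · intro i hi
    have := A.down (m - i) (by omega) (by omega)
    show h (x (m - i)) = ρ + 1 + i
    omega
  · intro i hi hi2
    have := A.up (m - i) (by omega)
    show h (x (m - i)) = ρ + 1 + (m - i)
    omega
  · intro i j hij hj hd
    have := A.tight (m - j) (m - i) (by omega) (by omega) (by
      have hd' : ρ + G.dist (x (m - i)) (x (m - j)) < h (x (m - i)) ∨
        ρ + G.dist (x (m - i)) (x (m - j)) < h (x (m - j)) := hd
      rw [SimpleGraph.dist_comm] at hd'
      exact hd'.symm)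
    rw [SimpleGraph.dist_comm] at this
    show j - i ≤ G.dist (x (m - i)) (x (m - j))
    omega

end Pool.RBE
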