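import Pool.Agent.RBE.Y1
import Pool.Agent.RBE.Y2
import Pool.Agent.RBE.Y4b
import Pool.Agent.RBE.Y5

set_option autoImplicit false

/-! [RBE-Y7] a cycle with an arch is rainbow connected with a gain of `h0` colours. -/

namespace Pool.RBE

open SimpleGraph Pool.Agent.RBC

private theorem y7_lip {V : Type} {G : SimpleGraph V} (hG : G.Connected) {W : Set V} {h : V → ℕ}
    {π : V → V} (F : Forest G W h π) (u v : V) : h u ≤ h v + G.dist u v := by
  obtain ⟨w, hw⟩ := hG.exists_walk_length_eq_dist u v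
  rw [← hw]
  clear hw
  induction w with
  | nil => simp
  | cons hadj p ih =>
    rw [Walk.length_cons]
    have := F.lip _ _ hadj
    omega

private theorem y7_dist {V : Type} {G : SimpleGraph V} (hG : G.Connected) {P : ℕ → V} (i : ℕ) :
    ∀ j, i ≤ j → (∀ t, i ≤ t → t < j → G.Adj (P t) (P (t + 1))) → G.dist (P i) (P j) ≤ j - i := by
  intro j hij
  induction j, hij using Nat.le_induction with
  | base =>
    intro _
    simp
  | succ j hij ih =>
    intro hadj
    have h1 := ih (fun t h1 h2 => hadj t h1 (by omega))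
    have h2 := hG.dist_triangle (u := P i) (v := P j) (w := P (j + 1))
    have h3 : G.dist (P j) (P (j + 1)) = 1 :=
      SimpleGraph.dist_eq_one_iff_adj.mpr (hadj j hij (by omega))
    omega

/-- [RBE-Y7a] the case where the feet are `c 0` and `c s`, `2 s ≤ n`.
`e0 i` (`i ≤ ρ+1`) is the vertical path from the foot `c 0` up to `x 0`, `e1 i` the one from `c s` up to `x m`.
Proof. Let `μ = m / 2`, `z = x μ`; `ball_blob` gives `h'` (`h0 ≤ h' < 2 h0`), `T1, T2`; `Z = {v | dist z v ≤ h'}`. Put `a = μ - h'`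
(`h' < 2 h0 ≤ μ`), `b = m - μ - h'`. Legs: `X i = e0 i` for `i ≤ ρ + 1`, `X i = x (i - (ρ+1))` for `i ≥ ρ + 1`, length `p = ρ + 1 + a`;
`Y i = e1 i` for `i ≤ ρ+1`, `Y i = x (m - (i - (ρ+1)))` for `i ≥ ρ + 1`, length `r = ρ + 1 + b`. Heights: `h (X i) = i`
(`i ≤ p`) and `h (Y i) = i` (`i ≤ r`) by `up`, `down`, `he0`, `he1`; so the legs are injective and for `0 < i` not in `range c` (heights
`0`). `X p = x (μ - h')`: `dist z (X p) ≤ h'` (path of length `h'`), so in `Z`; same for `Y r = x (μ + h')`.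
Not in `Z`: `X i` with `i < p`: if `i ≤ ρ + 1`: `dist z (X i) ≥ h z - i ≥ ρ + 1 + μ' - (ρ+1) > h'` where `h z = ρ + 1 + μ`; if `i = ρ + 1 + i'`,
`i' < a`: suppose `dist (x i') z ≤ h'`; `ρ + h' < h z = ρ + 1 + μ`, so `tight i' μ` gives `μ - i' ≤ h'`, contradiction. `Y` the same
(`tight μ j'`). `Z ∩ range c = ∅`: `dist z v ≤ h' < h z`. Leg against leg, `X i ≠ Y j` for `i < p`, `j < r`: equal heights force `i = j`;
`i = 0`: `c 0 = c s` contradicts `hs1` (`dist (c 0) (c s) > 0`); `0 < i ≤ ρ + 1`: `dist (x 0) (x m) ≤ 2 (ρ + 1)` contradicts `hfar`;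
`i = ρ + 1 + i'`: `x i' = x (m - i')`, `i' < a`: distance `0`, `ρ < h (x i')`, `tight i' (m - i')` gives `m - 2 i' ≤ 0`, contradiction.
`cyc_palettes` with `s`: `s / 2 ≤ Ga.card`, and `T1.card ≤ B (2 h0) ≤ s / 2` since `4 B h0 ≤ dist (c 0) (c s) = s` (`IsoCyc.dist`, `2 s ≤ n`).
`arch_colour` (`q = (n+1)/2`, `d = 6 B^2`, `max p r = ρ + 1 + (m - μ) - h'`, as `a ≤ b`): the set is
`D = range c ∪ Z ∪ legs`; every `x i` is in it: `i ≤ a` leg, `|i - μ| ≤ h'` in `Z` (`dist (x i) (x μ) ≤ |i - μ|`), `i ≥ μ + h'` leg. -/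
theorem arch_rb0 {V : Type} [Fintype V] {G : SimpleGraph V} {k : ℕ} (hk : 4 ≤ k) (hG : KConn G k)
    {B : ℕ} (hlin : ∀ (v : V) (R : ℕ), (ball G v R).card < B * (R + 1)) {n : ℕ} {c : ℕ → V}
    (hc : IsoCyc G n c) {h : V → ℕ} {π : V → V} (F : Forest G (Set.range c) h π) {ρ m h0 : ℕ}
    (h01 : 1 ≤ h0) {x : ℕ → V} (A : Arch G h ρ m x) (hm : 4 * h0 + 4 ≤ m)
    (hfar : 2 * (ρ + 1) < G.dist (x 0) (x m)) {e0 e1 : ℕ → V} {s : ℕ} (he00 : e0 0 = c 0)
    (he10 : e1 0 = c s) (he0 : e0 (ρ + 1) = x 0) (he1 : e1 (ρ + 1) = x m)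
    (he0a : ∀ i, i < ρ + 1 → G.Adj (e0 i) (e0 (i + 1))) (he1a : ∀ i, i < ρ + 1 → G.Adj (e1 i) (e1 (i + 1)))
    (he0h : ∀ i, i ≤ ρ + 1 → h (e0 i) = i) (he1h : ∀ i, i ≤ ρ + 1 → h (e1 i) = i)
    (hs : 2 * s ≤ n) (hs1 : 4 * (B * h0) ≤ G.dist (c 0) (c s)) (hs2 : 0 < G.dist (c 0) (c s)) :
    ∃ (D : Set V) (q : ℕ), (∀ i, c i ∈ D) ∧ (∀ i, i ≤ m → x i ∈ D) ∧ Rb G D q ∧
      q + h0 ≤ (n + 1) / 2 + (ρ + 1) + (m + 1) / 2 + 6 * B ^ 2 := by
  have hcon : G.Connected := kconn_connected hG (by omega)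
  obtain ⟨μ, hμ⟩ : ∃ μ, μ = m / 2 := ⟨_, rfl⟩
  obtain ⟨z, hz⟩ : ∃ z, z = x μ := ⟨_, rfl⟩
  have hzh : h z = ρ + 1 + μ := by
    rw [hz]
    exact A.up μ (by omega)
  obtain ⟨h', T1, T2, h1', h2', hT1c, hT2c, hT1Z, hT2Z, hTd, hT1, hT2⟩ :=
    ball_blob hk hG hlin z h01
  obtain ⟨a, ha⟩ : ∃ a, a = μ - h' := ⟨_, rfl⟩
  obtain ⟨b, hb⟩ : ∃ b, b = m - μ - h' := ⟨_, rfl⟩
  have hxd : ∀ i j, i ≤ j → j ≤ m → G.dist (x i) (x j) ≤ j - i := fun i j hij hj =>
    y7_dist hcon i j hij (fun t _ ht => A.adj t (by omega))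
  obtain ⟨X, hX⟩ : ∃ X : ℕ → V, X = fun i => if i ≤ ρ + 1 then e0 i else x (i - (ρ + 1)) :=
    ⟨_, rfl⟩
  obtain ⟨Y, hY⟩ : ∃ Y : ℕ → V, Y = fun i => if i ≤ ρ + 1 then e1 i else x (m - (i - (ρ + 1))) :=
    ⟨_, rfl⟩
  have hX1 : ∀ i, i ≤ ρ + 1 → X i = e0 i := by
    intro i hi
    rw [hX]
    simp only
    rw [if_pos hi]
  have hX2 : ∀ i, X (ρ + 1 + i) = x i := by
    intro i
    rcases Nat.eq_zero_or_pos i with hi | hi
    · rw [hi, Nat.add_zero, hX1 _ le_rfl]
      exact he0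
    · rw [hX]
      simp only
      rw [if_neg (by omega)]
      congr 1
      omega
  have hY1 : ∀ i, i ≤ ρ + 1 → Y i = e1 i := by
    intro i hi
    rw [hY]
    simp only
    rw [if_pos hi]
  have hY2 : ∀ i, Y (ρ + 1 + i) = x (m - i) := by
    intro i
    rcases Nat.eq_zero_or_pos i with hi | hi
    · rw [hi, Nat.add_zero, hY1 _ le_rfl]
      exact he1
    · rw [hY]
      simp only
      rw [if_neg (by omega)]
      congr 1
      omega
  have hXh : ∀ i, i ≤ ρ + 1 + a → h (X i) = i := by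
    intro i hi
    rcases Nat.lt_or_ge (ρ + 1) i with hi' | hi'
    · obtain ⟨i', rfl⟩ : ∃ i', i = ρ + 1 + i' := ⟨i - (ρ + 1), by omega⟩
      rw [hX2]
      exact A.up i' (by omega)
    · rw [hX1 i hi']
      exact he0h i hi'
  have hYh : ∀ i, i ≤ ρ + 1 + b → h (Y i) = i := by
    intro i hi
    rcases Nat.lt_or_ge (ρ + 1) i with hi' | hi'
    · obtain ⟨i', rfl⟩ : ∃ i', i = ρ + 1 + i' := ⟨i - (ρ + 1), by omega⟩
      rw [hY2, A.down (m - i') (by omega) (by omega)]
      omega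
    · rw [hY1 i hi']
      exact he1h i hi'
  obtain ⟨col, Ga, Gb, hH, hGa, hGb, hab, hcA, hcB, hpal⟩ := cyc_palettes hc hs
  have hdist : G.dist (c 0) (c s) = s := by
    rw [hc.dist 0 s (Nat.zero_le _) (by omega)]
    rw [Nat.min_eq_left (by omega)]
    omega
  have hs3 : B * (2 * h0) ≤ s / 2 := by
    rw [hdist] at hs1
    have h1 : B * (2 * h0) = 2 * (B * h0) := by ring
    omega
  have hZH : ∀ v, G.dist z v ≤ h' → v ∉ Set.range c := by
    intro v hv hvc
    have h1 := (F.zero v).2 hvc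
    have h2 := y7_lip hcon F z v
    omega
  have key := arch_colour (H := Set.range c) (col := col) (q := (n + 1) / 2) hH hGa hGb hab
    (f0 := c 0) (f1 := c s) ⟨0, rfl⟩ ⟨s, rfl⟩ hpal (Z := {v | G.dist z v ≤ h'}) hZH
    (T1 := T1) (T2 := T2) hT1Z hT2Z hT1 hT2 (by omega) (by omega) (d := 6 * B ^ 2) hTd
    (p := ρ + 1 + a) (r := ρ + 1 + b) (x := X) (y := Y) (by rw [hX1 0 (Nat.zero_le _), he00])
    (by rw [hY1 0 (Nat.zero_le _), he10])
    (by
      change G.dist z (X (ρ + 1 + a)) ≤ h'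
      rw [hX2, hz, SimpleGraph.dist_comm]
      have := hxd a μ (by omega) (by omega)
      omega)
    (by
      change G.dist z (Y (ρ + 1 + b)) ≤ h'
      rw [hY2, hz]
      have := hxd μ (m - b) (by omega) (by omega)
      omega)
    (by
      intro i hi
      rcases Nat.lt_or_ge i (ρ + 1) with hi' | hi'
      · rw [hX1 i (by omega), hX1 (i + 1) (by omega)]
        exact he0a i hi'
      · obtain ⟨i', rfl⟩ : ∃ i', i = ρ + 1 + i' := ⟨i - (ρ + 1), by omega⟩
        rw [hX2, Nat.add_assoc (ρ + 1) i' 1, hX2]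
        exact A.adj i' (by omega))
    (by
      intro i hi
      rcases Nat.lt_or_ge i (ρ + 1) with hi' | hi'
      · rw [hY1 i (by omega), hY1 (i + 1) (by omega)]
        exact he1a i hi'
      · obtain ⟨i', rfl⟩ : ∃ i', i = ρ + 1 + i' := ⟨i - (ρ + 1), by omega⟩
        rw [hY2, Nat.add_assoc (ρ + 1) i' 1, hY2]
        have h1 := A.adj (m - (i' + 1)) (by omega)
        have h2 : m - (i' + 1) + 1 = m - i' := by omega
        rw [h2] at h1
        exact h1.symm)
    (by
      intro i hi0 hi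
      have hhi := hXh i (by omega)
      refine ⟨fun hcc => ?_, fun hZ => ?_⟩
      · have := (F.zero (X i)).2 hcc
        omega
      · have hZ' : G.dist z (X i) ≤ h' := hZ
        rcases Nat.lt_or_ge (ρ + 1) i with hi' | hi'
        · obtain ⟨i', rfl⟩ : ∃ i', i = ρ + 1 + i' := ⟨i - (ρ + 1), by omega⟩
          rw [hX2, hz, SimpleGraph.dist_comm] at hZ'
          rw [hz] at hzh
          have := A.tight i' μ (by omega) (by omega) (Or.inr (by omega))
          omega
        · have := y7_lip hcon F z (X i)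
          omega)
    (by
      intro i hi0 hi
      have hhi := hYh i (by omega)
      refine ⟨fun hcc => ?_, fun hZ => ?_⟩
      · have := (F.zero (Y i)).2 hcc
        omega
      · have hZ' : G.dist z (Y i) ≤ h' := hZ
        rcases Nat.lt_or_ge (ρ + 1) i with hi' | hi'
        · obtain ⟨i', rfl⟩ : ∃ i', i = ρ + 1 + i' := ⟨i - (ρ + 1), by omega⟩
          rw [hY2, hz] at hZ'
          rw [hz] at hzh
          have := A.tight μ (m - i') (by omega) (by omega) (Or.inl (by omega))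
          omega
        · have := y7_lip hcon F z (Y i)
          omega)
    (by
      intro i j hi hj hij
      have h1 := hXh i hi
      have h2 := hXh j hj
      rw [hij] at h1
      omega)
    (by
      intro i j hi hj hij
      have h1 := hYh i hi
      have h2 := hYh j hj
      rw [hij] at h1
      omega)
    (by
      intro i j hi hj hij
      have h1 := hXh i (by omega)
      have h2 := hYh j (by omega)
      rw [hij] at h1
      have h3 : i = j := by omega
      subst h3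
      rcases Nat.lt_or_ge (ρ + 1) i with hi' | hi'
      · obtain ⟨i', rfl⟩ : ∃ i', i = ρ + 1 + i' := ⟨i - (ρ + 1), by omega⟩
        rw [hX2, hY2] at hij
        have h4 : G.dist (x i') (x (m - i')) = 0 := by
          rw [hij]
          exact SimpleGraph.dist_self
        have h5 := A.up i' (by omega)
        have := A.tight i' (m - i') (by omega) (by omega) (Or.inl (by omega))
        omega
      · rw [hX1 i hi', hY1 i hi'] at hij
        have h4 := y7_dist hcon i (ρ + 1) hi' (fun t _ ht => he0a t ht)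
        have h5 := y7_dist hcon i (ρ + 1) hi' (fun t _ ht => he1a t ht)
        rw [he0, hij, SimpleGraph.dist_comm] at h4
        rw [he1] at h5
        have h6 := hcon.dist_triangle (u := x 0) (v := e1 i) (w := x m)
        omega)
  refine ⟨_, _, ?_, ?_, key, ?_⟩
  · intro i
    exact Or.inl (Or.inl (Or.inl ⟨i, rfl⟩))
  · intro i hi
    rcases Nat.lt_or_ge a i with h1 | h1
    · rcases Nat.lt_or_ge i (m - b) with h2 | h2
      · refine Or.inl (Or.inl (Or.inr ?_))
        change G.dist z (x i) ≤ h'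
        rw [hz]
        rcases le_total i μ with h3 | h3
        · rw [SimpleGraph.dist_comm]
          have := hxd i μ h3 (by omega)
          omega
        · have := hxd μ i h3 hi
          omega
      · refine Or.inr ⟨ρ + 1 + (m - i), by omega, ?_⟩
        rw [hY2]
        congr 1
        omega
    · exact Or.inl (Or.inr ⟨ρ + 1 + i, by omega, (hX2 i).symm⟩)
  · have hmax : max (ρ + 1 + a) (ρ + 1 + b) = ρ + 1 + b := max_eq_right (by omega)
    rw [hmax]
    omega

end Pool.RBE
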