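import Pool.Agent.RBE.Y7

set_option autoImplicit false

/-! [RBE-Y7b] a cycle with an arch, general position of the feet -/

namespace Pool.RBE

open SimpleGraph Pool.Agent.RBC

private theorem y7b_per {V : Type} {G : SimpleGraph V} {n : ℕ} {c : ℕ → V}
    (h : IsoCyc G n c) (i m : ℕ) : c (i + n * m) = c i := by
  induction m with
  | zero => simp
  | succ m ih => rw [Nat.mul_succ, ← Nat.add_assoc, h.per, ih]

private theorem y7b_coord {V : Type} {G : SimpleGraph V} {n : ℕ} {c : ℕ → V}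
    (h : IsoCyc G n c) (i0 : ℕ) {x : V} (hx : x ∈ Set.range c) :
    ∃ t, t < n ∧ x = c (t + i0) := by
  obtain ⟨j, rfl⟩ := hx
  have h3 := h.three
  refine ⟨(j + n * i0 - i0) % n, Nat.mod_lt _ (by omega), ?_⟩
  have h1 : i0 ≤ n * i0 := Nat.le_mul_of_pos_left _ (by omega)
  have h2 := y7b_per h ((j + n * i0 - i0) % n + i0) ((j + n * i0 - i0) / n)
  rw [← h2, ← y7b_per h j i0]
  congr 1
  have h4 := Nat.mod_add_div (j + n * i0 - i0) n
  omega

private theorem y7b_shift {V : Type} {G : SimpleGraph V} {n : ℕ} {c : ℕ → V}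
    (h : IsoCyc G n c) (a : ℕ) : IsoCyc G n (fun i => c (i + a)) := by
  refine ⟨h.three, fun i => ?_, fun i j hij hj => ?_⟩
  · have e1 : i + n + a = (i + a) + n := by omega
    simp only [e1]
    exact h.per (i + a)
  · have h1 := h.dist (i + a) (j + a) (by omega) (by omega)
    have e1 : j + a - (i + a) = j - i := by omega
    have e2 : i + a + n - (j + a) = i + n - j := by omega
    rw [e1, e2] at h1
    exact h1

private theorem y7b_range {V : Type} {G : SimpleGraph V} {n : ℕ} {c : ℕ → V}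
    (h : IsoCyc G n c) (a : ℕ) : Set.range (fun i => c (i + a)) = Set.range c := by
  ext x
  constructor
  · rintro ⟨i, rfl⟩
    exact ⟨i + a, rfl⟩
  · intro hx
    obtain ⟨t, _, ht⟩ := y7b_coord h a hx
    exact ⟨t, ht.symm⟩

private theorem y7b_vert {V : Type} {G : SimpleGraph V} {D : Set V} {h : V → ℕ} {π : V → V}
    (F : Forest G D h π) {ρ : ℕ} {y : V} (hy : h y = ρ + 1) :
    (∀ i, i < ρ + 1 → G.Adj (π^[ρ + 1 - i] y) (π^[ρ + 1 - (i + 1)] y)) ∧
      ∀ i, i ≤ ρ + 1 → h (π^[ρ + 1 - i] y) = i := by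
  have h1 : ∀ i, i ≤ ρ + 1 → h (π^[ρ + 1 - i] y) = i := by
    intro i hi
    rw [forest_h_iter F y (ρ + 1 - i) (by omega)]
    omega
  refine ⟨fun i hi => ?_, h1⟩
  have h2 := h1 (i + 1) (by omega)
  have h3 := (F.step (π^[ρ + 1 - (i + 1)] y) (by omega)).1
  have e1 : ρ + 1 - i = (ρ + 1 - (i + 1)) + 1 := by omega
  rw [e1, Function.iterate_succ_apply']
  exact h3.symm

/-- one position of the feet -/
private theorem y7b_core {V : Type} [Fintype V] {G : SimpleGraph V} {k : ℕ} (hk : 4 ≤ k)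
    (hG : KConn G k)
    {B : ℕ} (hlin : ∀ (v : V) (R : ℕ), (ball G v R).card < B * (R + 1)) {n : ℕ} {c : ℕ → V}
    (hc : IsoCyc G n c) {h : V → ℕ} {π : V → V} (F : Forest G (Set.range c) h π) {ρ m h0 : ℕ}
    (h01 : 1 ≤ h0) {x : ℕ → V} (A : Arch G h ρ m x) (hm : 4 * h0 + 4 ≤ m)
    (hfar : 2 * (ρ + 1) + 4 * (B * h0) < G.dist (x 0) (x m)) (a s : ℕ)
    (h1 : π^[ρ + 1] (x 0) = c a) (h2 : π^[ρ + 1] (x m) = c (s + a)) (hs : 2 * s ≤ n) :
    ∃ (D : Set V) (q : ℕ), (∀ i, c i ∈ D) ∧ (∀ i, i ≤ m → x i ∈ D) ∧ Rb G D q ∧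
      q + h0 ≤ (n + 1) / 2 + (ρ + 1) + (m + 1) / 2 + 6 * B ^ 2 := by
  have hconn : G.Connected := kconn_connected hG (by omega)
  have hx0 : h (x 0) = ρ + 1 := A.up 0 (by omega)
  have hxm : h (x m) = ρ + 1 := by
    have h3 := A.down m le_rfl (by omega)
    rw [h3]
    omega
  obtain ⟨v1, v2⟩ := y7b_vert F hx0
  obtain ⟨w1, w2⟩ := y7b_vert F hxm
  have hd0 : G.dist (x 0) (c a) ≤ ρ + 1 := by
    have h3 : Desc h π (c a) (x 0) := by
      have h4 := v2 0 (by omega)
      rw [Nat.sub_zero, h1] at h4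
      refine ⟨by omega, ?_⟩
      rw [h4, hx0, Nat.sub_zero, h1]
    exact (desc_dist hconn F h3).trans (by omega)
  have hdm : G.dist (x m) (c (s + a)) ≤ ρ + 1 := by
    have h3 : Desc h π (c (s + a)) (x m) := by
      have h4 := w2 0 (by omega)
      rw [Nat.sub_zero, h2] at h4
      refine ⟨by omega, ?_⟩
      rw [h4, hxm, Nat.sub_zero, h2]
    exact (desc_dist hconn F h3).trans (by omega)
  have hdd : 4 * (B * h0) < G.dist (c a) (c (s + a)) := by
    have t1 : G.dist (x 0) (x m) ≤ G.dist (x 0) (c a) + G.dist (c a) (x m) :=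
      hconn.dist_triangle
    have t2 : G.dist (c a) (x m) ≤ G.dist (c a) (c (s + a)) + G.dist (c (s + a)) (x m) :=
      hconn.dist_triangle
    have t3 : G.dist (c (s + a)) (x m) = G.dist (x m) (c (s + a)) := SimpleGraph.dist_comm
    omega
  have hc' := y7b_shift hc a
  have hr := y7b_range hc a
  have F' : Forest G (Set.range (fun i => c (i + a))) h π := by
    rw [hr]
    exact F
  obtain ⟨D, q, q1, q2, q3, q4⟩ := arch_rb0 hk hG hlin hc' F' h01 A hm (by omega)
    (e0 := fun i => π^[ρ + 1 - i] (x 0)) (e1 := fun i => π^[ρ + 1 - i] (x m)) (s := s)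
    (by
      simp only [Nat.sub_zero, Nat.zero_add]
      exact h1)
    (by
      simp only [Nat.sub_zero]
      exact h2)
    (by simp) (by simp) v1 w1 v2 w2 hs
    (by
      simp only [Nat.zero_add]
      omega)
    (by
      simp only [Nat.zero_add]
      omega)
  refine ⟨D, q, fun i => ?_, q2, q3, q4⟩
  have h3 : c i ∈ Set.range (fun i => c (i + a)) := by
    rw [hr]
    exact ⟨i, rfl⟩
  obtain ⟨j, hj⟩ := h3
  rw [← hj]
  exact q1 j

/-- [RBE-Y7b] the general position of the feet.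
Proof. Let `e0 i = π^[ρ+1-i] (x 0)`, `e1 i = π^[ρ+1-i] (x m)` (`F.step`: heights `i`, adjacent); `h (x 0) = ρ + 1 = h (x m)` (`up`, `down`).
`e0 0 = c a`, `e1 0 = c b` for some `a, b` (`F.zero`), and we may take `a, b < n` (`IsoCyc.per`). `G.dist (x 0) (c a) ≤ ρ + 1`, so
`dist (c a) (c b) ≥ dist (x 0) (x m) - 2 (ρ + 1) > 4 B h0`. If `a ≤ b` and `2 (b - a) ≤ n`: `arch_rb0` for the shifted
cycle `c' i = c (i + a)` (`IsoCyc` is shift invariant), `s = b - a`. If `a ≤ b` and `n < 2 (b - a)`: shift by `b`: `c a = c (a + n) = c' (a + n - b)`,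
`s = n - (b - a)`, with the roles of the two feet exchanged (`arch_reverse`). The case `b < a` is symmetric. (The forest
is over `Set.range c = Set.range c'`: rewrite.) -/
theorem arch_rb {V : Type} [Fintype V] {G : SimpleGraph V} {k : ℕ} (hk : 4 ≤ k) (hG : KConn G k)
    {B : ℕ} (hlin : ∀ (v : V) (R : ℕ), (ball G v R).card < B * (R + 1)) {n : ℕ} {c : ℕ → V}
    (hc : IsoCyc G n c) {h : V → ℕ} {π : V → V} (F : Forest G (Set.range c) h π) {ρ m h0 : ℕ}
    (h01 : 1 ≤ h0) {x : ℕ → V} (A : Arch G h ρ m x) (hm : 4 * h0 + 4 ≤ m)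
    (hfar : 2 * (ρ + 1) + 4 * (B * h0) < G.dist (x 0) (x m)) :
    ∃ (D : Set V) (q : ℕ), (∀ i, c i ∈ D) ∧ (∀ i, i ≤ m → x i ∈ D) ∧ Rb G D q ∧
      q + h0 ≤ (n + 1) / 2 + (ρ + 1) + (m + 1) / 2 + 6 * B ^ 2 := by
  have hx0 : h (x 0) = ρ + 1 := A.up 0 (by omega)
  have hxm : h (x m) = ρ + 1 := by
    have h3 := A.down m le_rfl (by omega)
    rw [h3]
    omega
  have hf0 : π^[ρ + 1] (x 0) ∈ Set.range c := by
    rw [← F.zero, forest_h_iter F (x 0) (ρ + 1) (by omega)]
    omega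
  have hfm : π^[ρ + 1] (x m) ∈ Set.range c := by
    rw [← F.zero, forest_h_iter F (x m) (ρ + 1) (by omega)]
    omega
  obtain ⟨a, ha⟩ := hf0
  obtain ⟨t, ht, htm⟩ := y7b_coord hc a hfm
  by_cases h2 : 2 * t ≤ n
  · exact y7b_core hk hG hlin hc F h01 A hm hfar a t ha.symm htm h2
  · have A' := arch_reverse A
    have e1 : m - 0 = m := Nat.sub_zero m
    have e2 : m - m = 0 := Nat.sub_self m
    obtain ⟨D, q, q1, q2, q3, q4⟩ := y7b_core hk hG hlin hc F h01 A' hm (by
        rw [e1, e2, SimpleGraph.dist_comm]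
        exact hfar) (t + a) (n - t) (by
        rw [e1]
        exact htm) (by
        rw [e2, ← ha]
        have e3 : n - t + (t + a) = a + n := by omega
        rw [e3, hc.per]) (by omega)
    refine ⟨D, q, q1, fun i hi => ?_, q3, q4⟩
    have h3 := q2 (m - i) (by omega)
    have e4 : m - (m - i) = i := by omega
    simp only [e4] at h3
    exact h3

end Pool.RBE
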