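import Pool.Agent.RBE.Y6
import Pool.Agent.RBE.Y7b

set_option autoImplicit false

/-! [RBE-Y8] no arch between far apart classes of attachments. -/

namespace Pool.RBE

open SimpleGraph Pool.Agent.RBC

/-- [RBE-Y8a] no arch between far apart classes of attachments.
Proof. `B` from `ball_lin k`, `C` from `slack k (R := k^2)`. `h0 = 6 k^2 + 8 + 6 B^2 + C + 1`,
`σ = 4 * h0 + 4 + 2 * (k^2 + 1) + 4 * (B * h0)`. `min_arch` (`ρ = k^2`) gives `m > σ` and `x` with `dist (x 0) (x m) > σ`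
(`hsep`); `arch_rb`: `D, q`; `arch_mass`: `k n + k m ≤ 2 |nbh G D (k^2)| + k (10 k^2 + 12)`; `slack`: `|nbh G D (k^2)| < k q + C`
(`D` nonempty). So `k n + k m < 2 k q + 2 C + k (10 k^2 + 12)` and
`2 k q + 2 k h0 ≤ k (n + 1) + 2 k (k^2 + 1) + k (m + 1) + 12 k B^2`, hence `2 k h0 < k (12 k^2 + 16 + 12 B^2) + 2 C`:
contradiction (`2 C ≤ 2 k C`). -/
theorem no_arch (k : ℕ) (hk : 4 ≤ k) : ∃ σ : ℕ, ∀ (V : Type) [Fintype V] (G : SimpleGraph V),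
    KConn G k → Irr G k → ∀ (n : ℕ) (c : ℕ → V), IsoCyc G n c → ∀ (h : V → ℕ) (π : V → V),
    Forest G (Set.range c) h π → ∀ A1 A2 : Set V, (∀ y ∈ A1, h y = k ^ 2 + 1) →
    (∀ y ∈ A2, h y = k ^ 2 + 1) →
    (∀ y ∈ A1 ∪ A2, ∀ y', h y' = k ^ 2 + 1 → JS G {v | k ^ 2 < h v} y y' → y' ∈ A1 ∪ A2) →
    (∃ y1 ∈ A1, ∃ y2 ∈ A2, JS G {v | k ^ 2 < h v} y1 y2) →
    (∀ y1 ∈ A1, ∀ y2 ∈ A2, σ < G.dist y1 y2) → False := by
  obtain ⟨B, hB1, hB⟩ := ball_lin k (by omega)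
  obtain ⟨C, hC⟩ := slack k (by omega) (k ^ 2)
  set h0 : ℕ := 6 * k ^ 2 + 8 + 6 * B ^ 2 + C + 1 with hh0
  refine ⟨4 * h0 + 4 + 2 * (k ^ 2 + 1) + 4 * (B * h0), ?_⟩
  intro V _ G hG hI n c hc h π F A1 A2 h1 h2 hall hne hsep
  have hcon : G.Connected := kconn_connected hG (by omega)
  obtain ⟨m, x, hx0, hxm, hm, A⟩ := min_arch hcon F h1 h2 hall hne hsep
  have hfar := hsep _ hx0 _ hxm
  obtain ⟨D, q, hD1, hD2, hD3, hD4⟩ := arch_rb hk hG (hB V G hG hI) hc F (ρ := k ^ 2) (h0 := h0)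
    (by omega) A (by omega) (by omega)
  have hmass := arch_mass (by omega) hG hc F A hD1 hD2
  have hsl := hC V G hG hI D q ⟨c 0, hD1 0⟩ hD3
  set N := (nbh G D (k ^ 2)).card with hN
  have e1 : k * q + k * h0 ≤ k * ((n + 1) / 2) + k * (k ^ 2 + 1) + k * ((m + 1) / 2) + k * (6 * B ^ 2) := by
    have := Nat.mul_le_mul_left k hD4
    rw [Nat.mul_add] at this
    refine this.trans (le_of_eq ?_)
    ring
  have e2 : 2 * (k * ((n + 1) / 2)) ≤ k * n + k := by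
    have h3 : 2 * ((n + 1) / 2) ≤ n + 1 := by omega
    calc 2 * (k * ((n + 1) / 2)) = k * (2 * ((n + 1) / 2)) := by ring
      _ ≤ k * (n + 1) := Nat.mul_le_mul_left k h3
      _ = k * n + k := by ring
  have e3 : 2 * (k * ((m + 1) / 2)) ≤ k * m + k := by
    have h3 : 2 * ((m + 1) / 2) ≤ m + 1 := by omega
    calc 2 * (k * ((m + 1) / 2)) = k * (2 * ((m + 1) / 2)) := by ring
      _ ≤ k * (m + 1) := Nat.mul_le_mul_left k h3
      _ = k * m + k := by ring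
  have e4 : k * h0 = k * (6 * k ^ 2) + 8 * k + k * (6 * B ^ 2) + k * C + k := by
    rw [hh0]; ring
  have e5 : k * (10 * k ^ 2 + 12) = k * (6 * k ^ 2) + k * (4 * k ^ 2) + 12 * k := by ring
  have e6 : k * (k ^ 2 + 1) = k * k ^ 2 + k := by ring
  have e7 : k * (6 * k ^ 2) = 6 * (k * k ^ 2) := by ring
  have e8 : k * (4 * k ^ 2) = 4 * (k * k ^ 2) := by ring
  have e9 : C ≤ k * C := Nat.le_mul_of_pos_left C (by omega)
  rw [e5] at hmass
  rw [e4] at e1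
  rw [e6] at e1
  rw [e7, e8] at hmass
  rw [e7] at e1
  omega

end Pool.RBE
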